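import Pool.Agent.PFlow.StmtsG
import Pool.Agent.PenroseConvex.COVR

/-!
# Invariance of the leafwise objects under changes of coordinates
-/

set_option autoImplicit false

open MeasureTheory Filter Topology
open scoped ContDiff

namespace Pool.Agent.PFlow.GB

open Pool.Agent.PenroseSph Pool.Agent.PFlow Pool.Agent.PenroseConvex

namespace COVGm

/-! ### Linear algebra -/

/-- The pull-back of a covector. -/
def pc (J : Bil) (p : Cov) : Cov := fun i => ∑ a, p a * J a i

/-- The pull-back of a bilinear form. -/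
def pb (J B : Bil) : Bil := Matrix.of fun i j => ∑ b, ∑ c, B b c * J b i * J c j

/-- The push-forward of a vector. -/
def pf (J : Bil) (v : Cov) : Cov := fun a => ∑ i, J a i * v i

theorem pb_eq (J B : Bil) : pb J B = J.transpose * B * J := by
  ext i j
  simp only [pb, Matrix.of_apply, Matrix.mul_apply, Matrix.transpose_apply, Fin.sum_univ_three]
  ring

/-- The inverse metrics correspond to each other. -/
def Rel (J P Q : Bil) : Prop := ∀ b c, ∑ i, ∑ j, J b i * P i j * J c j = Q b c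

theorem Rel.eq {J P Q : Bil} (h : Rel J P Q) (b c : Fin 3) :
    Q b c = ∑ i, ∑ j, J b i * P i j * J c j := (h b c).symm

theorem rel_mat {J P Q : Bil} (h : Rel J P Q) : J * P * J.transpose = Q := by
  ext b c
  rw [← h b c]
  simp only [Matrix.mul_apply, Matrix.transpose_apply, Fin.sum_univ_three]
  ring

theorem ev_pc {J P Q : Bil} (h : Rel J P Q) (A B : Cov) : ev P (pc J A) (pc J B) = ev Q A B := by
  simp only [ev, h.eq, pc, Fin.sum_univ_three]
  ring

theorem ev_pb (J B : Bil) (v w : Cov) : ev (pb J B) v w = ev B (pf J v) (pf J w) := by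
  simp only [ev, pb, pf, Matrix.of_apply, Fin.sum_univ_three]
  ring

theorem pair_pc (J : Bil) (A v : Cov) : ∑ i, pc J A i * v i = ∑ a, A a * pf J v a := by
  simp only [pc, pf, Fin.sum_univ_three]
  ring

theorem contr_pb (J B : Bil) (v : Cov) : contr (pb J B) v = pc J (contr B (pf J v)) := by
  funext i
  simp only [contr, pb, pc, pf, Matrix.of_apply, Fin.sum_univ_three]
  ring

variable {g G : TensorField} {x X : E3} {J : Bil}

theorem len_pc (h : Rel J (g x)⁻¹ (G X)⁻¹) (p : Cov) : len g x (pc J p) = len G X p := by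
  unfold len
  rw [ev_pc h]

theorem raise_pc (h : Rel J (g x)⁻¹ (G X)⁻¹) (p : Cov) :
    pf J (raise g x (pc J p)) = raise G X p := by
  funext a
  simp only [pf, raise, h.eq, pc, Fin.sum_univ_three]
  ring

theorem nrm_pc (h : Rel J (g x)⁻¹ (G X)⁻¹) (p : Cov) :
    pf J (nrm g x (pc J p)) = nrm G X p := by
  funext a
  have h1 := congrFun (raise_pc h p) a
  unfold nrm
  rw [← h1, len_pc h]
  simp only [pf, Fin.sum_univ_three]
  ring

theorem lip_pc (h : Rel J (g x)⁻¹ (G X)⁻¹) (p A B : Cov) :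
    lip g x (pc J p) (pc J A) (pc J B) = lip G X p A B := by
  unfold lip
  rw [ev_pc h, pair_pc, pair_pc, nrm_pc h]

theorem bnn_pc (h : Rel J (g x)⁻¹ (G X)⁻¹) (p : Cov) (B : Bil) :
    bnn g x (pc J p) (pb J B) = bnn G X p B := by
  unfold bnn
  rw [ev_pb, nrm_pc h]

theorem trg_pb (h : Rel J (g x)⁻¹ (G X)⁻¹) (B : Bil) : trg g x (pb J B) = trg G X B := by
  simp only [trg, pb, h.eq, Matrix.of_apply, Fin.sum_univ_three]
  ring

theorem nsq_eq (g : TensorField) (x : E3) (B : Bil) :
    nsq g x B = Matrix.trace ((g x)⁻¹.transpose * B.transpose * (g x)⁻¹ * B) := by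
  simp only [nsq, Matrix.trace, Matrix.diag, Matrix.mul_apply, Matrix.transpose_apply,
    Fin.sum_univ_three]
  ring

theorem nsq_pb (h : Rel J (g x)⁻¹ (G X)⁻¹) (B : Bil) : nsq g x (pb J B) = nsq G X B := by
  rw [nsq_eq, nsq_eq, pb_eq, ← rel_mat h]
  calc Matrix.trace ((g x)⁻¹.transpose * (J.transpose * B * J).transpose * (g x)⁻¹
        * (J.transpose * B * J))
      = Matrix.trace (((g x)⁻¹.transpose * J.transpose * B.transpose * J * (g x)⁻¹
          * J.transpose * B) * J) := by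
        congr 1
        simp only [Matrix.transpose_mul, Matrix.transpose_transpose, Matrix.mul_assoc]
    _ = Matrix.trace (J * ((g x)⁻¹.transpose * J.transpose * B.transpose * J * (g x)⁻¹
          * J.transpose * B)) := Matrix.trace_mul_comm _ _
    _ = Matrix.trace ((J * (g x)⁻¹ * J.transpose).transpose * B.transpose
          * (J * (g x)⁻¹ * J.transpose) * B) := by
        congr 1
        simp only [Matrix.transpose_mul, Matrix.transpose_transpose, Matrix.mul_assoc]

/-- The Gauss curvature. -/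
theorem gaussK_pc (h : Rel J (g x)⁻¹ (G X)⁻¹) (hs : scalarCurvature g x = scalarCurvature G X)
    (hr : ric g x = pb J (ric G X)) (p : Cov) (M' M : Bil)
    (hH : cHess g x (pc J p) M' = pb J (cHess G X p M)) :
    gaussK g x (pc J p) M' = gaussK G X p M := by
  unfold gaussK
  rw [hs, hr, hH, bnn_pc h, bnn_pc h, trg_pb h, nsq_pb h, len_pc h, contr_pb, ev_pc h, nrm_pc h]

/-! ### Calculus -/

open PenroseConvex.CovR

theorem rel_chg {Φ : E3 → E3} {G g : TensorField} {y : E3} (h : Chg Φ G g y) :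
    Rel (PenroseConvex.jac Φ y) (g y)⁻¹ (G (Φ y))⁻¹ := by
  intro b c
  have hg : g y = (PenroseConvex.jac Φ y).transpose * G (Φ y) * PenroseConvex.jac Φ y :=
    h.eq.self_of_nhds
  have h1 := inv_pull (PenroseConvex.jac Φ y) (G (Φ y)) h.det_jac h.det_G
  rw [← hg] at h1
  rw [← h1]
  simp only [Matrix.mul_apply, Matrix.transpose_apply, Fin.sum_univ_three]
  ring

/-- The gradient of a composition. -/
theorem grad_comp {Φ : E3 → E3} {f : E3 → ℝ} {y : E3} (hf : DifferentiableAt ℝ f (Φ y))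
    (hΦ : DifferentiableAt ℝ Φ y) :
    grad (fun z => f (Φ z)) y = pc (PenroseConvex.jac Φ y) (grad f (Φ y)) := by
  funext i
  exact pd_chain Φ f y i hf hΦ

/-- The Hessian of a composition. -/
theorem hess_comp {Φ : E3 → E3} {f : E3 → ℝ} {x : E3} (hf : ContDiffAt ℝ 2 f (Φ x))
    (hΦ : ContDiffAt ℝ 2 Φ x) (i j : Fin 3) :
    hess2 (fun z => f (Φ z)) x i j
      = (∑ b, ∑ c, hess2 f (Φ x) b c * PenroseConvex.jac Φ x b i * PenroseConvex.jac Φ x c j)
        + ∑ a, grad f (Φ x) a * D2 Φ a i j x := by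
  have hc : ContinuousAt Φ x := hΦ.continuousAt
  have hΦx : DifferentiableAt ℝ Φ x := hΦ.differentiableAt (by norm_num)
  have hfe : ∀ᶠ y in 𝓝 x, DifferentiableAt ℝ f (Φ y) := by
    refine hc.eventually (p := fun z => DifferentiableAt ℝ f z) ?_
    exact ((hf.of_le (by norm_num : (1 : WithTop ℕ∞) ≤ 2)).eventually (by simp)).mono
      fun z hz => hz.differentiableAt (by norm_num)
  have hΦe : ∀ᶠ y in 𝓝 x, DifferentiableAt ℝ Φ y :=
    ((hΦ.of_le (by norm_num : (1 : WithTop ℕ∞) ≤ 2)).eventually (by simp)).mono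
      fun z hz => hz.differentiableAt (by norm_num)
  have h1 : pd j (fun z => f (Φ z)) =ᶠ[𝓝 x]
      fun y => ∑ a, pd a f (Φ y) * PenroseConvex.jac Φ y a j := by
    filter_upwards [hfe, hΦe] with y h1 h2
    exact pd_chain Φ f y j h1 h2
  have h2 : ∀ a, DifferentiableAt ℝ (pd a f) (Φ x) := fun a =>
    (contDiffAt_pd hf (n := 1) (by norm_num) a).differentiableAt (by norm_num)
  have h3 : ∀ a, DifferentiableAt ℝ (fun y => pd a f (Φ y)) x := fun a => (h2 a).comp x hΦx
  have h4 := differentiableAt_jac hΦ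
  have h5 : hess2 (fun z => f (Φ z)) x i j = pd i (pd j (fun z => f (Φ z))) x := rfl
  rw [h5, pd_congr h1, pd_sum Finset.univ (fun a y => pd a f (Φ y) * PenroseConvex.jac Φ y a j)
    fun a _ => (h3 a).mul (h4 a j)]
  have h6 : ∀ a, pd i (fun y => pd a f (Φ y) * PenroseConvex.jac Φ y a j) x
      = (∑ b, hess2 f (Φ x) b a * PenroseConvex.jac Φ x b i) * PenroseConvex.jac Φ x a j
        + grad f (Φ x) a * D2 Φ a i j x := by
    intro a
    rw [pd_mul (h3 a) (h4 a j), pd_jac, pd_chain Φ (pd a f) x i (h2 a) hΦx]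
    have h7 : ∀ c, pd i (fun y => Φ y c) x = PenroseConvex.jac Φ x c i := fun c => rfl
    simp only [h7, hess2, grad, Matrix.of_apply]
    ring
  simp only [h6, Fin.sum_univ_three]
  ring

/-- The covariant Hessian of a composition. -/
theorem cHess_comp {Φ : E3 → E3} {G g : TensorField} {f : E3 → ℝ} {x : E3} (h : Chg Φ G g x)
    (hf : ContDiffAt ℝ 2 f (Φ x)) :
    cHess g x (grad (fun z => f (Φ z)) x) (hess2 (fun z => f (Φ z)) x)
      = pb (PenroseConvex.jac Φ x) (cHess G (Φ x) (grad f (Φ x)) (hess2 f (Φ x))) := by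
  have hΦx : DifferentiableAt ℝ Φ x := h.smooth.differentiableAt (by norm_num)
  have hfx : DifferentiableAt ℝ f (Φ x) := hf.differentiableAt (by norm_num)
  rw [grad_comp hfx hΦx]
  ext i j
  have h1 := hess_comp hf h.smooth i j
  have h2 : ∑ k, christoffel g k i j x * pc (PenroseConvex.jac Φ x) (grad f (Φ x)) k
      = ∑ a, grad f (Φ x) a * ∑ k, PenroseConvex.jac Φ x a k * christoffel g k i j x := by
    simp only [pc, Fin.sum_univ_three]
    ring
  simp only [cHess, Matrix.of_apply]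
  rw [h1, h2]
  simp only [covC h]
  simp only [RR, pb, Matrix.of_apply, Fin.sum_univ_three]
  ring

/-- The divergence of the columns of the adjugate of the Jacobian matrix. -/
theorem adj_div {Φ : E3 → E3} {x : E3} (h : ContDiffAt ℝ 2 Φ x) (a : Fin 3) :
    (∀ i, DifferentiableAt ℝ (fun y => (PenroseConvex.jac Φ y).adjugate i a) x) ∧
    ∑ i, pd i (fun y => (PenroseConvex.jac Φ y).adjugate i a) x = 0 := by
  have hJ := differentiableAt_jac h
  have hs := D2_symm h
  have key : ∀ (b c : Fin 3),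
      let F : Fin 3 → E3 → ℝ := ![
        fun y => PenroseConvex.jac Φ y b 1 * PenroseConvex.jac Φ y c 2
          - PenroseConvex.jac Φ y b 2 * PenroseConvex.jac Φ y c 1,
        fun y => PenroseConvex.jac Φ y b 2 * PenroseConvex.jac Φ y c 0
          - PenroseConvex.jac Φ y b 0 * PenroseConvex.jac Φ y c 2,
        fun y => PenroseConvex.jac Φ y b 0 * PenroseConvex.jac Φ y c 1
          - PenroseConvex.jac Φ y b 1 * PenroseConvex.jac Φ y c 0]
      (∀ i, DifferentiableAt ℝ (F i) x) ∧ ∑ i, pd i (F i) x = 0 := by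
    intro b c F
    have hF : ∀ i, DifferentiableAt ℝ (F i) x := by
      intro i
      fin_cases i
      · exact ((hJ b 1).mul (hJ c 2)).sub ((hJ b 2).mul (hJ c 1))
      · exact ((hJ b 2).mul (hJ c 0)).sub ((hJ b 0).mul (hJ c 2))
      · exact ((hJ b 0).mul (hJ c 1)).sub ((hJ b 1).mul (hJ c 0))
    refine ⟨hF, ?_⟩
    have e : ∀ (i j k : Fin 3), pd i (fun y => PenroseConvex.jac Φ y b j * PenroseConvex.jac Φ y c k
        - PenroseConvex.jac Φ y b k * PenroseConvex.jac Φ y c j) x
        = (PenroseConvex.jac Φ x b j * D2 Φ c i k x + PenroseConvex.jac Φ x c k * D2 Φ b i j x)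
          - (PenroseConvex.jac Φ x b k * D2 Φ c i j x
            + PenroseConvex.jac Φ x c j * D2 Φ b i k x) := by
      intro i j k
      rw [pd_sub ((hJ b j).fun_mul (hJ c k)) ((hJ b k).fun_mul (hJ c j)), pd_mul (hJ b j) (hJ c k),
        pd_mul (hJ b k) (hJ c j)]
      simp only [pd_jac]
    have e0 : F 0 = fun y => PenroseConvex.jac Φ y b 1 * PenroseConvex.jac Φ y c 2
          - PenroseConvex.jac Φ y b 2 * PenroseConvex.jac Φ y c 1 := rfl
    have e1 : F 1 = fun y => PenroseConvex.jac Φ y b 2 * PenroseConvex.jac Φ y c 0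
          - PenroseConvex.jac Φ y b 0 * PenroseConvex.jac Φ y c 2 := rfl
    have e2 : F 2 = fun y => PenroseConvex.jac Φ y b 0 * PenroseConvex.jac Φ y c 1
          - PenroseConvex.jac Φ y b 1 * PenroseConvex.jac Φ y c 0 := rfl
    rw [Fin.sum_univ_three, e0, e1, e2, e, e, e, hs b 1 0, hs b 2 0, hs b 2 1, hs c 1 0,
      hs c 2 0, hs c 2 1]
    ring
  have hadj : ∃ b c : Fin 3, ∀ i : Fin 3,
      (fun y => (PenroseConvex.jac Φ y).adjugate i a) = (![
        fun y => PenroseConvex.jac Φ y b 1 * PenroseConvex.jac Φ y c 2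
          - PenroseConvex.jac Φ y b 2 * PenroseConvex.jac Φ y c 1,
        fun y => PenroseConvex.jac Φ y b 2 * PenroseConvex.jac Φ y c 0
          - PenroseConvex.jac Φ y b 0 * PenroseConvex.jac Φ y c 2,
        fun y => PenroseConvex.jac Φ y b 0 * PenroseConvex.jac Φ y c 1
          - PenroseConvex.jac Φ y b 1 * PenroseConvex.jac Φ y c 0] : Fin 3 → E3 → ℝ) i := by
    fin_cases a
    · refine ⟨1, 2, fun i => ?_⟩
      funext y
      fin_cases i <;> simp [Matrix.adjugate_fin_three] <;> ring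
    · refine ⟨2, 0, fun i => ?_⟩
      funext y
      fin_cases i <;> simp [Matrix.adjugate_fin_three] <;> ring
    · refine ⟨0, 1, fun i => ?_⟩
      funext y
      fin_cases i <;> simp [Matrix.adjugate_fin_three] <;> ring
  obtain ⟨b, c, hbc⟩ := hadj
  obtain ⟨h1, h2⟩ := key b c
  refine ⟨fun i => by rw [hbc i]; exact h1 i, ?_⟩
  rw [← h2]
  exact Finset.sum_congr rfl fun i _ => by rw [hbc i]

/-- The divergence of a transformed vector density. -/
theorem div_comp {Φ : E3 → E3} {x : E3} (h : ContDiffAt ℝ 2 Φ x) (Z : Fin 3 → E3 → ℝ)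
    (hZ : ∀ a, DifferentiableAt ℝ (Z a) (Φ x)) :
    ∑ i, pd i (fun y => ∑ a, (PenroseConvex.jac Φ y).adjugate i a * Z a (Φ y)) x
      = (PenroseConvex.jac Φ x).det * ∑ a, pd a (Z a) (Φ x) := by
  have hΦx : DifferentiableAt ℝ Φ x := h.differentiableAt (by norm_num)
  have hA := fun a => (adj_div h a).1
  have hd := fun a => (adj_div h a).2
  have h3 : ∀ a, DifferentiableAt ℝ (fun y => Z a (Φ y)) x := fun a => (hZ a).comp x hΦx
  have h4 : ∀ i, pd i (fun y => ∑ a, (PenroseConvex.jac Φ y).adjugate i a * Z a (Φ y)) x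
      = ∑ a, ((PenroseConvex.jac Φ x).adjugate i a
          * ∑ c, pd c (Z a) (Φ x) * PenroseConvex.jac Φ x c i
        + Z a (Φ x) * pd i (fun y => (PenroseConvex.jac Φ y).adjugate i a) x) := by
    intro i
    rw [pd_sum Finset.univ (fun a y => (PenroseConvex.jac Φ y).adjugate i a * Z a (Φ y))
      fun a _ => (hA a i).mul (h3 a)]
    refine Finset.sum_congr rfl fun a _ => ?_
    rw [pd_mul (hA a i) (h3 a), pd_chain Φ (Z a) x i (hZ a) hΦx]
    have h7 : ∀ c, pd i (fun y => Φ y c) x = PenroseConvex.jac Φ x c i := fun c => rfl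
    simp only [h7]
  simp only [h4]
  have h5 : ∑ i, ∑ a, ((PenroseConvex.jac Φ x).adjugate i a
          * ∑ c, pd c (Z a) (Φ x) * PenroseConvex.jac Φ x c i
        + Z a (Φ x) * pd i (fun y => (PenroseConvex.jac Φ y).adjugate i a) x)
      = (∑ a, ∑ c, pd c (Z a) (Φ x)
          * ((PenroseConvex.jac Φ x) * (PenroseConvex.jac Φ x).adjugate) c a)
        + ∑ a, Z a (Φ x) * ∑ i, pd i (fun y => (PenroseConvex.jac Φ y).adjugate i a) x := by
    simp only [Matrix.mul_apply, Fin.sum_univ_three]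
    ring
  rw [h5, Matrix.mul_adjugate]
  simp only [hd, mul_zero, Finset.sum_const_zero, add_zero, Matrix.smul_apply, Matrix.one_apply,
    smul_eq_mul, mul_ite, mul_one, Finset.sum_ite_eq', Finset.mem_univ, if_true]
  rw [Finset.mul_sum]
  exact Finset.sum_congr rfl fun a _ => by simp [mul_comm]

/-- The volume density. -/
theorem volDen_chg {Φ : E3 → E3} {G g : TensorField} {y : E3} (h : Chg Φ G g y) :
    volDen g y = |(PenroseConvex.jac Φ y).det| * volDen G (Φ y) := by
  have hg : g y = (PenroseConvex.jac Φ y).transpose * G (Φ y) * PenroseConvex.jac Φ y :=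
    h.eq.self_of_nhds
  unfold volDen
  rw [hg, Matrix.det_mul, Matrix.det_mul, Matrix.det_transpose,
    show (PenroseConvex.jac Φ y).det * (G (Φ y)).det * (PenroseConvex.jac Φ y).det
      = ((PenroseConvex.jac Φ y).det * (PenroseConvex.jac Φ y).det) * (G (Φ y)).det by ring,
    Real.sqrt_mul (mul_self_nonneg _), Real.sqrt_mul_self_eq_abs]

/-- The leafwise density. -/
theorem dens_chg {Φ : E3 → E3} {G g : TensorField} {W : E3 → ℝ} {y : E3} (h : Chg Φ G g y)
    (hW : DifferentiableAt ℝ W (Φ y)) :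
    dens g (fun z => W (Φ z)) y = |(PenroseConvex.jac Φ y).det| * dens G W (Φ y) := by
  unfold dens
  rw [volDen_chg h, grad_comp hW (h.smooth.differentiableAt (by norm_num)), len_pc (rel_chg h)]
  ring

/-- The leafwise gradient. -/
theorem lgrad_chg {Φ : E3 → E3} {G g : TensorField} {W f : E3 → ℝ} {y : E3} (h : Chg Φ G g y)
    (hW : DifferentiableAt ℝ W (Φ y)) (hf : DifferentiableAt ℝ f (Φ y)) :
    pf (PenroseConvex.jac Φ y) (lgrad g (fun z => W (Φ z)) (fun z => f (Φ z)) y)
      = lgrad G W f (Φ y) := by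
  have hΦ : DifferentiableAt ℝ Φ y := h.smooth.differentiableAt (by norm_num)
  have hr := rel_chg h
  funext a
  unfold lgrad
  rw [grad_comp hW hΦ, grad_comp hf hΦ, ← raise_pc hr, ← nrm_pc hr, pair_pc]
  simp only [pf, Fin.sum_univ_three]
  ring

/-- The sign of the Jacobian determinant is locally constant. -/
theorem sign_jac {Φ : E3 → E3} {x : E3} (h : ContDiffAt ℝ 2 Φ x)
    (hdet : (PenroseConvex.jac Φ x).det ≠ 0) :
    ∃ σ : ℝ, ∀ᶠ y in 𝓝 x, |(PenroseConvex.jac Φ y).det| = σ * (PenroseConvex.jac Φ y).det := by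
  have hc : ContinuousAt (fun y => (PenroseConvex.jac Φ y).det) x :=
    continuousAt_det (M := fun y => PenroseConvex.jac Φ y)
      fun i j => (differentiableAt_jac h i j).continuousAt
  rcases lt_or_gt_of_ne hdet with h1 | h1
  · refine ⟨-1, ?_⟩
    filter_upwards [hc.eventually (eventually_lt_nhds h1)] with y hy
    rw [abs_of_neg hy]
    ring
  · refine ⟨1, ?_⟩
    filter_upwards [hc.eventually (eventually_gt_nhds h1)] with y hy
    rw [abs_of_pos hy]
    ring

/-- The leafwise Laplacian. -/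
theorem lap_chg (hSMO : Stmt_SMO) {Φ : E3 → E3} {G g : TensorField} {W f : E3 → ℝ} {x : E3}
    (h : PenroseConvex.ChangeAt Φ G g x) (hR : Reg G W (Φ x)) (hf : ContDiffAt ℝ 2 f (Φ x)) :
    lap g (fun y => W (Φ y)) (fun y => f (Φ y)) x = lap G W f (Φ x) := by
  have hΦ2 : ContDiffAt ℝ 2 Φ x := h.smooth.of_le le2
  have hcont : ContinuousAt Φ x := hΦ2.continuousAt
  obtain ⟨O, hO, hxO, hM, hWO, hgr⟩ := id hR
  have hWx : ContDiffAt ℝ ∞ W (Φ x) := (hWO (Φ x) hxO).contDiffAt (hO.mem_nhds hxO)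
  have hev : ∀ f : E3 → ℝ, ContDiffAt ℝ 2 f (Φ x) → ∀ᶠ y in 𝓝 x, DifferentiableAt ℝ f (Φ y) := by
    intro f hf
    refine hcont.eventually (p := fun z => DifferentiableAt ℝ f z) ?_
    exact ((hf.of_le (by norm_num : (1 : WithTop ℕ∞) ≤ 2)).eventually (by simp)).mono
      fun z hz => hz.differentiableAt (by norm_num)
  have hWe := hev W (hWx.of_le le2)
  have hfe := hev f hf
  obtain ⟨_, _, _, hd0, _, _, _, _, hdens, _, _, _, _, hsm, _⟩ := hSMO.2 G W (Φ x) hR
  have hlg : ∀ a, DifferentiableAt ℝ (fun y => lgrad G W f y a) (Φ x) := fun a =>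
    ((hsm 1 f f (by simpa using hf) (by simpa using hf)).2 a).differentiableAt (by norm_num)
  have hdd : DifferentiableAt ℝ (dens G W) (Φ x) := hdens.differentiableAt (by simp)
  have hZ : ∀ a, DifferentiableAt ℝ (fun y => dens G W y * lgrad G W f y a) (Φ x) := fun a =>
    hdd.fun_mul (hlg a)
  obtain ⟨σ, hσ⟩ := sign_jac hΦ2 h.det_jac
  have hC := chg_eventually h
  have key : ∀ i, (fun y => dens g (fun z => W (Φ z)) y
        * lgrad g (fun z => W (Φ z)) (fun z => f (Φ z)) y i) =ᶠ[𝓝 x]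
      fun y => σ * ∑ a, (PenroseConvex.jac Φ y).adjugate i a
        * (dens G W (Φ y) * lgrad G W f (Φ y) a) := by
    intro i
    filter_upwards [hC, hWe, hfe, hσ] with y h1 h2 h3 h4
    rw [dens_chg h1 h2, h4, ← lgrad_chg h1 h2 h3]
    have h5 : ∑ a, (PenroseConvex.jac Φ y).adjugate i a * (dens G W (Φ y)
        * pf (PenroseConvex.jac Φ y) (lgrad g (fun z => W (Φ z)) (fun z => f (Φ z)) y) a)
        = dens G W (Φ y) * ∑ j, ((PenroseConvex.jac Φ y).adjugate * PenroseConvex.jac Φ y) i j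
          * lgrad g (fun z => W (Φ z)) (fun z => f (Φ z)) y j := by
      simp only [Matrix.mul_apply, pf, Fin.sum_univ_three]
      ring
    rw [h5, Matrix.adjugate_mul]
    simp only [Matrix.smul_apply, Matrix.one_apply, smul_eq_mul, mul_ite, mul_one, mul_zero,
      ite_mul, zero_mul, Finset.sum_ite_eq, Finset.mem_univ, if_true]
    ring
  have hx := hC.self_of_nhds
  have hAd : ∀ i, DifferentiableAt ℝ (fun y => ∑ a, (PenroseConvex.jac Φ y).adjugate i a
        * (dens G W (Φ y) * lgrad G W f (Φ y) a)) x := by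
    intro i
    refine DifferentiableAt.fun_sum fun a _ => ?_
    have h3 : DifferentiableAt ℝ (fun y => dens G W (Φ y) * lgrad G W f (Φ y) a) x :=
      (hZ a).comp x (hΦ2.differentiableAt (by norm_num))
    exact ((adj_div hΦ2 a).1 i).fun_mul h3
  have hnum : ∑ i, pd i (fun y => dens g (fun z => W (Φ z)) y
        * lgrad g (fun z => W (Φ z)) (fun z => f (Φ z)) y i) x
      = σ * ((PenroseConvex.jac Φ x).det
        * ∑ a, pd a (fun y => dens G W y * lgrad G W f y a) (Φ x)) := by
    rw [← div_comp hΦ2 (fun a y => dens G W y * lgrad G W f y a) hZ, Finset.mul_sum]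
    refine Finset.sum_congr rfl fun i _ => ?_
    rw [pd_congr (key i), pd_const_mul σ (hAd i)]
  unfold lap ldiv
  rw [hnum, dens_chg hx hWe.self_of_nhds, hσ.self_of_nhds]
  have hσ0 : σ * (PenroseConvex.jac Φ x).det ≠ 0 := by
    rw [← hσ.self_of_nhds]
    exact abs_ne_zero.mpr h.det_jac
  rw [← mul_assoc, mul_div_mul_left _ _ hσ0]

end COVGm

open COVGm in
/-- The leafwise objects are invariant under changes of coordinates. -/
theorem COVG (_hALG : Stmt_ALG) (hSMO : Stmt_SMO) (_hLB : Stmt_LB) : Stmt_COVG := by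
  intro Φ G g x W h hR
  have hc := (PenroseConvex.CovR.chg_eventually h).self_of_nhds
  have hΦ : DifferentiableAt ℝ Φ x := hc.smooth.differentiableAt (by norm_num)
  obtain ⟨O, hO, hxO, hM, hWO, hgr⟩ := id hR
  have hWx : ContDiffAt ℝ ∞ W (Φ x) := (hWO (Φ x) hxO).contDiffAt (hO.mem_nhds hxO)
  have hWd : DifferentiableAt ℝ W (Φ x) := hWx.differentiableAt (by simp)
  refine ⟨fun f k hf hk => ?_, fun f hf => lap_chg hSMO h hR hf, ?_⟩
  · unfold lin
    rw [grad_comp hWd hΦ, grad_comp hf hΦ, grad_comp hk hΦ, lip_pc (rel_chg hc)]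
  · unfold curv
    have hH := cHess_comp hc (f := W) (hWx.of_le PenroseConvex.CovR.le2)
    rw [grad_comp hWd hΦ] at hH ⊢
    refine gaussK_pc (rel_chg hc) (PenroseConvex.COVR PenroseConvex.CovR.stmtCOVC Φ G g x h) ?_
      _ _ _ hH
    ext i j
    have := PenroseConvex.CovR.ricci_change h i j
    simpa [ric, pb] using this

end Pool.Agent.PFlow.GB
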