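import Pool.Agent.PFlow.StmtsG

/-!
# Block GB: linear algebra at a point
-/

open MeasureTheory Filter Topology
open scoped ContDiff

namespace Pool.Agent.PFlow.GB

open Pool.Agent.PenroseSph Pool.Agent.PFlow

namespace ALG

/-- Cauchy-Schwarz from nonnegativity of a quadratic polynomial. -/
lemma cs (a b c : ℝ) (hc : 0 ≤ c) (h : ∀ t : ℝ, 0 ≤ a + 2 * t * b + t ^ 2 * c) :
    b ^ 2 ≤ a * c := by
  rcases hc.lt_or_eq with h1 | h1
  · have h2 := h (-(b / c))
    have e : a + 2 * (-(b / c)) * b + (-(b / c)) ^ 2 * c = a - b ^ 2 / c := by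
      field_simp
      ring
    rw [e, sub_nonneg, div_le_iff₀ h1] at h2
    exact h2
  · subst h1
    have hb : b = 0 := by
      by_contra hb
      have h2 := h (-((a + 1) / (2 * b)))
      have e : a + 2 * (-((a + 1) / (2 * b))) * b + (-((a + 1) / (2 * b))) ^ 2 * 0 = -1 := by
        field_simp
        ring
      rw [e] at h2
      linarith
    rw [hb]
    simp

lemma ev_eq (B : Bil) (v w : Cov) : ev B v w = ∑ i, v i * ∑ j, B i j * w j := by
  unfold ev
  refine Finset.sum_congr rfl fun i _ => ?_
  rw [Finset.mul_sum]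
  exact Finset.sum_congr rfl fun j _ => by ring

lemma ev_add_smul (B : Bil) (v w : Cov) (t : ℝ) :
    ev B (fun i => v i + t * w i) (fun i => v i + t * w i) =
      ev B v v + t * (ev B v w + ev B w v) + t ^ 2 * ev B w w := by
  unfold ev
  simp only [Fin.sum_univ_three]
  ring

lemma ev_symm {B : Bil} (hB : ∀ i j, B i j = B j i) (v w : Cov) : ev B v w = ev B w v := by
  unfold ev
  rw [Finset.sum_comm]
  refine Finset.sum_congr rfl fun i _ => Finset.sum_congr rfl fun j _ => ?_
  rw [hB j i]
  ring

end ALG

open ALG in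
theorem ALG : Stmt_ALG := by
  intro g x p hg hp
  set G : Bil := (g x)⁻¹ with hG
  set l : ℝ := len g x p with hl
  have hdet : 0 < (g x).det := hg.det_pos
  have hunit : IsUnit (g x).det := hdet.ne'.isUnit
  have hgs : ∀ i j, g x i j = g x j i := by
    intro i j
    have h2 := congrFun (congrFun hg.isHermitian j) i
    rw [Matrix.conjTranspose_apply] at h2
    simpa using h2
  have hGpos : G.PosDef := hg.inv
  have hGs : ∀ i j, G i j = G j i := by
    intro i j
    have h2 := congrFun (congrFun hGpos.isHermitian j) i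
    rw [Matrix.conjTranspose_apply] at h2
    simpa using h2
  have hevpos : ∀ A : Cov, A ≠ 0 → 0 < ev G A A := by
    intro A hA
    have h1 := hGpos.dotProduct_mulVec_pos hA
    have h2 : ev G A A = star A ⬝ᵥ G.mulVec A := by
      rw [ev_eq]
      rfl
    rw [h2]
    exact h1
  have hevnn : ∀ A : Cov, 0 ≤ ev G A A := by
    intro A
    by_cases hA : A = 0
    · rw [hA]
      unfold ev
      simp
    · exact (hevpos A hA).le
  have hGg : ∀ i k, ∑ j, G i j * g x j k = if i = k then 1 else 0 := by
    intro i k
    rw [← Matrix.mul_apply, hG, Matrix.nonsing_inv_mul _ hunit, Matrix.one_apply]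
  have hgG : ∀ i k, ∑ j, g x i j * G j k = if i = k then 1 else 0 := by
    intro i k
    rw [← Matrix.mul_apply, hG, Matrix.mul_nonsing_inv _ hunit, Matrix.one_apply]
  have hlpos : 0 < l := Real.sqrt_pos.mpr (hevpos p hp)
  have hl2 : l * l = ev G p p := Real.mul_self_sqrt (hevnn p)
  -- the normal
  have hn : ∀ i, nrm g x p i = (∑ j, G i j * p j) / l := fun i => rfl
  have hnA : ∀ A : Cov, ∑ i, A i * nrm g x p i = ev G A p / l := by
    intro A
    rw [ev_eq, Finset.sum_div]
    refine Finset.sum_congr rfl fun i _ => ?_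
    rw [hn]
    ring
  have hnp : ∑ i, nrm g x p i * p i = l := by
    have h1 : ∑ i, nrm g x p i * p i = ∑ i, p i * nrm g x p i :=
      Finset.sum_congr rfl fun i _ => mul_comm _ _
    rw [h1, hnA, ← hl2]
    field_simp
  have hgn : ∀ k, ∑ j, nrm g x p j * g x j k = p k / l := by
    intro k
    have h1 : ∀ j, nrm g x p j * g x j k = ∑ m, (g x k j * G j m) * p m / l := by
      intro j
      rw [hn, ← Finset.sum_div, hgs j k, div_mul_eq_mul_div, Finset.sum_mul]
      congr 1
      exact Finset.sum_congr rfl fun m _ => by ring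
    rw [Finset.sum_congr rfl fun j _ => h1 j, Finset.sum_comm]
    have h2 : ∀ m, ∑ j, (g x k j * G j m) * p m / l = (if k = m then 1 else 0) * p m / l := by
      intro m
      rw [← hgG k m, ← Finset.sum_div, ← Finset.sum_mul]
    rw [Finset.sum_congr rfl fun m _ => h2 m, ← Finset.sum_div]
    simp
  have hnn : ev (g x) (nrm g x p) (nrm g x p) = 1 := by
    have h1 : ev (g x) (nrm g x p) (nrm g x p) =
        ∑ k, (∑ j, nrm g x p j * g x j k) * nrm g x p k := by
      unfold ev
      rw [Finset.sum_comm]
      refine Finset.sum_congr rfl fun k _ => ?_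
      rw [Finset.sum_mul]
      exact Finset.sum_congr rfl fun j _ => by ring
    rw [h1]
    have h2 : ∀ k, (∑ j, nrm g x p j * g x j k) * nrm g x p k = (nrm g x p k * p k) / l := by
      intro k
      rw [hgn]
      ring
    rw [Finset.sum_congr rfl fun k _ => h2 k, ← Finset.sum_div, hnp, div_self hlpos.ne']
  -- the projection
  have hPs : ∀ i j, prj g x p i j = prj g x p j i := by
    intro i j
    unfold prj
    rw [← hG, hGs i j]
    ring
  have hPp : ∀ i, ∑ j, prj g x p i j * p j = 0 := by
    intro i
    have h1 : ∀ j, prj g x p i j * p j = G i j * p j - nrm g x p i * (nrm g x p j * p j) := by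
      intro j
      unfold prj
      rw [← hG]
      ring
    rw [Finset.sum_congr rfl fun j _ => h1 j, Finset.sum_sub_distrib, ← Finset.mul_sum, hnp, hn]
    field_simp
    ring
  have hPg : ∀ i k, ∑ j, prj g x p i j * g x j k =
      (if i = k then 1 else 0) - nrm g x p i * (p k / l) := by
    intro i k
    have h1 : ∀ j, prj g x p i j * g x j k =
        G i j * g x j k - nrm g x p i * (nrm g x p j * g x j k) := by
      intro j
      unfold prj
      rw [← hG]
      ring
    rw [Finset.sum_congr rfl fun j _ => h1 j, Finset.sum_sub_distrib, ← Finset.mul_sum, hgn, hGg]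
  have hlip : ∀ A B : Cov, lip g x p A B = ∑ i, ∑ j, prj g x p i j * A i * B j := by
    intro A B
    unfold lip ev prj
    rw [Finset.sum_mul_sum, ← Finset.sum_sub_distrib]
    refine Finset.sum_congr rfl fun i _ => ?_
    rw [← Finset.sum_sub_distrib]
    exact Finset.sum_congr rfl fun j _ => by ring
  have hlips : ∀ A B : Cov, lip g x p A B = lip g x p B A := by
    intro A B
    unfold lip
    rw [ev_symm hGs A B]
    ring
  have hlipnn : ∀ A : Cov, 0 ≤ lip g x p A A := by
    intro A
    have h1 : ev G A p ^ 2 ≤ ev G A A * ev G p p := by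
      refine cs _ _ _ (hevnn p) fun t => ?_
      have h2 := hevnn (fun i => A i + t * p i)
      rw [ev_add_smul, ev_symm hGs p A] at h2
      linarith
    unfold lip
    rw [← hG, hnA]
    have h3 : ev G A p / l * (ev G A p / l) = ev G A p ^ 2 / (l * l) := by
      field_simp
    rw [h3, sub_nonneg, div_le_iff₀ (mul_pos hlpos hlpos), hl2]
    exact h1
  have hlipcs : ∀ A B : Cov, lip g x p A B ^ 2 ≤ lip g x p A A * lip g x p B B := by
    intro A B
    refine cs _ _ _ (hlipnn B) fun t => ?_
    have h2 := hlipnn (fun i => A i + t * B i)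
    have h3 : lip g x p (fun i => A i + t * B i) (fun i => A i + t * B i) =
        lip g x p A A + 2 * t * lip g x p A B + t ^ 2 * lip g x p B B := by
      have h4 : ∑ i, (A i + t * B i) * nrm g x p i =
          ∑ i, A i * nrm g x p i + t * ∑ i, B i * nrm g x p i := by
        rw [Finset.mul_sum, ← Finset.sum_add_distrib]
        exact Finset.sum_congr rfl fun i _ => by ring
      unfold lip
      rw [← hG, ev_add_smul, ev_symm hGs B A, h4]
      ring
    rw [h3] at h2
    exact h2
  refine ⟨hlpos, Real.sqrt_pos.mpr hdet, hnp, hnn, hPs, hPp, ?_, ?_, hlip, hlips, ?_, hlipnn,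
    hlipcs, ?_, ?_⟩
  · intro i m
    rw [Finset.sum_comm]
    have h1 : ∀ k, ∑ j, prj g x p i j * g x j k * prj g x p k m =
        (if i = k then 1 else 0) * prj g x p k m -
          nrm g x p i / l * (prj g x p m k * p k) := by
      intro k
      rw [← Finset.sum_mul, hPg, hPs k m]
      ring
    rw [Finset.sum_congr rfl fun k _ => h1 k, Finset.sum_sub_distrib, ← Finset.mul_sum, hPp]
    simp
  · have h1 : ∀ i, ∑ j, prj g x p i j * g x i j = 1 - (nrm g x p i * p i) / l := by
      intro i
      have h2 : ∑ j, prj g x p i j * g x i j = ∑ j, prj g x p i j * g x j i :=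
        Finset.sum_congr rfl fun j _ => by rw [hgs i j]
      rw [h2, hPg, if_pos rfl]
      ring
    rw [Finset.sum_congr rfl fun i _ => h1 i, Finset.sum_sub_distrib, ← Finset.sum_div, hnp,
      div_self hlpos.ne']
    simp
    norm_num
  · intro B
    rw [hlips, hlip]
    refine Finset.sum_eq_zero fun i _ => ?_
    have h1 : ∑ j, prj g x p i j * B i * p j = B i * ∑ j, prj g x p i j * p j := by
      rw [Finset.mul_sum]
      exact Finset.sum_congr rfl fun j _ => by ring
    rw [h1, hPp, mul_zero]
  · intro A
    unfold lip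
    rw [← hG]
    ring
  · intro A T hT
    -- the covector of `T`
    let B : Cov := fun i => ∑ j, g x i j * T j
    have hGB : ∀ i, ∑ j, G i j * B j = T i := by
      intro i
      have h1 : ∀ j, G i j * B j = ∑ k, (G i j * g x j k) * T k := by
        intro j
        change G i j * (∑ k, g x j k * T k) = _
        rw [Finset.mul_sum]
        exact Finset.sum_congr rfl fun k _ => by ring
      rw [Finset.sum_congr rfl fun j _ => h1 j, Finset.sum_comm]
      have h2 : ∀ k, ∑ j, (G i j * g x j k) * T k = (if i = k then 1 else 0) * T k := by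
        intro k
        rw [← hGg i k, Finset.sum_mul]
      rw [Finset.sum_congr rfl fun k _ => h2 k]
      simp
    have hBn : ∑ i, B i * nrm g x p i = 0 := by
      rw [hnA, ev_symm hGs, ev_eq]
      have h1 : ∑ i, p i * ∑ j, G i j * B j = ∑ i, T i * p i :=
        Finset.sum_congr rfl fun i _ => by rw [hGB]; ring
      rw [h1, hT, zero_div]
    have hAB : lip g x p A B = ∑ i, A i * T i := by
      unfold lip
      rw [hBn, mul_zero, sub_zero, ← hG, ev_eq]
      exact Finset.sum_congr rfl fun i _ => by rw [hGB]
    have hBB : lip g x p B B = ev (g x) T T := by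
      unfold lip
      rw [hBn, mul_zero, sub_zero, ← hG, ev_eq, ev_eq]
      refine Finset.sum_congr rfl fun i _ => ?_
      rw [hGB]
      change (∑ j, g x i j * T j) * T i = _
      ring
    have h1 := hlipcs A B
    rwa [hAB, hBB] at h1

end Pool.Agent.PFlow.GB
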