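import Pool.Agent.PFlow.StmtsG
import Pool.Agent.PenroseSph.Calc
import Pool.Agent.PenroseConvex.COVC

/-!
# The leafwise objects in adapted coordinates, and the Gauss equation
-/

open MeasureTheory Filter Topology
open scoped ContDiff

namespace Pool.Agent.PFlow.GB

open Pool.Agent.PenroseSph Pool.Agent.PFlow
open Pool.Agent.PenroseConvex.COVC (pd_contDiffAt pd_comm)

namespace AD

lemma posDef_symm {A : Matrix (Fin 3) (Fin 3) ℝ} (hA : A.PosDef) (i j : Fin 3) :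
    A i j = A j i := by
  have h := hA.isHermitian.apply j i
  simpa using h

lemma posDef_quad {A : Matrix (Fin 3) (Fin 3) ℝ} (hA : A.PosDef) {v : Fin 3 → ℝ} (hv : v ≠ 0) :
    0 < ∑ i, ∑ j, A i j * v i * v j := by
  have h := hA.dotProduct_mulVec_pos hv
  have e : star v ⬝ᵥ A.mulVec v = ∑ i, ∑ j, A i j * v i * v j := by
    simp only [dotProduct, Matrix.mulVec, Finset.mul_sum]
    refine Finset.sum_congr rfl fun i _ => Finset.sum_congr rfl fun j _ => ?_
    simp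
    ring
  rw [e] at h
  exact h

lemma minor_pos {A : Matrix (Fin 3) (Fin 3) ℝ} (hA : A.PosDef) :
    0 < A 0 0 ∧ 0 < A 0 0 * A 1 1 - A 0 1 ^ 2 := by
  have h10 := posDef_symm hA 1 0
  have h0 : 0 < A 0 0 := by
    have h := posDef_quad hA (v := ![1, 0, 0]) (by
      intro h
      have := congrFun h 0
      simp at this)
    simpa [Fin.sum_univ_three] using h
  refine ⟨h0, ?_⟩
  have h := posDef_quad hA (v := ![-A 0 1, A 0 0, 0]) (by
      intro h
      have := congrFun h 1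
      simp at this
      exact h0.ne' this)
  simp only [Fin.sum_univ_three] at h
  simp [h10] at h
  have h2 : 0 < A 0 0 * (A 0 0 * A 1 1 - A 0 1 ^ 2) := by nlinarith [h]
  exact (pos_iff_pos_of_mul_pos h2).1 h0

lemma det_eq {A : Matrix (Fin 3) (Fin 3) ℝ} (hA : A.PosDef) :
    A.det = A 0 0 * A 1 1 * A 2 2 + 2 * A 0 1 * A 0 2 * A 1 2 - A 0 0 * A 1 2 ^ 2
      - A 1 1 * A 0 2 ^ 2 - A 2 2 * A 0 1 ^ 2 := by
  rw [Matrix.det_fin_three, posDef_symm hA 1 0, posDef_symm hA 2 0, posDef_symm hA 2 1]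
  ring

lemma inv_eq {A : Matrix (Fin 3) (Fin 3) ℝ} (hA : A.PosDef) :
    A⁻¹ 0 0 = (A 1 1 * A 2 2 - A 1 2 ^ 2) / A.det ∧
    A⁻¹ 0 1 = (A 0 2 * A 1 2 - A 0 1 * A 2 2) / A.det ∧
    A⁻¹ 0 2 = (A 0 1 * A 1 2 - A 0 2 * A 1 1) / A.det ∧
    A⁻¹ 1 1 = (A 0 0 * A 2 2 - A 0 2 ^ 2) / A.det ∧
    A⁻¹ 1 2 = (A 0 1 * A 0 2 - A 0 0 * A 1 2) / A.det ∧
    A⁻¹ 2 2 = (A 0 0 * A 1 1 - A 0 1 ^ 2) / A.det := by
  have hs : Ring.inverse A.det = A.det⁻¹ := by simp
  rw [Matrix.inv_def, hs, Matrix.adjugate_fin_three]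
  have h10 := posDef_symm hA 1 0
  have h20 := posDef_symm hA 2 0
  have h21 := posDef_symm hA 2 1
  refine ⟨?_, ?_, ?_, ?_, ?_, ?_⟩ <;> simp [h10, h20, h21] <;> ring

lemma inv_symm {A : Matrix (Fin 3) (Fin 3) ℝ} (hA : A.PosDef) (i j : Fin 3) :
    A⁻¹ i j = A⁻¹ j i := posDef_symm hA.inv i j

lemma grad_two (y : E3) : grad (fun z : E3 => z 2) y = ![0, 0, 1] := by
  funext i
  unfold grad
  rw [pd_coord]
  fin_cases i <;> simp

lemma hess_two (y : E3) (i j : Fin 3) : hess2 (fun z : E3 => z 2) y i j = 0 := by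
  unfold hess2
  simp only [Matrix.of_apply]
  have h : pd j (fun z : E3 => z 2) = fun _ => if j = 2 then 1 else 0 := by
    funext z
    exact pd_coord
  rw [h, pd_const]

lemma len_two (g : TensorField) (y : E3) :
    len g y ![0, 0, 1] = Real.sqrt ((g y)⁻¹ 2 2) := by
  unfold len ev
  simp [Fin.sum_univ_three]

lemma nrm_two (g : TensorField) (y : E3) (i : Fin 3) :
    nrm g y ![0, 0, 1] i = (g y)⁻¹ i 2 / Real.sqrt ((g y)⁻¹ 2 2) := by
  unfold nrm raise
  rw [len_two]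
  simp [Fin.sum_univ_three]

lemma inv22_pos {A : Matrix (Fin 3) (Fin 3) ℝ} (hA : A.PosDef) : 0 < A⁻¹ 2 2 := by
  rw [(inv_eq hA).2.2.2.2.2]
  exact div_pos (minor_pos hA).2 hA.det_pos

/-- The projected inverse metric. -/
lemma proj_eq {A : Matrix (Fin 3) (Fin 3) ℝ} (hA : A.PosDef) :
    A⁻¹ 0 0 - A⁻¹ 0 2 * A⁻¹ 0 2 / A⁻¹ 2 2 = A 1 1 / (A 0 0 * A 1 1 - A 0 1 ^ 2) ∧
    A⁻¹ 0 1 - A⁻¹ 0 2 * A⁻¹ 1 2 / A⁻¹ 2 2 = -A 0 1 / (A 0 0 * A 1 1 - A 0 1 ^ 2) ∧
    A⁻¹ 1 1 - A⁻¹ 1 2 * A⁻¹ 1 2 / A⁻¹ 2 2 = A 0 0 / (A 0 0 * A 1 1 - A 0 1 ^ 2) := by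
  have hD := hA.det_pos
  have hd := (minor_pos hA).2
  have hD' := det_eq hA
  obtain ⟨e00, e01, e02, e11, e12, e22⟩ := inv_eq hA
  rw [e00, e01, e02, e11, e12, e22]
  have hDn : A.det ≠ 0 := hD.ne'
  obtain ⟨q, hq⟩ : ∃ q, q = A 0 0 * A 1 1 - A 0 1 ^ 2 := ⟨_, rfl⟩
  rw [← hq] at hd ⊢
  have hdn : q ≠ 0 := hd.ne'
  refine ⟨?_, ?_, ?_⟩
  · field_simp
    rw [hD', hq]
    ring
  · field_simp
    rw [hD', hq]
    ring
  · field_simp
    rw [hD', hq]
    ring

lemma lip_two {g : TensorField} {y : E3} (hA : (g y).PosDef) (A B : Cov) :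
    lip g y ![0, 0, 1] A B =
      (g y 1 1 * (A 0 * B 0) - g y 0 1 * (A 0 * B 1 + A 1 * B 0) + g y 0 0 * (A 1 * B 1))
        / (g y 0 0 * g y 1 1 - g y 0 1 ^ 2) := by
  obtain ⟨h1, h2, h3⟩ := proj_eq hA
  have hp := inv22_pos hA
  have hs : Real.sqrt ((g y)⁻¹ 2 2) ≠ 0 := (Real.sqrt_pos.2 hp).ne'
  have hss : Real.sqrt ((g y)⁻¹ 2 2) ^ 2 = (g y)⁻¹ 2 2 := Real.sq_sqrt hp.le
  have s10 := inv_symm hA 1 0
  have s20 := inv_symm hA 2 0
  have s21 := inv_symm hA 2 1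
  have key : lip g y ![0, 0, 1] A B =
      ((g y)⁻¹ 0 0 - (g y)⁻¹ 0 2 * (g y)⁻¹ 0 2 / (g y)⁻¹ 2 2) * (A 0 * B 0)
      + ((g y)⁻¹ 0 1 - (g y)⁻¹ 0 2 * (g y)⁻¹ 1 2 / (g y)⁻¹ 2 2) * (A 0 * B 1 + A 1 * B 0)
      + ((g y)⁻¹ 1 1 - (g y)⁻¹ 1 2 * (g y)⁻¹ 1 2 / (g y)⁻¹ 2 2) * (A 1 * B 1) := by
    unfold lip ev
    simp only [nrm_two, Fin.sum_univ_three, s10, s20, s21]
    have hpn := hp.ne'
    generalize (g y)⁻¹ 2 2 = q at *
    generalize Real.sqrt q = s at *
    subst hss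
    field_simp
    ring
  rw [key, h1, h2, h3]
  ring

lemma dens_two {g : TensorField} {y : E3} (hA : (g y).PosDef) :
    dens g (fun z : E3 => z 2) y = Real.sqrt (dt2 g y) := by
  unfold dens volDen dt2
  rw [grad_two, len_two, ← Real.sqrt_mul (inv22_pos hA).le, (inv_eq hA).2.2.2.2.2,
    div_mul_cancel₀ _ hA.det_pos.ne']

lemma lgrad_two {g : TensorField} {y : E3} (hA : (g y).PosDef) (f : E3 → ℝ) :
    lgrad g (fun z : E3 => z 2) f y 0 = (g y 1 1 * pd 0 f y - g y 0 1 * pd 1 f y) / dt2 g y ∧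
    lgrad g (fun z : E3 => z 2) f y 1 = (g y 0 0 * pd 1 f y - g y 0 1 * pd 0 f y) / dt2 g y ∧
    lgrad g (fun z : E3 => z 2) f y 2 = 0 := by
  obtain ⟨h1, h2, h3⟩ := proj_eq hA
  have hp := inv22_pos hA
  have hs : Real.sqrt ((g y)⁻¹ 2 2) ≠ 0 := (Real.sqrt_pos.2 hp).ne'
  have hss : Real.sqrt ((g y)⁻¹ 2 2) ^ 2 = (g y)⁻¹ 2 2 := Real.sq_sqrt hp.le
  have s10 := inv_symm hA 1 0
  have s20 := inv_symm hA 2 0
  have s21 := inv_symm hA 2 1
  have hpn := hp.ne'
  unfold lgrad raise dt2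
  simp only [grad_two, nrm_two, Fin.sum_univ_three, s10, s20, s21]
  refine ⟨?_, ?_, ?_⟩
  · have : (g y 1 1 * pd 0 f y - g y 0 1 * pd 1 f y) / (g y 0 0 * g y 1 1 - g y 0 1 ^ 2) =
        g y 1 1 / (g y 0 0 * g y 1 1 - g y 0 1 ^ 2) * pd 0 f y
          + -g y 0 1 / (g y 0 0 * g y 1 1 - g y 0 1 ^ 2) * pd 1 f y := by ring
    rw [this, ← h1, ← h2]
    unfold grad
    generalize (g y)⁻¹ 2 2 = q at *
    generalize Real.sqrt q = s at *
    subst hss
    field_simp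
    ring
  · have : (g y 0 0 * pd 1 f y - g y 0 1 * pd 0 f y) / (g y 0 0 * g y 1 1 - g y 0 1 ^ 2) =
        g y 0 0 / (g y 0 0 * g y 1 1 - g y 0 1 ^ 2) * pd 1 f y
          + -g y 0 1 / (g y 0 0 * g y 1 1 - g y 0 1 ^ 2) * pd 0 f y := by ring
    rw [this, ← h3, ← h2]
    unfold grad
    generalize (g y)⁻¹ 2 2 = q at *
    generalize Real.sqrt q = s at *
    subst hss
    field_simp
    ring
  · unfold grad
    generalize (g y)⁻¹ 2 2 = q at *
    generalize Real.sqrt q = s at *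
    subst hss
    field_simp
    ring

lemma lap_two {g : TensorField} {O : Set E3} (hO : IsOpen O) (hM : ∀ y ∈ O, (g y).PosDef)
    {z : E3} (hz : z ∈ O) (f : E3 → ℝ) :
    lap g (fun y : E3 => y 2) f z = lap2 g f z := by
  unfold lap ldiv lap2
  rw [Fin.sum_univ_three, dens_two (hM z hz)]
  have hev : ∀ᶠ y in 𝓝 z, y ∈ O := hO.mem_nhds hz
  have e0 : (fun y => dens g (fun y : E3 => y 2) y * lgrad g (fun y : E3 => y 2) f y 0) =ᶠ[𝓝 z]
      fun y => (g y 1 1 * pd 0 f y - g y 0 1 * pd 1 f y) / Real.sqrt (dt2 g y) := by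
    filter_upwards [hev] with y hy
    rw [dens_two (hM y hy), (lgrad_two (hM y hy) f).1]
    have hd : 0 < dt2 g y := (minor_pos (hM y hy)).2
    have h1 : Real.sqrt (dt2 g y) ≠ 0 := (Real.sqrt_pos.2 hd).ne'
    have h2 : Real.sqrt (dt2 g y) ^ 2 = dt2 g y := Real.sq_sqrt hd.le
    generalize dt2 g y = q at *
    generalize Real.sqrt q = s at *
    subst h2
    field_simp
  have e1 : (fun y => dens g (fun y : E3 => y 2) y * lgrad g (fun y : E3 => y 2) f y 1) =ᶠ[𝓝 z]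
      fun y => (g y 0 0 * pd 1 f y - g y 0 1 * pd 0 f y) / Real.sqrt (dt2 g y) := by
    filter_upwards [hev] with y hy
    rw [dens_two (hM y hy), (lgrad_two (hM y hy) f).2.1]
    have hd : 0 < dt2 g y := (minor_pos (hM y hy)).2
    have h1 : Real.sqrt (dt2 g y) ≠ 0 := (Real.sqrt_pos.2 hd).ne'
    have h2 : Real.sqrt (dt2 g y) ^ 2 = dt2 g y := Real.sq_sqrt hd.le
    generalize dt2 g y = q at *
    generalize Real.sqrt q = s at *
    subst h2
    field_simp
  have e2 : (fun y => dens g (fun y : E3 => y 2) y * lgrad g (fun y : E3 => y 2) f y 2) =ᶠ[𝓝 z]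
      fun _ => 0 := by
    filter_upwards [hev] with y hy
    rw [(lgrad_two (hM y hy) f).2.2, mul_zero]
  rw [pd_congr e0, pd_congr e1, pd_congr e2, pd_const, add_zero]

lemma mul_cancel {A B : Matrix (Fin 3) (Fin 3) ℝ} (h : A * B = 1) (F : Fin 3 → ℝ) (n : Fin 3) :
    ∑ k, A n k * ∑ l, B k l * F l = F n := by
  have h1 : A.mulVec (B.mulVec F) = F := by rw [Matrix.mulVec_mulVec, h, Matrix.one_mulVec]
  have h2 := congrFun h1 n
  simpa [Matrix.mulVec, dotProduct] using h2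

/-- The lower-index curvature in terms of the metric. -/
lemma curv_alg (g : Fin 3 → Fin 3 → ℝ) (Γ : Fin 3 → Fin 3 → Fin 3 → ℝ)
    (dΓ : Fin 3 → Fin 3 → Fin 3 → Fin 3 → ℝ) (P L : Fin 3 → Fin 3 → Fin 3 → ℝ)
    (D : Fin 3 → Fin 3 → Fin 3 → Fin 3 → ℝ)
    (hL : ∀ n i j, L n i j = (P i n j + P j n i - P n i j) / 2)
    (hP : ∀ m n k, P m n k = P m k n) (hlow : ∀ n i j, ∑ k, g n k * Γ k i j = L n i j)
    (hd : ∀ m n i j, ∑ k, (g n k * dΓ m k i j + Γ k i j * P m n k)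
      = (D m i n j + D m j n i - D m n i j) / 2)
    (hD : ∀ m i n j, D m i n j = D i m n j) (n i m j : Fin 3) :
    ∑ k, g n k * (dΓ m k i j - dΓ j k i m + ∑ l, (Γ k m l * Γ l i j - Γ k j l * Γ l i m))
      = (D m i n j - D m n i j - D j i n m + D j n i m) / 2
        + ∑ k, (Γ k i m * L k j n - Γ k i j * L k m n) := by
  have h1 := hd m n i j
  have h2 := hd j n i m
  have h3 := fun l => hlow n m l
  have h4 := fun l => hlow n j l
  have h5 : ∀ k, L n m k = P m n k - L k m n := fun k => by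
    rw [hL, hL, hP m n k, hP k m n, hP n m k]
    ring
  have h6 : ∀ k, L n j k = P j n k - L k j n := fun k => by
    rw [hL, hL, hP j n k, hP k j n, hP n j k]
    ring
  have h7 := hD m j n i
  simp only [h5] at h3
  simp only [h6] at h4
  simp only [Fin.sum_univ_three] at *
  linear_combination h1 - h2 + Γ 0 i j * h3 0 + Γ 1 i j * h3 1 + Γ 2 i j * h3 2
    - Γ 0 i m * h4 0 - Γ 1 i m * h4 1 - Γ 2 i m * h4 2 + h7 / 2

lemma alg (G : Fin 3 → Fin 3 → ℝ) (hG : ∀ i j, G i j = G j i)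
    (R : Fin 3 → Fin 3 → Fin 3 → Fin 3 → ℝ) (h1 : ∀ n i m j, R n i m j = -R i n m j)
    (h2 : ∀ n i m j, R n i m j = -R n i j m) :
    (∑ i, ∑ j, G i j * ∑ k, ∑ n, G k n * R n i k j) * G 2 2 / 2 -
      ∑ i, ∑ j, G i 2 * G j 2 * ∑ k, ∑ n, G k n * R n i k j =
    (G 0 0 * G 1 1 * G 2 2 + 2 * G 0 1 * G 0 2 * G 1 2 - G 0 0 * G 1 2 ^ 2 -
      G 1 1 * G 0 2 ^ 2 - G 2 2 * G 0 1 ^ 2) * R 0 1 0 1 := by
  have z1 : ∀ n m j, R n n m j = 0 := fun n m j => by linarith [h1 n n m j]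
  have z2 : ∀ n i m, R n i m m = 0 := fun n i m => by linarith [h2 n i m m]
  have s10 : G 1 0 = G 0 1 := hG 1 0
  have s20 : G 2 0 = G 0 2 := hG 2 0
  have s21 : G 2 1 = G 1 2 := hG 2 1
  have a1 : ∀ m j, R 1 0 m j = -R 0 1 m j := fun m j => h1 1 0 m j
  have a2 : ∀ m j, R 2 0 m j = -R 0 2 m j := fun m j => h1 2 0 m j
  have a3 : ∀ m j, R 2 1 m j = -R 1 2 m j := fun m j => h1 2 1 m j
  have b1 : ∀ n i, R n i 1 0 = -R n i 0 1 := fun n i => h2 n i 1 0
  have b2 : ∀ n i, R n i 2 0 = -R n i 0 2 := fun n i => h2 n i 2 0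
  have b3 : ∀ n i, R n i 2 1 = -R n i 1 2 := fun n i => h2 n i 2 1
  simp only [Fin.sum_univ_three, z1, z2, s10, s20, s21, a1, a2, a3, b1, b2, b3]
  ring

/-- The second fundamental form part. -/
lemma alg2 (G H : Fin 3 → Fin 3 → ℝ) (hG : ∀ i j, G i j = G j i) (hH : ∀ i j, H i j = H j i)
    (hq : G 2 2 ≠ 0) :
    (∑ i, ∑ j, G i j * H i j) ^ 2 - (∑ i, ∑ j, ∑ k, ∑ l, G i k * G j l * H i j * H k l)
      - 2 * ((∑ i, ∑ j, H i j * G i 2 * G j 2) / G 2 2) * (∑ i, ∑ j, G i j * H i j)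
      + 2 * ((∑ i, ∑ j, G i j * (∑ k, H i k * G k 2) * (∑ l, H j l * G l 2)) / G 2 2)
    = 2 * (H 0 0 * H 1 1 - H 0 1 ^ 2) *
      (G 0 0 * G 1 1 * G 2 2 + 2 * G 0 1 * G 0 2 * G 1 2 - G 0 0 * G 1 2 ^ 2 -
      G 1 1 * G 0 2 ^ 2 - G 2 2 * G 0 1 ^ 2) / G 2 2 := by
  have s10 : G 1 0 = G 0 1 := hG 1 0
  have s20 : G 2 0 = G 0 2 := hG 2 0
  have s21 : G 2 1 = G 1 2 := hG 2 1
  have t10 : H 1 0 = H 0 1 := hH 1 0
  have t20 : H 2 0 = H 0 2 := hH 2 0
  have t21 : H 2 1 = H 1 2 := hH 2 1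
  simp only [Fin.sum_univ_three, s10, s20, s21, t10, t20, t21]
  generalize G 0 0 = G00 at *
  generalize G 0 1 = G01 at *
  generalize G 0 2 = G02 at *
  generalize G 1 1 = G11 at *
  generalize G 1 2 = G12 at *
  generalize G 2 2 = G22 at *
  field_simp
  ring

section

variable {g : TensorField} {O : Set E3} {z : E3}

lemma symm_near (hO : IsOpen O) (hM : ∀ y ∈ O, (g y).PosDef) (hz : z ∈ O) (i j : Fin 3) :
    (fun y => g y i j) =ᶠ[𝓝 z] fun y => g y j i := by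
  filter_upwards [hO.mem_nhds hz] with y hy
  exact posDef_symm (hM y hy) i j

lemma pd_symm (hO : IsOpen O) (hM : ∀ y ∈ O, (g y).PosDef) (hz : z ∈ O) (m i j : Fin 3) :
    pd m (fun y => g y i j) z = pd m (fun y => g y j i) z :=
  pd_congr (symm_near hO hM hz i j)

lemma chr_eq (hO : IsOpen O) (hM : ∀ y ∈ O, (g y).PosDef) (hz : z ∈ O) (k i j : Fin 3) :
    christoffel g k i j z = ∑ l, (g z)⁻¹ k l * gl g l i j z := by
  unfold christoffel gl
  rw [Finset.mul_sum]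
  refine Finset.sum_congr rfl fun l _ => ?_
  rw [pd_symm hO hM hz i j l, pd_symm hO hM hz j i l]
  ring

lemma chr_symm (hO : IsOpen O) (hM : ∀ y ∈ O, (g y).PosDef) (hz : z ∈ O) (k i j : Fin 3) :
    christoffel g k i j z = christoffel g k j i z := by
  unfold christoffel
  congr 1
  refine Finset.sum_congr rfl fun l _ => ?_
  rw [pd_symm hO hM hz l i j]
  ring

lemma low_eq (hO : IsOpen O) (hM : ∀ y ∈ O, (g y).PosDef) (hz : z ∈ O) (n i j : Fin 3) :
    ∑ k, g z n k * christoffel g k i j z = gl g n i j z := by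
  have h1 : g z * (g z)⁻¹ = 1 := Matrix.mul_nonsing_inv _ (hM z hz).det_pos.ne'.isUnit
  rw [← mul_cancel h1 (fun l => gl g l i j z) n]
  exact Finset.sum_congr rfl fun k _ => by rw [chr_eq hO hM hz]

variable (hO : IsOpen O) (hM : ∀ y ∈ O, (g y).PosDef) (hz : z ∈ O)
  (hs : ∀ i j, ContDiffAt ℝ ∞ (fun y => g y i j) z)
  (hi : ∀ i j, ContDiffAt ℝ ∞ (fun y => (g y)⁻¹ i j) z)

include hs in
lemma gl_smooth (n i j : Fin 3) : ContDiffAt ℝ ∞ (gl g n i j) z := by
  have h := fun m a b => pd_contDiffAt (hs a b) m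
  unfold gl
  exact (((h i n j).add (h j n i)).sub (h n i j)).div_const 2

include hO hM hz hs hi in
lemma chr_smooth (k i j : Fin 3) : ContDiffAt ℝ ∞ (christoffel g k i j) z := by
  have e : christoffel g k i j =ᶠ[𝓝 z] fun y => ∑ l, (g y)⁻¹ k l * gl g l i j y := by
    filter_upwards [hO.mem_nhds hz] with y hy
    exact chr_eq hO hM hy k i j
  refine ContDiffAt.congr_of_eventuallyEq ?_ e
  exact ContDiffAt.sum fun l _ => (hi k l).mul (gl_smooth hs l i j)

include hs in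
lemma pd_gl (m n i j : Fin 3) : pd m (gl g n i j) z =
    (pd m (pd i (fun y => g y n j)) z + pd m (pd j (fun y => g y n i)) z
      - pd m (pd n (fun y => g y i j)) z) / 2 := by
  have h := fun m a b => (pd_contDiffAt (hs a b) m).differentiableAt (by simp)
  have e : gl g n i j = fun y => (pd i (fun y => g y n j) y + pd j (fun y => g y n i) y
      - pd n (fun y => g y i j) y) * (1 / 2) := by
    funext y
    unfold gl
    ring
  rw [e, pd_mul_const (1 / 2) (((h i n j).fun_add (h j n i)).fun_sub (h n i j)),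
    pd_sub ((h i n j).fun_add (h j n i)) (h n i j), pd_add (h i n j) (h j n i)]
  ring

include hO hM hz hs hi in
lemma pd_low (m n i j : Fin 3) :
    ∑ k, (g z n k * pd m (christoffel g k i j) z
      + christoffel g k i j z * pd m (fun y => g y n k) z) =
    (pd m (pd i (fun y => g y n j)) z + pd m (pd j (fun y => g y n i)) z
      - pd m (pd n (fun y => g y i j)) z) / 2 := by
  rw [← pd_gl hs m n i j]
  have e : (fun y => ∑ k, g y n k * christoffel g k i j y) =ᶠ[𝓝 z] gl g n i j := by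
    filter_upwards [hO.mem_nhds hz] with y hy
    exact low_eq hO hM hy n i j
  have hc := fun k => (chr_smooth hO hM hz hs hi k i j).differentiableAt (by simp)
  have hg := fun k => (hs n k).differentiableAt (by simp)
  rw [← pd_congr e, pd_sum _ (fun k y => g y n k * christoffel g k i j y)
    fun k _ => (hg k).fun_mul (hc k)]
  refine Finset.sum_congr rfl fun k _ => ?_
  rw [pd_mul (hg k) (hc k)]

include hO hM hz in
lemma pd2_symm (m i a b : Fin 3) : pd m (pd i (fun y => g y a b)) z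
    = pd m (pd i (fun y => g y b a)) z := by
  refine pd_congr ?_
  filter_upwards [hO.mem_nhds hz] with y hy
  exact pd_symm hO hM hy i a b

/-- The curvature with lower indices. -/
noncomputable def Rl (g : TensorField) (z : E3) (n i m j : Fin 3) : ℝ :=
  (pd m (pd i (fun y => g y n j)) z - pd m (pd n (fun y => g y i j)) z
    - pd j (pd i (fun y => g y n m)) z + pd j (pd n (fun y => g y i m)) z) / 2
    + ∑ k, ∑ l, (g z)⁻¹ k l * (gl g l i m z * gl g k j n z - gl g l i j z * gl g k m n z)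

include hO hM hz hs hi in
lemma ricci_eq (i j : Fin 3) : ricci g i j z = ∑ k, ∑ n, (g z)⁻¹ k n * Rl g z n i k j := by
  have h1 : (g z)⁻¹ * g z = 1 := Matrix.nonsing_inv_mul _ (hM z hz).det_pos.ne'.isUnit
  have key : ∀ n m, ∑ k, g z n k * (pd m (christoffel g k i j) z - pd j (christoffel g k i m) z
      + ∑ l, (christoffel g k m l z * christoffel g l i j z
        - christoffel g k j l z * christoffel g l i m z)) = Rl g z n i m j := by
    intro n m
    have h := curv_alg (fun a b => g z a b) (fun k i j => christoffel g k i j z)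
      (fun m k i j => pd m (christoffel g k i j) z) (fun m a b => pd m (fun y => g y a b) z)
      (fun n i j => gl g n i j z) (fun m i a b => pd m (pd i (fun y => g y a b)) z)
      (fun n i j => rfl) (fun m a b => pd_symm hO hM hz m a b)
      (fun n i j => low_eq hO hM hz n i j) (fun m n i j => pd_low hO hM hz hs hi m n i j)
      (fun m i a b => pd_comm (hs a b) m i) n i m j
    rw [h]
    unfold Rl
    congr 1
    refine Finset.sum_congr rfl fun k _ => ?_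
    rw [chr_eq hO hM hz k i m, chr_eq hO hM hz k i j, Finset.sum_mul, Finset.sum_mul,
      ← Finset.sum_sub_distrib]
    refine Finset.sum_congr rfl fun l _ => ?_
    ring
  unfold ricci
  refine Finset.sum_congr rfl fun k _ => ?_
  have h2 := mul_cancel h1 (fun k' => pd k (christoffel g k' i j) z
    - pd j (christoffel g k' i k) z + ∑ l, (christoffel g k' k l z * christoffel g l i j z
        - christoffel g k' j l z * christoffel g l i k z)) k
  rw [← h2]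
  exact Finset.sum_congr rfl fun n _ => by rw [key n k]

include hO hM hz in
lemma gl_symm (n i j : Fin 3) : gl g n i j z = gl g n j i z := by
  unfold gl
  rw [pd_symm hO hM hz n i j]
  ring

include hO hM hz in
lemma Rl_anti1 (n i m j : Fin 3) : Rl g z n i m j = -Rl g z i n m j := by
  unfold Rl
  have hG := fun a b => inv_symm (hM z hz) a b
  have hg := fun a b c => gl_symm hO hM hz a b c
  have h : ∑ k, ∑ l, (g z)⁻¹ k l * (gl g l i m z * gl g k j n z - gl g l i j z * gl g k m n z)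
      = -∑ k, ∑ l, (g z)⁻¹ k l * (gl g l n m z * gl g k j i z - gl g l n j z * gl g k m i z) := by
    rw [← Finset.sum_neg_distrib, Finset.sum_comm]
    refine Finset.sum_congr rfl fun k _ => ?_
    rw [← Finset.sum_neg_distrib]
    refine Finset.sum_congr rfl fun l _ => ?_
    rw [hG l k, hg k i m, hg l j n, hg k i j, hg l m n]
    ring
  rw [h]
  ring

lemma Rl_anti2 (n i m j : Fin 3) : Rl g z n i m j = -Rl g z n i j m := by
  unfold Rl
  have h : ∑ k, ∑ l, (g z)⁻¹ k l * (gl g l i m z * gl g k j n z - gl g l i j z * gl g k m n z)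
      = -∑ k, ∑ l, (g z)⁻¹ k l * (gl g l i j z * gl g k m n z - gl g l i m z * gl g k j n z) := by
    rw [← Finset.sum_neg_distrib]
    refine Finset.sum_congr rfl fun k _ => ?_
    rw [← Finset.sum_neg_distrib]
    refine Finset.sum_congr rfl fun l _ => ?_
    ring
  rw [h]
  ring

include hO hM hz hs hi in
/-- The Gauss equation in adapted coordinates. -/
lemma gauss_two : curv g (fun y : E3 => y 2) z = K2 g z := by
  have hA := hM z hz
  have hp := inv22_pos hA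
  have hpn := hp.ne'
  have hs0 : Real.sqrt ((g z)⁻¹ 2 2) ≠ 0 := (Real.sqrt_pos.2 hp).ne'
  have hss : Real.sqrt ((g z)⁻¹ 2 2) ^ 2 = (g z)⁻¹ 2 2 := Real.sq_sqrt hp.le
  have hd : 0 < dt2 g z := (minor_pos hA).2
  have hG := fun a b => inv_symm hA a b
  -- the determinant of the inverse
  have hdet : (g z)⁻¹ 0 0 * (g z)⁻¹ 1 1 * (g z)⁻¹ 2 2
      + 2 * (g z)⁻¹ 0 1 * (g z)⁻¹ 0 2 * (g z)⁻¹ 1 2 - (g z)⁻¹ 0 0 * (g z)⁻¹ 1 2 ^ 2
      - (g z)⁻¹ 1 1 * (g z)⁻¹ 0 2 ^ 2 - (g z)⁻¹ 2 2 * (g z)⁻¹ 0 1 ^ 2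
      = (g z)⁻¹ 2 2 / dt2 g z := by
    rw [← det_eq hA.inv, Matrix.det_nonsing_inv, (inv_eq hA).2.2.2.2.2]
    unfold dt2
    unfold dt2 at hd
    have h1 := hA.det_pos.ne'
    rw [Ring.inverse_eq_inv', div_div_cancel_left' hd.ne']
  -- the intrinsic part
  have h1 : scalarCurvature g z / 2 - bnn g z ![0, 0, 1] (ric g z) = Rl g z 0 1 0 1 / dt2 g z := by
    have ha := alg (fun i j => (g z)⁻¹ i j) hG (Rl g z)
      (fun n i m j => Rl_anti1 hO hM hz n i m j) (fun n i m j => Rl_anti2 n i m j)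
    have hr := fun i j => ricci_eq hO hM hz hs hi i j
    simp only [← hr] at ha
    rw [hdet] at ha
    have hb : bnn g z ![0, 0, 1] (ric g z) =
        (∑ i, ∑ j, (g z)⁻¹ i 2 * (g z)⁻¹ j 2 * ricci g i j z) / (g z)⁻¹ 2 2 := by
      unfold bnn ev ric
      simp only [nrm_two, Matrix.of_apply]
      rw [Finset.sum_div]
      refine Finset.sum_congr rfl fun i _ => ?_
      rw [Finset.sum_div]
      refine Finset.sum_congr rfl fun j _ => ?_
      generalize Real.sqrt ((g z)⁻¹ 2 2) = s at *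
      rw [← hss]
      field_simp
    rw [hb]
    unfold scalarCurvature
    generalize (∑ i, ∑ j, (g z)⁻¹ i 2 * (g z)⁻¹ j 2 * ricci g i j z) = S2 at *
    generalize (∑ i, ∑ j, (g z)⁻¹ i j * ricci g i j z) = S1 at *
    field_simp
    field_simp at ha
    linarith
  -- the Hessian
  have hH : ∀ i j, cHess g z ![0, 0, 1] (hess2 (fun y : E3 => y 2) z) i j
      = -christoffel g 2 i j z := by
    intro i j
    unfold cHess
    simp only [Matrix.of_apply]
    rw [hess_two]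
    simp [Fin.sum_univ_three]
  have h2 := alg2 (fun i j => (g z)⁻¹ i j)
    (fun i j => cHess g z ![0, 0, 1] (hess2 (fun y : E3 => y 2) z) i j) hG
    (fun i j => by simp only [hH]; rw [chr_symm hO hM hz]) hpn
  rw [hdet] at h2
  have h3 : (trg g z (cHess g z ![0, 0, 1] (hess2 (fun y : E3 => y 2) z)) ^ 2
      - nsq g z (cHess g z ![0, 0, 1] (hess2 (fun y : E3 => y 2) z))
      - 2 * bnn g z ![0, 0, 1] (cHess g z ![0, 0, 1] (hess2 (fun y : E3 => y 2) z))
          * trg g z (cHess g z ![0, 0, 1] (hess2 (fun y : E3 => y 2) z))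
      + 2 * ev (g z)⁻¹
          (contr (cHess g z ![0, 0, 1] (hess2 (fun y : E3 => y 2) z)) (nrm g z ![0, 0, 1]))
          (contr (cHess g z ![0, 0, 1] (hess2 (fun y : E3 => y 2) z)) (nrm g z ![0, 0, 1])))
      / (2 * len g z ![0, 0, 1] ^ 2) =
      (christoffel g 2 0 0 z * christoffel g 2 1 1 z - christoffel g 2 0 1 z ^ 2)
        / ((g z)⁻¹ 2 2 * dt2 g z) := by
    simp only [hH] at h2
    generalize cHess g z ![0, 0, 1] (hess2 (fun y : E3 => y 2) z) = H at *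
    have hb : bnn g z ![0, 0, 1] H =
        (∑ i, ∑ j, H i j * (g z)⁻¹ i 2 * (g z)⁻¹ j 2) / (g z)⁻¹ 2 2 := by
      unfold bnn ev
      simp only [nrm_two]
      rw [Finset.sum_div]
      refine Finset.sum_congr rfl fun i _ => ?_
      rw [Finset.sum_div]
      refine Finset.sum_congr rfl fun j _ => ?_
      generalize Real.sqrt ((g z)⁻¹ 2 2) = s at *
      rw [← hss]
      field_simp
    have hc : ev (g z)⁻¹ (contr H (nrm g z ![0, 0, 1])) (contr H (nrm g z ![0, 0, 1])) =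
        (∑ i, ∑ j, (g z)⁻¹ i j * (∑ k, H i k * (g z)⁻¹ k 2) * (∑ l, H j l * (g z)⁻¹ l 2))
          / (g z)⁻¹ 2 2 := by
      unfold ev contr
      simp only [nrm_two]
      rw [Finset.sum_div]
      refine Finset.sum_congr rfl fun i _ => ?_
      rw [Finset.sum_div]
      refine Finset.sum_congr rfl fun j _ => ?_
      simp only [Fin.sum_univ_three]
      generalize Real.sqrt ((g z)⁻¹ 2 2) = s at *
      rw [← hss]
      field_simp
    rw [hb, hc, len_two, hss]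
    unfold trg nsq
    simp only [hH]
    rw [h2]
    field_simp
  unfold curv gaussK
  rw [grad_two, h1, h3]
  -- the final identity
  have hd0 := hd.ne'
  obtain ⟨e1, e2, e3⟩ := proj_eq hA
  have hc := fun i j => chr_eq hO hM hz 2 i j
  have s10 := hG 1 0
  have s20 := hG 2 0
  have s21 := hG 2 1
  have c1 : pd 1 (pd 0 (fun y => g y 1 0)) z = pd 0 (pd 1 (fun y => g y 0 1)) z := by
    rw [pd_comm (hs 1 0) 1 0, pd2_symm hO hM hz 0 1 1 0]
  have g0 := gl_symm hO hM hz 0 1 0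
  have g1 := gl_symm hO hM hz 1 1 0
  have g2 := gl_symm hO hM hz 2 1 0
  unfold K2 Rl
  simp only [hc, c1]
  have e1' : (g z)⁻¹ 0 0 = g z 1 1 / dt2 g z + (g z)⁻¹ 0 2 * (g z)⁻¹ 0 2 / (g z)⁻¹ 2 2 := by
    unfold dt2
    rw [← e1]
    ring
  have e2' : (g z)⁻¹ 0 1 = -g z 0 1 / dt2 g z + (g z)⁻¹ 0 2 * (g z)⁻¹ 1 2 / (g z)⁻¹ 2 2 := by
    unfold dt2
    rw [← e2]
    ring
  have e3' : (g z)⁻¹ 1 1 = g z 0 0 / dt2 g z + (g z)⁻¹ 1 2 * (g z)⁻¹ 1 2 / (g z)⁻¹ 2 2 := by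
    unfold dt2
    rw [← e3]
    ring
  simp only [Fin.sum_univ_three, g0, g1, g2, s10, s20, s21, e1', e2', e3']
  generalize (g z)⁻¹ 0 2 = a at *
  generalize (g z)⁻¹ 1 2 = b at *
  generalize (g z)⁻¹ 2 2 = q at *
  generalize dt2 g z = d at *
  field_simp
  ring

end

end AD

theorem ADAP (hSMO : Stmt_SMO) : Stmt_ADAP := by
  intro g z hR
  obtain ⟨-, -, -, -, hs, hi, -⟩ := hSMO.2 g _ z hR
  obtain ⟨O, hO, hz, hm, -, -⟩ := hR
  have hM : ∀ y ∈ O, (g y).PosDef := hm.posDef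
  refine ⟨(AD.minor_pos (hM z hz)).2, ?_, ?_, AD.gauss_two hO hM hz hs hi⟩
  · intro f h _ _
    unfold lin lin2 dt2
    rw [AD.grad_two, AD.lip_two (hM z hz)]
    rfl
  · intro f _
    exact AD.lap_two hO hM hz f

end Pool.Agent.PFlow.GB
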