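import Pool.Agent.PFlow.StmtsG
import Pool.Agent.PenroseConvex.XR3

/-!
# (BO2) The two-dimensional Bochner formula
-/

open MeasureTheory Filter Topology
open scoped ContDiff

namespace Pool.Agent.PFlow.GB

open Pool.Agent.PenroseSph Pool.Agent.PFlow Pool.Agent.PenroseConvex.XR3

namespace BO2aux

/-- The divergence of the vector field `(P, Q) / D`, where `D` is the determinant. -/
noncomputable def dv (D P Q : E3 → ℝ) (y : E3) : ℝ :=
  (pd 0 P y + pd 1 Q y) / D y - (P y * pd 0 D y + Q y * pd 1 D y) / (2 * D y ^ 2)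

lemma HP_sqrt {l : Fin 3} {f : E3 → ℝ} {f' : ℝ} {x : E3} (hf : HP l f f' x) (h0 : 0 < f x) :
    HP l (fun y => Real.sqrt (f y)) (f' / (2 * Real.sqrt (f x))) x := by
  refine ⟨hf.diff.sqrt h0.ne', ?_⟩
  unfold pd
  rw [fderiv_sqrt hf.diff h0.ne']
  have := hf.val
  unfold pd at this
  rw [← this]
  change 1 / (2 * Real.sqrt (f x)) * ((fderiv ℝ f x) (EuclideanSpace.single l 1)) = _
  ring

lemma dv_eq {D P Q : E3 → ℝ} {y : E3} (h0 : 0 < D y) (hD : DifferentiableAt ℝ D y)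
    (hP : DifferentiableAt ℝ P y) (hQ : DifferentiableAt ℝ Q y) :
    (pd 0 (fun x => P x / Real.sqrt (D x)) y + pd 1 (fun x => Q x / Real.sqrt (D x)) y)
      / Real.sqrt (D y) = dv D P Q y := by
  have hs : 0 < Real.sqrt (D y) := Real.sqrt_pos.mpr h0
  have h2 : Real.sqrt (D y) ^ 2 = D y := Real.sq_sqrt h0.le
  have e1 : ∀ (R : E3 → ℝ), (fun x => R x / Real.sqrt (D x))
      = fun x => R x * (Real.sqrt (D x))⁻¹ := by
    intro R
    funext x
    rw [div_eq_mul_inv]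
  have k0 : HP 0 (fun x => P x * (Real.sqrt (D x))⁻¹) _ y :=
    (HP.of_diff hP).mul ((HP_sqrt (HP.of_diff hD) h0).inv hs.ne')
  have k1 : HP 1 (fun x => Q x * (Real.sqrt (D x))⁻¹) _ y :=
    (HP.of_diff hQ).mul ((HP_sqrt (HP.of_diff hD) h0).inv hs.ne')
  rw [e1, e1, k0.val, k1.val]
  unfold dv
  obtain ⟨s, hs'⟩ : ∃ s, s = Real.sqrt (D y) := ⟨_, rfl⟩
  rw [← hs'] at hs h2 ⊢
  rw [← h2]
  have := hs.ne'
  field_simp
  ring

lemma dv_lin {D P Q P' Q' : E3 → ℝ} {y : E3} (c : ℝ)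
    (hP : DifferentiableAt ℝ P y) (hQ : DifferentiableAt ℝ Q y)
    (hP' : DifferentiableAt ℝ P' y) (hQ' : DifferentiableAt ℝ Q' y) :
    dv D (fun x => P x * c - P' x) (fun x => Q x * c - Q' x) y
      = dv D P Q y * c - dv D P' Q' y := by
  have k0 : HP 0 (fun x => P x * c - P' x) _ y :=
    ((HP.of_diff hP).mul (HP.const c)).sub (HP.of_diff hP')
  have k1 : HP 1 (fun x => Q x * c - Q' x) _ y :=
    ((HP.of_diff hQ).mul (HP.const c)).sub (HP.of_diff hQ')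
  unfold dv
  rw [k0.val, k1.val]
  ring

lemma dv_mul {D P Q T : E3 → ℝ} {y : E3} (hP : DifferentiableAt ℝ P y)
    (hQ : DifferentiableAt ℝ Q y) (hT : DifferentiableAt ℝ T y) :
    dv D (fun x => T x * P x) (fun x => T x * Q x) y
      = T y * dv D P Q y + (P y * pd 0 T y + Q y * pd 1 T y) / D y := by
  have k0 : HP 0 (fun x => T x * P x) _ y := (HP.of_diff hT).mul (HP.of_diff hP)
  have k1 : HP 1 (fun x => T x * Q x) _ y := (HP.of_diff hT).mul (HP.of_diff hQ)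
  unfold dv
  rw [k0.val, k1.val]
  ring

lemma dv_congr {D P Q P' Q' : E3 → ℝ} {y : E3} (hP : P =ᶠ[𝓝 y] P') (hQ : Q =ᶠ[𝓝 y] Q') :
    dv D P Q y = dv D P' Q' y := by
  unfold dv
  rw [pd_congr hP, pd_congr hQ, hP.eq_of_nhds, hQ.eq_of_nhds]

/-- Regularity of the metric `E, F, G` and the function `φ` at a point. -/
structure Jet (E F G φ : E3 → ℝ) (y : E3) : Prop where
  pos : 0 < E y * G y - F y ^ 2
  dE : DifferentiableAt ℝ E y
  dF : DifferentiableAt ℝ F y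
  dG : DifferentiableAt ℝ G y
  dφ : DifferentiableAt ℝ φ y
  d0 : DifferentiableAt ℝ (pd 0 φ) y
  d1 : DifferentiableAt ℝ (pd 1 φ) y
  comm : pd 1 (pd 0 φ) y = pd 0 (pd 1 φ) y

section

variable (E F G φ : E3 → ℝ)

noncomputable def dt (y : E3) : ℝ := E y * G y - F y ^ 2
noncomputable def u0 (y : E3) : ℝ := (G y * pd 0 φ y - F y * pd 1 φ y) / dt E F G y
noncomputable def u1 (y : E3) : ℝ := (E y * pd 1 φ y - F y * pd 0 φ y) / dt E F G y
noncomputable def h00 (y : E3) : ℝ :=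
  pd 0 (pd 0 φ) y - (1 / 2 * pd 0 E y * u0 E F G φ y
    + (pd 0 F y - 1 / 2 * pd 1 E y) * u1 E F G φ y)
noncomputable def h01 (y : E3) : ℝ :=
  pd 0 (pd 1 φ) y - (1 / 2 * pd 1 E y * u0 E F G φ y + 1 / 2 * pd 0 G y * u1 E F G φ y)
noncomputable def h11 (y : E3) : ℝ :=
  pd 1 (pd 1 φ) y - ((pd 1 F y - 1 / 2 * pd 0 G y) * u0 E F G φ y
    + 1 / 2 * pd 1 G y * u1 E F G φ y)
noncomputable def tt (y : E3) : ℝ :=
  (G y * h00 E F G φ y - 2 * F y * h01 E F G φ y + E y * h11 E F G φ y) / dt E F G y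
noncomputable def ff (y : E3) : ℝ :=
  (G y * (pd 0 φ y * pd 0 φ y) - F y * (pd 0 φ y * pd 1 φ y + pd 1 φ y * pd 0 φ y)
    + E y * (pd 1 φ y * pd 1 φ y)) / dt E F G y

end

variable {E F G φ : E3 → ℝ} {y : E3}

lemma Jet.hdt (h : Jet E F G φ y) (l : Fin 3) :
    HP l (dt E F G) (E y * pd l G y + G y * pd l E y - 2 * F y * pd l F y) y :=
  ((HP.of_diff h.dE).mul (HP.of_diff h.dG)).sub (HP.of_diff h.dF).sq

lemma Jet.dt_pos (h : Jet E F G φ y) : 0 < dt E F G y := h.pos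

lemma Jet.hP (h : Jet E F G φ y) (l : Fin 3) :
    HP l (fun x => G x * pd 0 φ x - F x * pd 1 φ x)
      (G y * pd l (pd 0 φ) y + pd 0 φ y * pd l G y - (F y * pd l (pd 1 φ) y + pd 1 φ y * pd l F y))
      y :=
  ((HP.of_diff h.dG).mul (HP.of_diff h.d0)).sub ((HP.of_diff h.dF).mul (HP.of_diff h.d1))

lemma Jet.hQ (h : Jet E F G φ y) (l : Fin 3) :
    HP l (fun x => E x * pd 1 φ x - F x * pd 0 φ x)
      (E y * pd l (pd 1 φ) y + pd 1 φ y * pd l E y - (F y * pd l (pd 0 φ) y + pd 0 φ y * pd l F y))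
      y :=
  ((HP.of_diff h.dE).mul (HP.of_diff h.d1)).sub ((HP.of_diff h.dF).mul (HP.of_diff h.d0))

/-- The Laplacian is the trace of the Hessian. -/
lemma Jet.lap_eq (h : Jet E F G φ y) :
    dv (dt E F G) (fun x => G x * pd 0 φ x - F x * pd 1 φ x)
      (fun x => E x * pd 1 φ x - F x * pd 0 φ x) y = tt E F G φ y := by
  have h0 := h.dt_pos.ne'
  unfold dv tt h00 h01 h11 u0 u1
  rw [(h.hP 0).val, (h.hQ 1).val, (h.hdt 0).val, (h.hdt 1).val, h.comm]
  have hd : dt E F G y = E y * G y - F y ^ 2 := rfl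
  field_simp
  rw [hd]
  ring

/-- The derivative of `f`. -/
lemma Jet.ff_eq (h : Jet E F G φ y) :
    HP 0 (ff E F G φ) (2 * (u0 E F G φ y * h00 E F G φ y + u1 E F G φ y * h01 E F G φ y)) y ∧
    HP 1 (ff E F G φ) (2 * (u0 E F G φ y * h01 E F G φ y + u1 E F G φ y * h11 E F G φ y)) y := by
  have h0 := h.dt_pos.ne'
  have e1 : ff E F G φ = fun x => (G x * (pd 0 φ x * pd 0 φ x)
      - F x * (pd 0 φ x * pd 1 φ x + pd 1 φ x * pd 0 φ x)
      + E x * (pd 1 φ x * pd 1 φ x)) * (dt E F G x)⁻¹ := by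
    funext x
    unfold ff
    rw [div_eq_mul_inv]
  have k := fun l => ((((HP.of_diff (l := l) h.dG).mul
      ((HP.of_diff h.d0).mul (HP.of_diff h.d0))).sub
      ((HP.of_diff h.dF).mul (((HP.of_diff h.d0).mul (HP.of_diff h.d1)).add
        ((HP.of_diff h.d1).mul (HP.of_diff h.d0))))).add
      ((HP.of_diff h.dE).mul ((HP.of_diff h.d1).mul (HP.of_diff h.d1)))).mul
      ((h.hdt l).inv h0)
  rw [e1]
  have hd : dt E F G y = E y * G y - F y ^ 2 := rfl
  constructor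
  · refine ⟨(k 0).diff, ?_⟩
    rw [(k 0).val]
    unfold h00 h01 u0 u1
    field_simp
    rw [hd]
    ring
  · refine ⟨(k 1).diff, ?_⟩
    rw [(k 1).val, h.comm]
    unfold h01 h11 u0 u1
    field_simp
    rw [hd]
    ring

/-- The vector field `u` in terms of `dφ`. -/
lemma Jet.phi_eq (h : Jet E F G φ y) :
    pd 0 φ y = E y * u0 E F G φ y + F y * u1 E F G φ y ∧
    pd 1 φ y = F y * u0 E F G φ y + G y * u1 E F G φ y := by
  have h0 := h.dt_pos.ne'
  have hd : dt E F G y = E y * G y - F y ^ 2 := rfl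
  unfold u0 u1
  constructor
  · field_simp
    rw [hd]
    ring
  · field_simp
    rw [hd]
    ring

/-- The derivatives of `u`. -/
lemma Jet.u_eq (h : Jet E F G φ y) (l : Fin 3) :
    HP l (u0 E F G φ) ((G y * (pd l (pd 0 φ) y - pd l E y * u0 E F G φ y
        - pd l F y * u1 E F G φ y) - F y * (pd l (pd 1 φ) y - pd l F y * u0 E F G φ y
        - pd l G y * u1 E F G φ y)) * (dt E F G y)⁻¹) y ∧
    HP l (u1 E F G φ) ((E y * (pd l (pd 1 φ) y - pd l F y * u0 E F G φ y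
        - pd l G y * u1 E F G φ y) - F y * (pd l (pd 0 φ) y - pd l E y * u0 E F G φ y
        - pd l F y * u1 E F G φ y)) * (dt E F G y)⁻¹) y := by
  have h0 := h.dt_pos.ne'
  have hd : dt E F G y = E y * G y - F y ^ 2 := rfl
  have e0 : u0 E F G φ = fun x => (G x * pd 0 φ x - F x * pd 1 φ x) * (dt E F G x)⁻¹ := by
    funext x
    unfold u0
    rw [div_eq_mul_inv]
  have e1 : u1 E F G φ = fun x => (E x * pd 1 φ x - F x * pd 0 φ x) * (dt E F G x)⁻¹ := by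
    funext x
    unfold u1
    rw [div_eq_mul_inv]
  have k0 := (h.hP l).mul ((h.hdt l).inv h0)
  have k1 := (h.hQ l).mul ((h.hdt l).inv h0)
  rw [← e0] at k0
  rw [← e1] at k1
  constructor
  · refine ⟨k0.diff, ?_⟩
    rw [k0.val]
    unfold u0 u1
    field_simp
    rw [hd]
    ring
  · refine ⟨k1.diff, ?_⟩
    rw [k1.val]
    unfold u0 u1
    field_simp
    rw [hd]
    ring

/-- The final algebraic identity. -/
lemma alg (e f g w e0 e1 f0 f1 g0 g1 e01 e11 g00 g01 f01 p001 p011 u v p q r : ℝ)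
    (hw : w * (e * g - f ^ 2) = 1)
    (u_0 u_1 v_0 v_1 : ℝ)
    (hu0 : u_0 = (g * (p + (1 / 2 * e0 * u + (f0 - 1 / 2 * e1) * v) - e0 * u - f0 * v)
      - f * (q + (1 / 2 * e1 * u + 1 / 2 * g0 * v) - f0 * u - g0 * v)) * w)
    (hu1 : u_1 = (g * (q + (1 / 2 * e1 * u + 1 / 2 * g0 * v) - e1 * u - f1 * v)
      - f * (r + ((f1 - 1 / 2 * g0) * u + 1 / 2 * g1 * v) - f1 * u - g1 * v)) * w)
    (hv0 : v_0 = (e * (q + (1 / 2 * e1 * u + 1 / 2 * g0 * v) - f0 * u - g0 * v)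
      - f * (p + (1 / 2 * e0 * u + (f0 - 1 / 2 * e1) * v) - e0 * u - f0 * v)) * w)
    (hv1 : v_1 = (e * (r + ((f1 - 1 / 2 * g0) * u + 1 / 2 * g1 * v) - f1 * u - g1 * v)
      - f * (q + (1 / 2 * e1 * u + 1 / 2 * g0 * v) - e1 * u - f1 * v)) * w) :
    (q * (q + (1 / 2 * e1 * u + 1 / 2 * g0 * v))
      + (f * u + g * v) * (p001 - (1 / 2 * e1 * u_0 + u * (1 / 2 * e01)
          + (1 / 2 * g0 * v_0 + v * (1 / 2 * g00))))
      - (r * (p + (1 / 2 * e0 * u + (f0 - 1 / 2 * e1) * v))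
        + (e * u + f * v) * (p011 - ((f1 - 1 / 2 * g0) * u_0 + u * (f01 - 1 / 2 * g00)
          + (1 / 2 * g1 * v_0 + v * (1 / 2 * g01)))))
      + (q * (q + (1 / 2 * e1 * u + 1 / 2 * g0 * v))
        + (e * u + f * v) * (p011 - (1 / 2 * e1 * u_1 + u * (1 / 2 * e11)
          + (1 / 2 * g0 * v_1 + v * (1 / 2 * g01))))
        - (p * (r + ((f1 - 1 / 2 * g0) * u + 1 / 2 * g1 * v))
          + (f * u + g * v) * (p001 - (1 / 2 * e0 * u_1 + u * (1 / 2 * e01)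
            + ((f0 - 1 / 2 * e1) * v_1 + v * (f01 - 1 / 2 * e11)))))))
      - ((q * (f * u + g * v) - r * (e * u + f * v)) * (e * g0 + g * e0 - 2 * f * f0)
        + (q * (e * u + f * v) - p * (f * u + g * v)) * (e * g1 + g * e1 - 2 * f * f1))
        * w / 2
    = (-(g00 + e11 - 2 * f01) / 2
        + w * (g * ((1 / 2 * e1) ^ 2 - 1 / 2 * e0 * (f1 - 1 / 2 * g0))
          - f * (2 * (1 / 2 * e1) * (1 / 2 * g0) - 1 / 2 * e0 * (1 / 2 * g1)
              - (f0 - 1 / 2 * e1) * (f1 - 1 / 2 * g0))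
          + e * ((1 / 2 * g0) ^ 2 - (f0 - 1 / 2 * e1) * (1 / 2 * g1))))
      * (e * u ^ 2 + 2 * f * u * v + g * v ^ 2) - 2 * (p * r - q ^ 2) := by
  subst hu0 hu1 hv0 hv1
  linear_combination (-(2 * q * (1 / 2 * e1 * u + 1 / 2 * g0 * v)
    - r * (1 / 2 * e0 * u + (f0 - 1 / 2 * e1) * v)
    - p * ((f1 - 1 / 2 * g0) * u + 1 / 2 * g1 * v))) * hw

/-- The Gauss curvature. -/
noncomputable def kk (E F G : E3 → ℝ) (y : E3) : ℝ :=
  (-(pd 0 (pd 0 G) y + pd 1 (pd 1 E) y - 2 * pd 0 (pd 1 F) y) / 2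
    + (dt E F G y)⁻¹ * (G y * ((1 / 2 * pd 1 E y) ^ 2
          - 1 / 2 * pd 0 E y * (pd 1 F y - 1 / 2 * pd 0 G y))
      - F y * (2 * (1 / 2 * pd 1 E y) * (1 / 2 * pd 0 G y) - 1 / 2 * pd 0 E y * (1 / 2 * pd 1 G y)
          - (pd 0 F y - 1 / 2 * pd 1 E y) * (pd 1 F y - 1 / 2 * pd 0 G y))
      + E y * ((1 / 2 * pd 0 G y) ^ 2 - (pd 0 F y - 1 / 2 * pd 1 E y) * (1 / 2 * pd 1 G y))))
    / dt E F G y

/-- The inner product. -/
noncomputable def ln (E F G f h : E3 → ℝ) (y : E3) : ℝ :=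
  (G y * (pd 0 f y * pd 0 h y) - F y * (pd 0 f y * pd 1 h y + pd 1 f y * pd 0 h y)
    + E y * (pd 1 f y * pd 1 h y)) / dt E F G y

/-- Second order regularity. -/
structure Jet2 (E F G φ : E3 → ℝ) (z : E3) : Prop where
  near : ∀ᶠ y in 𝓝 z, Jet E F G φ y
  dE : ∀ i, DifferentiableAt ℝ (pd i E) z
  dF : ∀ i, DifferentiableAt ℝ (pd i F) z
  dG : ∀ i, DifferentiableAt ℝ (pd i G) z
  cE : pd 1 (pd 0 E) z = pd 0 (pd 1 E) z
  cF : pd 1 (pd 0 F) z = pd 0 (pd 1 F) z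
  cG : pd 1 (pd 0 G) z = pd 0 (pd 1 G) z
  d00 : DifferentiableAt ℝ (pd 0 (pd 0 φ)) z
  d01 : DifferentiableAt ℝ (pd 0 (pd 1 φ)) z
  d11 : DifferentiableAt ℝ (pd 1 (pd 1 φ)) z
  c0 : pd 1 (pd 0 (pd 0 φ)) z = pd 0 (pd 1 (pd 0 φ)) z
  c1 : pd 1 (pd 0 (pd 1 φ)) z = pd 0 (pd 1 (pd 1 φ)) z

variable {z : E3}

/-- The divergence of `(h01 φ_1 - h11 φ_0, h01 φ_0 - h00 φ_1) / D`. -/
lemma Jet2.div_eq (h : Jet2 E F G φ z) :
    dv (dt E F G) (fun x => h01 E F G φ x * pd 1 φ x - h11 E F G φ x * pd 0 φ x)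
      (fun x => h01 E F G φ x * pd 0 φ x - h00 E F G φ x * pd 1 φ x) z
    = kk E F G z * ff E F G φ z
      - 2 * (h00 E F G φ z * h11 E F G φ z - h01 E F G φ z ^ 2) / dt E F G z := by
  have j := h.near.self_of_nhds
  have j0 := j.dt_pos.ne'
  have hd : dt E F G z = E z * G z - F z ^ 2 := rfl
  have c : pd 1 (pd 0 (pd 0 φ)) z = pd 0 (pd 0 (pd 1 φ)) z := by
    rw [h.c0]
    exact pd_congr (h.near.mono fun y hy => hy.comm)
  have H01 := fun l => (HP.of_diff (l := l) h.d01).sub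
    ((((HP.const (1 / 2 : ℝ)).mul (HP.of_diff (h.dE 1))).mul (j.u_eq l).1).add
      (((HP.const (1 / 2 : ℝ)).mul (HP.of_diff (h.dG 0))).mul (j.u_eq l).2))
  have H00 := fun l => (HP.of_diff (l := l) h.d00).sub
    ((((HP.const (1 / 2 : ℝ)).mul (HP.of_diff (h.dE 0))).mul (j.u_eq l).1).add
      (((HP.of_diff (h.dF 0)).sub ((HP.const (1 / 2 : ℝ)).mul (HP.of_diff (h.dE 1)))).mul
        (j.u_eq l).2))
  have H11 := fun l => (HP.of_diff (l := l) h.d11).sub
    ((((HP.of_diff (h.dF 1)).sub ((HP.const (1 / 2 : ℝ)).mul (HP.of_diff (h.dG 0)))).mul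
        (j.u_eq l).1).add
      (((HP.const (1 / 2 : ℝ)).mul (HP.of_diff (h.dG 1))).mul (j.u_eq l).2))
  have Y0 := ((H01 0).mul (HP.of_diff j.d1)).sub ((H11 0).mul (HP.of_diff j.d0))
  have Y1 := ((H01 1).mul (HP.of_diff j.d0)).sub ((H00 1).mul (HP.of_diff j.d1))
  have Y0' : pd 0 (fun x => h01 E F G φ x * pd 1 φ x - h11 E F G φ x * pd 0 φ x) z = _ := Y0.val
  have Y1' : pd 1 (fun x => h01 E F G φ x * pd 0 φ x - h00 E F G φ x * pd 1 φ x) z = _ := Y1.val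
  have f_eq : ff E F G φ z = (E z * u0 E F G φ z ^ 2 + 2 * F z * u0 E F G φ z * u1 E F G φ z
      + G z * u1 E F G φ z ^ 2) := by
    unfold ff
    rw [j.phi_eq.1, j.phi_eq.2]
    field_simp
    rw [hd]
    ring
  have hw : (dt E F G z)⁻¹ * (E z * G z - F z ^ 2) = 1 := by
    rw [← hd]
    exact inv_mul_cancel₀ j0
  have q0 : pd 0 (pd 0 φ) z = h00 E F G φ z + (1 / 2 * pd 0 E z * u0 E F G φ z
      + (pd 0 F z - 1 / 2 * pd 1 E z) * u1 E F G φ z) := by
    unfold h00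
    ring
  have q1 : pd 0 (pd 1 φ) z = h01 E F G φ z + (1 / 2 * pd 1 E z * u0 E F G φ z
      + 1 / 2 * pd 0 G z * u1 E F G φ z) := by
    unfold h01
    ring
  have q2 : pd 1 (pd 1 φ) z = h11 E F G φ z + ((pd 1 F z - 1 / 2 * pd 0 G z) * u0 E F G φ z
      + 1 / 2 * pd 1 G z * u1 E F G φ z) := by
    unfold h11
    ring
  have A := alg (E z) (F z) (G z) (dt E F G z)⁻¹ (pd 0 E z) (pd 1 E z) (pd 0 F z) (pd 1 F z)
    (pd 0 G z) (pd 1 G z) (pd 0 (pd 1 E) z) (pd 1 (pd 1 E) z) (pd 0 (pd 0 G) z)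
    (pd 0 (pd 1 G) z) (pd 0 (pd 1 F) z) (pd 0 (pd 0 (pd 1 φ)) z) (pd 0 (pd 1 (pd 1 φ)) z)
    (u0 E F G φ z) (u1 E F G φ z) (h00 E F G φ z) (h01 E F G φ z) (h11 E F G φ z) hw
    _ _ _ _ rfl rfl rfl rfl
  unfold dv kk
  beta_reduce
  rw [Y0', Y1', (j.hdt 0).val, (j.hdt 1).val, f_eq, c, h.c1, h.cE, h.cF, h.cG, j.comm, q0, q1, q2,
    j.phi_eq.1, j.phi_eq.2]
  simp only [div_eq_mul_inv, mul_inv] at A ⊢
  linear_combination (dt E F G z)⁻¹ * A

lemma Jet2.diffs (h : Jet2 E F G φ z) : DifferentiableAt ℝ (h00 E F G φ) z ∧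
    DifferentiableAt ℝ (h01 E F G φ) z ∧ DifferentiableAt ℝ (h11 E F G φ) z ∧
    DifferentiableAt ℝ (tt E F G φ) z := by
  have j := h.near.self_of_nhds
  have j0 := j.dt_pos.ne'
  have H01 := (HP.of_diff (l := 0) h.d01).sub
    ((((HP.const (1 / 2 : ℝ)).mul (HP.of_diff (h.dE 1))).mul (j.u_eq 0).1).add
      (((HP.const (1 / 2 : ℝ)).mul (HP.of_diff (h.dG 0))).mul (j.u_eq 0).2))
  have H00 := (HP.of_diff (l := 0) h.d00).sub
    ((((HP.const (1 / 2 : ℝ)).mul (HP.of_diff (h.dE 0))).mul (j.u_eq 0).1).add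
      (((HP.of_diff (h.dF 0)).sub ((HP.const (1 / 2 : ℝ)).mul (HP.of_diff (h.dE 1)))).mul
        (j.u_eq 0).2))
  have H11 := (HP.of_diff (l := 0) h.d11).sub
    ((((HP.of_diff (h.dF 1)).sub ((HP.const (1 / 2 : ℝ)).mul (HP.of_diff (h.dG 0)))).mul
        (j.u_eq 0).1).add
      (((HP.const (1 / 2 : ℝ)).mul (HP.of_diff (h.dG 1))).mul (j.u_eq 0).2))
  have d00 : DifferentiableAt ℝ (h00 E F G φ) z := H00.diff
  have d01 : DifferentiableAt ℝ (h01 E F G φ) z := H01.diff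
  have d11 : DifferentiableAt ℝ (h11 E F G φ) z := H11.diff
  refine ⟨d00, d01, d11, ?_⟩
  have e : tt E F G φ = fun y => (G y * h00 E F G φ y - 2 * F y * h01 E F G φ y
      + E y * h11 E F G φ y) * (dt E F G y)⁻¹ := by
    funext y
    unfold tt
    rw [div_eq_mul_inv]
  rw [e]
  exact (((j.dG.mul d00).sub ((j.dF.const_mul 2).mul d01)).add
    (j.dE.mul d11)).mul ((j.hdt 0).inv j0).diff

theorem Jet2.core (h : Jet2 E F G φ z) :
    kk E F G z * ff E F G φ z ^ 2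
      = ff E F G φ z * dv (dt E F G)
          (fun x => G x * pd 0 (ff E F G φ) x - F x * pd 1 (ff E F G φ) x)
          (fun x => E x * pd 1 (ff E F G φ) x - F x * pd 0 (ff E F G φ) x) z / 2
        - ff E F G φ z * ln E F G φ (tt E F G φ) z
        - ff E F G φ z * tt E F G φ z ^ 2
        - ln E F G (ff E F G φ) (ff E F G φ) z / 2
        + tt E F G φ z * ln E F G (ff E F G φ) φ z := by
  have j := h.near.self_of_nhds
  have j0 := j.dt_pos.ne'
  have hd : dt E F G z = E z * G z - F z ^ 2 := rfl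
  obtain ⟨d00, d01, d11, dT⟩ := h.diffs
  have n0 : (fun x => G x * pd 0 (ff E F G φ) x - F x * pd 1 (ff E F G φ) x) =ᶠ[𝓝 z]
      fun x => (tt E F G φ x * (G x * pd 0 φ x - F x * pd 1 φ x)) * 2
        - (-2) * (h01 E F G φ x * pd 1 φ x - h11 E F G φ x * pd 0 φ x) := by
    filter_upwards [h.near] with y hy
    have y0 := hy.dt_pos.ne'
    have hdy : dt E F G y = E y * G y - F y ^ 2 := rfl
    rw [hy.ff_eq.1.val, hy.ff_eq.2.val, hy.phi_eq.1, hy.phi_eq.2]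
    unfold tt
    field_simp
    rw [hdy]
    ring
  have n1 : (fun x => E x * pd 1 (ff E F G φ) x - F x * pd 0 (ff E F G φ) x) =ᶠ[𝓝 z]
      fun x => (tt E F G φ x * (E x * pd 1 φ x - F x * pd 0 φ x)) * 2
        - (-2) * (h01 E F G φ x * pd 0 φ x - h00 E F G φ x * pd 1 φ x) := by
    filter_upwards [h.near] with y hy
    have y0 := hy.dt_pos.ne'
    have hdy : dt E F G y = E y * G y - F y ^ 2 := rfl
    rw [hy.ff_eq.1.val, hy.ff_eq.2.val, hy.phi_eq.1, hy.phi_eq.2]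
    unfold tt
    field_simp
    rw [hdy]
    ring
  have e1 : dv (dt E F G)
          (fun x => G x * pd 0 (ff E F G φ) x - F x * pd 1 (ff E F G φ) x)
          (fun x => E x * pd 1 (ff E F G φ) x - F x * pd 0 (ff E F G φ) x) z
      = 2 * (tt E F G φ z ^ 2 + ln E F G φ (tt E F G φ) z + kk E F G z * ff E F G φ z
        - 2 * (h00 E F G φ z * h11 E F G φ z - h01 E F G φ z ^ 2) / dt E F G z) := by
    have dP := (j.hP 0).diff
    have dQ := (j.hQ 0).diff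
    have dY0 : DifferentiableAt ℝ
        (fun x => h01 E F G φ x * pd 1 φ x - h11 E F G φ x * pd 0 φ x) z :=
      (d01.mul j.d1).sub (d11.mul j.d0)
    have dY1 : DifferentiableAt ℝ
        (fun x => h01 E F G φ x * pd 0 φ x - h00 E F G φ x * pd 1 φ x) z :=
      (d01.mul j.d0).sub (d00.mul j.d1)
    have dTP : DifferentiableAt ℝ
        (fun x => tt E F G φ x * (G x * pd 0 φ x - F x * pd 1 φ x)) z := dT.mul dP
    have dTQ : DifferentiableAt ℝ
        (fun x => tt E F G φ x * (E x * pd 1 φ x - F x * pd 0 φ x)) z := dT.mul dQ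
    rw [dv_congr n0 n1, dv_lin 2 dTP dTQ (dY0.const_mul (-2))
      (dY1.const_mul (-2)), dv_mul dP dQ dT, j.lap_eq]
    have e2 : dv (dt E F G)
        (fun x => -2 * (h01 E F G φ x * pd 1 φ x - h11 E F G φ x * pd 0 φ x))
        (fun x => -2 * (h01 E F G φ x * pd 0 φ x - h00 E F G φ x * pd 1 φ x)) z
        = -2 * dv (dt E F G)
        (fun x => (h01 E F G φ x * pd 1 φ x - h11 E F G φ x * pd 0 φ x))
        (fun x => (h01 E F G φ x * pd 0 φ x - h00 E F G φ x * pd 1 φ x)) z := by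
      rw [dv_mul dY0 dY1 (differentiableAt_const (-2 : ℝ)), pd_const, pd_const]
      ring
    rw [e2, h.div_eq]
    unfold ln
    field_simp
    ring
  rw [e1]
  have e3 : ff E F G φ z = (E z * u0 E F G φ z ^ 2 + 2 * F z * u0 E F G φ z * u1 E F G φ z
      + G z * u1 E F G φ z ^ 2) := by
    unfold ff
    rw [j.phi_eq.1, j.phi_eq.2]
    field_simp
    rw [hd]
    ring
  have e4 : ln E F G (ff E F G φ) φ z
      = 2 * (u0 E F G φ z * h00 E F G φ z + u1 E F G φ z * h01 E F G φ z) * u0 E F G φ z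
        + 2 * (u0 E F G φ z * h01 E F G φ z + u1 E F G φ z * h11 E F G φ z)
          * u1 E F G φ z := by
    unfold ln
    rw [j.ff_eq.1.val, j.ff_eq.2.val, j.phi_eq.1, j.phi_eq.2]
    field_simp
    rw [hd]
    ring
  have e5 : ln E F G (ff E F G φ) (ff E F G φ) z
      = 4 * (G z * (u0 E F G φ z * h00 E F G φ z + u1 E F G φ z * h01 E F G φ z) ^ 2
        - 2 * F z * (u0 E F G φ z * h00 E F G φ z + u1 E F G φ z * h01 E F G φ z)
          * (u0 E F G φ z * h01 E F G φ z + u1 E F G φ z * h11 E F G φ z)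
        + E z * (u0 E F G φ z * h01 E F G φ z + u1 E F G φ z * h11 E F G φ z) ^ 2)
        / dt E F G z := by
    unfold ln
    rw [j.ff_eq.1.val, j.ff_eq.2.val]
    ring
  have e6 : - ff E F G φ z * (2 * (h00 E F G φ z * h11 E F G φ z - h01 E F G φ z ^ 2)
        / dt E F G z) - ln E F G (ff E F G φ) (ff E F G φ) z / 2
        + tt E F G φ z * ln E F G (ff E F G φ) φ z = 0 := by
    rw [e4, e5, e3]
    unfold tt
    field_simp
    ring
  linear_combination -e6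

lemma Jet2.of_contDiffAt (hE : ContDiffAt ℝ 3 E z) (hF : ContDiffAt ℝ 3 F z)
    (hG : ContDiffAt ℝ 3 G z) (hφ : ContDiffAt ℝ 4 φ z) (h0 : 0 < E z * G z - F z ^ 2) :
    Jet2 E F G φ z := by
  have hp : ∀ i, ContDiffAt ℝ 3 (pd i φ) z := fun i => contDiffAt_pd hφ (by norm_num) i
  have hpp : ∀ i j, ContDiffAt ℝ 2 (pd i (pd j φ)) z :=
    fun i j => contDiffAt_pd (hp j) (by norm_num) i
  constructor
  · have e1 : ∀ᶠ y in 𝓝 z, ContDiffAt ℝ 3 E y := hE.eventually (by simp)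
    have e2 : ∀ᶠ y in 𝓝 z, ContDiffAt ℝ 3 F y := hF.eventually (by simp)
    have e3 : ∀ᶠ y in 𝓝 z, ContDiffAt ℝ 3 G y := hG.eventually (by simp)
    have e4 : ∀ᶠ y in 𝓝 z, ContDiffAt ℝ 4 φ y := hφ.eventually (by simp)
    have e5 : ∀ᶠ y in 𝓝 z, 0 < E y * G y - F y ^ 2 := by
      have : ContinuousAt (fun y => E y * G y - F y ^ 2) z :=
        ((hE.continuousAt.mul hG.continuousAt).sub (hF.continuousAt.pow 2))
      exact this.eventually (lt_mem_nhds h0)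
    filter_upwards [e1, e2, e3, e4, e5] with y k1 k2 k3 k4 k5
    exact ⟨k5, k1.differentiableAt (by norm_num), k2.differentiableAt (by norm_num),
      k3.differentiableAt (by norm_num), k4.differentiableAt (by norm_num),
      (contDiffAt_pd (m := 3) k4 (by norm_num) 0).differentiableAt (by norm_num),
      (contDiffAt_pd (m := 3) k4 (by norm_num) 1).differentiableAt (by norm_num),
      pd_comm (k4.of_le (by norm_num)) 1 0⟩
  · exact fun i => (contDiffAt_pd (m := 2) hE (by norm_num) i).differentiableAt (by norm_num)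
  · exact fun i => (contDiffAt_pd (m := 2) hF (by norm_num) i).differentiableAt (by norm_num)
  · exact fun i => (contDiffAt_pd (m := 2) hG (by norm_num) i).differentiableAt (by norm_num)
  · exact pd_comm (hE.of_le (by norm_num)) 1 0
  · exact pd_comm (hF.of_le (by norm_num)) 1 0
  · exact pd_comm (hG.of_le (by norm_num)) 1 0
  · exact (hpp 0 0).differentiableAt (by norm_num)
  · exact (hpp 0 1).differentiableAt (by norm_num)
  · exact (hpp 1 1).differentiableAt (by norm_num)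
  · exact pd_comm ((hp 0).of_le (by norm_num)) 1 0
  · exact pd_comm ((hp 1).of_le (by norm_num)) 1 0

end BO2aux

open BO2aux in
theorem BO2 : Stmt_BO2 := by
  intro g z hg hsym h0 φ hφ
  obtain ⟨E, hE⟩ : ∃ E : E3 → ℝ, E = fun y => g y 0 0 := ⟨_, rfl⟩
  obtain ⟨F, hF⟩ : ∃ F : E3 → ℝ, F = fun y => g y 0 1 := ⟨_, rfl⟩
  obtain ⟨G, hG⟩ : ∃ G : E3 → ℝ, G = fun y => g y 1 1 := ⟨_, rfl⟩
  have cE : ContDiffAt ℝ 3 E z := by rw [hE]; exact (hg 0 0).of_le (WithTop.coe_le_coe.2 le_top)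
  have cF : ContDiffAt ℝ 3 F z := by rw [hF]; exact (hg 0 1).of_le (WithTop.coe_le_coe.2 le_top)
  have cG : ContDiffAt ℝ 3 G z := by rw [hG]; exact (hg 1 1).of_le (WithTop.coe_le_coe.2 le_top)
  have cφ : ContDiffAt ℝ 4 φ z := hφ.of_le (WithTop.coe_le_coe.2 le_top)
  have ed : dt2 g = dt E F G := by
    funext y
    unfold dt2 dt
    rw [hE, hF, hG]
  have e0 : 0 < E z * G z - F z ^ 2 := by
    have : dt2 g z = E z * G z - F z ^ 2 := by rw [ed]; rfl
    rw [← this]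
    exact h0
  have h := Jet2.of_contDiffAt cE cF cG cφ e0
  have j := h.near.self_of_nhds
  have eln : ∀ f k : E3 → ℝ, lin2 g f k = ln E F G f k := by
    intro f k
    funext y
    unfold lin2 ln
    rw [ed, hE, hF, hG]
  have eff : lin2 g φ φ = ff E F G φ := by
    rw [eln]
    rfl
  have elap : ∀ (f : E3 → ℝ) (y : E3), Jet E F G φ y →
      DifferentiableAt ℝ (fun x => G x * pd 0 f x - F x * pd 1 f x) y →
      DifferentiableAt ℝ (fun x => E x * pd 1 f x - F x * pd 0 f x) y →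
      lap2 g f y = dv (dt E F G) (fun x => G x * pd 0 f x - F x * pd 1 f x)
        (fun x => E x * pd 1 f x - F x * pd 0 f x) y := by
    intro f y hy h1 h2
    rw [← dv_eq hy.dt_pos (hy.hdt 0).diff h1 h2]
    unfold lap2
    rw [ed, hE, hF, hG]
  have nT : lap2 g φ =ᶠ[𝓝 z] tt E F G φ := by
    filter_upwards [h.near] with y hy
    rw [elap φ y hy (hy.hP 0).diff (hy.hQ 0).diff, hy.lap_eq]
  obtain ⟨d00, d01, d11, dT⟩ := h.diffs
  have du0 := (j.u_eq 0).1.diff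
  have du1 := (j.u_eq 0).2.diff
  have p0 : pd 0 (ff E F G φ) =ᶠ[𝓝 z] fun y =>
      2 * (u0 E F G φ y * h00 E F G φ y + u1 E F G φ y * h01 E F G φ y) := by
    filter_upwards [h.near] with y hy
    exact hy.ff_eq.1.val
  have p1 : pd 1 (ff E F G φ) =ᶠ[𝓝 z] fun y =>
      2 * (u0 E F G φ y * h01 E F G φ y + u1 E F G φ y * h11 E F G φ y) := by
    filter_upwards [h.near] with y hy
    exact hy.ff_eq.2.val
  have dp0 : DifferentiableAt ℝ (pd 0 (ff E F G φ)) z := by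
    have : DifferentiableAt ℝ (fun y =>
      2 * (u0 E F G φ y * h00 E F G φ y + u1 E F G φ y * h01 E F G φ y)) z :=
      ((du0.mul d00).add (du1.mul d01)).const_mul 2
    exact this.congr_of_eventuallyEq p0
  have dp1 : DifferentiableAt ℝ (pd 1 (ff E F G φ)) z := by
    have : DifferentiableAt ℝ (fun y =>
      2 * (u0 E F G φ y * h01 E F G φ y + u1 E F G φ y * h11 E F G φ y)) z :=
      ((du0.mul d01).add (du1.mul d11)).const_mul 2
    exact this.congr_of_eventuallyEq p1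
  have eK : K2 g z = kk E F G z := by
    have s0 : ∀ i, pd i (fun y => g y 1 0) z = pd i (fun y => g y 0 1) z :=
      fun i => pd_congr hsym
    unfold K2 kk gl
    rw [s0, s0, ed, hE, hF, hG]
    ring
  rw [eK, eff, elap (ff E F G φ) z j ((j.dG.mul dp0).sub (j.dF.mul dp1))
    ((j.dE.mul dp1).sub (j.dF.mul dp0)), nT.eq_of_nhds, eln, eln, eln, h.core]
  have e7 : ln E F G φ (lap2 g φ) z = ln E F G φ (tt E F G φ) z := by
    unfold ln
    rw [pd_congr nT, pd_congr nT]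
  rw [e7]

end Pool.Agent.PFlow.GB
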