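import Pool.Agent.PFlow.G.Base
import Pool.Agent.PenroseSph.Calc

/-!
# Block GB: (BOCH), the Bochner formula on the leaves

The formula is written in local coordinates adapted to the leaves, where it is (BO2).
-/

open MeasureTheory Filter Topology
open scoped ContDiff

namespace Pool.Agent.PFlow.GB

open Pool.Agent.PenroseSph Pool.Agent.PFlow

namespace BOCHaux

open Pool.Agent.PenroseConvex (pullback ChangeAt)

/-! ### Congruence -/

lemma grad_congr {f f' : E3 → ℝ} {x : E3} (h : f =ᶠ[𝓝 x] f') : grad f x = grad f' x := by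
  funext i
  exact pd_congr h

lemma hess2_congr {f f' : E3 → ℝ} {x : E3} (h : f =ᶠ[𝓝 x] f') : hess2 f x = hess2 f' x := by
  ext i j
  simp only [hess2, Matrix.of_apply]
  refine pd_congr ?_
  filter_upwards [h.eventuallyEq_nhds] with y hy
  exact pd_congr hy

lemma lin_congr {g : TensorField} {W W' f f' h h' : E3 → ℝ} {x : E3} (hW : W =ᶠ[𝓝 x] W')
    (hf : f =ᶠ[𝓝 x] f') (hh : h =ᶠ[𝓝 x] h') : lin g W f h x = lin g W' f' h' x := by
  unfold lin
  rw [grad_congr hW, grad_congr hf, grad_congr hh]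

lemma lap_congr {g : TensorField} {W W' f f' : E3 → ℝ} {x : E3} (hW : W =ᶠ[𝓝 x] W')
    (hf : f =ᶠ[𝓝 x] f') : lap g W f x = lap g W' f' x := by
  have hd : ∀ᶠ y in 𝓝 x, dens g W y = dens g W' y := by
    filter_upwards [hW.eventuallyEq_nhds] with y hy
    unfold dens
    rw [grad_congr hy]
  have hl : ∀ᶠ y in 𝓝 x, lgrad g W f y = lgrad g W' f' y := by
    filter_upwards [hW.eventuallyEq_nhds, hf.eventuallyEq_nhds] with y hy hy'
    unfold lgrad
    rw [grad_congr hy, grad_congr hy']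
  unfold lap ldiv
  rw [hd.self_of_nhds]
  congr 1
  refine Finset.sum_congr rfl fun i _ => ?_
  refine pd_congr ?_
  filter_upwards [hd, hl] with y h1 h2
  rw [h1, h2]

lemma curv_congr {g : TensorField} {W W' : E3 → ℝ} {x : E3} (hW : W =ᶠ[𝓝 x] W') :
    curv g W x = curv g W' x := by
  unfold curv
  rw [grad_congr hW, hess2_congr hW]

lemma lin2_congr {g : TensorField} {f f' h h' : E3 → ℝ} {x : E3}
    (hf : f =ᶠ[𝓝 x] f') (hh : h =ᶠ[𝓝 x] h') : lin2 g f h x = lin2 g f' h' x := by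
  unfold lin2
  rw [pd_congr (i := 0) hf, pd_congr (i := 1) hf, pd_congr (i := 0) hh, pd_congr (i := 1) hh]

lemma lap2_congr {g : TensorField} {f f' : E3 → ℝ} {x : E3}
    (hf : f =ᶠ[𝓝 x] f') : lap2 g f x = lap2 g f' x := by
  have h0 : ∀ i, ∀ᶠ y in 𝓝 x, pd i f y = pd i f' y := by
    intro i
    filter_upwards [hf.eventuallyEq_nhds] with y hy
    exact pd_congr hy
  unfold lap2
  congr 1
  congr 1
  · refine pd_congr ?_
    filter_upwards [h0 0, h0 1] with y h1 h2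
    rw [h1, h2]
  · refine pd_congr ?_
    filter_upwards [h0 0, h0 1] with y h1 h2
    rw [h1, h2]

/-! ### The pull-back metric -/

lemma pullback_apply (Φ : E3 → E3) (G : TensorField) (y : E3) (i j : Fin 3) :
    pullback Φ G y i j = ∑ a, ∑ b, Pool.Agent.PenroseConvex.jac Φ y a i * G (Φ y) a b
      * Pool.Agent.PenroseConvex.jac Φ y b j := by
  rw [pullback, Matrix.mul_apply, Finset.sum_comm]
  refine Finset.sum_congr rfl fun b _ => ?_
  rw [Matrix.mul_apply, Finset.sum_mul]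
  rfl

lemma coord_contDiffAt {Φ : E3 → E3} {x : E3} (h : ContDiffAt ℝ ∞ Φ x) (a : Fin 3) :
    ContDiffAt ℝ ∞ (fun y => Φ y a) x :=
  (EuclideanSpace.proj a : E3 →L[ℝ] ℝ).contDiff.contDiffAt.comp x h

lemma pd_contDiffAt {f : E3 → ℝ} {x : E3} (h : ContDiffAt ℝ ∞ f x) (i : Fin 3) :
    ContDiffAt ℝ ∞ (pd i f) x := by
  have h1 : ContDiffAt ℝ ∞ (fderiv ℝ f) x := h.fderiv_right (m := ∞) (by simp)
  exact h1.clm_apply contDiffAt_const

lemma jac_contDiffAt {Φ : E3 → E3} {x : E3} (h : ContDiffAt ℝ ∞ Φ x) (a i : Fin 3) :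
    ContDiffAt ℝ ∞ (fun y => Pool.Agent.PenroseConvex.jac Φ y a i) x := by
  simp only [Pool.Agent.PenroseConvex.jac, Matrix.of_apply]
  exact pd_contDiffAt (coord_contDiffAt h a) i

lemma pullback_contDiffAt {Φ : E3 → E3} {G : TensorField} {x : E3} (h : ContDiffAt ℝ ∞ Φ x)
    (hG : ∀ i j, ContDiffAt ℝ ∞ (fun y => G y i j) (Φ x)) (i j : Fin 3) :
    ContDiffAt ℝ ∞ (fun y => pullback Φ G y i j) x := by
  simp only [pullback_apply]
  refine ContDiffAt.sum fun a _ => ContDiffAt.sum fun b _ => ?_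
  refine ((jac_contDiffAt h a i).mul ?_).mul (jac_contDiffAt h b j)
  exact ContDiffAt.comp x (hG a b) h

/-- The components of the derivative are the partial derivatives of the components. -/
lemma fderiv_coord {Φ : E3 → E3} {x : E3} (h : DifferentiableAt ℝ Φ x) (v : E3) (c : Fin 3) :
    (fderiv ℝ Φ x v) c = fderiv ℝ (fun y => Φ y c) x v := by
  have h1 : HasFDerivAt (fun y => Φ y c)
      ((EuclideanSpace.proj c : E3 →L[ℝ] ℝ).comp (fderiv ℝ Φ x)) x :=
    (EuclideanSpace.proj c : E3 →L[ℝ] ℝ).hasFDerivAt.comp x h.hasFDerivAt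
  rw [h1.fderiv]
  rfl

lemma det_jac {Φ : E3 → E3} {x : E3} (h : DifferentiableAt ℝ Φ x) :
    (Pool.Agent.PenroseConvex.jac Φ x).det = (fderiv ℝ Φ x).det := by
  have h1 : Pool.Agent.PenroseConvex.jac Φ x = LinearMap.toMatrix
      (EuclideanSpace.basisFun (Fin 3) ℝ).toBasis (EuclideanSpace.basisFun (Fin 3) ℝ).toBasis
      (fderiv ℝ Φ x : E3 →ₗ[ℝ] E3) := by
    ext a i
    rw [LinearMap.toMatrix_apply]
    simp only [Pool.Agent.PenroseConvex.jac, Matrix.of_apply, OrthonormalBasis.coe_toBasis,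
      EuclideanSpace.basisFun_apply, OrthonormalBasis.coe_toBasis_repr_apply,
      EuclideanSpace.basisFun_repr, ContinuousLinearMap.coe_coe]
    rw [fderiv_coord h]
    rfl
  rw [h1, LinearMap.det_toMatrix]

/-- The pull-back of a smooth metric is a change of coordinates. -/
lemma changeAt_of {Φ : E3 → E3} {G : TensorField} {O N : Set E3} (hO : IsOpen O) (hN : IsOpen N)
    (hM : MetricOn O G) (hΦ : ContDiffOn ℝ ∞ Φ N) (hmaps : Set.MapsTo Φ N O)
    (hdet : ∀ z ∈ N, (fderiv ℝ Φ z).det ≠ 0) {y : E3} (hy : y ∈ N) :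
    ChangeAt Φ G (pullback Φ G) y := by
  have hs : ContDiffAt ℝ ∞ Φ y := (hΦ y hy).contDiffAt (hN.mem_nhds hy)
  refine ⟨hs, ?_, ?_, ?_, ?_, Filter.Eventually.of_forall fun _ => rfl⟩
  · intro i j
    exact (hM.smooth i j _ (hmaps hy)).contDiffAt (hO.mem_nhds (hmaps hy))
  · filter_upwards [hO.mem_nhds (hmaps hy)] with z hz
    have h := (hM.posDef z hz).isHermitian
    rw [Matrix.IsHermitian, Matrix.conjTranspose_eq_transpose_of_trivial] at h
    exact h
  · exact (hM.posDef _ (hmaps hy)).det_pos.ne'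
  · rw [det_jac (hs.differentiableAt (by simp))]
    exact hdet y hy

lemma pullback_posDef {Φ : E3 → E3} {G : TensorField} {y : E3}
    (hG : (G (Φ y)).PosDef) (hdet : (Pool.Agent.PenroseConvex.jac Φ y).det ≠ 0) :
    (pullback Φ G y).PosDef := by
  have h := hG.conjTranspose_mul_mul_same (B := Pool.Agent.PenroseConvex.jac Φ y)
    (Matrix.mulVec_injective_of_isUnit
      ((Matrix.isUnit_iff_isUnit_det _).2 (isUnit_iff_ne_zero.2 hdet)))
  rw [Matrix.conjTranspose_eq_transpose_of_trivial] at h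
  exact h

lemma reg_pullback {Φ : E3 → E3} {G : TensorField} {O N : Set E3} (hO : IsOpen O) (hN : IsOpen N)
    (hM : MetricOn O G) (hΦ : ContDiffOn ℝ ∞ Φ N) (hmaps : Set.MapsTo Φ N O)
    (hdet : ∀ z ∈ N, (fderiv ℝ Φ z).det ≠ 0) {y : E3} (hy : y ∈ N) :
    Reg (pullback Φ G) (fun z => z 2) y := by
  refine ⟨N, hN, hy, ⟨?_, ?_⟩, ?_, ?_⟩
  · intro i j z hz
    have hc := changeAt_of hO hN hM hΦ hmaps hdet hz
    exact (pullback_contDiffAt hc.smooth hc.smooth_G i j).contDiffWithinAt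
  · intro z hz
    have hc := changeAt_of hO hN hM hΦ hmaps hdet hz
    exact pullback_posDef (hM.posDef _ (hmaps hz)) hc.det_jac
  · exact ((EuclideanSpace.proj 2 : E3 →L[ℝ] ℝ).contDiff).contDiffOn
  · intro z _ h0
    have h1 := congrFun h0 2
    simp [grad, pd_coord] at h1

lemma two_le_inf : (2 : WithTop ℕ∞) ≤ ∞ := WithTop.coe_le_coe.2 le_top

end BOCHaux

open BOCHaux Pool.Agent.PenroseConvex in
/-- **(BOCH)** -/
theorem BOCH (hSMO : Stmt_SMO) (hCOVG : Stmt_COVG) (hADAP : Stmt_ADAP) (hBO2 : Stmt_BO2)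
    (hCHL : Stmt_CHL) : Stmt_BOCH := by
  intro g W x hR φ hφ
  have hsm := (hSMO.2 g W x hR).2.2.2.2.2.2.2.2.2.2.2.2.1
  have hf := (hsm φ φ hφ hφ).1
  have hl := (hsm φ φ hφ hφ).2.1
  obtain ⟨O, hO, hxO, hM, hW, hgr⟩ := hR
  obtain ⟨Φ, z0, N, hN, hz0, hΦz, -, hΦ, -, hmaps, hdet, hWΦ⟩ :=
    hCHL O W x hO hW hxO (hgr x hxO)
  have hch : ∀ y ∈ N, ChangeAt Φ g (pullback Φ g) y := fun y hy =>
    changeAt_of hO hN hM hΦ hmaps hdet hy
  have hReg : ∀ y ∈ N, Reg g W (Φ y) := fun y hy => ⟨O, hO, hmaps hy, hM, hW, hgr⟩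
  have hReg2 : ∀ y ∈ N, Reg (pullback Φ g) (fun z => z 2) y := fun y hy =>
    reg_pullback hO hN hM hΦ hmaps hdet hy
  have hWe : ∀ y ∈ N, (fun z => W (Φ z)) =ᶠ[𝓝 y] fun z => z 2 := fun y hy => by
    filter_upwards [hN.mem_nhds hy] with z hz
    exact hWΦ z hz
  have hΦc : ∀ y ∈ N, ContDiffAt ℝ ∞ Φ y := fun y hy => (hch y hy).smooth
  have hlin : ∀ y ∈ N, ∀ f h : E3 → ℝ, DifferentiableAt ℝ f (Φ y) → DifferentiableAt ℝ h (Φ y) →
      lin g W f h (Φ y)
        = lin2 (pullback Φ g) (fun z => f (Φ z)) (fun z => h (Φ z)) y := by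
    intro y hy f h hfd hhd
    rw [← (hCOVG Φ g (pullback Φ g) y W (hch y hy) (hReg y hy)).1 f h hfd hhd,
      lin_congr (hWe y hy) (EventuallyEq.refl _ _) (EventuallyEq.refl _ _)]
    have hΦd : DifferentiableAt ℝ Φ y := (hΦc y hy).differentiableAt (by simp)
    exact (hADAP _ y (hReg2 y hy)).2.1 _ _ (hfd.comp y hΦd) (hhd.comp y hΦd)
  have hlap : ∀ y ∈ N, ∀ f : E3 → ℝ, ContDiffAt ℝ 2 f (Φ y) →
      lap g W f (Φ y) = lap2 (pullback Φ g) (fun z => f (Φ z)) y := by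
    intro y hy f hfd
    rw [← (hCOVG Φ g (pullback Φ g) y W (hch y hy) (hReg y hy)).2.1 f hfd,
      lap_congr (hWe y hy) (EventuallyEq.refl _ _)]
    have hΦd : ContDiffAt ℝ 2 Φ y := (hΦc y hy).of_le two_le_inf
    exact (hADAP _ y (hReg2 y hy)).2.2.1 _ (ContDiffAt.comp y hfd hΦd)
  have hcurv : curv g W (Φ z0) = K2 (pullback Φ g) z0 := by
    rw [← (hCOVG Φ g (pullback Φ g) z0 W (hch z0 hz0) (hReg z0 hz0)).2.2,
      curv_congr (hWe z0 hz0)]
    exact (hADAP _ z0 (hReg2 z0 hz0)).2.2.2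
  have hcont : Tendsto Φ (𝓝 z0) (𝓝 (Φ z0)) := (hΦc z0 hz0).continuousAt
  have hφ' : ContDiffAt ℝ ∞ φ (Φ z0) := by rw [hΦz]; exact hφ
  have hf' : ContDiffAt ℝ ∞ (lin g W φ φ) (Φ z0) := by rw [hΦz]; exact hf
  have hl' : ContDiffAt ℝ ∞ (lap g W φ) (Φ z0) := by rw [hΦz]; exact hl
  have le2 := two_le_inf
  have hφ2 : ∀ᶠ y in 𝓝 z0, ContDiffAt ℝ 2 φ (Φ y) :=
    hcont.eventually ((hφ'.of_le le2).eventually (by simp))
  have hNz : ∀ᶠ y in 𝓝 z0, y ∈ N := hN.mem_nhds hz0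
  have he1 : (fun z => lin g W φ φ (Φ z)) =ᶠ[𝓝 z0]
      lin2 (pullback Φ g) (fun z => φ (Φ z)) (fun z => φ (Φ z)) := by
    filter_upwards [hφ2, hNz] with y h1 h2
    exact hlin y h2 φ φ (h1.differentiableAt (by norm_num)) (h1.differentiableAt (by norm_num))
  have he2 : (fun z => lap g W φ (Φ z)) =ᶠ[𝓝 z0] lap2 (pullback Φ g) (fun z => φ (Φ z)) := by
    filter_upwards [hφ2, hNz] with y h1 h2
    exact hlap y h2 φ h1
  have hφd : DifferentiableAt ℝ φ (Φ z0) := hφ'.differentiableAt (by simp)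
  have hfd : DifferentiableAt ℝ (lin g W φ φ) (Φ z0) := hf'.differentiableAt (by simp)
  have hld : DifferentiableAt ℝ (lap g W φ) (Φ z0) := hl'.differentiableAt (by simp)
  have e1 := hlin z0 hz0 φ φ hφd hφd
  have e2 := hlap z0 hz0 φ (hφ'.of_le le2)
  have e3 := hlap z0 hz0 (lin g W φ φ) (hf'.of_le le2)
  have e4 := hlin z0 hz0 φ (lap g W φ) hφd hld
  have e5 := hlin z0 hz0 (lin g W φ φ) (lin g W φ φ) hfd hfd
  have e6 := hlin z0 hz0 (lin g W φ φ) φ hfd hφd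
  rw [lap2_congr he1] at e3
  rw [lin2_congr (EventuallyEq.refl _ _) he2] at e4
  rw [lin2_congr he1 he1] at e5
  rw [lin2_congr he1 (EventuallyEq.refl _ _)] at e6
  have key := hBO2 (pullback Φ g) z0
    (fun i j => pullback_contDiffAt (hΦc z0 hz0) (hch z0 hz0).smooth_G i j) (by
      filter_upwards [hNz] with y hy
      have h := (hch y hy).symm_G.self_of_nhds
      rw [pullback_apply, pullback_apply, Finset.sum_comm]
      refine Finset.sum_congr rfl fun a _ => Finset.sum_congr rfl fun b _ => ?_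
      rw [show g (Φ y) b a = g (Φ y) a b from h.apply a b]
      ring)
    (hADAP _ z0 (hReg2 z0 hz0)).1 (fun z => φ (Φ z)) (ContDiffAt.comp z0 hφ' (hΦc z0 hz0))
  rw [← hcurv, ← e1, ← e2, ← e3, ← e4, ← e5, ← e6, hΦz] at key
  exact key

end Pool.Agent.PFlow.GB
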