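import Pool.Agent.PFlow.G.Base

/-!
# Block GB: existence of charts (CHART) from the inverse function theorem (CHL)
-/

open MeasureTheory Filter Topology
open scoped ContDiff

namespace Pool.Agent.PFlow.GB

open Pool.Agent.PenroseSph Pool.Agent.PFlow

lemma dist_lt_of_mem_box {z0 z : E3} {r : ℝ} (hr : 0 < r) (hz : z ∈ box z0 r r) :
    dist z z0 < 2 * r := by
  obtain ⟨h0, h1, h2⟩ := hz
  rw [EuclideanSpace.dist_eq, Fin.sum_univ_three, Real.dist_eq, Real.dist_eq, Real.dist_eq]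
  have e0 : |z 0 - z0 0| ^ 2 ≤ r ^ 2 := pow_le_pow_left₀ (abs_nonneg _) h0 2
  have e1 : |z 1 - z0 1| ^ 2 ≤ r ^ 2 := pow_le_pow_left₀ (abs_nonneg _) h1 2
  have e2 : |z 2 - z0 2| ^ 2 ≤ r ^ 2 := pow_le_pow_left₀ (abs_nonneg _) h2 2
  rw [Real.sqrt_lt' (by positivity)]
  nlinarith

lemma exists_box_subset {N : Set E3} (hN : IsOpen N) {z0 : E3} (hz : z0 ∈ N) :
    ∃ r : ℝ, 0 < r ∧ box z0 r r ⊆ N := by
  obtain ⟨δ, hδ, hb⟩ := Metric.isOpen_iff.mp hN z0 hz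
  refine ⟨δ / 2, by positivity, fun z hzb => hb ?_⟩
  rw [Metric.mem_ball]
  have := dist_lt_of_mem_box (by positivity : 0 < δ / 2) hzb
  linarith

theorem CHART (hCHL : Stmt_CHL) : Stmt_CHART := by
  intro V a b g W hF p0 hp0 O hO
  obtain ⟨O', hO'O, hO'o, hp0O'⟩ := mem_nhds_iff.mp hO
  obtain ⟨Φ, z0, N, hNo, hz0, hΦz0, hz2, hΦs, hinj, hmaps, hdet, hW⟩ := hCHL (V ∩ O') W p0
    (hF.isOpen.inter hO'o) (hF.smooth.mono Set.inter_subset_left) ⟨hp0, hp0O'⟩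
    (hF.regular p0 hp0)
  obtain ⟨r, hr, hbN⟩ := exists_box_subset hNo hz0
  refine ⟨Φ, z0, r, r, ⟨hr, hr, N, hNo, hbN, hΦs, hinj, fun z hz => (hmaps hz).1, hdet, hW⟩,
    hΦz0, hz2, ?_⟩
  rintro _ ⟨z, hz, rfl⟩
  exact hO'O (hmaps (hbN hz)).2

end Pool.Agent.PFlow.GB
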