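import Pool.Agent.PFlow.StmtsG

/-!
# Local adapted coordinates by the inverse function theorem (module CHL)
-/

open MeasureTheory Filter Topology
open scoped ContDiff

namespace Pool.Agent.PFlow.GB

open Pool.Agent.PenroseSph

namespace CHL

/-- the map `x ↦ (x_i, x_j, W x)` -/
noncomputable def FF (W : E3 → ℝ) (k : Fin 3) (x : E3) : E3 :=
  WithLp.toLp 2 fun i => if i = 2 then W x else x (Equiv.swap k 2 i)

lemma FF_two (W : E3 → ℝ) (k : Fin 3) (x : E3) : FF W k x 2 = W x := by
  simp [FF]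

lemma FF_ne (W : E3 → ℝ) (k : Fin 3) (x : E3) {i : Fin 3} (hi : i ≠ 2) :
    FF W k x i = x (Equiv.swap k 2 i) := by
  simp [FF, hi]

lemma FF_smooth {W : E3 → ℝ} {k : Fin 3} {x : E3} (hW : ContDiffAt ℝ ∞ W x) :
    ContDiffAt ℝ ∞ (FF W k) x := by
  rw [contDiffAt_euclidean]
  intro i
  by_cases hi : i = 2
  · subst hi
    have : (fun y => FF W k y 2) = W := by funext y; exact FF_two W k y
    rw [this]
    exact hW
  · have : (fun y => FF W k y i) = fun y => y (Equiv.swap k 2 i) := by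
      funext y; exact FF_ne W k y hi
    rw [this]
    exact (EuclideanSpace.proj (𝕜 := ℝ) (Equiv.swap k 2 i)).contDiff.contDiffAt

/-- the derivative is injective where `∂_k W ≠ 0` -/
lemma FF_inj {W : E3 → ℝ} {k : Fin 3} {x : E3} (hW : ContDiffAt ℝ ∞ W x) (hk : pd k W x ≠ 0) :
    Function.Injective (fderiv ℝ (FF W k) x) := by
  have hd : DifferentiableAt ℝ (FF W k) x := (FF_smooth hW).differentiableAt (by simp)
  have hc : ∀ (i : Fin 3) (v : E3), fderiv ℝ (FF W k) x v i =
      fderiv ℝ (fun y => FF W k y i) x v := by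
    intro i v
    have h1 : HasFDerivAt (fun y => FF W k y i)
        ((EuclideanSpace.proj (𝕜 := ℝ) i).comp (fderiv ℝ (FF W k) x)) x :=
      (EuclideanSpace.proj (𝕜 := ℝ) i).hasFDerivAt.comp x hd.hasFDerivAt
    rw [h1.fderiv]
    rfl
  rw [injective_iff_map_eq_zero]
  intro v hv
  have h2 : fderiv ℝ W x v = 0 := by
    have h3 := hc 2 v
    have h4 : (fun y => FF W k y 2) = W := by funext y; exact FF_two W k y
    rw [h4, hv] at h3
    exact h3.symm
  have h5 : ∀ j, j ≠ k → v j = 0 := by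
    intro j hj
    set i := (Equiv.swap k 2) j with hi
    have hi2 : i ≠ 2 := by
      intro h6
      apply hj
      have : (Equiv.swap k 2) j = (Equiv.swap k 2) k := by
        rw [Equiv.swap_apply_left, ← hi]
        exact h6
      exact (Equiv.swap k 2).injective this
    have h7 := hc i v
    have h8 : (fun y => FF W k y i) = fun y => y j := by
      funext y
      rw [FF_ne W k y hi2, hi, Equiv.swap_apply_self]
    rw [h8, hv] at h7
    have h9 : fderiv ℝ (fun y : E3 => y j) x v = v j := by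
      have : HasFDerivAt (fun y : E3 => y j) (EuclideanSpace.proj (𝕜 := ℝ) j) x :=
        (EuclideanSpace.proj (𝕜 := ℝ) j).hasFDerivAt
      rw [this.fderiv]
      rfl
    rw [h9] at h7
    exact h7.symm
  have h10 : v = v k • EuclideanSpace.single k (1 : ℝ) := by
    ext j
    by_cases hj : j = k
    · subst hj; simp
    · rw [h5 j hj]; simp [hj]
  have h11 : v k * pd k W x = 0 := by
    have : fderiv ℝ W x v = v k * pd k W x := by
      conv_lhs => rw [h10]
      rw [map_smul]
      rfl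
    rw [← this, h2]
  have h12 : v k = 0 := (mul_eq_zero.mp h11).resolve_right hk
  rw [h10, h12, zero_smul]

/-- the derivative as an equivalence -/
lemma FF_equiv {W : E3 → ℝ} {k : Fin 3} {x : E3} (hW : ContDiffAt ℝ ∞ W x) (hk : pd k W x ≠ 0) :
    ∃ A : E3 ≃L[ℝ] E3, HasFDerivAt (FF W k) (A : E3 →L[ℝ] E3) x := by
  have hd : DifferentiableAt ℝ (FF W k) x := (FF_smooth hW).differentiableAt (by simp)
  let L : E3 ≃ₗ[ℝ] E3 := LinearEquiv.ofInjectiveEndo
    (fderiv ℝ (FF W k) x : E3 →ₗ[ℝ] E3) (FF_inj hW hk)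
  refine ⟨L.toContinuousLinearEquiv, ?_⟩
  have : (L.toContinuousLinearEquiv : E3 →L[ℝ] E3) = fderiv ℝ (FF W k) x := by
    ext v i
    rfl
  rw [this]
  exact hd.hasFDerivAt

end CHL

/-- (CHL) Existence of local adapted coordinates. -/
theorem CHL : Stmt_CHL := by
  intro O W p0 hO hW hp0 hg
  obtain ⟨k, hk⟩ : ∃ k, pd k W p0 ≠ 0 := by
    by_contra hcon
    push Not at hcon
    exact hg (funext hcon)
  have hWat : ∀ x ∈ O, ContDiffAt ℝ ∞ W x := fun x hx => hW.contDiffAt (hO.mem_nhds hx)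
  obtain ⟨A0, hA0⟩ := CHL.FF_equiv (hWat p0 hp0) hk
  have hF0 := CHL.FF_smooth (k := k) (hWat p0 hp0)
  set e := hF0.toOpenPartialHomeomorph (CHL.FF W k) hA0 (by simp) with he
  have hcoe : ∀ x, e x = CHL.FF W k x := fun x => by
    rw [he, hF0.toOpenPartialHomeomorph_coe hA0 (by simp)]
  have hsrc : p0 ∈ e.source := hF0.mem_toOpenPartialHomeomorph_source hA0 (by simp)
  -- the open set where the derivative is invertible
  set O' : Set E3 := O ∩ {x | pd k W x ≠ 0} with hO'
  have hpdc : ContinuousOn (fun x => pd k W x) O := by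
    have h1 : ContinuousOn (fderiv ℝ W) O := hW.continuousOn_fderiv_of_isOpen hO (by simp)
    exact h1.clm_apply continuousOn_const
  have hO'o : IsOpen O' := by
    have : O' = O ∩ (fun x => pd k W x) ⁻¹' {0}ᶜ := by
      ext x; simp [hO']
    rw [this]
    exact hpdc.isOpen_inter_preimage hO isOpen_compl_singleton
  set N : Set E3 := e.target ∩ e.symm ⁻¹' O' with hN
  have hNo : IsOpen N := e.continuousOn_symm.isOpen_inter_preimage e.open_target hO'o
  have hz0 : e.symm (e p0) = p0 := e.left_inv hsrc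
  have hinv : ∀ z ∈ N, CHL.FF W k (e.symm z) = z := fun z hz => by
    rw [← hcoe]
    exact e.right_inv hz.1
  have hder : ∀ z ∈ N, ∃ A : E3 ≃L[ℝ] E3,
      HasFDerivAt e (A : E3 →L[ℝ] E3) (e.symm z) := by
    intro z hz
    obtain ⟨A, hA⟩ := CHL.FF_equiv (hWat _ hz.2.1) hz.2.2
    refine ⟨A, ?_⟩
    have : (e : E3 → E3) = CHL.FF W k := funext hcoe
    rw [this]
    exact hA
  refine ⟨e.symm, e p0, N, hNo, ⟨e.map_source hsrc, ?_⟩, hz0, ?_, ?_, ?_, ?_, ?_, ?_⟩
  · rw [Set.mem_preimage, hz0]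
    exact ⟨hp0, hk⟩
  · rw [hcoe, CHL.FF_two]
  · intro z hz
    obtain ⟨A, hA⟩ := hder z hz
    have h1 : ContDiffAt ℝ ∞ e (e.symm z) := by
      have : (e : E3 → E3) = CHL.FF W k := funext hcoe
      rw [this]
      exact CHL.FF_smooth (hWat _ hz.2.1)
    exact (e.contDiffAt_symm hz.1 hA h1).contDiffWithinAt
  · exact e.symm.injOn.mono fun z hz => hz.1
  · exact fun z hz => hz.2.1
  · intro z hz
    obtain ⟨A, hA⟩ := hder z hz
    have h1 := e.hasFDerivAt_symm hz.1 hA
    rw [h1.fderiv]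
    exact (LinearEquiv.isUnit_det' A.symm.toLinearEquiv).ne_zero
  · intro z hz
    rw [← CHL.FF_two W k, hinv z hz]

end Pool.Agent.PFlow.GB
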