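import Pool.Agent.PFlow.G.Base

/-!
# CHX: elementary properties of charts
-/

open MeasureTheory Filter Topology
open scoped ContDiff

namespace Pool.Agent.PFlow.GB

open Pool.Agent.PenroseSph Pool.Agent.PFlow

namespace CHX

variable {V : Set E3} {W : E3 → ℝ} {Φ : E3 → E3} {z0 : E3} {r e : ℝ}

lemma continuous_coord (i : Fin 3) : Continuous fun z : E3 => z i := by fun_prop

lemma isClosed_box (z0 : E3) (r e : ℝ) : IsClosed (box z0 r e) := by
  have h : ∀ (i : Fin 3) (c : ℝ), IsClosed {z : E3 | |z i - z0 i| ≤ c} := by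
    intro i c
    exact isClosed_le (by fun_prop) continuous_const
  have e1 : box z0 r e = {z : E3 | |z 0 - z0 0| ≤ r} ∩ ({z : E3 | |z 1 - z0 1| ≤ r} ∩
      {z : E3 | |z 2 - z0 2| ≤ e}) := rfl
  rw [e1]
  exact (h 0 r).inter ((h 1 r).inter (h 2 e))

lemma norm_le_box {z : E3} (hz : z ∈ box z0 r e) : ‖z - z0‖ ≤ r + r + e := by
  obtain ⟨h0, h1, h2⟩ := hz
  have hr : 0 ≤ r := (abs_nonneg _).trans h0
  have he : 0 ≤ e := (abs_nonneg _).trans h2
  rw [EuclideanSpace.norm_eq, Fin.sum_univ_three]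
  have e1 : ‖(z - z0) 0‖ ≤ r := h0
  have e2 : ‖(z - z0) 1‖ ≤ r := h1
  have e3 : ‖(z - z0) 2‖ ≤ e := h2
  have n1 := norm_nonneg ((z - z0) 0)
  have n2 := norm_nonneg ((z - z0) 1)
  have n3 := norm_nonneg ((z - z0) 2)
  refine Real.sqrt_le_iff.mpr ⟨by positivity, ?_⟩
  have a1 : ‖(z - z0) 0‖ ^ 2 ≤ r ^ 2 := pow_le_pow_left₀ n1 e1 2
  have a2 : ‖(z - z0) 1‖ ^ 2 ≤ r ^ 2 := pow_le_pow_left₀ n2 e2 2
  have a3 : ‖(z - z0) 2‖ ^ 2 ≤ e ^ 2 := pow_le_pow_left₀ n3 e3 2
  nlinarith [mul_nonneg hr hr, mul_nonneg hr he]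

lemma isCompact_box (z0 : E3) (r e : ℝ) : IsCompact (box z0 r e) := by
  refine Metric.isCompact_of_isClosed_isBounded (isClosed_box z0 r e) ?_
  refine (Metric.isBounded_closedBall (x := z0) (r := r + r + e)).subset ?_
  intro z hz
  rw [Metric.mem_closedBall, dist_eq_norm]
  exact norm_le_box hz

lemma obox_subset (z0 : E3) (r e : ℝ) : obox z0 r e ⊆ box z0 r e :=
  fun _ hz => ⟨hz.1.le, hz.2.1.le, hz.2.2.le⟩

lemma convex_box (z0 : E3) (r e : ℝ) : Convex ℝ (box z0 r e) := by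
  intro x hx y hy a b ha hb hab
  have key : ∀ (i : Fin 3) (c : ℝ), |x i - z0 i| ≤ c → |y i - z0 i| ≤ c →
      |(a • x + b • y) i - z0 i| ≤ c := by
    intro i c h1 h2
    have e1 : (a • x + b • y) i - z0 i = a * (x i - z0 i) + b * (y i - z0 i) := by
      have : (a • x + b • y) i = a * x i + b * y i := rfl
      rw [this]
      have hz : z0 i = (a + b) * z0 i := by rw [hab, one_mul]
      conv_lhs => rw [hz]
      ring
    rw [e1]
    calc |a * (x i - z0 i) + b * (y i - z0 i)| ≤ |a * (x i - z0 i)| + |b * (y i - z0 i)| :=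
          abs_add_le _ _
      _ = a * |x i - z0 i| + b * |y i - z0 i| := by
          rw [abs_mul, abs_mul, abs_of_nonneg ha, abs_of_nonneg hb]
      _ ≤ a * c + b * c := by gcongr
      _ = c := by rw [← add_mul, hab, one_mul]
  exact ⟨key 0 r hx.1 hy.1, key 1 r hx.2.1 hy.2.1, key 2 e hx.2.2 hy.2.2⟩

lemma lin_decomp (L : E3 →L[ℝ] ℝ) (T : E3) :
    L T = ∑ i, T i * L (EuclideanSpace.single i 1) := by
  have h : T = ∑ i, T i • EuclideanSpace.single i (1 : ℝ) := by
    have := (EuclideanSpace.basisFun (Fin 3) ℝ).sum_repr T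
    simpa using this.symm
  conv_lhs => rw [h]
  rw [map_sum]
  refine Finset.sum_congr rfl fun i _ => ?_
  rw [map_smul, smul_eq_mul]

/-- a map with invertible strict derivative is expansive near the point -/
lemma local_lower {f : E3 → E3} {f' : E3 →L[ℝ] E3} {z : E3} (hf : HasStrictFDerivAt f f' z)
    (hd : f'.det ≠ 0) : ∃ c : ℝ, 0 < c ∧ ∀ᶠ q : E3 × E3 in 𝓝 (z, z),
      c * ‖q.1 - q.2‖ ≤ ‖f q.1 - f q.2‖ := by
  set E := f'.toContinuousLinearEquivOfDetNeZero hd with hE
  have hEc : ∀ v, E v = f' v := fun v => rfl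
  set M : ℝ := ‖(E.symm : E3 →L[ℝ] E3)‖ + 1 with hM
  have hM0 : 0 < M := by positivity
  have hinv : ∀ v : E3, ‖v‖ ≤ M * ‖f' v‖ := by
    intro v
    have h1 : E.symm (E v) = v := E.symm_apply_apply v
    calc ‖v‖ = ‖(E.symm : E3 →L[ℝ] E3) (E v)‖ := by rw [ContinuousLinearEquiv.coe_coe, h1]
      _ ≤ ‖(E.symm : E3 →L[ℝ] E3)‖ * ‖E v‖ := ContinuousLinearMap.le_opNorm _ _
      _ ≤ M * ‖f' v‖ := by
          rw [hEc]
          apply mul_le_mul_of_nonneg_right _ (norm_nonneg _)
          rw [hM]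
          linarith
  refine ⟨1 / (2 * M), by positivity, ?_⟩
  have hlo := hf.isLittleO.def (show 0 < 1 / (2 * M) by positivity)
  filter_upwards [hlo] with q hq
  have h1 := hinv (q.1 - q.2)
  have h2 : ‖f' (q.1 - q.2)‖ ≤ ‖f q.1 - f q.2‖ + ‖f q.1 - f q.2 - f' (q.1 - q.2)‖ := by
    have : f' (q.1 - q.2) = (f q.1 - f q.2) - (f q.1 - f q.2 - f' (q.1 - q.2)) := by abel
    conv_lhs => rw [this]
    exact norm_sub_le _ _
  have h3 : 1 / M * ‖q.1 - q.2‖ ≤ ‖f' (q.1 - q.2)‖ := by
    rw [one_div, inv_mul_le_iff₀ hM0]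
    exact h1
  have h4 : 1 / M * ‖q.1 - q.2‖ = 1 / (2 * M) * ‖q.1 - q.2‖ + 1 / (2 * M) * ‖q.1 - q.2‖ := by
    field_simp
    ring
  linarith

/-- an injective immersion is bi-Lipschitz from below on compact sets -/
lemma lower {f : E3 → E3} {N K : Set E3} (hK : IsCompact K) (hKN : K ⊆ N) (hN : IsOpen N)
    (hf : ContDiffOn ℝ ∞ f N) (hi : Set.InjOn f N) (hd : ∀ z ∈ N, (fderiv ℝ f z).det ≠ 0) :
    ∃ c : ℝ, 0 < c ∧ ∀ z ∈ K, ∀ z' ∈ K, c * dist z z' ≤ dist (f z) (f z') := by
  have hcomp : IsCompact (K ×ˢ K) := hK.prod hK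
  have key : ∃ c : ℝ, 0 < c ∧ ∀ q ∈ K ×ˢ K, c * dist q.1 q.2 ≤ dist (f q.1) (f q.2) := by
    refine hcomp.induction_on (p := fun S => ∃ c : ℝ, 0 < c ∧ ∀ q ∈ S,
      c * dist q.1 q.2 ≤ dist (f q.1) (f q.2)) ?_ ?_ ?_ ?_
    · exact ⟨1, one_pos, fun q hq => absurd hq (Set.notMem_empty q)⟩
    · rintro s t hst ⟨c, hc, h⟩
      exact ⟨c, hc, fun q hq => h q (hst hq)⟩
    · rintro s t ⟨c, hc, h⟩ ⟨c', hc', h'⟩
      refine ⟨min c c', lt_min hc hc', ?_⟩
      rintro q (hq | hq)
      · exact (mul_le_mul_of_nonneg_right (min_le_left _ _) dist_nonneg).trans (h q hq)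
      · exact (mul_le_mul_of_nonneg_right (min_le_right _ _) dist_nonneg).trans (h' q hq)
    · rintro ⟨z, z'⟩ ⟨hz, hz'⟩
      have hz1 : z ∈ K := hz
      have hz2 : z' ∈ K := hz'
      by_cases hzz : z = z'
      · subst hzz
        have hs : HasStrictFDerivAt f (fderiv ℝ f z) z :=
          (hf.contDiffAt (hN.mem_nhds (hKN hz1))).hasStrictFDerivAt (by simp)
        obtain ⟨c, hc, h⟩ := local_lower hs (hd z (hKN hz1))
        refine ⟨_, mem_nhdsWithin_of_mem_nhds h, c, hc, ?_⟩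
        intro q hq
        rw [dist_eq_norm, dist_eq_norm]
        exact hq
      · have hne : f z ≠ f z' := fun h => hzz (hi (hKN hz1) (hKN hz2) h)
        have hpos : 0 < dist (f z) (f z') := dist_pos.mpr hne
        have hfc : ∀ w ∈ K, ContinuousAt f w := fun w hw =>
          (hf.contDiffAt (hN.mem_nhds (hKN hw))).continuousAt
        have hc1 : ContinuousAt (fun q : E3 × E3 => dist (f q.1) (f q.2)) (z, z') := by
          have t1 : Tendsto (fun q : E3 × E3 => f q.1) (𝓝 (z, z')) (𝓝 (f z)) :=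
            (hfc z hz1).tendsto.comp (continuousAt_fst (p := (z, z')))
          have t2 : Tendsto (fun q : E3 × E3 => f q.2) (𝓝 (z, z')) (𝓝 (f z')) :=
            (hfc z' hz2).tendsto.comp (continuousAt_snd (p := (z, z')))
          exact t1.dist t2
        have hc2 : ContinuousAt (fun q : E3 × E3 => dist q.1 q.2) (z, z') := by fun_prop
        have h1 : ∀ᶠ q : E3 × E3 in 𝓝 (z, z'), dist (f z) (f z') / 2 < dist (f q.1) (f q.2) :=
          hc1.eventually_const_lt (by simpa using half_lt_self hpos)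
        have h2 : ∀ᶠ q : E3 × E3 in 𝓝 (z, z'), dist q.1 q.2 < dist z z' + 1 :=
          hc2.eventually_lt_const (by simp)
        refine ⟨_, mem_nhdsWithin_of_mem_nhds (h1.and h2),
          dist (f z) (f z') / 2 / (dist z z' + 1), by positivity, ?_⟩
        rintro q ⟨hq1, hq2⟩
        have hD : 0 < dist z z' + 1 := by positivity
        calc dist (f z) (f z') / 2 / (dist z z' + 1) * dist q.1 q.2
            ≤ dist (f z) (f z') / 2 / (dist z z' + 1) * (dist z z' + 1) := by gcongr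
          _ = dist (f z) (f z') / 2 := by field_simp
          _ ≤ dist (f q.1) (f q.2) := hq1.le
  obtain ⟨c, hc, h⟩ := key
  exact ⟨c, hc, fun z hz z' hz' => h (z, z') ⟨hz, hz'⟩⟩

end CHX

open CHX in
/-- CHX: elementary properties of charts. -/
theorem CHX (hALG : Stmt_ALG) (hSMO : Stmt_SMO) : Stmt_CHX := by
  intro V a b g W hF Φ z0 r e hC
  obtain ⟨N, hNo, hbN, hΦ, hinj, hmap, hdet, hW⟩ := hC.nbhd
  have hr := hC.r_pos
  have he := hC.e_pos
  have hcomp := isCompact_box z0 r e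
  have hz0 : z0 ∈ box z0 r e := by
    refine ⟨?_, ?_, ?_⟩ <;> simp [hr.le, he.le]
  have hne : (box z0 r e).Nonempty := ⟨z0, hz0⟩
  have hreg : ∀ z ∈ N, Reg g W (Φ z) := fun z hz => hF.reg (hmap hz)
  have hcont : ContinuousOn Φ N := hΦ.continuousOn
  have hdiff : ∀ z ∈ N, ContDiffAt ℝ ∞ Φ z := fun z hz => hΦ.contDiffAt (hNo.mem_nhds hz)
  have hder : ∀ z ∈ N, HasFDerivAt Φ (fderiv ℝ Φ z) z := fun z hz =>
    ((hdiff z hz).differentiableAt (by simp)).hasFDerivAt
  have hfd : ContinuousOn (fderiv ℝ Φ) N := hΦ.continuousOn_fderiv_of_isOpen hNo (by simp)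
  -- the two end points
  have hpt : ∀ s : ℝ, |s - z0 2| ≤ e → ∃ z ∈ box z0 r e, z 2 = s := by
    intro s hs
    refine ⟨pt (z0 0) (z0 1) s, ?_, rfl⟩
    refine ⟨?_, ?_, ?_⟩
    · show |z0 0 - z0 0| ≤ r
      simp [hr.le]
    · show |z0 1 - z0 1| ≤ r
      simp [hr.le]
    · exact hs
  have hends : a < z0 2 - e ∧ z0 2 + e < b := by
    constructor
    · obtain ⟨z, hz, hz2⟩ := hpt (z0 2 - e) (by
        have : z0 2 - e - z0 2 = -e := by ring
        rw [this, abs_neg, abs_of_pos he])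
      have := (hF.mapsTo _ (hmap (hbN hz))).1
      rwa [hW z (hbN hz), hz2] at this
    · obtain ⟨z, hz, hz2⟩ := hpt (z0 2 + e) (by
        have : z0 2 + e - z0 2 = e := by ring
        rw [this, abs_of_pos he])
      have := (hF.mapsTo _ (hmap (hbN hz))).2
      rwa [hW z (hbN hz), hz2] at this
  have himV : Φ '' box z0 r e ⊆ V := by
    rintro _ ⟨z, hz, rfl⟩
    exact hmap (hbN hz)
  -- images of open sets
  have hopen : ∀ S : Set E3, IsOpen S → S ⊆ obox z0 r e → IsOpen (Φ '' S) := by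
    intro S hS hSb
    rw [isOpen_iff_mem_nhds]
    rintro _ ⟨z, hz, rfl⟩
    have hzN : z ∈ N := hbN (obox_subset z0 r e (hSb hz))
    have hs : HasStrictFDerivAt Φ (fderiv ℝ Φ z) z := (hdiff z hzN).hasStrictFDerivAt (by simp)
    have hs' : HasStrictFDerivAt Φ
        (((fderiv ℝ Φ z).toContinuousLinearEquivOfDetNeZero (hdet z hzN) : E3 ≃L[ℝ] E3) :
          E3 →L[ℝ] E3) z := hs
    rw [← hs'.map_nhds_eq_of_equiv]
    exact image_mem_map (hS.mem_nhds hz)
  -- change of variables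
  have hcv : ∀ (S : Set E3) (F : E3 → ℝ), MeasurableSet S → S ⊆ box z0 r e →
      ∫ x in Φ '' S, F x * dens g W x = ∫ z in S, F (Φ z) * jac g W Φ z := by
    intro S F hS hSb
    rw [integral_image_eq_integral_abs_det_fderiv_smul volume hS
      (fun z hz => (hder z (hbN (hSb hz))).hasFDerivWithinAt) (hinj.mono (hSb.trans hbN))]
    refine integral_congr_ae (Filter.Eventually.of_forall fun z => ?_)
    simp only [jac, smul_eq_mul]
    ring
  have hci : ∀ (S : Set E3) (F : E3 → ℝ), MeasurableSet S → S ⊆ box z0 r e →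
      (IntegrableOn (fun x => F x * dens g W x) (Φ '' S) ↔
        IntegrableOn (fun z => F (Φ z) * jac g W Φ z) S) := by
    intro S F hS hSb
    rw [integrableOn_image_iff_integrableOn_abs_det_fderiv_smul volume hS
      (fun z hz => (hder z (hbN (hSb hz))).hasFDerivWithinAt) (hinj.mono (hSb.trans hbN))]
    have : (fun z => |(fderiv ℝ Φ z).det| • (F (Φ z) * dens g W (Φ z)))
        = fun z => F (Φ z) * jac g W Φ z := by
      funext z
      simp only [jac, smul_eq_mul]
      ring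
    rw [this]
  -- the Jacobian
  have hjc : ContinuousOn (jac g W Φ) N := by
    intro z hz
    have h1 : ContinuousAt (dens g W) (Φ z) := by
      have := (hSMO.2 g W (Φ z) (hreg z hz)).2.2.2.2.2.2.2.2.1
      exact this.continuousAt
    have h2 : ContinuousWithinAt Φ N z := hcont z hz
    have h3 : ContinuousWithinAt (fun z => dens g W (Φ z)) N z := h1.comp_continuousWithinAt h2
    have h4 : ContinuousWithinAt (fun z => (fderiv ℝ Φ z).det) N z :=
      ContinuousLinearMap.continuous_det.continuousAt.comp_continuousWithinAt (hfd z hz)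
    exact h3.mul h4.abs
  have hjb : ContinuousOn (jac g W Φ) (box z0 r e) := hjc.mono hbN
  have hjpos : ∀ z ∈ N, 0 < jac g W Φ z := by
    intro z hz
    exact mul_pos (hSMO.2 g W (Φ z) (hreg z hz)).2.2.2.1 (abs_pos.mpr (hdet z hz))
  obtain ⟨zm, hzm, hmin⟩ := hcomp.exists_isMinOn hne hjb
  obtain ⟨C1, hC1⟩ := hcomp.exists_bound_of_continuousOn hjb
  -- tangent vectors
  have hTan : ∀ k : Fin 3, k ≠ 2 → ∃ C : ℝ, 0 ≤ C ∧ ∀ z ∈ box z0 r e, ∀ v : E3 → ℝ,
      DifferentiableAt ℝ v (Φ z) →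
        |pd k (fun y => v (Φ y)) z| ≤ C * Real.sqrt (lin g W v v (Φ z)) := by
    intro k hk
    have hgc : ContinuousOn (fun z => ev (g (Φ z)) (fun i => fderiv ℝ Φ z (EuclideanSpace.single k 1) i)
        (fun i => fderiv ℝ Φ z (EuclideanSpace.single k 1) i)) (box z0 r e) := by
      unfold ev
      refine continuousOn_finset_sum _ fun i _ => continuousOn_finset_sum _ fun j _ => ?_
      have h1 : ContinuousOn (fun z => g (Φ z) i j) (box z0 r e) := by
        intro z hz
        have h2 : ContinuousAt (fun y => g y i j) (Φ z) :=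
          ((hSMO.2 g W (Φ z) (hreg z (hbN hz))).2.2.2.2.1 i j).continuousAt
        exact h2.comp_continuousWithinAt ((hcont.mono hbN) z hz)
      have h3 : ∀ i : Fin 3, ContinuousOn
          (fun z => fderiv ℝ Φ z (EuclideanSpace.single k 1) i) (box z0 r e) := by
        intro i
        have h4 : ContinuousOn (fun z => fderiv ℝ Φ z (EuclideanSpace.single k 1)) (box z0 r e) :=
          (hfd.mono hbN).clm_apply continuousOn_const
        exact (continuous_coord i).comp_continuousOn h4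
      exact (h1.mul (h3 i)).mul (h3 j)
    obtain ⟨B, hB⟩ := hcomp.exists_bound_of_continuousOn hgc
    refine ⟨Real.sqrt B, Real.sqrt_nonneg _, ?_⟩
    intro z hz v hv
    have hzN := hbN hz
    set x := Φ z with hx
    set T : E3 := fderiv ℝ Φ z (EuclideanSpace.single k 1) with hT
    have hchain : ∀ f : E3 → ℝ, DifferentiableAt ℝ f x →
        pd k (fun y => f (Φ y)) z = ∑ i, grad f x i * T i := by
      intro f hf
      have h1 : HasFDerivAt (fun y => f (Φ y)) ((fderiv ℝ f x).comp (fderiv ℝ Φ z)) z :=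
        hf.hasFDerivAt.comp z (hder z hzN)
      unfold pd
      rw [h1.fderiv, ContinuousLinearMap.comp_apply, lin_decomp]
      refine Finset.sum_congr rfl fun i _ => ?_
      unfold grad pd
      ring
    have hWd : DifferentiableAt ℝ W x :=
      (hF.contDiffAt (hmap hzN)).differentiableAt (by simp)
    have htan : ∑ i, T i * grad W x i = 0 := by
      have h1 := hchain W hWd
      have h2 : pd k (fun y => W (Φ y)) z = 0 := by
        have h3 : (fun y => W (Φ y)) =ᶠ[𝓝 z] fun y => y 2 := by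
          filter_upwards [hNo.mem_nhds hzN] with y hy
          exact hW y hy
        unfold pd
        rw [h3.fderiv_eq]
        have h4 : HasFDerivAt (fun y : E3 => y 2) (EuclideanSpace.proj (𝕜 := ℝ) (2 : Fin 3)) z :=
          (EuclideanSpace.proj (𝕜 := ℝ) (2 : Fin 3) : E3 →L[ℝ] ℝ).hasFDerivAt
        rw [h4.fderiv]
        simp [EuclideanSpace.single_apply, Ne.symm hk]
      rw [h2] at h1
      rw [h1]
      refine Finset.sum_congr rfl fun i _ => ?_
      ring
    have halg := hALG g x (grad W x) (hF.metric.posDef x (hmap hzN)) (hF.regular x (hmap hzN))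
    have hlast := halg.2.2.2.2.2.2.2.2.2.2.2.2.2.2 (grad v x) (fun i => T i) htan
    have hlip0 : 0 ≤ lin g W v v x := halg.2.2.2.2.2.2.2.2.2.2.2.1 (grad v x)
    rw [hchain v hv]
    have hB' : ev (g x) (fun i => T i) (fun i => T i) ≤ B := (le_abs_self _).trans (hB z hz)
    have h5 : (∑ i, grad v x i * T i) ^ 2 ≤ lin g W v v x * B :=
      hlast.trans (mul_le_mul_of_nonneg_left hB' hlip0)
    have h6 := Real.abs_le_sqrt h5
    rw [Real.sqrt_mul hlip0, mul_comm] at h6
    exact h6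
  obtain ⟨C2, hC2, hT0⟩ := hTan 0 (by decide)
  obtain ⟨C3, hC3, hT1⟩ := hTan 1 (by decide)
  -- bi-Lipschitz bounds
  obtain ⟨c1, hc1, hlow⟩ := lower hcomp hbN hNo hΦ hinj hdet
  obtain ⟨C4, hC4⟩ := hcomp.exists_bound_of_continuousOn (hfd.mono hbN)
  have hup : ∀ z ∈ box z0 r e, ∀ z' ∈ box z0 r e, dist (Φ z) (Φ z') ≤ C4 * dist z z' := by
    intro z hz z' hz'
    rw [dist_eq_norm, dist_eq_norm]
    exact Convex.norm_image_sub_le_of_norm_hasFDerivWithin_le
      (fun y hy => (hder y (hbN hy)).hasFDerivWithinAt) hC4 (convex_box z0 r e) hz' hz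
  have hC4' : 0 ≤ C4 := (norm_nonneg _).trans (hC4 z0 hz0)
  have hC1' : 0 ≤ C1 := (norm_nonneg _).trans (hC1 z0 hz0)
  refine ⟨hends.1, hends.2, hcomp.image_of_continuousOn (hcont.mono hbN), himV, hopen, hcv, hci,
    hjb, min (jac g W Φ zm) c1, C1 + C2 + C3 + C4 + 1, lt_min (hjpos zm (hbN hzm)) hc1,
    by positivity, ?_, ?_⟩
  · intro z hz
    refine ⟨(min_le_left _ _).trans (hmin hz), ?_, ?_⟩
    · have := (le_abs_self _).trans (hC1 z hz)
      linarith
    · intro v hv
      have hs := Real.sqrt_nonneg (lin g W v v (Φ z))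
      constructor
      · refine (hT0 z hz v hv).trans (mul_le_mul_of_nonneg_right ?_ hs)
        linarith
      · refine (hT1 z hz v hv).trans (mul_le_mul_of_nonneg_right ?_ hs)
        linarith
  · intro z hz z' hz'
    have hd := dist_nonneg (x := z) (y := z')
    constructor
    · exact (mul_le_mul_of_nonneg_right (min_le_right _ _) hd).trans (hlow z hz z' hz')
    · refine (hup z hz z' hz').trans (mul_le_mul_of_nonneg_right ?_ hd)
      linarith

end Pool.Agent.PFlow.GB
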