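import Pool.Agent.PFlow.G.Base

set_option autoImplicit false

/-!
# CL: the chart lemma
-/

open MeasureTheory Filter Topology
open scoped ContDiff

namespace Pool.Agent.PFlow.GB

open Pool.Agent.PenroseSph Pool.Agent.PFlow

namespace CLaux

/-- Bounded measurable functions. -/
def BM {α : Type*} [MeasurableSpace α] (f : α → ℝ) : Prop := Measurable f ∧ ∃ B, ∀ x, |f x| ≤ B

section BM

variable {α β : Type*} [MeasurableSpace α] [MeasurableSpace β]

lemma BM.nonneg_bound {f : α → ℝ} (h : BM f) : ∃ B, 0 ≤ B ∧ ∀ x, |f x| ≤ B := by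
  obtain ⟨_, B, hB⟩ := h
  exact ⟨|B|, abs_nonneg _, fun x => (hB x).trans (le_abs_self _)⟩

lemma BM.mul {f g : α → ℝ} (hf : BM f) (hg : BM g) : BM (fun x => f x * g x) := by
  obtain ⟨B, hB0, hB⟩ := hf.nonneg_bound
  obtain ⟨C, hC0, hC⟩ := hg.nonneg_bound
  refine ⟨hf.1.mul hg.1, B * C, fun x => ?_⟩
  rw [abs_mul]
  exact mul_le_mul (hB x) (hC x) (abs_nonneg _) hB0

lemma BM.sub {f g : α → ℝ} (hf : BM f) (hg : BM g) : BM (fun x => f x - g x) := by
  obtain ⟨B, hB0, hB⟩ := hf.nonneg_bound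
  obtain ⟨C, hC0, hC⟩ := hg.nonneg_bound
  refine ⟨hf.1.sub hg.1, B + C, fun x => ?_⟩
  exact (abs_sub _ _).trans (add_le_add (hB x) (hC x))

lemma BM.const (c : ℝ) : BM (fun _ : α => c) := ⟨measurable_const, |c|, fun _ => le_rfl⟩

lemma BM.abs {f : α → ℝ} (hf : BM f) : BM (fun x => |f x|) := by
  obtain ⟨B, hB0, hB⟩ := hf.nonneg_bound
  exact ⟨hf.1.abs, B, fun x => by rw [abs_abs]; exact hB x⟩

lemma BM.comp {f : β → ℝ} (hf : BM f) {u : α → β} (hu : Measurable u) :
    BM (fun x => f (u x)) := ⟨hf.1.comp hu, hf.2.imp fun _ h x => h (u x)⟩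

lemma BM.integrableOn {f : α → ℝ} (hf : BM f) {μ : Measure α} {S : Set α} (hS : μ S ≠ ⊤) :
    IntegrableOn f S μ := by
  obtain ⟨B, hB0, hB⟩ := hf.nonneg_bound
  have : IsFiniteMeasure (μ.restrict S) := ⟨by
    rw [Measure.restrict_apply_univ]; exact hS.lt_top⟩
  exact Integrable.of_bound hf.1.aestronglyMeasurable B (ae_of_all _ hB)

lemma BM.integral_prod {f : α → β → ℝ} (hf : BM (Function.uncurry f)) {μ : Measure β} {S : Set β}
    (hS : μ S ≠ ⊤) : BM (fun x => ∫ y in S, f x y ∂μ) := by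
  obtain ⟨B, hB0, hB⟩ := hf.nonneg_bound
  have : IsFiniteMeasure (μ.restrict S) := ⟨by
    rw [Measure.restrict_apply_univ]; exact hS.lt_top⟩
  refine ⟨(hf.1.stronglyMeasurable.integral_prod_right).measurable, B * μ.real S, fun x => ?_⟩
  have := norm_setIntegral_le_of_norm_le_const (μ := μ) (s := S) (f := f x) (C := B) hS.lt_top
    (fun y _ => hB (x, y))
  simpa using this

end BM

lemma pt_zero (a b s : ℝ) : pt a b s 0 = a := rfl
lemma pt_one (a b s : ℝ) : pt a b s 1 = b := rfl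
lemma pt_two (a b s : ℝ) : pt a b s 2 = s := rfl

lemma continuous_pt : Continuous (fun q : (ℝ × ℝ) × ℝ => pt q.1.2 q.2 q.1.1) := by
  unfold pt
  refine (PiLp.continuous_toLp 2 _).comp (continuous_pi fun i => ?_)
  fin_cases i
  · exact continuous_fst.snd
  · exact continuous_snd
  · exact continuous_fst.fst

lemma contDiff_pt (s : ℝ) : ContDiff ℝ 1 (fun q : ℝ × ℝ => pt q.1 q.2 s) := by
  rw [contDiff_euclidean]
  intro i
  fin_cases i
  · exact contDiff_fst
  · exact contDiff_snd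
  · exact contDiff_const

lemma pt_add_left (t b s : ℝ) : pt t b s = pt 0 b s + t • EuclideanSpace.single (0 : Fin 3) (1:ℝ) := by
  ext i
  fin_cases i <;> simp [pt]

lemma pt_add_right (t a s : ℝ) : pt a t s = pt a 0 s + t • EuclideanSpace.single (1 : Fin 3) (1:ℝ) := by
  ext i
  fin_cases i <;> simp [pt]

lemma hasDerivAt_pt_left (a b s : ℝ) :
    HasDerivAt (fun t => pt t b s) (EuclideanSpace.single (0 : Fin 3) (1:ℝ)) a := by
  have h := ((hasDerivAt_id a).smul_const (EuclideanSpace.single (0 : Fin 3) (1:ℝ))).const_add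
    (pt 0 b s)
  simp only [one_smul, id] at h
  exact h.congr_of_eventuallyEq (Eventually.of_forall fun t => pt_add_left t b s)

lemma hasDerivAt_pt_right (a b s : ℝ) :
    HasDerivAt (fun t => pt a t s) (EuclideanSpace.single (1 : Fin 3) (1:ℝ)) b := by
  have h := ((hasDerivAt_id b).smul_const (EuclideanSpace.single (1 : Fin 3) (1:ℝ))).const_add
    (pt a 0 s)
  simp only [one_smul, id] at h
  exact h.congr_of_eventuallyEq (Eventually.of_forall fun t => pt_add_right t a s)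

lemma deriv_pt_left {F : E3 → ℝ} {a b s : ℝ} (h : DifferentiableAt ℝ F (pt a b s)) :
    deriv (fun t => F (pt t b s)) a = pd 0 F (pt a b s) :=
  (h.hasFDerivAt.comp_hasDerivAt a (hasDerivAt_pt_left a b s)).deriv

lemma deriv_pt_right {F : E3 → ℝ} {a b s : ℝ} (h : DifferentiableAt ℝ F (pt a b s)) :
    deriv (fun t => F (pt a t s)) b = pd 1 F (pt a b s) :=
  (h.hasFDerivAt.comp_hasDerivAt b (hasDerivAt_pt_right a b s)).deriv

/-- The double integral over the square at the height `s`. -/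
noncomputable def dbl (z0 : E3) (r : ℝ) (f : E3 → ℝ) (s : ℝ) : ℝ :=
  ∫ a in Set.Ioo (z0 0 - r) (z0 0 + r), ∫ b in Set.Ioo (z0 1 - r) (z0 1 + r), f (pt a b s)

lemma vol_Ioo (x y : ℝ) : (volume : Measure ℝ) (Set.Ioo x y) ≠ ⊤ := by
  rw [Real.volume_Ioo]; exact ENNReal.ofReal_ne_top

lemma BM_inner {f : E3 → ℝ} (hf : BM f) (z0 : E3) (r : ℝ) :
    BM (fun q : ℝ × ℝ => ∫ b in Set.Ioo (z0 1 - r) (z0 1 + r), f (pt q.2 b q.1)) := by
  apply BM.integral_prod (f := fun q : ℝ × ℝ => fun b => f (pt q.2 b q.1)) _ (vol_Ioo _ _)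
  exact hf.comp continuous_pt.measurable

lemma BM_inner' {f : E3 → ℝ} (hf : BM f) (z0 : E3) (r s : ℝ) :
    BM (fun a : ℝ => ∫ b in Set.Ioo (z0 1 - r) (z0 1 + r), f (pt a b s)) :=
  (BM_inner hf z0 r).comp (u := fun a : ℝ => (s, a)) (by fun_prop)

lemma BM_line {f : E3 → ℝ} (hf : BM f) (a s : ℝ) : BM (fun b : ℝ => f (pt a b s)) :=
  hf.comp (u := fun b : ℝ => pt a b s)
    ((continuous_pt.comp (by fun_prop : Continuous fun b : ℝ => ((s, a), b))).measurable)

lemma BM_dbl {f : E3 → ℝ} (hf : BM f) (z0 : E3) (r : ℝ) : BM (dbl z0 r f) := by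
  unfold dbl
  exact BM.integral_prod (f := fun s a => ∫ b in Set.Ioo (z0 1 - r) (z0 1 + r), f (pt a b s))
    (BM_inner hf z0 r) (vol_Ioo _ _)

lemma dbl_congr {f g : E3 → ℝ} (z0 : E3) (r s : ℝ)
    (h : ∀ a ∈ Set.Ioo (z0 0 - r) (z0 0 + r), ∀ b ∈ Set.Ioo (z0 1 - r) (z0 1 + r),
      f (pt a b s) = g (pt a b s)) : dbl z0 r f s = dbl z0 r g s := by
  unfold dbl
  exact setIntegral_congr_fun measurableSet_Ioo fun a ha =>
    setIntegral_congr_fun measurableSet_Ioo fun b hb => h a ha b hb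

lemma dbl_sub {f g : E3 → ℝ} (hf : BM f) (hg : BM g) (z0 : E3) (r s : ℝ) :
    dbl z0 r (fun z => f z - g z) s = dbl z0 r f s - dbl z0 r g s := by
  unfold dbl
  have h1 : ∀ a, ∫ b in Set.Ioo (z0 1 - r) (z0 1 + r), (f (pt a b s) - g (pt a b s)) =
      (∫ b in Set.Ioo (z0 1 - r) (z0 1 + r), f (pt a b s))
        - ∫ b in Set.Ioo (z0 1 - r) (z0 1 + r), g (pt a b s) := fun a =>
    integral_sub ((BM_line hf a s).integrableOn (vol_Ioo _ _))
      ((BM_line hg a s).integrableOn (vol_Ioo _ _))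
  simp only [h1]
  exact integral_sub ((BM_inner' hf z0 r s).integrableOn (vol_Ioo _ _))
    ((BM_inner' hg z0 r s).integrableOn (vol_Ioo _ _))

lemma dbl_mono {f : ℝ → ℝ → ℝ} {G : E3 → ℝ} (z0 : E3) (r s : ℝ) (hG : BM G)
    (h0 : ∀ a ∈ Set.Ioo (z0 0 - r) (z0 0 + r), ∀ b ∈ Set.Ioo (z0 1 - r) (z0 1 + r), 0 ≤ f a b)
    (h : ∀ a ∈ Set.Ioo (z0 0 - r) (z0 0 + r), ∀ b ∈ Set.Ioo (z0 1 - r) (z0 1 + r),
      f a b ≤ G (pt a b s)) :
    ∫ a in Set.Ioo (z0 0 - r) (z0 0 + r), ∫ b in Set.Ioo (z0 1 - r) (z0 1 + r), f a b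
      ≤ dbl z0 r G s := by
  unfold dbl
  have hin : ∀ a ∈ Set.Ioo (z0 0 - r) (z0 0 + r),
      ∫ b in Set.Ioo (z0 1 - r) (z0 1 + r), f a b
        ≤ ∫ b in Set.Ioo (z0 1 - r) (z0 1 + r), G (pt a b s) := by
    intro a ha
    apply integral_mono_of_nonneg
    · exact (ae_restrict_iff' measurableSet_Ioo).2 (ae_of_all _ fun b hb => h0 a ha b hb)
    · exact (BM_line hG a s).integrableOn (vol_Ioo _ _)
    · exact (ae_restrict_iff' measurableSet_Ioo).2 (ae_of_all _ fun b hb => h a ha b hb)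
  apply integral_mono_of_nonneg
  · exact (ae_restrict_iff' measurableSet_Ioo).2 (ae_of_all _ fun a ha =>
      setIntegral_nonneg measurableSet_Ioo fun b hb => h0 a ha b hb)
  · exact (BM_inner' hG z0 r s).integrableOn (vol_Ioo _ _)
  · exact (ae_restrict_iff' measurableSet_Ioo).2 (ae_of_all _ hin)

lemma meas_ind {S : Set E3} (hS : MeasurableSet S) {f : E3 → ℝ} (h : Measurable (S.domRestrict f)) :
    Measurable (S.indicator f) := by
  apply measurable_of_restrict_of_restrict_compl hS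
  · have : S.domRestrict (S.indicator f) = S.domRestrict f := by
      funext x
      simp [Set.domRestrict_apply]
    rw [this]; exact h
  · have : Sᶜ.domRestrict (S.indicator f) = fun _ => 0 := by
      funext x
      simp [Set.domRestrict_apply, Set.indicator_of_notMem x.2]
    rw [this]; exact measurable_const

lemma BM_ind {S : Set E3} (hS : MeasurableSet S) {f : E3 → ℝ} (h : Measurable (S.domRestrict f))
    (hb : ∃ B, ∀ x ∈ S, |f x| ≤ B) : BM (S.indicator f) := by
  refine ⟨meas_ind hS h, ?_⟩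
  obtain ⟨B, hB⟩ := hb
  refine ⟨|B|, fun x => ?_⟩
  by_cases hx : x ∈ S
  · rw [Set.indicator_of_mem hx]; exact (hB x hx).trans (le_abs_self _)
  · rw [Set.indicator_of_notMem hx, abs_zero]; exact abs_nonneg _

lemma BM_ind_cont {S : Set E3} (hS : IsCompact S) {f : E3 → ℝ} (hf : ContinuousOn f S) :
    BM (S.indicator f) := by
  apply BM_ind hS.measurableSet (continuousOn_iff_continuous_domRestrict.1 hf).measurable
  obtain ⟨B, hB⟩ := hS.exists_bound_of_continuousOn hf
  exact ⟨B, fun x hx => hB x hx⟩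

lemma BM_ind_comp {S : Set E3} (hS : IsCompact S) {Φ : E3 → E3} (hΦ : ContinuousOn Φ S)
    {F : E3 → ℝ} (hF : BM F) : BM (S.indicator (fun z => F (Φ z))) := by
  apply BM_ind hS.measurableSet
  · exact hF.1.comp (continuousOn_iff_continuous_domRestrict.1 hΦ).measurable
  · obtain ⟨B, hB⟩ := hF.2
    exact ⟨B, fun x _ => hB _⟩

lemma isClosed_box (z0 : E3) (r e : ℝ) : IsClosed (box z0 r e) := by
  have h : ∀ (i : Fin 3) (c : ℝ), IsClosed {z : E3 | |z i - z0 i| ≤ c} := fun i c =>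
    isClosed_le (by fun_prop) continuous_const
  exact (h 0 r).inter ((h 1 r).inter (h 2 e))

lemma isOpen_obox (z0 : E3) (r e : ℝ) : IsOpen (obox z0 r e) := by
  have h : ∀ (i : Fin 3) (c : ℝ), IsOpen {z : E3 | |z i - z0 i| < c} := fun i c =>
    isOpen_lt (by fun_prop) continuous_const
  exact (h 0 r).inter ((h 1 r).inter (h 2 e))

lemma obox_subset_box (z0 : E3) (r e : ℝ) : obox z0 r e ⊆ box z0 r e :=
  fun _ hz => ⟨hz.1.le, hz.2.1.le, hz.2.2.le⟩

lemma isCompact_box (z0 : E3) (r e : ℝ) : IsCompact (box z0 r e) := by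
  apply Metric.isCompact_of_isClosed_isBounded (isClosed_box z0 r e)
  apply (Metric.isBounded_closedBall (x := z0) (r := Real.sqrt (r ^ 2 + r ^ 2 + e ^ 2))).subset
  intro z hz
  rw [Metric.mem_closedBall, EuclideanSpace.dist_eq, Fin.sum_univ_three]
  apply Real.sqrt_le_sqrt
  simp only [Real.dist_eq]
  have h0 := pow_le_pow_left₀ (abs_nonneg _) hz.1 2
  have h1 := pow_le_pow_left₀ (abs_nonneg _) hz.2.1 2
  have h2 := pow_le_pow_left₀ (abs_nonneg _) hz.2.2 2
  linarith

lemma pt_mem_obox {z0 : E3} {r e a b s : ℝ} (ha : a ∈ Set.Ioo (z0 0 - r) (z0 0 + r))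
    (hb : b ∈ Set.Ioo (z0 1 - r) (z0 1 + r)) (hs : s ∈ Set.Ioo (z0 2 - e) (z0 2 + e)) :
    pt a b s ∈ obox z0 r e := by
  refine ⟨?_, ?_, ?_⟩
  · rw [pt_zero, abs_lt]; constructor <;> linarith [ha.1, ha.2]
  · rw [pt_one, abs_lt]; constructor <;> linarith [hb.1, hb.2]
  · rw [pt_two, abs_lt]; constructor <;> linarith [hs.1, hs.2]

lemma pt_mem_box {z0 : E3} {r e a b s : ℝ} (ha : a ∈ Set.Icc (z0 0 - r) (z0 0 + r))
    (hb : b ∈ Set.Icc (z0 1 - r) (z0 1 + r)) (hs : s ∈ Set.Icc (z0 2 - e) (z0 2 + e)) :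
    pt a b s ∈ box z0 r e := by
  refine ⟨?_, ?_, ?_⟩
  · rw [pt_zero, abs_le]; constructor <;> linarith [ha.1, ha.2]
  · rw [pt_one, abs_le]; constructor <;> linarith [hb.1, hb.2]
  · rw [pt_two, abs_le]; constructor <;> linarith [hs.1, hs.2]

/-- The estimate on a single slice. -/
lemma slice (hPOIN : Stmt_POIN) {z0 : E3} {r e : ℝ} (hr : 0 < r) {N : Set E3} (hN : IsOpen N)
    (hbN : box z0 r e ⊆ N) {vh : E3 → ℝ} (hvh : ContDiffOn ℝ 1 vh N) {K L : E3 → ℝ} (hK : BM K)
    (hL : BM L) {B : ℝ} (hB0 : 0 ≤ B) (hB : ∀ z, |K z| ≤ B) {D : ℝ}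
    (hd : ∀ z ∈ box z0 r e, |pd 0 vh z| + |pd 1 vh z| ≤ D * L z) {s : ℝ}
    (hs : s ∈ Set.Ioo (z0 2 - e) (z0 2 + e)) (hz : dbl z0 r K s = 0) :
    |dbl z0 r (fun z => K z * vh z) s| ≤ 2 * r * B * (D * dbl z0 r L s) := by
  have hs' : s ∈ Set.Icc (z0 2 - e) (z0 2 + e) := Set.Ioo_subset_Icc_self hs
  have h := hPOIN (z0 0) (z0 1) r B (fun a b => K (pt a b s)) (fun a b => vh (pt a b s)) hr hB0
    ?_ (fun a b => hB _) ?_ hz
  · have h2 : ∫ a in Set.Ioo (z0 0 - r) (z0 0 + r), ∫ b in Set.Ioo (z0 1 - r) (z0 1 + r),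
        (|deriv (fun t => vh (pt t b s)) a| + |deriv (fun t => vh (pt a t s)) b|)
          ≤ dbl z0 r (fun z => D * L z) s := by
      apply dbl_mono z0 r s ((BM.const D).mul hL)
      · intro a _ b _
        positivity
      · intro a ha b hb
        have hm : pt a b s ∈ box z0 r e := obox_subset_box z0 r e (pt_mem_obox ha hb hs)
        have hdiff : DifferentiableAt ℝ vh (pt a b s) :=
          (hvh.differentiableOn one_ne_zero).differentiableAt (hN.mem_nhds (hbN hm))
        rw [deriv_pt_left hdiff, deriv_pt_right hdiff]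
        exact hd _ hm
    have h3 : dbl z0 r (fun z => D * L z) s = D * dbl z0 r L s := by
      unfold dbl
      simp only [integral_const_mul]
    rw [h3] at h2
    refine le_trans h ?_
    exact mul_le_mul_of_nonneg_left h2 (by positivity)
  · exact hK.1.comp (((continuous_pt.comp
      (by fun_prop : Continuous fun q : ℝ × ℝ => ((s, q.1), q.2)))).measurable)
  · refine ⟨(fun q : ℝ × ℝ => pt q.1 q.2 s) ⁻¹' N, hN.preimage (contDiff_pt s).continuous, ?_, ?_⟩
    · rintro ⟨a, b⟩ ⟨ha, hb⟩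
      exact hbN (pt_mem_box ha hb hs')
    · exact hvh.comp (contDiff_pt s).contDiffOn (Set.mapsTo_preimage _ _)

end CLaux

open CLaux

theorem CL (hSMO : Stmt_SMO) (hCHX : Stmt_CHX) (hFUB : Stmt_FUB) (hPOIN : Stmt_POIN) :
    Stmt_CL := by
  intro V a b g W hF Φ z0 r e hC ρ β b0 M hρ hβ hsupp hβ0 hb0 hM hβs hρs
  have hρ' : BM ρ := hρ
  have hβ' : BM β := hβ
  obtain ⟨ha, hb, hcomp, hsubV, _hopen, hcv, _hci, hjc, c, C, hc, hCpos, hjb, _⟩ :=
    hCHX V a b g W hF Φ z0 r e hC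
  obtain ⟨N, hN, hbN, hΦN, _hinj, hmaps, _hdet, hWΦ⟩ := hC.nbhd
  have hr := hC.r_pos
  have he := hC.e_pos
  have hoB := obox_subset_box z0 r e
  have hBc := isCompact_box z0 r e
  have hΦB : ContinuousOn Φ (box z0 r e) := hΦN.continuousOn.mono hbN
  set P : E3 → ℝ := (box z0 r e).indicator (fun z => ρ (Φ z)) with hPdef
  set Q : E3 → ℝ := (box z0 r e).indicator (fun z => β (Φ z)) with hQdef
  set J : E3 → ℝ := (box z0 r e).indicator (jac g W Φ) with hJdef
  have hP : BM P := BM_ind_comp hBc hΦB hρ'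
  have hQ : BM Q := BM_ind_comp hBc hΦB hβ'
  have hJ : BM J := BM_ind_cont hBc hjc
  have hcρ : ∀ s ∈ Set.Ioo (z0 2 - e) (z0 2 + e),
      cint g W Φ z0 r ρ s = dbl z0 r (fun z => P z * J z) s := by
    intro s hs
    refine dbl_congr (f := fun z => ρ (Φ z) * jac g W Φ z) z0 r s fun a ha b hb => ?_
    have hm := hoB (pt_mem_obox ha hb hs)
    simp only [hPdef, hJdef, Set.indicator_of_mem hm]
  have hcβ : ∀ s ∈ Set.Ioo (z0 2 - e) (z0 2 + e),
      cint g W Φ z0 r β s = dbl z0 r (fun z => Q z * J z) s := by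
    intro s hs
    refine dbl_congr (f := fun z => β (Φ z) * jac g W Φ z) z0 r s fun a ha b hb => ?_
    have hm := hoB (pt_mem_obox ha hb hs)
    simp only [hQdef, hJdef, Set.indicator_of_mem hm]
  set γ : ℝ → ℝ := (Set.Ioo (z0 2 - e) (z0 2 + e)).indicator
    (fun s => dbl z0 r (fun z => P z * J z) s / dbl z0 r (fun z => Q z * J z) s) with hγdef
  have hγm : Measurable γ :=
    ((BM_dbl (hP.mul hJ) z0 r).1.div (BM_dbl (hQ.mul hJ) z0 r).1).indicator measurableSet_Ioo
  have hMb : 0 ≤ M / b0 := div_nonneg hM hb0.le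
  have hγb : ∀ s, |γ s| ≤ M / b0 := by
    intro s
    by_cases hs : s ∈ Set.Ioo (z0 2 - e) (z0 2 + e)
    · rw [hγdef, Set.indicator_of_mem hs, ← hcρ s hs, ← hcβ s hs, abs_div]
      have h1 := hβs s hs
      have h2 : 0 < cint g W Φ z0 r β s := hb0.trans_le h1
      rw [abs_of_pos h2]
      exact div_le_div₀ hM (hρs s hs) hb0 h1
    · rw [hγdef, Set.indicator_of_notMem hs, abs_zero]
      exact hMb
  have hγBM : BM γ := ⟨hγm, _, hγb⟩
  -- the function with vanishing slice integrals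
  have hcoord : Measurable (fun z : E3 => z 2) := by fun_prop
  set K : E3 → ℝ := fun z => P z * J z - γ (z 2) * (Q z * J z) with hKdef
  have hK : BM K := (hP.mul hJ).sub ((hγBM.comp hcoord).mul (hQ.mul hJ))
  obtain ⟨B, hB0, hB⟩ := hK.nonneg_bound
  have hKz : ∀ s ∈ Set.Ioo (z0 2 - e) (z0 2 + e), dbl z0 r K s = 0 := by
    intro s hs
    have e1 : dbl z0 r K s = dbl z0 r (fun z => P z * J z - γ s * (Q z * J z)) s :=
      dbl_congr z0 r s fun a _ b _ => by simp only [hKdef, pt_two]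
    have e2 : dbl z0 r (fun z => γ s * (Q z * J z)) s = γ s * dbl z0 r (fun z => Q z * J z) s := by
      unfold dbl
      simp only [integral_const_mul]
    rw [e1, dbl_sub (hP.mul hJ) ((BM.const _).mul (hQ.mul hJ)), e2, hγdef,
      Set.indicator_of_mem hs]
    have h2 : 0 < dbl z0 r (fun z => Q z * J z) s := by
      rw [← hcβ s hs]; exact hb0.trans_le (hβs s hs)
    field_simp
    ring
  set C2 : ℝ := 2 * r * B * (2 * C / c) with hC2
  have hC20 : 0 ≤ C2 := by positivity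
  refine ⟨γ, hγm, hγb, C2, hC20, ?_⟩
  intro α hα v hv
  have hα' : BM α := hα
  have hslabopen := isOpen_slab hF (z0 2 - e) (z0 2 + e)
  have himg : Φ '' obox z0 r e ⊆ slab V W (z0 2 - e) (z0 2 + e) := by
    rintro _ ⟨z, hz, rfl⟩
    refine ⟨hsubV ⟨z, hoB hz, rfl⟩, ?_⟩
    have h1 : W (Φ z) = z 2 := hWΦ z (hbN (hoB hz))
    have h2 := abs_lt.1 hz.2.2
    rw [Set.mem_preimage, h1]
    exact ⟨by linarith [h2.1], by linarith [h2.2]⟩
  -- continuity
  have hlin : ContinuousOn (lin g W v v) V := by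
    intro x hx
    have h1 := (hSMO.2 g W x (hSMO.1 V a b g W hF x hx)).2.2.2.2.2.2.2.2.2.2.2.2.2.1 0 v v
    have h2 : ContDiffAt ℝ 1 v x := (hv x hx).contDiffAt (hF.isOpen.mem_nhds hx)
    exact (h1 (by simpa using h2) (by simpa using h2)).1.continuousAt.continuousWithinAt
  have hdensc : ContinuousOn (dens g W) V := by
    intro x hx
    exact (hSMO.2 g W x (hSMO.1 V a b g W hF x hx)).2.2.2.2.2.2.2.2.1.continuousAt.continuousWithinAt
  have hdenspos : ∀ x ∈ V, 0 < dens g W x := fun x hx =>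
    (hSMO.2 g W x (hSMO.1 V a b g W hF x hx)).2.2.2.1
  set vh : E3 → ℝ := fun z => v (Φ z) with hvhdef
  have hvh : ContDiffOn ℝ 1 vh N := hv.comp (hΦN.of_le (by norm_num)) hmaps
  set Vv : E3 → ℝ := (box z0 r e).indicator vh with hVvdef
  have hVv : BM Vv := BM_ind_cont hBc (hvh.continuousOn.mono hbN)
  set Ln : E3 → ℝ := (box z0 r e).indicator (fun z => Real.sqrt (lin g W v v (Φ z))) with hLndef
  have hLn : BM Ln := by
    apply BM_ind_cont hBc
    have h1 : ContinuousOn (fun z => lin g W v v (Φ z)) (box z0 r e) :=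
      hlin.comp hΦB fun z hz => hsubV ⟨z, hz, rfl⟩
    exact h1.sqrt
  set L : E3 → ℝ := fun z => Ln z * J z with hLdef
  have hL : BM L := hLn.mul hJ
  -- the left side
  have hleft : ∫ x in slab V W (z0 2 - e) (z0 2 + e),
      (ρ x - γ (W x) * β x) * α (W x) * v x * dens g W x =
      ∫ z in obox z0 r e, K z * α (z 2) * Vv z := by
    rw [setIntegral_eq_of_subset_of_forall_sdiff_eq_zero hslabopen.measurableSet himg ?_]
    · rw [hcv (obox z0 r e) (fun x => (ρ x - γ (W x) * β x) * α (W x) * v x)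
        (isOpen_obox z0 r e).measurableSet hoB]
      apply setIntegral_congr_fun (isOpen_obox z0 r e).measurableSet
      intro z hz
      have hm := hoB hz
      have h1 : W (Φ z) = z 2 := hWΦ z (hbN hm)
      simp only [hKdef, hPdef, hQdef, hJdef, hVvdef, hvhdef, Set.indicator_of_mem hm, h1]
      ring
    · intro x hx
      obtain ⟨h1, h2⟩ := hsupp x hx.2
      rw [h1, h2]
      ring
  have hright : C2 * ∫ z in obox z0 r e, |α (z 2)| * L z ≤
      C2 * ∫ x in slab V W (z0 2 - e) (z0 2 + e),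
        |α (W x)| * Real.sqrt (lin g W v v x) * dens g W x := by
    apply mul_le_mul_of_nonneg_left _ hC20
    have e1 : ∫ z in obox z0 r e, |α (z 2)| * L z =
        ∫ x in Φ '' obox z0 r e, |α (W x)| * Real.sqrt (lin g W v v x) * dens g W x := by
      rw [hcv (obox z0 r e) (fun x => |α (W x)| * Real.sqrt (lin g W v v x))
        (isOpen_obox z0 r e).measurableSet hoB]
      apply setIntegral_congr_fun (isOpen_obox z0 r e).measurableSet
      intro z hz
      have hm := hoB hz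
      have h1 : W (Φ z) = z 2 := hWΦ z (hbN hm)
      simp only [hLdef, hLndef, hJdef, Set.indicator_of_mem hm, h1]
      ring
    rw [e1]
    apply setIntegral_mono_set
    · -- integrability on the slab
      have hcs : IsCompact (cslab V W (z0 2 - e) (z0 2 + e)) := hF.proper _ _ ha hb
      have h1 : IntegrableOn (fun x => Real.sqrt (lin g W v v x) * dens g W x)
          (slab V W (z0 2 - e) (z0 2 + e)) := by
        apply IntegrableOn.mono_set _ (slab_subset_cslab _ _)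
        apply ContinuousOn.integrableOn_compact hcs
        exact ((hlin.sqrt).mul hdensc).mono (cslab_subset _ _)
      obtain ⟨A, hA0, hA⟩ := hα'.nonneg_bound
      have h2 : AEStronglyMeasurable (fun x => |α (W x)|)
          (volume.restrict (slab V W (z0 2 - e) (z0 2 + e))) := by
        have h3 : AEMeasurable W (volume.restrict (slab V W (z0 2 - e) (z0 2 + e))) :=
          (hF.continuousOn.mono (slab_subset _ _)).aemeasurable hslabopen.measurableSet
        exact (hα'.1.abs.comp_aemeasurable h3).aestronglyMeasurable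
      have h4 := Integrable.bdd_mul (c := A) h1 h2 (ae_of_all _ fun x => by
        rw [Real.norm_eq_abs, abs_abs]; exact hA _)
      refine h4.congr (ae_of_all _ fun x => ?_)
      simp only
      ring
    · refine (ae_restrict_iff' hslabopen.measurableSet).2 (ae_of_all _ fun x hx => ?_)
      have := hdenspos x hx.1
      simp only [Pi.zero_apply]
      positivity
    · exact himg.eventuallyLE
  refine le_trans ?_ hright
  simp only [] at hleft ⊢
  rw [hleft]
  have hαc : BM (fun z : E3 => α (z 2)) := hα'.comp hcoord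
  have hbox_fin : (volume : Measure E3) (obox z0 r e) ≠ ⊤ :=
    (lt_of_le_of_lt (measure_mono hoB) hBc.measure_lt_top).ne
  rw [hFUB z0 r e (fun z => K z * α (z 2) * Vv z)
      (((hK.mul hαc).mul hVv).integrableOn hbox_fin),
    hFUB z0 r e (fun z => |α (z 2)| * L z) ((hαc.abs.mul hL).integrableOn hbox_fin)]
  have el : ∀ s, (∫ a in Set.Ioo (z0 0 - r) (z0 0 + r), ∫ b in Set.Ioo (z0 1 - r) (z0 1 + r),
      K (pt a b s) * α ((pt a b s) 2) * Vv (pt a b s)) =
        α s * dbl z0 r (fun z => K z * Vv z) s := by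
    intro s
    unfold dbl
    rw [← integral_const_mul]
    refine integral_congr_ae (ae_of_all _ fun a => ?_)
    simp only
    rw [← integral_const_mul]
    refine integral_congr_ae (ae_of_all _ fun b => ?_)
    simp only [pt_two]
    ring
  have er : ∀ s, (∫ a in Set.Ioo (z0 0 - r) (z0 0 + r), ∫ b in Set.Ioo (z0 1 - r) (z0 1 + r),
      |α ((pt a b s) 2)| * L (pt a b s)) = |α s| * dbl z0 r L s := by
    intro s
    unfold dbl
    rw [← integral_const_mul]
    refine integral_congr_ae (ae_of_all _ fun a => ?_)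
    simp only
    rw [← integral_const_mul]
    refine integral_congr_ae (ae_of_all _ fun b => ?_)
    simp only [pt_two]
  simp only [el, er]
  rw [← integral_const_mul]
  have hfin := vol_Ioo (z0 2 - e) (z0 2 + e)
  rw [← Real.norm_eq_abs]
  refine norm_integral_le_of_norm_le
    (((BM.const C2).mul (hα'.abs.mul (BM_dbl hL z0 r))).integrableOn hfin) ?_
  refine (ae_restrict_iff' measurableSet_Ioo).2 (ae_of_all _ fun s hs => ?_)
  rw [Real.norm_eq_abs, abs_mul]
  have hd : ∀ z ∈ box z0 r e, |pd 0 vh z| + |pd 1 vh z| ≤ (2 * C / c) * L z := by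
    intro z hz
    obtain ⟨j1, j2, j3⟩ := hjb z hz
    have hxV : Φ z ∈ V := hsubV ⟨z, hz, rfl⟩
    obtain ⟨d0, d1⟩ := j3 v
      (((hv _ hxV).contDiffAt (hF.isOpen.mem_nhds hxV)).differentiableAt one_ne_zero)
    have hsq := Real.sqrt_nonneg (lin g W v v (Φ z))
    simp only [hLdef, hLndef, hJdef, Set.indicator_of_mem hz]
    have h5 : 2 * C * Real.sqrt (lin g W v v (Φ z)) ≤
        (2 * C / c) * (Real.sqrt (lin g W v v (Φ z)) * jac g W Φ z) := by
      rw [div_mul_eq_mul_div, le_div_iff₀ hc]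
      have : Real.sqrt (lin g W v v (Φ z)) * c ≤ Real.sqrt (lin g W v v (Φ z)) * jac g W Φ z :=
        mul_le_mul_of_nonneg_left j1 hsq
      nlinarith
    have h6 : |pd 0 vh z| ≤ C * Real.sqrt (lin g W v v (Φ z)) := d0
    have h7 : |pd 1 vh z| ≤ C * Real.sqrt (lin g W v v (Φ z)) := d1
    linarith
  have hsl := slice hPOIN hr hN hbN hvh hK hL hB0 hB hd hs (hKz s hs)
  have hcg : dbl z0 r (fun z => K z * Vv z) s = dbl z0 r (fun z => K z * vh z) s := by
    apply dbl_congr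
    intro a ha b hb
    simp only [hVvdef, Set.indicator_of_mem (hoB (pt_mem_obox ha hb hs))]
  rw [hcg]
  have h8 : |α s| * |dbl z0 r (fun z => K z * vh z) s| ≤
      |α s| * (2 * r * B * ((2 * C / c) * dbl z0 r L s)) :=
    mul_le_mul_of_nonneg_left hsl (abs_nonneg _)
  refine h8.trans (le_of_eq ?_)
  rw [hC2]
  ring

end Pool.Agent.PFlow.GB
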