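import Pool.Agent.PFlow.G.Base

/-!
# Block GB: concentration of the curvature
-/

open MeasureTheory Filter Topology
open scoped ContDiff

namespace Pool.Agent.PFlow.GB

open Pool.Agent.PenroseSph Pool.Agent.PFlow

namespace CONC

/-- The profile `L⁻¹ (1 / max s t2 - 1 / t1)⁺`. -/
noncomputable def hL (L t1 t2 s : ℝ) : ℝ := L⁻¹ * max (1 / max s t2 - 1 / t1) 0

variable {L t1 t2 : ℝ}

lemma hL_cont (ht2 : 0 < t2) : Continuous (hL L t1 t2) := by
  unfold hL
  have h1 : Continuous fun s : ℝ => 1 / max s t2 := by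
    refine continuous_const.div (continuous_id.max continuous_const) fun s => ?_
    exact (lt_of_lt_of_le ht2 (le_max_right s t2)).ne'
  exact continuous_const.mul ((h1.sub continuous_const).max continuous_const)

lemma hL_nonneg (hL0 : 0 < L) (s : ℝ) : 0 ≤ hL L t1 t2 s :=
  mul_nonneg (inv_pos.mpr hL0).le (le_max_right _ _)

lemma hL_anti (hL0 : 0 < L) (ht2 : 0 < t2) : Antitone (hL L t1 t2) := by
  intro s s' hs
  unfold hL
  refine mul_le_mul_of_nonneg_left ?_ (inv_pos.mpr hL0).le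
  refine max_le_max ?_ le_rfl
  refine sub_le_sub_right ?_ _
  exact one_div_le_one_div_of_le (lt_of_lt_of_le ht2 (le_max_right s t2))
    (max_le_max hs le_rfl)

lemma hL_zero (ht1 : 0 < t1) {s : ℝ} (hs : t1 ≤ s) : hL L t1 t2 s = 0 := by
  unfold hL
  have h1 : 1 / max s t2 ≤ 1 / t1 := one_div_le_one_div_of_le ht1 (hs.trans (le_max_left s t2))
  rw [max_eq_right (by linarith), mul_zero]

lemma hL_le (hL0 : 0 < L) (ht1 : 0 < t1) (ht2 : 0 < t2) (s : ℝ) :
    hL L t1 t2 s ≤ L⁻¹ * (1 / max s t2) := by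
  unfold hL
  refine mul_le_mul_of_nonneg_left ?_ (inv_pos.mpr hL0).le
  have h1 : 0 < 1 / max s t2 := one_div_pos.mpr (lt_of_lt_of_le ht2 (le_max_right s t2))
  have h2 : 0 < 1 / t1 := one_div_pos.mpr ht1
  exact max_le (by linarith) h1.le

lemma hL_bound (hL0 : 0 < L) (ht1 : 0 < t1) (ht2 : 0 < t2) (s : ℝ) :
    hL L t1 t2 s ≤ L⁻¹ * (1 / t2) :=
  (hL_le hL0 ht1 ht2 s).trans (mul_le_mul_of_nonneg_left
    (one_div_le_one_div_of_le ht2 (le_max_right s t2)) (inv_pos.mpr hL0).le)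

lemma hL_mul (hL0 : 0 < L) (ht1 : 0 < t1) (ht2 : 0 < t2) (s : ℝ) :
    hL L t1 t2 s * s ≤ 1 / L := by
  rcases le_or_gt s 0 with hs | hs
  · have h1 := mul_nonneg (hL_nonneg (t1 := t1) (t2 := t2) hL0 s) (neg_nonneg.mpr hs)
    have h2 : 0 < 1 / L := one_div_pos.mpr hL0
    nlinarith
  · have h1 := mul_le_mul_of_nonneg_right (hL_le hL0 ht1 ht2 s) hs.le
    refine h1.trans ?_
    have h2 : (1 / max s t2) * s ≤ 1 := by
      rw [one_div_mul_eq_div, div_le_one (lt_of_lt_of_le hs (le_max_left s t2))]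
      exact le_max_left s t2
    rw [mul_assoc]
    calc L⁻¹ * (1 / max s t2 * s) ≤ L⁻¹ * 1 :=
          mul_le_mul_of_nonneg_left h2 (inv_pos.mpr hL0).le
      _ = 1 / L := by rw [mul_one, one_div]

lemma hL_int (hL0 : 0 < L) (ht1 : 0 < t1) (ht2 : t2 = t1 * Real.exp (-(L + 1))) :
    1 ≤ ∫ s in Set.Ioi (0 : ℝ), hL L t1 t2 s := by
  have ht2p : 0 < t2 := by
    rw [ht2]
    positivity
  have ht21 : t2 ≤ t1 := by
    rw [ht2]
    have h1 : Real.exp (-(L + 1)) ≤ 1 := Real.exp_le_one_iff.mpr (by linarith)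
    nlinarith
  have hint : IntegrableOn (hL L t1 t2) (Set.Ioi (0 : ℝ)) := by
    have h1 : IntegrableOn (hL L t1 t2) (Set.Icc 0 t1) :=
      (hL_cont ht2p).continuousOn.integrableOn_compact isCompact_Icc
    refine h1.of_forall_sdiff_eq_zero measurableSet_Ioi ?_
    rintro s ⟨hs1, hs2⟩
    refine hL_zero ht1 ?_
    by_contra h3
    exact hs2 ⟨(Set.mem_Ioi.mp hs1).le, (not_le.mp h3).le⟩
  have hle : ∫ s in Set.Ioc t2 t1, hL L t1 t2 s ≤ ∫ s in Set.Ioi (0 : ℝ), hL L t1 t2 s := by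
    refine setIntegral_mono_set hint ?_ ?_
    · exact Filter.Eventually.of_forall fun s => hL_nonneg hL0 s
    · exact Filter.Eventually.of_forall fun s hs => lt_trans ht2p hs.1
  refine le_trans ?_ hle
  have hval : ∫ s in Set.Ioc t2 t1, hL L t1 t2 s =
      L⁻¹ * ((L + 1) - (t1 - t2) / t1) := by
    rw [← intervalIntegral.integral_of_le ht21]
    have h1 : ∫ s in t2..t1, hL L t1 t2 s = ∫ s in t2..t1, L⁻¹ * (1 / s - 1 / t1) := by
      refine intervalIntegral.integral_congr fun s hs => ?_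
      rw [Set.uIcc_of_le ht21] at hs
      have hs0 : 0 < s := lt_of_lt_of_le ht2p hs.1
      change L⁻¹ * max (1 / max s t2 - 1 / t1) 0 = L⁻¹ * (1 / s - 1 / t1)
      rw [max_eq_left hs.1, max_eq_left]
      rw [sub_nonneg]
      exact one_div_le_one_div_of_le hs0 hs.2
    have h0 : (0 : ℝ) ∉ Set.uIcc t2 t1 := by
      rw [Set.uIcc_of_le ht21]
      intro h
      exact absurd h.1 (not_le.mpr ht2p)
    rw [h1, intervalIntegral.integral_const_mul, intervalIntegral.integral_sub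
      (intervalIntegral.intervalIntegrable_one_div (fun s hs h => h0 (h ▸ hs)) continuousOn_id)
      intervalIntegrable_const, integral_one_div h0, intervalIntegral.integral_const,
      smul_eq_mul]
    have h2 : Real.log (t1 / t2) = L + 1 := by
      rw [ht2, ← div_div, div_self ht1.ne', one_div, ← Real.exp_neg, neg_neg, Real.log_exp]
    rw [h2]
    ring
  rw [hval]
  have h1 : (t1 - t2) / t1 ≤ 1 := by
    rw [div_le_one ht1]
    linarith
  have h2 : L⁻¹ * L ≤ L⁻¹ * ((L + 1) - (t1 - t2) / t1) :=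
    mul_le_mul_of_nonneg_left (by linarith) (inv_pos.mpr hL0).le
  rwa [inv_mul_cancel₀ hL0.ne'] at h2

lemma isOpen_obox (z0 : E3) (r e : ℝ) : IsOpen (obox z0 r e) := by
  have hc : ∀ i : Fin 3, Continuous fun z : E3 => |z i - z0 i| := fun i => by fun_prop
  exact ((isOpen_lt (hc 0) continuous_const).inter
    ((isOpen_lt (hc 1) continuous_const).inter (isOpen_lt (hc 2) continuous_const)))

lemma obox_subset_box (z0 : E3) (r e : ℝ) : obox z0 r e ⊆ box z0 r e :=
  fun _ hz => ⟨hz.1.le, hz.2.1.le, hz.2.2.le⟩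

lemma pt_mem {z0 : E3} {r e a b s : ℝ} (ha : a ∈ Set.Ioo (z0 0 - r) (z0 0 + r))
    (hb : b ∈ Set.Ioo (z0 1 - r) (z0 1 + r)) (hs : s ∈ Set.Ioo (z0 2 - e) (z0 2 + e)) :
    pt a b s ∈ obox z0 r e := by
  have h : ∀ x y t : ℝ, x ∈ Set.Ioo (y - t) (y + t) → |x - y| < t := fun x y t hx =>
    abs_lt.mpr ⟨by linarith [hx.1], by linarith [hx.2]⟩
  exact ⟨h _ _ _ ha, h _ _ _ hb, h _ _ _ hs⟩

lemma cint_congr {g : TensorField} {W : E3 → ℝ} {Φ : E3 → E3} {z0 : E3} {r e s : ℝ}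
    {F F' : E3 → ℝ} (hs : s ∈ Set.Ioo (z0 2 - e) (z0 2 + e))
    (h : ∀ x ∈ Φ '' obox z0 r e, F x = F' x) :
    cint g W Φ z0 r F s = cint g W Φ z0 r F' s := by
  unfold cint
  refine setIntegral_congr_fun measurableSet_Ioo fun a ha => ?_
  refine setIntegral_congr_fun measurableSet_Ioo fun b hb => ?_
  rw [h _ ⟨_, pt_mem ha hb hs, rfl⟩]

lemma cint_bound {g : TensorField} {W : E3 → ℝ} {Φ : E3 → E3} {z0 : E3} {r e s B C : ℝ}
    (hr : 0 < r) {F : E3 → ℝ} (hs : s ∈ Set.Ioo (z0 2 - e) (z0 2 + e))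
    (hF : ∀ x, |F x| ≤ B) (hJ : ∀ z ∈ obox z0 r e, |jac g W Φ z| ≤ C) :
    |cint g W Φ z0 r F s| ≤ B * C * (2 * r) * (2 * r) := by
  have hvol : ∀ y : ℝ, volume.real (Set.Ioo (y - r) (y + r)) = 2 * r := by
    intro y
    rw [Measure.real, Real.volume_Ioo, ENNReal.toReal_ofReal (by linarith)]
    ring
  have hfin : ∀ y : ℝ, volume (Set.Ioo (y - r) (y + r)) < ⊤ := fun y => by
    rw [Real.volume_Ioo]
    exact ENNReal.ofReal_lt_top
  unfold cint
  have h1 : ∀ a ∈ Set.Ioo (z0 0 - r) (z0 0 + r),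
      ‖∫ b in Set.Ioo (z0 1 - r) (z0 1 + r), F (Φ (pt a b s)) * jac g W Φ (pt a b s)‖ ≤
        B * C * (2 * r) := by
    intro a ha
    rw [← hvol (z0 1)]
    refine norm_setIntegral_le_of_norm_le_const (hfin _) fun b hb => ?_
    rw [Real.norm_eq_abs, abs_mul]
    exact mul_le_mul (hF _) (hJ _ (pt_mem ha hb hs)) (abs_nonneg _)
      ((abs_nonneg _).trans (hF (Φ (pt a b s))))
  have h2 := norm_setIntegral_le_of_norm_le_const (hfin (z0 0)) h1
  rw [hvol (z0 0), Real.norm_eq_abs] at h2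
  exact h2

/-- A function that is continuous on an open set, extended by zero. -/
lemma meas_ind {S : Set E3} (hS : IsOpen S) {f : E3 → ℝ} (hf : ContinuousOn f S) :
    Measurable (S.indicator f) := by
  classical
  have h1 := hf.measurable_piecewise (continuousOn_const (c := (0 : ℝ)) (s := Sᶜ))
    hS.measurableSet
  exact h1

end CONC

open CONC in
/-- The curvature is, up to weak divergences, a bounded multiple of functions concentrated near
the pole. -/
theorem CONC (hSMO : Stmt_SMO) (hCHX : Stmt_CHX) (hPOLE : Stmt_POLE) (hLOW : Stmt_LOW)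
    (hCL : Stmt_CL) (hCONN : Stmt_CONN) (hNULL : Stmt_NULL) : Stmt_CONC := by
  classical
  intro V a b g W hF Φ z0 r e hch hpre t1 hsep
  obtain ⟨ha, hb, -, hsubV, hopen, -, -, -, cj, Cj, hcj, hCj, hjac, -⟩ :=
    hCHX V a b g W hF Φ z0 r e hch
  have hr := hch.r_pos
  have he := hch.e_pos
  set τ : ℝ := -(r / 2) with hτ
  have hτr : |τ| < r := by
    rw [hτ, abs_neg, abs_of_pos (by linarith)]
    linarith
  set O : Set E3 := Φ '' obox z0 r e with hO
  have hOo : IsOpen O := hopen _ (isOpen_obox z0 r e) le_rfl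
  have hOV : O ⊆ V := (Set.image_mono (obox_subset_box z0 r e)).trans hsubV
  have hrp : ContinuousOn (rp g W Φ z0 τ) O :=
    (hPOLE V a b g W hF Φ z0 r e hch τ hτr).1.continuousOn
  obtain ⟨c, tL, hc, htL, hlow⟩ := hLOW V a b g W hF Φ z0 r e hch τ hτr
  have ht1 : 0 < t1 := hsep.1
  set t' : ℝ := min tL (t1 / 2) with ht'
  have ht'0 : 0 < t' := lt_min htL (by linarith)
  -- the concentrated functions
  let t2 : ℝ → ℝ := fun L => t' * Real.exp (-(L + 1))
  have ht2 : ∀ L, 0 < t2 L := fun L => mul_pos ht'0 (Real.exp_pos _)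
  let β : ℝ → E3 → ℝ := fun L => O.indicator fun x => hL L t' (t2 L) (rp g W Φ z0 τ x)
  have hβin : ∀ L, ∀ x ∈ O, β L x = hL L t' (t2 L) (rp g W Φ z0 τ x) := fun L x hx =>
    Set.indicator_of_mem hx _
  have hβout : ∀ L, ∀ x, x ∉ O → β L x = 0 := fun L x hx => Set.indicator_of_notMem hx _
  have hβ0 : ∀ L, 0 < L → ∀ x, 0 ≤ β L x := fun L hL0 x =>
    Set.indicator_nonneg (fun y _ => hL_nonneg hL0 _) x
  have hβle : ∀ L, 0 < L → ∀ x, |β L x| ≤ L⁻¹ * (1 / t2 L) := by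
    intro L hL0 x
    rw [abs_of_nonneg (hβ0 L hL0 x)]
    by_cases hx : x ∈ O
    · rw [hβin L x hx]
      exact hL_bound hL0 ht'0 (ht2 L) _
    · rw [hβout L x hx]
      exact mul_nonneg (inv_pos.mpr hL0).le (one_div_pos.mpr (ht2 L)).le
  have hβm : ∀ L, 0 < L → BddMeas (β L) := fun L hL0 =>
    ⟨meas_ind hOo ((hL_cont (ht2 L)).comp_continuousOn hrp), _, hβle L hL0⟩
  have hβc : ∀ L, 0 < L → ∀ s ∈ Set.Ioo (z0 2 - e) (z0 2 + e), c ≤ cint g W Φ z0 r (β L) s := by
    intro L hL0 s hs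
    rw [cint_congr (F' := fun x => hL L t' (t2 L) (rp g W Φ z0 τ x)) hs (hβin L)]
    refine le_trans ?_ (hlow (hL L t' (t2 L)) (hL_cont (ht2 L)) (hL_nonneg hL0)
      ((hL_anti hL0 (ht2 L)).antitoneOn _)
      (fun s hs => hL_zero ht'0 ((min_le_left _ _).trans hs)) s hs)
    have h1 := hL_int hL0 ht'0 (t2 := t2 L) rfl
    nlinarith
  have hβv : ∀ L, 0 < L → ∀ x, β L x ≠ 0 →
      x ∈ O ∧ rp g W Φ z0 τ x < t1 / 2 ∧ β L x * rp g W Φ z0 τ x ≤ 1 / L := by
    intro L hL0 x hx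
    have hxO : x ∈ O := by
      by_contra h
      exact hx (hβout L x h)
    refine ⟨hxO, ?_, ?_⟩
    · by_contra h
      apply hx
      rw [hβin L x hxO]
      exact hL_zero ht'0 ((min_le_right _ _).trans (not_lt.mp h))
    · rw [hβin L x hxO]
      exact hL_mul hL0 ht'0 (ht2 L) _
  -- the curvature
  have hsl : IsOpen (slab V W (z0 2 - e) (z0 2 + e)) := isOpen_slab hF _ _
  have hcurv : ContinuousOn (curv g W) V := by
    intro x hx
    obtain ⟨_, _, _, _, _, _, _, _, _, _, _, h12, _⟩ := hSMO.2 g W x (hSMO.1 V a b g W hF x hx)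
    exact h12.continuousAt.continuousWithinAt
  have hKm : BddMeas (Set.indicator (slab V W (z0 2 - e) (z0 2 + e)) (curv g W)) := by
    refine ⟨meas_ind hsl (hcurv.mono (slab_subset _ _)), ?_⟩
    obtain ⟨B, hB⟩ := (hF.proper _ _ ha hb).exists_bound_of_continuousOn
      (hcurv.mono (cslab_subset _ _))
    refine ⟨max B 0, fun x => ?_⟩
    by_cases hx : x ∈ slab V W (z0 2 - e) (z0 2 + e)
    · rw [Set.indicator_of_mem hx]
      exact (hB x (slab_subset_cslab _ _ hx)).trans (le_max_left _ _)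
    · rw [Set.indicator_of_notMem hx, abs_zero]
      exact le_max_right _ _
  -- the leaf is connected
  obtain ⟨e1, he1, he1e, hconn⟩ := hCONN V a b g W hF Φ z0 r e hch hpre (β 1) c
    (hβm 1 one_pos) (hβout 1) (hβ0 1 one_pos) hc (hβc 1 one_pos)
  obtain ⟨γK, ⟨hγKm, BK, hγKb⟩, hnK⟩ := hconn _ hKm
  -- bound for the chart integral of `β 1`
  have hjb : ∀ z ∈ obox z0 r e, |jac g W Φ z| ≤ Cj := by
    intro z hz
    have h1 := hjac z (obox_subset_box z0 r e hz)
    rw [abs_of_nonneg (hcj.le.trans h1.1)]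
    exact h1.2.1
  set M : ℝ := (1 : ℝ)⁻¹ * (1 / t2 1) * Cj * (2 * r) * (2 * r) with hM
  have hM0 : 0 ≤ M := by
    have := ht2 1
    positivity
  have hBK : 0 ≤ BK := (abs_nonneg _).trans (hγKb 0)
  refine ⟨e1, BK * (M / c) + 1, he1, he1e, by positivity, fun L hL0 => ?_⟩
  obtain ⟨γL, hγLm, hγLb, hnL⟩ := hCL V a b g W hF Φ z0 r e hch (β 1) (β L) c M
    (hβm 1 one_pos) (hβm L hL0) (fun x hx => ⟨hβout 1 x hx, hβout L x hx⟩) (hβ0 L hL0) hc hM0
    (hβc L hL0) (fun s hs => cint_bound hr hs (hβle 1 one_pos) hjb)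
  refine ⟨β L, fun s => γK s * γL s, hβm L hL0, hβ0 L hL0, hγKm.mul hγLm, ?_, hβv L hL0, ?_⟩
  · intro s
    rw [abs_mul]
    have h1 := mul_le_mul (hγKb s) (hγLb s) (abs_nonneg _) hBK
    linarith
  -- combination of the two relations
  obtain ⟨hadd, -, -, -⟩ := hNULL V a b g W hF (z0 2) e1 he1 (by linarith) (by linarith)
  obtain ⟨-, hmul, -, -⟩ := hNULL V a b g W hF (z0 2) e1 he1 (by linarith) (by linarith)
  obtain ⟨-, -, hres, -⟩ := hNULL V a b g W hF (z0 2) e he ha hb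
  have hWm : Measurable (O.indicator W) := meas_ind hOo (hF.continuousOn.mono hOV)
  have hprod : ∀ (γ : ℝ → ℝ) (B : ℝ), Measurable γ → (∀ s, |γ s| ≤ B) → 0 ≤ B → ∀ L', 0 < L' →
      BddMeas (fun x => γ (W x) * β L' x) := by
    intro γ B hγ hγB hB0 L' hL'
    constructor
    · have h1 : (fun x => γ (W x) * β L' x) = fun x => γ (O.indicator W x) * β L' x := by
        funext x
        by_cases hx : x ∈ O
        · rw [Set.indicator_of_mem hx]
        · rw [hβout L' x hx, mul_zero, mul_zero]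
      rw [h1]
      exact (hγ.comp hWm).mul (hβm L' hL').1
    · refine ⟨B * (L'⁻¹ * (1 / t2 L')), fun x => ?_⟩
      rw [abs_mul]
      exact mul_le_mul (hγB _) (hβle L' hL' x) (abs_nonneg _) hB0
  have hsub : ∀ f1 f2 : E3 → ℝ, BddMeas f1 → BddMeas f2 → BddMeas (fun x => f1 x - f2 x) := by
    rintro f1 f2 ⟨h1, B1, h1'⟩ ⟨h2, B2, h2'⟩
    refine ⟨h1.sub h2, B1 + B2, fun x => ?_⟩
    exact (abs_sub _ _).trans (add_le_add (h1' x) (h2' x))
  have hMc : 0 ≤ M / c := div_nonneg hM0 hc.le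
  have b1 := hprod γK BK hγKm hγKb hBK 1 one_pos
  have b2 := hprod γL (M / c) hγLm hγLb hMc L hL0
  have b3 := hsub _ _ hKm b1
  have b4 := hsub _ _ (hβm 1 one_pos) b2
  have n1 := hres _ e1 b4 he1 he1e hnL
  have n2 := hmul _ γK b4 ⟨hγKm, BK, hγKb⟩ n1
  have b5 : BddMeas (fun x => γK (W x) * (β 1 x - γL (W x) * β L x)) := by
    constructor
    · have h1 : (fun x => γK (W x) * (β 1 x - γL (W x) * β L x)) =
          fun x => γK (O.indicator W x) * (β 1 x - γL (W x) * β L x) := by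
        funext x
        by_cases hx : x ∈ O
        · rw [Set.indicator_of_mem hx]
        · rw [hβout 1 x hx, hβout L x hx, mul_zero, sub_zero, mul_zero, mul_zero]
      rw [h1]
      exact (hγKm.comp hWm).mul b4.1
    · obtain ⟨B4, hB4⟩ := b4.2
      refine ⟨BK * B4, fun x => ?_⟩
      rw [abs_mul]
      exact mul_le_mul (hγKb _) (hB4 x) (abs_nonneg _) hBK
  have n3 := hadd _ _ b3 b5 hnK n2
  have hfin : (fun x => Set.indicator (slab V W (z0 2 - e) (z0 2 + e)) (curv g W) x -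
      γK (W x) * β 1 x + γK (W x) * (β 1 x - γL (W x) * β L x)) =
      fun x => Set.indicator (slab V W (z0 2 - e) (z0 2 + e)) (curv g W) x -
        γK (W x) * γL (W x) * β L x := by
    funext x
    ring
  rw [hfin] at n3
  exact n3

end Pool.Agent.PFlow.GB
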