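import Pool.Agent.PFlow.G.Base

/-!
# Module CONN: connectedness of the leaf
-/

open MeasureTheory Filter Topology
open scoped ContDiff

namespace Pool.Agent.PFlow.GB

open Pool.Agent.PenroseSph Pool.Agent.PFlow

namespace ConnAux

variable {V : Set E3} {a b : ℝ} {g : TensorField} {W : E3 → ℝ}

lemma nullOn_congr (h : Fol V a b g W) {s0 e : ℝ} {ρ ρ' : E3 → ℝ}
    (hρ : ∀ x ∈ slab V W (s0 - e) (s0 + e), ρ x = ρ' x) (hN : NullOn V g W s0 e ρ) :
    NullOn V g W s0 e ρ' := by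
  obtain ⟨C, hC, hN⟩ := hN
  refine ⟨C, hC, fun α hα v hv => ?_⟩
  have h1 : ∫ x in slab V W (s0 - e) (s0 + e), ρ' x * α (W x) * v x * dens g W x
      = ∫ x in slab V W (s0 - e) (s0 + e), ρ x * α (W x) * v x * dens g W x :=
    setIntegral_congr_fun (measurableSet_slab h _ _) fun x hx => by
      simp only [hρ x hx]
  rw [h1]
  exact hN α hα v hv

lemma measurable_indW (h : Fol V a b g W) : Measurable (V.indicator W) := by
  classical
  rw [← Set.piecewise_eq_indicator]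
  exact ContinuousOn.measurable_piecewise h.continuousOn continuousOn_const
    h.isOpen.measurableSet

lemma bddMeas_mul (h : Fol V a b g W) {β : E3 → ℝ} (hβ : BddMeas β)
    (h0 : ∀ x, x ∉ V → β x = 0) {γ : ℝ → ℝ} (hγ : BddMeasR γ) :
    BddMeas (fun x => γ (W x) * β x) := by
  obtain ⟨hβm, B, hB⟩ := hβ
  obtain ⟨hγm, G, hG⟩ := hγ
  constructor
  · have h1 : (fun x => γ (W x) * β x) = fun x => γ (V.indicator W x) * β x := by
      funext x
      by_cases hx : x ∈ V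
      · rw [Set.indicator_of_mem hx]
      · rw [h0 x hx]; simp
    rw [h1]
    exact (hγm.comp (measurable_indW h)).mul hβm
  · refine ⟨G * B, fun x => ?_⟩
    rw [abs_mul]
    exact mul_le_mul (hG _) (hB x) (abs_nonneg _) ((abs_nonneg _).trans (hG 0))

lemma bddMeas_sub {ρ ρ' : E3 → ℝ} (hρ : BddMeas ρ) (hρ' : BddMeas ρ') :
    BddMeas (fun x => ρ x - ρ' x) := by
  obtain ⟨h1, B, hB⟩ := hρ
  obtain ⟨h2, B', hB'⟩ := hρ'
  exact ⟨h1.sub h2, B + B', fun x => (abs_sub _ _).trans (add_le_add (hB x) (hB' x))⟩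

lemma bddMeas_indicator {ρ : E3 → ℝ} (hρ : BddMeas ρ) {S : Set E3} (hS : MeasurableSet S) :
    BddMeas (S.indicator ρ) := by
  obtain ⟨h1, B, hB⟩ := hρ
  refine ⟨h1.indicator hS, B, fun x => ?_⟩
  by_cases hx : x ∈ S
  · rw [Set.indicator_of_mem hx]; exact hB x
  · rw [Set.indicator_of_notMem hx, abs_zero]; exact (abs_nonneg _).trans (hB x)

lemma bddMeasR_mul {γ γ' : ℝ → ℝ} (h1 : BddMeasR γ) (h2 : BddMeasR γ') :
    BddMeasR (fun s => γ s * γ' s) := by
  obtain ⟨h1, B, hB⟩ := h1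
  obtain ⟨h2, B', hB'⟩ := h2
  refine ⟨h1.mul h2, B * B', fun x => ?_⟩
  rw [abs_mul]
  exact mul_le_mul (hB x) (hB' x) (abs_nonneg _) ((abs_nonneg _).trans (hB x))

lemma bddMeasR_add {γ γ' : ℝ → ℝ} (h1 : BddMeasR γ) (h2 : BddMeasR γ') :
    BddMeasR (fun s => γ s + γ' s) := by
  obtain ⟨h1, B, hB⟩ := h1
  obtain ⟨h2, B', hB'⟩ := h2
  exact ⟨h1.add h2, B + B', fun x => (abs_add_le _ _).trans (add_le_add (hB x) (hB' x))⟩

/-- The property of the open sets `O` in the continuation argument. -/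
def Prp (V : Set E3) (g : TensorField) (W β : E3 → ℝ) (s0 e' : ℝ) (O : Set E3) : Prop :=
  ∀ ρ : E3 → ℝ, BddMeas ρ → (∀ y, y ∉ O → ρ y = 0) →
    ∃ γ : ℝ → ℝ, BddMeasR γ ∧ NullOn V g W s0 e' (fun x => ρ x - γ (W x) * β x)

lemma prp_mono (h : Fol V a b g W) (hNULL : Stmt_NULL) {β : E3 → ℝ} (hβ : BddMeas β)
    (h0 : ∀ x, x ∉ V → β x = 0) {s0 e' e'' : ℝ} (ha : a < s0 - e') (hb : s0 + e' < b)
    (he : 0 < e'') (hee : e'' ≤ e') {O : Set E3} (hP : Prp V g W β s0 e' O) :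
    Prp V g W β s0 e'' O := by
  intro ρ hρ hO
  obtain ⟨γ, hγ, hN⟩ := hP ρ hρ hO
  refine ⟨γ, hγ, ?_⟩
  exact (hNULL V a b g W h s0 e' (he.trans_le hee) ha hb).2.2.1 _ e''
    (bddMeas_sub hρ (bddMeas_mul h hβ h0 hγ)) he hee hN

lemma prp_union (h : Fol V a b g W) (hNULL : Stmt_NULL) {β : E3 → ℝ} (hβ : BddMeas β)
    (h0 : ∀ x, x ∉ V → β x = 0) {s0 e' : ℝ} (ha : a < s0 - e') (hb : s0 + e' < b)
    (he : 0 < e') {O O' : Set E3} (hOo : IsOpen O) (hP : Prp V g W β s0 e' O)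
    (hP' : Prp V g W β s0 e' O') : Prp V g W β s0 e' (O ∪ O') := by
  intro ρ hρ hO
  have hm : MeasurableSet O := hOo.measurableSet
  have hρ1 : BddMeas (O.indicator ρ) := bddMeas_indicator hρ hm
  have hρ2 : BddMeas (Oᶜ.indicator ρ) := bddMeas_indicator hρ hm.compl
  obtain ⟨γ, hγ, hN⟩ := hP _ hρ1 (fun y hy => Set.indicator_of_notMem hy _)
  obtain ⟨γ', hγ', hN'⟩ := hP' _ hρ2 (fun y hy => by
    by_cases hyO : y ∈ O
    · exact Set.indicator_of_notMem (by simpa using hyO) _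
    · rw [Set.indicator_of_mem (by simpa using hyO)]
      exact hO y (by simp [hy, hyO]))
  refine ⟨fun s => γ s + γ' s, bddMeasR_add hγ hγ', ?_⟩
  have h3 := (hNULL V a b g W h s0 e' he ha hb).1 _ _
    (bddMeas_sub hρ1 (bddMeas_mul h hβ h0 hγ)) (bddMeas_sub hρ2 (bddMeas_mul h hβ h0 hγ')) hN hN'
  refine nullOn_congr h (fun x _ => ?_) h3
  by_cases hx : x ∈ O
  · rw [Set.indicator_of_mem hx, Set.indicator_of_notMem (by simpa using hx)]; ring
  · rw [Set.indicator_of_notMem hx, Set.indicator_of_mem (by simpa using hx)]; ring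

lemma prp_empty {β : E3 → ℝ} {s0 e' : ℝ} : Prp V g W β s0 e' ∅ := by
  intro ρ _ hO
  refine ⟨fun _ => 0, ⟨measurable_const, 0, fun s => by simp⟩, 0, le_rfl, fun α _ v _ => ?_⟩
  have h1 : ∀ x, ρ x = 0 := fun x => hO x (by simp)
  simp [h1]

/-! ### Boxes -/

lemma isOpen_obox (z0 : E3) (r e : ℝ) : IsOpen (obox z0 r e) := by
  have hc : ∀ i : Fin 3, Continuous (fun z : E3 => |z i - z0 i|) := by
    intro i
    fun_prop
  exact (isOpen_lt (hc 0) continuous_const).inter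
    ((isOpen_lt (hc 1) continuous_const).inter (isOpen_lt (hc 2) continuous_const))

lemma obox_subset_box (z0 : E3) (r e : ℝ) : obox z0 r e ⊆ box z0 r e :=
  fun _ hz => ⟨hz.1.le, hz.2.1.le, hz.2.2.le⟩

lemma box_mono {z0 : E3} {r e e' : ℝ} (he : e' ≤ e) : box z0 r e' ⊆ box z0 r e :=
  fun _ hz => ⟨hz.1, hz.2.1, hz.2.2.trans he⟩

lemma chart_mono {Φ : E3 → E3} {z0 : E3} {r e e' : ℝ} (hc : Chart V W Φ z0 r e) (he' : 0 < e')
    (he : e' ≤ e) : Chart V W Φ z0 r e' := by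
  refine ⟨hc.r_pos, he', ?_⟩
  obtain ⟨N, h1, h2, h3⟩ := hc.nbhd
  exact ⟨N, h1, (box_mono he).trans h2, h3⟩

lemma pt_mem_obox {z0 : E3} {r e x y s : ℝ} (hx : x ∈ Set.Ioo (z0 0 - r) (z0 0 + r))
    (hy : y ∈ Set.Ioo (z0 1 - r) (z0 1 + r)) (hs : s ∈ Set.Ioo (z0 2 - e) (z0 2 + e)) :
    pt x y s ∈ obox z0 r e := by
  have h0 : (pt x y s) 0 = x := by simp [pt]
  have h1 : (pt x y s) 1 = y := by simp [pt]
  have h2 : (pt x y s) 2 = s := by simp [pt]
  refine ⟨?_, ?_, ?_⟩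
  · rw [h0, abs_lt]; exact ⟨by linarith [hx.1], by linarith [hx.2]⟩
  · rw [h1, abs_lt]; exact ⟨by linarith [hy.1], by linarith [hy.2]⟩
  · rw [h2, abs_lt]; exact ⟨by linarith [hs.1], by linarith [hs.2]⟩

/-- Upper bound for the leaf integrals in a chart. -/
lemma cint_bound (h : Fol V a b g W) (hCHX : Stmt_CHX) {Φ : E3 → E3} {z0 : E3} {r e : ℝ}
    (hc : Chart V W Φ z0 r e) {ρ : E3 → ℝ} (hρ : BddMeas ρ) :
    ∃ M : ℝ, 0 ≤ M ∧ ∀ s ∈ Set.Ioo (z0 2 - e) (z0 2 + e), |cint g W Φ z0 r ρ s| ≤ M := by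
  obtain ⟨-, B, hB⟩ := hρ
  obtain ⟨-, -, -, -, -, -, -, -, c, C, hc0, hC0, hjac, -⟩ := hCHX V a b g W h Φ z0 r e hc
  have hB0 : 0 ≤ B := (abs_nonneg _).trans (hB 0)
  have hr := hc.r_pos
  refine ⟨B * C * (2 * r) * (2 * r), by positivity, fun s hs => ?_⟩
  have hvol : ∀ t : ℝ, (volume : Measure ℝ).real (Set.Ioo (t - r) (t + r)) = 2 * r := by
    intro t
    rw [Measure.real, Real.volume_Ioo, ENNReal.toReal_ofReal (by linarith)]
    ring
  have hfin : ∀ t : ℝ, (volume : Measure ℝ) (Set.Ioo (t - r) (t + r)) < ⊤ := by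
    intro t
    rw [Real.volume_Ioo]
    exact ENNReal.ofReal_lt_top
  unfold cint
  rw [← Real.norm_eq_abs]
  refine (norm_setIntegral_le_of_norm_le_const (C := B * C * (2 * r)) (hfin _) ?_).trans
    (le_of_eq ?_)
  · intro x hx
    refine (norm_setIntegral_le_of_norm_le_const (C := B * C) (hfin _) ?_).trans (le_of_eq ?_)
    · intro y hy
      have hz := obox_subset_box _ _ _ (pt_mem_obox hx hy hs)
      obtain ⟨h1, h2, -⟩ := hjac _ hz
      rw [norm_mul, Real.norm_eq_abs, Real.norm_eq_abs, abs_of_pos (hc0.trans_le h1)]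
      exact mul_le_mul (hB _) h2 (hc0.le.trans h1) hB0
    · rw [hvol]
  · rw [hvol]

/-! ### The lower bound for the leaf integrals of a small box -/

lemma continuous_pt (s : ℝ) : Continuous (fun p : ℝ × ℝ => pt p.1 p.2 s) := by
  unfold pt
  refine (PiLp.continuous_toLp 2 (fun _ : Fin 3 => ℝ)).comp (continuous_pi fun i => ?_)
  fin_cases i
  · exact continuous_fst
  · exact continuous_snd
  · exact continuous_const

lemma cint_lower (h : Fol V a b g W) (hCHX : Stmt_CHX) {Φ : E3 → E3} {z0 : E3} {r e : ℝ}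
    (hc : Chart V W Φ z0 r e) {z' : E3} {δ : ℝ} (hδ : 0 < δ)
    (h0 : |z' 0 - z0 0| + δ ≤ r) (h1 : |z' 1 - z0 1| + δ ≤ r) (h2 : z' 2 = z0 2) :
    ∃ b0 : ℝ, 0 < b0 ∧ ∀ s ∈ Set.Ioo (z0 2 - e) (z0 2 + e),
      b0 ≤ cint g W Φ z0 r ((Φ '' obox z' δ e).indicator fun _ => 1) s := by
  obtain ⟨-, -, -, -, -, -, -, hcont, c, C, hc0, hC0, hjac, -⟩ := hCHX V a b g W h Φ z0 r e hc
  obtain ⟨N, hNo, hbN, -, hinj, -, -, -⟩ := hc.nbhd
  refine ⟨c * ((2 * δ) * (2 * δ)), by positivity, fun s hs => ?_⟩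
  set I : Set ℝ := Set.Ioo (z0 0 - r) (z0 0 + r) with hI
  set J : Set ℝ := Set.Ioo (z0 1 - r) (z0 1 + r) with hJ
  set P : Set ℝ := Set.Ioo (z' 0 - δ) (z' 0 + δ) with hP
  set Q : Set ℝ := Set.Ioo (z' 1 - δ) (z' 1 + δ) with hQ
  have hPI : P ⊆ I := by
    intro x hx
    have := abs_le.mp (le_refl |z' 0 - z0 0|)
    exact ⟨by linarith [hx.1, this.1], by linarith [hx.2, this.2]⟩
  have hQJ : Q ⊆ J := by
    intro x hx
    have := abs_le.mp (le_refl |z' 1 - z0 1|)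
    exact ⟨by linarith [hx.1, this.1], by linarith [hx.2, this.2]⟩
  have hsub : obox z' δ e ⊆ obox z0 r e := by
    intro z hz
    refine ⟨?_, ?_, ?_⟩
    · have := abs_add_le (z 0 - z' 0) (z' 0 - z0 0)
      rw [sub_add_sub_cancel] at this
      linarith [hz.1]
    · have := abs_add_le (z 1 - z' 1) (z' 1 - z0 1)
      rw [sub_add_sub_cancel] at this
      linarith [hz.2.1]
    · rw [← h2]; exact hz.2.2
  have e0 : ∀ x y : ℝ, (pt x y s) 0 = x := fun x y => by simp [pt]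
  have e1 : ∀ x y : ℝ, (pt x y s) 1 = y := fun x y => by simp [pt]
  have e2 : ∀ x y : ℝ, (pt x y s) 2 = s := fun x y => by simp [pt]
  have hmem : ∀ x ∈ I, ∀ y ∈ J, (Φ (pt x y s) ∈ Φ '' obox z' δ e ↔ x ∈ P ∧ y ∈ Q) := by
    intro x hx y hy
    have hz := obox_subset_box _ _ _ (pt_mem_obox (e := e) hx hy hs)
    constructor
    · rintro ⟨w, hw, hwe⟩
      have hw' := obox_subset_box _ _ _ (hsub hw)
      have : w = pt x y s := hinj (hbN hw') (hbN hz) hwe
      rw [this] at hw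
      have q0 := abs_lt.mp hw.1
      have q1 := abs_lt.mp hw.2.1
      rw [e0] at q0
      rw [e1] at q1
      exact ⟨⟨by linarith [q0.1], by linarith [q0.2]⟩, ⟨by linarith [q1.1], by linarith [q1.2]⟩⟩
    · rintro ⟨hxP, hyQ⟩
      exact ⟨_, pt_mem_obox hxP hyQ (by rw [h2]; exact hs), rfl⟩
  have hstep1 : cint g W Φ z0 r ((Φ '' obox z' δ e).indicator fun _ => 1) s
      = ∫ x in P, ∫ y in Q, jac g W Φ (pt x y s) := by
    unfold cint
    have k1 : ∀ x ∈ I, ∫ y in J, (Φ '' obox z' δ e).indicator (fun _ => (1 : ℝ)) (Φ (pt x y s))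
          * jac g W Φ (pt x y s)
        = P.indicator (fun x => ∫ y in Q, jac g W Φ (pt x y s)) x := by
      intro x hx
      by_cases hxP : x ∈ P
      · rw [Set.indicator_of_mem hxP]
        have k2 : ∫ y in J, (Φ '' obox z' δ e).indicator (fun _ => (1 : ℝ)) (Φ (pt x y s))
              * jac g W Φ (pt x y s)
            = ∫ y in J, Q.indicator (fun y => jac g W Φ (pt x y s)) y := by
          refine setIntegral_congr_fun measurableSet_Ioo fun y hy => ?_
          by_cases hyQ : y ∈ Q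
          · rw [Set.indicator_of_mem hyQ, Set.indicator_of_mem ((hmem x hx y hy).2 ⟨hxP, hyQ⟩),
              one_mul]
          · rw [Set.indicator_of_notMem hyQ, Set.indicator_of_notMem
              (fun hm => hyQ ((hmem x hx y hy).1 hm).2), zero_mul]
        rw [k2, setIntegral_indicator measurableSet_Ioo, Set.inter_eq_self_of_subset_right hQJ]
      · rw [Set.indicator_of_notMem hxP]
        have k2 : ∫ y in J, (Φ '' obox z' δ e).indicator (fun _ => (1 : ℝ)) (Φ (pt x y s))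
              * jac g W Φ (pt x y s) = ∫ y in J, (0 : ℝ) := by
          refine setIntegral_congr_fun measurableSet_Ioo fun y hy => ?_
          rw [Set.indicator_of_notMem
              (fun hm => hxP ((hmem x hx y hy).1 hm).1), zero_mul]
        rw [k2]
        simp
    rw [setIntegral_congr_fun measurableSet_Ioo k1, setIntegral_indicator measurableSet_Ioo,
      Set.inter_eq_self_of_subset_right hPI]
  have hcontQ : ContinuousOn (fun p : ℝ × ℝ => jac g W Φ (pt p.1 p.2 s))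
      (Set.Icc (z0 0 - r) (z0 0 + r) ×ˢ Set.Icc (z0 1 - r) (z0 1 + r)) := by
    refine hcont.comp (continuous_pt s).continuousOn ?_
    intro p hp
    refine ⟨?_, ?_, ?_⟩
    · rw [e0, abs_le]; exact ⟨by linarith [hp.1.1], by linarith [hp.1.2]⟩
    · rw [e1, abs_le]; exact ⟨by linarith [hp.2.1], by linarith [hp.2.2]⟩
    · rw [e2, abs_le]; exact ⟨by linarith [hs.1], by linarith [hs.2]⟩
  have hint : IntegrableOn (fun p : ℝ × ℝ => jac g W Φ (pt p.1 p.2 s)) (P ×ˢ Q)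
      ((volume : Measure ℝ).prod volume) := by
    refine (hcontQ.integrableOn_compact (isCompact_Icc.prod isCompact_Icc)).mono_set ?_
    exact Set.prod_mono (hPI.trans Set.Ioo_subset_Icc_self) (hQJ.trans Set.Ioo_subset_Icc_self)
  rw [hstep1, ← setIntegral_prod (fun p : ℝ × ℝ => jac g W Φ (pt p.1 p.2 s)) hint]
  have hvol : ((volume : Measure ℝ).prod volume).real (P ×ˢ Q) = (2 * δ) * (2 * δ) := by
    rw [Measure.real, Measure.prod_prod, ENNReal.toReal_mul, hP, hQ, Real.volume_Ioo,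
      Real.volume_Ioo, ENNReal.toReal_ofReal (by linarith), ENNReal.toReal_ofReal (by linarith)]
    ring
  have hvol' : ((volume : Measure ℝ).prod volume) (P ×ˢ Q) ≠ ⊤ := by
    rw [Measure.prod_prod, hP, hQ, Real.volume_Ioo, Real.volume_Ioo]
    exact ENNReal.mul_ne_top ENNReal.ofReal_ne_top ENNReal.ofReal_ne_top
  have hge := setIntegral_mono_on (μ := (volume : Measure ℝ).prod volume)
    (s := P ×ˢ Q) (f := fun _ => c) (g := fun p : ℝ × ℝ => jac g W Φ (pt p.1 p.2 s))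
    (integrableOn_const hvol') hint (measurableSet_Ioo.prod measurableSet_Ioo) ?_
  · rw [setIntegral_const, hvol, smul_eq_mul, mul_comm] at hge
    exact hge
  · intro p hp
    exact (hjac _ (obox_subset_box _ _ _ (pt_mem_obox (hPI hp.1) (hQJ hp.2) hs))).1

/-! ### The continuation argument -/

/-- The point `x` has an open neighbourhood with the property `Prp`. -/
def Good (V : Set E3) (g : TensorField) (W β : E3 → ℝ) (s0 e : ℝ) (x : E3) : Prop :=
  ∃ O : Set E3, IsOpen O ∧ x ∈ O ∧ ∃ e' : ℝ, 0 < e' ∧ e' ≤ e ∧ Prp V g W β s0 e' O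

/-- Transfer: in a chart at `x`, one good point of the leaf makes `x` good. -/
lemma good_transfer (h : Fol V a b g W) (hCHX : Stmt_CHX) (hCL : Stmt_CL) (hNULL : Stmt_NULL)
    {β : E3 → ℝ} (hβ : BddMeas β) (h0 : ∀ x, x ∉ V → β x = 0) {s0 e : ℝ}
    (ha : a < s0 - e) (hb : s0 + e < b)
    {Φ : E3 → E3} {z0 : E3} {r ex : ℝ} (hc : Chart V W Φ z0 r ex) (hz0 : z0 2 = s0)
    {x' : E3} (hx'W : W x' = s0) (hx'Φ : x' ∈ Φ '' obox z0 r ex)
    (hgood : Good V g W β s0 e x') : Good V g W β s0 e (Φ z0) := by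
  obtain ⟨O', hO', hx'O, e', he', hee, hP⟩ := hgood
  obtain ⟨z', hz', rfl⟩ := hx'Φ
  obtain ⟨N, hNo, hbN, hsm, hinj, hmaps, -, hW⟩ := hc.nbhd
  have hz'N : z' ∈ N := hbN (obox_subset_box _ _ _ hz')
  have hz'2 : z' 2 = s0 := by rw [← hW z' hz'N]; exact hx'W
  -- a neighbourhood of `z'` which is mapped into `O'`
  have hcontAt : ContinuousAt Φ z' := hsm.continuousOn.continuousAt (hNo.mem_nhds hz'N)
  have hpre : Φ ⁻¹' O' ∈ 𝓝 z' := hcontAt.preimage_mem_nhds (hO'.mem_nhds hx'O)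
  obtain ⟨t, ht, hball⟩ := Metric.mem_nhds_iff.mp hpre
  have hr := hc.r_pos
  have hex := hc.e_pos
  -- the sizes
  set δ : ℝ := min (t / 2) (min (r - |z' 0 - z0 0|) (r - |z' 1 - z0 1|)) with hδdef
  have hδ : 0 < δ := by
    refine lt_min (by linarith) (lt_min ?_ ?_)
    · linarith [hz'.1]
    · linarith [hz'.2.1]
  have hδ1 : δ ≤ t / 2 := min_le_left _ _
  have hδ2 : δ ≤ r - |z' 0 - z0 0| := (min_le_right _ _).trans (min_le_left _ _)
  have hδ3 : δ ≤ r - |z' 1 - z0 1| := (min_le_right _ _).trans (min_le_right _ _)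
  set ε : ℝ := min (t / 2) (min ex e') with hεdef
  have hε : 0 < ε := lt_min (by linarith) (lt_min hex he')
  have hε1 : ε ≤ t / 2 := min_le_left _ _
  have hε2 : ε ≤ ex := (min_le_right _ _).trans (min_le_left _ _)
  have hε3 : ε ≤ e' := (min_le_right _ _).trans (min_le_right _ _)
  have hc' : Chart V W Φ z0 r ε := chart_mono hc hε hε2
  -- the small box is mapped into `O'`
  have hsmall : Φ '' obox z' δ ε ⊆ O' := by
    rintro _ ⟨w, hw, rfl⟩
    refine hball ?_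
    rw [Metric.mem_ball, EuclideanSpace.dist_eq, Real.sqrt_lt' ht, Fin.sum_univ_three]
    have q0 : dist (w 0) (z' 0) ^ 2 ≤ (t / 2) ^ 2 :=
      pow_le_pow_left₀ dist_nonneg (by rw [Real.dist_eq]; linarith [hw.1]) 2
    have q1 : dist (w 1) (z' 1) ^ 2 ≤ (t / 2) ^ 2 :=
      pow_le_pow_left₀ dist_nonneg (by rw [Real.dist_eq]; linarith [hw.2.1]) 2
    have q2 : dist (w 2) (z' 2) ^ 2 ≤ (t / 2) ^ 2 :=
      pow_le_pow_left₀ dist_nonneg (by rw [Real.dist_eq]; linarith [hw.2.2]) 2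
    nlinarith
  have hsubbox : obox z' δ ε ⊆ obox z0 r ε := by
    intro z hz
    refine ⟨?_, ?_, ?_⟩
    · have := abs_add_le (z 0 - z' 0) (z' 0 - z0 0)
      rw [sub_add_sub_cancel] at this
      linarith [hz.1]
    · have := abs_add_le (z 1 - z' 1) (z' 1 - z0 1)
      rw [sub_add_sub_cancel] at this
      linarith [hz.2.1]
    · rw [hz0, ← hz'2]; exact hz.2.2
  obtain ⟨-, -, -, hΦV, hopen, -⟩ := hCHX V a b g W h Φ z0 r ε hc'
  have hΦV' : Φ '' obox z0 r ε ⊆ V := (Set.image_mono (obox_subset_box _ _ _)).trans hΦV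
  have hO : IsOpen (Φ '' obox z0 r ε) := hopen _ (isOpen_obox _ _ _) le_rfl
  have hB : IsOpen (Φ '' obox z' δ ε) := hopen _ (isOpen_obox _ _ _) hsubbox
  -- the density of the transfer
  set β' : E3 → ℝ := (Φ '' obox z' δ ε).indicator fun _ => 1 with hβ'
  have hβ'b : BddMeas β' := by
    refine ⟨measurable_const.indicator hB.measurableSet, 1, fun x => ?_⟩
    by_cases hx : x ∈ Φ '' obox z' δ ε
    · rw [hβ', Set.indicator_of_mem hx]; simp
    · rw [hβ', Set.indicator_of_notMem hx]; simp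
  have hβ'nn : ∀ x, 0 ≤ β' x := fun x => Set.indicator_nonneg (fun _ _ => zero_le_one) x
  have hβ'off : ∀ x, x ∉ Φ '' obox z0 r ε → β' x = 0 := fun x hx =>
    Set.indicator_of_notMem (fun hm => hx (Set.image_mono hsubbox hm)) _
  have hβ'V : ∀ x, x ∉ V → β' x = 0 := fun x hx => hβ'off x fun hm => hx (hΦV' hm)
  have hβ'O : ∀ x, x ∉ O' → β' x = 0 := fun x hx =>
    Set.indicator_of_notMem (fun hm => hx (hsmall hm)) _
  obtain ⟨b1, hb1, hlow⟩ := cint_lower h hCHX hc' hδ (by linarith) (by linarith)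
    (hz'2.trans hz0.symm)
  obtain ⟨γ', hγ', hN'⟩ := hP β' hβ'b hβ'O
  refine ⟨Φ '' obox z0 r ε, hO, ⟨z0, ⟨by simp [hr], by simp [hr], by simp [hε]⟩, rfl⟩, ε, hε,
    hε3.trans hee, ?_⟩
  intro ρ hρ hoff
  obtain ⟨M, hM, hMb⟩ := cint_bound h hCHX hc' hρ
  obtain ⟨γ, hγm, hγb, hN⟩ := hCL V a b g W h Φ z0 r ε hc' ρ β' b1 M hρ hβ'b
    (fun x hx => ⟨hoff x hx, hβ'off x hx⟩) hβ'nn hb1 hM hlow hMb
  rw [hz0] at hN
  have hγ : BddMeasR γ := ⟨hγm, _, hγb⟩
  have ha' : a < s0 - e' := by linarith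
  have hb' : s0 + e' < b := by linarith
  have ha'' : a < s0 - ε := by linarith
  have hb'' : s0 + ε < b := by linarith
  have m1 : BddMeas (fun x => β' x - γ' (W x) * β x) :=
    bddMeas_sub hβ'b (bddMeas_mul h hβ h0 hγ')
  have n1 : NullOn V g W s0 ε (fun x => β' x - γ' (W x) * β x) :=
    (hNULL V a b g W h s0 e' he' ha' hb').2.2.1 _ ε m1 hε hε3 hN'
  have n2 : NullOn V g W s0 ε (fun x => γ (W x) * (β' x - γ' (W x) * β x)) :=
    (hNULL V a b g W h s0 ε hε ha'' hb'').2.1 _ γ m1 hγ n1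
  have m2 : BddMeas (fun x => γ (W x) * (β' x - γ' (W x) * β x)) := by
    refine bddMeas_mul h m1 (fun x hx => ?_) hγ
    rw [hβ'V x hx, h0 x hx]; ring
  have m3 : BddMeas (fun x => ρ x - γ (W x) * β' x) :=
    bddMeas_sub hρ (bddMeas_mul h hβ'b hβ'V hγ)
  have n3 := (hNULL V a b g W h s0 ε hε ha'' hb'').1 _ _ m3 m2 hN n2
  refine ⟨fun s => γ s * γ' s, bddMeasR_mul hγ hγ', nullOn_congr h (fun x _ => ?_) n3⟩
  ring

end ConnAux

open ConnAux

theorem CONN (hCHART : Stmt_CHART) (hCHX : Stmt_CHX) (hCL : Stmt_CL) (hNULL : Stmt_NULL) :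
    Stmt_CONN := by
  intro V a b g W h Φ z0 r e hc hA β b0 hβ hβoff hβnn hb0 hlow
  set s0 : ℝ := z0 2 with hs0
  obtain ⟨ha, hb, -, hΦV, hopen, -⟩ := hCHX V a b g W h Φ z0 r e hc
  have hΦV' : Φ '' obox z0 r e ⊆ V := (Set.image_mono (obox_subset_box _ _ _)).trans hΦV
  have h0 : ∀ x, x ∉ V → β x = 0 := fun x hx => hβoff x fun hm => hx (hΦV' hm)
  have hr := hc.r_pos
  have he := hc.e_pos
  -- the set of the good points of the leaf
  set A : Set E3 := V ∩ W ⁻¹' {s0} with hAdef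
  have hz0mem : z0 ∈ obox z0 r e := ⟨by simp [hr], by simp [hr], by simp [he]⟩
  have hp0 : Φ z0 ∈ A := by
    obtain ⟨N, -, hbN, -, -, hmaps, -, hW⟩ := hc.nbhd
    have hz0N : z0 ∈ N := hbN (obox_subset_box _ _ _ hz0mem)
    exact ⟨hmaps hz0N, hW z0 hz0N⟩
  have hgood0 : Good V g W β s0 e (Φ z0) := by
    refine ⟨Φ '' obox z0 r e, hopen _ (isOpen_obox _ _ _) le_rfl, ⟨z0, hz0mem, rfl⟩, e, he,
      le_rfl, ?_⟩
    intro ρ hρ hoff
    obtain ⟨M, hM, hMb⟩ := cint_bound h hCHX hc hρ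
    obtain ⟨γ, hγm, hγb, hN⟩ := hCL V a b g W h Φ z0 r e hc ρ β b0 M hρ hβ
      (fun x hx => ⟨hoff x hx, hβoff x hx⟩) hβnn hb0 hM hlow hMb
    exact ⟨γ, ⟨hγm, _, hγb⟩, hN⟩
  -- all points of the leaf are good
  have hall : ∀ x ∈ A, Good V g W β s0 e x := by
    have : PreconnectedSpace A := isPreconnected_iff_preconnectedSpace.mp hA
    set S : Set A := {x | Good V g W β s0 e x} with hS
    have hSo : IsOpen S := by
      rw [isOpen_iff_mem_nhds]
      rintro x ⟨O, hO, hxO, e', he', hee, hP⟩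
      have : (Subtype.val : A → E3) ⁻¹' O ∈ 𝓝 x :=
        (hO.preimage continuous_subtype_val).mem_nhds hxO
      exact Filter.mem_of_superset this fun y hy => ⟨O, hO, hy, e', he', hee, hP⟩
    have hSc : IsClosed S := by
      refine isClosed_of_closure_subset fun x hx => ?_
      obtain ⟨Ψ, y0, r1, e1, hch, hy0, hy2, -⟩ := hCHART V a b g W h x x.2.1 Set.univ
        Filter.univ_mem
      obtain ⟨-, -, -, -, hopen1, -⟩ := hCHX V a b g W h Ψ y0 r1 e1 hch
      have hxO : (x : E3) ∈ Ψ '' obox y0 r1 e1 :=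
        ⟨y0, ⟨by simp [hch.r_pos], by simp [hch.r_pos], by simp [hch.e_pos]⟩, hy0⟩
      have hnhd : (Subtype.val : A → E3) ⁻¹' (Ψ '' obox y0 r1 e1) ∈ 𝓝 x :=
        ((hopen1 _ (isOpen_obox _ _ _) le_rfl).preimage continuous_subtype_val).mem_nhds hxO
      obtain ⟨x', hx'O, hx'S⟩ := mem_closure_iff_nhds.mp hx _ hnhd
      have hWx : W x = s0 := x.2.2
      have := good_transfer h hCHX hCL hNULL hβ h0 ha hb hch (hy2.trans hWx) x'.2.2 hx'O hx'S
      rw [hy0] at this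
      exact this
    have hSu : S = Set.univ := by
      rcases isClopen_iff.mp ⟨hSc, hSo⟩ with h1 | h1
      · exfalso
        have : (⟨Φ z0, hp0⟩ : A) ∈ S := hgood0
        rw [h1] at this
        exact this
      · exact h1
    intro x hx
    have : (⟨x, hx⟩ : A) ∈ S := by rw [hSu]; exact Set.mem_univ _
    exact this
  -- one open set contains the leaf
  have hAc : IsCompact A := by
    have : A = cslab V W s0 s0 := by
      simp only [hAdef, cslab, Set.Icc_self]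
    rw [this]
    exact h.proper s0 s0 (by linarith) (by linarith)
  obtain ⟨O, hO, hAO, e', he', hee, hP⟩ : ∃ O : Set E3, IsOpen O ∧ A ⊆ O ∧ ∃ e' : ℝ, 0 < e' ∧
      e' ≤ e ∧ Prp V g W β s0 e' O := by
    refine hAc.induction_on (p := fun T => ∃ O : Set E3, IsOpen O ∧ T ⊆ O ∧ ∃ e' : ℝ, 0 < e' ∧
      e' ≤ e ∧ Prp V g W β s0 e' O) ?_ ?_ ?_ ?_
    · exact ⟨∅, isOpen_empty, le_rfl, e, he, le_rfl, prp_empty⟩
    · rintro S T hST ⟨O, hO, hTO, hrest⟩
      exact ⟨O, hO, hST.trans hTO, hrest⟩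
    · rintro S T ⟨O, hO, hSO, e1, he1, hee1, hP1⟩ ⟨O', hO', hTO, e2, he2, hee2, hP2⟩
      have hm : 0 < min e1 e2 := lt_min he1 he2
      have hm1 : min e1 e2 ≤ e1 := min_le_left _ _
      have hm2 : min e1 e2 ≤ e2 := min_le_right _ _
      refine ⟨O ∪ O', hO.union hO', Set.union_subset_union hSO hTO, min e1 e2, hm,
        hm1.trans hee1, ?_⟩
      refine prp_union h hNULL hβ h0 (by linarith) (by linarith) hm hO ?_ ?_
      · exact prp_mono h hNULL hβ h0 (by linarith) (by linarith) hm hm1 hP1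
      · exact prp_mono h hNULL hβ h0 (by linarith) (by linarith) hm hm2 hP2
    · intro x hx
      obtain ⟨O, hO, hxO, hrest⟩ := hall x hx
      exact ⟨O, mem_nhdsWithin_of_mem_nhds (hO.mem_nhds hxO), O, hO, le_rfl, hrest⟩
  -- the slab is contained in the open set
  obtain ⟨e1, he1, he1e, hslab⟩ : ∃ e1 : ℝ, 0 < e1 ∧ e1 ≤ e' ∧
      slab V W (s0 - e1) (s0 + e1) ⊆ O := by
    have hK : IsCompact (cslab V W (s0 - e) (s0 + e) \ O) := (h.proper _ _ ha hb).diff hO
    have hcont : ContinuousOn (fun x => |W x - s0|) (cslab V W (s0 - e) (s0 + e) \ O) := by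
      refine ((h.continuousOn.mono ?_).sub continuousOn_const).abs
      exact fun x hx => hx.1.1
    rcases (cslab V W (s0 - e) (s0 + e) \ O).eq_empty_or_nonempty with hemp | hne
    · refine ⟨e', he', le_rfl, fun x hx => ?_⟩
      by_contra hxO
      have : x ∈ cslab V W (s0 - e) (s0 + e) \ O :=
        ⟨⟨hx.1, by linarith [hx.2.1], by linarith [hx.2.2]⟩, hxO⟩
      rw [hemp] at this
      exact this
    · obtain ⟨m, hm, hmin⟩ := hK.exists_isMinOn hne hcont
      have hpos : 0 < |W m - s0| := by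
        rw [abs_pos, sub_ne_zero]
        intro hW
        exact hm.2 (hAO ⟨hm.1.1, hW⟩)
      refine ⟨min e' |W m - s0|, lt_min he' hpos, min_le_left _ _, fun x hx => ?_⟩
      by_contra hxO
      have h1 : min e' |W m - s0| ≤ e' := min_le_left _ _
      have h2 : min e' |W m - s0| ≤ |W m - s0| := min_le_right _ _
      have hxK : x ∈ cslab V W (s0 - e) (s0 + e) \ O :=
        ⟨⟨hx.1, by linarith [hx.2.1], by linarith [hx.2.2]⟩, hxO⟩
      have h3 : |W m - s0| ≤ |W x - s0| := hmin hxK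
      have h4 : |W x - s0| < min e' |W m - s0| := by
        rw [abs_lt]; exact ⟨by linarith [hx.2.1], by linarith [hx.2.2]⟩
      linarith
  refine ⟨e1, he1, he1e.trans hee, fun ρ hρ => ?_⟩
  have hP1 : Prp V g W β s0 e1 O :=
    prp_mono h hNULL hβ h0 (by linarith) (by linarith) he1 he1e hP
  obtain ⟨γ, hγ, hN⟩ := hP1 (O.indicator ρ) (bddMeas_indicator hρ hO.measurableSet)
    (fun y hy => Set.indicator_of_notMem hy _)
  refine ⟨γ, hγ, nullOn_congr h (fun x hx => ?_) hN⟩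
  rw [Set.indicator_of_mem (hslab hx)]

end Pool.Agent.PFlow.GB
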