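import Pool.Agent.PFlow.G.Base

/-!
# L2 bounds and convergence of the smoothing
-/

open MeasureTheory Filter Topology
open scoped ContDiff

namespace Pool.Agent.PFlow.GB

open Pool.Agent.PenroseSph Pool.Agent.PFlow

namespace CV

variable {V : Set E3} {a b : ℝ} {g : TensorField} {W : E3 → ℝ}

/-- Continuity and bounds of the density. -/
theorem dens_cont (hSMO : Stmt_SMO) (h : Fol V a b g W) : ContinuousOn (dens g W) V := fun x hx =>
  ((hSMO.2 g W x (h.reg hx)).2.2.2.2.2.2.2.2.1).continuousAt.continuousWithinAt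

theorem dens_pos (hSMO : Stmt_SMO) (h : Fol V a b g W) {x : E3} (hx : x ∈ V) :
    0 < dens g W x := (hSMO.2 g W x (h.reg hx)).2.2.2.1

theorem dens_bdd (hSMO : Stmt_SMO) (h : Fol V a b g W) {c d : ℝ} (hc : a < c) (hd : d < b) :
    ∃ D : ℝ, 0 < D ∧ ∀ x ∈ slab V W c d, dens g W x ≤ D := by
  obtain ⟨D, hD⟩ := (h.proper c d hc hd).exists_bound_of_continuousOn
    ((dens_cont hSMO h).mono (cslab_subset c d))
  refine ⟨max D 1, lt_max_of_lt_right one_pos, fun x hx => ?_⟩
  have h1 := hD x (slab_subset_cslab c d hx)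
  exact le_trans (le_trans (le_abs_self _) h1) (le_max_left _ _)

/-- The kernels to which the Schur test is applied. -/
structure Kern (S : Set E3) (W : E3 → ℝ) (R C t : ℝ) (l : E3 → E3 → ℝ) : Prop where
  cont : ContinuousOn (Function.uncurry l) (S ×ˢ S)
  le : ∀ x ∈ S, ∀ y ∈ S, |l x y| ≤ C / t ^ 2
  symm : ∀ x ∈ S, ∀ y ∈ S, |l x y| = |l y x|
  supp : ∀ x ∈ S, ∀ y ∈ S, l x y ≠ 0 → dist x y ≤ R * Real.sqrt t ∧ |W x - W y| ≤ t

theorem kern_int {S : Set E3} {R C t : ℝ} {l : E3 → E3 → ℝ} (hS : IsOpen S)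
    (hSf : volume S < ⊤) (hW : ContinuousOn W S) (hC : 0 < C) (ht : 0 < t)
    (hl : Kern S W R C t l) {x : E3} (hx : x ∈ S)
    (hvol : volume {y | dist x y ≤ R * Real.sqrt t ∧ |W x - W y| ≤ t}
      ≤ ENNReal.ofReal (C * t ^ 2)) :
    IntegrableOn (fun y => |l x y|) S ∧ ∫ y in S, |l x y| ≤ C ^ 2 := by
  have hcl : ContinuousOn (fun y => |l x y|) S := by
    have h1 : ContinuousOn (fun y : E3 => ((x, y) : E3 × E3)) S :=
      (continuous_const.prodMk continuous_id).continuousOn
    have h2 := hl.cont.comp h1 (fun y hy => ⟨hx, hy⟩)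
    exact h2.abs
  have : IsFiniteMeasure (volume.restrict S) := ⟨by simpa using hSf⟩
  have hint : IntegrableOn (fun y => |l x y|) S := by
    refine Integrable.mono' (integrable_const (C / t ^ 2))
      (hcl.aestronglyMeasurable hS.measurableSet) ?_
    refine (ae_restrict_iff' hS.measurableSet).2 (Eventually.of_forall fun y hy => ?_)
    rw [Real.norm_eq_abs, abs_abs]
    exact hl.le x hx y hy
  refine ⟨hint, ?_⟩
  set B : Set E3 := {y | y ∈ S ∧ dist x y ≤ R * Real.sqrt t ∧ |W x - W y| ≤ t} with hB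
  have hBm : MeasurableSet B := by
    have h1 : MeasurableSet (S ∩ (fun y => |W x - W y|) ⁻¹' Set.Iic t) := by
      have hWx : ContinuousOn (fun y => |W x - W y|) S :=
        ContinuousOn.abs (ContinuousOn.sub continuousOn_const hW)
      obtain ⟨u, hu, hu'⟩ := (continuousOn_iff_isClosed.1 hWx) (Set.Iic t) isClosed_Iic
      rw [Set.inter_comm, hu']
      exact hu.measurableSet.inter hS.measurableSet
    have h2 : MeasurableSet {y | dist x y ≤ R * Real.sqrt t} :=
      (isClosed_le (continuous_const.dist continuous_id) continuous_const).measurableSet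
    have h3 : B = (S ∩ (fun y => |W x - W y|) ⁻¹' Set.Iic t) ∩
        {y | dist x y ≤ R * Real.sqrt t} := by
      ext y
      constructor
      · rintro ⟨h1, h2, h3⟩
        exact ⟨⟨h1, h3⟩, h2⟩
      · rintro ⟨⟨h1, h3⟩, h2⟩
        exact ⟨h1, h2, h3⟩
    rw [h3]
    exact h1.inter h2
  have hBv : volume B ≤ ENNReal.ofReal (C * t ^ 2) :=
    le_trans (measure_mono fun y hy => hy.2) hvol
  calc ∫ y in S, |l x y| ≤ ∫ y in S, B.indicator (fun _ => C / t ^ 2) y := by
        refine setIntegral_mono_on hint ?_ hS.measurableSet fun y hy => ?_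
        · exact (integrable_const (C / t ^ 2)).indicator hBm
        · by_cases hyB : y ∈ B
          · rw [Set.indicator_of_mem hyB]
            exact hl.le x hx y hy
          · rw [Set.indicator_of_notMem hyB]
            have : l x y = 0 := by
              by_contra hne
              exact hyB ⟨hy, hl.supp x hx y hy hne⟩
            rw [this, abs_zero]
    _ = (volume.restrict S).real B * (C / t ^ 2) := by
        rw [integral_indicator_const _ hBm, smul_eq_mul]
    _ ≤ (C * t ^ 2) * (C / t ^ 2) := by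
        refine mul_le_mul_of_nonneg_right ?_ (by positivity)
        have h1 : (volume.restrict S) B ≤ ENNReal.ofReal (C * t ^ 2) :=
          le_trans (Measure.restrict_apply_le _ _) hBv
        exact ENNReal.toReal_le_of_le_ofReal (by positivity) h1
    _ = C ^ 2 := by
        field_simp

theorem mul_dens (hSMO : Stmt_SMO) (h : Fol V a b g W) {c d : ℝ} {D : ℝ}
    (hD : ∀ x ∈ slab V W c d, dens g W x ≤ D) {v : E3 → ℝ}
    (hv : MemLp v 2 (volume.restrict (slab V W c d))) :
    MemLp (fun y => v y * dens g W y) 2 (volume.restrict (slab V W c d)) ∧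
    ∫ x in slab V W c d, (v x * dens g W x) ^ 2 ≤ D ^ 2 * ∫ x in slab V W c d, v x ^ 2 := by
  have hm := measurableSet_slab h c d
  have hdm : AEStronglyMeasurable (dens g W) (volume.restrict (slab V W c d)) :=
    ((dens_cont hSMO h).mono (slab_subset c d)).aestronglyMeasurable hm
  have h1 : MemLp (fun y => v y * dens g W y) 2 (volume.restrict (slab V W c d)) := by
    refine MemLp.of_le_mul (c := D) hv (hv.aestronglyMeasurable.mul hdm) ?_
    refine (ae_restrict_iff' hm).2 (Eventually.of_forall fun y hy => ?_)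
    rw [norm_mul, Real.norm_of_nonneg (dens_pos hSMO h hy.1).le, mul_comm]
    exact mul_le_mul_of_nonneg_right (hD y hy) (norm_nonneg _)
  refine ⟨h1, ?_⟩
  rw [← integral_const_mul]
  refine setIntegral_mono_on h1.integrable_sq (hv.integrable_sq.const_mul _) hm fun y hy => ?_
  have h2 := dens_pos hSMO h hy.1
  have h3 := hD y hy
  calc (v y * dens g W y) ^ 2 = dens g W y ^ 2 * v y ^ 2 := by ring
    _ ≤ D ^ 2 * v y ^ 2 := by
        refine mul_le_mul_of_nonneg_right ?_ (sq_nonneg _)
        exact pow_le_pow_left₀ h2.le h3 2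

/-- The Schur test for a kernel. -/
theorem schur (hSMO : Stmt_SMO) (hSCHUR : Stmt_SCHUR) (h : Fol V a b g W) {c d : ℝ} (hc : a < c)
    (hd : d < b) {D : ℝ} (hD : ∀ x ∈ slab V W c d, dens g W x ≤ D)
    {R C t : ℝ} (hC : 0 < C) (ht : 0 < t) {l : E3 → E3 → ℝ}
    (hl : Kern (slab V W c d) W R C t l)
    (hvol : ∀ x ∈ slab V W c d, volume {y | dist x y ≤ R * Real.sqrt t ∧ |W x - W y| ≤ t}
      ≤ ENNReal.ofReal (C * t ^ 2)) {v : E3 → ℝ}
    (hv : MemLp v 2 (volume.restrict (slab V W c d))) :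
    MemLp (fun x => ∫ y in slab V W c d, l x y * v y * dens g W y) 2
      (volume.restrict (slab V W c d)) ∧
    ∫ x in slab V W c d, (∫ y in slab V W c d, l x y * v y * dens g W y) ^ 2
      ≤ (C ^ 2) ^ 2 * D ^ 2 * ∫ x in slab V W c d, v x ^ 2 := by
  classical
  have hm := measurableSet_slab h c d
  have hSf := volume_slab_lt_top h hc hd
  have hWc : ContinuousOn W (slab V W c d) := h.continuousOn.mono (slab_subset c d)
  have : IsFiniteMeasure (volume.restrict (slab V W c d)) := ⟨by simpa using hSf⟩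
  obtain ⟨hvd, hvd'⟩ := mul_dens hSMO h hD hv
  set l' : E3 → E3 → ℝ := fun x y =>
    if x ∈ slab V W c d ∧ y ∈ slab V W c d then l x y else 0 with hl'
  have hin : ∀ x ∈ slab V W c d, ∀ y ∈ slab V W c d, l' x y = l x y := fun x hx y hy => by
    simp only [hl', if_pos (And.intro hx hy)]
  have hout : ∀ x y, ¬ (x ∈ slab V W c d ∧ y ∈ slab V W c d) → l' x y = 0 := fun x y hxy => by
    simp only [hl', if_neg hxy]
  have hmeas : Measurable (Function.uncurry l') := by
    have h1 : Function.uncurry l' = (slab V W c d ×ˢ slab V W c d).piecewise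
        (Function.uncurry l) (fun _ => 0) := by
      ext ⟨x, y⟩
      by_cases hxy : x ∈ slab V W c d ∧ y ∈ slab V W c d
      · rw [Set.piecewise_eq_of_mem _ _ _ (show (x, y) ∈ slab V W c d ×ˢ slab V W c d from hxy)]
        exact hin x hxy.1 y hxy.2
      · rw [Set.piecewise_eq_of_notMem _ _ _
          (show (x, y) ∉ slab V W c d ×ˢ slab V W c d from hxy)]
        exact hout x y hxy
    rw [h1]
    exact hl.cont.measurable_piecewise continuousOn_const (hm.prod hm)
  have hS := hSCHUR (volume.restrict (slab V W c d)) l' (C / t ^ 2) (C ^ 2) (by positivity)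
    hmeas (fun x y => by
      by_cases hxy : x ∈ slab V W c d ∧ y ∈ slab V W c d
      · rw [hin x hxy.1 y hxy.2]
        exact hl.le x hxy.1 y hxy.2
      · rw [hout x y hxy, abs_zero]
        positivity) (fun x y => by
      by_cases hxy : x ∈ slab V W c d ∧ y ∈ slab V W c d
      · rw [hin x hxy.1 y hxy.2, hin y hxy.2 x hxy.1]
        exact hl.symm x hxy.1 y hxy.2
      · rw [hout x y hxy, hout y x (fun h => hxy ⟨h.2, h.1⟩)]) ((ae_restrict_iff' hm).2
      (Eventually.of_forall fun x hx => by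
        have h1 := kern_int (isOpen_slab h c d) hSf hWc hC ht hl hx (hvol x hx)
        refine le_trans (le_of_eq ?_) h1.2
        refine setIntegral_congr_fun hm fun y hy => ?_
        show |l' x y| = |l x y|
        rw [hin x hx y hy])) (fun y => v y * dens g W y) hvd
  have heq : ∀ x ∈ slab V W c d, ∫ y in slab V W c d, l' x y * (v y * dens g W y) =
      ∫ y in slab V W c d, l x y * v y * dens g W y := by
    intro x hx
    refine setIntegral_congr_fun hm fun y hy => ?_
    show l' x y * (v y * dens g W y) = l x y * v y * dens g W y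
    rw [hin x hx y hy]
    ring
  have hae : (fun x => ∫ y in slab V W c d, l' x y * (v y * dens g W y))
      =ᵐ[volume.restrict (slab V W c d)]
      fun x => ∫ y in slab V W c d, l x y * v y * dens g W y :=
    (ae_restrict_iff' hm).2 (Eventually.of_forall heq)
  refine ⟨(memLp_congr_ae hae).1 hS.1, ?_⟩
  have h2 : ∫ x in slab V W c d, (∫ y in slab V W c d, l x y * v y * dens g W y) ^ 2 =
      ∫ x in slab V W c d, (∫ y in slab V W c d, l' x y * (v y * dens g W y)) ^ 2 := by
    refine setIntegral_congr_fun hm fun x hx => ?_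
    show (∫ y in slab V W c d, l x y * v y * dens g W y) ^ 2 =
      (∫ y in slab V W c d, l' x y * (v y * dens g W y)) ^ 2
    rw [heq x hx]
  rw [h2]
  refine hS.2.trans ?_
  calc (C ^ 2) ^ 2 * ∫ x in slab V W c d, (v x * dens g W x) ^ 2
      ≤ (C ^ 2) ^ 2 * (D ^ 2 * ∫ x in slab V W c d, v x ^ 2) :=
        mul_le_mul_of_nonneg_left hvd' (by positivity)
    _ = _ := by ring

/-! ### Joint continuity of the Laplacian of the kernel -/

theorem pd_fst {F : E3 × E3 → ℝ} {x y : E3} (hF : DifferentiableAt ℝ F (x, y)) (j : Fin 3) :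
    pd j (fun z => F (z, y)) x = fderiv ℝ F (x, y) (EuclideanSpace.single j 1, 0) := by
  have h1 : HasFDerivAt (fun z : E3 => ((z, y) : E3 × E3)) (ContinuousLinearMap.inl ℝ E3 E3) x :=
    hasFDerivAt_prodMk_left x y
  have h2 : HasFDerivAt (fun z => F (z, y))
      ((fderiv ℝ F (x, y)).comp (ContinuousLinearMap.inl ℝ E3 E3)) x :=
    HasFDerivAt.comp (g := F) (f := fun z : E3 => ((z, y) : E3 × E3)) x hF.hasFDerivAt h1
  unfold pd
  rw [h2.fderiv]
  rfl

theorem pd_fst_smooth {F : E3 × E3 → ℝ} {N : Set E3} (hN : IsOpen N)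
    (hF : ContDiffOn ℝ ∞ F (N ×ˢ (Set.univ : Set E3))) (j : Fin 3) :
    ContDiffOn ℝ ∞ (fun q : E3 × E3 => pd j (fun z => F (z, q.2)) q.1)
      (N ×ˢ (Set.univ : Set E3)) := by
  have ho : IsOpen (N ×ˢ (Set.univ : Set E3)) := hN.prod isOpen_univ
  have h1 : ContDiffOn ℝ ∞ (fderiv ℝ F) (N ×ˢ (Set.univ : Set E3)) :=
    hF.fderiv_of_isOpen ho (by simp)
  have h2 : ContDiffOn ℝ ∞ (fun q : E3 × E3 =>
      fderiv ℝ F q ((EuclideanSpace.single j 1 : E3), (0 : E3))) (N ×ˢ (Set.univ : Set E3)) :=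
    h1.clm_apply contDiffOn_const
  refine h2.congr fun q hq => ?_
  have h3 : DifferentiableAt ℝ F (q.1, q.2) :=
    ((hF q hq).contDiffAt (ho.mem_nhds hq)).differentiableAt (by simp)
  exact pd_fst h3 j

theorem lgrad_eq (g : TensorField) (W f : E3 → ℝ) (x : E3) (i : Fin 3) :
    lgrad g W f x i = ∑ j, prj g x (grad W x) i j * pd j f x := by
  unfold lgrad raise prj grad
  simp only [Fin.sum_univ_three]
  ring

theorem pd_mul {A B : E3 → ℝ} {x : E3} (hA : DifferentiableAt ℝ A x)
    (hB : DifferentiableAt ℝ B x) (i : Fin 3) :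
    pd i (fun y => A y * B y) x = pd i A x * B x + A x * pd i B x := by
  unfold pd
  rw [fderiv_fun_mul hA hB]
  simp only [add_apply, smul_apply, smul_eq_mul]
  ring

theorem pd_sum {A : Fin 3 → E3 → ℝ} {x : E3} (hA : ∀ j, DifferentiableAt ℝ (A j) x) (i : Fin 3) :
    pd i (fun y => ∑ j, A j y) x = ∑ j, pd i (A j) x := by
  unfold pd
  rw [fderiv_fun_sum fun j _ => hA j]
  simp

theorem pd_smoothAt {f : E3 → ℝ} {x : E3} (hf : ContDiffAt ℝ ∞ f x) (j : Fin 3) :
    ContDiffAt ℝ ∞ (pd j f) x := by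
  unfold pd
  exact (hf.fderiv_right (m := ∞) (by simp)).clm_apply contDiffAt_const

theorem lap_eq (hSMO : Stmt_SMO) {x : E3} (hx : Reg g W x) {f : E3 → ℝ}
    (hf : ContDiffAt ℝ ∞ f x) :
    lap g W f x = (∑ i, ∑ j, (pd i (fun y => dens g W y * prj g y (grad W y) i j) x * pd j f x
      + dens g W x * prj g x (grad W x) i j * pd i (pd j f) x)) / dens g W x := by
  have h1 := hSMO.2 g W x hx
  have hd : DifferentiableAt ℝ (dens g W) x := h1.2.2.2.2.2.2.2.2.1.differentiableAt (by simp)
  have hp : ∀ i j, DifferentiableAt ℝ (fun y => prj g y (grad W y) i j) x := fun i j =>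
    (h1.2.2.2.2.2.2.2.2.2.2.1 i j).differentiableAt (by simp)
  have hpf : ∀ j, DifferentiableAt ℝ (pd j f) x := fun j =>
    (pd_smoothAt hf j).differentiableAt (by simp)
  unfold lap ldiv
  congr 1
  refine Finset.sum_congr rfl fun i _ => ?_
  have e1 : (fun y => dens g W y * lgrad g W f y i) =
      fun y => ∑ j, (dens g W y * prj g y (grad W y) i j) * pd j f y := by
    ext y
    rw [lgrad_eq, Finset.mul_sum]
    exact Finset.sum_congr rfl fun j _ => by ring
  rw [e1, pd_sum (A := fun j y => (dens g W y * prj g y (grad W y) i j) * pd j f y)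
    (fun j => (hd.mul (hp i j)).mul (hpf j))]
  refine Finset.sum_congr rfl fun j _ => ?_
  exact pd_mul (A := fun y => dens g W y * prj g y (grad W y) i j) (hd.mul (hp i j)) (hpf j) i

theorem lap_joint (hSMO : Stmt_SMO) (h : Fol V a b g W) {S N : Set E3} (hSV : S ⊆ V)
    (hSN : S ⊆ N) (hN : IsOpen N) {F : E3 × E3 → ℝ}
    (hF : ContDiffOn ℝ ∞ F (N ×ˢ (Set.univ : Set E3))) :
    ContinuousOn (fun q : E3 × E3 => lap g W (fun z => F (z, q.2)) q.1) (S ×ˢ S) := by
  have hsub : S ×ˢ S ⊆ N ×ˢ (Set.univ : Set E3) := fun q hq => ⟨hSN hq.1, Set.mem_univ _⟩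
  have hD1 : ∀ j, ContinuousOn (fun q : E3 × E3 => pd j (fun z => F (z, q.2)) q.1) (S ×ˢ S) :=
    fun j => (pd_fst_smooth hN hF j).continuousOn.mono hsub
  have hD2 : ∀ i j, ContinuousOn (fun q : E3 × E3 =>
      pd i (pd j (fun z => F (z, q.2))) q.1) (S ×ˢ S) := by
    intro i j
    have h1 := pd_fst_smooth hN (pd_fst_smooth hN hF j) i
    exact h1.continuousOn.mono hsub
  have hfst : ContinuousOn (fun q : E3 × E3 => q.1) (S ×ˢ S) := continuousOn_fst
  have hmaps : Set.MapsTo (fun q : E3 × E3 => q.1) (S ×ˢ S) V := fun q hq => hSV hq.1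
  have hA : ∀ i j, ContinuousOn (fun x => pd i (fun y => dens g W y * prj g y (grad W y) i j) x)
      V := by
    intro i j x hx
    have h1 := hSMO.2 g W x (h.reg hx)
    have h2 : ContDiffAt ℝ ∞ (fun y => dens g W y * prj g y (grad W y) i j) x :=
      h1.2.2.2.2.2.2.2.2.1.mul (h1.2.2.2.2.2.2.2.2.2.2.1 i j)
    exact (pd_smoothAt h2 i).continuousAt.continuousWithinAt
  have hB : ∀ i j, ContinuousOn (fun x => dens g W x * prj g x (grad W x) i j) V := by
    intro i j x hx
    have h1 := hSMO.2 g W x (h.reg hx)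
    have h2 : ContDiffAt ℝ ∞ (fun y => dens g W y * prj g y (grad W y) i j) x :=
      h1.2.2.2.2.2.2.2.2.1.mul (h1.2.2.2.2.2.2.2.2.2.2.1 i j)
    exact h2.continuousAt.continuousWithinAt
  have hden : ContinuousOn (fun q : E3 × E3 => dens g W q.1) (S ×ˢ S) :=
    (dens_cont hSMO h).comp hfst hmaps
  have hmain : ContinuousOn (fun q : E3 × E3 =>
      (∑ i, ∑ j, (pd i (fun y => dens g W y * prj g y (grad W y) i j) q.1 *
          pd j (fun z => F (z, q.2)) q.1
        + dens g W q.1 * prj g q.1 (grad W q.1) i j * pd i (pd j (fun z => F (z, q.2))) q.1))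
        / dens g W q.1) (S ×ˢ S) := by
    refine ContinuousOn.div ?_ hden fun q hq => (dens_pos hSMO h (hSV hq.1)).ne'
    refine continuousOn_finsetSum _ fun i _ => continuousOn_finsetSum _ fun j _ => ?_
    exact (((hA i j).comp hfst hmaps).mul (hD1 j)).add
      (((hB i j).comp hfst hmaps).mul (hD2 i j))
  refine hmain.congr fun q hq => ?_
  have hC : ContDiffAt ℝ ∞ (fun z => F (z, q.2)) q.1 := by
    have h1 : ContDiffAt ℝ ∞ F (q.1, q.2) :=
      (hF q (hsub hq)).contDiffAt ((hN.prod isOpen_univ).mem_nhds (hsub hq))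
    exact h1.comp q.1 (contDiffAt_id.prodMk contDiffAt_const)
  exact lap_eq hSMO (h.reg (hSV hq.1)) hC

/-! ### The two kernels -/

theorem kern_k (_h : Fol V a b g W) {c d : ℝ} {k : ℝ → E3 → E3 → ℝ} {t0 R C m0 : ℝ}
    (hk : Moll V g W c d k t0 R C m0) {t : ℝ} (ht : 0 < t) (ht0 : t < t0) :
    Kern (slab V W c d) W R C t (k t) where
  cont := by
    obtain ⟨N, _, hN2, _, hN4⟩ := hk.smooth t ht ht0
    refine hN4.continuousOn.mono ?_
    intro q hq
    exact ⟨hN2 (slab_subset_cslab c d hq.1), Set.mem_univ _⟩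
  le := fun x _ y _ => by
    rw [abs_of_nonneg (hk.nonneg t x y ht)]
    exact hk.le t x y ht
  symm := fun x _ y _ => by rw [hk.symm t x y]
  supp := fun x hx y _ hne => by
    obtain ⟨_, h2, h3⟩ := hk.supp t ht ht0 x (slab_subset_cslab c d hx) y hne
    exact ⟨h2, h3.le⟩

theorem kern_l (hSMO : Stmt_SMO) (h : Fol V a b g W) {c d : ℝ} {k : ℝ → E3 → E3 → ℝ}
    {t0 R C m0 : ℝ} (hk : Moll V g W c d k t0 R C m0) {t : ℝ} (ht : 0 < t) (ht0 : t < t0) :
    Kern (slab V W c d) W R C t (fun x y =>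
      lap g W (fun z => k t z y) x - lap g W (fun z => k t x z) y) := by
  have hsw : ∀ x : E3, (fun z => k t x z) = fun z => k t z x := fun x => by
    ext z
    exact hk.symm t x z
  refine ⟨?_, ?_, ?_, ?_⟩
  · obtain ⟨N, hN1, hN2, _, hN4⟩ := hk.smooth t ht ht0
    have h1 := lap_joint hSMO h (slab_subset (W := W) c d)
      ((slab_subset_cslab (W := W) c d).trans hN2) hN1 hN4
    have h2 : ContinuousOn (fun q : E3 × E3 => lap g W (fun z => k t z q.1) q.2)
        (slab V W c d ×ˢ slab V W c d) :=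
      h1.comp (f := fun q : E3 × E3 => (q.2, q.1)) (continuous_swap.continuousOn)
        (fun q hq => ⟨hq.2, hq.1⟩)
    refine (h1.sub h2).congr fun q _ => ?_
    show lap g W (fun z => k t z q.2) q.1 - lap g W (fun z => k t q.1 z) q.2 =
      lap g W (fun z => k t z q.2) q.1 - lap g W (fun z => k t z q.1) q.2
    rw [hsw]
  · intro x hx y hy
    exact hk.comm t ht ht0 x (slab_subset_cslab c d hx) y (slab_subset_cslab c d hy)
  · intro x _ y _
    show |lap g W (fun z => k t z y) x - lap g W (fun z => k t x z) y| =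
      |lap g W (fun z => k t z x) y - lap g W (fun z => k t y z) x|
    rw [hsw x, hsw y, abs_sub_comm]
  · intro x hx y hy hne
    by_contra hcon
    obtain ⟨h1, h2⟩ := hk.loc t ht ht0 x (slab_subset_cslab c d hx) y
      (slab_subset_cslab c d hy) hcon
    apply hne
    show lap g W (fun z => k t z y) x - lap g W (fun z => k t x z) y = 0
    rw [h1, h2, sub_zero]

/-- The kernel integrates bounded functions to bounded functions. -/
theorem k_int (hSMO : Stmt_SMO) (h : Fol V a b g W) {c d : ℝ} (hc : a < c) (hd : d < b) {D : ℝ}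
    (hD : ∀ x ∈ slab V W c d, dens g W x ≤ D) {k : ℝ → E3 → E3 → ℝ}
    {t0 R C m0 : ℝ} (hk : Moll V g W c d k t0 R C m0) {t : ℝ} (ht : 0 < t) (ht0 : t < t0)
    {x : E3} (hx : x ∈ slab V W c d) :
    IntegrableOn (fun y => k t x y * dens g W y) (slab V W c d) ∧
    ∀ (u : E3 → ℝ) (B : ℝ), 0 ≤ B → (∀ y ∈ slab V W c d, k t x y ≠ 0 → |u y| ≤ B) →
      |∫ y in slab V W c d, k t x y * u y * dens g W y| ≤ B * (C ^ 2 * D) := by
  have hm := measurableSet_slab h c d
  have hSf := volume_slab_lt_top h hc hd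
  have hWc : ContinuousOn W (slab V W c d) := h.continuousOn.mono (slab_subset c d)
  have hK := kern_k h hk ht ht0
  obtain ⟨h1, h2⟩ := kern_int (isOpen_slab h c d) hSf hWc hk.C_pos ht hK hx
    (hk.vol t ht ht0 x (slab_subset_cslab c d hx))
  have : IsFiniteMeasure (volume.restrict (slab V W c d)) := ⟨by simpa using hSf⟩
  have hkc : ContinuousOn (fun y => k t x y) (slab V W c d) := by
    have h3 : ContinuousOn (fun y : E3 => ((x, y) : E3 × E3)) (slab V W c d) :=
      (continuous_const.prodMk continuous_id).continuousOn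
    exact hK.cont.comp h3 (fun y hy => ⟨hx, hy⟩)
  have hDp : ∀ y ∈ slab V W c d, 0 < dens g W y := fun y hy => dens_pos hSMO h hy.1
  have hkd : ContinuousOn (fun y => k t x y * dens g W y) (slab V W c d) :=
    hkc.mul ((dens_cont hSMO h).mono (slab_subset c d))
  refine ⟨?_, ?_⟩
  · refine Integrable.mono' (h1.mul_const D) (hkd.aestronglyMeasurable hm) ?_
    refine (ae_restrict_iff' hm).2 (Eventually.of_forall fun y hy => ?_)
    rw [Real.norm_eq_abs, abs_mul, abs_of_pos (hDp y hy)]
    exact mul_le_mul_of_nonneg_left (hD y hy) (abs_nonneg _)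
  · intro u B hB hu
    have hint : IntegrableOn (fun y => B * D * |k t x y|) (slab V W c d) := h1.const_mul _
    have h3 : ‖∫ y in slab V W c d, k t x y * u y * dens g W y‖ ≤
        ∫ y in slab V W c d, B * D * |k t x y| := by
      refine norm_integral_le_of_norm_le hint ?_
      refine (ae_restrict_iff' hm).2 (Eventually.of_forall fun y hy => ?_)
      rw [Real.norm_eq_abs, abs_mul, abs_mul, abs_of_pos (hDp y hy)]
      by_cases hky : k t x y = 0
      · rw [hky]
        simp
      · have h4 := hu y hy hky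
        have h5 := hD y hy
        have h6 := hDp y hy
        calc |k t x y| * |u y| * dens g W y ≤ |k t x y| * B * D := by
              refine mul_le_mul (mul_le_mul_of_nonneg_left h4 (abs_nonneg _)) h5 h6.le ?_
              positivity
          _ = _ := by ring
    rw [Real.norm_eq_abs, integral_const_mul] at h3
    refine h3.trans ?_
    have hD0 : 0 ≤ D := le_trans (hDp x hx).le (hD x hx)
    calc B * D * ∫ y in slab V W c d, |k t x y| ≤ B * D * C ^ 2 :=
          mul_le_mul_of_nonneg_left h2 (by positivity)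
      _ = _ := by ring

/-- Pointwise convergence for continuous functions. -/
theorem moll_tendsto (hSMO : Stmt_SMO) (h : Fol V a b g W) {c d : ℝ} (hc : a < c) (hd : d < b)
    {D : ℝ} (hD0 : 0 < D) (hD : ∀ x ∈ slab V W c d, dens g W x ≤ D) {k : ℝ → E3 → E3 → ℝ}
    {t0 R C m0 : ℝ} (hk : Moll V g W c d k t0 R C m0) {φ : E3 → ℝ} (hφ : Continuous φ)
    {B : ℝ} (hB : ∀ x, |φ x| ≤ B) {x : E3} (hx : x ∈ slab V W c d) :
    Tendsto (fun t => moll V g W c d k t φ x) (𝓝[>] 0) (𝓝 (m0 * φ x)) := by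
  have hm := measurableSet_slab h c d
  have hR := hk.R_pos
  have hC := hk.C_pos
  have ht0 := hk.t0_pos
  have hmass := hk.mass x hx
  have h1 : Tendsto (fun t => φ x * ∫ y in slab V W c d, k t x y * dens g W y) (𝓝[>] 0)
      (𝓝 (φ x * m0)) := hmass.const_mul _
  have h2 : Tendsto (fun t => moll V g W c d k t φ x -
      φ x * ∫ y in slab V W c d, k t x y * dens g W y) (𝓝[>] 0) (𝓝 0) := by
    rw [Metric.tendsto_nhds]
    intro ε hε
    set ε' := ε / (2 * (C ^ 2 * D)) with hε'
    have hε'0 : 0 < ε' := by positivity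
    obtain ⟨δ, hδ, hδ'⟩ := Metric.continuous_iff.1 hφ x ε' hε'0
    have hsq : Tendsto (fun t : ℝ => R * Real.sqrt t) (𝓝[>] 0) (𝓝 0) := by
      have h3 : Tendsto (fun t : ℝ => R * Real.sqrt t) (𝓝 0) (𝓝 (R * Real.sqrt 0)) :=
        (Real.continuous_sqrt.tendsto 0).const_mul R
      rw [Real.sqrt_zero, mul_zero] at h3
      exact h3.mono_left nhdsWithin_le_nhds
    have hev1 : ∀ᶠ t in 𝓝[>] (0 : ℝ), R * Real.sqrt t < δ := hsq.eventually_lt_const hδ
    have hev2 : ∀ᶠ t in 𝓝[>] (0 : ℝ), t < t0 := by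
      have : Set.Ioo (0 : ℝ) t0 ∈ 𝓝[>] (0 : ℝ) := Ioo_mem_nhdsGT ht0
      filter_upwards [this] with t ht using ht.2
    filter_upwards [hev1, hev2, self_mem_nhdsWithin] with t htδ htt ht
    have htp : 0 < t := ht
    obtain ⟨hi, hb⟩ := k_int hSMO h hc hd hD hk htp htt hx
    have hi2 : IntegrableOn (fun y => k t x y * φ y * dens g W y) (slab V W c d) := by
      refine Integrable.mono' (hi.norm.mul_const B) ?_ ?_
      · have h4 : AEStronglyMeasurable (fun y => k t x y * dens g W y * φ y)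
            (volume.restrict (slab V W c d)) :=
          hi.aestronglyMeasurable.mul hφ.aestronglyMeasurable
        refine h4.congr (Eventually.of_forall fun y => ?_)
        show k t x y * dens g W y * φ y = k t x y * φ y * dens g W y
        ring
      · refine Eventually.of_forall fun y => ?_
        have h4 : k t x y * φ y * dens g W y = (k t x y * dens g W y) * φ y := by ring
        rw [h4, norm_mul]
        exact mul_le_mul_of_nonneg_left (hB y) (norm_nonneg _)
    have hdiff : moll V g W c d k t φ x -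
        φ x * ∫ y in slab V W c d, k t x y * dens g W y =
        ∫ y in slab V W c d, k t x y * (φ y - φ x) * dens g W y := by
      unfold moll
      rw [← integral_const_mul, ← integral_sub hi2 (hi.const_mul _)]
      refine integral_congr_ae (Eventually.of_forall fun y => ?_)
      show k t x y * φ y * dens g W y - φ x * (k t x y * dens g W y) =
        k t x y * (φ y - φ x) * dens g W y
      ring
    rw [Real.dist_eq, sub_zero, hdiff]
    have h5 := hb (fun y => φ y - φ x) ε' hε'0.le (fun y _ hky => by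
      obtain ⟨_, h6, _⟩ := hk.supp t htp htt x (slab_subset_cslab c d hx) y hky
      have h7 : dist y x < δ := by
        rw [dist_comm]
        exact lt_of_le_of_lt h6 htδ
      have h8 := hδ' y h7
      rw [Real.dist_eq] at h8
      exact h8.le)
    refine lt_of_le_of_lt h5 ?_
    have h9 : ε' * (C ^ 2 * D) = ε / 2 := by
      rw [hε']
      field_simp
    rw [h9]
    linarith
  have h3 := h2.add h1
  rw [zero_add, mul_comm] at h3
  refine h3.congr fun t => ?_
  ring

/-- Convergence in `L²` for continuous functions. -/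
theorem moll_tendsto_L2 (hSMO : Stmt_SMO) (h : Fol V a b g W) {c d : ℝ} (hc : a < c)
    (hd : d < b) {D : ℝ} (hD0 : 0 < D) (hD : ∀ x ∈ slab V W c d, dens g W x ≤ D)
    {k : ℝ → E3 → E3 → ℝ} {t0 R C m0 : ℝ} (hk : Moll V g W c d k t0 R C m0) {φ : E3 → ℝ}
    (hφ : Continuous φ) {B : ℝ} (hB0 : 0 ≤ B) (hB : ∀ x, |φ x| ≤ B)
    (hmm : ∀ t, 0 < t → t < t0 → AEStronglyMeasurable (moll V g W c d k t φ)
      (volume.restrict (slab V W c d))) :
    Tendsto (fun t => ∫ x in slab V W c d, (moll V g W c d k t φ x - m0 * φ x) ^ 2)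
      (𝓝[>] 0) (𝓝 0) := by
  have hm := measurableSet_slab h c d
  have hSf := volume_slab_lt_top h hc hd
  have : IsFiniteMeasure (volume.restrict (slab V W c d)) := ⟨by simpa using hSf⟩
  have hC := hk.C_pos
  have hm0 := hk.m0_pos
  have hev2 : ∀ᶠ t in 𝓝[>] (0 : ℝ), 0 < t ∧ t < t0 := by
    have : Set.Ioo (0 : ℝ) t0 ∈ 𝓝[>] (0 : ℝ) := Ioo_mem_nhdsGT hk.t0_pos
    filter_upwards [this] with t ht using ht
  suffices hs : Tendsto (fun t => ∫ x in slab V W c d,
      (moll V g W c d k t φ x - m0 * φ x) ^ 2) (𝓝[>] 0) (𝓝 (∫ _x in slab V W c d, (0 : ℝ))) by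
    simpa using hs
  refine tendsto_integral_filter_of_dominated_convergence
    (fun _ => (B * (C ^ 2 * D) + m0 * B) ^ 2) ?_ ?_ (integrable_const _) ?_
  · filter_upwards [hev2] with t ht
    exact ((hmm t ht.1 ht.2).sub ((hφ.aestronglyMeasurable).const_mul m0)).pow 2
  · filter_upwards [hev2] with t ht
    refine (ae_restrict_iff' hm).2 (Eventually.of_forall fun x hx => ?_)
    rw [Real.norm_eq_abs, abs_of_nonneg (sq_nonneg _), ← sq_abs]
    refine pow_le_pow_left₀ (abs_nonneg _) ?_ 2
    refine (abs_sub _ _).trans ?_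
    have h1 := (k_int hSMO h hc hd hD hk ht.1 ht.2 hx).2 φ B hB0 (fun y _ _ => hB y)
    have h2 : |m0 * φ x| ≤ m0 * B := by
      rw [abs_mul, abs_of_pos hm0]
      exact mul_le_mul_of_nonneg_left (hB x) hm0.le
    exact add_le_add h1 h2
  · refine (ae_restrict_iff' hm).2 (Eventually.of_forall fun x hx => ?_)
    have h1 := moll_tendsto hSMO h hc hd hD0 hD hk hφ hB hx
    have h2 := (h1.sub_const (m0 * φ x)).pow 2
    simpa using h2

/-- Linearity. -/
theorem moll_sub (hSMO : Stmt_SMO) (h : Fol V a b g W) {c d : ℝ} (hc : a < c) (hd : d < b)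
    {D : ℝ} (hD : ∀ x ∈ slab V W c d, dens g W x ≤ D) {k : ℝ → E3 → E3 → ℝ}
    {t0 R C m0 : ℝ} (hk : Moll V g W c d k t0 R C m0) {t : ℝ} (ht : 0 < t) (ht0 : t < t0)
    {v φ : E3 → ℝ} (hv : MemLp v 2 (volume.restrict (slab V W c d)))
    (hφ : MemLp φ 2 (volume.restrict (slab V W c d))) {x : E3} (hx : x ∈ slab V W c d) :
    moll V g W c d k t v x =
      moll V g W c d k t (fun y => v y - φ y) x + moll V g W c d k t φ x := by
  have hm := measurableSet_slab h c d
  have hSf := volume_slab_lt_top h hc hd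
  have : IsFiniteMeasure (volume.restrict (slab V W c d)) := ⟨by simpa using hSf⟩
  have hi := (k_int hSMO h hc hd hD hk ht ht0 hx).1
  have hDp : ∀ y ∈ slab V W c d, 0 < dens g W y := fun y hy => dens_pos hSMO h hy.1
  have key : ∀ u : E3 → ℝ, MemLp u 2 (volume.restrict (slab V W c d)) →
      IntegrableOn (fun y => k t x y * u y * dens g W y) (slab V W c d) := by
    intro u hu
    have hu1 : Integrable u (volume.restrict (slab V W c d)) := hu.integrable (by norm_num)
    refine Integrable.mono' (hu1.norm.const_mul (C / t ^ 2 * D)) ?_ ?_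
    · have h4 : AEStronglyMeasurable (fun y => k t x y * dens g W y * u y)
          (volume.restrict (slab V W c d)) :=
        hi.aestronglyMeasurable.mul hu.aestronglyMeasurable
      refine h4.congr (Eventually.of_forall fun y => ?_)
      show k t x y * dens g W y * u y = k t x y * u y * dens g W y
      ring
    · refine (ae_restrict_iff' hm).2 (Eventually.of_forall fun y hy => ?_)
      have h1 := hk.le t x y ht
      have h2 := hk.nonneg t x y ht
      have h3 := hD y hy
      have h5 := hDp y hy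
      rw [norm_mul, norm_mul, Real.norm_of_nonneg h2, Real.norm_of_nonneg h5.le]
      calc k t x y * ‖u y‖ * dens g W y = (k t x y * dens g W y) * ‖u y‖ := by ring
        _ ≤ (C / t ^ 2 * D) * ‖u y‖ := by
            refine mul_le_mul_of_nonneg_right ?_ (norm_nonneg _)
            exact mul_le_mul h1 h3 h5.le (le_trans h2 h1)
  unfold moll
  have hadd : (∫ y in slab V W c d, k t x y * (v y - φ y) * dens g W y) +
      ∫ y in slab V W c d, k t x y * φ y * dens g W y =
      ∫ y in slab V W c d, (k t x y * (v y - φ y) * dens g W y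
        + k t x y * φ y * dens g W y) :=
    (integral_add (key _ (hv.sub hφ)) (key φ hφ)).symm
  refine Eq.trans ?_ hadd.symm
  refine integral_congr_ae (Eventually.of_forall fun y => ?_)
  show k t x y * v y * dens g W y =
    k t x y * (v y - φ y) * dens g W y + k t x y * φ y * dens g W y
  ring

end CV

/-- **(CONV)** Bounds and convergence of the smoothing. -/
theorem CONV (hSMO : Stmt_SMO) (hSCHUR : Stmt_SCHUR) : Stmt_CONV := by
  intro V a b g W h c d hac hcd hdb k t0 R C m0 hk
  obtain ⟨D, hD0, hD⟩ := CV.dens_bdd hSMO h hac hdb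
  have hC := hk.C_pos
  have hm0 := hk.m0_pos
  have hm := measurableSet_slab h c d
  have hSf := volume_slab_lt_top h hac hdb
  have : IsFiniteMeasure (volume.restrict (slab V W c d)) := ⟨by simpa using hSf⟩
  have hmoll : ∀ t : ℝ, 0 < t → t < t0 → ∀ v : E3 → ℝ,
      MemLp v 2 (volume.restrict (slab V W c d)) →
      MemLp (moll V g W c d k t v) 2 (volume.restrict (slab V W c d)) ∧
      ∫ x in slab V W c d, moll V g W c d k t v x ^ 2
        ≤ (C ^ 2) ^ 2 * D ^ 2 * ∫ x in slab V W c d, v x ^ 2 := fun t ht ht0 v hv =>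
    CV.schur hSMO hSCHUR h hac hdb hD hC ht (CV.kern_k h hk ht ht0)
      (fun x hx => hk.vol t ht ht0 x (slab_subset_cslab c d hx)) hv
  have hcmt : ∀ t : ℝ, 0 < t → t < t0 → ∀ v : E3 → ℝ,
      MemLp v 2 (volume.restrict (slab V W c d)) →
      MemLp (cmt V g W c d k t v) 2 (volume.restrict (slab V W c d)) ∧
      ∫ x in slab V W c d, cmt V g W c d k t v x ^ 2
        ≤ (C ^ 2) ^ 2 * D ^ 2 * ∫ x in slab V W c d, v x ^ 2 := fun t ht ht0 v hv =>
    CV.schur hSMO hSCHUR h hac hdb hD hC ht (CV.kern_l hSMO h hk ht ht0)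
      (fun x hx => hk.vol t ht ht0 x (slab_subset_cslab c d hx)) hv
  refine ⟨(C ^ 2) ^ 2 * D ^ 2, by positivity, fun v hv => ⟨fun t ht ht0 =>
    ⟨(hmoll t ht ht0 v hv).1, (hcmt t ht ht0 v hv).1, (hmoll t ht ht0 v hv).2,
      (hcmt t ht ht0 v hv).2⟩, ?_⟩⟩
  set C1 := (C ^ 2) ^ 2 * D ^ 2 with hC1
  have hC10 : 0 < C1 := by positivity
  rw [Metric.tendsto_nhds]
  intro ε hε
  -- approximation
  have hε1 : 0 < ε / (6 * (C1 + m0 ^ 2)) := by positivity
  have hv' : MemLp v (ENNReal.ofReal 2) (volume.restrict (slab V W c d)) := by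
    simpa using hv
  obtain ⟨φ, hφs, hφe, hφc, hφm⟩ := hv'.exists_hasCompactSupport_integral_rpow_sub_le
    (by norm_num : (0 : ℝ) < 2) hε1
  have hφm2 : MemLp φ 2 (volume.restrict (slab V W c d)) := by simpa using hφm
  obtain ⟨B, hB⟩ := hφc.bounded_above_of_compact_support hφs
  have hB0 : 0 ≤ B := le_trans (norm_nonneg _) (hB 0)
  have hφe2 : ∫ x in slab V W c d, (v x - φ x) ^ 2 ≤ ε / (6 * (C1 + m0 ^ 2)) := by
    refine le_trans (le_of_eq ?_) hφe
    refine integral_congr_ae (Eventually.of_forall fun x => ?_)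
    show (v x - φ x) ^ 2 = ‖v x - φ x‖ ^ (2 : ℝ)
    rw [Real.rpow_two, Real.norm_eq_abs, sq_abs]
  have hconv := CV.moll_tendsto_L2 hSMO h hac hdb hD0 hD hk hφc hB0 hB
    (fun t ht ht0 => (hmoll t ht ht0 φ hφm2).1.aestronglyMeasurable)
  have hev1 : ∀ᶠ t in 𝓝[>] (0 : ℝ),
      ∫ x in slab V W c d, (moll V g W c d k t φ x - m0 * φ x) ^ 2 < ε / 6 :=
    hconv.eventually_lt_const (by positivity)
  have hev2 : ∀ᶠ t in 𝓝[>] (0 : ℝ), 0 < t ∧ t < t0 := by
    have : Set.Ioo (0 : ℝ) t0 ∈ 𝓝[>] (0 : ℝ) := Ioo_mem_nhdsGT hk.t0_pos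
    filter_upwards [this] with t ht using ht
  filter_upwards [hev1, hev2] with t ht1 ht2
  obtain ⟨ht, ht0⟩ := ht2
  have hdm : MemLp (fun y => v y - φ y) 2 (volume.restrict (slab V W c d)) := hv.sub hφm2
  obtain ⟨hA1, hA2⟩ := hmoll t ht ht0 _ hdm
  obtain ⟨hB1, hB2⟩ := hmoll t ht ht0 _ hφm2
  have hE1 : Integrable (fun x => moll V g W c d k t (fun y => v y - φ y) x ^ 2)
      (volume.restrict (slab V W c d)) := hA1.integrable_sq
  have hE2 : Integrable (fun x => (moll V g W c d k t φ x - m0 * φ x) ^ 2)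
      (volume.restrict (slab V W c d)) := (hB1.sub (hφm2.const_mul m0)).integrable_sq
  have hE3 : Integrable (fun x => (v x - φ x) ^ 2)
      (volume.restrict (slab V W c d)) := hdm.integrable_sq
  have hle : ∫ x in slab V W c d, (moll V g W c d k t v x - m0 * v x) ^ 2 ≤
      ∫ x in slab V W c d, (3 * moll V g W c d k t (fun y => v y - φ y) x ^ 2
        + 3 * (moll V g W c d k t φ x - m0 * φ x) ^ 2 + 3 * m0 ^ 2 * (v x - φ x) ^ 2) := by
    refine integral_mono_of_nonneg (Eventually.of_forall fun x => sq_nonneg _)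
      (((hE1.const_mul 3).add (hE2.const_mul 3)).add (hE3.const_mul (3 * m0 ^ 2))) ?_
    refine (ae_restrict_iff' hm).2 (Eventually.of_forall fun x hx => ?_)
    show (moll V g W c d k t v x - m0 * v x) ^ 2 ≤
      3 * moll V g W c d k t (fun y => v y - φ y) x ^ 2
        + 3 * (moll V g W c d k t φ x - m0 * φ x) ^ 2 + 3 * m0 ^ 2 * (v x - φ x) ^ 2
    rw [CV.moll_sub hSMO h hac hdb hD hk ht ht0 hv hφm2 hx]
    nlinarith [sq_nonneg (moll V g W c d k t (fun y => v y - φ y) x
        - (moll V g W c d k t φ x - m0 * φ x)),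
      sq_nonneg (moll V g W c d k t (fun y => v y - φ y) x + m0 * (v x - φ x)),
      sq_nonneg ((moll V g W c d k t φ x - m0 * φ x) + m0 * (v x - φ x))]
  have hsum : ∫ x in slab V W c d, (3 * moll V g W c d k t (fun y => v y - φ y) x ^ 2
        + 3 * (moll V g W c d k t φ x - m0 * φ x) ^ 2 + 3 * m0 ^ 2 * (v x - φ x) ^ 2) =
      3 * (∫ x in slab V W c d, moll V g W c d k t (fun y => v y - φ y) x ^ 2)
      + 3 * (∫ x in slab V W c d, (moll V g W c d k t φ x - m0 * φ x) ^ 2)
      + 3 * m0 ^ 2 * ∫ x in slab V W c d, (v x - φ x) ^ 2 := by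
    have e1 : ∫ x in slab V W c d, (3 * moll V g W c d k t (fun y => v y - φ y) x ^ 2
        + 3 * (moll V g W c d k t φ x - m0 * φ x) ^ 2 + 3 * m0 ^ 2 * (v x - φ x) ^ 2) =
        (∫ x in slab V W c d, (3 * moll V g W c d k t (fun y => v y - φ y) x ^ 2
          + 3 * (moll V g W c d k t φ x - m0 * φ x) ^ 2))
        + ∫ x in slab V W c d, 3 * m0 ^ 2 * (v x - φ x) ^ 2 :=
      integral_add ((hE1.const_mul 3).add (hE2.const_mul 3)) (hE3.const_mul (3 * m0 ^ 2))
    have e2 : ∫ x in slab V W c d, (3 * moll V g W c d k t (fun y => v y - φ y) x ^ 2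
          + 3 * (moll V g W c d k t φ x - m0 * φ x) ^ 2) =
        (∫ x in slab V W c d, 3 * moll V g W c d k t (fun y => v y - φ y) x ^ 2)
        + ∫ x in slab V W c d, 3 * (moll V g W c d k t φ x - m0 * φ x) ^ 2 :=
      integral_add (hE1.const_mul 3) (hE2.const_mul 3)
    rw [e1, e2, integral_const_mul, integral_const_mul, integral_const_mul]
  have h0 : 0 ≤ ∫ x in slab V W c d, (moll V g W c d k t v x - m0 * v x) ^ 2 :=
    integral_nonneg fun x => sq_nonneg _
  rw [Real.dist_eq, sub_zero, abs_of_nonneg h0]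
  refine lt_of_le_of_lt hle ?_
  rw [hsum]
  have h3 : 3 * (∫ x in slab V W c d, moll V g W c d k t (fun y => v y - φ y) x ^ 2)
      + 3 * m0 ^ 2 * ∫ x in slab V W c d, (v x - φ x) ^ 2 ≤ ε / 2 := by
    calc 3 * (∫ x in slab V W c d, moll V g W c d k t (fun y => v y - φ y) x ^ 2)
        + 3 * m0 ^ 2 * ∫ x in slab V W c d, (v x - φ x) ^ 2
        ≤ 3 * (C1 * ∫ x in slab V W c d, (v x - φ x) ^ 2)
          + 3 * m0 ^ 2 * ∫ x in slab V W c d, (v x - φ x) ^ 2 := by linarith
      _ = 3 * (C1 + m0 ^ 2) * ∫ x in slab V W c d, (v x - φ x) ^ 2 := by ring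
      _ ≤ 3 * (C1 + m0 ^ 2) * (ε / (6 * (C1 + m0 ^ 2))) :=
          mul_le_mul_of_nonneg_left hφe2 (by positivity)
      _ = ε / 2 := by
          field_simp
          ring
  linarith

end Pool.Agent.PFlow.GB
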