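import Pool.Agent.PFlow.G.Base

/-!
# (CUT) The cut-off at the poles and its flux
-/

open MeasureTheory Filter Topology
open scoped ContDiff

namespace Pool.Agent.PFlow.GB

open Pool.Agent.PenroseSph Pool.Agent.PFlow

namespace CutAux

lemma hb_smooth : ContDiff ℝ ∞ hb := by
  unfold hb
  exact Real.smoothTransition.contDiff.comp ((contDiff_const.mul contDiff_id).sub contDiff_const)

lemma hb_zero {s : ℝ} (hs : s ≤ 1 / 2) : hb s = 0 :=
  Real.smoothTransition.zero_of_nonpos (by linarith)

lemma hb_one {s : ℝ} (hs : 1 ≤ s) : hb s = 1 :=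
  Real.smoothTransition.one_of_one_le (by linarith)

lemma hb_nonneg (s : ℝ) : 0 ≤ hb s := Real.smoothTransition.nonneg _

lemma hb_le_one (s : ℝ) : hb s ≤ 1 := Real.smoothTransition.le_one _

lemma deriv_hb_low {s : ℝ} (hs : s ≤ 1 / 2) : deriv hb s = 0 :=
  IsLocalMin.deriv_eq_zero (Filter.Eventually.of_forall (fun y => by
    rw [hb_zero hs]; exact hb_nonneg y))

lemma deriv_hb_high {s : ℝ} (hs : 1 ≤ s) : deriv hb s = 0 :=
  IsLocalMax.deriv_eq_zero (Filter.Eventually.of_forall (fun y => by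
    rw [hb_one hs]; exact hb_le_one y))

lemma continuous_deriv_hb : Continuous (deriv hb) := hb_smooth.continuous_deriv (by simp)

lemma deriv_hb_cs : HasCompactSupport (deriv hb) :=
  HasCompactSupport.intro (K := Set.Icc 0 1) isCompact_Icc (fun s hs => by
    by_cases h1 : s ≤ 1 / 2
    · exact deriv_hb_low h1
    · refine deriv_hb_high ?_
      by_contra h2
      exact hs ⟨by linarith, by linarith⟩)

lemma integral_deriv_hb : ∫ s in Set.Ioi (0 : ℝ), deriv hb s = 1 := by
  have h1 : Tendsto hb atTop (𝓝 1) :=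
    tendsto_const_nhds.congr' ((eventually_ge_atTop (1 : ℝ)).mono fun s hs => (hb_one hs).symm)
  have h2 := integral_Ioi_of_hasDerivAt_of_tendsto (f := hb) (f' := deriv hb) (a := 0) (m := 1)
    (hb_smooth.continuous.continuousWithinAt)
    (fun x _ => (hb_smooth.differentiable (by simp) x).hasDerivAt)
    ((continuous_deriv_hb.integrable_of_hasCompactSupport deriv_hb_cs).integrableOn) h1
  rw [h2, hb_zero (by norm_num)]
  norm_num

lemma isOpen_obox (z0 : E3) (r e : ℝ) : IsOpen (obox z0 r e) := by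
  have h : ∀ i : Fin 3, Continuous fun z : E3 => |z i - z0 i| := fun i => by fun_prop
  exact ((isOpen_lt (h 0) continuous_const).inter ((isOpen_lt (h 1) continuous_const).inter
    (isOpen_lt (h 2) continuous_const)))

lemma obox_subset (z0 : E3) (r e : ℝ) : obox z0 r e ⊆ box z0 r e :=
  fun _ hz => ⟨hz.1.le, hz.2.1.le, hz.2.2.le⟩

end CutAux

open CutAux

theorem CUT (hSMO : Stmt_SMO) (hCHX : Stmt_CHX) (hPOLE : Stmt_POLE) (hSCAL : Stmt_SCAL) :
    Stmt_CUT := by
  intro V a b g W hF Φ z0 r e hC t1 hsep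
  have hr := hC.r_pos
  have he := hC.e_pos
  obtain ⟨ht1, hsep⟩ := hsep
  obtain ⟨N, hN, hbN, hΦs, hinj, hmaps, hdet, hWΦ⟩ := hC.nbhd
  set pm := rp g W Φ z0 (-(r / 2)) with hpm
  set pp := rp g W Φ z0 (r / 2) with hpp
  set D := Φ '' obox z0 r e with hD
  set U := slab V W (z0 2 - e) (z0 2 + e) with hU
  set S := sing g W Φ z0 r e with hS
  obtain ⟨hca, hcb, hBc, hBV, hopen, -, -, -, -⟩ := hCHX V a b g W hF Φ z0 r e hC
  have hDo : IsOpen D := hopen _ (isOpen_obox z0 r e) subset_rfl
  have hUo : IsOpen U := isOpen_slab hF _ _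
  have hobN : obox z0 r e ⊆ N := (obox_subset z0 r e).trans hbN
  have hDV : D ⊆ V := by
    rintro x ⟨z, hz, rfl⟩
    exact hmaps (hobN hz)
  have hDU : D ⊆ U := by
    rintro x ⟨z, hz, rfl⟩
    refine ⟨hmaps (hobN hz), ?_⟩
    have h2 := abs_lt.1 hz.2.2
    simp only [Set.mem_preimage, Set.mem_Ioo, hWΦ z (hobN hz)]
    exact ⟨by linarith, by linarith⟩
  -- the smaller box
  have hC' : Chart V W Φ z0 (3 * r / 4) e :=
    { r_pos := by positivity
      e_pos := he
      nbhd := ⟨N, hN, fun z hz => hbN ⟨hz.1.trans (by linarith), hz.2.1.trans (by linarith),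
        hz.2.2⟩, hΦs, hinj, hmaps, hdet, hWΦ⟩ }
  set K' := Φ '' box z0 (3 * r / 4) e with hK'
  have hK'c : IsClosed K' := (hCHX V a b g W hF Φ z0 (3 * r / 4) e hC').2.2.1.isClosed
  have hK'D : ∀ x ∈ U, x ∈ K' → x ∈ D := by
    rintro x hx ⟨z, hz, rfl⟩
    have hzb : z ∈ box z0 r e := ⟨hz.1.trans (by linarith), hz.2.1.trans (by linarith), hz.2.2⟩
    have h2 := hx.2
    simp only [Set.mem_preimage, Set.mem_Ioo, hWΦ z (hbN hzb)] at h2
    exact ⟨z, ⟨by linarith [hz.1], by linarith [hz.2.1], abs_lt.2 ⟨by linarith, by linarith⟩⟩, rfl⟩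
  have hfar : ∀ x ∈ D, x ∉ K' → t1 < pm x ∧ t1 < pp x := by
    rintro x ⟨z, hz, rfl⟩ hx
    have hzb := obox_subset z0 r e hz
    constructor
    · by_contra h
      obtain ⟨h0, h1⟩ := hsep z hzb (-(r / 2)) (Or.inr rfl) (not_lt.1 h)
      apply hx
      refine ⟨z, ⟨?_, by linarith, hzb.2.2⟩, rfl⟩
      rw [abs_le] at h0 ⊢
      constructor <;> linarith [h0.1, h0.2]
    · by_contra h
      obtain ⟨h0, h1⟩ := hsep z hzb (r / 2) (Or.inl rfl) (not_lt.1 h)
      apply hx
      refine ⟨z, ⟨?_, by linarith, hzb.2.2⟩, rfl⟩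
      rw [abs_le] at h0 ⊢
      constructor <;> linarith [h0.1, h0.2]
  have hdisj : ∀ x ∈ D, pm x ≤ t1 → pp x ≤ t1 → False := by
    rintro x ⟨z, hz, rfl⟩ h1 h2
    have hzb := obox_subset z0 r e hz
    obtain ⟨h3, -⟩ := hsep z hzb (-(r / 2)) (Or.inr rfl) h1
    obtain ⟨h4, -⟩ := hsep z hzb (r / 2) (Or.inl rfl) h2
    rw [abs_le] at h3 h4
    linarith [h3.1, h3.2, h4.1, h4.2]
  have hτm : |(-(r / 2))| < r := by rw [abs_neg, abs_of_pos (by positivity)]; linarith
  have hτp : |r / 2| < r := by rw [abs_of_pos (by positivity)]; linarith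
  obtain ⟨hpms, cm, Cm, hcm, -, hpmb, -⟩ := hPOLE V a b g W hF Φ z0 r e hC (-(r / 2)) hτm
  obtain ⟨hpps, cp, Cp, hcp, -, hppb, -⟩ := hPOLE V a b g W hF Φ z0 r e hC (r / 2) hτp
  rw [← hpm, ← hD] at hpms
  rw [← hpp, ← hD] at hpps
  have hpm0 : ∀ x ∈ D, 0 ≤ pm x := by
    rintro x ⟨z, hz, rfl⟩
    exact le_trans (by positivity) (hpmb z (obox_subset z0 r e hz)).1
  have hpp0 : ∀ x ∈ D, 0 ≤ pp x := by
    rintro x ⟨z, hz, rfl⟩
    exact le_trans (by positivity) (hppb z (obox_subset z0 r e hz)).1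
  have hpma : ∀ x ∈ D, ContDiffAt ℝ ∞ pm x := fun x hx =>
    (hpms x hx).contDiffAt (hDo.mem_nhds hx)
  have hppa : ∀ x ∈ D, ContDiffAt ℝ ∞ pp x := fun x hx =>
    (hpps x hx).contDiffAt (hDo.mem_nhds hx)
  have hcutD : ∀ t : ℝ, ∀ x ∈ D, cut g W Φ z0 r e t x = hb (pm x / t) * hb (pp x / t) := by
    intro t x hx
    unfold cut
    rw [if_pos hx]
  have hcutN : ∀ t : ℝ, ∀ x, x ∉ D → cut g W Φ z0 r e t x = 1 := by
    intro t x hx
    unfold cut
    rw [if_neg hx]
  have hcutDe : ∀ t : ℝ, ∀ x ∈ D,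
      cut g W Φ z0 r e t =ᶠ[𝓝 x] fun y => hb (pm y / t) * hb (pp y / t) := by
    intro t x hx
    filter_upwards [hDo.mem_nhds hx] with y hy
    exact hcutD t y hy
  have hcutNe : ∀ t : ℝ, 0 < t → t < t1 → ∀ x ∈ U, x ∉ D →
      cut g W Φ z0 r e t =ᶠ[𝓝 x] fun _ => 1 := by
    intro t ht htt x hxU hx
    have hxK : x ∉ K' := fun h => hx (hK'D x hxU h)
    filter_upwards [hK'c.isOpen_compl.mem_nhds hxK] with y hy
    by_cases hyD : y ∈ D
    · obtain ⟨h1, h2⟩ := hfar y hyD hy
      rw [hcutD t y hyD, hb_one, hb_one, one_mul]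
      · rw [le_div_iff₀ ht]; linarith
      · rw [le_div_iff₀ ht]; linarith
    · exact hcutN t y hyD
  have hcuts : ∀ t : ℝ, ∀ x ∈ D, ContDiffAt ℝ ∞ (cut g W Φ z0 r e t) x := by
    intro t x hx
    refine ContDiffAt.congr_of_eventuallyEq ?_ (hcutDe t x hx)
    exact (hb_smooth.contDiffAt.comp x ((hpma x hx).div_const t)).mul
      (hb_smooth.contDiffAt.comp x ((hppa x hx).div_const t))
  have hSD : S ⊆ D := fun x hx => hx.1
  refine ⟨?_, ?_, ?_, ?_⟩
  · intro t ht htt
    refine ⟨fun x hx => ?_, fun x hx => ?_⟩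
    · by_cases hxD : x ∈ D
      · exact (hcuts t x hxD).contDiffWithinAt
      · exact (contDiffAt_const.congr_of_eventuallyEq (hcutNe t ht htt x hx hxD)).contDiffWithinAt
    · have hxD : x ∈ D := hSD hx
      rcases hx.2 with h0 | h0
      · have h1 : ∀ᶠ y in 𝓝 x, pm y < t / 2 := by
          have : ContinuousAt pm x := (hpma x hxD).continuousAt
          refine this.eventually_lt continuousAt_const ?_
          change pm x < t / 2
          rw [show pm x = 0 from h0]; linarith
        filter_upwards [h1, hDo.mem_nhds hxD] with y hy hyD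
        rw [hcutD t y hyD, hb_zero, zero_mul]
        rw [div_le_iff₀ ht]; linarith
      · have h1 : ∀ᶠ y in 𝓝 x, pp y < t / 2 := by
          have : ContinuousAt pp x := (hppa x hxD).continuousAt
          refine this.eventually_lt continuousAt_const ?_
          change pp x < t / 2
          rw [show pp x = 0 from h0]; linarith
        filter_upwards [h1, hDo.mem_nhds hxD] with y hy hyD
        rw [hcutD t y hyD, hb_zero (s := pp y / t), mul_zero]
        rw [div_le_iff₀ ht]; linarith
  · intro t x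
    by_cases hx : x ∈ D
    · rw [hcutD t x hx]
      exact ⟨mul_nonneg (hb_nonneg _) (hb_nonneg _),
        mul_le_one₀ (hb_le_one _) (hb_nonneg _) (hb_le_one _)⟩
    · rw [hcutN t x hx]; exact ⟨zero_le_one, le_rfl⟩
  · intro x hx hxS
    by_cases hxD : x ∈ D
    · have h1 : 0 < pm x := lt_of_le_of_ne (hpm0 x hxD) (fun h => hxS ⟨hxD, Or.inl h.symm⟩)
      have h2 : 0 < pp x := lt_of_le_of_ne (hpp0 x hxD) (fun h => hxS ⟨hxD, Or.inr h.symm⟩)
      have h3 : ∀ᶠ t in 𝓝[>] (0 : ℝ), t < min (pm x) (pp x) :=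
        mem_nhdsWithin_of_mem_nhds (Iio_mem_nhds (lt_min h1 h2))
      refine tendsto_const_nhds.congr' ?_
      filter_upwards [h3, self_mem_nhdsWithin] with t ht ht0
      have ht0' : 0 < t := ht0
      obtain ⟨h4, h5⟩ := lt_min_iff.1 ht
      rw [hcutD t x hxD, hb_one, hb_one, one_mul]
      · rw [le_div_iff₀ ht0']; linarith
      · rw [le_div_iff₀ ht0']; linarith
    · refine tendsto_const_nhds.congr' ?_
      exact Filter.Eventually.of_forall fun t => (hcutN t x hxD).symm
  · intro Y κ1 κ2 C t2 hY ht2 hY1 hY2 ψ hψ hψs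
    obtain ⟨hnm, hscm⟩ := hSCAL V a b g W hF Φ z0 r e hC (-(r / 2)) hτm
    obtain ⟨hnp, hscp⟩ := hSCAL V a b g W hF Φ z0 r e hC (r / 2) hτp
    have hψc : Continuous ψ := hψ.continuous
    have hψa : Continuous fun s => |ψ s| := hψc.abs
    have hψas : tsupport (fun s => |ψ s|) ⊆ Set.Ioo (z0 2 - e) (z0 2 + e) := by
      refine le_trans ?_ hψs
      refine closure_mono ?_
      intro s hs
      simpa using hs
    have hda : Continuous fun s => |deriv hb s| := continuous_deriv_hb.abs
    have hL1 := hscm (deriv hb) ψ 1 continuous_deriv_hb (fun s hs => deriv_hb_high hs) hψc hψs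
    have hL2 := hscp (deriv hb) ψ 1 continuous_deriv_hb (fun s hs => deriv_hb_high hs) hψc hψs
    have hM1 := hscm (fun s => |deriv hb s|) (fun s => |ψ s|) 1 hda
      (fun s hs => by rw [deriv_hb_high hs, abs_zero]) hψa hψas
    have hM2 := hscp (fun s => |deriv hb s|) (fun s => |ψ s|) 1 hda
      (fun s hs => by rw [deriv_hb_high hs, abs_zero]) hψa hψas
    rw [integral_deriv_hb, mul_one] at hL1 hL2
    simp only [← hpm, ← hpp, ← hD] at hL1 hL2 hM1 hM2 hnm hnp
    -- the singular set is null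
    have hSnull : volume S = 0 := by
      refine measure_mono_null ?_ (measure_union_null hnm hnp)
      rintro x ⟨hxD, h | h⟩
      · exact Or.inl ⟨hxD, h⟩
      · exact Or.inr ⟨hxD, h⟩
    -- continuity and bounds
    have hWc : ContinuousOn W V := hF.continuousOn
    have hdc : ContinuousOn (dens g W) V := fun x hx =>
      ((hSMO.2 g W x (hSMO.1 V a b g W hF x hx)).2.2.2.2.2.2.2.2.1).continuousAt.continuousWithinAt
    have hdpos : ∀ x ∈ V, 0 < dens g W x := fun x hx =>
      (hSMO.2 g W x (hSMO.1 V a b g W hF x hx)).2.2.2.1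
    have hψW : ContinuousOn (fun x => ψ (W x)) V := hψc.comp_continuousOn hWc
    have hDB : D ⊆ Φ '' box z0 r e := Set.image_mono (obox_subset z0 r e)
    have hDfin : volume D ≠ ⊤ :=
      (lt_of_le_of_lt (measure_mono hDB) hBc.measure_lt_top).ne
    obtain ⟨M1, hM1b⟩ := hBc.exists_bound_of_continuousOn (hdc.mono hBV)
    obtain ⟨M2, hM2b⟩ := hBc.exists_bound_of_continuousOn (hψW.mono hBV)
    obtain ⟨M3, hM3b⟩ := continuous_deriv_hb.bounded_above_of_compact_support deriv_hb_cs
    have hM3 : 0 ≤ M3 := (norm_nonneg _).trans (hM3b 0)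
    have hpmc : ContinuousOn pm D := hpms.continuousOn
    have hppc : ContinuousOn pp D := hpps.continuousOn
    have hint : ∀ (q : E3 → ℝ) (t : ℝ), ContinuousOn q D →
        IntegrableOn (fun x => ψ (W x) * deriv hb (q x / t) * dens g W x) D := by
      intro q t hq
      refine Integrable.mono' (integrableOn_const (C := M2 * M3 * M1) hDfin) ?_ ?_
      · refine ContinuousOn.aestronglyMeasurable ?_ hDo.measurableSet
        exact ((hψW.mono hDV).mul (continuous_deriv_hb.comp_continuousOn (hq.div_const t))).mul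
          (hdc.mono hDV)
      · refine (ae_restrict_iff' hDo.measurableSet).2 (Filter.Eventually.of_forall fun x hx => ?_)
        have h1 := hM1b x (hDB hx)
        have h2 := hM2b x (hDB hx)
        have h3 := hM3b (q x / t)
        have h2' : 0 ≤ M2 := (norm_nonneg _).trans h2
        rw [norm_mul, norm_mul]
        gcongr
    have hinta : ∀ (q : E3 → ℝ) (t : ℝ), ContinuousOn q D →
        IntegrableOn (fun x => |ψ (W x)| * |deriv hb (q x / t)| * dens g W x) D := by
      intro q t hq
      refine Integrable.mono' (integrableOn_const (C := M2 * M3 * M1) hDfin) ?_ ?_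
      · refine ContinuousOn.aestronglyMeasurable ?_ hDo.measurableSet
        exact ((hψW.mono hDV).abs.mul
          (continuous_deriv_hb.comp_continuousOn (hq.div_const t)).abs).mul (hdc.mono hDV)
      · refine (ae_restrict_iff' hDo.measurableSet).2 (Filter.Eventually.of_forall fun x hx => ?_)
        have h1 := hM1b x (hDB hx)
        have h2 := hM2b x (hDB hx)
        have h3 := hM3b (q x / t)
        have h2' : 0 ≤ M2 := (norm_nonneg _).trans h2
        rw [norm_mul, norm_mul, Real.norm_eq_abs, Real.norm_eq_abs, abs_abs, abs_abs,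
          ← Real.norm_eq_abs, ← Real.norm_eq_abs]
        gcongr
    -- the derivative of the cut-off
    have hpd : ∀ t : ℝ, 0 < t → t < t1 → ∀ x ∈ D, ∀ i, pd i (cut g W Φ z0 r e t) x
        = t⁻¹ * deriv hb (pm x / t) * pd i pm x + t⁻¹ * deriv hb (pp x / t) * pd i pp x := by
      intro t ht htt x hx i
      have h1 : HasFDerivAt (fun y => hb (pm y / t))
          (deriv hb (pm x / t) • (t⁻¹ • fderiv ℝ pm x)) x := by
        have h2 : HasFDerivAt (fun y => pm y / t) (t⁻¹ • fderiv ℝ pm x) x := by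
          have := ((hpma x hx).differentiableAt (by simp)).hasFDerivAt.const_mul t⁻¹
          refine this.congr_of_eventuallyEq (Filter.Eventually.of_forall fun y => ?_)
          simp only [div_eq_inv_mul]
        exact HasDerivAt.comp_hasFDerivAt (h₂ := hb) x
          ((hb_smooth.differentiable (by simp) (pm x / t)).hasDerivAt) h2
      have h1' : HasFDerivAt (fun y => hb (pp y / t))
          (deriv hb (pp x / t) • (t⁻¹ • fderiv ℝ pp x)) x := by
        have h2 : HasFDerivAt (fun y => pp y / t) (t⁻¹ • fderiv ℝ pp x) x := by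
          have := ((hppa x hx).differentiableAt (by simp)).hasFDerivAt.const_mul t⁻¹
          refine this.congr_of_eventuallyEq (Filter.Eventually.of_forall fun y => ?_)
          simp only [div_eq_inv_mul]
        exact HasDerivAt.comp_hasFDerivAt (h₂ := hb) x
          ((hb_smooth.differentiable (by simp) (pp x / t)).hasDerivAt) h2
      have h3 := (h1.mul h1').congr_of_eventuallyEq (hcutDe t x hx)
      unfold pd
      rw [h3.fderiv]
      simp only [add_apply, smul_apply, smul_eq_mul]
      by_cases h4 : pm x ≤ t1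
      · have h5 : t1 < pp x := by
          by_contra h
          exact hdisj x hx h4 (not_lt.1 h)
        have h6 : 1 ≤ pp x / t := by rw [le_div_iff₀ ht]; linarith
        rw [deriv_hb_high h6, hb_one h6]
        ring
      · have h6 : 1 ≤ pm x / t := by rw [le_div_iff₀ ht]; linarith
        rw [deriv_hb_high h6, hb_one h6]
        ring
    set F : ℝ → E3 → ℝ := fun t x =>
      ψ (W x) * (∑ i, pd i (cut g W Φ z0 r e t) x * Y x i) * dens g W x with hFdef
    have hFN : ∀ t : ℝ, 0 < t → t < t1 → ∀ x ∈ U, x ∉ D → F t x = 0 := by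
      intro t ht htt x hxU hx
      have h1 : ∀ i, pd i (cut g W Φ z0 r e t) x = 0 := by
        intro i
        unfold pd
        rw [(hcutNe t ht htt x hxU hx).fderiv_eq]
        simp
      simp only [hFdef, h1, zero_mul, Finset.sum_const_zero, mul_zero]
    -- the pointwise error
    have herr1 : ∀ (q : E3 → ℝ) (κ : ℝ), (∀ x ∈ D, 0 < q x → q x < t2 →
        |∑ i, pd i q x * Y x i - κ| ≤ C * Real.sqrt (q x)) → ∀ t : ℝ, 0 < t → t < t2 → ∀ x ∈ D,
        |deriv hb (q x / t) * (∑ i, pd i q x * Y x i - κ)|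
          ≤ |C| * Real.sqrt t * |deriv hb (q x / t)| := by
      intro q κ hq t ht htt x hx
      by_cases h1 : deriv hb (q x / t) = 0
      · rw [h1]; simp
      · have h2 : 1 / 2 < q x / t := by
          by_contra h
          exact h1 (deriv_hb_low (not_lt.1 h))
        have h3 : q x / t < 1 := by
          by_contra h
          exact h1 (deriv_hb_high (not_lt.1 h))
        rw [lt_div_iff₀ ht] at h2
        rw [div_lt_iff₀ ht] at h3
        have h4 := hq x hx (by linarith) (by linarith)
        have h5 : C * Real.sqrt (q x) ≤ |C| * Real.sqrt t :=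
          mul_le_mul (le_abs_self C) (Real.sqrt_le_sqrt (by linarith)) (Real.sqrt_nonneg _)
            (abs_nonneg C)
        rw [abs_mul, mul_comm]
        exact mul_le_mul_of_nonneg_right (h4.trans h5) (abs_nonneg _)
    have herr : ∀ t : ℝ, 0 < t → t < t1 → t < t2 → ∀ x ∈ D,
        |F t x - (κ1 * (t⁻¹ * (ψ (W x) * deriv hb (pm x / t) * dens g W x))
          + κ2 * (t⁻¹ * (ψ (W x) * deriv hb (pp x / t) * dens g W x)))|
        ≤ |C| * Real.sqrt t * (t⁻¹ * (|ψ (W x)| * |deriv hb (pm x / t)| * dens g W x)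
          + t⁻¹ * (|ψ (W x)| * |deriv hb (pp x / t)| * dens g W x)) := by
      intro t ht htt htt2 x hx
      have h1 : ∑ i, pd i (cut g W Φ z0 r e t) x * Y x i
          = t⁻¹ * (deriv hb (pm x / t) * ∑ i, pd i pm x * Y x i
            + deriv hb (pp x / t) * ∑ i, pd i pp x * Y x i) := by
        rw [Finset.mul_sum, Finset.mul_sum, ← Finset.sum_add_distrib, Finset.mul_sum]
        refine Finset.sum_congr rfl fun i _ => ?_
        rw [hpd t ht htt x hx i]
        ring
      have h2 : F t x - (κ1 * (t⁻¹ * (ψ (W x) * deriv hb (pm x / t) * dens g W x))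
          + κ2 * (t⁻¹ * (ψ (W x) * deriv hb (pp x / t) * dens g W x)))
          = t⁻¹ * ψ (W x) * dens g W x
            * (deriv hb (pm x / t) * (∑ i, pd i pm x * Y x i - κ1)
              + deriv hb (pp x / t) * (∑ i, pd i pp x * Y x i - κ2)) := by
        simp only [hFdef]
        rw [h1]
        ring
      have h3 := herr1 pm κ1 hY1 t ht htt2 x hx
      have h4 := herr1 pp κ2 hY2 t ht htt2 x hx
      have h5 := abs_add_le (deriv hb (pm x / t) * (∑ i, pd i pm x * Y x i - κ1))
        (deriv hb (pp x / t) * (∑ i, pd i pp x * Y x i - κ2))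
      have h6 := hdpos x (hDV hx)
      rw [h2, abs_mul, abs_mul, abs_mul, abs_of_pos h6, abs_of_pos (inv_pos.2 ht)]
      calc t⁻¹ * |ψ (W x)| * dens g W x * _ ≤ t⁻¹ * |ψ (W x)| * dens g W x
            * (|C| * Real.sqrt t * |deriv hb (pm x / t)|
              + |C| * Real.sqrt t * |deriv hb (pp x / t)|) := by
              refine mul_le_mul_of_nonneg_left (h5.trans (add_le_add h3 h4)) ?_
              have := inv_pos.2 ht
              positivity
        _ = _ := by ring
    -- measurability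
    have hmeas : ∀ t : ℝ, AEStronglyMeasurable (F t) (volume.restrict D) := by
      intro t
      have h1 : (D \ S : Set E3) =ᵐ[volume] D := sdiff_null_ae_eq_self hSnull
      rw [← Measure.restrict_congr_set h1]
      have hDSo : IsOpen (D \ S) := by
        have h2 : D \ S = (D ∩ pm ⁻¹' {0}ᶜ) ∩ (D ∩ pp ⁻¹' {0}ᶜ) := by
          ext x
          constructor
          · rintro ⟨hx, hxS⟩
            exact ⟨⟨hx, fun h => hxS ⟨hx, Or.inl h⟩⟩, ⟨hx, fun h => hxS ⟨hx, Or.inr h⟩⟩⟩
          · rintro ⟨⟨hx, h3⟩, ⟨-, h4⟩⟩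
            refine ⟨hx, ?_⟩
            rintro ⟨-, h | h⟩
            · exact h3 h
            · exact h4 h
        rw [h2]
        exact (hpmc.isOpen_inter_preimage hDo isOpen_compl_singleton).inter
          (hppc.isOpen_inter_preimage hDo isOpen_compl_singleton)
      refine ContinuousOn.aestronglyMeasurable ?_ hDSo.measurableSet
      have hDSV : D \ S ⊆ V := Set.sdiff_subset.trans hDV
      refine ((hψW.mono hDSV).mul ?_).mul (hdc.mono hDSV)
      refine continuousOn_finsetSum _ fun i _ => ContinuousOn.mul ?_ ?_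
      · intro x hx
        have h3 : ContDiffAt ℝ 0 (fderiv ℝ (cut g W Φ z0 r e t)) x :=
          (hcuts t x hx.1).fderiv_right (m := 0) (by simp)
        have h4 : ContinuousAt (fun y => fderiv ℝ (cut g W Φ z0 r e t) y
            (EuclideanSpace.single i 1)) x := h3.continuousAt.clm_apply continuousAt_const
        exact h4.continuousWithinAt
      · exact ((hY i).continuousOn).mono (Set.sdiff_subset_sdiff_left hDU)
    set G1 : ℝ → ℝ := fun t => t⁻¹ * ∫ x in D, ψ (W x) * deriv hb (pm x / t) * dens g W x with hG1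
    set G2 : ℝ → ℝ := fun t => t⁻¹ * ∫ x in D, ψ (W x) * deriv hb (pp x / t) * dens g W x with hG2
    set H1 : ℝ → ℝ := fun t => t⁻¹ * ∫ x in D, |ψ (W x)| * |deriv hb (pm x / t)| * dens g W x
      with hH1
    set H2 : ℝ → ℝ := fun t => t⁻¹ * ∫ x in D, |ψ (W x)| * |deriv hb (pp x / t)| * dens g W x
      with hH2
    have hmain : ∀ t : ℝ, 0 < t → t < t1 → t < t2 →
        |(∫ x in U, F t x) - (κ1 * G1 t + κ2 * G2 t)| ≤ |C| * Real.sqrt t * (H1 t + H2 t) := by
      intro t ht htt htt2
      have e1 : ∫ x in U, F t x = ∫ x in D, F t x :=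
        setIntegral_eq_of_subset_of_forall_sdiff_eq_zero hUo.measurableSet hDU
          (fun x hx => hFN t ht htt x hx.1 hx.2)
      have i1 := ((hint pm t hpmc).const_mul t⁻¹).const_mul κ1
      have i2 := ((hint pp t hppc).const_mul t⁻¹).const_mul κ2
      have j1 := (hinta pm t hpmc).const_mul t⁻¹
      have j2 := (hinta pp t hppc).const_mul t⁻¹
      have i12 : Integrable (fun x => κ1 * (t⁻¹ * (ψ (W x) * deriv hb (pm x / t) * dens g W x))
          + κ2 * (t⁻¹ * (ψ (W x) * deriv hb (pp x / t) * dens g W x))) (volume.restrict D) :=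
        i1.add i2
      have j12 : Integrable (fun x => |C| * Real.sqrt t
          * (t⁻¹ * (|ψ (W x)| * |deriv hb (pm x / t)| * dens g W x)
          + t⁻¹ * (|ψ (W x)| * |deriv hb (pp x / t)| * dens g W x))) (volume.restrict D) :=
        (j1.add j2).const_mul (|C| * Real.sqrt t)
      have hle : ∀ᵐ x ∂(volume.restrict D),
          ‖F t x - (κ1 * (t⁻¹ * (ψ (W x) * deriv hb (pm x / t) * dens g W x))
          + κ2 * (t⁻¹ * (ψ (W x) * deriv hb (pp x / t) * dens g W x)))‖
          ≤ |C| * Real.sqrt t * (t⁻¹ * (|ψ (W x)| * |deriv hb (pm x / t)| * dens g W x)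
          + t⁻¹ * (|ψ (W x)| * |deriv hb (pp x / t)| * dens g W x)) :=
        (ae_restrict_iff' hDo.measurableSet).2
          (Filter.Eventually.of_forall fun x hx => herr t ht htt htt2 x hx)
      have k1 : IntegrableOn (fun x => F t x
          - (κ1 * (t⁻¹ * (ψ (W x) * deriv hb (pm x / t) * dens g W x))
          + κ2 * (t⁻¹ * (ψ (W x) * deriv hb (pp x / t) * dens g W x)))) D :=
        Integrable.mono' j12 ((hmeas t).sub i12.aestronglyMeasurable) hle
      have k2 : IntegrableOn (F t) D := by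
        have := k1.add i12
        refine this.congr (Filter.Eventually.of_forall fun x => ?_)
        simp only [Pi.add_apply]
        ring
      have e2 : (∫ x in U, F t x) - (κ1 * G1 t + κ2 * G2 t) = ∫ x in D, (F t x
          - (κ1 * (t⁻¹ * (ψ (W x) * deriv hb (pm x / t) * dens g W x))
          + κ2 * (t⁻¹ * (ψ (W x) * deriv hb (pp x / t) * dens g W x)))) := by
        rw [integral_sub k2 i12, e1]
        congr 1
        have := integral_add i1 i2
        simp only [integral_const_mul] at this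
        rw [this]
      have e3 : |C| * Real.sqrt t * (H1 t + H2 t) = ∫ x in D,
          |C| * Real.sqrt t * (t⁻¹ * (|ψ (W x)| * |deriv hb (pm x / t)| * dens g W x)
          + t⁻¹ * (|ψ (W x)| * |deriv hb (pp x / t)| * dens g W x)) := by
        rw [integral_const_mul]
        congr 1
        have := integral_add j1 j2
        simp only [integral_const_mul] at this
        rw [this]
      rw [e2, e3, ← Real.norm_eq_abs]
      exact norm_integral_le_of_norm_le j12 hle
    have hlim : Tendsto (fun t => κ1 * G1 t + κ2 * G2 t) (𝓝[>] 0)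
        (𝓝 (κ1 * (Real.pi * ∫ s, ψ s) + κ2 * (Real.pi * ∫ s, ψ s))) :=
      (hL1.const_mul κ1).add (hL2.const_mul κ2)
    have hzero : Tendsto (fun t => |C| * Real.sqrt t * (H1 t + H2 t)) (𝓝[>] 0) (𝓝 0) := by
      have h1 : Tendsto (fun t => |C| * Real.sqrt t) (𝓝[>] (0 : ℝ)) (𝓝 0) := by
        have : Tendsto (fun t => |C| * Real.sqrt t) (𝓝 (0 : ℝ)) (𝓝 (|C| * Real.sqrt 0)) :=
          (Real.continuous_sqrt.tendsto 0).const_mul |C|
        rw [Real.sqrt_zero, mul_zero] at this
        exact this.mono_left nhdsWithin_le_nhds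
      have h2 := h1.mul (hM1.add hM2)
      rw [zero_mul] at h2
      exact h2
    have hdiff : Tendsto (fun t => (∫ x in U, F t x) - (κ1 * G1 t + κ2 * G2 t)) (𝓝[>] 0)
        (𝓝 0) := by
      refine squeeze_zero_norm' ?_ hzero
      have h3 : ∀ᶠ t in 𝓝[>] (0 : ℝ), t < min t1 t2 :=
        mem_nhdsWithin_of_mem_nhds (Iio_mem_nhds (lt_min ht1 ht2))
      filter_upwards [h3, self_mem_nhdsWithin] with t ht ht0
      obtain ⟨h4, h5⟩ := lt_min_iff.1 ht
      exact hmain t ht0 h4 h5
    have hfin := hdiff.add hlim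
    rw [zero_add] at hfin
    have e4 : (κ1 + κ2) * Real.pi * ∫ s, ψ s
        = κ1 * (Real.pi * ∫ s, ψ s) + κ2 * (Real.pi * ∫ s, ψ s) := by ring
    rw [e4]
    refine hfin.congr fun t => ?_
    simp only [sub_add_cancel, hFdef]

end Pool.Agent.PFlow.GB
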