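import Pool.Agent.PFlow.G.Base

/-!
# DENS: density of the range of `κ - L`
-/

open MeasureTheory Filter Topology
open scoped ContDiff

namespace Pool.Agent.PFlow.GB

open Pool.Agent.PenroseSph Pool.Agent.PFlow

namespace DENSaux

lemma inner_mul (a b : ℝ) : inner ℝ a b = a * b := by
  simp [mul_comm]

lemma pd_lin {f h : E3 → ℝ} {x : E3} (c : ℝ) (hf : DifferentiableAt ℝ f x)
    (hh : DifferentiableAt ℝ h x) (i : Fin 3) :
    pd i (fun y => f y + c * h y) x = pd i f x + c * pd i h x := by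
  unfold pd
  have h1 : HasFDerivAt (fun y => f y + c * h y) (fderiv ℝ f x + c • fderiv ℝ h x) x :=
    hf.hasFDerivAt.add (hh.hasFDerivAt.const_mul c)
  rw [h1.fderiv]
  simp

lemma lgrad_lin (g : TensorField) (W : E3 → ℝ) {f h : E3 → ℝ} {x : E3} (c : ℝ)
    (hf : DifferentiableAt ℝ f x) (hh : DifferentiableAt ℝ h x) (i : Fin 3) :
    lgrad g W (fun y => f y + c * h y) x i = lgrad g W f x i + c * lgrad g W h x i := by
  have h1 : ∀ j, grad (fun y => f y + c * h y) x j = grad f x j + c * grad h x j :=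
    fun j => pd_lin c hf hh j
  simp only [lgrad, raise, h1, Fin.sum_univ_three]
  ring

/-- The leafwise Laplacian is linear. -/
lemma lap_lin (hSMO : Stmt_SMO) {g : TensorField} {W : E3 → ℝ} {f h : E3 → ℝ} {x : E3}
    (hx : Reg g W x) (c : ℝ) (hf : ContDiff ℝ ∞ f) (hh : ContDiff ℝ ∞ h) :
    lap g W (fun y => f y + c * h y) x = lap g W f x + c * lap g W h x := by
  obtain ⟨-, -, -, hd0, -, -, -, -, hd, -, -, -, hl, -, -⟩ := hSMO.2 g W x hx
  have hfd : Differentiable ℝ f := hf.differentiable (by simp)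
  have hhd : Differentiable ℝ h := hh.differentiable (by simp)
  have hdd : DifferentiableAt ℝ (dens g W) x := hd.differentiableAt (by simp)
  have hlf : ∀ i, DifferentiableAt ℝ (fun y => lgrad g W f y i) x := fun i =>
    ((hl f f hf.contDiffAt hf.contDiffAt).2.2 i).differentiableAt (by simp)
  have hlh : ∀ i, DifferentiableAt ℝ (fun y => lgrad g W h y i) x := fun i =>
    ((hl h h hh.contDiffAt hh.contDiffAt).2.2 i).differentiableAt (by simp)
  have h1 : ∀ i, pd i (fun y => dens g W y * lgrad g W (fun y => f y + c * h y) y i) x =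
      pd i (fun y => dens g W y * lgrad g W f y i) x +
        c * pd i (fun y => dens g W y * lgrad g W h y i) x := by
    intro i
    have h2 : pd i (fun y => dens g W y * lgrad g W f y i +
        c * (dens g W y * lgrad g W h y i)) x = pd i (fun y => dens g W y * lgrad g W f y i) x +
        c * pd i (fun y => dens g W y * lgrad g W h y i) x :=
      pd_lin c (hdd.mul (hlf i)) (hdd.mul (hlh i)) i
    rw [← h2]
    congr 1
    funext y
    rw [lgrad_lin g W c (hfd y) (hhd y) i]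
    ring
  simp only [lap, ldiv, h1, Fin.sum_univ_three]
  ring

end DENSaux

open DENSaux in
theorem DENS (hSMO : Stmt_SMO) (hWU : Stmt_WU) : Stmt_DENS := by
  intro V a b g W hF c d hac hcd hdb κ hκ ρ hρ ε hε
  set U : Set E3 := slab V W c d with hU
  set μ : Measure E3 := volume.restrict U with hμ
  have hUm : MeasurableSet U := measurableSet_slab hF c d
  have hUV : U ⊆ V := slab_subset c d
  have : IsFiniteMeasure μ := ⟨by
    rw [hμ, Measure.restrict_apply_univ]
    exact volume_slab_lt_top hF hac hdb⟩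
  have hK : IsCompact (cslab V W c d) := hF.proper c d hac hdb
  have hUK : U ⊆ cslab V W c d := slab_subset_cslab c d
  have hKV : cslab V W c d ⊆ V := cslab_subset c d
  have hreg : ∀ x ∈ V, Reg g W x := fun x hx => hF.reg hx
  have hd0 : ∀ x ∈ V, 0 < dens g W x := fun x hx => (hSMO.2 g W x (hreg x hx)).2.2.2.1
  have hdc : ContinuousOn (dens g W) V := fun x hx =>
    ((hSMO.2 g W x (hreg x hx)).2.2.2.2.2.2.2.2.1).continuousAt.continuousWithinAt
  have hlapc : ∀ h : E3 → ℝ, ContDiff ℝ ∞ h → ContinuousOn (lap g W h) V := fun h hh x hx =>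
    (((hSMO.2 g W x (hreg x hx)).2.2.2.2.2.2.2.2.2.2.2.2.1 h h hh.contDiffAt
      hh.contDiffAt).2.1).continuousAt.continuousWithinAt
  let s : E3 → ℝ := fun x => Real.sqrt (dens g W x)
  have hs0 : ∀ x ∈ V, 0 < s x := fun x hx => Real.sqrt_pos.2 (hd0 x hx)
  have hss : ∀ x ∈ V, s x * s x = dens g W x := fun x hx => Real.mul_self_sqrt (hd0 x hx).le
  have hsc : ContinuousOn s V := Real.continuous_sqrt.comp_continuousOn hdc
  -- bounded continuous functions are in L2
  have hbm : ∀ f : E3 → ℝ, ContinuousOn f V → ∃ C : ℝ, ∀ x ∈ U, |f x| ≤ C := by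
    intro f hf
    obtain ⟨C, hC⟩ := hK.exists_bound_of_continuousOn (hf.mono hKV)
    exact ⟨C, fun x hx => hC x (hUK hx)⟩
  have hmeas : ∀ f : E3 → ℝ, ContinuousOn f V → AEStronglyMeasurable f μ := fun f hf =>
    (hf.mono hUV).aestronglyMeasurable hUm
  have hmem : ∀ f : E3 → ℝ, ContinuousOn f V → MemLp f 2 μ := by
    intro f hf
    obtain ⟨C, hC⟩ := hbm f hf
    exact MemLp.of_bound (hmeas f hf) C ((ae_restrict_iff' hUm).2 (Eventually.of_forall hC))
  -- products of L2 functions with bounded continuous functions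
  have hmul : ∀ f w : E3 → ℝ, ContinuousOn f V → MemLp w 2 μ → MemLp (fun x => f x * w x) 2 μ := by
    intro f w hf hw
    obtain ⟨C, hC⟩ := hbm f hf
    refine MemLp.of_le_mul (c := C) hw ((hmeas f hf).mul hw.aestronglyMeasurable)
      ((ae_restrict_iff' hUm).2 (Eventually.of_forall fun x hx => ?_))
    rw [norm_mul]
    exact mul_le_mul_of_nonneg_right (hC x hx) (norm_nonneg _)
  let Fh : (E3 → ℝ) → E3 → ℝ := fun h x => s x * (κ * h x - lap g W h x)
  have hFc : ∀ h : E3 → ℝ, ContDiff ℝ ∞ h → ContinuousOn (Fh h) V := fun h hh =>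
    hsc.mul ((continuousOn_const.mul hh.continuous.continuousOn).sub (hlapc h hh))
  have hFlin : ∀ (h1 h2 : E3 → ℝ) (t : ℝ), TestOn U h1 → TestOn U h2 → ∀ x ∈ U,
      Fh (fun y => h1 y + t * h2 y) x = Fh h1 x + t * Fh h2 x := by
    intro h1 h2 t T1 T2 x hx
    show s x * (κ * (h1 x + t * h2 x) - lap g W (fun y => h1 y + t * h2 y) x) =
      s x * (κ * h1 x - lap g W h1 x) + t * (s x * (κ * h2 x - lap g W h2 x))
    rw [lap_lin hSMO (hreg x (hUV hx)) t T1.smooth T2.smooth]
    ring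
  have hTlin : ∀ (h1 h2 : E3 → ℝ) (t : ℝ), TestOn U h1 → TestOn U h2 →
      TestOn U (fun y => h1 y + t * h2 y) := by
    intro h1 h2 t T1 T2
    have e1 : HasCompactSupport (fun y => t * h2 y) := T2.compact.mul_left
    refine ⟨T1.smooth.add (contDiff_const.mul T2.smooth), T1.compact.add e1, ?_⟩
    refine (tsupport_add h1 (fun y => t * h2 y)).trans (Set.union_subset T1.supp ?_)
    exact (tsupport_mul_subset_right).trans T2.supp
  have hT0 : TestOn U (fun _ => (0 : ℝ)) := by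
    refine ⟨contDiff_const, HasCompactSupport.zero, ?_⟩
    have : tsupport (fun _ : E3 => (0 : ℝ)) = ∅ := by
      rw [tsupport_eq_empty_iff]
      rfl
    rw [this]
    exact Set.empty_subset _
  have hF0 : ∀ x ∈ U, Fh (fun _ => (0 : ℝ)) x = 0 := by
    intro x hx
    have := hFlin (fun _ => 0) (fun _ => 0) (-1) hT0 hT0 x hx
    have e : (fun y : E3 => (0 : ℝ) + (-1) * 0) = fun _ => 0 := by
      funext y
      ring
    rw [e] at this
    linarith
  -- the range
  let S : Submodule ℝ (Lp ℝ 2 μ) :=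
    { carrier := {F | ∃ h : E3 → ℝ, TestOn U h ∧ F =ᵐ[μ] Fh h}
      add_mem' := by
        rintro F1 F2 ⟨h1, T1, e1⟩ ⟨h2, T2, e2⟩
        refine ⟨_, hTlin h1 h2 1 T1 T2, ?_⟩
        have e3 : ∀ᵐ x ∂μ, Fh (fun y => h1 y + 1 * h2 y) x = Fh h1 x + 1 * Fh h2 x :=
          (ae_restrict_iff' hUm).2 (Eventually.of_forall (hFlin h1 h2 1 T1 T2))
        filter_upwards [Lp.coeFn_add F1 F2, e1, e2, e3] with x h4 h5 h6 h7
        rw [h4, h7, Pi.add_apply, h5, h6, one_mul]
      zero_mem' := by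
        refine ⟨_, hT0, ?_⟩
        have e3 : ∀ᵐ x ∂μ, Fh (fun _ => (0 : ℝ)) x = 0 :=
          (ae_restrict_iff' hUm).2 (Eventually.of_forall hF0)
        filter_upwards [Lp.coeFn_zero ℝ 2 μ, e3] with x h4 h5
        rw [h4, h5]
        rfl
      smul_mem' := by
        rintro t F ⟨h, T, e⟩
        refine ⟨_, hTlin _ h t hT0 T, ?_⟩
        have e3 : ∀ᵐ x ∂μ, Fh (fun y => 0 + t * h y) x = Fh (fun _ => 0) x + t * Fh h x :=
          (ae_restrict_iff' hUm).2 (Eventually.of_forall (hFlin _ h t hT0 T))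
        have e4 : ∀ᵐ x ∂μ, Fh (fun _ => (0 : ℝ)) x = 0 :=
          (ae_restrict_iff' hUm).2 (Eventually.of_forall hF0)
        filter_upwards [Lp.coeFn_smul t F, e, e3, e4] with x h4 h5 h6 h7
        rw [h4, h6, h7, zero_add, Pi.smul_apply, h5, smul_eq_mul] }
  have hSmem : ∀ (h : E3 → ℝ) (T : TestOn U h), (hmem _ (hFc h T.smooth)).toLp ∈ S := fun h T =>
    ⟨h, T, (hmem _ (hFc h T.smooth)).coeFn_toLp⟩
  have hperp : Sᗮ = ⊥ := by
    rw [eq_bot_iff]
    intro w hw
    rw [Submodule.mem_bot]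
    rw [Submodule.mem_orthogonal] at hw
    have hinvc : ContinuousOn (fun x => (s x)⁻¹) V := hsc.inv₀ fun x hx => (hs0 x hx).ne'
    have hv : MemLp (fun x => (s x)⁻¹ * w x) 2 μ := hmul _ _ hinvc (Lp.memLp w)
    have hz := hWU V a b g W hF c d hac hcd hdb κ hκ (fun x => (s x)⁻¹ * w x) hv (by
      intro h T
      have e1 := hw _ (hSmem h T)
      rw [L2.inner_def] at e1
      rw [← e1]
      refine integral_congr_ae ?_
      have e2 : ∀ᵐ x ∂μ, x ∈ U := ae_restrict_mem hUm
      filter_upwards [(hmem _ (hFc h T.smooth)).coeFn_toLp, e2] with x h3 h4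
      have h5 := hs0 x (hUV h4)
      rw [h3]
      show (s x)⁻¹ * w x * (κ * h x - lap g W h x) * dens g W x =
        inner ℝ (s x * (κ * h x - lap g W h x)) (w x)
      rw [← hss x (hUV h4), inner_mul]
      field_simp)
    have e2 : ∀ᵐ x ∂μ, x ∈ U := ae_restrict_mem hUm
    rw [Lp.eq_zero_iff_ae_eq_zero]
    filter_upwards [hz, e2] with x h3 h4
    have h5 := hs0 x (hUV h4)
    have h6 : (s x)⁻¹ ≠ 0 := inv_ne_zero h5.ne'
    rcases mul_eq_zero.1 h3 with h | h
    · exact absurd h h6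
    · exact h
  have htop : S.topologicalClosure = ⊤ := Submodule.topologicalClosure_eq_top_iff.2 hperp
  have hρ' : MemLp (fun x => s x * ρ x) 2 μ := hmul _ _ hsc hρ
  have hcl : hρ'.toLp ∈ S.topologicalClosure := by
    rw [htop]
    trivial
  have hcl2 : hρ'.toLp ∈ closure (S : Set (Lp ℝ 2 μ)) := hcl
  rw [Metric.mem_closure_iff] at hcl2
  obtain ⟨F, hFS, hdist⟩ := hcl2 (Real.sqrt ε) (Real.sqrt_pos.2 hε)
  obtain ⟨h, T, eF⟩ := hFS
  refine ⟨h, T, ?_⟩
  have h1 : ‖hρ'.toLp - F‖ ^ 2 < ε := by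
    rw [dist_eq_norm] at hdist
    have h2 := Real.sq_sqrt hε.le
    have h3 := norm_nonneg (hρ'.toLp - F)
    nlinarith
  refine lt_of_eq_of_lt ?_ h1
  rw [← real_inner_self_eq_norm_sq, L2.inner_def]
  refine integral_congr_ae ?_
  have e2 : ∀ᵐ x ∂μ, x ∈ U := ae_restrict_mem hUm
  filter_upwards [Lp.coeFn_sub hρ'.toLp F, hρ'.coeFn_toLp, eF, e2] with x h3 h4 h5 h6
  rw [h3, Pi.sub_apply, h4, h5, inner_mul]
  show (κ * h x - lap g W h x - ρ x) ^ 2 * dens g W x =
    (s x * ρ x - s x * (κ * h x - lap g W h x)) * (s x * ρ x - s x * (κ * h x - lap g W h x))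
  rw [← hss x (hUV h6)]
  ring

end Pool.Agent.PFlow.GB
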