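import Pool.Agent.PFlow.StmtsG

/-!
# Block GB: (DET), the density in a chart is the area density of the leaves
-/

namespace Pool.Agent.PFlow.GB

open Pool.Agent.PenroseSph Pool.Agent.PFlow

theorem DET : Stmt_DET := by
  intro g x p T0 T1 T2 hg hp h0 h1 h2
  have hdet : 0 < (g x).det := hg.det_pos
  have s10 : g x 1 0 = g x 0 1 := by simpa using hg.1.apply 0 1
  have s20 : g x 2 0 = g x 0 2 := by simpa using hg.1.apply 0 2
  have s21 : g x 2 1 = g x 1 2 := by simpa using hg.1.apply 1 2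
  have hinv : ∀ i j, (g x)⁻¹ i j = (g x).det⁻¹ * (g x).adjugate i j := by
    intro i j
    rw [Matrix.inv_def, Ring.inverse_eq_inv', Matrix.smul_apply, smul_eq_mul]
  have hev : 0 ≤ ev (g x)⁻¹ p p := by
    have := hg.inv.posSemidef.dotProduct_mulVec_nonneg p
    unfold ev
    refine this.trans (le_of_eq ?_)
    simp only [dotProduct, Matrix.mulVec, Fin.sum_univ_three, Pi.star_apply, star_trivial]
    ring
  have hlen : (g x).det * len g x p ^ 2 = ∑ i, ∑ j, (g x).adjugate i j * p i * p j := by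
    unfold len
    rw [Real.sq_sqrt hev]
    unfold ev
    rw [Finset.mul_sum]
    refine Finset.sum_congr rfl fun i _ => ?_
    rw [Finset.mul_sum]
    refine Finset.sum_congr rfl fun j _ => ?_
    rw [hinv]
    field_simp
  rw [mul_assoc, hlen, Matrix.adjugate_fin_three, Matrix.det_fin_three]
  simp only [Fin.sum_univ_three, Matrix.of_apply, Matrix.cons_val', Matrix.cons_val_zero,
    Matrix.cons_val_one, Matrix.cons_val] at h0 h1 h2 ⊢
  unfold ev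
  simp only [Fin.sum_univ_three]
  rw [s10, s20, s21]
  set D : ℝ := T0 0 * T1 1 * T2 2 - T0 0 * T1 2 * T2 1 - T0 1 * T1 0 * T2 2
    + T0 1 * T1 2 * T2 0 + T0 2 * T1 0 * T2 1 - T0 2 * T1 1 * T2 0 with hD
  have c0 : D * p 0 = T0 1 * T1 2 - T0 2 * T1 1 := by
    rw [hD]
    linear_combination (T1 1 * T2 2 - T1 2 * T2 1) * h0 + (T2 1 * T0 2 - T2 2 * T0 1) * h1 +
      (T0 1 * T1 2 - T0 2 * T1 1) * h2
  have c1 : D * p 1 = T0 2 * T1 0 - T0 0 * T1 2 := by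
    rw [hD]
    linear_combination (T1 2 * T2 0 - T1 0 * T2 2) * h0 + (T2 2 * T0 0 - T2 0 * T0 2) * h1 +
      (T0 2 * T1 0 - T0 0 * T1 2) * h2
  have c2 : D * p 2 = T0 0 * T1 1 - T0 1 * T1 0 := by
    rw [hD]
    linear_combination (T1 0 * T2 1 - T1 1 * T2 0) * h0 + (T2 0 * T0 1 - T2 1 * T0 0) * h1 +
      (T0 0 * T1 1 - T0 1 * T1 0) * h2
  linear_combination
    ((g x 1 1 * g x 2 2 - g x 1 2 * g x 1 2) * (D * p 0 + (T0 1 * T1 2 - T0 2 * T1 1)) + (g x 0 2 * g x 1 2 - g x 0 1 * g x 2 2) * (D * p 1 + (T0 2 * T1 0 - T0 0 * T1 2)) + (g x 0 1 * g x 1 2 - g x 0 2 * g x 1 1) * (D * p 2 + (T0 0 * T1 1 - T0 1 * T1 0))) * c0 +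
    ((g x 0 2 * g x 1 2 - g x 0 1 * g x 2 2) * (D * p 0 + (T0 1 * T1 2 - T0 2 * T1 1)) + (g x 0 0 * g x 2 2 - g x 0 2 * g x 0 2) * (D * p 1 + (T0 2 * T1 0 - T0 0 * T1 2)) + (g x 0 2 * g x 0 1 - g x 0 0 * g x 1 2) * (D * p 2 + (T0 0 * T1 1 - T0 1 * T1 0))) * c1 +
    ((g x 0 1 * g x 1 2 - g x 0 2 * g x 1 1) * (D * p 0 + (T0 1 * T1 2 - T0 2 * T1 1)) + (g x 0 2 * g x 0 1 - g x 0 0 * g x 1 2) * (D * p 1 + (T0 2 * T1 0 - T0 0 * T1 2)) + (g x 0 0 * g x 1 1 - g x 0 1 * g x 0 1) * (D * p 2 + (T0 0 * T1 1 - T0 1 * T1 0))) * c2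

end Pool.Agent.PFlow.GB
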