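import Pool.Agent.PFlow.G.Base

/-!
# DU: differentiation under the integral
-/

open MeasureTheory Filter Topology
open scoped ContDiff

namespace Pool.Agent.PFlow.GB

open Pool.Agent.PenroseSph Pool.Agent.PFlow

namespace DUM

/-- The partial derivative in the first variable. -/
noncomputable def pd1 (i : Fin 3) (F : E3 × E3 → ℝ) (q : E3 × E3) : ℝ :=
  fderiv ℝ F q (EuclideanSpace.single i 1, 0)

variable {N S K2 : Set E3} {F : E3 × E3 → ℝ} {φ : E3 → ℝ}

theorem smooth_pd1 (hN : IsOpen N) (hF : ContDiffOn ℝ ∞ F (N ×ˢ Set.univ)) (i : Fin 3) :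
    ContDiffOn ℝ ∞ (pd1 i F) (N ×ˢ Set.univ) := by
  have h1 : ContDiffOn ℝ ∞ (fderiv ℝ F) (N ×ˢ Set.univ) :=
    hF.fderiv_of_isOpen (hN.prod isOpen_univ) (by simp)
  exact h1.clm_apply contDiffOn_const

theorem hasFDerivAt_left (hN : IsOpen N) (hF : ContDiffOn ℝ ∞ F (N ×ˢ Set.univ)) {x y : E3}
    (hx : x ∈ N) :
    HasFDerivAt (fun z => F (z, y)) ((fderiv ℝ F (x, y)).comp (ContinuousLinearMap.inl ℝ E3 E3))
      x := by
  have h1 : DifferentiableAt ℝ F (x, y) :=
    ((hF (x, y) ⟨hx, Set.mem_univ _⟩).contDiffAt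
      ((hN.prod isOpen_univ).mem_nhds ⟨hx, Set.mem_univ _⟩)).differentiableAt (by simp)
  exact h1.hasFDerivAt.comp x (hasFDerivAt_prodMk_left x y)

theorem pd_left (hN : IsOpen N) (hF : ContDiffOn ℝ ∞ F (N ×ˢ Set.univ)) {x y : E3}
    (hx : x ∈ N) (i : Fin 3) : pd i (fun z => F (z, y)) x = pd1 i F (x, y) := by
  unfold pd pd1
  rw [(hasFDerivAt_left hN hF hx).fderiv]
  rfl

/-- The integral operator. -/
noncomputable def Iop (S : Set E3) (φ : E3 → ℝ) (F : E3 × E3 → ℝ) (x : E3) : ℝ :=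
  ∫ y in S, F (x, y) * φ y

theorem bound {E : Type*} [NormedAddCommGroup E] {H : E3 × E3 → E} {K1 : Set E3}
    (hH : ContinuousOn H (N ×ˢ Set.univ)) (hK1 : IsCompact K1) (hK1N : K1 ⊆ N)
    (hK2 : IsCompact K2) : ∃ C : ℝ, ∀ x ∈ K1, ∀ y ∈ K2, ‖H (x, y)‖ ≤ C := by
  obtain ⟨C, hC⟩ := (hK1.prod hK2).exists_bound_of_continuousOn
    (hH.mono (Set.prod_mono hK1N (Set.subset_univ _)))
  exact ⟨C, fun x hx y hy => hC (x, y) ⟨hx, hy⟩⟩

theorem meas {E : Type*} [NormedAddCommGroup E] {H : E3 × E3 → E} {x : E3} (hx : x ∈ N)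
    (hH : ContinuousOn H (N ×ˢ Set.univ)) (hS : MeasurableSet S) :
    AEStronglyMeasurable (fun y => H (x, y)) (volume.restrict S) := by
  have h1 : Continuous (fun y => H (x, y)) := by
    rw [← continuousOn_univ]
    exact hH.comp (by fun_prop) (fun y _ => ⟨hx, Set.mem_univ _⟩)
  exact h1.aestronglyMeasurable

theorem integrable_mul (hF : ContinuousOn F (N ×ˢ Set.univ)) {x : E3} (hx : x ∈ N)
    (hS : MeasurableSet S) (hSK : S ⊆ K2) (hK2 : IsCompact K2)
    (hφ : Integrable φ (volume.restrict S)) :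
    Integrable (fun y => F (x, y) * φ y) (volume.restrict S) := by
  obtain ⟨C, hC⟩ := bound hF isCompact_singleton (Set.singleton_subset_iff.mpr hx) hK2
  refine hφ.bdd_mul (c := C) (meas hx hF hS) ?_
  rw [ae_restrict_iff' hS]
  exact ae_of_all _ fun y hy => hC x rfl y (hSK hy)

theorem hasFDerivAt_Iop (hN : IsOpen N) (hF : ContDiffOn ℝ ∞ F (N ×ˢ Set.univ))
    (hS : MeasurableSet S) (hSK : S ⊆ K2) (hK2 : IsCompact K2)
    (hφ : Integrable φ (volume.restrict S)) {x : E3} (hx : x ∈ N) :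
    Integrable (fun y => φ y • (fderiv ℝ F (x, y)).comp (ContinuousLinearMap.inl ℝ E3 E3))
      (volume.restrict S) ∧
    HasFDerivAt (Iop S φ F)
      (∫ y in S, φ y • (fderiv ℝ F (x, y)).comp (ContinuousLinearMap.inl ℝ E3 E3)) x := by
  obtain ⟨r, hr, hball⟩ := Metric.nhds_basis_closedBall.mem_iff.mp (hN.mem_nhds hx)
  have hcD : ContinuousOn (fun q : E3 × E3 =>
      (fderiv ℝ F q).comp (ContinuousLinearMap.inl ℝ E3 E3)) (N ×ˢ Set.univ) := by
    have h1 : ContinuousOn (fderiv ℝ F) (N ×ˢ Set.univ) :=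
      hF.continuousOn_fderiv_of_isOpen (hN.prod isOpen_univ) (by simp)
    exact h1.clm_comp continuousOn_const
  obtain ⟨C, hC⟩ := bound hcD (isCompact_closedBall x r) hball hK2
  have hm : AEStronglyMeasurable
      (fun y => φ y • (fderiv ℝ F (x, y)).comp (ContinuousLinearMap.inl ℝ E3 E3))
      (volume.restrict S) := hφ.1.smul (meas hx hcD hS)
  have hb : ∀ᵐ y ∂(volume.restrict S), ∀ z ∈ Metric.closedBall x r,
      ‖φ y • (fderiv ℝ F (z, y)).comp (ContinuousLinearMap.inl ℝ E3 E3)‖ ≤ ‖φ y‖ * C := by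
    rw [ae_restrict_iff' hS]
    refine ae_of_all _ fun y hy z hz => ?_
    rw [norm_smul]
    exact mul_le_mul_of_nonneg_left (hC z hz y (hSK hy)) (norm_nonneg _)
  have hbi : Integrable (fun y => ‖φ y‖ * C) (volume.restrict S) := hφ.norm.mul_const C
  refine ⟨hbi.mono' hm ?_, ?_⟩
  · filter_upwards [hb] with y hy
    exact hy x (Metric.mem_closedBall_self hr.le)
  · refine hasFDerivAt_integral_of_dominated_of_fderiv_le (s := Metric.closedBall x r)
      (bound := fun y => ‖φ y‖ * C) (Metric.closedBall_mem_nhds x hr) ?_ ?_ hm hb hbi ?_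
    · filter_upwards [hN.mem_nhds hx] with z hz
      exact (meas hz hF.continuousOn hS).mul hφ.1
    · exact integrable_mul hF.continuousOn hx hS hSK hK2 hφ
    · refine ae_of_all _ fun y z hz => ?_
      have h1 := (hasFDerivAt_left (y := y) hN hF (hball hz)).mul_const (φ y)
      exact h1

theorem pd_Iop (hN : IsOpen N) (hF : ContDiffOn ℝ ∞ F (N ×ˢ Set.univ))
    (hS : MeasurableSet S) (hSK : S ⊆ K2) (hK2 : IsCompact K2)
    (hφ : Integrable φ (volume.restrict S)) {x : E3} (hx : x ∈ N) (i : Fin 3) :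
    pd i (Iop S φ F) x = Iop S φ (pd1 i F) x := by
  obtain ⟨h1, h2⟩ := hasFDerivAt_Iop hN hF hS hSK hK2 hφ hx
  unfold pd
  rw [h2.fderiv, ContinuousLinearMap.integral_apply h1]
  unfold Iop pd1
  refine integral_congr_ae (ae_of_all _ fun y => ?_)
  change φ y * fderiv ℝ F (x, y) (EuclideanSpace.single i 1, 0) = _
  rw [mul_comm]

theorem fderiv_eq_sum (f : E3 → ℝ) (x : E3) :
    fderiv ℝ f x = ∑ i, pd i f x • (EuclideanSpace.proj i : E3 →L[ℝ] ℝ) := by
  ext v
  have h1 : v = ∑ i, v i • EuclideanSpace.single i (1 : ℝ) := by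
    ext j
    simp [Finset.sum_apply, Pi.single_apply]
  conv_lhs => rw [h1]
  rw [map_sum, sum_apply]
  refine Finset.sum_congr rfl fun i _ => ?_
  rw [map_smul, smul_eq_mul, mul_comm]
  rfl

theorem contDiffOn_Iop (hN : IsOpen N) (hS : MeasurableSet S) (hSK : S ⊆ K2)
    (hK2 : IsCompact K2) (hφ : Integrable φ (volume.restrict S)) (n : ℕ) :
    ∀ F : E3 × E3 → ℝ, ContDiffOn ℝ ∞ F (N ×ˢ Set.univ) → ContDiffOn ℝ n (Iop S φ F) N := by
  induction n with
  | zero =>
    intro F hF
    rw [Nat.cast_zero, contDiffOn_zero]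
    intro x hx
    exact (hasFDerivAt_Iop hN hF hS hSK hK2 hφ hx).2.continuousAt.continuousWithinAt
  | succ n ih =>
    intro F hF
    rw [Nat.cast_succ, contDiffOn_succ_iff_fderiv_of_isOpen hN]
    refine ⟨?_, ?_, ?_⟩
    · intro x hx
      exact (hasFDerivAt_Iop hN hF hS hSK hK2 hφ hx).2.differentiableAt.differentiableWithinAt
    · intro h
      exact absurd h (by simp)
    · have h1 : ContDiffOn ℝ n (fun x => ∑ i, Iop S φ (pd1 i F) x •
          (EuclideanSpace.proj i : E3 →L[ℝ] ℝ)) N := by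
        refine ContDiffOn.sum fun i _ => ?_
        exact (ih _ (smooth_pd1 hN hF i)).smul contDiffOn_const
      refine h1.congr fun x hx => ?_
      rw [fderiv_eq_sum]
      refine Finset.sum_congr rfl fun i _ => ?_
      rw [pd_Iop hN hF hS hSK hK2 hφ hx]

/-- The derivative of a sum of products. -/
theorem pd_sum_mul {A B : Fin 3 → E3 → ℝ} {x : E3} (hA : ∀ j, DifferentiableAt ℝ (A j) x)
    (hB : ∀ j, DifferentiableAt ℝ (B j) x) (i : Fin 3) :
    pd i (fun y => ∑ j, A j y * B j y) x =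
      ∑ j, (pd i (A j) x * B j x + A j x * pd i (B j) x) := by
  have h1 : HasFDerivAt (fun y => ∑ j, A j y * B j y)
      (∑ j, (A j x • fderiv ℝ (B j) x + B j x • fderiv ℝ (A j) x)) x :=
    HasFDerivAt.fun_sum fun j _ => (hA j).hasFDerivAt.mul (hB j).hasFDerivAt
  unfold pd
  rw [h1.fderiv, sum_apply]
  refine Finset.sum_congr rfl fun j _ => ?_
  change A j x * fderiv ℝ (B j) x _ + B j x * fderiv ℝ (A j) x _ = _
  ring

theorem lgrad_eq (g : TensorField) (W f : E3 → ℝ) (y : E3) (i : Fin 3) :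
    lgrad g W f y i = ∑ j, prj g y (grad W y) i j * pd j f y := by
  unfold lgrad raise prj grad
  simp only [Fin.sum_univ_three]
  ring

end DUM

theorem DU (hSMO : Stmt_SMO) : Stmt_DU := by
  intro V a b g W hfol c d hac hcd hdb k t0 R C m0 hk v hv t ht ht0
  obtain ⟨N, hN, hKN, hNV, hF0⟩ := hk.smooth t ht ht0
  obtain ⟨F, hFdef⟩ : ∃ F : E3 × E3 → ℝ, F = fun q : E3 × E3 => k t q.1 q.2 := ⟨_, rfl⟩
  rw [← hFdef] at hF0
  have hS : MeasurableSet (slab V W c d) := measurableSet_slab hfol c d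
  have hSK : slab V W c d ⊆ cslab V W c d := slab_subset_cslab c d
  have hK2 : IsCompact (cslab V W c d) := hfol.proper c d hac hdb
  have hreg : ∀ x ∈ V, Reg g W x := fun x hx => hSMO.1 V a b g W hfol x hx
  have hdc : ContinuousOn (dens g W) V := by
    intro x hx
    exact (hSMO.2 g W x (hreg x hx)).2.2.2.2.2.2.2.2.1.continuousAt.continuousWithinAt
  obtain ⟨φ, hφdef⟩ : ∃ φ : E3 → ℝ, φ = fun y => v y * dens g W y := ⟨_, rfl⟩
  have hφ : Integrable φ (volume.restrict (slab V W c d)) := by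
    have : IsFiniteMeasure (volume.restrict (slab V W c d)) :=
      ⟨by rw [Measure.restrict_apply_univ]; exact volume_slab_lt_top hfol hac hdb⟩
    have h1 : Integrable v (volume.restrict (slab V W c d)) := hv.integrable (by norm_num)
    obtain ⟨B, hB⟩ := hK2.exists_bound_of_continuousOn (hdc.mono (cslab_subset c d))
    rw [hφdef]
    refine h1.mul_bdd (c := B) ?_ ?_
    · exact (hdc.mono (slab_subset c d)).aestronglyMeasurable hS
    · rw [ae_restrict_iff' hS]
      exact ae_of_all _ fun y hy => hB y (hSK hy)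
  have hmoll : moll V g W c d k t v = DUM.Iop (slab V W c d) φ F := by
    funext x
    unfold moll DUM.Iop
    rw [hFdef, hφdef]
    refine integral_congr_ae (ae_of_all _ fun y => ?_)
    change k t x y * v y * dens g W y = k t x y * (v y * dens g W y)
    ring
  have hF1 : ∀ j, ContDiffOn ℝ ∞ (DUM.pd1 j F) (N ×ˢ Set.univ) := DUM.smooth_pd1 hN hF0
  have hF2 : ∀ i j, ContDiffOn ℝ ∞ (DUM.pd1 i (DUM.pd1 j F)) (N ×ˢ Set.univ) :=
    fun i j => DUM.smooth_pd1 hN (hF1 j) i
  refine ⟨?_, ?_⟩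
  · rw [hmoll]
    exact (DUM.contDiffOn_Iop hN hS hSK hK2 hφ 2 F hF0).mono (hSK.trans hKN)
  · intro x hx
    have hxN : x ∈ N := hKN (hSK hx)
    have hxV : x ∈ V := slab_subset c d hx
    obtain ⟨A, hA⟩ : ∃ A : Fin 3 → Fin 3 → E3 → ℝ, A = fun i j y =>
        dens g W y * prj g y (grad W y) i j := ⟨_, rfl⟩
    have hAd : ∀ i j, DifferentiableAt ℝ (A i j) x := by
      intro i j
      have h1 := (hSMO.2 g W x (hreg x hxV)).2.2.2.2.2.2.2.2.1
      have h2 := (hSMO.2 g W x (hreg x hxV)).2.2.2.2.2.2.2.2.2.2.1 i j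
      rw [hA]
      exact (h1.mul h2).differentiableAt (by simp)
    have hlap : ∀ f : E3 → ℝ, (∀ j, DifferentiableAt ℝ (pd j f) x) →
        lap g W f x = (∑ i, ∑ j, (pd i (A i j) x * pd j f x + A i j x * pd i (pd j f) x)) /
          dens g W x := by
      intro f hf
      unfold lap ldiv
      congr 1
      refine Finset.sum_congr rfl fun i _ => ?_
      rw [← DUM.pd_sum_mul (hAd i) hf i]
      congr 1
      funext y
      rw [DUM.lgrad_eq, Finset.mul_sum, hA]
      refine Finset.sum_congr rfl fun j _ => ?_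
      ring
    have hpdI : ∀ j, pd j (DUM.Iop (slab V W c d) φ F) =ᶠ[𝓝 x]
        DUM.Iop (slab V W c d) φ (DUM.pd1 j F) := by
      intro j
      filter_upwards [hN.mem_nhds hxN] with z hz
      exact DUM.pd_Iop hN hF0 hS hSK hK2 hφ hz j
    have hpdk : ∀ y j, pd j (fun z => k t z y) =ᶠ[𝓝 x] fun z => DUM.pd1 j F (z, y) := by
      intro y j
      filter_upwards [hN.mem_nhds hxN] with z hz
      have h1 := DUM.pd_left (y := y) hN hF0 hz j
      rw [← h1, hFdef]
    have e1 : ∀ y, lap g W (fun z => k t z y) x =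
        (∑ i, ∑ j, (pd i (A i j) x * DUM.pd1 j F (x, y) +
          A i j x * DUM.pd1 i (DUM.pd1 j F) (x, y))) / dens g W x := by
      intro y
      rw [hlap]
      · congr 1
        refine Finset.sum_congr rfl fun i _ => Finset.sum_congr rfl fun j _ => ?_
        have h1 : pd j (fun z => k t z y) x = DUM.pd1 j F (x, y) := (hpdk y j).eq_of_nhds
        have h2 : pd i (pd j (fun z => k t z y)) x = DUM.pd1 i (DUM.pd1 j F) (x, y) := by
          rw [← DUM.pd_left hN (hF1 j) hxN i]
          unfold pd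
          exact congrArg (fun L : E3 →L[ℝ] ℝ => L (EuclideanSpace.single i 1))
            (hpdk y j).fderiv_eq
        rw [h1, h2]
      · intro j
        exact (DUM.hasFDerivAt_left (y := y) hN (hF1 j) hxN).differentiableAt.congr_of_eventuallyEq
          (hpdk y j)
    have e2 : lap g W (DUM.Iop (slab V W c d) φ F) x =
        (∑ i, ∑ j, (pd i (A i j) x * DUM.Iop (slab V W c d) φ (DUM.pd1 j F) x +
          A i j x * DUM.Iop (slab V W c d) φ (DUM.pd1 i (DUM.pd1 j F)) x)) / dens g W x := by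
      rw [hlap]
      · congr 1
        refine Finset.sum_congr rfl fun i _ => Finset.sum_congr rfl fun j _ => ?_
        have h1 : pd j (DUM.Iop (slab V W c d) φ F) x =
            DUM.Iop (slab V W c d) φ (DUM.pd1 j F) x := (hpdI j).eq_of_nhds
        have h2 : pd i (pd j (DUM.Iop (slab V W c d) φ F)) x =
            DUM.Iop (slab V W c d) φ (DUM.pd1 i (DUM.pd1 j F)) x := by
          rw [← DUM.pd_Iop hN (hF1 j) hS hSK hK2 hφ hxN i]
          unfold pd
          exact congrArg (fun L : E3 →L[ℝ] ℝ => L (EuclideanSpace.single i 1))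
            (hpdI j).fderiv_eq
        rw [h1, h2]
      · intro j
        exact (DUM.hasFDerivAt_Iop hN (hF1 j) hS hSK hK2 hφ
          hxN).2.differentiableAt.congr_of_eventuallyEq (hpdI j)
    have hi1 : ∀ j, Integrable (fun y => DUM.pd1 j F (x, y) * φ y)
        (volume.restrict (slab V W c d)) := fun j =>
      DUM.integrable_mul (hF1 j).continuousOn hxN hS hSK hK2 hφ
    have hi2 : ∀ i j, Integrable (fun y => DUM.pd1 i (DUM.pd1 j F) (x, y) * φ y)
        (volume.restrict (slab V W c d)) := fun i j =>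
      DUM.integrable_mul (hF2 i j).continuousOn hxN hS hSK hK2 hφ
    rw [hmoll, e2]
    have e3 : ∀ y, lap g W (fun z => k t z y) x * v y * dens g W y =
        (∑ i, ∑ j, (pd i (A i j) x * (DUM.pd1 j F (x, y) * φ y) +
          A i j x * (DUM.pd1 i (DUM.pd1 j F) (x, y) * φ y))) / dens g W x := by
      intro y
      rw [e1, mul_assoc, hφdef, div_mul_eq_mul_div, Finset.sum_mul]
      congr 1
      refine Finset.sum_congr rfl fun i _ => ?_
      rw [Finset.sum_mul]
      refine Finset.sum_congr rfl fun j _ => ?_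
      ring
    simp_rw [e3]
    rw [integral_div, integral_finsetSum]
    · congr 1
      refine Finset.sum_congr rfl fun i _ => ?_
      rw [integral_finsetSum]
      · refine Finset.sum_congr rfl fun j _ => ?_
        rw [integral_add ((hi1 j).const_mul _) ((hi2 i j).const_mul _), integral_const_mul,
          integral_const_mul]
        rfl
      · intro j _
        exact ((hi1 j).const_mul _).add ((hi2 i j).const_mul _)
    · intro i _
      exact integrable_finsetSum _ fun j _ => ((hi1 j).const_mul _).add ((hi2 i j).const_mul _)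

end Pool.Agent.PFlow.GB
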