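import Pool.Agent.PFlow.G.Base

/-!
# FUB: Fubini on boxes of `E3`
-/

open MeasureTheory Filter Topology
open scoped ContDiff

namespace Pool.Agent.PFlow.GB

open Pool.Agent.PenroseSph Pool.Agent.PFlow

namespace FUBaux

/-- The measurable equivalence `(s, a, b) ↦ pt a b s`. -/
noncomputable def T : ℝ × (ℝ × ℝ) ≃ᵐ E3 :=
  (((MeasurableEquiv.refl ℝ).prodCongr MeasurableEquiv.finTwoArrow.symm).trans
    (MeasurableEquiv.piFinSuccAbove (fun _ : Fin 3 => ℝ) 2).symm).trans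
    (MeasurableEquiv.toLp 2 (Fin 3 → ℝ))

lemma T_apply (s a b : ℝ) : T (s, a, b) = pt a b s := by
  ext i
  fin_cases i <;> rfl

lemma T_mp : MeasurePreserving T := by
  have h1 : MeasurePreserving (MeasurableEquiv.finTwoArrow (α := ℝ)).symm :=
    (volume_preserving_finTwoArrow ℝ).symm _
  have h2 : MeasurePreserving (MeasurableEquiv.piFinSuccAbove (fun _ : Fin 3 => ℝ) 2).symm :=
    (volume_preserving_piFinSuccAbove (fun _ : Fin 3 => ℝ) 2).symm _
  have h3 : MeasurePreserving (Prod.map (id : ℝ → ℝ)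
      (MeasurableEquiv.finTwoArrow (α := ℝ)).symm) :=
    (MeasurePreserving.id volume).prod h1
  exact (PiLp.volume_preserving_toLp (Fin 3)).comp (h2.comp h3)

end FUBaux

open FUBaux in
/-- (FUB) Fubini on boxes. -/
theorem FUB : Stmt_FUB := by
  intro z0 r e F hF
  have hpre : T ⁻¹' obox z0 r e = Set.Ioo (z0 2 - e) (z0 2 + e) ×ˢ
      (Set.Ioo (z0 0 - r) (z0 0 + r) ×ˢ Set.Ioo (z0 1 - r) (z0 1 + r)) := by
    ext ⟨s, a, b⟩
    rw [Set.mem_preimage, T_apply]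
    have e0 : pt a b s 0 = a := rfl
    have e1 : pt a b s 1 = b := rfl
    have e2 : pt a b s 2 = s := rfl
    simp only [obox, Set.mem_ofPred_eq, Set.mem_prod, Set.mem_Ioo, e0, e1, e2, abs_lt]
    constructor
    · rintro ⟨⟨h1, h2⟩, ⟨h3, h4⟩, h5, h6⟩
      refine ⟨⟨?_, ?_⟩, ⟨?_, ?_⟩, ?_, ?_⟩ <;> linarith
    · rintro ⟨⟨h1, h2⟩, ⟨h3, h4⟩, h5, h6⟩
      refine ⟨⟨?_, ?_⟩, ⟨?_, ?_⟩, ?_, ?_⟩ <;> linarith
  have hI : IntegrableOn (fun z => F (T z)) (T ⁻¹' obox z0 r e) :=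
    (T_mp.integrableOn_comp_preimage T.measurableEmbedding).mpr hF
  rw [← T_mp.setIntegral_preimage_emb T.measurableEmbedding]
  rw [hpre] at hI ⊢
  rw [Measure.volume_eq_prod] at hI ⊢
  rw [setIntegral_prod _ hI]
  have hI2 := hI
  rw [IntegrableOn, ← Measure.prod_restrict] at hI2
  refine integral_congr_ae ?_
  filter_upwards [hI2.prod_right_ae] with s hs
  have hs2 : IntegrableOn (fun y : ℝ × ℝ => F (T (s, y)))
      (Set.Ioo (z0 0 - r) (z0 0 + r) ×ˢ Set.Ioo (z0 1 - r) (z0 1 + r))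
      ((volume : Measure ℝ).prod (volume : Measure ℝ)) := by
    rw [← Measure.volume_eq_prod]
    exact hs
  rw [Measure.volume_eq_prod, setIntegral_prod _ hs2]
  simp only [T_apply]

end Pool.Agent.PFlow.GB
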