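import Pool.Agent.PFlow.StmtsG

/-!
# Block GB: elementary facts on foliations and slabs
-/

open MeasureTheory Filter Topology
open scoped ContDiff

namespace Pool.Agent.PFlow.GB

open Pool.Agent.PenroseSph Pool.Agent.PFlow

variable {V : Set E3} {a b : ℝ} {g : TensorField} {W : E3 → ℝ}

lemma _root_.Pool.Agent.PFlow.Fol.reg (h : Fol V a b g W) {x : E3} (hx : x ∈ V) : Reg g W x :=
  ⟨V, h.isOpen, hx, h.metric, h.smooth, h.regular⟩

lemma _root_.Pool.Agent.PFlow.Fol.contDiffAt (h : Fol V a b g W) {x : E3} (hx : x ∈ V) : ContDiffAt ℝ ∞ W x :=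
  (h.smooth x hx).contDiffAt (h.isOpen.mem_nhds hx)

lemma _root_.Pool.Agent.PFlow.Fol.continuousOn (h : Fol V a b g W) : ContinuousOn W V := h.smooth.continuousOn

lemma isOpen_slab (h : Fol V a b g W) (c d : ℝ) : IsOpen (slab V W c d) :=
  h.continuousOn.isOpen_inter_preimage h.isOpen isOpen_Ioo

lemma slab_subset (c d : ℝ) : slab V W c d ⊆ V := Set.inter_subset_left

lemma slab_subset_cslab (c d : ℝ) : slab V W c d ⊆ cslab V W c d :=
  Set.inter_subset_inter_right _ (Set.preimage_mono Set.Ioo_subset_Icc_self)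

lemma cslab_subset (c d : ℝ) : cslab V W c d ⊆ V := Set.inter_subset_left

lemma slab_mono {c d c' d' : ℝ} (hc : c ≤ c') (hd : d' ≤ d) :
    slab V W c' d' ⊆ slab V W c d :=
  Set.inter_subset_inter_right _ (Set.preimage_mono (Set.Ioo_subset_Ioo hc hd))

lemma cslab_subset_slab {c d c' d' : ℝ} (hc : c < c') (hd : d' < d) :
    cslab V W c' d' ⊆ slab V W c d :=
  Set.inter_subset_inter_right _ (Set.preimage_mono (fun _ hx =>
    ⟨hc.trans_le hx.1, hx.2.trans_lt hd⟩))

lemma measurableSet_slab (h : Fol V a b g W) (c d : ℝ) : MeasurableSet (slab V W c d) :=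
  (isOpen_slab h c d).measurableSet

lemma closure_slab_subset (h : Fol V a b g W) {c d : ℝ} (hc : a < c) (hd : d < b) :
    closure (slab V W c d) ⊆ cslab V W c d :=
  closure_minimal (slab_subset_cslab c d) (h.proper c d hc hd).isClosed

lemma volume_slab_lt_top (h : Fol V a b g W) {c d : ℝ} (hc : a < c) (hd : d < b) :
    volume (slab V W c d) < ⊤ :=
  lt_of_le_of_lt (measure_mono (slab_subset_cslab c d)) (h.proper c d hc hd).measure_lt_top

lemma slab_self (h : Fol V a b g W) : slab V W a b = V := by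
  ext x
  constructor
  · exact fun hx => hx.1
  · exact fun hx => ⟨hx, h.mapsTo x hx⟩

/-- A slab is again a foliation. -/
lemma _root_.Pool.Agent.PFlow.Fol.sub (h : Fol V a b g W) {c d : ℝ} (hc : a ≤ c) (hd : d ≤ b) :
    Fol (slab V W c d) c d g W where
  isOpen := isOpen_slab h c d
  metric := ⟨fun i j => (h.metric.smooth i j).mono (slab_subset c d),
    fun x hx => h.metric.posDef x hx.1⟩
  smooth := h.smooth.mono (slab_subset c d)
  mapsTo := fun _ hx => hx.2
  regular := fun x hx => h.regular x hx.1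
  proper := by
    intro c' d' hc' hd'
    have : cslab (slab V W c d) W c' d' = cslab V W c' d' := by
      ext x
      constructor
      · exact fun hx => ⟨hx.1.1, hx.2⟩
      · exact fun hx => ⟨⟨hx.1, hc'.trans_le hx.2.1, hx.2.2.trans_lt hd'⟩, hx.2⟩
    rw [this]
    exact h.proper c' d' (hc.trans_lt hc') (hd'.trans_le hd)

/-- The support of `ψ (W x)` in `V` is compact. -/
lemma exists_Icc_of_tsupport {ψ : ℝ → ℝ} {c d : ℝ} (hcd : c < d) (h : tsupport ψ ⊆ Set.Ioo c d) :
    ∃ c' d' : ℝ, c < c' ∧ c' < d' ∧ d' < d ∧ ∀ s, ψ s ≠ 0 → c' ≤ s ∧ s ≤ d' := by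
  have hK : IsCompact (tsupport ψ) :=
    (Metric.isCompact_of_isClosed_isBounded (isClosed_tsupport ψ)
      ((Metric.isBounded_Ioo c d).subset h))
  rcases (tsupport ψ).eq_empty_or_nonempty with he | hne
  · refine ⟨c + (d - c) / 3, d - (d - c) / 3, by linarith, by linarith, by linarith, ?_⟩
    intro s hs
    exact absurd (subset_tsupport ψ hs) (by rw [he]; exact Set.notMem_empty s)
  · obtain ⟨m, hm, hm'⟩ := hK.exists_isLeast hne
    obtain ⟨M, hM, hM'⟩ := hK.exists_isGreatest hne
    have h1 := h hm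
    have h2 := h hM
    have h3 : m ≤ M := hM' hm
    refine ⟨(c + m) / 2, (d + M) / 2, by linarith [h1.1], by linarith [h1.1, h2.2, h1.2], by linarith [h2.2], ?_⟩
    intro s hs
    have h4 := hm' (subset_tsupport ψ hs)
    have h5 := hM' (subset_tsupport ψ hs)
    constructor
    · linarith [h1.1]
    · linarith [h2.2]

end Pool.Agent.PFlow.GB
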