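import Pool.Agent.PFlow.StmtsG
import Pool.Agent.PFlow.G.Base

/-!
# (GB) from its local form (module GB)
-/

open MeasureTheory Filter Topology
open scoped ContDiff Manifold

namespace Pool.Agent.PFlow.GB

open Pool.Agent.PenroseSph

namespace GBAux

variable {V : Set E3} {a b : ℝ} {g : TensorField} {W : E3 → ℝ}

lemma cont_cd (hSMO : Stmt_SMO) (h : Fol V a b g W) :
    ContinuousOn (fun x => curv g W x * dens g W x) V := by
  intro x hx
  obtain ⟨-, -, -, -, -, -, -, -, h1, -, -, h2, -⟩ := hSMO.2 g W x (hSMO.1 V a b g W h x hx)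
  exact (h2.continuousAt.mul h1.continuousAt).continuousWithinAt

lemma integrable (hSMO : Stmt_SMO) (h : Fol V a b g W) (hab : a < b) {φ : ℝ → ℝ}
    (hφ : Continuous φ) (hs : tsupport φ ⊆ Set.Ioo a b) :
    IntegrableOn (fun x => φ (W x) * curv g W x * dens g W x) V := by
  obtain ⟨c, d, hc, -, hd, hcd⟩ := exists_Icc_of_tsupport hab hs
  have hK := h.proper c d hc hd
  have h1 : ContinuousOn (fun x => φ (W x) * curv g W x * dens g W x) (cslab V W c d) := by
    have h2 : ContinuousOn (fun x => φ (W x) * (curv g W x * dens g W x)) V :=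
      (hφ.comp_continuousOn h.continuousOn).mul (cont_cd hSMO h)
    exact (h2.mono (cslab_subset c d)).congr fun x _ => by ring
  refine (h1.integrableOn_compact hK).of_forall_sdiff_eq_zero h.isOpen.measurableSet ?_
  intro x hx
  have h3 : φ (W x) = 0 := by
    by_contra hne
    exact hx.2 ⟨hx.1, hcd _ hne⟩
  simp only [h3, zero_mul]

end GBAux

/-- **(GB)** from the local form. -/
theorem GB (hSMO : Stmt_SMO) (hLOC : Stmt_LOC) : Pool.Agent.PFlow.Stmt_GB := by
  classical
  intro V a b g W h hconn ψ hψ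
  have hint0 : 0 ≤ ∫ s, ψ s := integral_nonneg hψ.nonneg
  rcases V.eq_empty_or_nonempty with hV | ⟨x0, hx0⟩
  · rw [hV, Measure.restrict_empty, integral_zero_measure]
    positivity
  have hab : a < b := (h.mapsTo x0 hx0).1.trans (h.mapsTo x0 hx0).2
  have hKc : IsCompact (tsupport ψ) :=
    Metric.isCompact_of_isClosed_isBounded (isClosed_tsupport ψ)
      ((Metric.isBounded_Ioo a b).subset hψ.supp)
  -- the local intervals
  have hloc : ∀ s0 : ℝ, ∃ e : ℝ, 0 < e ∧ (s0 ∈ tsupport ψ → ∀ φ : ℝ → ℝ,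
      BumpOn (s0 - e) (s0 + e) φ → a < s0 - e ∧ s0 + e < b ∧
      ∫ x in V, φ (W x) * curv g W x * dens g W x ≤ 4 * Real.pi * ∫ s, φ s) := by
    intro s0
    by_cases hs : s0 ∈ tsupport ψ
    · obtain ⟨e, he, h1, h2, h3⟩ := hLOC V a b g W h s0 (hψ.supp hs).1 (hψ.supp hs).2 (hconn s0)
      exact ⟨e, he, fun _ φ hφ => ⟨h1, h2, h3 φ hφ⟩⟩
    · exact ⟨1, one_pos, fun h' => absurd h' hs⟩
  choose e he hloc using hloc
  obtain ⟨t, hts, htc⟩ := hKc.elim_nhds_subcover (fun s => Set.Ioo (s - e s) (s + e s))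
    (fun s _ => Ioo_mem_nhds (by linarith [he s]) (by linarith [he s]))
  -- the partition of unity
  obtain ⟨f, hf⟩ := SmoothPartitionOfUnity.exists_isSubordinate 𝓘(ℝ, ℝ) (s := tsupport ψ)
    (isClosed_tsupport ψ) (fun i : t => Set.Ioo ((i : ℝ) - e i) ((i : ℝ) + e i))
    (fun _ => isOpen_Ioo) (by
      intro s hs
      obtain ⟨i, hi, hsi⟩ := Set.mem_iUnion₂.1 (htc hs)
      exact Set.mem_iUnion.2 ⟨⟨i, hi⟩, hsi⟩)
  have hsum : ∀ s, ψ s = ∑ i : t, f i s * ψ s := by
    intro s
    by_cases hs : s ∈ tsupport ψ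
    · have h1 := f.sum_eq_one hs
      rw [finsum_eq_sum_of_fintype] at h1
      rw [← Finset.sum_mul, h1, one_mul]
    · have h0 : ψ s = 0 := image_eq_zero_of_notMem_tsupport hs
      simp [h0]
  have hfs : ∀ i : t, ContDiff ℝ 1 (fun s => f i s) := fun i =>
    ((f i).contMDiff.contDiff).of_le (by norm_cast)
  have hbump : ∀ i : t, BumpOn ((i : ℝ) - e i) ((i : ℝ) + e i) (fun s => f i s * ψ s) := by
    intro i
    refine ⟨(hfs i).mul hψ.smooth, fun s => mul_nonneg (f.nonneg i s) (hψ.nonneg s), ?_⟩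
    exact (tsupport_mul_subset_left (f := fun s => f i s) (g := ψ)).trans (hf i)
  have hL : ∀ i : t, ∫ x in V, (f i (W x) * ψ (W x)) * curv g W x * dens g W x ≤
      4 * Real.pi * ∫ s, f i s * ψ s := fun i =>
    (hloc i (hts i i.2) _ (hbump i)).2.2
  have hsupp : ∀ i : t, tsupport (fun s => f i s * ψ s) ⊆ Set.Ioo a b := fun i =>
    (tsupport_mul_subset_right (f := fun s => f i s) (g := ψ)).trans hψ.supp
  have hI : ∀ i : t, IntegrableOn
      (fun x => (f i (W x) * ψ (W x)) * curv g W x * dens g W x) V := fun i =>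
    GBAux.integrable hSMO h hab (φ := fun s => f i s * ψ s)
      ((hfs i).continuous.mul hψ.smooth.continuous) (hsupp i)
  have hJ : ∀ i : t, Integrable (fun s => f i s * ψ s) := fun i =>
    ((hfs i).continuous.mul hψ.smooth.continuous).integrable_of_hasCompactSupport
      (HasCompactSupport.mul_left hKc)
  calc ∫ x in V, ψ (W x) * curv g W x * dens g W x
      = ∫ x in V, ∑ i : t, (f i (W x) * ψ (W x)) * curv g W x * dens g W x := by
        refine integral_congr_ae (Filter.Eventually.of_forall fun x => ?_)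
        show ψ (W x) * curv g W x * dens g W x =
          ∑ i : t, (f i (W x) * ψ (W x)) * curv g W x * dens g W x
        rw [← Finset.sum_mul, ← Finset.sum_mul, ← hsum]
    _ = ∑ i : t, ∫ x in V, (f i (W x) * ψ (W x)) * curv g W x * dens g W x :=
        integral_finsetSum _ fun i _ => hI i
    _ ≤ ∑ i : t, 4 * Real.pi * ∫ s, f i s * ψ s := Finset.sum_le_sum fun i _ => hL i
    _ = 4 * Real.pi * ∑ i : t, ∫ s, f i s * ψ s := by rw [Finset.mul_sum]
    _ = 4 * Real.pi * ∫ s, ∑ i : t, f i s * ψ s := by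
        rw [integral_finsetSum _ fun i _ => hJ i]
    _ = 4 * Real.pi * ∫ s, ψ s := by
        congr 1
        exact integral_congr_ae (Filter.Eventually.of_forall fun s => (hsum s).symm)

end Pool.Agent.PFlow.GB
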