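import Pool.Agent.PFlow.G.Base

/-!
GBC: the Gauss-Bonnet inequality for continuous `ψ`.
-/

open MeasureTheory Filter Topology
open scoped ContDiff

namespace Pool.Agent.PFlow.GB

open Pool.Agent.PenroseSph Pool.Agent.PFlow

namespace GBCaux

/-- Approximation of a continuous nonnegative function by squares of smooth functions. -/
lemma approx {ψ : ℝ → ℝ} (hψ : Continuous ψ) (hnn : ∀ s, 0 ≤ ψ s) :
    ∃ φ : ℕ → ℝ → ℝ, (∀ n, ContDiff ℝ 1 (φ n)) ∧ (∀ n s, 0 ≤ φ n s) ∧
      (∀ n s, φ n s ≠ 0 → ψ s ≠ 0) ∧ (∀ n s, φ n s ≤ (Real.sqrt (ψ s) + 1) ^ 2) ∧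
      ∀ s, Tendsto (fun n => φ n s) atTop (𝓝 (ψ s)) := by
  have hf : Continuous fun s => Real.sqrt (ψ s) := hψ.sqrt
  have h1 : ∀ n : ℕ, ∃ g : ℝ → ℝ, ContDiff ℝ 1 g ∧
      (∀ x, dist (g x) (Real.sqrt (ψ x)) < 1 / ((n : ℝ) + 1)) ∧
      Function.support g ⊆ Function.support fun s => Real.sqrt (ψ s) := fun n =>
    hf.exists_contDiff_approx 1 continuous_const (fun _ => Nat.one_div_pos_of_nat)
  choose g hg1 hg2 hg3 using h1
  refine ⟨fun n s => g n s ^ 2, fun n => (hg1 n).pow 2, fun n s => sq_nonneg _, ?_, ?_, ?_⟩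
  · intro n s h2 h3
    have h4 : s ∈ Function.support (g n) := by
      intro h5
      apply h2
      simp only
      rw [h5]
      norm_num
    apply hg3 n h4
    simp only
    rw [h3, Real.sqrt_zero]
  · intro n s
    have h2 := hg2 n s
    rw [Real.dist_eq] at h2
    have h3 : (1 : ℝ) / ((n : ℝ) + 1) ≤ 1 := by
      rw [div_le_one (by positivity)]
      have : (0 : ℝ) ≤ n := Nat.cast_nonneg n
      linarith
    have h4 : 0 ≤ Real.sqrt (ψ s) := Real.sqrt_nonneg _
    have h5 := abs_lt.mp h2
    simp only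
    apply sq_le_sq'
    · linarith
    · linarith
  · intro s
    have h2 : Tendsto (fun n => g n s) atTop (𝓝 (Real.sqrt (ψ s))) := by
      rw [tendsto_iff_dist_tendsto_zero]
      exact squeeze_zero (fun n => dist_nonneg) (fun n => (hg2 n s).le)
        tendsto_one_div_add_atTop_nhds_zero_nat
    have h3 := h2.pow 2
    rwa [Real.sq_sqrt (hnn s)] at h3

end GBCaux

open GBCaux in
theorem GBC (hSMO : Stmt_SMO) (hGB : Pool.Agent.PFlow.Stmt_GB) : Stmt_GBC := by
  intro V a b g W hF hconn ψ hψ hnn hsupp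
  rcases lt_or_ge a b with hab | hab
  swap
  · have h0 : ∀ s, ψ s = 0 := by
      intro s
      by_contra h
      have h1 := hsupp (subset_tsupport ψ h)
      exact absurd (h1.1.trans h1.2) (not_lt.mpr hab)
    simp [h0]
  obtain ⟨c, d, hac, hcd, hdb, hcd'⟩ := exists_Icc_of_tsupport hab hsupp
  obtain ⟨φ, hφ1, hφ2, hφ3, hφ4, hφ5⟩ := approx hψ hnn
  -- the bound
  obtain ⟨B, hB⟩ := (isCompact_Icc (a := c) (b := d)).exists_bound_of_continuousOn
    hψ.continuousOn
  set N : ℝ := (Real.sqrt B + 1) ^ 2 with hN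
  have hφB : ∀ n s, |φ n s| ≤ N := by
    intro n s
    rw [abs_of_nonneg (hφ2 n s)]
    by_cases h0 : φ n s = 0
    · rw [h0]
      positivity
    · have h1 := hB s (hcd' s (hφ3 n s h0))
      rw [Real.norm_eq_abs, abs_of_nonneg (hnn s)] at h1
      refine (hφ4 n s).trans ?_
      have h2 : Real.sqrt (ψ s) ≤ Real.sqrt B := Real.sqrt_le_sqrt h1
      have h3 : 0 ≤ Real.sqrt (ψ s) := Real.sqrt_nonneg _
      rw [hN]
      gcongr
  have hφ0 : ∀ n s, s ∉ Set.Icc c d → φ n s = 0 := by
    intro n s hs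
    by_contra h0
    exact hs (hcd' s (hφ3 n s h0))
  have hbump : ∀ n, BumpOn a b (φ n) := by
    intro n
    refine ⟨hφ1 n, hφ2 n, ?_⟩
    refine subset_trans (closure_mono ?_) hsupp
    exact fun s hs => hφ3 n s hs
  -- the density
  set F : E3 → ℝ := fun x => curv g W x * dens g W x with hFd
  have hFc : ContinuousOn F V := by
    intro x hx
    have h1 := hSMO.2 g W x (hF.reg hx)
    exact ((h1.2.2.2.2.2.2.2.2.2.2.2.1.continuousAt).mul
      (h1.2.2.2.2.2.2.2.2.1.continuousAt)).continuousWithinAt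
  have hWc := hF.continuousOn
  have hV := hF.isOpen.measurableSet
  have hK := hF.proper c d hac hdb
  have hL : Tendsto (fun n => ∫ x in V, φ n (W x) * F x) atTop (𝓝 (∫ x in V, ψ (W x) * F x)) := by
    refine tendsto_integral_of_dominated_convergence
      ((cslab V W c d).indicator fun x => N * ‖F x‖) ?_ ?_ ?_ ?_
    · intro n
      exact (((hφ1 n).continuous.comp_continuousOn hWc).mul hFc).aestronglyMeasurable hV
    · refine Integrable.restrict ?_
      rw [integrable_indicator_iff hK.measurableSet]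
      exact ((hFc.mono (cslab_subset c d)).norm.integrableOn_compact hK).const_mul N
    · intro n
      filter_upwards [ae_restrict_mem hV] with x hx
      by_cases h0 : W x ∈ Set.Icc c d
      · rw [Set.indicator_of_mem (show x ∈ cslab V W c d from ⟨hx, h0⟩), norm_mul]
        exact mul_le_mul_of_nonneg_right (hφB n (W x)) (norm_nonneg _)
      · rw [hφ0 n (W x) h0, zero_mul, norm_zero, Set.indicator_of_notMem (fun h1 => h0 h1.2)]
    · filter_upwards with x
      exact (hφ5 (W x)).mul_const _
  have hR : Tendsto (fun n => ∫ s, φ n s) atTop (𝓝 (∫ s, ψ s)) := by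
    refine tendsto_integral_of_dominated_convergence
      ((Set.Icc c d).indicator fun _ => N) ?_ ?_ ?_ ?_
    · intro n
      exact (hφ1 n).continuous.aestronglyMeasurable
    · rw [integrable_indicator_iff measurableSet_Icc]
      exact integrableOn_const (by simp)
    · intro n
      filter_upwards with s
      by_cases h0 : s ∈ Set.Icc c d
      · rw [Set.indicator_of_mem h0]
        exact hφB n s
      · rw [hφ0 n s h0, norm_zero, Set.indicator_of_notMem h0]
    · filter_upwards with s
      exact hφ5 s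
  have h1 := le_of_tendsto_of_tendsto' hL (hR.const_mul (4 * Real.pi)) (fun n => by
    have h2 := hGB V a b g W hF hconn (φ n) (hbump n)
    have h3 : ∫ x in V, φ n (W x) * F x =
        ∫ x in V, φ n (W x) * curv g W x * dens g W x := by
      refine integral_congr_ae (Eventually.of_forall fun x => ?_)
      simp only [hFd]
      ring
    rw [h3]
    exact h2)
  have h4 : ∫ x in V, ψ (W x) * curv g W x * dens g W x = ∫ x in V, ψ (W x) * F x := by
    refine integral_congr_ae (Eventually.of_forall fun x => ?_)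
    simp only [hFd]
    ring
  rw [h4]
  exact h1

end Pool.Agent.PFlow.GB
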