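import Pool.Agent.PFlow.StmtsG

/-!
# Module GBX: the Gauss-Bonnet inequality for functions on `E3`
-/

set_option autoImplicit false

open MeasureTheory Filter Topology
open scoped ContDiff

namespace Pool.Agent.PFlow.GB

open Pool.Agent.PenroseSph Pool.Agent.PFlow

/-- The form used in the block MI. -/
theorem GBX (hGBC : Stmt_GBC) (hUNIC : Pool.Agent.PFlow.Stmt_UNIC) : Stmt_GBX := by
  intro U g f a b hU hg hf hreg hprop hconn ψ hψ hψ0 hψs
  obtain ⟨V, hV⟩ : ∃ V : Set E3, V = {x | a < f x ∧ f x < b} := ⟨_, rfl⟩
  have hmem : ∀ x, x ∈ V ↔ a < f x ∧ f x < b := fun x => by rw [hV]; exact Iff.rfl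
  have hVo : IsOpen V := by
    rw [hV]
    exact (isOpen_lt continuous_const hf).inter (isOpen_lt hf continuous_const)
  have hVU : V ⊆ U := fun x hx => (hreg x ((hmem x).1 hx).1 ((hmem x).1 hx).2).1
  have hFol : Fol V a b g f :=
    { isOpen := hVo
      metric := ⟨fun i j => (hg.smooth i j).mono hVU, fun x hx => hg.posDef x (hVU hx)⟩
      smooth := fun x hx =>
        (hreg x ((hmem x).1 hx).1 ((hmem x).1 hx).2).2.1.contDiffWithinAt
      mapsTo := fun x hx => (hmem x).1 hx
      regular := fun x hx => (hreg x ((hmem x).1 hx).1 ((hmem x).1 hx).2).2.2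
      proper := by
        intro c d hc hd
        have : cslab V f c d = {x | c ≤ f x ∧ f x ≤ d} := by
          ext x
          constructor
          · exact fun hx => hx.2
          · exact fun hx => ⟨(hmem x).2 ⟨hc.trans_le hx.1, hx.2.trans_lt hd⟩, hx⟩
        rw [this]
        exact hprop c d hc hd }
  have hpre : ∀ s : ℝ, IsPreconnected (V ∩ f ⁻¹' {s}) := by
    intro s
    by_cases hs : a < s ∧ s < b
    · have h1 : V ∩ f ⁻¹' {s} = {x | f x = s} := by
        ext x
        constructor
        · exact fun hx => hx.2
        · intro hx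
          have hx' : f x = s := hx
          exact ⟨(hmem x).2 (by rw [hx']; exact hs), hx⟩
      rw [h1]
      obtain ⟨e, he⟩ : ∃ e, e = min (s - a) (b - s) / 2 := ⟨_, rfl⟩
      have he0 : 0 < e := by
        rw [he]
        have : 0 < min (s - a) (b - s) := lt_min (by linarith [hs.1]) (by linarith [hs.2])
        linarith
      have he1 : e < s - a := by
        rw [he]
        have h2 := min_le_left (s - a) (b - s)
        linarith [hs.1]
      have he2 : e < b - s := by
        rw [he]
        have h2 := min_le_right (s - a) (b - s)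
        linarith [hs.2]
      refine hUNIC f s e hf he0 ?_ (hconn s hs.1 hs.2).1 (hconn s hs.1 hs.2).2 ?_
      · have h2 : {x | |f x - s| ≤ e} = {x | s - e ≤ f x ∧ f x ≤ s + e} := by
          ext x
          simp only [Set.mem_ofPred_eq, abs_le]
          constructor
          · rintro ⟨h3, h4⟩
            exact ⟨by linarith, by linarith⟩
          · rintro ⟨h3, h4⟩
            exact ⟨by linarith, by linarith⟩
        rw [h2]
        exact hprop _ _ (by linarith) (by linarith)
      · intro x hx
        obtain ⟨-, h3, h4⟩ := hreg x (by rw [hx]; exact hs.1) (by rw [hx]; exact hs.2)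
        refine ⟨h3, fun h5 => h4 ?_⟩
        funext i
        change fderiv ℝ f x (EuclideanSpace.single i 1) = 0
        rw [h5]
        rfl
    · have h1 : V ∩ f ⁻¹' {s} = ∅ := by
        rw [Set.eq_empty_iff_forall_notMem]
        rintro x ⟨hx, hx'⟩
        have hx'' : f x = s := hx'
        apply hs
        rw [← hx'']
        exact (hmem x).1 hx
      rw [h1]
      exact isPreconnected_empty
  have hmain := hGBC V a b g f hFol hpre ψ hψ hψ0 hψs
  refine le_trans (le_of_eq ?_) hmain
  symm
  apply setIntegral_eq_integral_of_forall_compl_eq_zero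
  intro x hx
  have h1 : ψ (f x) = 0 := by
    by_contra h2
    exact hx ((hmem x).2 (hψs (subset_tsupport ψ h2)))
  rw [h1, zero_mul, zero_mul]

end Pool.Agent.PFlow.GB
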