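import Pool.Agent.PFlow.G.Base

/-!
# (IBP) Leafwise integration by parts
-/

open MeasureTheory Filter Topology
open scoped ContDiff

namespace Pool.Agent.PFlow.GB

open Pool.Agent.PenroseSph Pool.Agent.PFlow

namespace IBP

theorem pd_mul {F G : E3 → ℝ} {x : E3} (hF : DifferentiableAt ℝ F x)
    (hG : DifferentiableAt ℝ G x) (i : Fin 3) :
    pd i (fun y => F y * G y) x = F x * pd i G x + G x * pd i F x := by
  unfold pd
  rw [fderiv_fun_mul hF hG]
  simp

theorem pd_comp {F : ℝ → ℝ} {W : E3 → ℝ} {x : E3} (hF : DifferentiableAt ℝ F (W x))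
    (hW : DifferentiableAt ℝ W x) (i : Fin 3) :
    pd i (fun y => F (W y)) x = deriv F (W x) * pd i W x := by
  unfold pd
  have h := hF.hasDerivAt.comp_hasFDerivAt x hW.hasFDerivAt
  have h2 : fderiv ℝ (fun y => F (W y)) x = deriv F (W x) • fderiv ℝ W x := h.fderiv
  rw [h2]
  simp

theorem pd_congr {F G : E3 → ℝ} {x : E3} (h : F =ᶠ[𝓝 x] G) (i : Fin 3) :
    pd i F x = pd i G x := by
  unfold pd
  rw [h.fderiv_eq]

theorem integral_pd_zero {F : E3 → ℝ} (hF : ContDiff ℝ 1 F) (hc : HasCompactSupport F)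
    (i : Fin 3) : Integrable (pd i F) ∧ ∫ x, pd i F x = 0 := by
  have hcont : Continuous (fun x => fderiv ℝ F x (EuclideanSpace.single i 1)) :=
    (hF.continuous_fderiv one_ne_zero).clm_apply continuous_const
  have hcs : HasCompactSupport (fun x => fderiv ℝ F x (EuclideanSpace.single i 1)) :=
    hc.fderiv_apply ℝ _
  have hint : Integrable (fun x => fderiv ℝ F x (EuclideanSpace.single i 1)) :=
    hcont.integrable_of_hasCompactSupport hcs
  refine ⟨hint, ?_⟩
  have h := integral_mul_fderiv_eq_neg_fderiv_mul_of_integrable (μ := (volume : Measure E3))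
    (f := fun _ : E3 => (1 : ℝ)) (g := F) (v := EuclideanSpace.single i 1)
    (by simp) (by simpa using hint)
    (by simpa using hF.continuous.integrable_of_hasCompactSupport hc)
    (fun x _ => differentiableAt_const _)
    (fun x _ => hF.differentiable one_ne_zero x)
  unfold pd
  simpa using h

/-- The divergence of a compactly supported field integrates to zero. -/
theorem div_zero {V K : Set E3} (hV : IsOpen V) (hK : IsCompact K) (hKV : K ⊆ V)
    (Z : Fin 3 → E3 → ℝ) (hZ : ∀ i, ContDiffOn ℝ 1 (Z i) V)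
    (h0 : ∀ i, ∀ x ∈ V, x ∉ K → Z i x = 0) :
    ∫ x in V, ∑ i, pd i (Z i) x = 0 := by
  have hin : ∀ i, ∀ x ∈ V, (V.indicator (Z i)) =ᶠ[𝓝 x] Z i := by
    intro i x hx
    filter_upwards [hV.mem_nhds hx] with y hy
    exact Set.indicator_of_mem hy _
  have hout : ∀ i, ∀ x, x ∉ V → (V.indicator (Z i)) =ᶠ[𝓝 x] fun _ => (0 : ℝ) := by
    intro i x hx
    filter_upwards [hK.isClosed.isOpen_compl.mem_nhds (fun h => hx (hKV h))] with y hy
    by_cases hyV : y ∈ V
    · rw [Set.indicator_of_mem hyV]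
      exact h0 i y hyV hy
    · exact Set.indicator_of_notMem hyV _
  have hC : ∀ i, ContDiff ℝ 1 (V.indicator (Z i)) := by
    intro i
    rw [contDiff_iff_contDiffAt]
    intro x
    by_cases hx : x ∈ V
    · exact ((hZ i x hx).contDiffAt (hV.mem_nhds hx)).congr_of_eventuallyEq (hin i x hx)
    · exact contDiffAt_const.congr_of_eventuallyEq (hout i x hx)
  have hS : ∀ i, HasCompactSupport (V.indicator (Z i)) := by
    intro i
    refine HasCompactSupport.intro hK fun x hx => ?_
    by_cases hxV : x ∈ V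
    · rw [Set.indicator_of_mem hxV]
      exact h0 i x hxV hx
    · exact Set.indicator_of_notMem hxV _
  have e1 : ∫ x in V, ∑ i, pd i (Z i) x = ∫ x in V, ∑ i, pd i (V.indicator (Z i)) x := by
    refine setIntegral_congr_fun hV.measurableSet fun x hx => ?_
    exact Finset.sum_congr rfl fun i _ => (pd_congr (hin i x hx) i).symm
  have e2 : ∫ x in V, ∑ i, pd i (V.indicator (Z i)) x = ∫ x, ∑ i, pd i (V.indicator (Z i)) x := by
    refine setIntegral_eq_integral_of_forall_compl_eq_zero fun x hx => ?_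
    refine Finset.sum_eq_zero fun i _ => ?_
    rw [pd_congr (hout i x hx) i]
    unfold pd
    simp
  rw [e1, e2, integral_finsetSum _ (fun i _ => (integral_pd_zero (hC i) (hS i) i).1)]
  exact Finset.sum_eq_zero fun i _ => (integral_pd_zero (hC i) (hS i) i).2

theorem integrableOn_aux {V K : Set E3} (hV : IsOpen V) (hK : IsCompact K) (hKV : K ⊆ V)
    {F : E3 → ℝ} (hF : ContinuousOn F V) (h0 : ∀ x ∈ V, x ∉ K → F x = 0) :
    IntegrableOn F V :=
  ((hF.mono hKV).integrableOn_compact hK).of_forall_sdiff_eq_zero hV.measurableSet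
    (fun x hx => h0 x hx.1 hx.2)

end IBP

theorem IBP (_ : Stmt_ALG) (hSMO : Stmt_SMO) (hRUL : Stmt_RUL) : Stmt_IBP := by
  intro V a b g W hF
  have hreg : ∀ x ∈ V, Reg g W x := fun x hx => hF.reg hx
  have hm0 : ∀ x ∈ V, dens g W x ≠ 0 := by
    intro x hx
    obtain ⟨-, -, -, h4, -⟩ := hSMO.2 g W x (hreg x hx)
    exact h4.ne'
  have hms : ∀ x ∈ V, ContDiffAt ℝ ∞ (dens g W) x := by
    intro x hx
    obtain ⟨-, -, -, -, -, -, -, -, h9, -⟩ := hSMO.2 g W x (hreg x hx)
    exact h9
  have hlin : ∀ f h : E3 → ℝ, ContDiffOn ℝ 1 f V → ContDiffOn ℝ 1 h V →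
      ContinuousOn (lin g W f h) V := by
    intro f h hf hh x hx
    obtain ⟨-, -, -, -, -, -, -, -, -, -, -, -, -, h14, -⟩ := hSMO.2 g W x (hreg x hx)
    have h := (h14 0 f h (by simpa using (hf x hx).contDiffAt (hF.isOpen.mem_nhds hx))
      (by simpa using (hh x hx).contDiffAt (hF.isOpen.mem_nhds hx))).1
    exact h.continuousAt.continuousWithinAt
  have hlg : ∀ h : E3 → ℝ, ContDiffOn ℝ 2 h V → ∀ i, ContDiffOn ℝ 1 (fun y => lgrad g W h y i) V := by
    intro h hh i x hx
    obtain ⟨-, -, -, -, -, -, -, -, -, -, -, -, -, h14, -⟩ := hSMO.2 g W x (hreg x hx)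
    have hh2 : ContDiffAt ℝ ((1 + 1 : ℕ) : WithTop ℕ∞) h x := by
      have := (hh x hx).contDiffAt (hF.isOpen.mem_nhds hx)
      norm_num at this ⊢
      exact this
    have h := (h14 1 h h hh2 hh2).2 i
    exact (by simpa using h : ContDiffAt ℝ 1 (fun y => lgrad g W _ y i) x).contDiffWithinAt
  have hlap : ∀ h : E3 → ℝ, ContDiffOn ℝ 2 h V → ContinuousOn (lap g W h) V := by
    intro h hh x hx
    obtain ⟨-, -, -, -, -, -, -, -, -, -, -, -, -, -, h15⟩ := hSMO.2 g W x (hreg x hx)
    have hh2 : ContDiffAt ℝ ((0 + 2 : ℕ) : WithTop ℕ∞) h x := by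
      have := (hh x hx).contDiffAt (hF.isOpen.mem_nhds hx)
      norm_num at this ⊢
      exact this
    exact (h15 0 h hh2).continuousAt.continuousWithinAt
  have hmc : ContinuousOn (dens g W) V := fun x hx => (hms x hx).continuousAt.continuousWithinAt
  have hmc1 : ContDiffOn ℝ 1 (dens g W) V := fun x hx =>
    ((hms x hx).of_le (by exact_mod_cast le_top)).contDiffWithinAt
  have hW1 : ContDiffOn ℝ 1 W V := hF.smooth.of_le (by exact_mod_cast le_top)
  -- the first assertion
  have part1 : ∀ (Y : E3 → Cov) (ψ : ℝ → ℝ), (∀ i, ContDiffOn ℝ 1 (fun x => Y x i) V) →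
      (∀ x ∈ V, ∑ i, Y x i * grad W x i = 0) → ContDiff ℝ 1 ψ → tsupport ψ ⊆ Set.Ioo a b →
      ∫ x in V, ψ (W x) * ldiv g W Y x * dens g W x = 0 := by
    intro Y ψ hY hT hψ hs
    by_cases hab : a < b
    swap
    · have hV : V = ∅ := by
        refine Set.eq_empty_of_forall_notMem fun x hx => hab ?_
        exact (hF.mapsTo x hx).1.trans (hF.mapsTo x hx).2
      rw [hV]
      simp
    obtain ⟨c', d', hc, hcd, hd, hsp⟩ := exists_Icc_of_tsupport hab hs
    have hz : ∀ x ∈ V, x ∉ cslab V W c' d' → ψ (W x) = 0 := by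
      intro x hx hxK
      by_contra hne
      exact hxK ⟨hx, hsp _ hne⟩
    have h := IBP.div_zero hF.isOpen (hF.proper c' d' hc hd) (cslab_subset c' d')
      (fun i x => ψ (W x) * (dens g W x * Y x i))
      (fun i => (hψ.comp_contDiffOn hW1).mul (hmc1.mul (hY i)))
      (fun i x hx hxK => by simp only [hz x hx hxK, zero_mul])
    rw [← h]
    refine setIntegral_congr_fun hF.isOpen.measurableSet fun x hx => ?_
    have hdm : DifferentiableAt ℝ (dens g W) x := (hms x hx).differentiableAt (by simp)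
    have hdY : ∀ i, DifferentiableAt ℝ (fun y => Y y i) x := fun i =>
      ((hY i x hx).contDiffAt (hF.isOpen.mem_nhds hx)).differentiableAt one_ne_zero
    have hdW : DifferentiableAt ℝ W x := (hF.contDiffAt hx).differentiableAt (by simp)
    have hdψ : DifferentiableAt ℝ ψ (W x) := hψ.differentiable one_ne_zero (W x)
    have hdψW : DifferentiableAt ℝ (fun y => ψ (W y)) x := hdψ.comp x hdW
    have e : ∀ i, pd i (fun y => ψ (W y) * (dens g W y * Y y i)) x =
        ψ (W x) * pd i (fun y => dens g W y * Y y i) x +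
          dens g W x * deriv ψ (W x) * (Y x i * grad W x i) := by
      intro i
      have hd2 : DifferentiableAt ℝ (fun y => dens g W y * Y y i) x := hdm.mul (hdY i)
      rw [IBP.pd_mul hdψW hd2 i, IBP.pd_comp hdψ hdW i]
      unfold grad
      ring
    simp only [e]
    rw [Finset.sum_add_distrib, ← Finset.mul_sum, ← Finset.mul_sum, hT x hx]
    unfold ldiv
    field_simp [hm0 x hx]
    ring
  have hYd : ∀ f h : E3 → ℝ, ContDiffOn ℝ 1 f V → ContDiffOn ℝ 2 h V → ∀ x ∈ V,
      ldiv g W (fun y i => f y * lgrad g W h y i) x = f x * lap g W h x + lin g W f h x := by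
    intro f h hf hh x hx
    obtain ⟨-, r2, r3, -, -, -, -, -, -, -, -, r12⟩ := hRUL g W x (hreg x hx)
    rw [r12 f (lgrad g W h)
      (((hf x hx).contDiffAt (hF.isOpen.mem_nhds hx)).differentiableAt one_ne_zero)
      (fun i => ((hlg h hh i x hx).contDiffAt (hF.isOpen.mem_nhds hx)).differentiableAt
        one_ne_zero), r2 h f, (r3 h f).1]
    rfl
  have hTan : ∀ f h : E3 → ℝ, ∀ x ∈ V,
      ∑ i, (f x * lgrad g W h x i) * grad W x i = 0 := by
    intro f h x hx
    obtain ⟨r1, -⟩ := hRUL g W x (hreg x hx)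
    have e : ∑ i, (f x * lgrad g W h x i) * grad W x i =
        f x * ∑ i, lgrad g W h x i * grad W x i := by
      rw [Finset.mul_sum]
      exact Finset.sum_congr rfl fun i _ => by ring
    rw [e, r1 h, mul_zero]
  -- the second assertion
  have part2 : ∀ (f h : E3 → ℝ) (ψ : ℝ → ℝ), ContDiffOn ℝ 1 f V → ContDiffOn ℝ 2 h V →
      ContDiff ℝ 1 ψ → tsupport ψ ⊆ Set.Ioo a b →
      ∫ x in V, ψ (W x) * (f x * lap g W h x) * dens g W x
        = - ∫ x in V, ψ (W x) * lin g W f h x * dens g W x := by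
    intro f h ψ hf hh hψ hs
    by_cases hab : a < b
    swap
    · have hV : V = ∅ := by
        refine Set.eq_empty_of_forall_notMem fun x hx => hab ?_
        exact (hF.mapsTo x hx).1.trans (hF.mapsTo x hx).2
      rw [hV]
      simp
    obtain ⟨c', d', hc, hcd, hd, hsp⟩ := exists_Icc_of_tsupport hab hs
    have hz : ∀ x ∈ V, x ∉ cslab V W c' d' → ψ (W x) = 0 := by
      intro x hx hxK
      by_contra hne
      exact hxK ⟨hx, hsp _ hne⟩
    have hψW : ContinuousOn (fun x => ψ (W x)) V := hψ.continuous.comp_continuousOn hF.continuousOn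
    have i1 : IntegrableOn (fun x => ψ (W x) * (f x * lap g W h x) * dens g W x) V :=
      IBP.integrableOn_aux hF.isOpen (hF.proper c' d' hc hd) (cslab_subset c' d')
        ((hψW.mul (hf.continuousOn.mul (hlap h hh))).mul hmc)
        (fun x hx hxK => by simp only [hz x hx hxK, zero_mul])
    have i2 : IntegrableOn (fun x => ψ (W x) * lin g W f h x * dens g W x) V :=
      IBP.integrableOn_aux hF.isOpen (hF.proper c' d' hc hd) (cslab_subset c' d')
        ((hψW.mul (hlin f h hf (hh.of_le one_le_two))).mul hmc)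
        (fun x hx hxK => by simp only [hz x hx hxK, zero_mul])
    have h0 := part1 (fun x i => f x * lgrad g W h x i) ψ (fun i => hf.mul (hlg h hh i))
      (hTan f h) hψ hs
    have h1 : ∫ x in V, (ψ (W x) * (f x * lap g W h x) * dens g W x +
        ψ (W x) * lin g W f h x * dens g W x) = 0 := by
      rw [← h0]
      refine setIntegral_congr_fun hF.isOpen.measurableSet fun x hx => ?_
      rw [hYd f h hf hh x hx]
      ring
    rw [integral_add i1 i2] at h1
    linarith
  -- compactly supported fields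
  have part3 : ∀ (f h : E3 → ℝ) (K : Set E3), IsCompact K → K ⊆ V → ContDiffOn ℝ 1 f V →
      ContDiffOn ℝ 2 h V →
      (∀ x ∈ V, x ∉ K → ∀ i, f x * lgrad g W h x i = 0) →
      (∀ x ∈ V, x ∉ K → f x * lap g W h x = 0) → (∀ x ∈ V, x ∉ K → lin g W f h x = 0) →
      ∫ x in V, f x * lap g W h x * dens g W x = - ∫ x in V, lin g W f h x * dens g W x := by
    intro f h K hK hKV hf hh hz1 hz2 hz3
    have i1 : IntegrableOn (fun x => f x * lap g W h x * dens g W x) V :=
      IBP.integrableOn_aux hF.isOpen hK hKV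
        ((hf.continuousOn.mul (hlap h hh)).mul hmc)
        (fun x hx hxK => by simp only [hz2 x hx hxK, zero_mul])
    have i2 : IntegrableOn (fun x => lin g W f h x * dens g W x) V :=
      IBP.integrableOn_aux hF.isOpen hK hKV
        ((hlin f h hf (hh.of_le one_le_two)).mul hmc)
        (fun x hx hxK => by simp only [hz3 x hx hxK, zero_mul])
    have h0 := IBP.div_zero hF.isOpen hK hKV
      (fun i x => dens g W x * (f x * lgrad g W h x i))
      (fun i => hmc1.mul (hf.mul (hlg h hh i)))
      (fun i x hx hxK => by simp only [hz1 x hx hxK i, mul_zero])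
    have h1 : ∫ x in V, (f x * lap g W h x * dens g W x + lin g W f h x * dens g W x) = 0 := by
      rw [← h0]
      refine setIntegral_congr_fun hF.isOpen.measurableSet fun x hx => ?_
      have h2 := hYd f h hf hh x hx
      unfold ldiv at h2
      rw [div_eq_iff (hm0 x hx)] at h2
      rw [h2]
      ring
    rw [integral_add i1 i2] at h1
    linarith
  refine ⟨part1, part2, ?_⟩
  intro f h hf hh
  have hf2 : ContDiffOn ℝ 2 f V := (contDiff_infty.mp hf.smooth 2).contDiffOn
  have hf1 : ContDiffOn ℝ 1 f V := hf2.of_le one_le_two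
  have hh1 : ContDiffOn ℝ 1 h V := hh.of_le one_le_two
  have hKc : IsCompact (tsupport f) := hf.compact
  have hev : ∀ x, x ∉ tsupport f → f =ᶠ[𝓝 x] fun _ => (0 : ℝ) := fun x hx =>
    notMem_tsupport_iff_eventuallyEq.mp hx
  have hf0 : ∀ x, x ∉ tsupport f → f x = 0 := fun x hx => (hev x hx).eq_of_nhds
  have hg0 : ∀ x, x ∉ tsupport f → grad f x = 0 := by
    intro x hx
    funext i
    unfold grad
    rw [IBP.pd_congr (hev x hx) i]
    unfold pd
    simp
  have hlg0 : ∀ x, x ∉ tsupport f → ∀ i, lgrad g W f x i = 0 := by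
    intro x hx i
    unfold lgrad raise
    rw [hg0 x hx]
    simp
  have hlin0 : ∀ x, x ∉ tsupport f → lin g W f h x = 0 := by
    intro x hx
    unfold lin lip ev
    rw [hg0 x hx]
    simp
  have hlap0 : ∀ x, x ∉ tsupport f → lap g W f x = 0 := by
    intro x hx
    unfold lap ldiv
    have e : ∀ i, pd i (fun y => dens g W y * lgrad g W f y i) x = 0 := by
      intro i
      have he : (fun y => dens g W y * lgrad g W f y i) =ᶠ[𝓝 x] fun _ => (0 : ℝ) := by
        filter_upwards [(isClosed_tsupport f).isOpen_compl.mem_nhds hx] with y hy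
        rw [hlg0 y hy i, mul_zero]
      rw [IBP.pd_congr he i]
      unfold pd
      simp
    simp [e]
  have q1 := part3 f h (tsupport f) hKc hf.supp hf1 hh
    (fun x _ hx i => by rw [hf0 x hx, zero_mul]) (fun x _ hx => by rw [hf0 x hx, zero_mul])
    (fun x _ hx => hlin0 x hx)
  have hsym : ∀ x ∈ V, lin g W h f x = lin g W f h x := by
    intro x hx
    obtain ⟨-, -, r3, -⟩ := hRUL g W x (hreg x hx)
    exact (r3 h f).1
  have q2 := part3 h f (tsupport f) hKc hf.supp hh1 hf2
    (fun x _ hx i => by rw [hlg0 x hx i, mul_zero]) (fun x _ hx => by rw [hlap0 x hx, mul_zero])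
    (fun x hx hx2 => by rw [hsym x hx]; exact hlin0 x hx2)
  have q3 : ∫ x in V, lin g W h f x * dens g W x = ∫ x in V, lin g W f h x * dens g W x := by
    refine setIntegral_congr_fun hF.isOpen.measurableSet fun x hx => ?_
    rw [hsym x hx]
  exact ⟨q1, by rw [q1, q2, q3]⟩

end Pool.Agent.PFlow.GB
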