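import Pool.Agent.PFlow.StmtsG
import Pool.Agent.PFlow.M_JD

/-!
# Block GB: the leafwise Laplacian is `tr_S ∇²f - H ν(f)`
-/

open MeasureTheory Filter Topology
open scoped ContDiff

namespace Pool.Agent.PFlow.GB

open Pool.Agent.PenroseSph Pool.Agent.PFlow

namespace LBm

open Pool.Agent.PFlow.MJD (Pt pt_of)
open Pool.Agent.PenroseConvex (CovR.contDiffAt_pd CovR.pd_comm CovR.le2)

variable {g : TensorField} {x : E3}

/-- the covariant derivative of a covector field -/
noncomputable def nab (g : TensorField) (A : E3 → Cov) (i j : Fin 3) (x : E3) : ℝ :=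
  pd i (fun y => A y j) x - ∑ m, christoffel g m i j x * A x m

/-- the derivative of an inner product -/
theorem pd_ip (h : Pt g x) (A B : E3 → Cov) (hA : ∀ j, DifferentiableAt ℝ (fun y => A y j) x)
    (hB : ∀ j, DifferentiableAt ℝ (fun y => B y j) x) (i : Fin 3) :
    pd i (fun y => ∑ j, B y j * up (g y)⁻¹ (A y) j) x =
      ∑ j, up (g x)⁻¹ (B x) j * nab g A i j x + ∑ j, up (g x)⁻¹ (A x) j * nab g B i j x := by
  have hup : ∀ k, DifferentiableAt ℝ (fun y => up (g y)⁻¹ (A y) k) x := fun k =>
    DifferentiableAt.fun_sum fun j _ => (h.diffInv k j).fun_mul (hA j)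
  rw [pd_sum _ _ (fun j _ => (hB j).fun_mul (hup j))]
  have h1 : ∀ j, pd i (fun y => B y j * up (g y)⁻¹ (A y) j) x =
      B x j * (∑ l, (g x)⁻¹ j l * nab g A i l x - ∑ m, christoffel g j i m x * up (g x)⁻¹ (A x) m)
        + up (g x)⁻¹ (A x) j * pd i (fun y => B y j) x := by
    intro j
    rw [pd_mul (hB j) (hup j), h.pd_up A hA]
    rfl
  simp only [h1]
  have h2 : ∀ j, pd i (fun y => B y j) x = nab g B i j x + ∑ m, christoffel g m i j x * B x m := by
    intro j
    unfold nab
    ring
  simp only [h2]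
  have h3 : ∀ k, up (g x)⁻¹ (B x) k = ∑ l, (g x)⁻¹ l k * B x l := by
    intro k
    unfold up
    exact Finset.sum_congr rfl fun l _ => by rw [h.inv_symm k l]
  simp only [h3, Fin.sum_univ_three]
  ring

/-- the algebra -/
theorem alg (HW Hf : Bil) (Wc fc Wv fv dl dF : Cov) (P : Bil) (L F : ℝ) (hL : L ≠ 0)
    (hHW : ∀ i j, HW i j = HW j i) (hWv : ∀ i, Wv i = ∑ j, P i j * Wc j)
    (hfv : ∀ i, fv i = ∑ j, P i j * fc j)
    (hdl : ∀ i, dl i = (∑ k, Wv k * HW i k) / L)
    (hdF : ∀ i, dF i = ((∑ j, fv j * HW i j) + (∑ j, Wv j * Hf i j) - F * dl i) / L) :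
    ∑ i, ∑ j, P i j * (L * Hf i j + fc j * dl i - (F * HW i j + Wc j * dF i)) =
      L * ((∑ i, ∑ j, P i j * Hf i j) - ∑ i, ∑ j, Hf i j * (Wv i / L) * (Wv j / L))
        - F * ((∑ i, ∑ j, P i j * HW i j) - ∑ i, ∑ j, HW i j * (Wv i / L) * (Wv j / L)) := by
  have h1 : ∑ i, ∑ j, P i j * (L * Hf i j + fc j * dl i - (F * HW i j + Wc j * dF i)) =
      L * (∑ i, ∑ j, P i j * Hf i j) - F * (∑ i, ∑ j, P i j * HW i j)
        + ((∑ i, fv i * dl i) - ∑ i, Wv i * dF i) := by
    simp only [hWv, hfv, Fin.sum_univ_three]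
    ring
  have h2 : (∑ i, fv i * dl i) - ∑ i, Wv i * dF i =
      - L * (∑ i, ∑ j, Hf i j * (Wv i / L) * (Wv j / L))
        + F * ∑ i, ∑ j, HW i j * (Wv i / L) * (Wv j / L) := by
    simp only [hdF, hdl, Fin.sum_univ_three]
    rw [hHW 1 0, hHW 2 0, hHW 2 1]
    field_simp
    ring
  rw [h1, h2]
  ring

end LBm

open LBm in
open Pool.Agent.PFlow.MJD (Pt pt_of) in
open Pool.Agent.PenroseConvex (CovR.contDiffAt_pd CovR.pd_comm CovR.le2) in
/-- (LB) The leafwise Laplacian is `tr_S ∇²f - H ν(f)`. -/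
theorem LB (_hALG : Stmt_ALG) (hSMO : Stmt_SMO) : Stmt_LB := by
  intro g W x hreg f hf
  obtain ⟨O, hO, hxO, hg, hW, _⟩ := id hreg
  have hp : Pt g x := pt_of hO hg hxO
  obtain ⟨hev, hlen, hvol, hdens, _, _, hlenS, _, _, _, _, _, _, _, _⟩ := hSMO.2 g W x hreg
  have hWx : ContDiffAt ℝ ∞ W x := hW.contDiffAt (hO.mem_nhds hxO)
  have hW2 : ContDiffAt ℝ 2 W x := hWx.of_le CovR.le2
  have hgW : ∀ j, DifferentiableAt ℝ (fun y => grad W y j) x := fun j =>
    (CovR.contDiffAt_pd (n := 1) hWx CovR.le2 j).differentiableAt (by norm_num)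
  have hgf : ∀ j, DifferentiableAt ℝ (fun y => grad f y j) x := fun j =>
    (CovR.contDiffAt_pd (n := 1) hf (by norm_num) j).differentiableAt (by norm_num)
  have hupW : ∀ k, DifferentiableAt ℝ (fun y => up (g y)⁻¹ (grad W y) k) x := fun k =>
    DifferentiableAt.fun_sum fun j _ => (hp.diffInv k j).fun_mul (hgW j)
  -- the length
  have hl : DifferentiableAt ℝ (fun y => len g y (grad W y)) x := hlenS.differentiableAt (by simp)
  have hlpos : ∀ᶠ y in 𝓝 x, 0 < len g y (grad W y) := by
    filter_upwards [hev] with y hy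
    exact (hSMO.2 g W y hy).2.1
  have hlsq : (fun y => len g y (grad W y) * len g y (grad W y)) =ᶠ[𝓝 x]
      fun y => ∑ j, grad W y j * up (g y)⁻¹ (grad W y) j := by
    filter_upwards [hlpos] with y hy
    have h0 : 0 < ev (g y)⁻¹ (grad W y) (grad W y) := by
      unfold len at hy
      exact Real.sqrt_pos.1 hy
    have h1 : len g y (grad W y) * len g y (grad W y) = ev (g y)⁻¹ (grad W y) (grad W y) := by
      unfold len
      exact Real.mul_self_sqrt h0.le
    rw [h1]
    unfold ev up
    refine Finset.sum_congr rfl fun i _ => ?_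
    rw [Finset.mul_sum]
    refine Finset.sum_congr rfl fun j _ => ?_
    ring
  have hnabW : ∀ i j, nab g (grad W) i j x = cHess g x (grad W x) (hess2 W x) i j := fun i j => rfl
  have hnabf : ∀ i j, nab g (grad f) i j x = cHess g x (grad f x) (hess2 f x) i j := fun i j => rfl
  have hdl : ∀ i, pd i (fun y => len g y (grad W y)) x =
      (∑ k, up (g x)⁻¹ (grad W x) k * cHess g x (grad W x) (hess2 W x) i k)
        / len g x (grad W x) := by
    intro i
    have h1 := pd_congr (i := i) hlsq
    rw [pd_mul hl hl, pd_ip hp (grad W) (grad W) hgW hgW i] at h1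
    simp only [hnabW] at h1
    rw [eq_div_iff hlen.ne']
    linarith
  -- the normal derivative
  obtain ⟨F, hF⟩ : ∃ F : E3 → ℝ, F = fun y =>
      (∑ j, grad f y j * up (g y)⁻¹ (grad W y) j) / len g y (grad W y) := ⟨_, rfl⟩
  have hnum : DifferentiableAt ℝ (fun y => ∑ j, grad f y j * up (g y)⁻¹ (grad W y) j) x :=
    DifferentiableAt.fun_sum fun j _ => (hgf j).fun_mul (hupW j)
  have hFd : DifferentiableAt ℝ F x := by
    rw [hF]
    exact hnum.mul (hl.inv hlen.ne')
  have hFmul : (fun y => F y * len g y (grad W y)) =ᶠ[𝓝 x]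
      fun y => ∑ j, grad f y j * up (g y)⁻¹ (grad W y) j := by
    filter_upwards [hlpos] with y hy
    rw [hF]
    simp only
    rw [div_mul_cancel₀ _ hy.ne']
  have hdF : ∀ i, pd i F x =
      ((∑ j, up (g x)⁻¹ (grad f x) j * cHess g x (grad W x) (hess2 W x) i j)
        + (∑ j, up (g x)⁻¹ (grad W x) j * cHess g x (grad f x) (hess2 f x) i j)
        - F x * pd i (fun y => len g y (grad W y)) x) / len g x (grad W x) := by
    intro i
    have h1 := pd_congr (i := i) hFmul
    rw [pd_mul hFd hl, pd_ip hp (grad W) (grad f) hgW hgf i] at h1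
    simp only [hnabW, hnabf] at h1
    rw [eq_div_iff hlen.ne']
    linarith
  -- the vector field
  have hX : ∀ j, DifferentiableAt ℝ
      (fun y => len g y (grad W y) * grad f y j - F y * grad W y j) x := fun j =>
    (hl.fun_mul (hgf j)).fun_sub (hFd.fun_mul (hgW j))
  have hfield : ∀ i, (fun y => dens g W y * lgrad g W f y i) =ᶠ[𝓝 x] fun y =>
      volDen g y * up (g y)⁻¹ (fun j => len g y (grad W y) * grad f y j - F y * grad W y j) i := by
    intro i
    filter_upwards [hlpos] with y hy
    have h1 : up (g y)⁻¹ (fun j => len g y (grad W y) * grad f y j - F y * grad W y j) i =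
        len g y (grad W y) * up (g y)⁻¹ (grad f y) i - F y * up (g y)⁻¹ (grad W y) i := by
      unfold up
      rw [Finset.mul_sum, Finset.mul_sum, ← Finset.sum_sub_distrib]
      refine Finset.sum_congr rfl fun j _ => ?_
      ring
    have h2 : lgrad g W f y i = up (g y)⁻¹ (grad f y) i
        - up (g y)⁻¹ (grad W y) i / len g y (grad W y) * F y := by
      have h3 : F y = ∑ j, grad f y j * nrm g y (grad W y) j := by
        rw [hF]
        simp only
        rw [Finset.sum_div]
        refine Finset.sum_congr rfl fun j _ => ?_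
        have h4 : nrm g y (grad W y) j = up (g y)⁻¹ (grad W y) j / len g y (grad W y) := rfl
        rw [h4, mul_div_assoc]
      rw [h3]
      rfl
    rw [h1, h2]
    unfold dens
    field_simp
  have hsum : ∑ i, pd i (fun y => dens g W y * lgrad g W f y i) x =
      volDen g x * ∑ i, ∑ j, (g x)⁻¹ i j *
        (len g x (grad W x) * cHess g x (grad f x) (hess2 f x) i j
          + grad f x j * pd i (fun y => len g y (grad W y)) x
          - (F x * cHess g x (grad W x) (hess2 W x) i j + grad W x j * pd i F x)) := by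
    have h1 : ∀ i, pd i (fun y => dens g W y * lgrad g W f y i) x = pd i (fun y =>
        volDen g y * up (g y)⁻¹ (fun j => len g y (grad W y) * grad f y j
          - F y * grad W y j) i) x := fun i => pd_congr (hfield i)
    simp only [h1]
    rw [hp.div_up (fun y j => len g y (grad W y) * grad f y j - F y * grad W y j) hX]
    congr 1
    refine Finset.sum_congr rfl fun i _ => Finset.sum_congr rfl fun j _ => ?_
    congr 1
    rw [pd_sub (hl.fun_mul (hgf j)) (hFd.fun_mul (hgW j)), pd_mul hl (hgf j), pd_mul hFd (hgW j)]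
    have h2 : cHess g x (grad f x) (hess2 f x) i j =
        pd i (fun y => grad f y j) x - ∑ m, christoffel g m i j x * grad f x m := rfl
    have h3 : cHess g x (grad W x) (hess2 W x) i j =
        pd i (fun y => grad W y j) x - ∑ m, christoffel g m i j x * grad W x m := rfl
    rw [h2, h3]
    simp only [Fin.sum_univ_three]
    ring
  have hHW : ∀ i j, cHess g x (grad W x) (hess2 W x) i j =
      cHess g x (grad W x) (hess2 W x) j i := by
    intro i j
    have h2 : ∀ i j, cHess g x (grad W x) (hess2 W x) i j =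
        pd i (pd j W) x - ∑ m, christoffel g m i j x * grad W x m := fun i j => rfl
    rw [h2, h2, CovR.pd_comm hW2 i j]
    congr 1
    refine Finset.sum_congr rfl fun m _ => ?_
    rw [hp.chr_symm m i j]
  have key := alg (cHess g x (grad W x) (hess2 W x)) (cHess g x (grad f x) (hess2 f x))
    (grad W x) (grad f x) (up (g x)⁻¹ (grad W x)) (up (g x)⁻¹ (grad f x))
    (fun i => pd i (fun y => len g y (grad W y)) x) (fun i => pd i F x) (g x)⁻¹
    (len g x (grad W x)) (F x) hlen.ne' hHW (fun i => rfl) (fun i => rfl) hdl hdF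
  have hlap : lap g W f x = (∑ i, pd i (fun y => dens g W y * lgrad g W f y i) x)
      / dens g W x := rfl
  rw [hlap, hsum]
  have hbt : ∀ B : Bil, btan g x (grad W x) B = (∑ i, ∑ j, (g x)⁻¹ i j * B i j) -
      ∑ i, ∑ j, B i j * (up (g x)⁻¹ (grad W x) i / len g x (grad W x))
        * (up (g x)⁻¹ (grad W x) j / len g x (grad W x)) := fun B => rfl
  rw [hbt, hbt]
  have hFx : ∑ i, grad f x i * nrm g x (grad W x) i = F x := by
    rw [hF]
    simp only
    rw [Finset.sum_div]
    refine Finset.sum_congr rfl fun j _ => ?_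
    have h4 : nrm g x (grad W x) j = up (g x)⁻¹ (grad W x) j / len g x (grad W x) := rfl
    rw [h4, mul_div_assoc]
  rw [hFx]
  refine Eq.trans (congrArg (fun s => volDen g x * s / dens g W x) key) ?_
  have hd : dens g W x = len g x (grad W x) * volDen g x := rfl
  rw [hd]
  have hv := hvol.ne'
  have hln := hlen.ne'
  generalize (∑ i, ∑ j, (g x)⁻¹ i j * cHess g x (grad f x) (hess2 f x) i j) -
      ∑ i, ∑ j, cHess g x (grad f x) (hess2 f x) i j
        * (up (g x)⁻¹ (grad W x) i / len g x (grad W x))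
        * (up (g x)⁻¹ (grad W x) j / len g x (grad W x)) = S1
  generalize (∑ i, ∑ j, (g x)⁻¹ i j * cHess g x (grad W x) (hess2 W x) i j) -
      ∑ i, ∑ j, cHess g x (grad W x) (hess2 W x) i j
        * (up (g x)⁻¹ (grad W x) i / len g x (grad W x))
        * (up (g x)⁻¹ (grad W x) j / len g x (grad W x)) = S2
  field_simp

end Pool.Agent.PFlow.GB
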