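import Pool.Agent.PFlow.G.Base

/-!
# Block GB: the leafwise mean of the function `rho0` is zero
-/

open MeasureTheory Filter Topology
open scoped ContDiff

namespace Pool.Agent.PFlow.GB

open Pool.Agent.PenroseSph Pool.Agent.PFlow

namespace MEANaux

lemma pd_congr {i : Fin 3} {f k : E3 → ℝ} {x : E3} (h : f =ᶠ[𝓝 x] k) : pd i f x = pd i k x := by
  unfold pd
  rw [h.fderiv_eq]

lemma pd_zero {i : Fin 3} {f : E3 → ℝ} {x : E3} (h : f =ᶠ[𝓝 x] fun _ => 0) : pd i f x = 0 := by
  rw [pd_congr h]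
  unfold pd
  simp

lemma grad_congr {f k : E3 → ℝ} {x : E3} (h : f =ᶠ[𝓝 x] k) : grad f x = grad k x := by
  funext i
  exact pd_congr h

/-- The flux of `grad phi0` at a pole. -/
lemma flux_pole {g : TensorField} {W : E3 → ℝ} (hRUL : Stmt_RUL) {x : E3} (hreg : Reg g W x)
    {φ ρ : E3 → ℝ} {σ C : ℝ} (hσ : |σ| = 1) (hρ : DifferentiableAt ℝ ρ x) (hpos : 0 < ρ x)
    (hlt : ρ x < 1) (hφ : ∀ᶠ y in 𝓝 x, φ y = σ * Real.log (ρ y) / 2)
    (hlin : |lin g W ρ ρ x - 4 * ρ x| ≤ C * ρ x ^ 2) (hC : 0 ≤ C) :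
    |∑ i, pd i ρ x * lgrad g W φ x i - 2 * σ| ≤ C * Real.sqrt (ρ x) := by
  obtain ⟨-, h2, h3, -, -, -, -, h8, -⟩ := hRUL g W x hreg
  have e1 : ∑ i, pd i ρ x * lgrad g W φ x i = lin g W φ ρ x := by
    rw [← h2 φ ρ]
    refine Finset.sum_congr rfl fun i _ => ?_
    rw [mul_comm]
    rfl
  have e2 : lin g W φ ρ x = lin g W (fun y => (fun s => σ * Real.log s / 2) (ρ y)) ρ x := by
    unfold lin
    rw [grad_congr hφ]
  have hd : HasDerivAt (fun s => σ * Real.log s / 2) (σ * (ρ x)⁻¹ / 2) (ρ x) :=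
    ((Real.hasDerivAt_log hpos.ne').const_mul σ).div_const 2
  have e3 := h8 ρ ρ (fun s => σ * Real.log s / 2) hρ hd.differentiableAt
  rw [e1, e2, e3, hd.deriv]
  have hne := hpos.ne'
  have e4 : σ * (ρ x)⁻¹ / 2 * lin g W ρ ρ x - 2 * σ
      = σ * ((lin g W ρ ρ x - 4 * ρ x) / (2 * ρ x)) := by
    field_simp
    ring
  rw [e4, abs_mul, hσ, one_mul, abs_div, abs_of_pos (by positivity : (0:ℝ) < 2 * ρ x),
    div_le_iff₀ (by positivity)]
  have hs : ρ x ≤ Real.sqrt (ρ x) := by
    rw [Real.le_sqrt hpos.le hpos.le]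
    nlinarith
  calc |lin g W ρ ρ x - 4 * ρ x| ≤ C * ρ x ^ 2 := hlin
    _ ≤ C * Real.sqrt (ρ x) * (2 * ρ x) := by
        have h5 : ρ x ^ 2 ≤ Real.sqrt (ρ x) * (2 * ρ x) := by
          have := mul_le_mul_of_nonneg_right hs hpos.le
          nlinarith [mul_nonneg (Real.sqrt_nonneg (ρ x)) hpos.le]
        calc C * ρ x ^ 2 ≤ C * (Real.sqrt (ρ x) * (2 * ρ x)) := mul_le_mul_of_nonneg_left h5 hC
          _ = _ := by ring

end MEANaux

open MEANaux

theorem MEAN (hSMO : Stmt_SMO) (hRUL : Stmt_RUL) (hIBP : Stmt_IBP)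
    (hCHX : Stmt_CHX) (hPOLE : Stmt_POLE) (hPHI0 : Stmt_PHI0) (hCUT : Stmt_CUT) :
    Stmt_MEAN := by
  intro V a b g W hF Φ z0 r e hC t1 hsep ψ hψ hψs
  obtain ⟨ha, hb, -, himg, -⟩ := hCHX V a b g W hF Φ z0 r e hC
  have hr := hC.r_pos
  have he := hC.e_pos
  have ht1 : 0 < t1 := hsep.1
  obtain ⟨hOo, hS0, hφ, hφlog, Cρ, hCρ, hρ⟩ := hPHI0 V a b g W hF Φ z0 r e hC t1 hsep
  obtain ⟨hcut1, hcut2, hcut3, hcut4⟩ := hCUT V a b g W hF Φ z0 r e hC t1 hsep
  have hFU : Fol (slab V W (z0 2 - e) (z0 2 + e)) (z0 2 - e) (z0 2 + e) g W :=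
    hF.sub ha.le hb.le
  have hUo : IsOpen (slab V W (z0 2 - e) (z0 2 + e)) := hFU.isOpen
  have hreg : ∀ x ∈ slab V W (z0 2 - e) (z0 2 + e), Reg g W x := fun x hx => hF.reg hx.1
  -- abbreviations
  generalize hUdef : slab V W (z0 2 - e) (z0 2 + e) = U at *
  have hUV : U ⊆ V := by rw [← hUdef]; exact slab_subset _ _
  generalize hSdef : sing g W Φ z0 r e = S at *
  have hφat : ∀ x ∈ U, x ∉ S → ContDiffAt ℝ ∞ (phi0 g W Φ z0 r e t1) x := fun x hx hxS =>
    (hφ x ⟨hx, hxS⟩).contDiffAt (hOo.mem_nhds ⟨hx, hxS⟩)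
  have hYat : ∀ x ∈ U, x ∉ S → ∀ i,
      ContDiffAt ℝ ∞ (fun y => lgrad g W (phi0 g W Φ z0 r e t1) y i) x := by
    intro x hx hxS i
    obtain ⟨-, -, -, -, -, -, -, -, -, -, -, -, h, -⟩ := hSMO.2 g W x (hreg x hx)
    exact (h _ _ (hφat x hx hxS) (hφat x hx hxS)).2.2 i
  have hlapat : ∀ x ∈ U, x ∉ S →
      ContDiffAt ℝ ∞ (lap g W (phi0 g W Φ z0 r e t1)) x := by
    intro x hx hxS
    obtain ⟨-, -, -, -, -, -, -, -, -, -, -, -, h, -⟩ := hSMO.2 g W x (hreg x hx)
    exact (h _ _ (hφat x hx hxS) (hφat x hx hxS)).2.1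
  have hdat : ∀ x ∈ U, ContDiffAt ℝ ∞ (dens g W) x ∧ 0 < dens g W x := by
    intro x hx
    obtain ⟨-, -, -, h1, -, -, -, -, h, -⟩ := hSMO.2 g W x (hreg x hx)
    exact ⟨h, h1⟩
  have hrho : ∀ x, x ∉ S → rho0 g W Φ z0 r e t1 x = lap g W (phi0 g W Φ z0 r e t1) x := by
    intro x hx
    unfold rho0
    rw [hSdef, if_neg hx]
  have hrhoS : ∀ x, x ∈ S → rho0 g W Φ z0 r e t1 x = 0 := by
    intro x hx
    unfold rho0
    rw [hSdef, if_pos hx]
  -- the support of `ψ ∘ W`
  obtain ⟨c', d', hc', -, hd', hsupp⟩ := exists_Icc_of_tsupport (by linarith) hψs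
  have hK : IsCompact (cslab U W c' d') := hFU.proper c' d' hc' hd'
  have hKU : cslab U W c' d' ⊆ U := cslab_subset _ _
  have hzero : ∀ x ∈ U \ cslab U W c' d', ψ (W x) = 0 := by
    intro x hx
    by_contra h
    exact hx.2 ⟨hx.1, hsupp _ h⟩
  have hdc : ContinuousOn (dens g W) U := fun x hx =>
    (hdat x hx).1.continuousAt.continuousWithinAt
  have hWc : ContinuousOn W U := hFU.continuousOn
  have hψc : ContinuousOn (fun x => ψ (W x)) U :=
    hψ.continuous.comp_continuousOn hWc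
  obtain ⟨M, hM⟩ : ∃ M, ∀ x ∈ cslab U W c' d', |ψ (W x) * dens g W x| ≤ M := by
    obtain ⟨M, hM⟩ := hK.exists_bound_of_continuousOn ((hψc.mul hdc).mono hKU)
    exact ⟨M, hM⟩
  have hM' : ∀ x ∈ U, |ψ (W x) * dens g W x| ≤ max M 0 := by
    intro x hx
    by_cases h : x ∈ cslab U W c' d'
    · exact (hM x h).trans (le_max_left _ _)
    · rw [hzero x ⟨hx, h⟩]
      simp
  have hvolU : volume U < ⊤ := by
    rw [← hUdef]
    exact volume_slab_lt_top hF ha hb
  have hUS : U =ᵐ[volume] (U \ S : Set E3) := (sdiff_null_ae_eq_self hS0).symm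
  have hres : volume.restrict U = volume.restrict (U \ S) := Measure.restrict_congr_set hUS
  -- the functions
  have hmeas : ∀ t, 0 < t → t < t1 → AEStronglyMeasurable
      (fun x => ψ (W x) * (cut g W Φ z0 r e t x * rho0 g W Φ z0 r e t1 x) * dens g W x)
      (volume.restrict U) := by
    intro t ht htt
    rw [hres]
    refine ContinuousOn.aestronglyMeasurable ?_ hOo.measurableSet
    have h1 : ContinuousOn (rho0 g W Φ z0 r e t1) (U \ S) := by
      have h2 : ContinuousOn (lap g W (phi0 g W Φ z0 r e t1)) (U \ S) := fun x hx =>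
        (hlapat x hx.1 hx.2).continuousAt.continuousWithinAt
      exact h2.congr fun x hx => hrho x hx.2
    exact ((hψc.mono Set.sdiff_subset).mul
      ((((hcut1 t ht htt).1.continuousOn).mono Set.sdiff_subset).mul h1)).mul
      (hdc.mono Set.sdiff_subset)
  have hAbound : ∀ t x, x ∈ U →
      |ψ (W x) * (cut g W Φ z0 r e t x * rho0 g W Φ z0 r e t1 x) * dens g W x|
        ≤ max M 0 * Cρ := by
    intro t x hx
    have e1 : ψ (W x) * (cut g W Φ z0 r e t x * rho0 g W Φ z0 r e t1 x) * dens g W x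
        = (ψ (W x) * dens g W x) * (cut g W Φ z0 r e t x * rho0 g W Φ z0 r e t1 x) := by ring
    rw [e1, abs_mul]
    have h1 := hM' x hx
    have h2 : |cut g W Φ z0 r e t x * rho0 g W Φ z0 r e t1 x| ≤ Cρ := by
      rw [abs_mul, abs_of_nonneg (hcut2 t x).1]
      calc cut g W Φ z0 r e t x * |rho0 g W Φ z0 r e t1 x| ≤ 1 * |rho0 g W Φ z0 r e t1 x| :=
            mul_le_mul_of_nonneg_right (hcut2 t x).2 (abs_nonneg _)
        _ ≤ Cρ := by rw [one_mul]; exact hρ x hx
    exact mul_le_mul h1 h2 (abs_nonneg _) (le_max_right _ _)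
  have hAint : ∀ t, 0 < t → t < t1 → IntegrableOn
      (fun x => ψ (W x) * (cut g W Φ z0 r e t x * rho0 g W Φ z0 r e t1 x) * dens g W x) U := by
    intro t ht htt
    have hfin : IsFiniteMeasure (volume.restrict U) := ⟨by simpa using hvolU⟩
    refine Integrable.of_bound (hmeas t ht htt) (max M 0 * Cρ) ?_
    rw [ae_restrict_iff' hUo.measurableSet]
    exact Eventually.of_forall fun x hx => hAbound t x hx
  -- the field
  have hcutat : ∀ t, 0 < t → t < t1 → ∀ x ∈ U, ContDiffAt ℝ ∞ (cut g W Φ z0 r e t) x :=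
    fun t ht htt x hx => ((hcut1 t ht htt).1 x hx).contDiffAt (hUo.mem_nhds hx)
  have hZ0 : ∀ t, 0 < t → t < t1 → ∀ x ∈ S, ∀ i, (fun y => cut g W Φ z0 r e t y
      * lgrad g W (phi0 g W Φ z0 r e t1) y i) =ᶠ[𝓝 x] fun _ => 0 := by
    intro t ht htt x hx i
    filter_upwards [(hcut1 t ht htt).2 x hx] with y hy
    rw [hy, zero_mul]
  have hZat : ∀ t, 0 < t → t < t1 → ∀ x ∈ U, ∀ i, ContDiffAt ℝ ∞ (fun y =>
      cut g W Φ z0 r e t y * lgrad g W (phi0 g W Φ z0 r e t1) y i) x := by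
    intro t ht htt x hx i
    by_cases hxS : x ∈ S
    · exact contDiffAt_const.congr_of_eventuallyEq (hZ0 t ht htt x hxS i)
    · exact (hcutat t ht htt x hx).mul (hYat x hx hxS i)
  have hpt : ∀ t, 0 < t → t < t1 → ∀ x ∈ U, ldiv g W (fun y i => cut g W Φ z0 r e t y
        * lgrad g W (phi0 g W Φ z0 r e t1) y i) x
      = cut g W Φ z0 r e t x * rho0 g W Φ z0 r e t1 x
        + ∑ i, pd i (cut g W Φ z0 r e t) x * lgrad g W (phi0 g W Φ z0 r e t1) x i := by
    intro t ht htt x hx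
    by_cases hxS : x ∈ S
    · have h1 : ∀ i, pd i (cut g W Φ z0 r e t) x = 0 := fun i =>
        pd_zero ((hcut1 t ht htt).2 x hxS)
      have h2 : ∀ i, pd i (fun y => dens g W y * (cut g W Φ z0 r e t y
          * lgrad g W (phi0 g W Φ z0 r e t1) y i)) x = 0 := by
        intro i
        refine pd_zero ?_
        filter_upwards [hZ0 t ht htt x hxS i] with y hy
        rw [hy, mul_zero]
      unfold ldiv
      simp only [h1, h2, hrhoS x hxS]
      simp
    · obtain ⟨-, -, -, -, -, -, -, -, -, -, -, h12⟩ := hRUL g W x (hreg x hx)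
      rw [h12 (cut g W Φ z0 r e t) (fun y i => lgrad g W (phi0 g W Φ z0 r e t1) y i)
        ((hcutat t ht htt x hx).differentiableAt (by simp))
        (fun i => (hYat x hx hxS i).differentiableAt (by simp)), hrho x hxS]
      congr 1
      refine Finset.sum_congr rfl fun i _ => ?_
      rw [mul_comm]
      rfl
  have hIB : ∀ t, 0 < t → t < t1 →
      ∫ x in U, ψ (W x) * ldiv g W (fun y i => cut g W Φ z0 r e t y
        * lgrad g W (phi0 g W Φ z0 r e t1) y i) x * dens g W x = 0 := by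
    intro t ht htt
    refine (hIBP U (z0 2 - e) (z0 2 + e) g W hFU).1 _ ψ ?_ ?_ hψ hψs
    · intro i x hx
      exact ((hZat t ht htt x hx i).of_le (by exact_mod_cast le_top)).contDiffWithinAt
    · intro x hx
      obtain ⟨h1, -⟩ := hRUL g W x (hreg x hx)
      have h2 := h1 (phi0 g W Φ z0 r e t1)
      calc ∑ i, cut g W Φ z0 r e t x * lgrad g W (phi0 g W Φ z0 r e t1) x i * grad W x i
          = cut g W Φ z0 r e t x
            * ∑ i, lgrad g W (phi0 g W Φ z0 r e t1) x i * grad W x i := by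
            rw [Finset.mul_sum]
            exact Finset.sum_congr rfl fun i _ => by ring
        _ = 0 := by rw [h2, mul_zero]
  have hTint : ∀ t, 0 < t → t < t1 → IntegrableOn (fun x => ψ (W x)
      * ldiv g W (fun y i => cut g W Φ z0 r e t y
        * lgrad g W (phi0 g W Φ z0 r e t1) y i) x * dens g W x) U := by
    intro t ht htt
    have h1 : ContinuousOn (fun x => ldiv g W (fun y i => cut g W Φ z0 r e t y
        * lgrad g W (phi0 g W Φ z0 r e t1) y i) x) U := by
      intro x hx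
      refine ContinuousAt.continuousWithinAt ?_
      unfold ldiv
      refine ContinuousAt.div ?_ (hdat x hx).1.continuousAt (hdat x hx).2.ne'
      refine tendsto_finsetSum _ fun i _ => ?_
      have h2 : ContDiffAt ℝ ∞ (fun y => dens g W y * (cut g W Φ z0 r e t y
          * lgrad g W (phi0 g W Φ z0 r e t1) y i)) x := (hdat x hx).1.mul (hZat t ht htt x hx i)
      have h3 : ContDiffAt ℝ 0 (fderiv ℝ (fun y => dens g W y * (cut g W Φ z0 r e t y
          * lgrad g W (phi0 g W Φ z0 r e t1) y i))) x :=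
        h2.fderiv_right (m := 0) (by exact_mod_cast le_top)
      have h4 := h3.continuousAt
      exact (h4.clm_apply continuousAt_const)
    have h5 : IntegrableOn (fun x => ψ (W x)
      * ldiv g W (fun y i => cut g W Φ z0 r e t y
        * lgrad g W (phi0 g W Φ z0 r e t1) y i) x * dens g W x) (cslab U W c' d') :=
      ((((hψc.mul h1).mul hdc).mono hKU).integrableOn_compact hK)
    refine h5.of_forall_sdiff_eq_zero hUo.measurableSet fun x hx => ?_
    rw [hzero x hx]
    ring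
  have hAB : ∀ t, 0 < t → t < t1 →
      ∫ x in U, ψ (W x) * (cut g W Φ z0 r e t x * rho0 g W Φ z0 r e t1 x) * dens g W x
      = - ∫ x in U, ψ (W x) * (∑ i, pd i (cut g W Φ z0 r e t) x
          * lgrad g W (phi0 g W Φ z0 r e t1) x i) * dens g W x := by
    intro t ht htt
    have h1 : ∫ x in U, ψ (W x) * (∑ i, pd i (cut g W Φ z0 r e t) x
          * lgrad g W (phi0 g W Φ z0 r e t1) x i) * dens g W x
        = ∫ x in U, (ψ (W x) * ldiv g W (fun y i => cut g W Φ z0 r e t y
            * lgrad g W (phi0 g W Φ z0 r e t1) y i) x * dens g W x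
          - ψ (W x) * (cut g W Φ z0 r e t x * rho0 g W Φ z0 r e t1 x) * dens g W x) := by
      refine setIntegral_congr_fun hUo.measurableSet fun x hx => ?_
      rw [hpt t ht htt x hx]
      ring
    rw [h1, integral_sub (hTint t ht htt) (hAint t ht htt), hIB t ht htt]
    ring
  -- the limit of the flux
  have hpolelim : Tendsto (fun t => ∫ x in U, ψ (W x) * (∑ i, pd i (cut g W Φ z0 r e t) x
      * lgrad g W (phi0 g W Φ z0 r e t1) x i) * dens g W x) (𝓝[>] 0) (𝓝 0) := by
    have hneg : |-(r / 2)| < r := by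
      rw [abs_neg, abs_of_pos (by positivity)]
      linarith
    have hpos : |r / 2| < r := by
      rw [abs_of_pos (by positivity)]
      linarith
    obtain ⟨hsm1, c1, C1, -, hC1, -, hp1⟩ := hPOLE V a b g W hF Φ z0 r e hC (-(r / 2)) hneg
    obtain ⟨hsm2, c2, C2, -, hC2, -, hp2⟩ := hPOLE V a b g W hF Φ z0 r e hC (r / 2) hpos
    have himo : IsOpen (Φ '' obox z0 r e) := by
      obtain ⟨-, -, -, -, h, -⟩ := hCHX V a b g W hF Φ z0 r e hC
      refine h _ ?_ subset_rfl
      have : obox z0 r e = {z | |z 0 - z0 0| < r} ∩ ({z | |z 1 - z0 1| < r}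
          ∩ {z | |z 2 - z0 2| < e}) := rfl
      rw [this]
      refine IsOpen.inter ?_ (IsOpen.inter ?_ ?_)
      · exact isOpen_lt (by fun_prop) continuous_const
      · exact isOpen_lt (by fun_prop) continuous_const
      · exact isOpen_lt (by fun_prop) continuous_const
    have himV : Φ '' obox z0 r e ⊆ V := by
      refine Set.Subset.trans (Set.image_mono ?_) himg
      intro z hz
      exact ⟨hz.1.le, hz.2.1.le, hz.2.2.le⟩
    have hlim := hcut4 (fun x i => lgrad g W (phi0 g W Φ z0 r e t1) x i) 2 (-2) (max C1 C2)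
      (min (t1 / 2) 1) ?_ (by positivity) ?_ ?_ ψ hψ hψs
    · simpa using hlim
    · intro i x hx
      exact ((hYat x hx.1 hx.2 i).of_le (by exact_mod_cast le_top)).contDiffWithinAt
    · intro x hx h0 h1
      have hxV := himV hx
      have h2 := hφlog (-(r / 2)) (Or.inr rfl) x hx h0 (lt_of_lt_of_le h1 (min_le_left _ _))
      have h3 : ¬ (-(r / 2) = r / 2) := by
        intro h
        linarith
      rw [if_neg h3] at h2
      have h4 := flux_pole (σ := 1) (C := max C1 C2) hRUL (hF.reg hxV) (by simp)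
        (((hsm1 x hx).contDiffAt (himo.mem_nhds hx)).differentiableAt (by simp)) h0
        (lt_of_lt_of_le h1 (min_le_right _ _)) h2
        ((hp1 x hx).1.trans (mul_le_mul_of_nonneg_right (le_max_left _ _) (sq_nonneg _)))
        (le_max_of_le_left hC1.le)
      simpa using h4
    · intro x hx h0 h1
      have hxV := himV hx
      have h2 := hφlog (r / 2) (Or.inl rfl) x hx h0 (lt_of_lt_of_le h1 (min_le_left _ _))
      rw [if_pos rfl] at h2
      have h4 := flux_pole (σ := -1) (C := max C1 C2) hRUL (hF.reg hxV) (by simp)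
        (((hsm2 x hx).contDiffAt (himo.mem_nhds hx)).differentiableAt (by simp)) h0
        (lt_of_lt_of_le h1 (min_le_right _ _)) h2
        ((hp2 x hx).1.trans (mul_le_mul_of_nonneg_right (le_max_right _ _) (sq_nonneg _)))
        (le_max_of_le_left hC1.le)
      simpa using h4
  -- the limit of the left-hand side
  have hmain : Tendsto (fun t => ∫ x in U,
      ψ (W x) * (cut g W Φ z0 r e t x * rho0 g W Φ z0 r e t1 x) * dens g W x) (𝓝[>] 0)
      (𝓝 (∫ x in U, ψ (W x) * rho0 g W Φ z0 r e t1 x * dens g W x)) := by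
    have hev : ∀ᶠ t in 𝓝[>] (0 : ℝ), 0 < t ∧ t < t1 :=
      (Ioo_mem_nhdsGT ht1)
    refine tendsto_integral_filter_of_dominated_convergence (fun _ => max M 0 * Cρ) ?_ ?_ ?_ ?_
    · filter_upwards [hev] with t ht
      exact hmeas t ht.1 ht.2
    · filter_upwards [hev] with t ht
      rw [ae_restrict_iff' hUo.measurableSet]
      exact Eventually.of_forall fun x hx => hAbound t x hx
    · have hfin : IsFiniteMeasure (volume.restrict U) := ⟨by simpa using hvolU⟩
      exact integrable_const _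
    · rw [hres, ae_restrict_iff' hOo.measurableSet]
      refine Eventually.of_forall fun x hx => ?_
      have h1 := hcut3 x hx.1 hx.2
      have h2 : Tendsto (fun t => ψ (W x) * (cut g W Φ z0 r e t x
          * rho0 g W Φ z0 r e t1 x) * dens g W x) (𝓝[>] 0)
          (𝓝 (ψ (W x) * (1 * rho0 g W Φ z0 r e t1 x) * dens g W x)) :=
        ((h1.mul_const _).const_mul _).mul_const _
      simpa using h2
  have hmain2 : Tendsto (fun t => ∫ x in U,
      ψ (W x) * (cut g W Φ z0 r e t x * rho0 g W Φ z0 r e t1 x) * dens g W x) (𝓝[>] 0)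
      (𝓝 0) := by
    have h1 := hpolelim.neg
    rw [neg_zero] at h1
    refine h1.congr' ?_
    filter_upwards [Ioo_mem_nhdsGT ht1] with t ht
    exact (hAB t ht.1 ht.2).symm
  exact tendsto_nhds_unique hmain hmain2

end Pool.Agent.PFlow.GB
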