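import Pool.Agent.PFlow.G.Base

/-!
# Block GB: (NULL), properties of `NullOn`
-/

open MeasureTheory Filter Topology
open scoped ContDiff

namespace Pool.Agent.PFlow.GB

open Pool.Agent.PenroseSph Pool.Agent.PFlow

namespace NullAux

variable {V : Set E3} {a b : ℝ} {g : TensorField} {W : E3 → ℝ} {c d : ℝ}

/-- Almost everywhere measurable and bounded on the slab. -/
def Adm (V : Set E3) (W : E3 → ℝ) (c d : ℝ) (φ : E3 → ℝ) : Prop :=
  AEStronglyMeasurable φ (volume.restrict (slab V W c d)) ∧
    ∃ B : ℝ, ∀ x ∈ slab V W c d, |φ x| ≤ B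

lemma Adm.int (h : Fol V a b g W) (hc : a < c) (hd : d < b) {φ : E3 → ℝ}
    (hφ : Adm V W c d φ) : IntegrableOn φ (slab V W c d) := by
  obtain ⟨hm, B, hB⟩ := hφ
  refine IntegrableOn.of_bound (volume_slab_lt_top h hc hd) hm B ?_
  rw [ae_restrict_iff' (measurableSet_slab h c d)]
  exact Eventually.of_forall fun x hx => by rw [Real.norm_eq_abs]; exact hB x hx

lemma Adm.mul {φ χ : E3 → ℝ} (hφ : Adm V W c d φ) (hχ : Adm V W c d χ) :
    Adm V W c d (fun x => φ x * χ x) := by
  obtain ⟨hm, B, hB⟩ := hφ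
  obtain ⟨hm', B', hB'⟩ := hχ
  refine ⟨hm.mul hm', B * B', fun x hx => ?_⟩
  rw [abs_mul]
  exact mul_le_mul (hB x hx) (hB' x hx) (abs_nonneg _) ((abs_nonneg _).trans (hB x hx))

lemma Adm.abs {φ : E3 → ℝ} (hφ : Adm V W c d φ) : Adm V W c d (fun x => |φ x|) := by
  obtain ⟨hm, B, hB⟩ := hφ
  refine ⟨hm.norm, B, fun x hx => ?_⟩
  rw [abs_abs]
  exact hB x hx

lemma adm_of_continuousOn (h : Fol V a b g W) (hc : a < c) (hd : d < b) {f : E3 → ℝ}
    (hf : ContinuousOn f V) : Adm V W c d f := by
  refine ⟨(hf.mono (slab_subset c d)).aestronglyMeasurable (measurableSet_slab h c d), ?_⟩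
  obtain ⟨B, hB⟩ := (h.proper c d hc hd).exists_bound_of_continuousOn (hf.mono (cslab_subset c d))
  exact ⟨B, fun x hx => by simpa [Real.norm_eq_abs] using hB x (slab_subset_cslab c d hx)⟩

lemma adm_of_bddMeas {ρ : E3 → ℝ} (hρ : BddMeas ρ) : Adm V W c d ρ := by
  obtain ⟨hm, B, hB⟩ := hρ
  exact ⟨hm.aestronglyMeasurable, B, fun x _ => hB x⟩

lemma adm_comp (h : Fol V a b g W) {α : ℝ → ℝ} (hα : BddMeasR α) :
    Adm V W c d (fun x => α (W x)) := by
  obtain ⟨hm, B, hB⟩ := hα
  refine ⟨?_, B, fun x _ => hB _⟩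
  have hW : AEMeasurable W (volume.restrict (slab V W c d)) :=
    (h.continuousOn.mono (slab_subset c d)).aemeasurable (measurableSet_slab h c d)
  exact (hm.comp_aemeasurable hW).aestronglyMeasurable

lemma continuousOn_lin (hSMO : Stmt_SMO) (h : Fol V a b g W) {v : E3 → ℝ}
    (hv : ContDiffOn ℝ 1 v V) : ContinuousOn (lin g W v v) V := by
  intro x hx
  have hv' : ContDiffAt ℝ ((0 + 1 : ℕ) : WithTop ℕ∞) v x := by
    simpa using (hv x hx).contDiffAt (h.isOpen.mem_nhds hx)
  obtain ⟨-, -, -, -, -, -, -, -, -, -, -, -, -, hlin, -⟩ := hSMO.2 g W x (h.reg hx)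
  exact (hlin 0 v v hv' hv').1.continuousAt.continuousWithinAt

lemma continuousOn_dens (hSMO : Stmt_SMO) (h : Fol V a b g W) : ContinuousOn (dens g W) V := by
  intro x hx
  obtain ⟨-, -, -, -, -, -, -, -, hdens, -⟩ := hSMO.2 g W x (h.reg hx)
  exact hdens.continuousAt.continuousWithinAt

lemma dens_pos (hSMO : Stmt_SMO) (h : Fol V a b g W) {x : E3} (hx : x ∈ V) : 0 < dens g W x := by
  obtain ⟨-, -, -, hpos, -⟩ := hSMO.2 g W x (h.reg hx)
  exact hpos

lemma lin_nonneg (hRUL : Stmt_RUL) (h : Fol V a b g W) {x : E3} (hx : x ∈ V) (v : E3 → ℝ) :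
    0 ≤ lin g W v v x := ((hRUL g W x (h.reg hx)).2.2.1 v v).2.1

lemma lin_const (x : E3) (k : ℝ) : lin g W (fun _ => k) (fun _ => k) x = 0 := by
  have h0 : grad (fun _ : E3 => k) x = 0 := by
    funext i
    simp [grad, pd]
  unfold lin lip ev
  rw [h0]
  simp

lemma adm_sqrt_lin (hSMO : Stmt_SMO) (h : Fol V a b g W) (hc : a < c) (hd : d < b)
    {v : E3 → ℝ} (hv : ContDiffOn ℝ 1 v V) :
    Adm V W c d (fun x => Real.sqrt (lin g W v v x)) :=
  adm_of_continuousOn h hc hd (continuousOn_lin hSMO h hv).sqrt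

/-- The Cauchy-Schwarz inequality for the measure `m dx`. -/
lemma cs (hSMO : Stmt_SMO) (hRUL : Stmt_RUL) (h : Fol V a b g W) (hc : a < c) (hd : d < b)
    {v : E3 → ℝ} (hv : ContDiffOn ℝ 1 v V) :
    ∫ x in slab V W c d, Real.sqrt (lin g W v v x) * dens g W x ≤
      Real.sqrt (∫ x in slab V W c d, dens g W x)
        * Real.sqrt (∫ x in slab V W c d, lin g W v v x * dens g W x) := by
  have hD : Adm V W c d (dens g W) := adm_of_continuousOn h hc hd (continuousOn_dens hSMO h)
  have hL : Adm V W c d (lin g W v v) := adm_of_continuousOn h hc hd (continuousOn_lin hSMO h hv)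
  have hS := adm_sqrt_lin hSMO h hc hd hv
  have iD := hD.int h hc hd
  have iL := (hL.mul hD).int h hc hd
  have iS := (hS.mul hD).int h hc hd
  have hM := measurableSet_slab h c d
  set A := ∫ x in slab V W c d, lin g W v v x * dens g W x with hA
  set D := ∫ x in slab V W c d, dens g W x with hDD
  set I := ∫ x in slab V W c d, Real.sqrt (lin g W v v x) * dens g W x with hI
  have hquad : ∀ t : ℝ, 0 ≤ A * (t * t) + (-(2 * I)) * t + D := by
    intro t
    have h1 : A * (t * t) + (-(2 * I)) * t + D =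
        ∫ x in slab V W c d, (t * Real.sqrt (lin g W v v x) - 1) ^ 2 * dens g W x := by
      have h2 : ∫ x in slab V W c d, (t * Real.sqrt (lin g W v v x) - 1) ^ 2 * dens g W x =
          ∫ x in slab V W c d, ((t * t) * (lin g W v v x * dens g W x)
            + (-(2 * t)) * (Real.sqrt (lin g W v v x) * dens g W x) + dens g W x) := by
        refine setIntegral_congr_fun hM fun x hx => ?_
        have h3 := Real.sq_sqrt (lin_nonneg hRUL h (slab_subset c d hx) v)
        show (t * Real.sqrt (lin g W v v x) - 1) ^ 2 * dens g W x =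
          (t * t) * (lin g W v v x * dens g W x)
            + (-(2 * t)) * (Real.sqrt (lin g W v v x) * dens g W x) + dens g W x
        generalize Real.sqrt (lin g W v v x) = s at *
        rw [← h3]
        ring
      have i1 : IntegrableOn (fun x => (t * t) * (lin g W v v x * dens g W x)) (slab V W c d) :=
        iL.const_mul _
      have i2 : IntegrableOn (fun x => (-(2 * t)) * (Real.sqrt (lin g W v v x) * dens g W x))
        (slab V W c d) := iS.const_mul _
      have i12 : IntegrableOn (fun x => (t * t) * (lin g W v v x * dens g W x)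
        + (-(2 * t)) * (Real.sqrt (lin g W v v x) * dens g W x)) (slab V W c d) := i1.add i2
      rw [h2, integral_add i12 iD, integral_add i1 i2, integral_const_mul, integral_const_mul]
      ring
    rw [h1]
    refine setIntegral_nonneg hM fun x hx => ?_
    exact mul_nonneg (sq_nonneg _) (dens_pos hSMO h (slab_subset c d hx)).le
  have hdisc := discrim_le_zero hquad
  unfold discrim at hdisc
  have hA0 : 0 ≤ A := setIntegral_nonneg hM fun x hx =>
    mul_nonneg (lin_nonneg hRUL h (slab_subset c d hx) v)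
      (dens_pos hSMO h (slab_subset c d hx)).le
  have hD0 : 0 ≤ D := setIntegral_nonneg hM fun x hx =>
    (dens_pos hSMO h (slab_subset c d hx)).le
  rw [← Real.sqrt_mul hD0]
  apply Real.le_sqrt_of_sq_le
  nlinarith

lemma bddMeasR_one : BddMeasR (fun _ => (1 : ℝ)) :=
  ⟨measurable_const, 1, fun _ => by simp⟩

end NullAux

open NullAux

/-- (NULL) Properties of `NullOn`. -/
theorem NULL (hSMO : Stmt_SMO) (hRUL : Stmt_RUL) : Stmt_NULL := by
  intro V a b g W hF s0 e he hc hd
  have hD : ∀ {e' : ℝ}, e' ≤ e → Adm V W (s0 - e') (s0 + e') (dens g W) := fun {e'} he' =>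
    adm_of_continuousOn hF (by linarith) (by linarith) (continuousOn_dens hSMO hF)
  refine ⟨?_, ?_, ?_, ?_⟩
  · rintro ρ1 ρ2 h1 h2 ⟨C1, hC1, hN1⟩ ⟨C2, hC2, hN2⟩
    refine ⟨C1 + C2, add_nonneg hC1 hC2, fun α hα v hv => ?_⟩
    have hv0 : Adm V W (s0 - e) (s0 + e) v :=
      adm_of_continuousOn hF hc hd hv.continuousOn
    have i1 := ((((adm_of_bddMeas (V := V) (W := W) (c := s0 - e) (d := s0 + e) h1).mul
      (adm_comp hF hα)).mul hv0).mul (hD le_rfl)).int hF hc hd
    have i2 := ((((adm_of_bddMeas (V := V) (W := W) (c := s0 - e) (d := s0 + e) h2).mul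
      (adm_comp hF hα)).mul hv0).mul (hD le_rfl)).int hF hc hd
    have h3 : ∫ x in slab V W (s0 - e) (s0 + e), (ρ1 x + ρ2 x) * α (W x) * v x * dens g W x =
        (∫ x in slab V W (s0 - e) (s0 + e), ρ1 x * α (W x) * v x * dens g W x)
          + ∫ x in slab V W (s0 - e) (s0 + e), ρ2 x * α (W x) * v x * dens g W x := by
      rw [← integral_add i1 i2]
      refine integral_congr_ae (Eventually.of_forall fun x => ?_)
      show (ρ1 x + ρ2 x) * α (W x) * v x * dens g W x =
        ρ1 x * α (W x) * v x * dens g W x + ρ2 x * α (W x) * v x * dens g W x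
      ring
    rw [h3, add_mul]
    exact (abs_add_le _ _).trans (add_le_add (hN1 α hα v hv) (hN2 α hα v hv))
  · rintro ρ γ hρ ⟨hγm, B, hB⟩ ⟨C, hC, hN⟩
    have hB0 : 0 ≤ B := (abs_nonneg _).trans (hB 0)
    refine ⟨C * B, mul_nonneg hC hB0, fun α hα v hv => ?_⟩
    have hα' : BddMeasR (fun s => γ s * α s) := by
      obtain ⟨hm, B', hB'⟩ := hα
      refine ⟨hγm.mul hm, B * B', fun s => ?_⟩
      rw [abs_mul]
      exact mul_le_mul (hB s) (hB' s) (abs_nonneg _) hB0
    have h1 := hN _ hα' v hv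
    have h2 : ∫ x in slab V W (s0 - e) (s0 + e), γ (W x) * ρ x * α (W x) * v x * dens g W x =
        ∫ x in slab V W (s0 - e) (s0 + e), ρ x * (γ (W x) * α (W x)) * v x * dens g W x := by
      refine integral_congr_ae (Eventually.of_forall fun x => ?_)
      show γ (W x) * ρ x * α (W x) * v x * dens g W x =
        ρ x * (γ (W x) * α (W x)) * v x * dens g W x
      ring
    rw [h2]
    refine h1.trans ?_
    rw [mul_assoc, ← integral_const_mul B]
    refine mul_le_mul_of_nonneg_left ?_ hC
    have hS := adm_sqrt_lin hSMO hF hc hd hv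
    refine setIntegral_mono_on
      ((((adm_comp hF hα').abs.mul hS).mul (hD le_rfl)).int hF hc hd)
      (((((adm_comp hF hα).abs.mul hS).mul (hD le_rfl)).int hF hc hd).const_mul B)
      (measurableSet_slab hF _ _) fun x hx => ?_
    have h3 : |γ (W x) * α (W x)| ≤ B * |α (W x)| := by
      rw [abs_mul]
      exact mul_le_mul_of_nonneg_right (hB _) (abs_nonneg _)
    have h4 := (dens_pos hSMO hF (slab_subset _ _ hx)).le
    calc |γ (W x) * α (W x)| * Real.sqrt (lin g W v v x) * dens g W x
        ≤ B * |α (W x)| * Real.sqrt (lin g W v v x) * dens g W x :=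
          mul_le_mul_of_nonneg_right (mul_le_mul_of_nonneg_right h3 (Real.sqrt_nonneg _)) h4
      _ = B * (|α (W x)| * Real.sqrt (lin g W v v x) * dens g W x) := by ring
  · rintro ρ e' hρ he' hee' ⟨C, hC, hN⟩
    refine ⟨C, hC, fun α hα v hv => ?_⟩
    have hα' : BddMeasR (Set.indicator (Set.Ioo (s0 - e') (s0 + e')) α) := by
      obtain ⟨hm, B, hB⟩ := hα
      refine ⟨hm.indicator measurableSet_Ioo, B, fun s => ?_⟩
      by_cases hs : s ∈ Set.Ioo (s0 - e') (s0 + e')
      · rw [Set.indicator_of_mem hs]; exact hB s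
      · rw [Set.indicator_of_notMem hs, abs_zero]; exact (abs_nonneg _).trans (hB 0)
    have hsub : slab V W (s0 - e') (s0 + e') ⊆ slab V W (s0 - e) (s0 + e) :=
      slab_mono (by linarith) (by linarith)
    have hM := measurableSet_slab hF (s0 - e) (s0 + e)
    have hM' := measurableSet_slab hF (s0 - e') (s0 + e')
    have hz : ∀ x ∈ slab V W (s0 - e) (s0 + e) \ slab V W (s0 - e') (s0 + e'),
        Set.indicator (Set.Ioo (s0 - e') (s0 + e')) α (W x) = 0 := by
      intro x hx
      have hn : W x ∉ Set.Ioo (s0 - e') (s0 + e') := fun hx' => hx.2 ⟨hx.1.1, hx'⟩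
      exact Set.indicator_of_notMem hn _
    have ho : ∀ x ∈ slab V W (s0 - e') (s0 + e'),
        Set.indicator (Set.Ioo (s0 - e') (s0 + e')) α (W x) = α (W x) := by
      intro x hx
      have hn : W x ∈ Set.Ioo (s0 - e') (s0 + e') := hx.2
      exact Set.indicator_of_mem hn _
    have h1 := hN _ hα' v hv
    rw [setIntegral_eq_of_subset_of_forall_sdiff_eq_zero hM hsub
        (fun x hx => by rw [hz x hx]; ring),
      setIntegral_eq_of_subset_of_forall_sdiff_eq_zero hM hsub
        (fun x hx => by rw [hz x hx, abs_zero]; ring)] at h1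
    have h2 : ∫ x in slab V W (s0 - e') (s0 + e'),
        ρ x * Set.indicator (Set.Ioo (s0 - e') (s0 + e')) α (W x) * v x * dens g W x =
        ∫ x in slab V W (s0 - e') (s0 + e'), ρ x * α (W x) * v x * dens g W x :=
      setIntegral_congr_fun hM' fun x hx => by
        show ρ x * Set.indicator (Set.Ioo (s0 - e') (s0 + e')) α (W x) * v x * dens g W x =
          ρ x * α (W x) * v x * dens g W x
        rw [ho x hx]
    have h3 : ∫ x in slab V W (s0 - e') (s0 + e'),
        |Set.indicator (Set.Ioo (s0 - e') (s0 + e')) α (W x)| * Real.sqrt (lin g W v v x)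
          * dens g W x =
        ∫ x in slab V W (s0 - e') (s0 + e'),
          |α (W x)| * Real.sqrt (lin g W v v x) * dens g W x :=
      setIntegral_congr_fun hM' fun x hx => by
        show |Set.indicator (Set.Ioo (s0 - e') (s0 + e')) α (W x)| * Real.sqrt (lin g W v v x)
          * dens g W x = |α (W x)| * Real.sqrt (lin g W v v x) * dens g W x
        rw [ho x hx]
    rw [h2, h3] at h1
    exact h1
  · rintro ρ hρ ⟨C, hC, hN⟩
    refine ⟨fun α hα => ?_, ?_⟩
    · have h1 := hN α hα (fun _ => 1) contDiffOn_const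
      have h2 : ∫ x in slab V W (s0 - e) (s0 + e),
          |α (W x)| * Real.sqrt (lin g W (fun _ => 1) (fun _ => 1) x) * dens g W x = 0 := by
        have h3 : ∀ x : E3, |α (W x)| * Real.sqrt (lin g W (fun _ => 1) (fun _ => 1) x)
            * dens g W x = 0 := by
          intro x
          rw [lin_const]
          simp
        simp only [h3, integral_zero]
      rw [h2, mul_zero] at h1
      have h4 := abs_eq_zero.1 (le_antisymm h1 (abs_nonneg _))
      simpa using h4
    · refine ⟨C * Real.sqrt (∫ x in slab V W (s0 - e) (s0 + e), dens g W x),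
        mul_nonneg hC (Real.sqrt_nonneg _), fun v hv => ?_⟩
      have h1 := hN (fun _ => 1) bddMeasR_one v hv
      simp only [mul_one, abs_one, one_mul] at h1
      refine h1.trans ?_
      rw [mul_assoc]
      exact mul_le_mul_of_nonneg_left (cs hSMO hRUL hF hc hd hv) hC

end Pool.Agent.PFlow.GB
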