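import Pool.Agent.PFlow.G.Base

/-!
# Block GB: the singular function `φ₀`
-/

open MeasureTheory Filter Topology
open scoped ContDiff

namespace Pool.Agent.PFlow.GB

open Pool.Agent.PenroseSph Pool.Agent.PFlow

namespace PHI0m

variable {g : TensorField} {W : E3 → ℝ}

theorem pd_congr {f h : E3 → ℝ} {x : E3} (H : f =ᶠ[𝓝 x] h) (i : Fin 3) :
    pd i f x = pd i h x := by
  unfold pd
  rw [H.fderiv_eq]

theorem grad_congr {f h : E3 → ℝ} {x : E3} (H : f =ᶠ[𝓝 x] h) :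
    ∀ᶠ y in 𝓝 x, grad f y = grad h y := by
  filter_upwards [H.eventually_nhds] with y hy
  funext i
  exact pd_congr hy i

theorem lap_congr {f h : E3 → ℝ} {x : E3} (H : f =ᶠ[𝓝 x] h) : lap g W f x = lap g W h x := by
  unfold lap ldiv
  congr 1
  refine Finset.sum_congr rfl fun i _ => pd_congr ?_ i
  filter_upwards [grad_congr H] with y hy
  simp only [lgrad, hy]

theorem lap_zero (x : E3) : lap g W (fun _ => 0) x = 0 := by
  have h1 : ∀ y i, lgrad g W (fun _ => 0) y i = 0 := by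
    intro y i
    simp [lgrad, raise, grad, pd]
  unfold lap ldiv
  simp only [h1, mul_zero]
  simp [pd]

/-! ### The truncated logarithm -/

theorem lg_contDiffAt (t1 : ℝ) {s : ℝ} (hs : 0 < s) : ContDiffAt ℝ ∞ (lg t1) s := by
  unfold lg
  refine (Real.contDiffAt_log.2 hs.ne').mul ?_
  refine Real.smoothTransition.contDiffAt.comp s ?_
  fun_prop

theorem lg_small {t1 s : ℝ} (ht : 0 < t1) (hs : s ≤ t1 / 2) : lg t1 s = Real.log s := by
  unfold lg
  rw [Real.smoothTransition.one_of_one_le, mul_one]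
  have : 2 * s / t1 ≤ 1 := by
    rw [div_le_one ht]
    linarith
  linarith

theorem lg_large {t1 s : ℝ} (ht : 0 < t1) (hs : t1 ≤ s) : lg t1 s = 0 := by
  unfold lg
  rw [Real.smoothTransition.zero_of_nonpos, mul_zero]
  have : 2 ≤ 2 * s / t1 := by
    rw [le_div_iff₀ ht]
    linarith
  linarith

theorem lg_bound {t1 C : ℝ} (ht : 0 < t1) (hC : 0 < C) : ∃ D : ℝ, 0 < D ∧ ∀ s L N : ℝ, 0 < s →
    |L - 4| ≤ C * s → |N - 4 * s| ≤ C * s ^ 2 →
    |deriv (lg t1) s * L + deriv (deriv (lg t1)) s * N| ≤ D := by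
  have hsm : ContDiffOn ℝ ∞ (lg t1) (Set.Ioi 0) := fun s hs =>
    (lg_contDiffAt t1 hs).contDiffWithinAt
  have hsm1 : ContDiffOn ℝ ∞ (deriv (lg t1)) (Set.Ioi 0) :=
    hsm.deriv_of_isOpen isOpen_Ioi (by simp)
  have hsm2 : ContDiffOn ℝ ∞ (deriv (deriv (lg t1))) (Set.Ioi 0) :=
    hsm1.deriv_of_isOpen isOpen_Ioi (by simp)
  have hsub : Set.Icc (t1 / 2) t1 ⊆ Set.Ioi 0 := fun s hs => by
    have := hs.1
    show 0 < s
    linarith
  obtain ⟨M1, hM1⟩ := isCompact_Icc.exists_bound_of_continuousOn (hsm1.continuousOn.mono hsub)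
  obtain ⟨M2, hM2⟩ := isCompact_Icc.exists_bound_of_continuousOn (hsm2.continuousOn.mono hsub)
  have hM1' : 0 ≤ M1 := (norm_nonneg _).trans (hM1 t1 ⟨by linarith, le_rfl⟩)
  have hM2' : 0 ≤ M2 := (norm_nonneg _).trans (hM2 t1 ⟨by linarith, le_rfl⟩)
  refine ⟨2 * C + M1 * (4 + C * t1) + M2 * (4 * t1 + C * t1 ^ 2), by positivity, ?_⟩
  intro s L N hs hL hN
  have hp1 : 0 ≤ M1 * (4 + C * t1) := by positivity
  have hp2 : 0 ≤ M2 * (4 * t1 + C * t1 ^ 2) := by positivity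
  rcases lt_or_ge s (t1 / 2) with h1 | h1
  · have e1 : lg t1 =ᶠ[𝓝 s] Real.log := by
      filter_upwards [Iio_mem_nhds h1] with s' hs'
      exact lg_small ht hs'.le
    have e2 : deriv (lg t1) =ᶠ[𝓝 s] fun s => s⁻¹ := by
      filter_upwards [e1.eventually_nhds] with s' hs'
      have h9 : lg t1 =ᶠ[𝓝 s'] Real.log := hs'
      rw [h9.deriv_eq, Real.deriv_log]
    have e3 : deriv (deriv (lg t1)) s = -(s ^ 2)⁻¹ := by
      rw [e2.deriv_eq, deriv_inv]
    have e4 : deriv (lg t1) s = s⁻¹ := e2.eq_of_nhds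
    have e5 : deriv (lg t1) s * L + deriv (deriv (lg t1)) s * N =
        s⁻¹ * (L - 4) - (s ^ 2)⁻¹ * (N - 4 * s) := by
      rw [e3, e4]
      field_simp
      ring
    rw [e5]
    have e6 : |s⁻¹ * (L - 4)| ≤ C := by
      rw [abs_mul, abs_of_pos (inv_pos.2 hs)]
      calc s⁻¹ * |L - 4| ≤ s⁻¹ * (C * s) := mul_le_mul_of_nonneg_left hL (inv_pos.2 hs).le
        _ = C := by field_simp
    have e7 : |(s ^ 2)⁻¹ * (N - 4 * s)| ≤ C := by
      have hs2 : 0 < s ^ 2 := by positivity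
      rw [abs_mul, abs_of_pos (inv_pos.2 hs2)]
      calc (s ^ 2)⁻¹ * |N - 4 * s| ≤ (s ^ 2)⁻¹ * (C * s ^ 2) :=
            mul_le_mul_of_nonneg_left hN (inv_pos.2 hs2).le
        _ = C := by field_simp
    have e8 := abs_sub (s⁻¹ * (L - 4)) ((s ^ 2)⁻¹ * (N - 4 * s))
    linarith
  rcases le_or_gt s t1 with h2 | h2
  · have k1 : |deriv (lg t1) s| ≤ M1 := by
      have := hM1 s ⟨h1, h2⟩
      rwa [Real.norm_eq_abs] at this
    have k2 : |deriv (deriv (lg t1)) s| ≤ M2 := by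
      have := hM2 s ⟨h1, h2⟩
      rwa [Real.norm_eq_abs] at this
    have k3 : |L| ≤ 4 + C * t1 := by
      have a1 := abs_le.1 hL
      have a2 : C * s ≤ C * t1 := mul_le_mul_of_nonneg_left h2 hC.le
      rw [abs_le]
      constructor <;> linarith [a1.1, a1.2]
    have k4 : |N| ≤ 4 * t1 + C * t1 ^ 2 := by
      have a1 := abs_le.1 hN
      have a2 : C * s ^ 2 ≤ C * t1 ^ 2 := by
        refine mul_le_mul_of_nonneg_left ?_ hC.le
        exact pow_le_pow_left₀ hs.le h2 2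
      rw [abs_le]
      constructor <;> linarith [a1.1, a1.2]
    have k5 := abs_add_le (deriv (lg t1) s * L) (deriv (deriv (lg t1)) s * N)
    rw [abs_mul, abs_mul] at k5
    have k6 : |deriv (lg t1) s| * |L| ≤ M1 * (4 + C * t1) :=
      mul_le_mul k1 k3 (abs_nonneg _) hM1'
    have k7 : |deriv (deriv (lg t1)) s| * |N| ≤ M2 * (4 * t1 + C * t1 ^ 2) :=
      mul_le_mul k2 k4 (abs_nonneg _) hM2'
    linarith
  · have e1 : lg t1 =ᶠ[𝓝 s] fun _ => 0 := by
      filter_upwards [Ioi_mem_nhds h2] with s' hs'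
      exact lg_large ht hs'.le
    have e2 : deriv (lg t1) =ᶠ[𝓝 s] fun _ => 0 := by
      filter_upwards [e1.eventually_nhds] with s' hs'
      have h9 : lg t1 =ᶠ[𝓝 s'] fun _ => 0 := hs'
      rw [h9.deriv_eq, deriv_const]
    have e3 : deriv (deriv (lg t1)) s = 0 := by
      rw [e2.deriv_eq, deriv_const]
    have e4 : deriv (lg t1) s = 0 := e2.eq_of_nhds
    rw [e3, e4, zero_mul, zero_mul, add_zero, abs_zero]
    positivity

/-! ### The two halves of the singular function -/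

open Classical in
/-- One half of the singular function. -/
noncomputable def ps (g : TensorField) (W : E3 → ℝ) (Φ : E3 → E3) (z0 : E3) (r e t1 τ : ℝ)
    (x : E3) : ℝ :=
  if x ∈ Φ '' obox z0 r e then lg t1 (rp g W Φ z0 τ x) else 0

theorem phi0_eq (g : TensorField) (W : E3 → ℝ) (Φ : E3 → E3) (z0 : E3) (r e t1 : ℝ) :
    phi0 g W Φ z0 r e t1 = fun x => (1 / 2 : ℝ) * ps g W Φ z0 r e t1 (-(r / 2)) x +
      (-(1 / 2) : ℝ) * ps g W Φ z0 r e t1 (r / 2) x := by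
  funext x
  unfold phi0 ps
  split_ifs
  · ring
  · ring

theorem coord_le (x y : E3) (i : Fin 3) : |x i - y i| ≤ dist x y := by
  rw [dist_eq_norm]
  exact PiLp.norm_apply_le (x - y) i

theorem obox_subset_box (z0 : E3) (r e : ℝ) : obox z0 r e ⊆ box z0 r e :=
  fun _ hz => ⟨hz.1.le, hz.2.1.le, hz.2.2.le⟩

section

variable {V : Set E3} {a b : ℝ} {Φ : E3 → E3} {z0 : E3} {r e t1 : ℝ}

theorem W_chart (hC : Chart V W Φ z0 r e) {z : E3} (hz : z ∈ box z0 r e) : W (Φ z) = z 2 := by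
  obtain ⟨N, _, hN, _, _, _, _, h⟩ := hC.nbhd
  exact h z (hN hz)

/-- Outside of the chart the pole functions are large. -/
theorem far (hC : Chart V W Φ z0 r e) (hS : SepAt g W Φ z0 r e t1)
    (hK : IsCompact (Φ '' box z0 r e)) {c : ℝ} (hc : 0 < c)
    (hd : ∀ z ∈ box z0 r e, ∀ z' ∈ box z0 r e, c * dist z z' ≤ dist (Φ z) (Φ z'))
    {τ : ℝ} (hτ : τ = r / 2 ∨ τ = -(r / 2)) {x : E3} (hx : |W x - z0 2| < e)
    (hxB : x ∉ Φ '' obox z0 r e) :
    ∀ᶠ y in 𝓝 x, y ∈ Φ '' obox z0 r e → t1 < rp g W Φ z0 τ y := by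
  by_cases hxK : x ∈ Φ '' box z0 r e
  · obtain ⟨z, hz, rfl⟩ := hxK
    have hr := hC.r_pos
    have h1 : r ≤ |z 0 - z0 0| ∨ r ≤ |z 1 - z0 1| := by
      by_contra hcon
      rw [not_or, not_le, not_le] at hcon
      refine hxB ⟨z, ⟨hcon.1, hcon.2, ?_⟩, rfl⟩
      rwa [W_chart hC hz] at hx
    have h2 : ∀ᶠ y in 𝓝 (Φ z), dist (Φ z) y < c * (r / 4) := by
      have h3 : Metric.ball (Φ z) (c * (r / 4)) ∈ 𝓝 (Φ z) :=
        Metric.ball_mem_nhds _ (by positivity)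
      filter_upwards [h3] with y hy
      rw [dist_comm]
      exact hy
    filter_upwards [h2] with y hy hyB
    obtain ⟨z', hz', rfl⟩ := hyB
    by_contra hcon
    rw [not_lt] at hcon
    obtain ⟨h4, h5⟩ := hS.2 z' (obox_subset_box _ _ _ hz') τ hτ hcon
    have h6 := hd z hz z' (obox_subset_box _ _ _ hz')
    have h7 : dist z z' < r / 4 := lt_of_mul_lt_mul_left (h6.trans_lt hy) hc.le
    have h8 := (abs_lt.1 ((coord_le z z' 0).trans_lt h7))
    have h9 := (abs_lt.1 ((coord_le z z' 1).trans_lt h7))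
    have h10 := abs_le.1 h4
    have h11 := abs_le.1 h5
    rcases h1 with h1 | h1
    · refine absurd h1 (not_le.2 (abs_lt.2 ?_))
      rcases hτ with rfl | rfl
      · constructor <;> linarith [h8.1, h8.2, h10.1, h10.2]
      · constructor <;> linarith [h8.1, h8.2, h10.1, h10.2]
    · refine absurd h1 (not_le.2 (abs_lt.2 ?_))
      constructor <;> linarith [h9.1, h9.2, h11.1, h11.2]
  · filter_upwards [hK.isClosed.isOpen_compl.mem_nhds hxK] with y hy hyB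
    exact absurd (Set.image_mono (obox_subset_box _ _ _) hyB) hy

/-- The two poles are separated. -/
theorem other (hC : Chart V W Φ z0 r e) (hS : SepAt g W Φ z0 r e t1) {y : E3}
    (hy : y ∈ Φ '' obox z0 r e) {τ : ℝ} (hτ : τ = r / 2 ∨ τ = -(r / 2))
    (h : rp g W Φ z0 τ y ≤ t1) : t1 < rp g W Φ z0 (-τ) y := by
  obtain ⟨z, hz, rfl⟩ := hy
  have hr := hC.r_pos
  by_contra hcon
  rw [not_lt] at hcon
  have hτ' : -τ = r / 2 ∨ -τ = -(r / 2) := by
    rcases hτ with rfl | rfl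
    · exact Or.inr rfl
    · exact Or.inl (neg_neg _)
  have h1 := abs_le.1 (hS.2 z (obox_subset_box _ _ _ hz) τ hτ h).1
  have h2 := abs_le.1 (hS.2 z (obox_subset_box _ _ _ hz) (-τ) hτ' hcon).1
  rcases hτ with rfl | rfl
  · linarith [h1.1, h1.2, h2.1, h2.2]
  · linarith [h1.1, h1.2, h2.1, h2.2]

/-- `ps` in the chart. -/
theorem ps_near {τ : ℝ} (hO : IsOpen (Φ '' obox z0 r e)) {x : E3} (hx : x ∈ Φ '' obox z0 r e) :
    ps g W Φ z0 r e t1 τ =ᶠ[𝓝 x] fun y => lg t1 (rp g W Φ z0 τ y) := by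
  filter_upwards [hO.mem_nhds hx] with y hy
  unfold ps
  rw [if_pos hy]

/-- `ps` far from the pole. -/
theorem ps_far {τ : ℝ} (ht : 0 < t1) {x : E3}
    (h : ∀ᶠ y in 𝓝 x, y ∈ Φ '' obox z0 r e → t1 < rp g W Φ z0 τ y) :
    ps g W Φ z0 r e t1 τ =ᶠ[𝓝 x] fun _ => 0 := by
  filter_upwards [h] with y hy
  unfold ps
  split_ifs with h1
  · exact lg_large ht (hy h1).le
  · rfl

end

end PHI0m

open PHI0m in
theorem PHI0 (_hSMO : Stmt_SMO) (hRUL : Stmt_RUL) (hCHX : Stmt_CHX) (hPOLE : Stmt_POLE)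
    (hSCAL : Stmt_SCAL) : Stmt_PHI0 := by
  intro V a b g W hF Φ z0 r e hC t1 hS
  obtain ⟨_, _, hK, hKV, hopen, _, _, _, c, C, hc, _, _, hd⟩ := hCHX V a b g W hF Φ z0 r e hC
  have hr := hC.r_pos
  have ht := hS.1
  obtain ⟨B, hB⟩ : ∃ B : Set E3, B = Φ '' obox z0 r e := ⟨_, rfl⟩
  have hBo : IsOpen (Φ '' obox z0 r e) := by
    refine hopen (obox z0 r e) ?_ subset_rfl
    have h0 : IsOpen {z : E3 | |z 0 - z0 0| < r} := isOpen_lt (by fun_prop) continuous_const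
    have h1 : IsOpen {z : E3 | |z 1 - z0 1| < r} := isOpen_lt (by fun_prop) continuous_const
    have h2 : IsOpen {z : E3 | |z 2 - z0 2| < e} := isOpen_lt (by fun_prop) continuous_const
    exact h0.inter (h1.inter h2)
  have hBV : Φ '' obox z0 r e ⊆ V := (Set.image_mono (obox_subset_box _ _ _)).trans hKV
  have hUo : IsOpen (slab V W (z0 2 - e) (z0 2 + e)) := isOpen_slab hF _ _
  have hUe : ∀ x ∈ slab V W (z0 2 - e) (z0 2 + e), |W x - z0 2| < e := by
    intro x hx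
    have h := hx.2
    rw [abs_lt]
    constructor
    · linarith [h.1]
    · linarith [h.2]
  have habs : ∀ τ : ℝ, (τ = r / 2 ∨ τ = -(r / 2)) → |τ| < r := by
    intro τ hτ
    rw [abs_lt]
    rcases hτ with rfl | rfl
    · constructor <;> linarith
    · constructor <;> linarith
  have hfar : ∀ τ : ℝ, (τ = r / 2 ∨ τ = -(r / 2)) → ∀ x ∈ slab V W (z0 2 - e) (z0 2 + e),
      x ∉ Φ '' obox z0 r e → ∀ᶠ y in 𝓝 x, y ∈ Φ '' obox z0 r e → t1 < rp g W Φ z0 τ y :=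
    fun τ hτ x hx hxB => far hC hS hK hc (fun z hz z' hz' => (hd z hz z' hz').1) hτ (hUe x hx) hxB
  have hsm : ∀ τ : ℝ, (τ = r / 2 ∨ τ = -(r / 2)) → ∀ x ∈ Φ '' obox z0 r e,
      ContDiffAt ℝ ∞ (rp g W Φ z0 τ) x := fun τ hτ x hx =>
    ((hPOLE V a b g W hF Φ z0 r e hC τ (habs τ hτ)).1 x hx).contDiffAt (hBo.mem_nhds hx)
  have hnn : ∀ τ : ℝ, (τ = r / 2 ∨ τ = -(r / 2)) → ∀ x ∈ Φ '' obox z0 r e,
      0 ≤ rp g W Φ z0 τ x := by
    intro τ hτ x hx
    obtain ⟨_, c', C', hc', _, h1, _⟩ := hPOLE V a b g W hF Φ z0 r e hC τ (habs τ hτ)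
    obtain ⟨z, hz, rfl⟩ := hx
    have h2 := (h1 z (obox_subset_box _ _ _ hz)).1
    refine le_trans ?_ h2
    positivity
  have hτ1 : -(r / 2) = r / 2 ∨ -(r / 2) = -(r / 2) := Or.inr rfl
  have hτ2 : r / 2 = r / 2 ∨ r / 2 = -(r / 2) := Or.inl rfl
  -- off the curves
  have hoff : ∀ x ∈ slab V W (z0 2 - e) (z0 2 + e) \ sing g W Φ z0 r e,
      ∀ τ : ℝ, (τ = r / 2 ∨ τ = -(r / 2)) → x ∈ Φ '' obox z0 r e → 0 < rp g W Φ z0 τ x := by
    intro x hx τ hτ hxB
    refine lt_of_le_of_ne (hnn τ hτ x hxB) fun h => hx.2 ⟨hxB, ?_⟩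
    rcases hτ with rfl | rfl
    · exact Or.inr h.symm
    · exact Or.inl h.symm
  have hpsm : ∀ x ∈ slab V W (z0 2 - e) (z0 2 + e) \ sing g W Φ z0 r e,
      ∀ τ : ℝ, (τ = r / 2 ∨ τ = -(r / 2)) → ContDiffAt ℝ ∞ (ps g W Φ z0 r e t1 τ) x := by
    intro x hx τ hτ
    by_cases hxB : x ∈ Φ '' obox z0 r e
    · refine ContDiffAt.congr_of_eventuallyEq ?_ (ps_near hBo hxB)
      exact (lg_contDiffAt t1 (hoff x hx τ hτ hxB)).comp x (hsm τ hτ x hxB)
    · exact contDiffAt_const.congr_of_eventuallyEq (ps_far ht (hfar τ hτ x hx.1 hxB))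
  refine ⟨?_, ?_, ?_, ?_, ?_⟩
  · rw [isOpen_iff_mem_nhds]
    intro x hx
    by_cases hxB : x ∈ Φ '' obox z0 r e
    · have h1 := hoff x hx _ hτ1 hxB
      have h2 := hoff x hx _ hτ2 hxB
      filter_upwards [hUo.mem_nhds hx.1,
        (hsm _ hτ1 x hxB).continuousAt.eventually (lt_mem_nhds h1),
        (hsm _ hτ2 x hxB).continuousAt.eventually (lt_mem_nhds h2)] with y hy h3 h4
      refine ⟨hy, fun hs => ?_⟩
      rcases hs.2 with h5 | h5
      · exact h3.ne' h5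
      · exact h4.ne' h5
    · filter_upwards [hUo.mem_nhds hx.1, hfar _ hτ1 x hx.1 hxB, hfar _ hτ2 x hx.1 hxB] with
        y hy h3 h4
      refine ⟨hy, fun hs => ?_⟩
      rcases hs.2 with h5 | h5
      · exact absurd h5 (ht.trans (h3 hs.1)).ne'
      · exact absurd h5 (ht.trans (h4 hs.1)).ne'
  · have h1 := (hSCAL V a b g W hF Φ z0 r e hC (-(r / 2)) (habs _ hτ1)).1
    have h2 := (hSCAL V a b g W hF Φ z0 r e hC (r / 2) (habs _ hτ2)).1
    refine measure_mono_null ?_ (measure_union_null h1 h2)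
    rintro x ⟨hx, h | h⟩
    · exact Or.inl ⟨hx, h⟩
    · exact Or.inr ⟨hx, h⟩
  · intro x hx
    rw [phi0_eq]
    exact ((contDiffAt_const.mul (hpsm x hx _ hτ1)).add
      (contDiffAt_const.mul (hpsm x hx _ hτ2))).contDiffWithinAt
  · intro τ hτ x hx h0 h1
    have h2 : ∀ᶠ y in 𝓝 x, rp g W Φ z0 τ y < t1 / 2 :=
      (hsm τ hτ x hx).continuousAt.eventually (gt_mem_nhds h1)
    filter_upwards [hBo.mem_nhds hx, h2] with y hyB hy
    have h3 := other hC hS hyB hτ (by linarith)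
    have h4 := lg_small ht hy.le
    have h5 := lg_large ht h3.le
    unfold phi0
    rw [if_pos hyB]
    rcases hτ with rfl | rfl
    · rw [if_pos rfl, h4, h5]
      ring
    · rw [neg_neg] at h5
      rw [if_neg (by linarith), h4, h5]
      ring
  · -- the bound of `ρ₀`
    have hb : ∀ τ : ℝ, (τ = r / 2 ∨ τ = -(r / 2)) → ∃ D : ℝ, 0 < D ∧
        ∀ x ∈ slab V W (z0 2 - e) (z0 2 + e) \ sing g W Φ z0 r e,
          |lap g W (ps g W Φ z0 r e t1 τ) x| ≤ D := by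
      intro τ hτ
      obtain ⟨_, c', C', hc', hC', _, hpole⟩ := hPOLE V a b g W hF Φ z0 r e hC τ (habs τ hτ)
      obtain ⟨D, hD, hDb⟩ := lg_bound ht hC'
      refine ⟨D, hD, fun x hx => ?_⟩
      by_cases hxB : x ∈ Φ '' obox z0 r e
      · have hpos := hoff x hx τ hτ hxB
        obtain ⟨h1, h2, _, _⟩ := hpole x hxB
        have h3 := (hRUL g W x (hF.reg (hBV hxB))).2.2.2.2.2.2.2.2.1 (rp g W Φ z0 τ) (lg t1)
          ((hsm τ hτ x hxB).of_le (by norm_cast))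
          ((lg_contDiffAt t1 hpos).of_le (by norm_cast))
        rw [lap_congr (ps_near hBo hxB), h3]
        exact hDb _ _ _ hpos h2 h1
      · rw [lap_congr (ps_far ht (hfar τ hτ x hx.1 hxB)), lap_zero, abs_zero]
        exact hD.le
    obtain ⟨D1, hD1, hb1⟩ := hb _ hτ1
    obtain ⟨D2, hD2, hb2⟩ := hb _ hτ2
    refine ⟨D1 + D2, by positivity, fun x hx => ?_⟩
    unfold rho0
    split_ifs with hs
    · rw [abs_zero]
      positivity
    · have hR := hRUL g W x (hF.reg hx.1)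
      have hle : (2 : WithTop ℕ∞) ≤ ∞ := by norm_cast
      have s1 := (hpsm x ⟨hx, hs⟩ _ hτ1).of_le hle
      have s2 := (hpsm x ⟨hx, hs⟩ _ hτ2).of_le hle
      have hlin : ∀ (κ : ℝ) (f : E3 → ℝ), ContDiffAt ℝ 2 f x →
          lap g W (fun y => κ * f y) x = κ * lap g W f x := by
        intro κ f hf
        exact hR.2.2.2.2.2.2.2.2.2.2.1 f (fun _ => κ) hf contDiffAt_const
      rw [phi0_eq, (hR.2.2.2.2.2.1 _ _ (contDiffAt_const.mul s1) (contDiffAt_const.mul s2)).1,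
        hlin _ _ s1, hlin _ _ s2]
      have e1 := abs_le.1 (hb1 x ⟨hx, hs⟩)
      have e2 := abs_le.1 (hb2 x ⟨hx, hs⟩)
      rw [abs_le]
      constructor <;> linarith [e1.1, e1.2, e2.1, e2.2]

end Pool.Agent.PFlow.GB
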