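import Pool.Agent.PFlow.StmtsG

/-!
# POIN: the two-point inequality on a square
-/

open MeasureTheory Filter Topology
open scoped ContDiff

namespace Pool.Agent.PFlow.GB

open Pool.Agent.PenroseSph Pool.Agent.PFlow

namespace POIN

/-- The one-dimensional estimate. -/
theorem one_dim {f f' : ℝ → ℝ} {α β x y : ℝ} (hf : ∀ t ∈ Set.Ioo α β, HasDerivAt f (f' t) t)
    (hi : IntegrableOn f' (Set.Ioo α β)) (hx : x ∈ Set.Ioo α β) (hy : y ∈ Set.Ioo α β) :
    |f x - f y| ≤ ∫ t in Set.Ioo α β, |f' t| := by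
  have hsub : Set.uIcc y x ⊆ Set.Ioo α β := by
    intro t ht
    rw [Set.mem_uIcc] at ht
    rcases ht with h | h
    · exact ⟨lt_of_lt_of_le hy.1 h.1, lt_of_le_of_lt h.2 hx.2⟩
    · exact ⟨lt_of_lt_of_le hx.1 h.1, lt_of_le_of_lt h.2 hy.2⟩
  have hsub' : Set.uIoc y x ⊆ Set.Ioo α β := Set.uIoc_subset_uIcc.trans hsub
  have hint : IntervalIntegrable f' volume y x := by
    rw [intervalIntegrable_iff]
    exact hi.mono_set hsub'
  have h1 := intervalIntegral.integral_eq_sub_of_hasDerivAt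
    (fun t ht => hf t (hsub ht)) hint
  rw [← h1, ← Real.norm_eq_abs]
  refine intervalIntegral.norm_integral_le_integral_norm_uIoc.trans ?_
  have h2 : ∫ t in Set.uIoc y x, ‖f' t‖ ≤ ∫ t in Set.Ioo α β, ‖f' t‖ :=
    setIntegral_mono_set hi.norm (Eventually.of_forall fun t => norm_nonneg _)
      hsub'.eventuallyLE
  simpa [Real.norm_eq_abs] using h2

section

variable {a0 b0 r : ℝ}

/-- Functions which are continuous on the closed square are integrable. -/
theorem int_of_cont {F : ℝ × ℝ → ℝ}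
    (hF : ContinuousOn F (Set.Icc (a0 - r) (a0 + r) ×ˢ Set.Icc (b0 - r) (b0 + r))) :
    Integrable F ((volume.restrict (Set.Ioo (a0 - r) (a0 + r))).prod
      (volume.restrict (Set.Ioo (b0 - r) (b0 + r)))) := by
  rw [Measure.prod_restrict, ← Measure.volume_eq_prod]
  have h1 : IntegrableOn F (Set.Icc (a0 - r) (a0 + r) ×ˢ Set.Icc (b0 - r) (b0 + r)) volume :=
    hF.integrableOn_compact (isCompact_Icc.prod isCompact_Icc)
  exact h1.mono_set (Set.prod_mono Set.Ioo_subset_Icc_self Set.Ioo_subset_Icc_self)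

end

end POIN

open POIN in
theorem POIN : Stmt_POIN := by
  intro a0 b0 r B R v hr hB hRm hRB hv hR0
  obtain ⟨N, hNo, hKN, hvN⟩ := hv
  set I := Set.Ioo (a0 - r) (a0 + r) with hI
  set J := Set.Ioo (b0 - r) (b0 + r) with hJ
  set K := Set.Icc (a0 - r) (a0 + r) ×ˢ Set.Icc (b0 - r) (b0 + r) with hK
  set V := Function.uncurry v with hV
  have hIJ : ∀ z : ℝ × ℝ, z.1 ∈ I → z.2 ∈ J → z ∈ K := fun z h1 h2 =>
    ⟨Set.Ioo_subset_Icc_self h1, Set.Ioo_subset_Icc_self h2⟩
  -- derivatives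
  have hfd : ∀ z ∈ N, HasFDerivAt V (fderiv ℝ V z) z := fun z hz =>
    ((hvN.differentiableOn (by norm_num)).differentiableAt (hNo.mem_nhds hz)).hasFDerivAt
  have hd1 : ∀ a b, (a, b) ∈ N → HasDerivAt (fun t => v t b) (fderiv ℝ V (a, b) (1, 0)) a := by
    intro a b h
    have h1 : HasDerivAt (fun t : ℝ => (t, b)) ((1 : ℝ), (0 : ℝ)) a :=
      (hasDerivAt_id a).prodMk (hasDerivAt_const a b)
    exact (hfd (a, b) h).comp_hasDerivAt a h1
  have hd2 : ∀ a b, (a, b) ∈ N → HasDerivAt (fun t => v a t) (fderiv ℝ V (a, b) (0, 1)) b := by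
    intro a b h
    have h1 : HasDerivAt (fun t : ℝ => (a, t)) ((0 : ℝ), (1 : ℝ)) b :=
      (hasDerivAt_const b a).prodMk (hasDerivAt_id b)
    exact (hfd (a, b) h).comp_hasDerivAt b h1
  have hfc : ContinuousOn (fderiv ℝ V) N := hvN.continuousOn_fderiv_of_isOpen hNo le_rfl
  have hc1 : ContinuousOn (fun z : ℝ × ℝ => |deriv (fun t => v t z.2) z.1|) K := by
    have h1 : ContinuousOn (fun z : ℝ × ℝ => |fderiv ℝ V z (1, 0)|) K :=
      ((hfc.mono hKN).clm_apply continuousOn_const).abs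
    refine h1.congr fun z hz => ?_
    change |deriv (fun t => v t z.2) z.1| = |fderiv ℝ V z (1, 0)|
    rw [(hd1 z.1 z.2 (hKN hz)).deriv]
  have hc2 : ContinuousOn (fun z : ℝ × ℝ => |deriv (fun t => v z.1 t) z.2|) K := by
    have h1 : ContinuousOn (fun z : ℝ × ℝ => |fderiv ℝ V z (0, 1)|) K :=
      ((hfc.mono hKN).clm_apply continuousOn_const).abs
    refine h1.congr fun z hz => ?_
    change |deriv (fun t => v z.1 t) z.2| = |fderiv ℝ V z (0, 1)|
    rw [(hd2 z.1 z.2 (hKN hz)).deriv]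
  have hcV : ContinuousOn V K := (hvN.continuousOn).mono hKN
  -- integrability
  set μ := volume.restrict I with hμ
  set ν := volume.restrict J with hν
  have hμI : volume.real I = 2 * r := by
    rw [hI, Real.volume_real_Ioo_of_le (by linarith)]
    ring
  have hνJ : volume.real J = 2 * r := by
    rw [hJ, Real.volume_real_Ioo_of_le (by linarith)]
    ring
  have hi1 := int_of_cont hc1
  have hi2 := int_of_cont hc2
  have hiV := int_of_cont hcV
  have hiR : Integrable (Function.uncurry R) (μ.prod ν) :=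
    Integrable.of_bound hRm.aestronglyMeasurable B (Eventually.of_forall fun z => hRB z.1 z.2)
  have hiRV : Integrable (fun z : ℝ × ℝ => R z.1 z.2 * v z.1 z.2) (μ.prod ν) :=
    hiV.bdd_mul hRm.aestronglyMeasurable (Eventually.of_forall fun z => hRB z.1 z.2)
  -- the two functions
  set f1 : ℝ → ℝ := fun b => ∫ t in I, |deriv (fun s => v s b) t| with hf1
  set f2 : ℝ → ℝ := fun a => ∫ t in J, |deriv (fun s => v a s) t| with hf2
  have hf1i : Integrable f1 ν := hi1.integral_prod_right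
  have hf2i : Integrable f2 μ := hi2.integral_prod_left
  -- the choice of `y`
  obtain ⟨y, hy, hy2⟩ := exists_le_setAverage (μ := volume) (s := I) (f := f2)
    (by
      rw [hI, Real.volume_Ioo]
      simp
      linarith)
    (by
      rw [hI, Real.volume_Ioo]
      exact ENNReal.ofReal_ne_top) hf2i
  rw [setAverage_eq, hμI, smul_eq_mul] at hy2
  have hb0 : b0 ∈ J := ⟨by linarith, by linarith⟩
  set c := v y b0 with hc
  -- the pointwise estimate
  have hsl1 : ∀ b ∈ J, IntegrableOn (fun t => deriv (fun s => v s b) t) I := by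
    intro b hb
    have h1 : ContinuousOn (fun t : ℝ => fderiv ℝ V (t, b) (1, 0)) (Set.Icc (a0 - r) (a0 + r)) := by
      have h2 : ContinuousOn (fun z : ℝ × ℝ => fderiv ℝ V z (1, 0)) K :=
        (hfc.mono hKN).clm_apply continuousOn_const
      exact h2.comp (f := fun t : ℝ => (t, b)) (by fun_prop)
        (fun t ht => ⟨ht, Set.Ioo_subset_Icc_self hb⟩)
    have h3 : IntegrableOn (fun t : ℝ => fderiv ℝ V (t, b) (1, 0)) I :=
      (h1.integrableOn_compact isCompact_Icc).mono_set Set.Ioo_subset_Icc_self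
    refine h3.congr_fun (fun t ht => ?_) measurableSet_Ioo
    exact (hd1 t b (hKN ⟨Set.Ioo_subset_Icc_self ht, Set.Ioo_subset_Icc_self hb⟩)).deriv.symm
  have hsl2 : ∀ a ∈ I, IntegrableOn (fun t => deriv (fun s => v a s) t) J := by
    intro a ha
    have h1 : ContinuousOn (fun t : ℝ => fderiv ℝ V (a, t) (0, 1)) (Set.Icc (b0 - r) (b0 + r)) := by
      have h2 : ContinuousOn (fun z : ℝ × ℝ => fderiv ℝ V z (0, 1)) K :=
        (hfc.mono hKN).clm_apply continuousOn_const
      exact h2.comp (f := fun t : ℝ => (a, t)) (by fun_prop)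
        (fun t ht => ⟨Set.Ioo_subset_Icc_self ha, ht⟩)
    have h3 : IntegrableOn (fun t : ℝ => fderiv ℝ V (a, t) (0, 1)) J :=
      (h1.integrableOn_compact isCompact_Icc).mono_set Set.Ioo_subset_Icc_self
    refine h3.congr_fun (fun t ht => ?_) measurableSet_Ioo
    exact (hd2 a t (hKN ⟨Set.Ioo_subset_Icc_self ha, Set.Ioo_subset_Icc_self ht⟩)).deriv.symm
  have hpt : ∀ a ∈ I, ∀ b ∈ J, |v a b - c| ≤ f1 b + f2 y := by
    intro a ha b hb
    have e1 : |v a b - v y b| ≤ f1 b := by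
      refine one_dim (f := fun s => v s b) (fun t ht => ?_) (hsl1 b hb) ha hy
      have h := hd1 t b (hKN ⟨Set.Ioo_subset_Icc_self ht, Set.Ioo_subset_Icc_self hb⟩)
      rw [h.deriv]
      exact h
    have e2 : |v y b - v y b0| ≤ f2 y := by
      refine one_dim (f := fun s => v y s) (fun t ht => ?_) (hsl2 y hy) hb hb0
      have h := hd2 y t (hKN ⟨Set.Ioo_subset_Icc_self hy, Set.Ioo_subset_Icc_self ht⟩)
      rw [h.deriv]
      exact h
    calc |v a b - c| = |(v a b - v y b) + (v y b - v y b0)| := by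
          congr 1
          rw [hc]
          ring
      _ ≤ _ := abs_add_le _ _
      _ ≤ f1 b + f2 y := add_le_add e1 e2
  -- the integrals
  have hL : ∫ a in I, ∫ b in J, R a b * v a b =
      ∫ z, R z.1 z.2 * (v z.1 z.2 - c) ∂(μ.prod ν) := by
    have h1 : ∫ a in I, ∫ b in J, R a b * v a b = ∫ z, R z.1 z.2 * v z.1 z.2 ∂(μ.prod ν) :=
      (integral_prod _ hiRV).symm
    have h2 : ∫ z, R z.1 z.2 ∂(μ.prod ν) = 0 := by
      rw [← hR0]
      exact integral_prod _ hiR
    have h3 : (fun z : ℝ × ℝ => R z.1 z.2 * (v z.1 z.2 - c)) =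
        fun z => R z.1 z.2 * v z.1 z.2 - R z.1 z.2 * c := by
      funext z
      ring
    have hiR' : Integrable (fun z : ℝ × ℝ => R z.1 z.2) (μ.prod ν) := hiR
    rw [h1, h3, integral_sub hiRV (hiR'.mul_const c), integral_mul_const, h2, zero_mul, sub_zero]
  have hiVc : Integrable (fun z : ℝ × ℝ => |v z.1 z.2 - c|) (μ.prod ν) :=
    (hiV.sub (integrable_const c)).abs
  have hS1 : |∫ z, R z.1 z.2 * (v z.1 z.2 - c) ∂(μ.prod ν)| ≤
      B * ∫ z, |v z.1 z.2 - c| ∂(μ.prod ν) := by
    rw [← integral_const_mul, ← Real.norm_eq_abs]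
    refine norm_integral_le_of_norm_le (hiVc.const_mul B) (Eventually.of_forall fun z => ?_)
    rw [Real.norm_eq_abs, abs_mul]
    exact mul_le_mul_of_nonneg_right (hRB _ _) (abs_nonneg _)
  have hS2 : ∫ z, |v z.1 z.2 - c| ∂(μ.prod ν) ≤ ∫ b in J, 2 * r * (f1 b + f2 y) := by
    rw [integral_prod_symm _ hiVc]
    refine setIntegral_mono_on hiVc.integral_prod_right
      ((hf1i.add (integrable_const _)).const_mul _) measurableSet_Ioo fun b hb => ?_
    have h1 : ∫ a in I, |v a b - c| ≤ ∫ a in I, (f1 b + f2 y) := by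
      refine setIntegral_mono_on ?_ ?_ measurableSet_Ioo fun a ha => hpt a ha b hb
      · have h2 : ContinuousOn (fun a : ℝ => |V (a, b) - c|) (Set.Icc (a0 - r) (a0 + r)) :=
          ((hcV.comp (f := fun t : ℝ => (t, b)) (by fun_prop)
            (fun t ht => ⟨ht, Set.Ioo_subset_Icc_self hb⟩)).sub continuousOn_const).abs
        exact (h2.integrableOn_compact isCompact_Icc).mono_set Set.Ioo_subset_Icc_self
      · exact integrableOn_const (by rw [hI, Real.volume_Ioo]; exact ENNReal.ofReal_ne_top)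
    refine h1.trans ?_
    rw [setIntegral_const, hμI, smul_eq_mul]
  have hS3 : ∫ b in J, 2 * r * (f1 b + f2 y) = 2 * r * (∫ b in J, f1 b) + 4 * r ^ 2 * f2 y := by
    rw [integral_const_mul, integral_add hf1i (integrable_const _), setIntegral_const, hνJ,
      smul_eq_mul]
    ring
  have hF1 : ∫ b in J, f1 b = ∫ a in I, ∫ b in J, |deriv (fun t => v t b) a| := by
    have h1 := integral_prod_symm _ hi1
    rw [integral_prod _ hi1] at h1
    exact h1.symm
  have hF2 : 4 * r ^ 2 * f2 y ≤ 2 * r * ∫ a in I, ∫ b in J, |deriv (fun t => v a t) b| := by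
    have h1 : 4 * r ^ 2 * f2 y ≤ 4 * r ^ 2 * ((2 * r)⁻¹ * ∫ a in I, f2 a) :=
      mul_le_mul_of_nonneg_left hy2 (by positivity)
    have h2 : 4 * r ^ 2 * ((2 * r)⁻¹ * ∫ a in I, f2 a) = 2 * r * ∫ a in I, f2 a := by
      field_simp
      ring
    rw [h2] at h1
    exact h1
  have hRHS : ∫ a in I, ∫ b in J, (|deriv (fun t => v t b) a| + |deriv (fun t => v a t) b|) =
      (∫ a in I, ∫ b in J, |deriv (fun t => v t b) a|) +
        ∫ a in I, ∫ b in J, |deriv (fun t => v a t) b| := by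
    have h1 := integral_prod _ (hi1.add hi2)
    have h2 := integral_add hi1 hi2
    rw [integral_prod _ hi1, integral_prod _ hi2] at h2
    exact h1.symm.trans h2
  rw [hL, hRHS]
  calc |∫ z, R z.1 z.2 * (v z.1 z.2 - c) ∂(μ.prod ν)| ≤
        B * ∫ z, |v z.1 z.2 - c| ∂(μ.prod ν) := hS1
    _ ≤ B * (2 * r * (∫ b in J, f1 b) + 4 * r ^ 2 * f2 y) :=
        mul_le_mul_of_nonneg_left (hS2.trans hS3.le) hB
    _ ≤ B * (2 * r * (∫ a in I, ∫ b in J, |deriv (fun t => v t b) a|) +
        2 * r * ∫ a in I, ∫ b in J, |deriv (fun t => v a t) b|) := by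
        rw [hF1]
        exact mul_le_mul_of_nonneg_left (add_le_add le_rfl hF2) hB
    _ = _ := by ring

end Pool.Agent.PFlow.GB
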