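import Pool.Agent.PFlow.G.Base

/-!
# Block GB: estimates of the pole functions (module PG_POLE)
-/

open MeasureTheory Filter Topology
open scoped ContDiff

namespace Pool.Agent.PFlow.GB

open Pool.Agent.PenroseSph Pool.Agent.PFlow

namespace POLE

/-! ## Partial derivatives -/

theorem pd_add {f h : E3 → ℝ} {x : E3} (i : Fin 3) (hf : DifferentiableAt ℝ f x)
    (hh : DifferentiableAt ℝ h x) : pd i (fun y => f y + h y) x = pd i f x + pd i h x := by
  unfold pd
  rw [fderiv_fun_add hf hh]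
  rfl

theorem pd_mul {f h : E3 → ℝ} {x : E3} (i : Fin 3) (hf : DifferentiableAt ℝ f x)
    (hh : DifferentiableAt ℝ h x) :
    pd i (fun y => f y * h y) x = f x * pd i h x + h x * pd i f x := by
  unfold pd
  rw [fderiv_fun_mul hf hh]
  rfl

theorem pd_const (i : Fin 3) (c : ℝ) (x : E3) : pd i (fun _ => c) x = 0 := by
  unfold pd
  rw [fderiv_fun_const]
  rfl

theorem pd_comp {B : ℝ → ℝ} {W : E3 → ℝ} {x : E3} (i : Fin 3)
    (hB : DifferentiableAt ℝ B (W x)) (hW : DifferentiableAt ℝ W x) :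
    pd i (fun y => B (W y)) x = deriv B (W x) * pd i W x := by
  unfold pd
  have h := (hB.hasDerivAt.comp_hasFDerivAt x hW.hasFDerivAt).fderiv
  have h1 : fderiv ℝ (fun y => B (W y)) x = deriv B (W x) • fderiv ℝ W x := h
  rw [h1]
  rfl

theorem pd_congr {f h : E3 → ℝ} {x : E3} (i : Fin 3) (e : f =ᶠ[𝓝 x] h) :
    pd i f x = pd i h x := by
  unfold pd
  rw [e.fderiv_eq]

theorem pd_smooth {f : E3 → ℝ} {x : E3} (h : ContDiffAt ℝ ∞ f x) (i : Fin 3) :
    ContDiffAt ℝ ∞ (pd i f) x := by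
  unfold pd
  exact (h.fderiv_right (m := ∞) (by simp)).clm_apply contDiffAt_const

theorem le2 : (2 : WithTop ℕ∞) ≤ ∞ := by
  show ((2 : ℕ∞) : WithTop ℕ∞) ≤ ((⊤ : ℕ∞) : WithTop ℕ∞)
  exact WithTop.coe_le_coe.2 le_top

theorem diff {f : E3 → ℝ} {x : E3} (h : ContDiffAt ℝ ∞ f x) : DifferentiableAt ℝ f x :=
  h.differentiableAt (by simp)

theorem ev_diff {f : E3 → ℝ} {x : E3} (h : ContDiffAt ℝ ∞ f x) :
    ∀ᶠ y in 𝓝 x, DifferentiableAt ℝ f y := by
  have h1 : ContDiffAt ℝ 1 f x := h.of_le (by simp)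
  filter_upwards [h1.eventually (by simp)] with y hy
  exact hy.differentiableAt (by simp)

/-- The Hessian on two vectors. -/
noncomputable def hs (f : E3 → ℝ) (x : E3) (T T' : Cov) : ℝ :=
  ∑ i, ∑ j, hess2 f x i j * T i * T' j

/-- The derivative along a vector. -/
noncomputable def dv (f : E3 → ℝ) (x : E3) (T : Cov) : ℝ := ∑ i, T i * pd i f x

theorem h2_add {f h : E3 → ℝ} {x : E3} (hf : ContDiffAt ℝ ∞ f x) (hh : ContDiffAt ℝ ∞ h x)
    (i j : Fin 3) : hess2 (fun y => f y + h y) x i j = hess2 f x i j + hess2 h x i j := by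
  show pd i (pd j (fun y => f y + h y)) x = pd i (pd j f) x + pd i (pd j h) x
  rw [← pd_add i (diff (pd_smooth hf j)) (diff (pd_smooth hh j))]
  apply pd_congr
  filter_upwards [ev_diff hf, ev_diff hh] with y h1 h2
  exact pd_add j h1 h2

theorem h2_mul {f h : E3 → ℝ} {x : E3} (hf : ContDiffAt ℝ ∞ f x) (hh : ContDiffAt ℝ ∞ h x)
    (i j : Fin 3) : hess2 (fun y => f y * h y) x i j =
      f x * hess2 h x i j + h x * hess2 f x i j + pd i f x * pd j h x + pd i h x * pd j f x := by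
  show pd i (pd j (fun y => f y * h y)) x =
    f x * pd i (pd j h) x + h x * pd i (pd j f) x + pd i f x * pd j h x + pd i h x * pd j f x
  have e : pd i (pd j (fun y => f y * h y)) x =
      pd i (fun y => f y * pd j h y + h y * pd j f y) x := by
    apply pd_congr
    filter_upwards [ev_diff hf, ev_diff hh] with y h1 h2
    exact pd_mul j h1 h2
  rw [e, pd_add (f := fun y => f y * pd j h y) (h := fun y => h y * pd j f y) i
      ((diff hf).mul (diff (pd_smooth hh j))) ((diff hh).mul (diff (pd_smooth hf j))),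
    pd_mul i (diff hf) (diff (pd_smooth hh j)), pd_mul i (diff hh) (diff (pd_smooth hf j))]
  ring

theorem h2_comp {B : ℝ → ℝ} {W : E3 → ℝ} {x : E3} (hB : ContDiffAt ℝ ∞ B (W x))
    (hW : ContDiffAt ℝ ∞ W x) (i j : Fin 3) :
    hess2 (fun y => B (W y)) x i j =
      deriv B (W x) * hess2 W x i j + deriv (deriv B) (W x) * pd i W x * pd j W x := by
  show pd i (pd j (fun y => B (W y))) x =
    deriv B (W x) * pd i (pd j W) x + deriv (deriv B) (W x) * pd i W x * pd j W x
  have hB1 : ∀ᶠ s in 𝓝 (W x), DifferentiableAt ℝ B s := by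
    have h1 : ContDiffAt ℝ 1 B (W x) := hB.of_le (by simp)
    filter_upwards [h1.eventually (by simp)] with y hy
    exact hy.differentiableAt (by simp)
  have hB2 : ContDiffAt ℝ ∞ (deriv B) (W x) := by
    have h1 : ContDiffAt ℝ ∞ (fun s => fderiv ℝ B s 1) (W x) :=
      (hB.fderiv_right (m := ∞) (by simp)).clm_apply contDiffAt_const
    exact h1
  have hB3 : DifferentiableAt ℝ (deriv B) (W x) := hB2.differentiableAt (by simp)
  have e : pd i (pd j (fun y => B (W y))) x =
      pd i (fun y => deriv B (W y) * pd j W y) x := by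
    apply pd_congr
    filter_upwards [ev_diff hW, hW.continuousAt.eventually hB1] with y h1 h2
    exact pd_comp j h2 h1
  rw [e, pd_mul (f := fun y => deriv B (W y)) i (hB3.comp x (diff hW)) (diff (pd_smooth hW j)),
    pd_comp i hB3 (diff hW)]
  ring

theorem hs_add {f h : E3 → ℝ} {x : E3} (hf : ContDiffAt ℝ ∞ f x) (hh : ContDiffAt ℝ ∞ h x)
    (T T' : Cov) : hs (fun y => f y + h y) x T T' = hs f x T T' + hs h x T T' := by
  unfold hs
  simp only [h2_add hf hh, Fin.sum_univ_three]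
  ring

theorem hs_mul {f h : E3 → ℝ} {x : E3} (hf : ContDiffAt ℝ ∞ f x) (hh : ContDiffAt ℝ ∞ h x)
    (T T' : Cov) : hs (fun y => f y * h y) x T T' =
      f x * hs h x T T' + h x * hs f x T T' + dv f x T * dv h x T' + dv h x T * dv f x T' := by
  unfold hs dv
  simp only [h2_mul hf hh, Fin.sum_univ_three]
  ring

/-! ## Functions of `x` and of the level -/

/-- `F y (W y)` and `F y (W x)` have the same leafwise derivatives at `x`. -/
structure Gd (g : TensorField) (W : E3 → ℝ) (x : E3) (F : E3 → ℝ → ℝ) : Prop where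
  sm1 : ContDiffAt ℝ ∞ (fun y => F y (W y)) x
  sm0 : ContDiffAt ℝ ∞ (fun y => F y (W x)) x
  ds : DifferentiableAt ℝ (F x) (W x)
  lapE : lap g W (fun y => F y (W y)) x = lap g W (fun y => F y (W x)) x
  pdE : ∀ i, pd i (fun y => F y (W y)) x =
    pd i (fun y => F y (W x)) x + deriv (F x) (W x) * pd i W x
  hsE : ∀ T T' : Cov, ∑ i, T i * pd i W x = 0 → ∑ i, T' i * pd i W x = 0 →
    hs (fun y => F y (W y)) x T T' =
      hs (fun y => F y (W x)) x T T' + deriv (F x) (W x) * hs W x T T'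

section Good

variable {g : TensorField} {W : E3 → ℝ} {x : E3}

theorem lin_eq (hRUL : Stmt_RUL) (hreg : Reg g W x) (f k : E3 → ℝ) :
    lin g W f k x = ∑ i, (∑ j, prj g x (grad W x) i j * pd j f x) * pd i k x := by
  obtain ⟨_, r2, _, _, r5, _⟩ := hRUL g W x hreg
  rw [← r2 f k]
  refine Finset.sum_congr rfl fun i _ => ?_
  rw [r5 f i]
  rfl

theorem prj_grad (hALG : Stmt_ALG) (hreg : Reg g W x) (i : Fin 3) :
    ∑ j, prj g x (grad W x) i j * pd j W x = 0 := by
  obtain ⟨O, _, hx, hm, _, hr⟩ := hreg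
  exact (hALG g x (grad W x) (hm.posDef x hx) (hr x hx)).2.2.2.2.2.1 i

theorem Gd.linE (hALG : Stmt_ALG) (hRUL : Stmt_RUL) (hreg : Reg g W x) {F : E3 → ℝ → ℝ}
    (h : Gd g W x F) (k : E3 → ℝ) :
    lin g W (fun y => F y (W y)) k x = lin g W (fun y => F y (W x)) k x := by
  rw [lin_eq hRUL hreg, lin_eq hRUL hreg]
  refine Finset.sum_congr rfl fun i _ => ?_
  congr 1
  have h1 := prj_grad hALG hreg i
  calc ∑ j, prj g x (grad W x) i j * pd j (fun y => F y (W y)) x
      = ∑ j, (prj g x (grad W x) i j * pd j (fun y => F y (W x)) x +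
          deriv (F x) (W x) * (prj g x (grad W x) i j * pd j W x)) := by
        refine Finset.sum_congr rfl fun j _ => ?_
        rw [h.pdE j]
        ring
    _ = _ := by
        rw [Finset.sum_add_distrib, ← Finset.mul_sum, h1, mul_zero, add_zero]

theorem lin_comm (hRUL : Stmt_RUL) (hreg : Reg g W x) (f k : E3 → ℝ) :
    lin g W f k x = lin g W k f x := by
  obtain ⟨_, _, r3, _⟩ := hRUL g W x hreg
  exact (r3 f k).1

theorem Gd.dvE {F : E3 → ℝ → ℝ} (h : Gd g W x F) {T : Cov} (hT : ∑ i, T i * pd i W x = 0) :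
    dv (fun y => F y (W y)) x T = dv (fun y => F y (W x)) x T := by
  unfold dv
  calc ∑ i, T i * pd i (fun y => F y (W y)) x
      = ∑ i, (T i * pd i (fun y => F y (W x)) x + deriv (F x) (W x) * (T i * pd i W x)) := by
        refine Finset.sum_congr rfl fun i _ => ?_
        rw [h.pdE i]
        ring
    _ = _ := by
        rw [Finset.sum_add_distrib, ← Finset.mul_sum, hT, mul_zero, add_zero]

theorem Gd.add (hRUL : Stmt_RUL) (hreg : Reg g W x) {F H : E3 → ℝ → ℝ} (hF : Gd g W x F)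
    (hH : Gd g W x H) : Gd g W x (fun y s => F y s + H y s) := by
  obtain ⟨_, _, _, _, _, r6, _⟩ := hRUL g W x hreg
  have hd : deriv (fun s => F x s + H x s) (W x) = deriv (F x) (W x) + deriv (H x) (W x) :=
    deriv_fun_add hF.ds hH.ds
  refine ⟨hF.sm1.add hH.sm1, hF.sm0.add hH.sm0, hF.ds.add hH.ds, ?_, ?_, ?_⟩
  · rw [(r6 _ _ (hF.sm1.of_le le2) (hH.sm1.of_le le2)).1,
      (r6 _ _ (hF.sm0.of_le le2) (hH.sm0.of_le le2)).1, hF.lapE, hH.lapE]
  · intro i
    rw [pd_add i (diff hF.sm1) (diff hH.sm1), pd_add i (diff hF.sm0) (diff hH.sm0), hF.pdE,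
      hH.pdE, hd]
    ring
  · intro T T' hT hT'
    rw [hs_add hF.sm1 hH.sm1, hs_add hF.sm0 hH.sm0, hF.hsE T T' hT hT', hH.hsE T T' hT hT', hd]
    ring

theorem Gd.mul (hALG : Stmt_ALG) (hRUL : Stmt_RUL) (hreg : Reg g W x) {F H : E3 → ℝ → ℝ}
    (hF : Gd g W x F) (hH : Gd g W x H) : Gd g W x (fun y s => F y s * H y s) := by
  obtain ⟨_, _, _, _, _, r6, _⟩ := hRUL g W x hreg
  have hd : deriv (fun s => F x s * H x s) (W x) =
      deriv (F x) (W x) * H x (W x) + F x (W x) * deriv (H x) (W x) :=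
    deriv_fun_mul hF.ds hH.ds
  refine ⟨hF.sm1.mul hH.sm1, hF.sm0.mul hH.sm0, hF.ds.mul hH.ds, ?_, ?_, ?_⟩
  · have h1 : lin g W (fun y => F y (W y)) (fun y => H y (W y)) x =
        lin g W (fun y => F y (W x)) (fun y => H y (W x)) x := by
      rw [hF.linE hALG hRUL hreg, lin_comm hRUL hreg, hH.linE hALG hRUL hreg,
        lin_comm hRUL hreg]
    rw [(r6 _ _ (hF.sm1.of_le le2) (hH.sm1.of_le le2)).2,
      (r6 _ _ (hF.sm0.of_le le2) (hH.sm0.of_le le2)).2, hF.lapE, hH.lapE, h1]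
  · intro i
    rw [pd_mul i (diff hF.sm1) (diff hH.sm1), pd_mul i (diff hF.sm0) (diff hH.sm0), hF.pdE,
      hH.pdE, hd]
    ring
  · intro T T' hT hT'
    rw [hs_mul hF.sm1 hH.sm1, hs_mul hF.sm0 hH.sm0, hF.hsE T T' hT hT', hH.hsE T T' hT hT', hd,
      hF.dvE hT, hF.dvE hT', hH.dvE hT, hH.dvE hT']
    ring

theorem Gd.ofX {f : E3 → ℝ} (hf : ContDiffAt ℝ ∞ f x) : Gd g W x (fun y _ => f y) := by
  refine ⟨hf, hf, differentiableAt_const _, rfl, ?_, ?_⟩
  · intro i
    simp
  · intro T T' _ _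
    simp

theorem Gd.ofS (hRUL : Stmt_RUL) (hreg : Reg g W x) (hW : ContDiffAt ℝ ∞ W x) {B : ℝ → ℝ}
    (hB : ContDiffAt ℝ ∞ B (W x)) : Gd g W x (fun _ s => B s) := by
  obtain ⟨_, _, _, _, _, _, _, _, _, _, r11, _⟩ := hRUL g W x hreg
  refine ⟨hB.comp x hW, contDiffAt_const, hB.differentiableAt (by simp), ?_, ?_, ?_⟩
  · have h1 := r11 (fun _ => 1) B contDiffAt_const (hB.of_le le2)
    have h2 := r11 (fun _ => 1) (fun _ => B (W x)) contDiffAt_const contDiffAt_const
    simp only [mul_one] at h1 h2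
    rw [h1, h2]
  · intro i
    rw [pd_comp i (hB.differentiableAt (by simp)) (diff hW), pd_const, zero_add]
  · intro T T' hT hT'
    have h1 : hs (fun _ => B (W x)) x T T' = 0 := by
      unfold hs
      have h2 : ∀ i j, hess2 (fun _ : E3 => B (W x)) x i j = 0 := by
        intro i j
        show pd i (pd j (fun _ => B (W x))) x = 0
        have h3 : pd j (fun _ : E3 => B (W x)) = fun _ => 0 := funext fun y => pd_const j _ y
        rw [h3, pd_const]
      simp [h2]
    rw [h1, zero_add]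
    unfold hs
    simp only [h2_comp hB hW, Fin.sum_univ_three] at hT hT' ⊢
    linear_combination deriv (deriv B) (W x) * (T' 0 * pd 0 W x + T' 1 * pd 1 W x
      + T' 2 * pd 2 W x) * hT

theorem Gd.sum3 (hRUL : Stmt_RUL) (hreg : Reg g W x) {F : Fin 3 → E3 → ℝ → ℝ}
    (h : ∀ i, Gd g W x (F i)) : Gd g W x (fun y s => ∑ i, F i y s) := by
  simp only [Fin.sum_univ_three]
  exact ((h 0).add hRUL hreg (h 1)).add hRUL hreg (h 2)

theorem coord_smooth (i : Fin 3) : ContDiffAt ℝ ∞ (fun y : E3 => y i) x :=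
  (contDiff_euclidean.1 contDiff_id i).contDiffAt

theorem Gd.qf (hALG : Stmt_ALG) (hRUL : Stmt_RUL) (hreg : Reg g W x) (hW : ContDiffAt ℝ ∞ W x)
    (hg : ∀ i j, ContDiffAt ℝ ∞ (fun y => g y i j) x) {q : ℝ → E3}
    (hq : ∀ i, ContDiffAt ℝ ∞ (fun s => q s i) (W x))
    (hgq : ∀ i j, ContDiffAt ℝ ∞ (fun s => g (q s) i j) (W x)) :
    Gd g W x (fun y s => qf g y (q s)) := by
  have h1 : ∀ i : Fin 3, Gd g W x (fun y s => y i - q s i) := by
    intro i
    have h := (Gd.ofX (g := g) (W := W) (coord_smooth (x := x) i)).add hRUL hreg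
      (Gd.ofS hRUL hreg hW (hq i).neg)
    simpa only [sub_eq_add_neg] using h
  have h2 : ∀ i j : Fin 3,
      Gd g W x (fun y s => (g y i j + g (q s) i j) * (y i - q s i) * (y j - q s j)) := by
    intro i j
    exact (((Gd.ofX (hg i j)).add hRUL hreg (Gd.ofS hRUL hreg hW (hgq i j))).mul hALG hRUL hreg
      (h1 i)).mul hALG hRUL hreg (h1 j)
  have h3 := (Gd.ofX (g := g) (W := W) (x := x) (contDiffAt_const (c := (1 / 2 : ℝ)))).mul
    hALG hRUL hreg (Gd.sum3 hRUL hreg fun i => Gd.sum3 hRUL hreg fun j => h2 i j)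
  exact h3

end Good

/-! ## The function `q` -/

theorem qf_symm (g : TensorField) (x y : E3) : qf g x y = qf g y x := by
  unfold qf
  congr 1
  refine Finset.sum_congr rfl fun i _ => Finset.sum_congr rfl fun j _ => ?_
  ring

theorem fderiv_sum (f : E3 → ℝ) (z v : E3) : fderiv ℝ f z v = ∑ i, v i * pd i f z := by
  have h : v = ∑ i, v i • (EuclideanSpace.single i (1 : ℝ) : E3) := by
    ext j
    simp only [Fin.sum_univ_three]
    fin_cases j <;> simp
  conv_lhs => rw [h]
  rw [map_sum]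
  refine Finset.sum_congr rfl fun i _ => ?_
  rw [map_smul]
  rfl

theorem deriv_qf {g : TensorField} {x : E3} {q : ℝ → E3} {s : ℝ} (hq : DifferentiableAt ℝ q s)
    (hf : DifferentiableAt ℝ (fun z => qf g z x) (q s)) :
    deriv (fun s => qf g x (q s)) s = ∑ i, (deriv q s) i * pd i (fun z => qf g z x) (q s) := by
  have e : (fun s => qf g x (q s)) = (fun z => qf g z x) ∘ q := by
    funext t
    exact qf_symm g x (q t)
  rw [e, (hf.hasFDerivAt.comp_hasDerivAt s hq.hasDerivAt).deriv, fderiv_sum]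

theorem qf_smooth {g : TensorField} {x z : E3}
    (hg : ∀ i j, ContDiffAt ℝ ∞ (fun y => g y i j) z) :
    ContDiffAt ℝ ∞ (fun y => GB.qf g y x) z := by
  unfold GB.qf
  refine contDiffAt_const.mul (ContDiffAt.sum fun i _ => ContDiffAt.sum fun j _ => ?_)
  exact (((hg i j).add contDiffAt_const).mul ((coord_smooth i).sub contDiffAt_const)).mul
    ((coord_smooth j).sub contDiffAt_const)

/-! ## Compactness -/

theorem bd_smooth {K : Set E3} (hK : IsCompact K) {f : E3 → ℝ}
    (h : ∀ x ∈ K, ContDiffAt ℝ ∞ f x) : ∃ M, 0 ≤ M ∧ ∀ x ∈ K, |f x| ≤ M := by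
  obtain ⟨M, hM⟩ := hK.exists_bound_of_continuousOn (f := f)
    fun x hx => (h x hx).continuousAt.continuousWithinAt
  refine ⟨max M 0, le_max_right _ _, fun x hx => ?_⟩
  exact (hM x hx).trans (le_max_left _ _)

theorem bd_smooth3 {K : Set E3} (hK : IsCompact K) {f : Fin 3 → E3 → ℝ}
    (h : ∀ i, ∀ x ∈ K, ContDiffAt ℝ ∞ (f i) x) :
    ∃ M, 0 ≤ M ∧ ∀ i, ∀ x ∈ K, |f i x| ≤ M := by
  obtain ⟨M0, h0, h0'⟩ := bd_smooth hK (h 0)
  obtain ⟨M1, h1, h1'⟩ := bd_smooth hK (h 1)
  obtain ⟨M2, h2, h2'⟩ := bd_smooth hK (h 2)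
  refine ⟨M0 + M1 + M2, by positivity, ?_⟩
  intro i x hx
  fin_cases i
  · have := h0' x hx
    show |f 0 x| ≤ _
    linarith
  · have := h1' x hx
    show |f 1 x| ≤ _
    linarith
  · have := h2' x hx
    show |f 2 x| ≤ _
    linarith

theorem ev_pos {A : Bil} (hA : A.PosDef) {v : Cov} (hv : v ≠ 0) : 0 < ev A v v := by
  have h := hA.dotProduct_mulVec_pos hv
  have e : star v ⬝ᵥ A.mulVec v = ev A v v := by
    unfold ev
    simp only [dotProduct, Matrix.mulVec, star_trivial, Fin.sum_univ_three]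
    ring
  rwa [e] at h

theorem exists_lam {K : Set E3} (hK : IsCompact K) {g : TensorField}
    (hg : ∀ i j, ContinuousOn (fun x => g x i j) K) (hpos : ∀ x ∈ K, (g x).PosDef) :
    ∃ lam : ℝ, 0 < lam ∧ ∀ x ∈ K, ∀ v : Cov, lam * ∑ i, v i ^ 2 ≤ ev (g x) v v := by
  rcases K.eq_empty_or_nonempty with he | hne
  · exact ⟨1, one_pos, fun x hx => by rw [he] at hx; exact absurd hx (Set.notMem_empty x)⟩
  set S : Set Cov := {v | ∑ i, v i ^ 2 = 1} with hS
  have hcS : IsCompact S := by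
    apply Metric.isCompact_of_isClosed_isBounded
    · exact isClosed_eq (by fun_prop) continuous_const
    · refine (Metric.isBounded_closedBall (x := (0 : Cov)) (r := 1)).subset ?_
      intro v hv
      rw [mem_closedBall_zero_iff, pi_norm_le_iff_of_nonneg zero_le_one]
      intro i
      have h1 : v i ^ 2 ≤ ∑ j, v j ^ 2 :=
        Finset.single_le_sum (f := fun j => v j ^ 2) (fun j _ => sq_nonneg _) (Finset.mem_univ i)
      have h2 : ∑ j, v j ^ 2 = 1 := hv
      rw [Real.norm_eq_abs, abs_le_one_iff_mul_self_le_one]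
      nlinarith
  have hneS : S.Nonempty := by
    refine ⟨fun i => if i = 0 then 1 else 0, ?_⟩
    show ∑ i : Fin 3, (if i = 0 then (1 : ℝ) else 0) ^ 2 = 1
    simp
  have hcont : ContinuousOn (fun q : E3 × Cov => ev (g q.1) q.2 q.2) (K ×ˢ S) := by
    unfold ev
    refine continuousOn_finsetSum _ fun i _ => continuousOn_finsetSum _ fun j _ => ?_
    have h1 : ContinuousOn (fun q : E3 × Cov => g q.1 i j) (K ×ˢ S) :=
      (hg i j).comp continuousOn_fst fun q hq => hq.1
    have h2 : ∀ i : Fin 3, ContinuousOn (fun q : E3 × Cov => q.2 i) (K ×ˢ S) := fun i =>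
      ((continuous_apply i).comp continuous_snd).continuousOn
    exact (h1.mul (h2 i)).mul (h2 j)
  obtain ⟨q0, hq0, hmin⟩ := (hK.prod hcS).exists_isMinOn (hne.prod hneS) hcont
  have hq0v : q0.2 ≠ 0 := by
    intro h0
    have h1 : ∑ i, q0.2 i ^ 2 = 1 := hq0.2
    rw [h0] at h1
    simp at h1
  refine ⟨ev (g q0.1) q0.2 q0.2, ev_pos (hpos _ hq0.1) hq0v, ?_⟩
  intro x hx v
  set t := ∑ i, v i ^ 2 with ht
  have ht0 : 0 ≤ t := Finset.sum_nonneg fun i _ => sq_nonneg _
  rcases ht0.eq_or_lt with h0 | h0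
  · have hv : v = 0 := by
      funext i
      have h1 : v i ^ 2 ≤ ∑ j, v j ^ 2 :=
        Finset.single_le_sum (f := fun j => v j ^ 2) (fun j _ => sq_nonneg _) (Finset.mem_univ i)
      rw [← ht, ← h0] at h1
      exact pow_eq_zero_iff (two_ne_zero) |>.1 (le_antisymm h1 (sq_nonneg _))
    rw [← h0, hv]
    unfold ev
    simp
  · have hs : 0 < Real.sqrt t := Real.sqrt_pos.2 h0
    have hst : Real.sqrt t ^ 2 = t := Real.sq_sqrt ht0
    have hu : (fun i => v i / Real.sqrt t) ∈ S := by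
      show ∑ i, (v i / Real.sqrt t) ^ 2 = 1
      simp only [div_pow, hst]
      rw [← Finset.sum_div, ← ht, div_self h0.ne']
    have h1 := hmin (show (x, fun i => v i / Real.sqrt t) ∈ K ×ˢ S from ⟨hx, hu⟩)
    have h2 : ev (g x) (fun i => v i / Real.sqrt t) (fun i => v i / Real.sqrt t) =
        ev (g x) v v / t := by
      unfold ev
      rw [Finset.sum_div]
      refine Finset.sum_congr rfl fun i _ => ?_
      rw [Finset.sum_div]
      refine Finset.sum_congr rfl fun j _ => ?_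
      have h4 : v i / Real.sqrt t * (v j / Real.sqrt t) = v i * v j / t := by
        rw [div_mul_div_comm, ← sq, hst]
      rw [mul_assoc, h4]
      ring
    have h3 : ev (g q0.1) q0.2 q0.2 ≤ ev (g x) v v / t := by
      rw [← h2]
      exact h1
    rwa [le_div_iff₀ h0] at h3

/-! ## The curve of poles -/

/-- The curve of poles. -/
noncomputable def cur (Φ : E3 → E3) (z0 : E3) (τ s : ℝ) : E3 := Φ (pt (z0 0 + τ) (z0 1) s)

theorem pt_smooth (a b : ℝ) : ContDiff ℝ ∞ (fun s => pt a b s) := by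
  rw [contDiff_euclidean]
  intro i
  unfold pt
  fin_cases i
  · exact contDiff_const
  · exact contDiff_const
  · exact contDiff_id

theorem pt_zero (a b s : ℝ) : pt a b s 0 = a := rfl
theorem pt_one (a b s : ℝ) : pt a b s 1 = b := rfl
theorem pt_two (a b s : ℝ) : pt a b s 2 = s := rfl

/-! ## Estimates -/

theorem sum_abs_le {T : Cov} {lam L : ℝ} (hlam : 0 < lam) (h : lam * ∑ i, T i ^ 2 ≤ L) :
    ∑ i, |T i| ≤ 3 * (Real.sqrt L / Real.sqrt lam) := by
  have h1 : ∀ i, |T i| ≤ Real.sqrt L / Real.sqrt lam := by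
    intro i
    rw [← Real.sqrt_div' _ hlam.le]
    apply Real.abs_le_sqrt
    rw [le_div_iff₀ hlam]
    have h2 : T i ^ 2 ≤ ∑ j, T j ^ 2 :=
      Finset.single_le_sum (f := fun j => T j ^ 2) (fun j _ => sq_nonneg _) (Finset.mem_univ i)
    nlinarith
  rw [Fin.sum_univ_three]
  linarith [h1 0, h1 1, h1 2]

theorem quad_bound {E : Fin 3 → Fin 3 → ℝ} {δ : ℝ} (h : ∀ i j, |E i j| ≤ δ) (T T' : Cov) :
    |∑ i, ∑ j, E i j * T i * T' j| ≤ δ * (∑ i, |T i|) * ∑ j, |T' j| := by
  calc |∑ i, ∑ j, E i j * T i * T' j| ≤ ∑ i, |∑ j, E i j * T i * T' j| :=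
        Finset.abs_sum_le_sum_abs _ _
    _ ≤ ∑ i, ∑ j, |E i j * T i * T' j| :=
        Finset.sum_le_sum fun i _ => Finset.abs_sum_le_sum_abs _ _
    _ ≤ ∑ i, ∑ j, δ * |T i| * |T' j| := by
        refine Finset.sum_le_sum fun i _ => Finset.sum_le_sum fun j _ => ?_
        rw [abs_mul, abs_mul]
        exact mul_le_mul_of_nonneg_right
          (mul_le_mul_of_nonneg_right (h i j) (abs_nonneg _)) (abs_nonneg _)
    _ = δ * (∑ i, |T i|) * ∑ j, |T' j| := by
        simp only [Fin.sum_univ_three]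
        ring

/-- The projected vectors are tangent. -/
theorem prv_tan {g : TensorField} {x : E3} {p : Cov}
    (hs : ∀ i j, prj g x p i j = prj g x p j i) (h0 : ∀ i, ∑ j, prj g x p i j * p j = 0)
    (A : Cov) : ∑ i, prv g x p A i * p i = 0 := by
  unfold prv
  have h1 := h0 0
  have h2 := h0 1
  have h3 := h0 2
  have e1 := hs 0 1
  have e2 := hs 0 2
  have e3 := hs 1 2
  simp only [Fin.sum_univ_three] at h1 h2 h3 ⊢
  rw [e1, e2] at h1
  rw [e3] at h2
  rw [e1, e2, e3]
  linear_combination A 0 * h1 + A 1 * h2 + A 2 * h3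

/-- The metric on projected vectors. -/
theorem prv_met {g : TensorField} {x : E3} {p : Cov}
    (hs : ∀ i j, prj g x p i j = prj g x p j i)
    (hP : ∀ i l, ∑ j, ∑ k, prj g x p i j * g x j k * prj g x p k l = prj g x p i l)
    (hl : ∀ A B : Cov, lip g x p A B = ∑ i, ∑ j, prj g x p i j * A i * B j) (A B : Cov) :
    ∑ i, ∑ j, g x i j * prv g x p A i * prv g x p B j = lip g x p A B := by
  rw [hl]
  have h1 : ∀ i l, prj g x p i l = ∑ j, ∑ k, prj g x p j i * g x j k * prj g x p k l := by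
    intro i l
    rw [← hP i l]
    refine Finset.sum_congr rfl fun j _ => Finset.sum_congr rfl fun k _ => ?_
    rw [hs i j]
  have h2 : ∑ i, ∑ l, prj g x p i l * A i * B l =
      ∑ i, ∑ l, (∑ j, ∑ k, prj g x p j i * g x j k * prj g x p k l) * A i * B l := by
    refine Finset.sum_congr rfl fun i _ => Finset.sum_congr rfl fun l _ => ?_
    rw [← h1 i l]
  rw [h2]
  unfold prv
  simp only [Fin.sum_univ_three]
  ring

end POLE

open POLE in
/-- (POLE) Estimates of the pole functions. -/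
theorem POLE (hALG : Stmt_ALG) (_hSMO : Stmt_SMO) (hRUL : Stmt_RUL) (hCHX : Stmt_CHX)
    (hQ : Stmt_Q) : Stmt_POLE := by
  intro V a b g W hF Φ z0 r e hC τ hτ
  obtain ⟨_, _, hKc, hKV, _, _, _, _, c2, C2, hc2, hC2, _, hbl⟩ := hCHX V a b g W hF Φ z0 r e hC
  obtain ⟨N, hNo, hbN, hΦ, _, _, _, hWΦ⟩ := hC.nbhd
  obtain ⟨c1, C1, hc1, hC1, hq⟩ := hQ V a b g W hF (Φ '' box z0 r e) hKc hKV
  have hr := hC.r_pos
  set K := Φ '' box z0 r e with hK
  have hregK : ∀ x ∈ K, Reg g W x := fun x hx => hF.reg (hKV hx)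
  have hgK : ∀ i j, ∀ x ∈ K, ContDiffAt ℝ ∞ (fun y => g y i j) x := fun i j x hx =>
    (hF.metric.smooth i j x (hKV hx)).contDiffAt (hF.isOpen.mem_nhds (hKV hx))
  have hWK : ∀ x ∈ K, ContDiffAt ℝ ∞ W x := fun x hx => hF.contDiffAt (hKV hx)
  obtain ⟨M1, hM1, hM1'⟩ := bd_smooth3 hKc (f := fun i => pd i W)
    fun i x hx => pd_smooth (hWK x hx) i
  obtain ⟨M2, hM2, hM2'⟩ : ∃ M, 0 ≤ M ∧ ∀ i j, ∀ x ∈ K, |hess2 W x i j| ≤ M := by
    have h1 : ∀ j : Fin 3, ∃ M, 0 ≤ M ∧ ∀ i, ∀ x ∈ K, |pd i (pd j W) x| ≤ M := fun j =>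
      bd_smooth3 hKc (f := fun i => pd i (pd j W))
        fun i x hx => pd_smooth (pd_smooth (hWK x hx) j) i
    choose M hM hM' using h1
    refine ⟨∑ j, M j, Finset.sum_nonneg fun j _ => hM j, ?_⟩
    intro i j x hx
    exact (hM' j i x hx).trans
      (Finset.single_le_sum (f := M) (fun j _ => hM j) (Finset.mem_univ j))
  obtain ⟨lam, hlam, hlam'⟩ := exists_lam hKc (g := g)
    (fun i j x hx => (hgK i j x hx).continuousAt.continuousWithinAt)
    fun x hx => hF.metric.posDef x (hKV hx)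
  -- the curve of poles
  have hpt : ∀ s, |s - z0 2| ≤ e → pt (z0 0 + τ) (z0 1) s ∈ box z0 r e := by
    intro s hs
    refine ⟨?_, ?_, ?_⟩
    · rw [pt_zero]
      have : z0 0 + τ - z0 0 = τ := by ring
      rw [this]
      exact hτ.le
    · rw [pt_one, sub_self, abs_zero]
      exact hr.le
    · rw [pt_two]
      exact hs
  have hcS : ∀ s, |s - z0 2| ≤ e → ContDiffAt ℝ ∞ (cur Φ z0 τ) s := by
    intro s hs
    have h1 : ContDiffAt ℝ ∞ Φ (pt (z0 0 + τ) (z0 1) s) :=
      (hΦ _ (hbN (hpt s hs))).contDiffAt (hNo.mem_nhds (hbN (hpt s hs)))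
    exact h1.comp s (pt_smooth _ _).contDiffAt
  have hcK : ∀ s, |s - z0 2| ≤ e → cur Φ z0 τ s ∈ K := fun s hs => ⟨_, hpt s hs, rfl⟩
  have hcW : ∀ s, |s - z0 2| ≤ e → W (cur Φ z0 τ s) = s := by
    intro s hs
    have h1 := hWΦ _ (hbN (hpt s hs))
    rwa [pt_two] at h1
  obtain ⟨M3, hM3, hM3'⟩ : ∃ M, 0 ≤ M ∧ ∀ s, |s - z0 2| ≤ e → ‖deriv (cur Φ z0 τ) s‖ ≤ M := by
    have h1 : ContinuousOn (deriv (cur Φ z0 τ)) (Set.Icc (z0 2 - e) (z0 2 + e)) := by
      intro s hs
      have hs' : |s - z0 2| ≤ e := by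
        rw [abs_le]
        constructor <;> linarith [hs.1, hs.2]
      have h2 : ContDiffAt ℝ ∞ (fun s => fderiv ℝ (cur Φ z0 τ) s 1) s :=
        ((hcS s hs').fderiv_right (m := ∞) (by simp)).clm_apply contDiffAt_const
      exact (ContDiffAt.continuousAt h2).continuousWithinAt
    obtain ⟨M, hM⟩ := isCompact_Icc.exists_bound_of_continuousOn h1
    refine ⟨max M 0, le_max_right _ _, fun s hs => ?_⟩
    rw [abs_le] at hs
    exact (hM s ⟨by linarith [hs.1], by linarith [hs.2]⟩).trans (le_max_left _ _)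
  have hrp : ∀ x, rp g W Φ z0 τ x = qf g x (cur Φ z0 τ (W x)) := fun _ => rfl
  have hWe : ∀ x ∈ K, |W x - z0 2| ≤ e := by
    rintro x ⟨z, hz, rfl⟩
    rw [hWΦ z (hbN hz)]
    exact hz.2.2
  have hGd : ∀ x ∈ K, Gd g W x (fun y s => qf g y (cur Φ z0 τ s)) := by
    intro x hx
    have hs := hWe x hx
    refine Gd.qf hALG hRUL (hregK x hx) (hWK x hx) (fun i j => hgK i j x hx)
      (fun i => contDiffAt_euclidean.1 (hcS _ hs) i) fun i j => ?_
    exact (hgK i j _ (hcK _ hs)).comp (W x) (hcS _ hs)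
  have hobox : Φ '' obox z0 r e ⊆ K := by
    rintro x ⟨z, hz, rfl⟩
    exact ⟨z, ⟨hz.1.le, hz.2.1.le, hz.2.2.le⟩, rfl⟩
  refine ⟨?_, ?_⟩
  · intro x hx
    exact (hGd x (hobox hx)).sm1.contDiffWithinAt
  -- the constants
  have hsc1 : 0 < Real.sqrt c1 := Real.sqrt_pos.2 hc1
  have hslam : 0 < Real.sqrt lam := Real.sqrt_pos.2 hlam
  set G1 := C1 * C2 ^ 2 with hG1
  set G2 := C1 / c1 ^ 2 with hG2
  set G3 := C1 / c1 with hG3
  set G4 := (C1 + 3 * M3 * C1 * M1) / Real.sqrt c1 with hG4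
  set G5 := (C1 + 3 * M3 * C1 * M2) / Real.sqrt c1 * (9 / lam) with hG5
  have p1 : 0 < G1 := by positivity
  have p2 : 0 < G2 := by positivity
  have p3 : 0 < G3 := by positivity
  have p4 : 0 < G4 := by positivity
  have p5 : 0 < G5 := by positivity
  refine ⟨c1 * c2 ^ 2, G1 + G2 + G3 + G4 + G5, by positivity, by positivity, ?_, ?_⟩
  · intro z hz
    have hzK : Φ z ∈ K := ⟨z, hz, rfl⟩
    have hs := hWe _ hzK
    have hWz : W (Φ z) = z 2 := hWΦ z (hbN hz)
    have h1 := hq (Φ z) hzK _ (hcK _ hs)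
    have h2 := hbl z hz _ (hpt _ hs)
    have hd : dist z (pt (z0 0 + τ) (z0 1) (W (Φ z))) ^ 2 =
        (z 0 - (z0 0 + τ)) ^ 2 + (z 1 - z0 1) ^ 2 := by
      rw [EuclideanSpace.dist_eq, Real.sq_sqrt (Finset.sum_nonneg fun i _ => sq_nonneg _),
        Fin.sum_univ_three, pt_zero, pt_one, pt_two, hWz]
      simp only [Real.dist_eq, sq_abs, sub_self]
      ring
    have hd0 : 0 ≤ dist z (pt (z0 0 + τ) (z0 1) (W (Φ z))) := dist_nonneg
    have hcur : cur Φ z0 τ (W (Φ z)) = Φ (pt (z0 0 + τ) (z0 1) (W (Φ z))) := rfl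
    rw [hrp, hcur] at *
    rw [← hd]
    set D := dist z (pt (z0 0 + τ) (z0 1) (W (Φ z))) with hD
    set D' := dist (Φ z) (Φ (pt (z0 0 + τ) (z0 1) (W (Φ z)))) with hD'
    have hD'0 : 0 ≤ D' := dist_nonneg
    constructor
    · calc c1 * c2 ^ 2 * D ^ 2 = c1 * (c2 * D) ^ 2 := by ring
        _ ≤ c1 * D' ^ 2 := by
          apply mul_le_mul_of_nonneg_left _ hc1.le
          exact pow_le_pow_left₀ (by positivity) h2.1 2
        _ ≤ _ := h1.1
    · calc qf g (Φ z) (Φ (pt (z0 0 + τ) (z0 1) (W (Φ z)))) ≤ C1 * D' ^ 2 := h1.2.1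
        _ ≤ C1 * (C2 * D) ^ 2 := by
          apply mul_le_mul_of_nonneg_left _ hC1.le
          exact pow_le_pow_left₀ hD'0 h2.2 2
        _ = G1 * D ^ 2 := by rw [hG1]; ring
        _ ≤ (G1 + G2 + G3 + G4 + G5) * D ^ 2 := by
          apply mul_le_mul_of_nonneg_right _ (sq_nonneg _)
          linarith
  · intro x hx
    have hxK := hobox hx
    have hsx := hWe x hxK
    have hyK := hcK _ hsx
    have hG := hGd x hxK
    obtain ⟨q1, q2, q3, q4, q5, q6⟩ := hq x hxK _ hyK
    rw [hcW _ hsx, sub_self] at q3 q4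
    rw [← hrp] at q1 q2 q3
    set y := cur Φ z0 τ (W x) with hy
    set d := dist x y with hd
    set q := rp g W Φ z0 τ x with hqd
    have hd0 : 0 ≤ d := dist_nonneg
    have hq0 : 0 ≤ q := le_trans (by positivity) q1
    have hd2 : d ^ 2 ≤ q / c1 := by
      rw [le_div_iff₀ hc1]
      linarith
    have hd1 : d ≤ Real.sqrt q / Real.sqrt c1 := by
      rw [← Real.sqrt_div' _ hc1.le]
      exact Real.le_sqrt_of_sq_le hd2
    have hd4 : d ^ 4 ≤ q ^ 2 / c1 ^ 2 := by
      have h1 : d ^ 4 = (d ^ 2) ^ 2 := by ring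
      rw [h1, ← div_pow]
      exact pow_le_pow_left₀ (sq_nonneg _) hd2 2
    -- the derivative in the level
    set D := deriv (fun s => qf g x (cur Φ z0 τ s)) (W x) with hD
    have hDb : |D| ≤ 3 * M3 * C1 * d := by
      have h1 : D = ∑ i, (deriv (cur Φ z0 τ) (W x)) i * pd i (fun z => qf g z x) y :=
        deriv_qf ((hcS _ hsx).differentiableAt (by simp))
          (diff (qf_smooth fun i j => hgK i j _ hyK))
      have h2 : ∀ i, |(deriv (cur Φ z0 τ) (W x)) i * pd i (fun z => qf g z x) y| ≤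
          M3 * (C1 * d) := by
        intro i
        rw [abs_mul]
        have h3 : |(deriv (cur Φ z0 τ) (W x)) i| ≤ M3 :=
          (PiLp.norm_apply_le (deriv (cur Φ z0 τ) (W x)) i).trans (hM3' _ hsx)
        have h4 : |pd i (fun z => qf g z x) y| ≤ C1 * d := by
          have h5 := (hq y hyK x hxK).2.2.2.2.1 i
          rwa [dist_comm] at h5
        exact mul_le_mul h3 h4 (abs_nonneg _) hM3
      rw [h1]
      refine (Finset.abs_sum_le_sum_abs _ _).trans ?_
      rw [Fin.sum_univ_three]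
      linarith [h2 0, h2 1, h2 2]
    have hsq : 0 ≤ Real.sqrt q := Real.sqrt_nonneg _
    obtain ⟨_, _, _, _, sy, zr, pgp, _, le, _, _, lnn, _⟩ :=
      hALG g x (grad W x) (hF.metric.posDef x (hKV hxK)) (hF.regular x (hKV hxK))
    refine ⟨?_, ?_, ?_, ?_⟩
    · have h1 : lin g W (rp g W Φ z0 τ) (rp g W Φ z0 τ) x =
          lin g W (fun z => qf g z y) (fun z => qf g z y) x := by
        have e1 := hG.linE hALG hRUL (hregK x hxK) (rp g W Φ z0 τ)
        have e2 := hG.linE hALG hRUL (hregK x hxK) (fun z => qf g z y)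
        have e3 := lin_comm hRUL (hregK x hxK) (fun z => qf g z y) (rp g W Φ z0 τ)
        exact (e1.trans e3).trans e2
      rw [h1]
      refine q3.trans ?_
      have h2 : C1 * (d ^ 4 + 0 ^ 2) ≤ G2 * q ^ 2 := by
        have h3 := mul_le_mul_of_nonneg_left hd4 hC1.le
        have h4 : C1 * (q ^ 2 / c1 ^ 2) = G2 * q ^ 2 := by rw [hG2]; ring
        linarith
      refine h2.trans (mul_le_mul_of_nonneg_right ?_ (sq_nonneg _))
      linarith
    · have h1 : lap g W (rp g W Φ z0 τ) x = lap g W (fun z => qf g z y) x := hG.lapE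
      rw [h1]
      refine q4.trans ?_
      rw [abs_zero, add_zero]
      have h2 : C1 * d ^ 2 ≤ G3 * q := by
        have h3 := mul_le_mul_of_nonneg_left hd2 hC1.le
        have h4 : C1 * (q / c1) = G3 * q := by rw [hG3]; ring
        linarith
      refine h2.trans (mul_le_mul_of_nonneg_right ?_ hq0)
      linarith
    · intro i
      have h1 : pd i (rp g W Φ z0 τ) x = pd i (fun z => qf g z y) x + D * pd i W x := hG.pdE i
      rw [h1]
      have h2 := q5 i
      have h3 : |D * pd i W x| ≤ 3 * M3 * C1 * d * M1 := by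
        rw [abs_mul]
        exact mul_le_mul hDb (hM1' i x hxK) (abs_nonneg _) (by positivity)
      have h4 : |pd i (fun z => qf g z y) x + D * pd i W x| ≤
          (C1 + 3 * M3 * C1 * M1) * d := by
        refine (abs_add_le _ _).trans ?_
        linarith
      refine h4.trans ?_
      have h5 : (C1 + 3 * M3 * C1 * M1) * d ≤ G4 * Real.sqrt q := by
        have h6 := mul_le_mul_of_nonneg_left hd1
          (show 0 ≤ C1 + 3 * M3 * C1 * M1 by positivity)
        have h7 : (C1 + 3 * M3 * C1 * M1) * (Real.sqrt q / Real.sqrt c1) =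
            G4 * Real.sqrt q := by rw [hG4]; ring
        linarith
      refine h5.trans (mul_le_mul_of_nonneg_right ?_ hsq)
      linarith
    · intro A B
      set T := prv g x (grad W x) A with hT
      set T' := prv g x (grad W x) B with hT'
      have t1 : ∑ i, T i * pd i W x = 0 := prv_tan sy zr A
      have t2 : ∑ i, T' i * pd i W x = 0 := prv_tan sy zr B
      have h1 : ∑ i, ∑ j, hess2 (rp g W Φ z0 τ) x i j * T i * T' j =
          hs (fun z => qf g z y) x T T' + D * hs W x T T' := hG.hsE T T' t1 t2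
      have h2 : ∑ i, ∑ j, g x i j * T i * T' j = lip g x (grad W x) A B :=
        prv_met sy pgp le A B
      have h3 : hs (fun z => qf g z y) x T T' + D * hs W x T T' -
          2 * lip g x (grad W x) A B =
          ∑ i, ∑ j, (hess2 (fun z => qf g z y) x i j - 2 * g x i j + D * hess2 W x i j)
            * T i * T' j := by
        rw [← h2]
        unfold hs
        simp only [Fin.sum_univ_three]
        ring
      rw [h1, h3]
      set δ := (C1 + 3 * M3 * C1 * M2) * d with hδ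
      have h4 : ∀ i j, |hess2 (fun z => qf g z y) x i j - 2 * g x i j + D * hess2 W x i j| ≤
          δ := by
        intro i j
        refine (abs_add_le _ _).trans ?_
        have h5 : |hess2 (fun z => qf g z y) x i j - 2 * g x i j| ≤ C1 * d := q6 i j
        have h6 : |D * hess2 W x i j| ≤ 3 * M3 * C1 * d * M2 := by
          rw [abs_mul]
          exact mul_le_mul hDb (hM2' i j x hxK) (abs_nonneg _) (by positivity)
        rw [hδ]
        linarith
      refine (quad_bound h4 T T').trans ?_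
      have hTA : ∑ i, |T i| ≤ 3 * (Real.sqrt (lip g x (grad W x) A A) / Real.sqrt lam) := by
        apply sum_abs_le hlam
        rw [← prv_met sy pgp le A A]
        exact hlam' x hxK T
      have hTB : ∑ i, |T' i| ≤ 3 * (Real.sqrt (lip g x (grad W x) B B) / Real.sqrt lam) := by
        apply sum_abs_le hlam
        rw [← prv_met sy pgp le B B]
        exact hlam' x hxK T'
      set LA := Real.sqrt (lip g x (grad W x) A A) with hLA
      set LB := Real.sqrt (lip g x (grad W x) B B) with hLB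
      have hLA0 : 0 ≤ LA := Real.sqrt_nonneg _
      have hLB0 : 0 ≤ LB := Real.sqrt_nonneg _
      have hδ1 : δ ≤ (C1 + 3 * M3 * C1 * M2) * (Real.sqrt q / Real.sqrt c1) :=
        mul_le_mul_of_nonneg_left hd1 (by positivity)
      have hδ0 : 0 ≤ δ := by positivity
      have hsl : Real.sqrt lam * Real.sqrt lam = lam := Real.mul_self_sqrt hlam.le
      calc δ * (∑ i, |T i|) * ∑ j, |T' j|
          ≤ (C1 + 3 * M3 * C1 * M2) * (Real.sqrt q / Real.sqrt c1) *
              (3 * (LA / Real.sqrt lam)) * (3 * (LB / Real.sqrt lam)) := by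
            refine mul_le_mul (mul_le_mul hδ1 hTA ?_ (by positivity)) hTB ?_ (by positivity)
            · exact Finset.sum_nonneg fun i _ => abs_nonneg _
            · exact Finset.sum_nonneg fun i _ => abs_nonneg _
        _ = G5 * Real.sqrt q * LA * LB := by
            rw [hG5]
            have h7 : (9 : ℝ) / lam = 3 / Real.sqrt lam * (3 / Real.sqrt lam) := by
              rw [div_mul_div_comm, hsl]
              norm_num
            rw [h7]
            ring
        _ ≤ (G1 + G2 + G3 + G4 + G5) * Real.sqrt q * LA * LB := by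
            refine mul_le_mul_of_nonneg_right (mul_le_mul_of_nonneg_right
              (mul_le_mul_of_nonneg_right ?_ hsq) hLA0) hLB0
            linarith

end Pool.Agent.PFlow.GB
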