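import Pool.Agent.PFlow.G.Base

/-!
# The integrated inequality with two poles
-/

open MeasureTheory Filter Topology
open scoped ContDiff

namespace Pool.Agent.PFlow.GB

open Pool.Agent.PenroseSph Pool.Agent.PFlow

namespace PUNCTH

/-! ### The leafwise objects depend only on germs -/

section Germ

variable {g : TensorField} {W : E3 → ℝ} {x : E3}

lemma pd_congr {f h : E3 → ℝ} (H : f =ᶠ[𝓝 x] h) (i : Fin 3) : pd i f x = pd i h x := by
  unfold pd
  rw [H.fderiv_eq]

lemma grad_congr {f h : E3 → ℝ} (H : f =ᶠ[𝓝 x] h) : grad f x = grad h x :=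
  funext fun i => pd_congr H i

lemma lin_congr {f f' h h' : E3 → ℝ} (H : f =ᶠ[𝓝 x] f') (H' : h =ᶠ[𝓝 x] h') :
    lin g W f h x = lin g W f' h' x := by
  unfold lin
  rw [grad_congr H, grad_congr H']

lemma lin_evt {f f' h h' : E3 → ℝ} (H : f =ᶠ[𝓝 x] f') (H' : h =ᶠ[𝓝 x] h') :
    lin g W f h =ᶠ[𝓝 x] lin g W f' h' := by
  filter_upwards [H.eventuallyEq_nhds, H'.eventuallyEq_nhds] with y hy hy'
  exact lin_congr hy hy'

lemma lgrad_congr {f f' : E3 → ℝ} (H : f =ᶠ[𝓝 x] f') : lgrad g W f x = lgrad g W f' x := by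
  funext i
  unfold lgrad
  rw [grad_congr H]

lemma lgrad_evt {f f' : E3 → ℝ} (H : f =ᶠ[𝓝 x] f') :
    lgrad g W f =ᶠ[𝓝 x] lgrad g W f' := by
  filter_upwards [H.eventuallyEq_nhds] with y hy
  exact lgrad_congr hy

lemma ldiv_congr {Y Y' : E3 → Cov} (H : Y =ᶠ[𝓝 x] Y') : ldiv g W Y x = ldiv g W Y' x := by
  unfold ldiv
  congr 1
  refine Finset.sum_congr rfl fun i _ => ?_
  refine pd_congr ?_ i
  filter_upwards [H] with y hy
  rw [hy]

lemma lap_congr {f f' : E3 → ℝ} (H : f =ᶠ[𝓝 x] f') : lap g W f x = lap g W f' x :=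
  ldiv_congr (lgrad_evt H)

lemma Xf_congr {φ φ' u : E3 → ℝ} {δ : ℝ} (H : φ =ᶠ[𝓝 x] φ') :
    Xf g W φ u δ x = Xf g W φ' u δ x := by
  funext i
  unfold Xf
  rw [lgrad_congr (lin_evt H H), lap_congr H, lgrad_congr H, lin_congr H H]

lemma pd_contDiffAt {f : E3 → ℝ} (hf : ContDiffAt ℝ ∞ f x) (i : Fin 3) :
    ContDiffAt ℝ ∞ (pd i f) x :=
  (hf.fderiv_right (m := ∞) (by simp)).clm_apply contDiffAt_const

end Germ

/-! ### Integrability -/

section Integ

variable {V : Set E3} {a b : ℝ} {g : TensorField} {W : E3 → ℝ}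

lemma integrableOn_bdd {U O : Set E3} (hO : IsOpen O) (hOU : O ⊆ U)
    (hU : volume U < ⊤) (hnull : volume (U \ O) = 0) {G : E3 → ℝ} (hG : ContinuousOn G O) {M : ℝ}
    (hM : ∀ x ∈ O, |G x| ≤ M) : IntegrableOn G U := by
  have hae : O =ᵐ[volume] U := by
    refine Filter.EventuallyLE.antisymm ?_ (ae_le_set.mpr hnull)
    exact Filter.Eventually.of_forall fun x hx => hOU hx
  have h1 : IntegrableOn G O := by
    have : IsFiniteMeasure (volume.restrict O) :=
      ⟨by rw [Measure.restrict_apply_univ]; exact lt_of_le_of_lt (measure_mono hOU) hU⟩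
    refine Integrable.of_bound (hG.aestronglyMeasurable hO.measurableSet) M ?_
    refine (ae_restrict_iff' hO.measurableSet).mpr (Eventually.of_forall fun x hx => ?_)
    rw [Real.norm_eq_abs]
    exact hM x hx
  exact h1.congr_set_ae hae.symm

lemma integrableOn_of_continuousOn (hF : Fol V a b g W) {c d : ℝ} (hcd : c < d) (hc : a < c)
    (hd : d < b) {ψ : ℝ → ℝ} (hψ : Continuous ψ) (hψs : tsupport ψ ⊆ Set.Ioo c d)
    {G : E3 → ℝ} (hG : ContinuousOn G (slab V W c d)) (hdens : ContinuousOn (dens g W) V) :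
    IntegrableOn (fun x => ψ (W x) * G x * dens g W x) (slab V W c d) := by
  obtain ⟨c', d', hc', hcd', hd', hsup⟩ := exists_Icc_of_tsupport hcd hψs
  have hsub : cslab V W c' d' ⊆ slab V W c d := cslab_subset_slab hc' hd'
  have hK : IsCompact (cslab V W c' d') := hF.proper c' d' (hc.trans hc') (hd'.trans hd)
  have h1 : IntegrableOn (fun x => ψ (W x) * G x * dens g W x) (cslab V W c' d') := by
    refine ContinuousOn.integrableOn_compact hK ?_
    have h2 : ContinuousOn (fun x => ψ (W x)) (cslab V W c' d') :=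
      hψ.comp_continuousOn (hF.continuousOn.mono (cslab_subset _ _))
    exact (h2.mul (hG.mono hsub)).mul (hdens.mono (cslab_subset _ _))
  refine h1.of_forall_sdiff_eq_zero (measurableSet_slab hF c d) ?_
  intro x hx
  have h3 : ψ (W x) = 0 := by
    by_contra hne
    exact hx.2 ⟨hx.1.1, hsup _ hne⟩
  rw [h3, zero_mul, zero_mul]

end Integ

end PUNCTH

open PUNCTH in
theorem PUNCT (hSMO : Stmt_SMO) (hRUL : Stmt_RUL) (hIBP : Stmt_IBP)
    (hXIN : Stmt_XIN) (hCHX : Stmt_CHX) (hPHI0 : Stmt_PHI0)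
    (hCUT : Stmt_CUT) (hFLUX : Stmt_FLUX) : Stmt_PUNCT := by
  intro V a b g W hF Φ z0 r e hCh t1 hSep u u1 hu hu1 δ hδ ψ hψ
  obtain ⟨hc, hd, -⟩ := hCHX V a b g W hF Φ z0 r e hCh
  obtain ⟨hOo, hSn, hphi, hloc, C0, hC0, hrho⟩ := hPHI0 V a b g W hF Φ z0 r e hCh t1 hSep
  obtain ⟨hcut1, hcut2, hcut3, hcut4⟩ := hCUT V a b g W hF Φ z0 r e hCh t1 hSep
  have hr : 0 < r := hCh.r_pos
  have he : 0 < e := hCh.e_pos
  have ht1 : 0 < t1 := hSep.1
  set c : ℝ := z0 2 - e with hcdef
  set d : ℝ := z0 2 + e with hddef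
  have hcd : c < d := by rw [hcdef, hddef]; linarith
  set U : Set E3 := slab V W c d with hU
  set S : Set E3 := sing g W Φ z0 r e with hS
  have hUo : IsOpen U := isOpen_slab hF c d
  have hUm : MeasurableSet U := measurableSet_slab hF c d
  have hUV : U ⊆ V := slab_subset c d
  have hOU : U \ S ⊆ U := Set.sdiff_subset
  have hOV : U \ S ⊆ V := hOU.trans hUV
  have hUvol : volume U < ⊤ := volume_slab_lt_top hF hc hd
  have hnull : volume (U \ (U \ S)) = 0 := by
    refine measure_mono_null ?_ hSn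
    intro x hx
    by_contra h
    exact hx.2 ⟨hx.1, h⟩
  have hreg : ∀ x ∈ V, Reg g W x := fun x hx => hF.reg hx
  set φ : E3 → ℝ := fun y => phi0 g W Φ z0 r e t1 y + u1 y with hφdef
  have hφ : ContDiffOn ℝ ∞ φ (U \ S) := hphi.add hu1.contDiffOn
  obtain ⟨hX1, hX2, hX3⟩ := hXIN V a b g W hF (U \ S) φ u δ hOo hOV hφ hu.contDiffOn hδ
  set X : E3 → Cov := Xf g W φ u δ with hX
  -- the flux at the two poles
  have hflux : ∀ τ σ : ℝ, (τ = r / 2 ∧ σ = -(1 / 2)) ∨ (τ = -(r / 2) ∧ σ = 1 / 2) →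
      ∃ C t2 : ℝ, 0 < C ∧ 0 < t2 ∧ ∀ x ∈ Φ '' obox z0 r e, 0 < rp g W Φ z0 τ x →
        rp g W Φ z0 τ x < t2 →
        |∑ i, pd i (rp g W Φ z0 τ) x * X x i - (-2)| ≤ C * Real.sqrt (rp g W Φ z0 τ x) := by
    intro τ σ hτσ
    have hτr : |τ| < r := by
      rcases hτσ with ⟨h, -⟩ | ⟨h, -⟩
      · rw [h, abs_of_pos (by linarith)]; linarith
      · rw [h, abs_neg, abs_of_pos (by linarith)]; linarith
    have hσ : σ = 1 / 2 ∨ σ = -(1 / 2) := by
      rcases hτσ with ⟨-, h⟩ | ⟨-, h⟩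
      · exact Or.inr h
      · exact Or.inl h
    have hτ : τ = r / 2 ∨ τ = -(r / 2) := by
      rcases hτσ with ⟨h, -⟩ | ⟨h, -⟩
      · exact Or.inl h
      · exact Or.inr h
    obtain ⟨C, t2, hC, ht2, h⟩ := hFLUX V a b g W hF Φ z0 r e hCh τ σ hτr hσ u1 u
      hu1.contDiffOn hu.contDiffOn δ hδ
    refine ⟨C, min t2 (t1 / 2), hC, lt_min ht2 (by linarith), ?_⟩
    intro x hx h0 h1
    have h2 := hloc τ hτ x hx h0 (h1.trans_le (min_le_right _ _))
    have h3 : φ =ᶠ[𝓝 x] fun y => σ * Real.log (rp g W Φ z0 τ y) + u1 y := by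
      filter_upwards [h2] with y hy
      change phi0 g W Φ z0 r e t1 y + u1 y = _
      rw [hy]
      rcases hτσ with ⟨h, h'⟩ | ⟨h, h'⟩
      · rw [if_pos h, h']; ring
      · rw [if_neg (by rw [h]; linarith), h']; ring
    have h4 := h x hx h0 (h1.trans_le (min_le_left _ _))
    rw [sub_neg_eq_add, hX, Xf_congr h3]
    exact h4
  obtain ⟨C1, t2, hC1, ht2, hf1⟩ := hflux (-(r / 2)) (1 / 2) (Or.inr ⟨rfl, rfl⟩)
  obtain ⟨C2, t3, hC2, ht3, hf2⟩ := hflux (r / 2) (-(1 / 2)) (Or.inl ⟨rfl, rfl⟩)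
  have hlim := hcut4 X (-2) (-2) (max C1 C2) (min t2 t3)
    (fun i => (hX1 i).of_le (by exact_mod_cast le_top)) (lt_min ht2 ht3)
    (fun x hx h0 h1 => (hf1 x hx h0 (h1.trans_le (min_le_left _ _))).trans
      (mul_le_mul_of_nonneg_right (le_max_left _ _) (Real.sqrt_nonneg _)))
    (fun x hx h0 h1 => (hf2 x hx h0 (h1.trans_le (min_le_right _ _))).trans
      (mul_le_mul_of_nonneg_right (le_max_right _ _) (Real.sqrt_nonneg _)))
    ψ hψ.smooth hψ.supp
  -- regularity
  have hs := fun x (hx : x ∈ V) => hSMO.2 g W x (hreg x hx)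
  have hR := fun x (hx : x ∈ V) => hRUL g W x (hreg x hx)
  have hcurv : ContinuousOn (curv g W) V := fun x hx =>
    (hs x hx).2.2.2.2.2.2.2.2.2.2.2.1.continuousAt.continuousWithinAt
  have hdensS : ∀ x ∈ V, ContDiffAt ℝ ∞ (dens g W) x := fun x hx =>
    (hs x hx).2.2.2.2.2.2.2.2.1
  have hdensC : ContinuousOn (dens g W) V := fun x hx =>
    (hdensS x hx).continuousAt.continuousWithinAt
  have hdens0 : ∀ x ∈ V, 0 < dens g W x := fun x hx => (hs x hx).2.2.2.1
  have hlin : ∀ x ∈ V, ∀ f h : E3 → ℝ, ContDiffAt ℝ ∞ f x → ContDiffAt ℝ ∞ h x →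
      ContDiffAt ℝ ∞ (lin g W f h) x := fun x hx f h hf hh =>
    ((hs x hx).2.2.2.2.2.2.2.2.2.2.2.2.1 f h hf hh).1
  have hlap : ∀ x ∈ V, ∀ f : E3 → ℝ, ContDiffAt ℝ ∞ f x →
      ContDiffAt ℝ ∞ (lap g W f) x := fun x hx f hf =>
    ((hs x hx).2.2.2.2.2.2.2.2.2.2.2.2.1 f f hf hf).2.1
  have hlapC : ∀ f : E3 → ℝ, ContDiff ℝ ∞ f → ContinuousOn (lap g W f) V := fun f hf x hx =>
    (hlap x hx f hf.contDiffAt).continuousAt.continuousWithinAt
  have hφat : ∀ x ∈ U \ S, ContDiffAt ℝ ∞ φ x := fun x hx => hφ.contDiffAt (hOo.mem_nhds hx)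
  have hXat : ∀ x ∈ U \ S, ∀ i, ContDiffAt ℝ ∞ (fun y => X y i) x := fun x hx i =>
    (hX1 i).contDiffAt (hOo.mem_nhds hx)
  have hlin0 : ∀ x ∈ V, 0 ≤ lin g W φ φ x := fun x hx => ((hR x hx).2.2.1 φ φ).2.1
  have hw0 : ∀ x, 0 < δ * Real.exp (2 * u x) := fun x => by positivity
  have hψW : ContinuousOn (fun x => ψ (W x)) V :=
    hψ.smooth.continuous.comp_continuousOn hF.continuousOn
  have hae : ∀ᵐ x ∂volume.restrict U, x ∈ U \ S := by
    have h1 : ∀ᵐ x ∂volume.restrict U, x ∉ S :=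
      ae_restrict_of_ae (measure_eq_zero_iff_ae_notMem.mp hSn)
    filter_upwards [h1, ae_restrict_mem hUm] with x hx hx'
    exact ⟨hx', hx⟩
  have hbound : ∀ F : E3 → ℝ, ContinuousOn F V → ∃ M : ℝ, ∀ x ∈ U, |F x| ≤ M := by
    intro F hFc
    obtain ⟨M, hM⟩ := (hF.proper c d hc hd).exists_bound_of_continuousOn
      (hFc.mono (cslab_subset c d))
    exact ⟨M, fun x hx => hM x (slab_subset_cslab c d hx)⟩
  -- the two main functions
  set A : E3 → ℝ := fun x => (curv g W x - lap g W u x)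
    * (lin g W φ φ x / (lin g W φ φ x + δ * Real.exp (2 * u x))) with hA
  set E : E3 → ℝ := fun x => (rho0 g W Φ z0 r e t1 x + lap g W u1 x) ^ 2
    / (2 * δ * Real.exp (2 * u x)) with hE
  have hexpC : Continuous fun x => Real.exp (2 * u x) :=
    Real.continuous_exp.comp (continuous_const.mul hu.continuous)
  have hAC : ContinuousOn A (U \ S) := by
    intro x hx
    have h1 := (hlin x (hOV hx) φ φ (hφat x hx) (hφat x hx)).continuousAt
    have h2 := (hcurv.continuousAt (hF.isOpen.mem_nhds (hOV hx)))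
    have h3 := (hlapC u hu).continuousAt (hF.isOpen.mem_nhds (hOV hx))
    have h4 : lin g W φ φ x + δ * Real.exp (2 * u x) ≠ 0 := by
      have := hlin0 x (hOV hx)
      have := hw0 x
      positivity
    exact ((h2.sub h3).mul (h1.div (h1.add (continuousAt_const.mul hexpC.continuousAt))
      h4)).continuousWithinAt
  have hfrac : ∀ x ∈ V, 0 ≤ lin g W φ φ x / (lin g W φ φ x + δ * Real.exp (2 * u x)) ∧
      lin g W φ φ x / (lin g W φ φ x + δ * Real.exp (2 * u x)) ≤ 1 := by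
    intro x hx
    have h1 := hlin0 x hx
    have h2 := hw0 x
    constructor
    · positivity
    · rw [div_le_one (by linarith)]
      linarith
  have hAb : ∀ x ∈ V, |A x| ≤ |curv g W x - lap g W u x| := by
    intro x hx
    obtain ⟨h1, h2⟩ := hfrac x hx
    rw [hA]
    change |(curv g W x - lap g W u x) * _| ≤ _
    rw [abs_mul, abs_of_nonneg h1]
    exact mul_le_of_le_one_right (abs_nonneg _) h2
  have hlapφ : ∀ x ∈ U \ S, lap g W φ x = rho0 g W Φ z0 r e t1 x + lap g W u1 x := by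
    intro x hx
    have h1 : ContDiffAt ℝ 2 (phi0 g W Φ z0 r e t1) x :=
      (hphi.contDiffAt (hOo.mem_nhds hx)).of_le ENat.LEInfty.out
    have h2 : ContDiffAt ℝ 2 u1 x := hu1.contDiffAt.of_le ENat.LEInfty.out
    have h3 := ((hR x (hOV hx)).2.2.2.2.2.1 _ _ h1 h2).1
    rw [hφdef, h3]
    congr 1
    unfold rho0
    rw [if_neg hx.2]
  have hEC : ContinuousOn E (U \ S) := by
    have h1 : ContinuousOn (lap g W φ) (U \ S) := fun x hx =>
      (hlap x (hOV hx) φ (hφat x hx)).continuousAt.continuousWithinAt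
    have h2 : ContinuousOn (fun x => lap g W φ x ^ 2 / (2 * δ * Real.exp (2 * u x)))
        (U \ S) := by
      refine (h1.pow 2).div (continuous_const.mul hexpC).continuousOn ?_
      intro x _
      positivity
    refine h2.congr fun x hx => ?_
    rw [hE]
    change (rho0 g W Φ z0 r e t1 x + lap g W u1 x) ^ 2 / _ = lap g W φ x ^ 2 / _
    rw [hlapφ x hx]
  -- integrability
  obtain ⟨M1, hM1⟩ := hbound (fun x => ψ (W x) * (curv g W x - lap g W u x) * dens g W x)
    ((hψW.mul (hcurv.sub (hlapC u hu))).mul hdensC)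
  obtain ⟨M2, hM2⟩ := hbound (fun x => ψ (W x) / (2 * δ * Real.exp (2 * u x)) * dens g W x)
    ((hψW.div (continuous_const.mul hexpC).continuousOn
      (fun x _ => (mul_pos (mul_pos two_pos hδ) (Real.exp_pos _)).ne')).mul hdensC)
  obtain ⟨M3, hM3⟩ := hbound (lap g W u1) (hlapC u1 hu1)
  have hψA : ∀ η : E3 → ℝ, ContinuousOn η (U \ S) → (∀ x ∈ U \ S, 0 ≤ η x ∧ η x ≤ 1) →
      IntegrableOn (fun x => ψ (W x) * (η x * A x) * dens g W x) U := by
    intro η hη hη1
    refine integrableOn_bdd hOo hOU hUvol hnull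
      (((hψW.mono hOV).mul (hη.mul hAC)).mul (hdensC.mono hOV)) (M := M1) ?_
    intro x hx
    refine le_trans ?_ (hM1 x (hOU hx))
    obtain ⟨h1, h2⟩ := hη1 x hx
    have h3 : |ψ (W x) * (η x * A x) * dens g W x| = |ψ (W x)| * (η x * |A x|)
        * |dens g W x| := by
      rw [abs_mul, abs_mul, abs_mul (η x), abs_of_nonneg h1]
    have h4 : |ψ (W x) * (curv g W x - lap g W u x) * dens g W x| =
        |ψ (W x)| * |curv g W x - lap g W u x| * |dens g W x| := by
      rw [abs_mul, abs_mul]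
    rw [h3, h4]
    refine mul_le_mul_of_nonneg_right ?_ (abs_nonneg _)
    refine mul_le_mul_of_nonneg_left ?_ (abs_nonneg _)
    exact (mul_le_of_le_one_left (abs_nonneg _) h2).trans (hAb x (hOV hx))
  have hψE : IntegrableOn (fun x => ψ (W x) * E x * dens g W x) U := by
    refine integrableOn_bdd hOo hOU hUvol hnull
      (((hψW.mono hOV).mul hEC).mul (hdensC.mono hOV)) (M := (C0 + M3) ^ 2 * M2) ?_
    intro x hx
    have h1 : |rho0 g W Φ z0 r e t1 x + lap g W u1 x| ≤ C0 + M3 :=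
      (abs_add_le _ _).trans (add_le_add (hrho x (hOU hx)) (hM3 x (hOU hx)))
    have h2 : (rho0 g W Φ z0 r e t1 x + lap g W u1 x) ^ 2 ≤ (C0 + M3) ^ 2 := by
      rw [← sq_abs]
      exact pow_le_pow_left₀ (abs_nonneg _) h1 2
    have h3 := hM2 x (hOU hx)
    have h4 : ψ (W x) * E x * dens g W x =
        (rho0 g W Φ z0 r e t1 x + lap g W u1 x) ^ 2
          * (ψ (W x) / (2 * δ * Real.exp (2 * u x)) * dens g W x) := by
      rw [hE]
      ring
    rw [h4, abs_mul, abs_of_nonneg (sq_nonneg _)]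
    exact mul_le_mul h2 h3 (abs_nonneg _) (by positivity)
  -- the cut-off at the level `t`
  have hcutS : ∀ t, 0 < t → t < t1 → ∀ x ∈ U \ S,
      ContDiffAt ℝ ∞ (cut g W Φ z0 r e t) x := fun t h0 h1 x hx =>
    (hcut1 t h0 h1).1.contDiffAt (hUo.mem_nhds (hOU hx))
  have hY : ∀ t, 0 < t → t < t1 → ∀ i,
      ContDiffOn ℝ ∞ (fun x => cut g W Φ z0 r e t x * X x i) U := by
    intro t h0 h1 i x hx
    refine ContDiffAt.contDiffWithinAt ?_
    by_cases hxS : x ∈ S
    · have h2 := (hcut1 t h0 h1).2 x hxS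
      refine (contDiffAt_const (c := (0 : ℝ))).congr_of_eventuallyEq ?_
      filter_upwards [h2] with y hy
      rw [hy, zero_mul]
    · exact (hcutS t h0 h1 x ⟨hx, hxS⟩).mul (hXat x ⟨hx, hxS⟩ i)
  have hldX : ∀ x ∈ U \ S, ContinuousAt (ldiv g W X) x := by
    intro x hx
    have h1 : ∀ i : Fin 3, ContinuousAt (pd i (fun y => dens g W y * X y i)) x := fun i =>
      (pd_contDiffAt ((hdensS x (hOV hx)).mul (hXat x hx i)) i).continuousAt
    have h2 : ContinuousAt (fun y => ∑ i, pd i (fun z => dens g W z * X z i) y) x :=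
      tendsto_finsetSum _ fun i _ => h1 i
    exact h2.div (hdensS x (hOV hx)).continuousAt (hdens0 x (hOV hx)).ne'
  have hG1 : ∀ t, 0 < t → t < t1 →
      ContinuousOn (fun x => cut g W Φ z0 r e t x * ldiv g W X x) U := by
    intro t h0 h1 x hx
    refine ContinuousAt.continuousWithinAt ?_
    by_cases hxS : x ∈ S
    · have h2 := (hcut1 t h0 h1).2 x hxS
      refine (continuousAt_const (y := (0 : ℝ))).congr ?_
      filter_upwards [h2] with y hy
      rw [hy, zero_mul]
    · exact (hcutS t h0 h1 x ⟨hx, hxS⟩).continuousAt.mul (hldX x ⟨hx, hxS⟩)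
  have hG2 : ∀ t, 0 < t → t < t1 →
      ContinuousOn (fun x => ∑ i, pd i (cut g W Φ z0 r e t) x * X x i) U := by
    intro t h0 h1 x hx
    refine ContinuousAt.continuousWithinAt ?_
    by_cases hxS : x ∈ S
    · have h2 : cut g W Φ z0 r e t =ᶠ[𝓝 x] fun _ => 0 := (hcut1 t h0 h1).2 x hxS
      refine (continuousAt_const (y := (0 : ℝ))).congr ?_
      filter_upwards [h2.eventuallyEq_nhds] with y hy
      symm
      refine Finset.sum_eq_zero fun i _ => ?_
      rw [pd_congr hy i]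
      simp [pd]
    · refine tendsto_finsetSum _ fun i _ => ?_
      exact (pd_contDiffAt (hcutS t h0 h1 x ⟨hx, hxS⟩) i).continuousAt.mul
        (hXat x ⟨hx, hxS⟩ i).continuousAt
  have hI1 := fun t h0 h1 => integrableOn_of_continuousOn hF hcd hc hd hψ.smooth.continuous
    hψ.supp (hG1 t h0 h1) hdensC
  have hI2 := fun t h0 h1 => integrableOn_of_continuousOn hF hcd hc hd hψ.smooth.continuous
    hψ.supp (hG2 t h0 h1) hdensC
  -- integration by parts
  have hid : ∀ t, 0 < t → t < t1 →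
      ∫ x in U, ψ (W x) * (cut g W Φ z0 r e t x * ldiv g W X x) * dens g W x =
        - ∫ x in U, ψ (W x) * (∑ i, pd i (cut g W Φ z0 r e t) x * X x i) * dens g W x := by
    intro t h0 h1
    have h2 := (hIBP U c d g W (hF.sub hc.le hd.le)).1
      (fun x i => cut g W Φ z0 r e t x * X x i) ψ
      (fun i => (hY t h0 h1 i).of_le (by exact_mod_cast le_top)) ?_ hψ.smooth hψ.supp
    · rw [eq_neg_iff_add_eq_zero, ← integral_add (hI1 t h0 h1) (hI2 t h0 h1), ← h2]
      refine integral_congr_ae ?_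
      filter_upwards [hae] with x hx
      have h3 := (hR x (hOV hx)).2.2.2.2.2.2.2.2.2.2.2 (cut g W Φ z0 r e t) X
        ((hcutS t h0 h1 x hx).differentiableAt (by simp))
        (fun i => (hXat x hx i).differentiableAt (by simp))
      rw [h3]
      have h4 : ∑ i, X x i * grad (cut g W Φ z0 r e t) x i =
          ∑ i, pd i (cut g W Φ z0 r e t) x * X x i :=
        Finset.sum_congr rfl fun i _ => mul_comm _ _
      rw [h4]
      ring
    · intro x hx
      by_cases hxS : x ∈ S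
      · have h3 := ((hcut1 t h0 h1).2 x hxS).self_of_nhds
        simp [h3]
      · have h3 := hX2 x ⟨hx, hxS⟩
        simp_rw [mul_assoc]
        rw [← Finset.mul_sum, h3, mul_zero]
  have hIoo : ∀ᶠ t in 𝓝[>] (0 : ℝ), 0 < t ∧ t < t1 := by
    filter_upwards [Ioo_mem_nhdsGT ht1] with t ht
    exact ht
  have hlim' : Tendsto (fun t => ∫ x in U, ψ (W x) * (cut g W Φ z0 r e t x * ldiv g W X x)
      * dens g W x) (𝓝[>] 0) (𝓝 (4 * Real.pi * ∫ s, ψ s)) := by
    have h1 := hlim.neg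
    have h2 : -((-2 + -2) * Real.pi * ∫ s, ψ s) = 4 * Real.pi * ∫ s, ψ s := by ring
    rw [h2] at h1
    refine h1.congr' ?_
    filter_upwards [hIoo] with t ht
    exact (hid t ht.1 ht.2).symm
  -- the inequality at the level `t`
  have hcutC : ∀ t, 0 < t → t < t1 → ContinuousOn (cut g W Φ z0 r e t) (U \ S) :=
    fun t h0 h1 => (hcut1 t h0 h1).1.continuousOn.mono hOU
  have hI3 := fun t h0 h1 => hψA (cut g W Φ z0 r e t) (hcutC t h0 h1) (fun x _ => hcut2 t x)
  have hle : ∀ t, 0 < t → t < t1 →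
      ∫ x in U, ψ (W x) * (cut g W Φ z0 r e t x * A x) * dens g W x ≤
        (∫ x in U, ψ (W x) * (cut g W Φ z0 r e t x * ldiv g W X x) * dens g W x)
          + ∫ x in U, ψ (W x) * E x * dens g W x := by
    intro t h0 h1
    rw [← integral_add (hI1 t h0 h1) hψE]
    refine integral_mono_ae (hI3 t h0 h1) ((hI1 t h0 h1).add hψE) ?_
    filter_upwards [hae] with x hx
    have h2 := hX3 x hx
    rw [hlapφ x hx] at h2
    obtain ⟨h3, h4⟩ := hcut2 t x
    have h5 := hψ.nonneg (W x)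
    have h6 := (hdens0 x (hOV hx)).le
    have h7 := hlin0 x (hOV hx)
    have h8 := hw0 x
    set w : ℝ := δ * Real.exp (2 * u x) with hw
    set f : ℝ := lin g W φ φ x with hf
    set L : ℝ := rho0 g W Φ z0 r e t1 x + lap g W u1 x with hL
    have h9 : w * L ^ 2 / (2 * (f + w) ^ 2) ≤ L ^ 2 / (2 * w) := by
      rw [div_le_div_iff₀ (by positivity) (by positivity)]
      have : w ^ 2 ≤ (f + w) ^ 2 := pow_le_pow_left₀ h8.le (by linarith) 2
      nlinarith [sq_nonneg L]
    have h10 : 0 ≤ w * L ^ 2 / (2 * (f + w) ^ 2) := by positivity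
    have hEx : E x = L ^ 2 / (2 * w) := by
      rw [hE, hw, ← mul_assoc]
    have h11 : cut g W Φ z0 r e t x * A x ≤ cut g W Φ z0 r e t x * ldiv g W X x + E x := by
      have h12 : A x ≤ ldiv g W X x + w * L ^ 2 / (2 * (f + w) ^ 2) := by
        rw [hA]
        linarith
      calc cut g W Φ z0 r e t x * A x
          ≤ cut g W Φ z0 r e t x * (ldiv g W X x + w * L ^ 2 / (2 * (f + w) ^ 2)) :=
            mul_le_mul_of_nonneg_left h12 h3
        _ = cut g W Φ z0 r e t x * ldiv g W X x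
            + cut g W Φ z0 r e t x * (w * L ^ 2 / (2 * (f + w) ^ 2)) := by ring
        _ ≤ cut g W Φ z0 r e t x * ldiv g W X x + E x := by
            rw [hEx]
            have := mul_le_of_le_one_left h10 h4
            linarith
    change ψ (W x) * (cut g W Φ z0 r e t x * A x) * dens g W x ≤
      ψ (W x) * (cut g W Φ z0 r e t x * ldiv g W X x) * dens g W x + ψ (W x) * E x * dens g W x
    rw [← add_mul, ← mul_add]
    exact mul_le_mul_of_nonneg_right (mul_le_mul_of_nonneg_left h11 h5) h6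
  -- the limit of the left-hand side
  have hψA1 : IntegrableOn (fun x => ψ (W x) * A x * dens g W x) U := by
    have h1 := hψA (fun _ => 1) continuousOn_const (fun _ _ => ⟨zero_le_one, le_rfl⟩)
    simpa using h1
  have hlimA : Tendsto (fun t => ∫ x in U, ψ (W x) * (cut g W Φ z0 r e t x * A x) * dens g W x)
      (𝓝[>] 0) (𝓝 (∫ x in U, ψ (W x) * A x * dens g W x)) := by
    refine tendsto_integral_filter_of_dominated_convergence
      (fun x => ‖ψ (W x) * A x * dens g W x‖) ?_ ?_ hψA1.norm ?_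
    · filter_upwards [hIoo] with t ht
      exact (hI3 t ht.1 ht.2).aestronglyMeasurable
    · refine Filter.Eventually.of_forall fun t => Filter.Eventually.of_forall fun x => ?_
      have h1 : ψ (W x) * (cut g W Φ z0 r e t x * A x) * dens g W x =
          cut g W Φ z0 r e t x * (ψ (W x) * A x * dens g W x) := by ring
      rw [h1, norm_mul, Real.norm_eq_abs (cut g W Φ z0 r e t x), abs_of_nonneg (hcut2 t x).1]
      exact mul_le_of_le_one_left (norm_nonneg _) (hcut2 t x).2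
    · filter_upwards [hae] with x hx
      have h1 := hcut3 x hx.1 hx.2
      have h2 := ((h1.mul_const (A x)).const_mul (ψ (W x))).mul_const (dens g W x)
      rw [one_mul] at h2
      exact h2
  have hfin := le_of_tendsto_of_tendsto hlimA (hlim'.add_const _)
    (by filter_upwards [hIoo] with t ht; exact hle t ht.1 ht.2)
  have h1 : ∀ x, ψ (W x) * (curv g W x - lap g W u x)
      * (lin g W φ φ x / (lin g W φ φ x + δ * Real.exp (2 * u x))) * dens g W x =
      ψ (W x) * A x * dens g W x := fun x => by rw [hA]; ring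
  calc _ = ∫ x in U, ψ (W x) * A x * dens g W x := integral_congr_ae (Filter.Eventually.of_forall h1)
    _ ≤ _ := hfin

end Pool.Agent.PFlow.GB
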