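import Pool.Agent.PFlow.G.QAlg

/-!
# Block GB: estimates of the function `q` (module Q)
-/

open MeasureTheory Filter Topology
open scoped ContDiff

namespace Pool.Agent.PFlow.GB

open Pool.Agent.PenroseSph Pool.Agent.PFlow

namespace QQ

lemma symm_of {g : TensorField} {x : E3} (h : (g x).PosDef) (i j : Fin 3) :
    g x i j = g x j i := by
  have := h.isHermitian.apply i j
  simpa using this.symm

/-- uniform ellipticity -/
lemma exists_lower {g : TensorField} {K : Set E3} (hK : IsCompact K)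
    (hg : ∀ i j, ContinuousOn (fun z => g z i j) K) (hpos : ∀ x ∈ K, (g x).PosDef) :
    ∃ c : ℝ, 0 < c ∧ ∀ x ∈ K, ∀ w : E3, c * ‖w‖ ^ 2 ≤ ∑ i, ∑ j, g x i j * w i * w j := by
  rcases K.eq_empty_or_nonempty with rfl | hne
  · exact ⟨1, one_pos, fun x hx => absurd hx (Set.notMem_empty x)⟩
  have hc : IsCompact (K ×ˢ Metric.sphere (0 : E3) 1) := hK.prod (isCompact_sphere 0 1)
  have hcont : ContinuousOn (fun p : E3 × E3 => ∑ i, ∑ j, g p.1 i j * p.2 i * p.2 j)
      (K ×ˢ Metric.sphere (0 : E3) 1) := by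
    refine continuousOn_finsetSum _ fun i _ => continuousOn_finsetSum _ fun j _ => ?_
    have h1 : ContinuousOn (fun p : E3 × E3 => g p.1 i j) (K ×ˢ Metric.sphere (0 : E3) 1) :=
      (hg i j).comp continuousOn_fst (fun p hp => hp.1)
    have h2 : ∀ i, Continuous (fun p : E3 × E3 => p.2 i) := fun i => by fun_prop
    exact (h1.mul (h2 i).continuousOn).mul (h2 j).continuousOn
  have hpos' : ∀ x ∈ K, ∀ w : E3, w ≠ 0 → 0 < ∑ i, ∑ j, g x i j * w i * w j := by
    intro x hx w hw
    have hw' : (WithLp.ofLp w : Fin 3 → ℝ) ≠ 0 := by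
      intro h
      apply hw
      ext i
      exact congrFun h i
    have := (hpos x hx).dotProduct_mulVec_pos hw'
    refine lt_of_lt_of_eq this ?_
    simp only [dotProduct, Matrix.mulVec, Fin.sum_univ_three, star_trivial]
    ring
  have hsp : (Metric.sphere (0 : E3) 1).Nonempty := NormedSpace.sphere_nonempty.mpr zero_le_one
  obtain ⟨p, hp, hmin⟩ := hc.exists_isMinOn (hne.prod hsp) hcont
  have hp0 : p.2 ≠ 0 := by
    intro h
    have h1 : ‖p.2‖ = 1 := by simpa using hp.2
    rw [h, norm_zero] at h1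
    exact zero_ne_one h1
  refine ⟨_, hpos' p.1 hp.1 p.2 hp0, fun x hx w => ?_⟩
  rcases eq_or_ne w 0 with rfl | hw
  · simp
  have hn : ‖w‖ ≠ 0 := norm_ne_zero_iff.mpr hw
  have h1 : (x, ‖w‖⁻¹ • w) ∈ K ×ˢ Metric.sphere (0 : E3) 1 := by
    refine ⟨hx, ?_⟩
    simp only [mem_sphere_iff_norm, sub_zero]
    rw [norm_smul, norm_inv, norm_norm, inv_mul_cancel₀ hn]
  have h2 := hmin h1
  simp only [Set.mem_ofPred_eq] at h2
  have h3 : ∑ i, ∑ j, g x i j * (‖w‖⁻¹ • w) i * (‖w‖⁻¹ • w) j =
      ‖w‖⁻¹ ^ 2 * ∑ i, ∑ j, g x i j * w i * w j := by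
    simp only [PiLp.smul_apply, smul_eq_mul, Fin.sum_univ_three]
    ring
  rw [h3] at h2
  calc (∑ i, ∑ j, g p.1 i j * p.2 i * p.2 j) * ‖w‖ ^ 2
      ≤ (‖w‖⁻¹ ^ 2 * ∑ i, ∑ j, g x i j * w i * w j) * ‖w‖ ^ 2 :=
        mul_le_mul_of_nonneg_right h2 (by positivity)
    _ = ∑ i, ∑ j, g x i j * w i * w j := by field_simp

variable {V : Set E3} {a b : ℝ} {g : TensorField} {W : E3 → ℝ} {K : Set E3}

lemma contDiffAt_qf (hV : IsOpen V) (hg : ∀ i j, ContDiffOn ℝ ∞ (fun z => g z i j) V) {x : E3}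
    (hx : x ∈ V) (y : E3) : ContDiffAt ℝ ∞ (fun z => qf g z y) x := by
  unfold qf
  refine contDiffAt_const.mul (ContDiffAt.sum fun i _ => ContDiffAt.sum fun j _ => ?_)
  have h1 : ∀ i, ContDiffAt ℝ ∞ (fun z : E3 => z i - y i) x := fun i => by fun_prop
  exact (((contDiffAt_of hV (hg i j) hx).add contDiffAt_const).mul (h1 i)).mul (h1 j)

/-- `E(x, y) = O(|x - y| ^ 2 + |W(x) - W(y)|)` on `K`. -/
def Ow (K : Set E3) (W : E3 → ℝ) (E : E3 → E3 → ℝ) : Prop :=
  ∃ C : ℝ, 0 ≤ C ∧ ∀ x ∈ K, ∀ y ∈ K, |E x y| ≤ C * (dist x y ^ 2 + |W x - W y|)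

lemma Ow.of_Od {E : E3 → E3 → ℝ} (h : Od K 2 E) : Ow K W E := by
  obtain ⟨C, hC, h⟩ := h
  refine ⟨C, hC, fun x hx y hy => (h x hx y hy).trans ?_⟩
  exact mul_le_mul_of_nonneg_left (le_add_of_nonneg_right (abs_nonneg _)) hC

lemma Ow.self : Ow K W (fun x y => W x - W y) := by
  refine ⟨1, zero_le_one, fun x _ y _ => ?_⟩
  rw [one_mul]
  exact le_add_of_nonneg_left (by positivity)

lemma Ow.add {E F : E3 → E3 → ℝ} (hE : Ow K W E) (hF : Ow K W F) :
    Ow K W (fun x y => E x y + F x y) := by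
  obtain ⟨C, hC, h⟩ := hE
  obtain ⟨D, hD, h'⟩ := hF
  refine ⟨C + D, by positivity, fun x hx y hy => ?_⟩
  have h1 := abs_add_le (E x y) (F x y)
  have h2 := h x hx y hy
  have h3 := h' x hx y hy
  rw [add_mul]
  linarith

lemma Ow.neg {E : E3 → E3 → ℝ} (hE : Ow K W E) : Ow K W (fun x y => - E x y) := by
  obtain ⟨C, hC, h⟩ := hE
  exact ⟨C, hC, fun x hx y hy => by rw [abs_neg]; exact h x hx y hy⟩

lemma Ow.bmul {E F : E3 → E3 → ℝ} (hE : Od K 0 E) (hF : Ow K W F) :
    Ow K W (fun x y => E x y * F x y) := by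
  obtain ⟨C, hC, h⟩ := hE
  obtain ⟨D, hD, h'⟩ := hF
  refine ⟨C * D, by positivity, fun x hx y hy => ?_⟩
  have h2 := h x hx y hy
  rw [pow_zero, mul_one] at h2
  rw [abs_mul, mul_assoc]
  exact mul_le_mul h2 (h' x hx y hy) (abs_nonneg _) hC

lemma Ow.congr {E F : E3 → E3 → ℝ} (h : Ow K W E) (hEF : ∀ x ∈ K, ∀ y ∈ K, F x y = E x y) :
    Ow K W F := by
  obtain ⟨C, hC, h⟩ := h
  exact ⟨C, hC, fun x hx y hy => by rw [hEF x hx y hy]; exact h x hx y hy⟩

end QQ

open QQ in
/-- MODULE Q -/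
theorem Q (hALG : Stmt_ALG) (hSMO : Stmt_SMO) (hLB : Stmt_LB) : Stmt_Q := by
  intro V a b g W hF K hK hKV
  have hV := hF.isOpen
  have hg := hF.metric.smooth
  have hpos : ∀ x ∈ V, (g x).PosDef := hF.metric.posDef
  have hs : ∀ z ∈ V, ∀ i j, g z i j = g z j i := fun z hz => symm_of (hpos z hz)
  have hdet : ∀ x ∈ V, IsUnit (g x).det := fun x hx => (hpos x hx).det_pos.ne'.isUnit
  have hd : ∀ x ∈ V, ∀ i j, DifferentiableAt ℝ (fun z => g z i j) x := fun x hx i j =>
    (contDiffAt_of hV (hg i j) hx).differentiableAt (by simp)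
  -- continuity
  have cg : ∀ i j, ContinuousOn (fun z => g z i j) K := fun i j => (hg i j).continuousOn.mono hKV
  have cdg : ∀ k i j, ContinuousOn (pd k (fun z => g z i j)) K := fun k i j =>
    (contDiffOn_pd hV (hg i j) k).continuousOn.mono hKV
  have cddg : ∀ k l i j, ContinuousOn (pd k (pd l (fun z => g z i j))) K := fun k l i j =>
    (contDiffOn_pd hV (contDiffOn_pd hV (hg i j) l) k).continuousOn.mono hKV
  have cdW : ∀ k, ContinuousOn (pd k W) K := fun k =>
    (contDiffOn_pd hV hF.smooth k).continuousOn.mono hKV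
  have cddW : ∀ k l, ContinuousOn (pd k (pd l W)) K := fun k l =>
    (contDiffOn_pd hV (contDiffOn_pd hV hF.smooth l) k).continuousOn.mono hKV
  have hreg : ∀ x ∈ V, Reg g W x := fun x hx => hF.reg hx
  have cinv : ∀ i j, ContinuousOn (fun y => (g y)⁻¹ i j) K := fun i j x hx =>
    (((hSMO.2 g W x (hreg x (hKV hx))).2.2.2.2.2.1 i j).continuousAt).continuousWithinAt
  have clen : ContinuousOn (fun y => len g y (grad W y)) K := fun x hx =>
    (((hSMO.2 g W x (hreg x (hKV hx))).2.2.2.2.2.2.1).continuousAt).continuousWithinAt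
  have cnrm : ∀ i, ContinuousOn (fun y => nrm g y (grad W y) i) K := fun i x hx =>
    (((hSMO.2 g W x (hreg x (hKV hx))).2.2.2.2.2.2.2.2.2.1 i).continuousAt).continuousWithinAt
  have hlen : ∀ x ∈ V, 0 < len g x (grad W x) := fun x hx =>
    (hSMO.2 g W x (hreg x hx)).2.1
  have cchr : ∀ m k l, ContinuousOn (fun x => christoffel g m k l x) K := by
    intro m k l
    unfold christoffel
    refine continuousOn_const.mul (continuousOn_finsetSum _ fun c _ => ?_)
    exact (cinv m c).mul (((cdg k l c).add (cdg l k c)).sub (cdg c k l))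
  -- error terms
  have hv : ∀ i, Od K 1 (fun x y => x i - y i) := Od.coord
  have hT : ∀ i j, Od K 1 (fun x y => g y i j - g x i j) := fun i j =>
    (taylor hV (hg i j) hK hKV).1
  have hR : ∀ i j, Od K 2 (rem g i j) := fun i j => (taylor hV (hg i j) hK hKV).2
  have he : ∀ k, Od K 2 (er g k) := by
    intro k
    have h1 : Od K 2 (fun x y => ∑ i, ∑ j,
        pd k (fun z => g z i j) x * (x i - y i) * (x j - y j)) :=
      Od.sum _ fun i _ => Od.sum _ fun j _ => ((Od.of_cont hK (cdg k i j)).mul (hv i)).mul (hv j)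
    have h2 : Od K 2 (fun x y => ∑ j, (g y k j - g x k j) * (x j - y j)) :=
      Od.sum _ fun j _ => (hT k j).mul (hv j)
    exact (h1.cmul (1 / 2)).add h2
  have hA : ∀ k, Od K 1 (fun x y => pd k (fun z => qf g z y) x) := by
    intro k
    have h1 : Od K 1 (fun x y => ∑ j, g x k j * (x j - y j)) :=
      Od.sum _ fun j _ => by
        have := (Od.of_cont hK (cg k j)).mul (hv j)
        simpa using this
    refine ((h1.cmul 2).add ((he k).mono hK one_le_two)).congr fun x hx y hy => ?_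
    exact pd_qf_eq (hd x (hKV hx)) (hs x (hKV hx)) (hs y (hKV hy)) k
  have hM2 : ∀ k l, Od K 2 (fun x y => pd k (pd l (fun z => qf g z y)) x
      - ∑ m, christoffel g m k l x * pd m (fun z => qf g z y) x - 2 * g x k l) := by
    intro k l
    have h1 : Od K 2 (fun x y => ∑ i, ∑ j,
        pd k (pd l (fun z => g z i j)) x * (x i - y i) * (x j - y j)) :=
      Od.sum _ fun i _ => Od.sum _ fun j _ =>
        ((Od.of_cont hK (cddg k l i j)).mul (hv i)).mul (hv j)
    have h2 : Od K 2 (fun x y => ∑ m, christoffel g m k l x * er g m x y) :=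
      Od.sum _ fun m _ => by
        have := (Od.of_cont hK (cchr m k l)).mul (he m)
        simpa using this
    refine (((h1.cmul (1 / 2)).add (hR k l)).sub h2).congr fun x hx y hy => ?_
    exact hess_qf hV hg hs (hKV hx) (hKV hy) (hdet x (hKV hx)) k l
  have hM1 : ∀ k l, Od K 1 (fun x y => pd k (pd l (fun z => qf g z y)) x - 2 * g x k l) := by
    intro k l
    have h2 : Od K 1 (fun x y => ∑ m, christoffel g m k l x * pd m (fun z => qf g z y) x) :=
      Od.sum _ fun m _ => by
        have := (Od.of_cont hK (cchr m k l)).mul (hA m)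
        simpa using this
    refine (((hM2 k l).mono hK one_le_two).add h2).congr fun x _ y _ => ?_
    ring
  have hq2 : Od K 2 (fun x y => qf g x y) := by
    unfold qf
    refine Od.cmul (Od.sum _ fun i _ => Od.sum _ fun j _ => ?_) (1 / 2)
    exact (((Od.of_cont hK (cg i j)).add (Od.of_cont' hK (cg i j))).mul (hv i)).mul (hv j)
  have hev : Od K 4 (fun x y => ev (g x)⁻¹ (grad (fun z => qf g z y) x)
      (grad (fun z => qf g z y) x) - 4 * qf g x y) := by
    have h1 : Od K 4 (fun x y => ∑ i, ∑ j, rem g i j x y * (x i - y i) * (x j - y j)) :=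
      Od.sum _ fun i _ => Od.sum _ fun j _ => ((hR i j).mul (hv i)).mul (hv j)
    have h2 : Od K 4 (fun x y => ev (g x)⁻¹ (fun k => er g k x y) (fun k => er g k x y)) := by
      unfold ev
      refine Od.sum _ fun i _ => Od.sum _ fun j _ => ?_
      have := ((Od.of_cont hK (cinv i j)).mul (he i)).mul (he j)
      simpa using this
    refine ((h1.cmul 2).add h2).congr fun x hx y hy => ?_
    exact ev_qf (hd x (hKV hx)) (hs x (hKV hx)) (hs y (hKV hy)) (hdet x (hKV hx))
  have hnu : Ow K W (fun x y => ∑ i, grad (fun z => qf g z y) x i * nrm g x (grad W x) i) := by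
    have h1 : Od K 2 (fun x y => ∑ i, nrm g x (grad W x) i * er g i x y) :=
      Od.sum _ fun i _ => by
        have := (Od.of_cont hK (cnrm i)).mul (he i)
        simpa using this
    have h2 : Od K 2 (fun x y => W y - W x + ∑ p, pd p W x * (x p - y p)) :=
      (taylor hV hF.smooth hK hKV).2
    have h3 : Ow K W (fun x y => (W x - W y) + (W y - W x + ∑ p, pd p W x * (x p - y p))) :=
      Ow.self.add (Ow.of_Od h2)
    have h4 : Od K 0 (fun x _ => 2 / len g x (grad W x)) :=
      Od.of_cont hK (continuousOn_const.div clen fun x hx => (hlen x (hKV hx)).ne')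
    refine ((Ow.bmul h4 h3).add (Ow.of_Od h1)).congr fun x hx y hy => ?_
    have hxV := hKV hx
    have hgn : ∀ j, ∑ i, g x i j * nrm g x (grad W x) i = pd j W x / len g x (grad W x) := by
      intro j
      have hinv : ∀ a c, ∑ b, g x a b * (g x)⁻¹ b c = if a = c then 1 else 0 := by
        intro a c
        have := congrFun (congrFun (Matrix.mul_nonsing_inv (g x) (hdet x hxV)) a) c
        rw [Matrix.mul_apply, Matrix.one_apply] at this
        exact this
      have h5 : ∑ i, g x i j * nrm g x (grad W x) i =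
          (∑ c, (∑ i, g x j i * (g x)⁻¹ i c) * grad W x c) / len g x (grad W x) := by
        unfold nrm raise
        simp only [Fin.sum_univ_three, hs x hxV j 0, hs x hxV j 1, hs x hxV j 2]
        ring
      rw [h5]
      simp only [hinv]
      congr 1
      simp [grad]
    have h6 : ∑ i, grad (fun z => qf g z y) x i * nrm g x (grad W x) i =
        2 * ∑ j, (∑ i, g x i j * nrm g x (grad W x) i) * (x j - y j) +
          ∑ i, nrm g x (grad W x) i * er g i x y := by
      have h7 : ∀ i, grad (fun z => qf g z y) x i =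
          2 * ∑ j, g x i j * (x j - y j) + er g i x y := fun i =>
        pd_qf_eq (hd x hxV) (hs x hxV) (hs y (hKV hy)) i
      simp only [h7, Fin.sum_univ_three]
      ring
    rw [h6]
    simp only [hgn]
    congr 1
    simp only [Fin.sum_univ_three]
    ring
  -- the Laplacian
  have cprj : ∀ i j, Od K 0 (fun x _ => prj g x (grad W x) i j) := fun i j =>
    Od.of_cont hK ((cinv i j).sub ((cnrm i).mul (cnrm j)))
  have hbt : ∀ (x : E3) (B : Bil), btan g x (grad W x) B =
      ∑ i, ∑ j, prj g x (grad W x) i j * B i j := by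
    intro x B
    unfold btan trg bnn ev prj
    simp only [Fin.sum_univ_three]
    ring
  have cH : ContinuousOn (fun x => btan g x (grad W x) (cHess g x (grad W x) (hess2 W x)) /
      len g x (grad W x)) K := by
    refine ContinuousOn.div ?_ clen fun x hx => (hlen x (hKV hx)).ne'
    simp only [hbt]
    refine continuousOn_finsetSum _ fun i _ => continuousOn_finsetSum _ fun j _ => ?_
    refine ((cinv i j).sub ((cnrm i).mul (cnrm j))).mul ?_
    exact (cddW i j).sub (continuousOn_finsetSum _ fun k _ => (cchr k i j).mul (cdW k))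
  have hlap : Ow K W (fun x y => lap g W (fun z => qf g z y) x - 4) := by
    have h1 : Od K 2 (fun x y => ∑ i, ∑ j, prj g x (grad W x) i j *
        (pd i (pd j (fun z => qf g z y)) x
          - ∑ m, christoffel g m i j x * pd m (fun z => qf g z y) x - 2 * g x i j)) :=
      Od.sum _ fun i _ => Od.sum _ fun j _ => by
        have := (cprj i j).mul (hM2 i j)
        simpa using this
    refine ((Ow.of_Od h1).add (Ow.bmul (Od.of_cont hK cH) hnu).neg).congr fun x hx y hy => ?_
    have hxV := hKV hx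
    have hc2 : ContDiffAt ℝ 2 (fun z => qf g z y) x := by
      exact_mod_cast contDiffAt_infty.mp (contDiffAt_qf hV hg hxV y) 2
    rw [hLB g W x (hreg x hxV) _ hc2, hbt]
    have h2 : ∑ i, ∑ j, prj g x (grad W x) i j * g x i j = 2 :=
      (hALG g x (grad W x) (hpos x hxV) (hF.regular x hxV)).2.2.2.2.2.2.2.1
    have h3 : ∑ i, ∑ j, prj g x (grad W x) i j *
        (pd i (pd j (fun z => qf g z y)) x
          - ∑ m, christoffel g m i j x * pd m (fun z => qf g z y) x - 2 * g x i j) =
        (∑ i, ∑ j, prj g x (grad W x) i j *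
          cHess g x (grad (fun z => qf g z y) x) (hess2 (fun z => qf g z y) x) i j) -
          2 * ∑ i, ∑ j, prj g x (grad W x) i j * g x i j := by
      simp only [Finset.mul_sum, ← Finset.sum_sub_distrib]
      refine Finset.sum_congr rfl fun i _ => Finset.sum_congr rfl fun j _ => ?_
      simp only [cHess, hess2, grad, Matrix.of_apply]
      ring
    rw [h3, h2]
    ring
  -- conclusion
  obtain ⟨c, hc, hlow⟩ := exists_lower hK cg (fun x hx => hpos x (hKV hx))
  obtain ⟨C1, hC1, k1⟩ := hq2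
  obtain ⟨C2, hC2, k2⟩ := hev
  obtain ⟨C3, hC3, k3⟩ := hnu
  obtain ⟨C4, hC4, k4⟩ := hlap
  have hA' : ∃ C : ℝ, 0 ≤ C ∧ ∀ i, ∀ x ∈ K, ∀ y ∈ K,
      |pd i (fun z => qf g z y) x| ≤ C * dist x y := by
    choose D hD hD' using hA
    refine ⟨∑ i, D i, Finset.sum_nonneg fun i _ => hD i, fun i x hx y hy => ?_⟩
    refine (hD' i x hx y hy).trans ?_
    rw [pow_one]
    exact mul_le_mul_of_nonneg_right (Finset.single_le_sum (f := D) (fun i _ => hD i)
      (Finset.mem_univ i)) dist_nonneg
  have hM' : ∃ C : ℝ, 0 ≤ C ∧ ∀ i j, ∀ x ∈ K, ∀ y ∈ K,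
      |pd i (pd j (fun z => qf g z y)) x - 2 * g x i j| ≤ C * dist x y := by
    choose D hD hD' using hM1
    refine ⟨∑ i, ∑ j, D i j, Finset.sum_nonneg fun i _ => Finset.sum_nonneg fun j _ => hD i j,
      fun i j x hx y hy => ?_⟩
    refine (hD' i j x hx y hy).trans ?_
    rw [pow_one]
    refine mul_le_mul_of_nonneg_right ?_ dist_nonneg
    exact (Finset.single_le_sum (f := D i) (fun j _ => hD i j) (Finset.mem_univ j)).trans
      (Finset.single_le_sum (f := fun i => ∑ j, D i j)
        (fun i _ => Finset.sum_nonneg fun j _ => hD i j) (Finset.mem_univ i))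
  obtain ⟨C5, hC5, k5⟩ := hA'
  obtain ⟨C6, hC6, k6⟩ := hM'
  refine ⟨c, C1 + (C2 + 2 * C3 ^ 2) + C4 + C5 + C6 + 1, hc, by positivity, ?_⟩
  intro x hx y hy
  have hC3' : 0 ≤ 2 * C3 ^ 2 := by positivity
  have dd : 0 ≤ dist x y := dist_nonneg
  refine ⟨?_, ?_, ?_, ?_, ?_, ?_⟩
  · have h1 := hlow x hx (x - y)
    have h2 := hlow y hy (x - y)
    rw [← dist_eq_norm] at h1 h2
    have h3 : qf g x y = (1 / 2) * ((∑ i, ∑ j, g x i j * (x - y) i * (x - y) j) +
        ∑ i, ∑ j, g y i j * (x - y) i * (x - y) j) := by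
      unfold qf
      simp only [PiLp.sub_apply, Fin.sum_univ_three]
      ring
    rw [h3]
    linarith
  · refine (le_abs_self _).trans ((k1 x hx y hy).trans ?_)
    refine mul_le_mul_of_nonneg_right ?_ (by positivity)
    linarith
  · have h1 : lin g W (fun z => qf g z y) (fun z => qf g z y) x - 4 * qf g x y =
        (ev (g x)⁻¹ (grad (fun z => qf g z y) x) (grad (fun z => qf g z y) x) - 4 * qf g x y) -
          (∑ i, grad (fun z => qf g z y) x i * nrm g x (grad W x) i) ^ 2 := by
      unfold lin lip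
      ring
    rw [h1]
    have h2 := k2 x hx y hy
    have h3 := k3 x hx y hy
    have h4 : (∑ i, grad (fun z => qf g z y) x i * nrm g x (grad W x) i) ^ 2 ≤
        2 * C3 ^ 2 * (dist x y ^ 4 + (W x - W y) ^ 2) := by
      rw [← sq_abs]
      refine (pow_le_pow_left₀ (abs_nonneg _) h3 2).trans ?_
      have h5 : (dist x y ^ 2 + |W x - W y|) ^ 2 ≤ 2 * (dist x y ^ 4 + (W x - W y) ^ 2) := by
        have := sq_abs (W x - W y)
        nlinarith [sq_nonneg (dist x y ^ 2 - |W x - W y|)]
      calc (C3 * (dist x y ^ 2 + |W x - W y|)) ^ 2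
          = C3 ^ 2 * (dist x y ^ 2 + |W x - W y|) ^ 2 := by ring
        _ ≤ C3 ^ 2 * (2 * (dist x y ^ 4 + (W x - W y) ^ 2)) :=
          mul_le_mul_of_nonneg_left h5 (by positivity)
        _ = 2 * C3 ^ 2 * (dist x y ^ 4 + (W x - W y) ^ 2) := by ring
    have h5 := abs_sub (ev (g x)⁻¹ (grad (fun z => qf g z y) x) (grad (fun z => qf g z y) x)
      - 4 * qf g x y) ((∑ i, grad (fun z => qf g z y) x i * nrm g x (grad W x) i) ^ 2)
    rw [abs_of_nonneg (sq_nonneg (∑ i, grad (fun z => qf g z y) x i * nrm g x (grad W x) i))]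
      at h5
    have h6 : 0 ≤ (W x - W y) ^ 2 := sq_nonneg _
    have h7 : 0 ≤ dist x y ^ 4 := by positivity
    have h8 : C2 * dist x y ^ 4 ≤ C2 * (dist x y ^ 4 + (W x - W y) ^ 2) :=
      mul_le_mul_of_nonneg_left (le_add_of_nonneg_right h6) hC2
    refine (h5.trans (add_le_add (h2.trans h8) h4)).trans ?_
    rw [← add_mul]
    refine mul_le_mul_of_nonneg_right ?_ (by positivity)
    linarith
  · refine (k4 x hx y hy).trans ?_
    refine mul_le_mul_of_nonneg_right ?_ (by positivity)
    linarith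
  · intro i
    refine (k5 i x hx y hy).trans ?_
    refine mul_le_mul_of_nonneg_right ?_ dd
    linarith
  · intro i j
    refine (k6 i j x hx y hy).trans ?_
    refine mul_le_mul_of_nonneg_right ?_ dd
    linarith

end Pool.Agent.PFlow.GB
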