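import Pool.Agent.PFlow.G.Base

/-!
# `ρ₀` is a weak leafwise divergence

By connectedness of the leaf, `ρ₀ = γ(W) β + NULL` with `β` the indicator function of the chart; as
the leafwise mean of `ρ₀` vanishes, `γ(W) = 0` almost everywhere on the chart.
-/

open MeasureTheory Filter Topology
open scoped ContDiff

namespace Pool.Agent.PFlow.GB

open Pool.Agent.PenroseSph Pool.Agent.PFlow

namespace Rho

/-- The fundamental lemma for functions of `W`. -/
theorem ae_zero_of_test (T : Set E3) (hT : MeasurableSet T) (W m : E3 → ℝ)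
    (hW : ContinuousOn W T) (hm : IntegrableOn m T) (hpos : ∀ x ∈ T, 0 < m x) (U : Set ℝ)
    (hU : IsOpen U) (hTU : ∀ x ∈ T, W x ∈ U) (γ : ℝ → ℝ) (hγ : BddMeasR γ)
    (h : ∀ ψ : ℝ → ℝ, ContDiff ℝ ∞ ψ → HasCompactSupport ψ → tsupport ψ ⊆ U →
      ∫ x in T, γ (W x) * ψ (W x) * m x = 0) :
    ∀ᵐ x ∂(volume.restrict T), γ (W x) = 0 := by
  set μ0 : Measure E3 := (volume.restrict T).withDensity (fun x => ENNReal.ofReal (m x)) with hμ0
  have hfin : IsFiniteMeasure μ0 := isFiniteMeasure_withDensity_ofReal hm.2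
  have hmm : AEMeasurable (fun x => ENNReal.ofReal (m x)) (volume.restrict T) :=
    hm.1.aemeasurable.ennreal_ofReal
  have hWm : AEMeasurable W μ0 :=
    (hW.aemeasurable hT).mono_ac (withDensity_absolutelyContinuous _ _)
  set μ : Measure ℝ := μ0.map W with hμ
  have hfin' : IsFiniteMeasure μ := by
    rw [hμ]
    infer_instance
  obtain ⟨hγm, B, hB⟩ := hγ
  have hγi : Integrable γ μ :=
    Integrable.of_bound hγm.aestronglyMeasurable B (Eventually.of_forall fun s => by
      rw [Real.norm_eq_abs]; exact hB s)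
  have hkey : ∀ᵐ s ∂μ, s ∈ U → γ s = 0 := by
    refine hU.ae_eq_zero_of_integral_contDiff_smul_eq_zero (hγi.locallyIntegrable.locallyIntegrableOn U) ?_
    intro ψ hψ hψc hψU
    have hms : AEStronglyMeasurable (fun s => ψ s • γ s) (Measure.map W μ0) :=
      (hψ.continuous.measurable.smul hγm).aestronglyMeasurable
    rw [hμ, integral_map hWm hms, hμ0, integral_withDensity_eq_integral_toReal_smul₀ hmm
      (Eventually.of_forall fun x => ENNReal.ofReal_lt_top)]
    rw [← h ψ hψ hψc hψU]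
    refine setIntegral_congr_fun hT fun x hx => ?_
    simp only [smul_eq_mul]
    rw [ENNReal.toReal_ofReal (hpos x hx).le]
    ring
  have hset : MeasurableSet {s : ℝ | s ∈ U → γ s = 0} := by
    have : {s : ℝ | s ∈ U → γ s = 0} = Uᶜ ∪ γ ⁻¹' {0} := by
      ext s
      by_cases hs : s ∈ U <;> simp [hs]
    rw [this]
    exact hU.measurableSet.compl.union (hγm (measurableSet_singleton 0))
  rw [hμ, ae_map_iff hWm hset, hμ0, ae_withDensity_iff' hmm] at hkey
  filter_upwards [hkey, ae_restrict_mem hT] with x hx hxT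
  refine hx ?_ (hTU x hxT)
  have := hpos x hxT
  simpa using this

theorem isOpen_obox (z0 : E3) (r e : ℝ) : IsOpen (obox z0 r e) := by
  have h0 : ∀ i : Fin 3, ∀ t : ℝ, IsOpen {z : E3 | |z i - z0 i| < t} := fun i t =>
    isOpen_lt (by fun_prop) continuous_const
  exact (h0 0 r).inter ((h0 1 r).inter (h0 2 e))

theorem obox_subset (z0 : E3) (r e : ℝ) : obox z0 r e ⊆ box z0 r e := fun _ hz =>
  ⟨hz.1.le, hz.2.1.le, hz.2.2.le⟩

theorem isCompact_box (z0 : E3) (r e : ℝ) : IsCompact (box z0 r e) := by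
  have h0 : ∀ i : Fin 3, ∀ t : ℝ, IsClosed {z : E3 | |z i - z0 i| ≤ t} := fun i t =>
    isClosed_le (by fun_prop) continuous_const
  refine Metric.isCompact_of_isClosed_isBounded ((h0 0 r).inter ((h0 1 r).inter (h0 2 e))) ?_
  refine (Metric.isBounded_closedBall (x := z0) (r := Real.sqrt (r ^ 2 + r ^ 2 + e ^ 2))).subset ?_
  intro z hz
  obtain ⟨h1, h2, h3⟩ := hz
  rw [Metric.mem_closedBall, EuclideanSpace.dist_eq, Fin.sum_univ_three]
  refine Real.sqrt_le_sqrt ?_
  simp only [Real.dist_eq]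
  have k1 : |z 0 - z0 0| ^ 2 ≤ r ^ 2 := pow_le_pow_left₀ (abs_nonneg _) h1 2
  have k2 : |z 1 - z0 1| ^ 2 ≤ r ^ 2 := pow_le_pow_left₀ (abs_nonneg _) h2 2
  have k3 : |z 2 - z0 2| ^ 2 ≤ e ^ 2 := pow_le_pow_left₀ (abs_nonneg _) h3 2
  linarith

/-- A continuous function on the closed box, bounded below by `c`, has parameter integrals over
the horizontal squares at least `4 c r²`. -/
theorem le_integral (z0 : E3) (r e c : ℝ) (hr : 0 < r) (F : E3 → ℝ)
    (hF : ContinuousOn F (box z0 r e)) (hc : ∀ z ∈ box z0 r e, c ≤ F z) (s : ℝ)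
    (hs : s ∈ Set.Ioo (z0 2 - e) (z0 2 + e)) :
    c * (2 * r) * (2 * r) ≤ ∫ a in Set.Ioo (z0 0 - r) (z0 0 + r),
      ∫ b in Set.Ioo (z0 1 - r) (z0 1 + r), F (pt a b s) := by
  have hmem : ∀ a ∈ Set.Icc (z0 0 - r) (z0 0 + r), ∀ b ∈ Set.Icc (z0 1 - r) (z0 1 + r),
      pt a b s ∈ box z0 r e := by
    intro a ha b hb
    refine ⟨?_, ?_, ?_⟩
    · change |a - z0 0| ≤ r
      rw [abs_le]
      exact ⟨by linarith [ha.1], by linarith [ha.2]⟩
    · change |b - z0 1| ≤ r
      rw [abs_le]
      exact ⟨by linarith [hb.1], by linarith [hb.2]⟩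
    · change |s - z0 2| ≤ e
      rw [abs_le]
      exact ⟨by linarith [hs.1], by linarith [hs.2]⟩
  have hpt : Continuous fun q : ℝ × ℝ => pt q.1 q.2 s := by
    unfold pt
    fun_prop
  have hcont : ContinuousOn (fun q : ℝ × ℝ => F (pt q.1 q.2 s))
      (Set.Icc (z0 0 - r) (z0 0 + r) ×ˢ Set.Icc (z0 1 - r) (z0 1 + r)) :=
    hF.comp hpt.continuousOn fun q hq => hmem q.1 hq.1 q.2 hq.2
  have hint : IntegrableOn (fun q : ℝ × ℝ => F (pt q.1 q.2 s))
      (Set.Ioo (z0 0 - r) (z0 0 + r) ×ˢ Set.Ioo (z0 1 - r) (z0 1 + r)) :=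
    (hcont.integrableOn_compact (isCompact_Icc.prod isCompact_Icc)).mono_set
      (Set.prod_mono Set.Ioo_subset_Icc_self Set.Ioo_subset_Icc_self)
  have hint' : Integrable (fun q : ℝ × ℝ => F (pt q.1 q.2 s))
      ((volume.restrict (Set.Ioo (z0 0 - r) (z0 0 + r))).prod
        (volume.restrict (Set.Ioo (z0 1 - r) (z0 1 + r)))) := by
    rw [Measure.prod_restrict]
    exact hint
  have hout := hint'.integral_prod_left
  have hvol : ∀ u : ℝ, volume.real (Set.Ioo (u - r) (u + r)) = 2 * r := by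
    intro u
    rw [Real.volume_real_Ioo_of_le (by linarith)]
    ring
  have hin : ∀ a ∈ Set.Ioo (z0 0 - r) (z0 0 + r),
      c * (2 * r) ≤ ∫ b in Set.Ioo (z0 1 - r) (z0 1 + r), F (pt a b s) := by
    intro a ha
    have h1 : IntegrableOn (fun b => F (pt a b s)) (Set.Ioo (z0 1 - r) (z0 1 + r)) := by
      have h2 : ContinuousOn (fun b : ℝ => F (pt a b s)) (Set.Icc (z0 1 - r) (z0 1 + r)) := by
        have hpt' : Continuous fun b : ℝ => pt a b s := by
          unfold pt
          fun_prop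
        exact hF.comp hpt'.continuousOn fun b hb => hmem a (Set.Ioo_subset_Icc_self ha) b hb
      exact (h2.integrableOn_compact isCompact_Icc).mono_set Set.Ioo_subset_Icc_self
    have h3 : ∫ _ in Set.Ioo (z0 1 - r) (z0 1 + r), c
        ≤ ∫ b in Set.Ioo (z0 1 - r) (z0 1 + r), F (pt a b s) := by
      refine setIntegral_mono_on (integrableOn_const (by simp)) h1 measurableSet_Ioo ?_
      intro b hb
      exact hc _ (hmem a (Set.Ioo_subset_Icc_self ha) b (Set.Ioo_subset_Icc_self hb))
    rw [setIntegral_const, hvol, smul_eq_mul] at h3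
    linarith
  have h4 : ∫ _ in Set.Ioo (z0 0 - r) (z0 0 + r), c * (2 * r)
      ≤ ∫ a in Set.Ioo (z0 0 - r) (z0 0 + r), ∫ b in Set.Ioo (z0 1 - r) (z0 1 + r),
        F (pt a b s) :=
    setIntegral_mono_on (integrableOn_const (by simp)) hout measurableSet_Ioo hin
  rw [setIntegral_const, hvol, smul_eq_mul] at h4
  linarith

end Rho

open Rho in
open Classical in
theorem RHO (hSMO : Stmt_SMO) (hCHX : Stmt_CHX) (hCONN : Stmt_CONN) (hNULL : Stmt_NULL)
    (hPHI0 : Stmt_PHI0) (hMEAN : Stmt_MEAN) : Stmt_RHO := by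
  intro V a b g W hF Φ z0 r e hCh hconn t1 hsep
  obtain ⟨ha, hb, -, hsub, hopen, -, -, hjc, c, C, hc, -, hbox, -⟩ := hCHX V a b g W hF Φ z0 r e hCh
  obtain ⟨hO, -, hsm, -, C1, hC1, hbd⟩ := hPHI0 V a b g W hF Φ z0 r e hCh t1 hsep
  set S := slab V W (z0 2 - e) (z0 2 + e) with hS
  set B := Φ '' obox z0 r e with hB
  have hBopen : IsOpen B := hopen _ (isOpen_obox z0 r e) subset_rfl
  have hBV : B ⊆ V := (Set.image_mono (obox_subset z0 r e)).trans hsub
  have hWB : ∀ z ∈ obox z0 r e, W (Φ z) = z 2 := by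
    obtain ⟨N, -, hN1, -, -, -, -, hN2⟩ := hCh.nbhd
    exact fun z hz => hN2 z (hN1 (obox_subset z0 r e hz))
  have hBS : B ⊆ S := by
    rintro x ⟨z, hz, rfl⟩
    refine ⟨hBV ⟨z, hz, rfl⟩, ?_⟩
    change W (Φ z) ∈ Set.Ioo _ _
    rw [hWB z hz]
    have := abs_lt.mp hz.2.2
    exact ⟨by linarith [this.1], by linarith [this.2]⟩
  have hsingS : sing g W Φ z0 r e ⊆ S := fun x hx => hBS hx.1
  have hWV : ContinuousOn W V := hF.continuousOn
  have hdens : ∀ x ∈ V, 0 < dens g W x := fun x hx => (hSMO.2 g W x (hF.reg hx)).2.2.2.1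
  have hdensc : ContinuousOn (dens g W) V := fun x hx => by
    have h1 := (hSMO.2 g W x (hF.reg hx)).2.2.2.2.2.2.2.2.1
    exact h1.continuousAt.continuousWithinAt
  -- the function `ρ₀` on the slab
  set ρ : E3 → ℝ := Set.indicator S (rho0 g W Φ z0 r e t1) with hρ
  have hρpw : ρ = (S \ sing g W Φ z0 r e).piecewise (lap g W (phi0 g W Φ z0 r e t1)) 0 := by
    ext x
    by_cases hx : x ∈ S
    · by_cases hxs : x ∈ sing g W Φ z0 r e
      · have h1 : x ∉ S \ sing g W Φ z0 r e := fun h => h.2 hxs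
        rw [Set.piecewise_eq_of_notMem _ _ _ h1, hρ, Set.indicator_of_mem hx]
        unfold rho0
        rw [if_pos hxs]
        rfl
      · have h1 : x ∈ S \ sing g W Φ z0 r e := ⟨hx, hxs⟩
        rw [Set.piecewise_eq_of_mem _ _ _ h1, hρ, Set.indicator_of_mem hx]
        unfold rho0
        rw [if_neg hxs]
    · have h1 : x ∉ S \ sing g W Φ z0 r e := fun h => hx h.1
      rw [Set.piecewise_eq_of_notMem _ _ _ h1, hρ, Set.indicator_of_notMem hx]
      rfl
  have hρB : BddMeas ρ := by
    constructor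
    · rw [hρpw]
      refine ContinuousOn.measurable_piecewise ?_ continuousOn_const hO.measurableSet
      intro x hx
      have h1 : ContDiffAt ℝ ∞ (phi0 g W Φ z0 r e t1) x :=
        (hsm x hx).contDiffAt (hO.mem_nhds hx)
      have h2 := (hSMO.2 g W x (hF.reg (slab_subset _ _ hx.1))).2.2.2.2.2.2.2.2.2.2.2.2.1
        _ _ h1 h1
      exact h2.2.1.continuousAt.continuousWithinAt
    · refine ⟨C1, fun x => ?_⟩
      by_cases hx : x ∈ S
      · rw [hρ, Set.indicator_of_mem hx]
        exact hbd x hx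
      · rw [hρ, Set.indicator_of_notMem hx, abs_zero]
        exact hC1.le
  -- the indicator function of the chart
  set β : E3 → ℝ := Set.indicator B (fun _ => (1 : ℝ)) with hβ
  have hβB : BddMeas β := by
    refine ⟨measurable_const.indicator hBopen.measurableSet, 1, fun x => ?_⟩
    by_cases hx : x ∈ B
    · rw [hβ, Set.indicator_of_mem hx, abs_one]
    · rw [hβ, Set.indicator_of_notMem hx, abs_zero]
      exact zero_le_one
  have hcint : ∀ s ∈ Set.Ioo (z0 2 - e) (z0 2 + e),
      c * (2 * r) * (2 * r) ≤ cint g W Φ z0 r β s := by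
    intro s hs
    refine (le_integral z0 r e c hCh.r_pos (jac g W Φ) hjc (fun z hz => (hbox z hz).1) s hs).trans
      (le_of_eq ?_)
    unfold cint
    refine setIntegral_congr_fun measurableSet_Ioo fun x hx => ?_
    refine setIntegral_congr_fun measurableSet_Ioo fun y hy => ?_
    have hmem : pt x y s ∈ obox z0 r e := by
      refine ⟨?_, ?_, ?_⟩
      · change |x - z0 0| < r
        rw [abs_lt]
        exact ⟨by linarith [hx.1], by linarith [hx.2]⟩
      · change |y - z0 1| < r
        rw [abs_lt]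
        exact ⟨by linarith [hy.1], by linarith [hy.2]⟩
      · change |s - z0 2| < e
        rw [abs_lt]
        exact ⟨by linarith [hs.1], by linarith [hs.2]⟩
    have h1 : β (Φ (pt x y s)) = 1 := by
      rw [hβ, Set.indicator_of_mem (Set.mem_image_of_mem Φ hmem)]
    simp only [h1, one_mul]
  have hr := hCh.r_pos
  obtain ⟨e1, he1, he1e, hcon⟩ := hCONN V a b g W hF Φ z0 r e hCh hconn β (c * (2 * r) * (2 * r))
    hβB (fun x hx => by rw [hβ, Set.indicator_of_notMem hx])
    (fun x => Set.indicator_nonneg (fun _ _ => zero_le_one) x) (by positivity) hcint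
  refine ⟨e1, he1, he1e, ?_⟩
  obtain ⟨γ, hγ, hnull⟩ := hcon ρ hρB
  have ha1 : a < z0 2 - e1 := by linarith
  have hb1 : z0 2 + e1 < b := by linarith
  set S1 := slab V W (z0 2 - e1) (z0 2 + e1) with hS1
  have hS1m : MeasurableSet S1 := measurableSet_slab hF _ _
  have hS1V : S1 ⊆ V := slab_subset _ _
  have hS1S : S1 ⊆ S := slab_mono (by linarith) (by linarith)
  have hWS1 : ContinuousOn W S1 := hWV.mono hS1V
  have hdi : IntegrableOn (dens g W) S1 :=
    ((hdensc.mono (cslab_subset _ _)).integrableOn_compact (hF.proper _ _ ha1 hb1)).mono_set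
      (slab_subset_cslab _ _)
  -- integrability of bounded functions
  have hbdint : ∀ (F : E3 → ℝ) (D : ℝ), AEStronglyMeasurable F (volume.restrict S1) →
      (∀ x, |F x| ≤ D) → IntegrableOn (fun x => F x * dens g W x) S1 := by
    intro F D hFm hFb
    exact Integrable.bdd_mul hdi hFm (Eventually.of_forall fun x => by
      rw [Real.norm_eq_abs]; exact hFb x)
  have hcomp : ∀ α : ℝ → ℝ, Measurable α →
      AEStronglyMeasurable (fun x => α (W x)) (volume.restrict S1) := by
    intro α hα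
    exact (hα.comp_aemeasurable (hWS1.aemeasurable hS1m)).aestronglyMeasurable
  obtain ⟨hγm, D, hD⟩ := hγ
  -- the function `γ(W) β`
  have hγβ : BddMeas (fun x => γ (W x) * β x) := by
    constructor
    · have h1 : (fun x => γ (W x) * β x)
          = fun x => γ ((B.piecewise W 0) x) * β x := by
        ext x
        by_cases hx : x ∈ B
        · rw [Set.piecewise_eq_of_mem _ _ _ hx]
        · simp only [hβ, Set.indicator_of_notMem hx, mul_zero]
      rw [h1]
      exact (hγm.comp (ContinuousOn.measurable_piecewise (hWV.mono hBV) continuousOn_const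
        hBopen.measurableSet)).mul hβB.1
    · refine ⟨D, fun x => ?_⟩
      rw [abs_mul]
      have hDx := hD (W x)
      have hD0 : 0 ≤ D := (abs_nonneg _).trans hDx
      by_cases hx : x ∈ B
      · rw [hβ, Set.indicator_of_mem hx, abs_one, mul_one]
        exact hDx
      · rw [hβ, Set.indicator_of_notMem hx, abs_zero, mul_zero]
        exact hD0
  obtain ⟨Bρ, hBρ⟩ := hρB.2
  obtain ⟨Bγ, hBγ⟩ := hγβ.2
  have hdiff : BddMeas (fun x => ρ x - γ (W x) * β x) :=
    ⟨hρB.1.sub hγβ.1, Bρ + Bγ, fun x => (abs_sub _ _).trans (add_le_add (hBρ x) (hBγ x))⟩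
  have hiv := ((hNULL V a b g W hF (z0 2) e1 he1 ha1 hb1).2.2.2 _ hdiff hnull).1
  -- `γ(W) = 0` almost everywhere on the chart
  have hTm : MeasurableSet (S1 ∩ B) := hS1m.inter hBopen.measurableSet
  have hzero : ∀ᵐ x ∂(volume.restrict (S1 ∩ B)), γ (W x) = 0 := by
    refine ae_zero_of_test (S1 ∩ B) hTm W (dens g W) (hWS1.mono Set.inter_subset_left)
      (hdi.mono_set Set.inter_subset_left) (fun x hx => hdens x (hS1V hx.1))
      (Set.Ioo (z0 2 - e1) (z0 2 + e1)) isOpen_Ioo (fun x hx => hx.1.2) γ ⟨hγm, D, hD⟩ ?_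
    intro ψ hψ hψc hψU
    obtain ⟨M, hM⟩ := hψc.exists_bound_of_continuous hψ.continuous
    have hψB : BddMeasR ψ := ⟨hψ.continuous.measurable, M, fun s => by
      rw [← Real.norm_eq_abs]; exact hM s⟩
    have hψUe : tsupport ψ ⊆ Set.Ioo (z0 2 - e) (z0 2 + e) :=
      hψU.trans (Set.Ioo_subset_Ioo (by linarith) (by linarith))
    have h1 := hMEAN V a b g W hF Φ z0 r e hCh t1 hsep ψ (hψ.of_le (by exact_mod_cast le_top)) hψUe
    have h2 : ∫ x in S1, ρ x * ψ (W x) * dens g W x = 0 := by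
      rw [← h1]
      have h3 : ∫ x in S, ψ (W x) * rho0 g W Φ z0 r e t1 x * dens g W x
          = ∫ x in S1, ψ (W x) * rho0 g W Φ z0 r e t1 x * dens g W x := by
        refine (setIntegral_eq_of_subset_of_forall_sdiff_eq_zero (measurableSet_slab hF _ _) hS1S ?_)
        intro x hx
        have h4 : ψ (W x) = 0 := by
          by_contra hne
          have h5 : W x ∈ Set.Ioo (z0 2 - e1) (z0 2 + e1) := hψU (subset_tsupport ψ hne)
          exact hx.2 ⟨hx.1.1, h5⟩
        rw [h4, zero_mul, zero_mul]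
      rw [h3]
      refine setIntegral_congr_fun hS1m fun x hx => ?_
      simp only [hρ, Set.indicator_of_mem (hS1S hx)]
      ring
    have h3 := hiv ψ hψB
    have hi1 : IntegrableOn (fun x => ρ x * ψ (W x) * dens g W x) S1 := by
      refine hbdint (fun x => ρ x * ψ (W x)) (Bρ * M)
        (hρB.1.aestronglyMeasurable.mul (hcomp ψ hψB.1)) ?_
      intro x
      rw [abs_mul]
      have := hM (W x)
      rw [Real.norm_eq_abs] at this
      exact mul_le_mul (hBρ x) this (abs_nonneg _) ((abs_nonneg _).trans (hBρ x))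
    have hi2 : IntegrableOn (fun x => (γ (W x) * β x) * ψ (W x) * dens g W x) S1 := by
      refine hbdint (fun x => (γ (W x) * β x) * ψ (W x)) (Bγ * M)
        (hγβ.1.aestronglyMeasurable.mul (hcomp ψ hψB.1)) ?_
      intro x
      rw [abs_mul]
      have := hM (W x)
      rw [Real.norm_eq_abs] at this
      exact mul_le_mul (hBγ x) this (abs_nonneg _) ((abs_nonneg _).trans (hBγ x))
    have h4 : ∫ x in S1, (ρ x - γ (W x) * β x) * ψ (W x) * dens g W x
        = (∫ x in S1, ρ x * ψ (W x) * dens g W x)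
          - ∫ x in S1, (γ (W x) * β x) * ψ (W x) * dens g W x := by
      rw [← integral_sub hi1 hi2]
      refine integral_congr_ae (Eventually.of_forall fun x => ?_)
      simp only
      ring
    rw [h3, h2, zero_sub, zero_eq_neg] at h4
    rw [← h4, ← setIntegral_indicator hBopen.measurableSet]
    refine setIntegral_congr_fun hS1m fun x _ => ?_
    by_cases hx : x ∈ B
    · simp only [hβ, Set.indicator_of_mem hx, mul_one]
    · simp only [hβ, Set.indicator_of_notMem hx, mul_zero, zero_mul]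
  -- conclusion
  have hzero' : ∀ᵐ x ∂(volume.restrict S1), γ (W x) * β x = 0 := by
    rw [ae_restrict_iff' hTm] at hzero
    rw [ae_restrict_iff' hS1m]
    filter_upwards [hzero] with x hx hxS
    by_cases hxB : x ∈ B
    · rw [hx ⟨hxS, hxB⟩, zero_mul]
    · rw [hβ, Set.indicator_of_notMem hxB, mul_zero]
  obtain ⟨C2, hC2, hN⟩ := hnull
  refine ⟨C2, hC2, fun α hα v hv => ?_⟩
  refine le_trans (le_of_eq ?_) (hN α hα v hv)
  congr 1
  refine integral_congr_ae ?_
  filter_upwards [hzero'] with x hx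
  rw [hx, sub_zero]

end Pool.Agent.PFlow.GB
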