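import Pool.Agent.PFlow.G.Base
import Pool.Agent.PenroseSph.Calc

/-!
# Module RUL: product and chain rules of the leafwise calculus
-/

open MeasureTheory Filter Topology
open scoped ContDiff

namespace Pool.Agent.PFlow.GB

open Pool.Agent.PenroseSph Pool.Agent.PFlow

namespace RUL

variable {g : TensorField} {W f h k : E3 → ℝ} {x : E3}

/-! ## Gradients -/

lemma grad_add (hf : DifferentiableAt ℝ f x) (hh : DifferentiableAt ℝ h x) :
    grad (fun y => f y + h y) x = fun i => grad f x i + grad h x i := by
  funext i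
  exact pd_add hf hh

lemma grad_mul (hf : DifferentiableAt ℝ f x) (hh : DifferentiableAt ℝ h x) :
    grad (fun y => f y * h y) x = fun i => f x * grad h x i + h x * grad f x i := by
  funext i
  exact pd_mul hf hh

lemma grad_comp {F : ℝ → ℝ} (hf : DifferentiableAt ℝ f x) (hF : DifferentiableAt ℝ F (f x)) :
    grad (fun y => F (f y)) x = fun i => deriv F (f x) * grad f x i := by
  funext i
  have h1 : HasFDerivAt (fun y => F (f y)) (deriv F (f x) • fderiv ℝ f x) x :=
    hF.hasDerivAt.comp_hasFDerivAt x hf.hasFDerivAt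
  simp only [grad, pd, h1.fderiv]
  rfl

/-! ## Linear algebra -/

lemma lgrad_eq (g : TensorField) (W f : E3 → ℝ) (x : E3) (i : Fin 3) :
    lgrad g W f x i = ∑ j, prj g x (grad W x) i j * grad f x j := by
  simp only [lgrad, raise, prj, Finset.mul_sum, sub_mul, Finset.sum_sub_distrib]
  congr 1
  refine Finset.sum_congr rfl fun j _ => ?_
  ring

lemma lip_eq (g : TensorField) (x : E3) (p A B : Cov) :
    lip g x p A B = ∑ i, ∑ j, prj g x p i j * A i * B j := by
  simp only [lip, ev, prj, Finset.sum_mul_sum, sub_mul, Finset.sum_sub_distrib]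
  congr 1
  refine Finset.sum_congr rfl fun i _ => Finset.sum_congr rfl fun j _ => ?_
  ring

lemma lip_add (g : TensorField) (x : E3) (p A A' B : Cov) :
    lip g x p (fun i => A i + A' i) B = lip g x p A B + lip g x p A' B := by
  simp only [lip_eq, ← Finset.sum_add_distrib]
  refine Finset.sum_congr rfl fun i _ => Finset.sum_congr rfl fun j _ => ?_
  ring

lemma lip_smul (g : TensorField) (x : E3) (p : Cov) (c : ℝ) (A B : Cov) :
    lip g x p (fun i => c * A i) B = c * lip g x p A B := by
  simp only [lip_eq, Finset.mul_sum]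
  refine Finset.sum_congr rfl fun i _ => Finset.sum_congr rfl fun j _ => ?_
  ring

/-! ## Divergences -/

lemma ldiv_congr {Y Z : E3 → Cov} (hYZ : ∀ i, (fun y => Y y i) =ᶠ[𝓝 x] (fun y => Z y i)) :
    ldiv g W Y x = ldiv g W Z x := by
  simp only [ldiv]
  congr 1
  refine Finset.sum_congr rfl fun i _ => ?_
  refine pd_congr ?_
  filter_upwards [hYZ i] with y hy
  rw [hy]

lemma ldiv_add {Y Z : E3 → Cov} (hd : DifferentiableAt ℝ (dens g W) x)
    (hY : ∀ i, DifferentiableAt ℝ (fun y => Y y i) x)
    (hZ : ∀ i, DifferentiableAt ℝ (fun y => Z y i) x) :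
    ldiv g W (fun y i => Y y i + Z y i) x = ldiv g W Y x + ldiv g W Z x := by
  simp only [ldiv]
  rw [← add_div, ← Finset.sum_add_distrib]
  congr 1
  refine Finset.sum_congr rfl fun i _ => ?_
  rw [← pd_add (hd.fun_mul (hY i)) (hd.fun_mul (hZ i))]
  congr 1
  funext y
  ring

lemma ldiv_mul {Y : E3 → Cov} (hd : DifferentiableAt ℝ (dens g W) x) (hd0 : dens g W x ≠ 0)
    (hf : DifferentiableAt ℝ f x) (hY : ∀ i, DifferentiableAt ℝ (fun y => Y y i) x) :
    ldiv g W (fun y i => f y * Y y i) x = f x * ldiv g W Y x + ∑ i, Y x i * grad f x i := by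
  have h1 : ∀ i, pd i (fun y => dens g W y * (f y * Y y i)) x
      = f x * pd i (fun y => dens g W y * Y y i) x + dens g W x * (Y x i * grad f x i) := by
    intro i
    have h2 : (fun y => dens g W y * (f y * Y y i)) = fun y => f y * (dens g W y * Y y i) := by
      funext y
      ring
    rw [h2, pd_mul hf (hd.fun_mul (hY i))]
    simp only [grad]
    ring
  simp only [ldiv]
  rw [Finset.sum_congr rfl (fun i _ => h1 i), Finset.sum_add_distrib, ← Finset.mul_sum,
    ← Finset.mul_sum, add_div, mul_div_assoc, mul_div_cancel_left₀ _ hd0]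

end RUL

open RUL in
/-- **(RUL)** The rules of the leafwise calculus. -/
theorem RUL (hALG : Stmt_ALG) (hSMO : Stmt_SMO) : Stmt_RUL := by
  intro g W x hx
  -- data at the points near `x`
  have hnz : ∀ {y : E3}, Reg g W y → (g y).PosDef ∧ grad W y ≠ 0 ∧ ContDiffAt ℝ ∞ W y := by
    rintro y ⟨O, hO, hy, hm, hW, hg⟩
    exact ⟨hm.posDef y hy, hg y hy, (hW y hy).contDiffAt (hO.mem_nhds hy)⟩
  obtain ⟨hP, hW0, hWs⟩ := hnz hx
  obtain ⟨-, -, -, -, hsym, hker, -, -, -, hlsym, -, hlnn, hlcs, -, -⟩ :=
    hALG g x (grad W x) hP hW0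
  obtain ⟨hev, -, -, hd0, -, -, -, -, hds, -, -, -, -, hn1, -⟩ := hSMO.2 g W x hx
  have hd : DifferentiableAt ℝ (dens g W) x := hds.differentiableAt (by simp)
  have hd0' : dens g W x ≠ 0 := hd0.ne'
  have hlg : ∀ {f : E3 → ℝ}, ContDiffAt ℝ 2 f x →
      ∀ i, DifferentiableAt ℝ (fun y => lgrad g W f y i) x := by
    intro f hf i
    exact ((hn1 1 f f (by exact_mod_cast hf) (by exact_mod_cast hf)).2 i).differentiableAt
      (by simp)
  have hker0 : ∀ {y : E3}, Reg g W y → ∀ i, ∑ j, prj g y (grad W y) i j * grad W y j = 0 := by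
    intro y hy i
    obtain ⟨h1, h2, -⟩ := hnz hy
    exact (hALG g y (grad W y) h1 h2).2.2.2.2.2.1 i
  -- (1)
  have r1 : ∀ f : E3 → ℝ, ∑ i, lgrad g W f x i * grad W x i = 0 := by
    intro f
    have h1 : ∀ i, lgrad g W f x i * grad W x i
        = ∑ j, grad f x j * (prj g x (grad W x) j i * grad W x i) := by
      intro i
      rw [lgrad_eq, Finset.sum_mul]
      refine Finset.sum_congr rfl fun j _ => ?_
      rw [hsym i j]
      ring
    rw [Finset.sum_congr rfl (fun i _ => h1 i), Finset.sum_comm]
    refine Finset.sum_eq_zero fun j _ => ?_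
    rw [← Finset.mul_sum, hker j, mul_zero]
  -- (2)
  have r2 : ∀ f h : E3 → ℝ, ∑ i, lgrad g W f x i * grad h x i = lin g W f h x := by
    intro f h
    rw [lin, hlsym, lip_eq]
    refine Finset.sum_congr rfl fun i _ => ?_
    rw [lgrad_eq, Finset.sum_mul]
    refine Finset.sum_congr rfl fun j _ => ?_
    ring
  have r5 : ∀ (f : E3 → ℝ) (i : Fin 3),
      lgrad g W f x i = ∑ j, prj g x (grad W x) i j * pd j f x := fun f i => lgrad_eq g W f x i
  -- (12)
  have r12 : ∀ (f : E3 → ℝ) (Y : E3 → Cov), DifferentiableAt ℝ f x →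
      (∀ i, DifferentiableAt ℝ (fun y => Y y i) x) →
      ldiv g W (fun y i => f y * Y y i) x = f x * ldiv g W Y x + ∑ i, Y x i * grad f x i :=
    fun f Y hf hY => ldiv_mul hd hd0' hf hY
  have hdiff : ∀ {f : E3 → ℝ}, ContDiffAt ℝ 2 f x → ∀ᶠ y in 𝓝 x, DifferentiableAt ℝ f y := by
    intro f hf
    filter_upwards [hf.eventually (by simp)] with y hy
    exact hy.differentiableAt (by simp)
  -- (7)
  have r7 : ∀ f h k : E3 → ℝ, DifferentiableAt ℝ f x → DifferentiableAt ℝ h x →
      DifferentiableAt ℝ k x →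
      lin g W (fun y => f y + h y) k x = lin g W f k x + lin g W h k x ∧
      lin g W (fun y => f y * h y) k x = f x * lin g W h k x + h x * lin g W f k x := by
    intro f h k hf hh _
    refine ⟨?_, ?_⟩
    · rw [lin, grad_add hf hh, lip_add]
      rfl
    · rw [lin, grad_mul hf hh, lip_add, lip_smul, lip_smul]
      rfl
  -- (8)
  have r8 : ∀ (f k : E3 → ℝ) (F : ℝ → ℝ), DifferentiableAt ℝ f x →
      DifferentiableAt ℝ F (f x) →
      lin g W (fun y => F (f y)) k x = deriv F (f x) * lin g W f k x := by
    intro f k F hf hF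
    rw [lin, grad_comp hf hF, lip_smul]
    rfl
  have hWd : DifferentiableAt ℝ W x := hWs.differentiableAt (by simp)
  refine ⟨r1, r2, ?_, ?_, r5, ?_, r7, r8, ?_, ?_, ?_, r12⟩
  · -- (3)
    intro f h
    exact ⟨hlsym _ _, hlnn _, hlcs _ _⟩
  · -- (4)
    intro f h hf hh
    have h1 : lin g W (fun y => f y + h y) (fun y => f y + h y) x
        = lin g W f f x + 2 * lin g W f h x + lin g W h h x := by
      rw [lin, grad_add hf hh, lip_add, hlsym (grad f x), hlsym (grad h x), lip_add, lip_add,
        hlsym (grad h x) (grad f x)]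
      simp only [lin]
      ring
    rw [h1]
    have h2 : 0 ≤ lin g W f f x := hlnn _
    have h3 : 0 ≤ lin g W h h x := hlnn _
    have h4 : lin g W f h x ^ 2 ≤ lin g W f f x * lin g W h h x := hlcs _ _
    have h5 : lin g W f h x ≤ Real.sqrt (lin g W f f x) * Real.sqrt (lin g W h h x) := by
      rw [← Real.sqrt_mul h2]
      exact Real.le_sqrt_of_sq_le h4
    rw [Real.sqrt_le_left (by positivity)]
    nlinarith [Real.sq_sqrt h2, Real.sq_sqrt h3]
  · -- (6)
    intro f h hf hh
    refine ⟨?_, ?_⟩
    · have h1 : lap g W (fun y => f y + h y) x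
          = ldiv g W (fun y i => lgrad g W f y i + lgrad g W h y i) x := by
        refine ldiv_congr fun i => ?_
        filter_upwards [hdiff hf, hdiff hh] with y hy1 hy2
        rw [lgrad_eq, lgrad_eq, lgrad_eq, grad_add hy1 hy2, ← Finset.sum_add_distrib]
        refine Finset.sum_congr rfl fun j _ => ?_
        ring
      rw [h1, ldiv_add hd (hlg hf) (hlg hh)]
      rfl
    · have h1 : lap g W (fun y => f y * h y) x
          = ldiv g W (fun y i => f y * lgrad g W h y i + h y * lgrad g W f y i) x := by
        refine ldiv_congr fun i => ?_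
        filter_upwards [hdiff hf, hdiff hh] with y hy1 hy2
        rw [lgrad_eq, lgrad_eq, lgrad_eq, grad_mul hy1 hy2, Finset.mul_sum, Finset.mul_sum,
          ← Finset.sum_add_distrib]
        refine Finset.sum_congr rfl fun j _ => ?_
        ring
      have hfd : DifferentiableAt ℝ f x := (hdiff hf).self_of_nhds
      have hhd : DifferentiableAt ℝ h x := (hdiff hh).self_of_nhds
      rw [h1, ldiv_add hd (fun i => hfd.fun_mul (hlg hh i)) (fun i => hhd.fun_mul (hlg hf i)),
        r12 f _ hfd (hlg hh), r12 h _ hhd (hlg hf), r2, r2]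
      have h2 : lin g W h f x = lin g W f h x := hlsym _ _
      rw [h2]
      simp only [lap]
      ring
  · -- (9)
    intro f F hf hF
    have hfd : DifferentiableAt ℝ f x := (hdiff hf).self_of_nhds
    have hFev : ∀ᶠ y in 𝓝 x, DifferentiableAt ℝ F (f y) := by
      have h1 : ∀ᶠ s in 𝓝 (f x), DifferentiableAt ℝ F s := by
        filter_upwards [hF.eventually (by simp)] with s hs
        exact hs.differentiableAt (by simp)
      exact hfd.continuousAt.eventually h1
    have hF' : DifferentiableAt ℝ (deriv F) (f x) := by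
      have h1 : ContDiffAt ℝ 1 (fderiv ℝ F) (f x) := hF.fderiv_right (by norm_num)
      have h2 : DifferentiableAt ℝ (fun s => fderiv ℝ F s 1) (f x) :=
        (h1.differentiableAt (by simp)).clm_apply (differentiableAt_const _)
      exact h2
    have h1 : lap g W (fun y => F (f y)) x
        = ldiv g W (fun y i => (fun z => deriv F (f z)) y * lgrad g W f y i) x := by
      refine ldiv_congr fun i => ?_
      filter_upwards [hdiff hf, hFev] with y hy1 hy2
      rw [lgrad_eq, lgrad_eq, grad_comp hy1 hy2, Finset.mul_sum]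
      refine Finset.sum_congr rfl fun j _ => ?_
      ring
    have h2 : DifferentiableAt ℝ (fun z => deriv F (f z)) x :=
      DifferentiableAt.fun_comp' x hF' hfd
    rw [h1, r12 _ _ h2 (hlg hf), grad_comp (F := deriv F) hfd hF']
    have h3 : ∑ i, lgrad g W f x i * (deriv (deriv F) (f x) * grad f x i)
        = deriv (deriv F) (f x) * lin g W f f x := by
      rw [← r2, Finset.mul_sum]
      refine Finset.sum_congr rfl fun i _ => ?_
      ring
    rw [h3]
    rfl
  · -- (10)
    intro k F hF
    rw [r8 W k F hWd hF]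
    have h1 : lin g W W k x = 0 := by
      rw [lin, lip_eq]
      rw [Finset.sum_comm]
      refine Finset.sum_eq_zero fun j _ => ?_
      rw [← Finset.sum_mul]
      have h2 : ∑ i, prj g x (grad W x) i j * grad W x i = 0 := by
        rw [← hker j]
        exact Finset.sum_congr rfl fun i _ => by rw [hsym i j]
      rw [h2, zero_mul]
    rw [h1, mul_zero]
  · -- (11)
    intro f F hf hF
    have hFev : ∀ᶠ y in 𝓝 x, DifferentiableAt ℝ F (W y) := by
      have h1 : ∀ᶠ s in 𝓝 (W x), DifferentiableAt ℝ F s := by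
        filter_upwards [hF.eventually (by simp)] with s hs
        exact hs.differentiableAt (by simp)
      exact hWd.continuousAt.eventually h1
    have h1 : lap g W (fun y => F (W y) * f y) x
        = ldiv g W (fun y i => (fun z => F (W z)) y * lgrad g W f y i) x := by
      refine ldiv_congr fun i => ?_
      filter_upwards [hdiff hf, hFev, hev] with y hy1 hy2 hy3
      have hWy : DifferentiableAt ℝ W y := (hnz hy3).2.2.differentiableAt (by simp)
      have hFW : DifferentiableAt ℝ (fun z => F (W z)) y :=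
        DifferentiableAt.fun_comp' y hy2 hWy
      rw [lgrad_eq, lgrad_eq, grad_mul hFW hy1, grad_comp hWy hy2]
      have h2 : ∀ j, prj g y (grad W y) i j * (F (W y) * grad f y j
          + f y * (deriv F (W y) * grad W y j))
          = F (W y) * (prj g y (grad W y) i j * grad f y j)
            + f y * deriv F (W y) * (prj g y (grad W y) i j * grad W y j) := fun j => by ring
      rw [Finset.sum_congr rfl (fun j _ => h2 j), Finset.sum_add_distrib, ← Finset.mul_sum,
        ← Finset.mul_sum, hker0 hy3 i, mul_zero, add_zero]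
    have hFx : DifferentiableAt ℝ F (W x) := hFev.self_of_nhds
    have h2 : DifferentiableAt ℝ (fun z => F (W z)) x :=
      DifferentiableAt.fun_comp' x hFx hWd
    rw [h1, r12 _ _ h2 (hlg hf), grad_comp hWd hFx]
    have h3 : ∑ i, lgrad g W f x i * (deriv F (W x) * grad W x i) = 0 := by
      have h4 : ∀ i, lgrad g W f x i * (deriv F (W x) * grad W x i)
          = deriv F (W x) * (lgrad g W f x i * grad W x i) := fun i => by ring
      rw [Finset.sum_congr rfl (fun i _ => h4 i), ← Finset.mul_sum, r1, mul_zero]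
    rw [h3, add_zero]
    rfl

end Pool.Agent.PFlow.GB
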