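import Pool.Agent.PFlow.G.Base

/-!
# (SCAL) Scaling limit at a pole
-/

open MeasureTheory Filter Topology
open scoped ContDiff

namespace Pool.Agent.PFlow.GB.Scal

open Pool.Agent.PenroseSph Pool.Agent.PFlow

/-- Polar coordinates. -/
lemma integral_radial (h : ℝ → ℝ) :
    ∫ p : ℝ × ℝ, h (p.1 ^ 2 + p.2 ^ 2) = Real.pi * ∫ s in Set.Ioi (0 : ℝ), h s := by
  rw [← integral_comp_polarCoord_symm]
  have h1 : ∀ p : ℝ × ℝ, p.1 • h ((polarCoord.symm p).1 ^ 2 + (polarCoord.symm p).2 ^ 2) =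
      (p.1 * h (p.1 ^ 2)) * (1 : ℝ) := by
    intro p
    have : (polarCoord.symm p).1 ^ 2 + (polarCoord.symm p).2 ^ 2 = p.1 ^ 2 := by
      rw [polarCoord_symm_apply]
      have := Real.sin_sq_add_cos_sq p.2
      simp only
      linear_combination p.1 ^ 2 * this
    rw [this, smul_eq_mul, mul_one]
  simp only [h1]
  rw [polarCoord_target, Measure.volume_eq_prod,
    setIntegral_prod_mul (fun r : ℝ => r * h (r ^ 2)) (fun _ : ℝ => (1 : ℝ))]
  have h2 := integral_comp_rpow_Ioi_of_pos (g := h) (p := 2) (by norm_num)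
  have h3 : ∫ x in Set.Ioi (0 : ℝ), (2 * x ^ ((2 : ℝ) - 1)) • h (x ^ (2 : ℝ)) =
      2 * ∫ x in Set.Ioi (0 : ℝ), x * h (x ^ 2) := by
    rw [← integral_const_mul]
    refine setIntegral_congr_fun measurableSet_Ioi fun x _ => ?_
    have e1 : (2 : ℝ) - 1 = 1 := by norm_num
    simp only [e1, Real.rpow_one, Real.rpow_two, smul_eq_mul]
    ring
  rw [h3] at h2
  rw [← h2]
  have h4 : ∫ _ in Set.Ioo (-Real.pi) Real.pi, (1 : ℝ) = 2 * Real.pi := by
    rw [setIntegral_const, smul_eq_mul, mul_one, Real.volume_real_Ioo_of_le (by linarith [Real.pi_pos])]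
    ring
  rw [h4]
  ring

/-- The linear map `(x, y) ↦ (√A (x + (B/A) y), √(Δ/A) y)`. -/
noncomputable def lmap (α β γ : ℝ) : ℝ × ℝ →ₗ[ℝ] ℝ × ℝ where
  toFun p := (α * p.1 + β * p.2, γ * p.2)
  map_add' p q := by ext <;> simp <;> ring
  map_smul' c p := by ext <;> simp <;> ring

lemma lmap_det (α β γ : ℝ) : LinearMap.det (lmap α β γ) = α * γ := by
  rw [← LinearMap.det_toMatrix (Module.Basis.finTwoProd ℝ), Matrix.det_fin_two]
  simp [LinearMap.toMatrix_apply, lmap]

lemma integral_quad (A B D : ℝ) (hA : 0 < A) (hD : 0 < A * D - B ^ 2) (h : ℝ → ℝ) :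
    ∫ p : ℝ × ℝ, h (A * p.1 ^ 2 + 2 * B * p.1 * p.2 + D * p.2 ^ 2) =
      (Real.sqrt (A * D - B ^ 2))⁻¹ * (Real.pi * ∫ s in Set.Ioi (0 : ℝ), h s) := by
  set Δ := A * D - B ^ 2 with hΔ
  set L := lmap (Real.sqrt A) (B / Real.sqrt A) (Real.sqrt (Δ / A)) with hL
  have sA : 0 < Real.sqrt A := Real.sqrt_pos.mpr hA
  have sA2 : Real.sqrt A ^ 2 = A := Real.sq_sqrt hA.le
  have sG : 0 < Real.sqrt (Δ / A) := Real.sqrt_pos.mpr (by positivity)
  have sG2 : Real.sqrt (Δ / A) ^ 2 = Δ / A := Real.sq_sqrt (by positivity)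
  have det : LinearMap.det L = Real.sqrt Δ := by
    rw [hL, lmap_det, ← Real.sqrt_mul hA.le]
    congr 1
    field_simp
  have det0 : LinearMap.det L ≠ 0 := by
    rw [det]; exact (Real.sqrt_pos.mpr hD).ne'
  have h1 : ∀ p : ℝ × ℝ, A * p.1 ^ 2 + 2 * B * p.1 * p.2 + D * p.2 ^ 2 =
      (L p).1 ^ 2 + (L p).2 ^ 2 := by
    intro p
    have : (L p).1 ^ 2 + (L p).2 ^ 2 = (Real.sqrt A * p.1 + B / Real.sqrt A * p.2) ^ 2 +
        (Real.sqrt (Δ / A) * p.2) ^ 2 := rfl
    rw [this, mul_pow (Real.sqrt (Δ / A)), sG2]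
    have e1 : (Real.sqrt A * p.1 + B / Real.sqrt A * p.2) ^ 2 =
        A * p.1 ^ 2 + 2 * B * p.1 * p.2 + B ^ 2 / A * p.2 ^ 2 := by
      have : (Real.sqrt A * p.1 + B / Real.sqrt A * p.2) ^ 2 =
          Real.sqrt A ^ 2 * p.1 ^ 2 + 2 * B * p.1 * p.2 * (Real.sqrt A / Real.sqrt A) +
            B ^ 2 / Real.sqrt A ^ 2 * p.2 ^ 2 := by
        field_simp
        ring
      rw [this, sA2, div_self sA.ne']
      ring
    rw [e1, hΔ]
    field_simp
    ring
  simp only [h1]
  have h2 : Measure.map L (volume : Measure (ℝ × ℝ)) =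
      ENNReal.ofReal |(LinearMap.det L)⁻¹| • (volume : Measure (ℝ × ℝ)) :=
    Measure.map_linearMap_addHaar_eq_smul_addHaar volume det0
  have hequiv : MeasurableEmbedding L := by
    have he : ⇑(LinearMap.equivOfDetNeZero L det0).toContinuousLinearEquiv.toHomeomorph = ⇑L := rfl
    rw [← he]
    exact Homeomorph.measurableEmbedding _
  have h3 := hequiv.integral_map (μ := (volume : Measure (ℝ × ℝ)))
    (fun q : ℝ × ℝ => h (q.1 ^ 2 + q.2 ^ 2))
  rw [← h3, h2, integral_smul_measure, integral_radial, det]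
  rw [ENNReal.toReal_ofReal (abs_nonneg _), abs_of_pos (inv_pos.mpr (Real.sqrt_pos.mpr hD)),
    smul_eq_mul]


/-! ### Boxes -/

@[simp] lemma pt_zero (a b s : ℝ) : (pt a b s) 0 = a := rfl
@[simp] lemma pt_one (a b s : ℝ) : (pt a b s) 1 = b := rfl
@[simp] lemma pt_two (a b s : ℝ) : (pt a b s) 2 = s := rfl

lemma mem_obox {z0 : E3} {r e a b s : ℝ} :
    pt a b s ∈ obox z0 r e ↔ |a - z0 0| < r ∧ |b - z0 1| < r ∧ |s - z0 2| < e := Iff.rfl

lemma continuous_coord (i : Fin 3) : Continuous fun z : E3 => z i :=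
  (EuclideanSpace.proj (𝕜 := ℝ) i).continuous

lemma isOpen_obox (z0 : E3) (r e : ℝ) : IsOpen (obox z0 r e) := by
  have h : ∀ (i : Fin 3) (ρ : ℝ), IsOpen {z : E3 | |z i - z0 i| < ρ} := fun i ρ =>
    isOpen_lt ((continuous_coord i).sub continuous_const).abs continuous_const
  exact (h 0 r).inter ((h 1 r).inter (h 2 e))

lemma isBounded_obox (z0 : E3) (r e : ℝ) : Bornology.IsBounded (obox z0 r e) := by
  refine (Metric.isBounded_iff_subset_closedBall z0).mpr ⟨Real.sqrt (r ^ 2 + r ^ 2 + e ^ 2), ?_⟩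
  intro z hz
  rw [Metric.mem_closedBall, EuclideanSpace.dist_eq]
  refine Real.sqrt_le_sqrt ?_
  rw [Fin.sum_univ_three]
  obtain ⟨h0, h1, h2⟩ := hz
  have e1 : ∀ {x ρ : ℝ}, |x| < ρ → x ^ 2 ≤ ρ ^ 2 := fun {x ρ} hx => by
    rw [← sq_abs]
    gcongr
  simp only [Real.dist_eq, sq_abs]
  exact add_le_add (add_le_add (e1 h0) (e1 h1)) (e1 h2)

lemma continuous_pt : Continuous fun q : ℝ × ℝ × ℝ => pt q.1 q.2.1 q.2.2 := by
  have : Continuous fun q : ℝ × ℝ × ℝ => (![q.1, q.2.1, q.2.2] : Fin 3 → ℝ) := by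
    refine continuous_pi fun i => ?_
    fin_cases i
    · exact continuous_fst
    · exact continuous_snd.fst
    · exact continuous_snd.snd
  exact (PiLp.continuous_toLp 2 _).comp this

/-- Scaling of an integral over the line. -/
lemma scale (φ : ℝ → ℝ) (m : ℝ) {u : ℝ} (hu : 0 < u) :
    ∫ a, φ a = u * ∫ y, φ (m + u * y) := by
  have h1 : ∫ y, φ (m + u * y) = |u⁻¹| • ∫ y, φ (m + y) :=
    Measure.integral_comp_mul_left (fun y => φ (m + y)) u
  rw [h1, integral_add_left_eq_self, abs_of_pos (inv_pos.mpr hu), smul_eq_mul, ← mul_assoc,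
    mul_inv_cancel₀ hu.ne', one_mul]

/-- The point `p + u y` at level `s`. -/
noncomputable def tha (z0 : E3) (τ u : ℝ) (q : ℝ × ℝ × ℝ) : E3 :=
  pt (z0 0 + τ + u * q.2.1) (z0 1 + u * q.2.2) q.1

lemma continuous_tha (z0 : E3) (τ u : ℝ) : Continuous (tha z0 τ u) := by
  have : Continuous fun q : ℝ × ℝ × ℝ =>
      ((z0 0 + τ + u * q.2.1, z0 1 + u * q.2.2, q.1) : ℝ × ℝ × ℝ) := by fun_prop
  exact continuous_pt.comp this

lemma continuous_tha_u (z0 : E3) (τ : ℝ) (q : ℝ × ℝ × ℝ) :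
    Continuous fun u => tha z0 τ u q := by
  have : Continuous fun u : ℝ =>
      ((z0 0 + τ + u * q.2.1, z0 1 + u * q.2.2, q.1) : ℝ × ℝ × ℝ) := by fun_prop
  exact continuous_pt.comp this

/-- The iterated integral over a box as an integral in the scaled variables. -/
lemma iter (z0 : E3) (r e τ : ℝ) (F : E3 → ℝ) {u : ℝ} (hu : 0 < u) :
    (∫ s in Set.Ioo (z0 2 - e) (z0 2 + e), ∫ a in Set.Ioo (z0 0 - r) (z0 0 + r),
      ∫ b in Set.Ioo (z0 1 - r) (z0 1 + r), F (pt a b s)) =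
    u ^ 2 * ∫ s, ∫ y0, ∫ y1, (obox z0 r e).indicator F (tha z0 τ u (s, y0, y1)) := by
  set H : ℝ → ℝ → ℝ → ℝ := fun s a b => (obox z0 r e).indicator F (pt a b s) with hH
  have mI : ∀ {x m ρ : ℝ}, x ∈ Set.Ioo (m - ρ) (m + ρ) ↔ |x - m| < ρ := by
    intro x m ρ
    rw [abs_lt, Set.mem_Ioo]
    constructor
    · rintro ⟨h1, h2⟩; exact ⟨by linarith, by linarith⟩
    · rintro ⟨h1, h2⟩; exact ⟨by linarith, by linarith⟩
  have h1 : (∫ s in Set.Ioo (z0 2 - e) (z0 2 + e), ∫ a in Set.Ioo (z0 0 - r) (z0 0 + r),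
      ∫ b in Set.Ioo (z0 1 - r) (z0 1 + r), F (pt a b s)) = ∫ s, ∫ a, ∫ b, H s a b := by
    rw [← integral_indicator measurableSet_Ioo]
    refine integral_congr_ae (Eventually.of_forall fun s => ?_)
    by_cases hs : s ∈ Set.Ioo (z0 2 - e) (z0 2 + e)
    · simp only [Set.indicator_of_mem hs]
      rw [← integral_indicator measurableSet_Ioo]
      refine integral_congr_ae (Eventually.of_forall fun a => ?_)
      by_cases ha : a ∈ Set.Ioo (z0 0 - r) (z0 0 + r)
      · simp only [Set.indicator_of_mem ha]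
        rw [← integral_indicator measurableSet_Ioo]
        refine integral_congr_ae (Eventually.of_forall fun b => ?_)
        by_cases hb : b ∈ Set.Ioo (z0 1 - r) (z0 1 + r)
        · have hm : pt a b s ∈ obox z0 r e :=
            mem_obox.mpr ⟨mI.mp ha, mI.mp hb, mI.mp hs⟩
          simp only [hH, Set.indicator_of_mem hb, Set.indicator_of_mem hm]
        · have hm : pt a b s ∉ obox z0 r e := fun h => hb (mI.mpr (mem_obox.mp h).2.1)
          simp only [hH, Set.indicator_of_notMem hb, Set.indicator_of_notMem hm]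
      · have hm : ∀ b, pt a b s ∉ obox z0 r e := fun b h => ha (mI.mpr (mem_obox.mp h).1)
        simp only [hH, Set.indicator_of_notMem ha]
        rw [integral_congr_ae (g := fun _ => (0 : ℝ))
          (Eventually.of_forall fun b => Set.indicator_of_notMem (hm b) F)]
        simp
    · have hm : ∀ a b, pt a b s ∉ obox z0 r e := fun a b h => hs (mI.mpr (mem_obox.mp h).2.2)
      simp only [hH, Set.indicator_of_notMem hs]
      rw [integral_congr_ae (g := fun _ => (0 : ℝ)) (Eventually.of_forall fun a => by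
        change (∫ b, (obox z0 r e).indicator F (pt a b s)) = 0
        rw [integral_congr_ae (g := fun _ => (0 : ℝ))
          (Eventually.of_forall fun b => Set.indicator_of_notMem (hm a b) F)]
        simp)]
      simp
  rw [h1, ← integral_const_mul]
  refine integral_congr_ae (Eventually.of_forall fun s => ?_)
  change (∫ a, ∫ b, H s a b) = u ^ 2 * _
  rw [scale (fun a => ∫ b, H s a b) (z0 0 + τ) hu]
  have h2 : ∀ y0, (∫ b, H s (z0 0 + τ + u * y0) b) =
      u * ∫ y1, H s (z0 0 + τ + u * y0) (z0 1 + u * y1) := fun y0 =>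
    scale (fun b => H s (z0 0 + τ + u * y0) b) (z0 1) hu
  simp only [h2]
  rw [integral_const_mul, ← mul_assoc, ← pow_two]
  rfl

/-! ### The abstract scaling limit -/

lemma bound_h {h : ℝ → ℝ} (hh : Continuous h) {S : ℝ} (hS : ∀ s, S ≤ s → h s = 0) :
    ∃ C, 0 ≤ C ∧ ∀ s, 0 ≤ s → |h s| ≤ C := by
  obtain ⟨C, hC⟩ := (isCompact_Icc (a := (0 : ℝ)) (b := S)).exists_bound_of_continuousOn
    hh.continuousOn
  refine ⟨max C 0, le_max_right _ _, fun s hs => ?_⟩
  by_cases h1 : s ≤ S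
  · exact le_max_of_le_left (by simpa [Real.norm_eq_abs] using hC s ⟨hs, h1⟩)
  · rw [hS s (le_of_lt (not_le.mp h1)), abs_zero]
    exact le_max_right _ _

open Classical in
/-- The abstract scaling limit. -/
lemma absScal (hFUB : Stmt_FUB) (z0 : E3) (r e τ : ℝ) (hτ : |τ| < r) (R J : E3 → ℝ)
    (c C : ℝ) (hc : 0 < c) (hC : 0 ≤ C) (hR : ContinuousOn R (obox z0 r e))
    (hJ : ContinuousOn J (obox z0 r e))
    (hR0 : ∀ z ∈ obox z0 r e, c * ((z 0 - (z0 0 + τ)) ^ 2 + (z 1 - z0 1) ^ 2) ≤ R z)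
    (hJ0 : ∀ z ∈ obox z0 r e, |J z| ≤ C)
    (hlim : ∀ s ∈ Set.Ioo (z0 2 - e) (z0 2 + e), ∃ A B D : ℝ, 0 < A ∧ 0 < A * D - B ^ 2 ∧
      J (pt (z0 0 + τ) (z0 1) s) = Real.sqrt (A * D - B ^ 2) ∧
      ∀ y0 y1 : ℝ, Tendsto (fun u => R (tha z0 τ u (s, y0, y1)) / u ^ 2) (𝓝[>] 0)
        (𝓝 (A * y0 ^ 2 + 2 * B * y0 * y1 + D * y1 ^ 2)))
    (h ψ : ℝ → ℝ) (S : ℝ) (hh : Continuous h) (hS : ∀ s, S ≤ s → h s = 0) (hψ : Continuous ψ)
    (hsupp : tsupport ψ ⊆ Set.Ioo (z0 2 - e) (z0 2 + e)) :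
    Tendsto (fun u => (u ^ 2)⁻¹ * ∫ z in obox z0 r e, ψ (z 2) * h (R z / u ^ 2) * J z) (𝓝[>] 0)
      (𝓝 (Real.pi * (∫ s in Set.Ioi (0 : ℝ), h s) * ∫ s, ψ s)) := by
  obtain ⟨Ch, Ch0, hCh⟩ := bound_h hh hS
  have hψc : HasCompactSupport ψ :=
    Metric.isCompact_of_isClosed_isBounded (isClosed_tsupport ψ)
      ((Metric.isBounded_Ioo _ _).subset hsupp)
  obtain ⟨Cψ', hCψ'⟩ := hψ.bounded_above_of_compact_support hψc
  have hCψ : ∀ s, |ψ s| ≤ max Cψ' 0 := fun s => le_max_of_le_left (hCψ' s)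
  set Cψ := max Cψ' 0
  have Cψ0 : 0 ≤ Cψ := le_max_right _ _
  have hO := isOpen_obox z0 r e
  have hOm := hO.measurableSet
  have hOfin : volume (obox z0 r e) < ⊤ := (isBounded_obox z0 r e).measure_lt_top
  set F : ℝ → E3 → ℝ := fun u z => ψ (z 2) * h (R z / u ^ 2) * J z with hF
  have hRnn : ∀ z ∈ obox z0 r e, 0 ≤ R z := fun z hz =>
    le_trans (by positivity) (hR0 z hz)
  have hFc : ∀ u, ContinuousOn (F u) (obox z0 r e) := fun u =>
    ((hψ.comp (continuous_coord 2)).continuousOn.mul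
      (hh.comp_continuousOn (hR.div_const _))).mul hJ
  have hFb : ∀ u, ∀ z ∈ obox z0 r e, ‖F u z‖ ≤ Cψ * Ch * C := by
    intro u z hz
    rw [Real.norm_eq_abs, hF, abs_mul, abs_mul]
    have h1 := hCψ (z 2)
    have h2 := hCh (R z / u ^ 2) (div_nonneg (hRnn z hz) (sq_nonneg u))
    have h3 := hJ0 z hz
    gcongr
  have hFi : ∀ u, IntegrableOn (F u) (obox z0 r e) := fun u =>
    Integrable.mono' (g := fun _ => Cψ * Ch * C) (integrableOn_const hOfin.ne)
      ((hFc u).aestronglyMeasurable hOm)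
      ((ae_restrict_iff' hOm).mpr (Eventually.of_forall (hFb u)))
  set ρ : ℝ := max S 0 / c + 1 with hρ
  have hρ1 : 1 ≤ ρ := by
    have : 0 ≤ max S 0 / c := by positivity
    linarith
  have hρS : S ≤ c * ρ ^ 2 := by
    have h1 : c * ρ = max S 0 + c := by rw [hρ]; field_simp
    have h2 : c * ρ ≤ c * ρ ^ 2 := by
      have : ρ ≤ ρ ^ 2 := by nlinarith
      gcongr
    have h3 : S ≤ max S 0 := le_max_left _ _
    linarith
  set Bx : Set (ℝ × ℝ × ℝ) :=
    Set.Icc (z0 2 - e) (z0 2 + e) ×ˢ (Set.Icc (-ρ) ρ ×ˢ Set.Icc (-ρ) ρ) with hBx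
  have hBxm : MeasurableSet Bx :=
    measurableSet_Icc.prod (measurableSet_Icc.prod measurableSet_Icc)
  have hBxc : IsCompact Bx := isCompact_Icc.prod (isCompact_Icc.prod isCompact_Icc)
  set bd : ℝ × ℝ × ℝ → ℝ := Bx.indicator fun _ => Cψ * Ch * C with hbd
  have hbdi : Integrable bd := by
    rw [hbd, integrable_indicator_iff hBxm]
    exact integrableOn_const (hBxc.measure_lt_top.ne)
  set f : ℝ → ℝ × ℝ × ℝ → ℝ := fun u q => (obox z0 r e).indicator (F u) (tha z0 τ u q) with hf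
  have hfm : ∀ u, AEStronglyMeasurable (f u) (volume : Measure (ℝ × ℝ × ℝ)) := by
    intro u
    have hθ := continuous_tha z0 τ u
    have hpre : IsOpen (tha z0 τ u ⁻¹' obox z0 r e) := hO.preimage hθ
    have e1 : f u = (tha z0 τ u ⁻¹' obox z0 r e).indicator (fun q => F u (tha z0 τ u q)) := by
      funext q
      by_cases hq : tha z0 τ u q ∈ obox z0 r e
      · rw [Set.indicator_of_mem (show q ∈ tha z0 τ u ⁻¹' obox z0 r e from hq)]
        exact Set.indicator_of_mem hq _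
      · rw [Set.indicator_of_notMem (show q ∉ tha z0 τ u ⁻¹' obox z0 r e from hq)]
        exact Set.indicator_of_notMem hq _
    rw [e1, aestronglyMeasurable_indicator_iff hpre.measurableSet]
    exact ((hFc u).comp hθ.continuousOn fun q hq => hq).aestronglyMeasurable
      hpre.measurableSet
  have hfb : ∀ u, 0 < u → ∀ q, ‖f u q‖ ≤ bd q := by
    intro u hu q
    have hbd0 : 0 ≤ bd q := by
      rw [hbd]
      exact Set.indicator_nonneg (fun _ _ => by positivity) q
    by_cases hq : tha z0 τ u q ∈ obox z0 r e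
    · have e1 : f u q = F u (tha z0 τ u q) := Set.indicator_of_mem hq _
      rw [e1]
      by_cases hB : q ∈ Bx
      · rw [hbd, Set.indicator_of_mem hB]
        exact hFb u _ hq
      · have hz : h (R (tha z0 τ u q) / u ^ 2) = 0 := by
          apply hS
          have h1 := hR0 _ hq
          have h2 : (tha z0 τ u q) 0 - (z0 0 + τ) = u * q.2.1 := by
            change (z0 0 + τ + u * q.2.1) - (z0 0 + τ) = _; ring
          have h3 : (tha z0 τ u q) 1 - z0 1 = u * q.2.2 := by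
            change (z0 1 + u * q.2.2) - z0 1 = _; ring
          rw [h2, h3] at h1
          have h4 : c * (q.2.1 ^ 2 + q.2.2 ^ 2) ≤ R (tha z0 τ u q) / u ^ 2 := by
            rw [le_div_iff₀ (by positivity)]
            refine le_trans (le_of_eq ?_) h1
            ring
          refine le_trans ?_ h4
          refine hρS.trans ?_
          have h5 : ρ ^ 2 ≤ q.2.1 ^ 2 + q.2.2 ^ 2 := by
            have hs : q.1 ∈ Set.Icc (z0 2 - e) (z0 2 + e) := by
              have := (mem_obox.mp hq).2.2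
              rw [abs_lt] at this
              exact ⟨by linarith [this.1], by linarith [this.2]⟩
            have h6 : ¬ (q.2.1 ∈ Set.Icc (-ρ) ρ ∧ q.2.2 ∈ Set.Icc (-ρ) ρ) := fun h7 =>
              hB ⟨hs, h7.1, h7.2⟩
            rw [Set.mem_Icc, Set.mem_Icc, ← abs_le, ← abs_le, not_and_or] at h6
            have h8 : ∀ x : ℝ, ¬ |x| ≤ ρ → ρ ^ 2 ≤ x ^ 2 := fun x hx => by
              rw [← sq_abs x]
              have := le_of_lt (not_le.mp hx)
              gcongr
            rcases h6 with h6 | h6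
            · have := h8 _ h6
              nlinarith [sq_nonneg q.2.2]
            · have := h8 _ h6
              nlinarith [sq_nonneg q.2.1]
          gcongr
        have : F u (tha z0 τ u q) = 0 := by
          rw [hF]
          simp only [hz, mul_zero, zero_mul]
        rw [this, norm_zero]
        exact hbd0
    · have e1 : f u q = 0 := Set.indicator_of_notMem hq _
      rw [e1, norm_zero]
      exact hbd0
  have hfi : ∀ u, 0 < u → Integrable (f u) := fun u hu =>
    hbdi.mono' (hfm u) (Eventually.of_forall (hfb u hu))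
  -- the integral in the scaled variables
  have key : ∀ u, 0 < u → (u ^ 2)⁻¹ * ∫ z in obox z0 r e, F u z = ∫ q, f u q := by
    intro u hu
    rw [hFUB z0 r e (F u) (hFi u), iter z0 r e τ (F u) hu, ← mul_assoc,
      inv_mul_cancel₀ (by positivity), one_mul, Measure.volume_eq_prod,
      integral_prod _ (by rw [← Measure.volume_eq_prod]; exact hfi u hu)]
    have h1 := (show Integrable (f u) ((volume : Measure ℝ).prod volume) by
      rw [← Measure.volume_eq_prod]; exact hfi u hu).prod_right_ae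
    refine integral_congr_ae ?_
    filter_upwards [h1] with s hs
    rw [Measure.volume_eq_prod, integral_prod _ (by rw [← Measure.volume_eq_prod]; exact hs)]
  choose! A B D hA hD hJs hQ using hlim
  set f0 : ℝ × ℝ × ℝ → ℝ := fun q => if q.1 ∈ Set.Ioo (z0 2 - e) (z0 2 + e) then
    ψ q.1 * h (A q.1 * q.2.1 ^ 2 + 2 * B q.1 * q.2.1 * q.2.2 + D q.1 * q.2.2 ^ 2) *
      J (pt (z0 0 + τ) (z0 1) q.1) else 0 with hf0
  have hpt : ∀ q : ℝ × ℝ × ℝ, Tendsto (fun u => f u q) (𝓝[>] 0) (𝓝 (f0 q)) := by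
    rintro ⟨s, y0, y1⟩
    by_cases hs : s ∈ Set.Ioo (z0 2 - e) (z0 2 + e)
    · have hp : pt (z0 0 + τ) (z0 1) s ∈ obox z0 r e := by
        refine mem_obox.mpr ⟨?_, ?_, ?_⟩
        · simpa using hτ
        · simpa using lt_of_le_of_lt (abs_nonneg τ) hτ
        · rw [abs_lt]; exact ⟨by linarith [hs.1], by linarith [hs.2]⟩
      have hc0 : tha z0 τ 0 (s, y0, y1) = pt (z0 0 + τ) (z0 1) s := by
        simp [tha]
      have hcont := (continuous_tha_u z0 τ (s, y0, y1)).tendsto 0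
      rw [hc0] at hcont
      have hcont' := hcont.mono_left (nhdsWithin_le_nhds (s := Set.Ioi (0 : ℝ)))
      have hev : ∀ᶠ u in 𝓝[>] (0 : ℝ), tha z0 τ u (s, y0, y1) ∈ obox z0 r e :=
        hcont'.eventually (hO.mem_nhds hp)
      have e0 : f0 (s, y0, y1) = ψ s * h (A s * y0 ^ 2 + 2 * B s * y0 * y1 + D s * y1 ^ 2) *
          J (pt (z0 0 + τ) (z0 1) s) := if_pos hs
      rw [e0]
      have hJt : Tendsto (fun u => J (tha z0 τ u (s, y0, y1))) (𝓝[>] 0)
          (𝓝 (J (pt (z0 0 + τ) (z0 1) s))) :=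
        ((hJ.continuousAt (hO.mem_nhds hp)).tendsto).comp hcont'
      have hht := (hh.tendsto _).comp (hQ s hs y0 y1)
      have := (tendsto_const_nhds (x := ψ s)).mul hht |>.mul hJt
      refine this.congr' ?_
      filter_upwards [hev] with u hu
      exact (Set.indicator_of_mem hu (F u)).symm
    · have e0 : f0 (s, y0, y1) = 0 := if_neg hs
      rw [e0]
      refine tendsto_const_nhds.congr fun u => ?_
      refine (Set.indicator_of_notMem (fun hm => hs ?_) (F u)).symm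
      have := (mem_obox.mp hm).2.2
      rw [abs_lt] at this
      exact ⟨by linarith [this.1], by linarith [this.2]⟩
  -- integrability of the limit
  have hseq : Tendsto (fun n : ℕ => (1 : ℝ) / ((n : ℝ) + 1)) atTop (𝓝[>] 0) := by
    refine tendsto_nhdsWithin_iff.mpr ⟨tendsto_one_div_add_atTop_nhds_zero_nat, ?_⟩
    exact Eventually.of_forall fun n => Set.mem_Ioi.mpr (by positivity)
  have hf0m : AEStronglyMeasurable f0 (volume : Measure (ℝ × ℝ × ℝ)) :=
    aestronglyMeasurable_of_tendsto_ae atTop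
      (f := fun (n : ℕ) => f (1 / ((n : ℝ) + 1))) (fun n => hfm _)
      (Eventually.of_forall fun q => (hpt q).comp hseq)
  have hf0b : ∀ q, ‖f0 q‖ ≤ bd q := fun q =>
    le_of_tendsto (hpt q).norm (by
      filter_upwards [self_mem_nhdsWithin] with u hu
      exact hfb u hu q)
  have hf0i : Integrable f0 := hbdi.mono' hf0m (Eventually.of_forall hf0b)
  have hint0 : ∫ q, f0 q = Real.pi * (∫ s in Set.Ioi (0 : ℝ), h s) * ∫ s, ψ s := by
    rw [Measure.volume_eq_prod, integral_prod _ (by rw [← Measure.volume_eq_prod]; exact hf0i),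
      ← integral_const_mul]
    refine integral_congr_ae (Eventually.of_forall fun s => ?_)
    change (∫ y : ℝ × ℝ, f0 (s, y)) = _
    by_cases hs : s ∈ Set.Ioo (z0 2 - e) (z0 2 + e)
    · have e0 : ∀ y : ℝ × ℝ, f0 (s, y) = ψ s * J (pt (z0 0 + τ) (z0 1) s) *
          h (A s * y.1 ^ 2 + 2 * B s * y.1 * y.2 + D s * y.2 ^ 2) := fun y => by
        have : f0 (s, y) = ψ s * h (A s * y.1 ^ 2 + 2 * B s * y.1 * y.2 + D s * y.2 ^ 2) *
          J (pt (z0 0 + τ) (z0 1) s) := if_pos hs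
        rw [this]; ring
      simp only [e0]
      rw [integral_const_mul, integral_quad (A s) (B s) (D s) (hA s hs) (hD s hs) h, hJs s hs]
      have h1 := Real.sqrt_pos.mpr (hD s hs)
      field_simp
    · have e0 : ∀ y : ℝ × ℝ, f0 (s, y) = 0 := fun y => if_neg hs
      have e1 : ψ s = 0 := by
        by_contra hne
        exact hs (hsupp (subset_tsupport ψ hne))
      simp only [e0, e1, integral_zero, mul_zero]
  rw [← hint0]
  have hdct := tendsto_integral_filter_of_dominated_convergence (l := 𝓝[>] (0 : ℝ)) (F := f)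
    (f := f0) bd (Eventually.of_forall hfm)
    (by filter_upwards [self_mem_nhdsWithin] with u hu
        exact Eventually.of_forall (hfb u hu)) hbdi (Eventually.of_forall hpt)
  refine hdct.congr' ?_
  filter_upwards [self_mem_nhdsWithin] with u hu
  exact (key u hu).symm


/-! ### Geometry of the chart -/

lemma sum_single (v : E3) : v = ∑ i, v i • EuclideanSpace.single i (1 : ℝ) := by
  ext j
  fin_cases j <;> simp [Fin.sum_univ_three]

lemma fderiv_sum (f : E3 → ℝ) (x v : E3) : fderiv ℝ f x v = ∑ i, v i * pd i f x := by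
  conv_lhs => rw [sum_single v]
  rw [map_sum]
  refine Finset.sum_congr rfl fun i _ => ?_
  rw [map_smul, smul_eq_mul]
  rfl

/-- The columns of the derivative of the chart. -/
noncomputable def col (Φ : E3 → E3) (z : E3) (a : Fin 3) : Cov := fun i =>
  fderiv ℝ Φ z (EuclideanSpace.single a 1) i

lemma col_det (Φ : E3 → E3) (z : E3) :
    (fderiv ℝ Φ z).det = (Matrix.of ![col Φ z 0, col Φ z 1, col Φ z 2]).det := by
  set bs := (EuclideanSpace.basisFun (Fin 3) ℝ).toBasis with hbs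
  have h1 : (fderiv ℝ Φ z).det =
      (LinearMap.toMatrix bs bs (fderiv ℝ Φ z : E3 →ₗ[ℝ] E3)).det := by
    rw [LinearMap.det_toMatrix]
  rw [h1, ← Matrix.det_transpose]
  congr 1
  ext a i
  rw [Matrix.transpose_apply, LinearMap.toMatrix_apply]
  fin_cases a <;> simp [hbs, col]

lemma col_dW {W : E3 → ℝ} {Φ : E3 → E3} {z : E3} {N : Set E3} (hN : IsOpen N)
    (hz : z ∈ N) (hΦ : DifferentiableAt ℝ Φ z) (hW : DifferentiableAt ℝ W (Φ z))
    (hWΦ : ∀ z ∈ N, W (Φ z) = z 2) (a : Fin 3) :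
    ∑ i, col Φ z a i * grad W (Φ z) i = (EuclideanSpace.single a (1 : ℝ) : E3) 2 := by
  have h1 : fderiv ℝ W (Φ z) (fderiv ℝ Φ z (EuclideanSpace.single a 1)) =
      ∑ i, col Φ z a i * grad W (Φ z) i := fderiv_sum W (Φ z) _
  rw [← h1]
  have h2 : fderiv ℝ (fun y => W (Φ y)) z = (fderiv ℝ W (Φ z)).comp (fderiv ℝ Φ z) :=
    fderiv_comp z hW hΦ
  have h3 : (fun y => W (Φ y)) =ᶠ[𝓝 z] fun y => y 2 := by
    filter_upwards [hN.mem_nhds hz] with y hy
    exact hWΦ y hy
  have h4 : fderiv ℝ (fun y : E3 => y 2) z = EuclideanSpace.proj (𝕜 := ℝ) (2 : Fin 3) :=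
    (EuclideanSpace.proj (𝕜 := ℝ) (2 : Fin 3)).hasFDerivAt.fderiv
  rw [h3.fderiv_eq, h4] at h2
  have := congrArg (fun L : E3 →L[ℝ] ℝ => L (EuclideanSpace.single a 1)) h2
  exact this.symm

lemma ev_symm {G : Bil} (hG : ∀ i j, G i j = G j i) (v w : Cov) : ev G v w = ev G w v := by
  unfold ev
  simp only [Fin.sum_univ_three]
  rw [hG 1 0, hG 2 0, hG 2 1]
  ring

lemma ev_comb {G : Bil} (hG : ∀ i j, G i j = G j i) (T0 T1 : Cov) (a b : ℝ) :
    ev G (fun i => a * T0 i + b * T1 i) (fun i => a * T0 i + b * T1 i) =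
      ev G T0 T0 * a ^ 2 + 2 * ev G T0 T1 * a * b + ev G T1 T1 * b ^ 2 := by
  unfold ev
  simp only [Fin.sum_univ_three]
  rw [hG 1 0, hG 2 0, hG 2 1]
  ring


/-- The geometry at the pole: limit of the pole function and the density. -/
lemma geom {V : Set E3} {a b : ℝ} {g : TensorField} {W : E3 → ℝ} (hDET : Stmt_DET)
    (hF : Fol V a b g W) {Φ : E3 → E3} {z0 : E3} {r e : ℝ} (hC : Chart V W Φ z0 r e)
    {τ : ℝ} (hτ : |τ| < r) (hjpos : ∀ z ∈ box z0 r e, 0 < jac g W Φ z) :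
    ∀ s ∈ Set.Ioo (z0 2 - e) (z0 2 + e), ∃ A B D : ℝ, 0 < A ∧ 0 < A * D - B ^ 2 ∧
      jac g W Φ (pt (z0 0 + τ) (z0 1) s) = Real.sqrt (A * D - B ^ 2) ∧
      ∀ y0 y1 : ℝ, Tendsto (fun u => rp g W Φ z0 τ (Φ (tha z0 τ u (s, y0, y1))) / u ^ 2) (𝓝[>] 0)
        (𝓝 (A * y0 ^ 2 + 2 * B * y0 * y1 + D * y1 ^ 2)) := by
  intro s hs
  obtain ⟨N, hNo, hbN, hΦs, -, hNV, -, hWΦ⟩ := hC.nbhd
  set z' : E3 := pt (z0 0 + τ) (z0 1) s with hz'
  have hzo : z' ∈ obox z0 r e := by
    refine mem_obox.mpr ⟨?_, ?_, ?_⟩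
    · simpa using hτ
    · simpa using lt_of_le_of_lt (abs_nonneg τ) hτ
    · rw [abs_lt]; exact ⟨by linarith [hs.1], by linarith [hs.2]⟩
  have hzb : z' ∈ box z0 r e := ⟨hzo.1.le, hzo.2.1.le, hzo.2.2.le⟩
  have hzN : z' ∈ N := hbN hzb
  set x0 : E3 := Φ z' with hx0
  have hxV : x0 ∈ V := hNV hzN
  have hΦd : DifferentiableAt ℝ Φ z' :=
    (hΦs.contDiffAt (hNo.mem_nhds hzN)).differentiableAt (by simp)
  have hWd : DifferentiableAt ℝ W x0 := (hF.contDiffAt hxV).differentiableAt (by simp)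
  have hpd : (g x0).PosDef := hF.metric.posDef x0 hxV
  have hsym : ∀ i j, g x0 i j = g x0 j i := fun i j => by
    have := hpd.isHermitian.apply i j
    simpa using this.symm
  have hcol := col_dW hNo hzN hΦd hWd hWΦ
  have d0 : ∑ i, col Φ z' 0 i * grad W x0 i = 0 := by
    rw [hcol 0]; simp
  have d1 : ∑ i, col Φ z' 1 i * grad W x0 i = 0 := by
    rw [hcol 1]; simp
  have d2 : ∑ i, col Φ z' 2 i * grad W x0 i = 1 := by
    rw [hcol 2]; simp
  have hdet := hDET g x0 (grad W x0) (col Φ z' 0) (col Φ z' 1) (col Φ z' 2) hpd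
    (hF.regular x0 hxV) d0 d1 d2
  set A := ev (g x0) (col Φ z' 0) (col Φ z' 0) with hA
  set B := ev (g x0) (col Φ z' 0) (col Φ z' 1) with hB
  set D := ev (g x0) (col Φ z' 1) (col Φ z' 1) with hD
  have hjac2 : jac g W Φ z' ^ 2 = A * D - B ^ 2 := by
    rw [← hdet, ← col_det]
    unfold jac dens volDen
    rw [mul_pow, mul_pow, sq_abs, Real.sq_sqrt hpd.det_pos.le]
    ring
  have hj := hjpos z' hzb
  have hΔ : 0 < A * D - B ^ 2 := by rw [← hjac2]; positivity
  have hA0 : 0 ≤ A := by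
    have := hpd.posSemidef.dotProduct_mulVec_nonneg (col Φ z' 0)
    have e1 : A = star (col Φ z' 0) ⬝ᵥ (g x0).mulVec (col Φ z' 0) := by
      rw [hA]
      unfold ev
      simp only [dotProduct, Matrix.mulVec, Fin.sum_univ_three, Pi.star_apply, star_trivial]
      ring
    rw [e1]; exact this
  have hApos : 0 < A := by
    rcases hA0.lt_or_eq with h | h
    · exact h
    · exfalso
      rw [← h] at hΔ
      nlinarith [sq_nonneg B]
  refine ⟨A, B, D, hApos, hΔ, ?_, ?_⟩
  · rw [← hjac2, Real.sqrt_sq hj.le]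
  · intro y0 y1
    set w : E3 := pt y0 y1 0 with hw
    have htha : ∀ u, tha z0 τ u (s, y0, y1) = z' + u • w := by
      intro u
      ext i
      fin_cases i <;> simp [tha, hz', hw]
    have hcont : Tendsto (fun u : ℝ => z' + u • w) (𝓝[>] 0) (𝓝 z') := by
      have : Continuous fun u : ℝ => z' + u • w := by fun_prop
      have h1 := this.tendsto 0
      simp only [zero_smul, add_zero] at h1
      exact h1.mono_left nhdsWithin_le_nhds
    have hev : ∀ᶠ u in 𝓝[>] (0 : ℝ), z' + u • w ∈ N := hcont.eventually (hNo.mem_nhds hzN)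
    have hslope : Tendsto (fun u : ℝ => u⁻¹ • (Φ (z' + u • w) - Φ z')) (𝓝[>] 0)
        (𝓝 (fderiv ℝ Φ z' w)) := by
      have h1 : HasDerivAt (fun u : ℝ => Φ (z' + u • w)) (fderiv ℝ Φ z' w) 0 :=
        hΦd.hasFDerivAt.hasLineDerivAt w
      have h2 := h1.tendsto_slope_zero_right
      simpa using h2
    have hwd : ∀ i, (fderiv ℝ Φ z' w) i = y0 * col Φ z' 0 i + y1 * col Φ z' 1 i := by
      intro i
      have e1 : w = y0 • EuclideanSpace.single 0 (1 : ℝ) + y1 • EuclideanSpace.single 1 (1 : ℝ) := by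
        ext j
        fin_cases j <;> simp [hw]
      rw [e1, map_add, map_smul, map_smul]
      rfl
    have hsi : ∀ i, Tendsto (fun u : ℝ => (Φ (z' + u • w) i - x0 i) / u) (𝓝[>] 0)
        (𝓝 (y0 * col Φ z' 0 i + y1 * col Φ z' 1 i)) := by
      intro i
      rw [← hwd i]
      have := ((continuous_coord i).tendsto _).comp hslope
      refine this.congr fun u => ?_
      change u⁻¹ * (Φ (z' + u • w) i - Φ z' i) = _
      rw [hx0]
      ring
    have hgi : ∀ i j, Tendsto (fun u : ℝ => g (Φ (z' + u • w)) i j) (𝓝[>] 0)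
        (𝓝 (g x0 i j)) := by
      intro i j
      have h1 : ContinuousAt (fun x => g x i j) x0 :=
        (hF.metric.smooth i j).continuousOn.continuousAt (hF.isOpen.mem_nhds hxV)
      have h2 : Tendsto (fun u : ℝ => Φ (z' + u • w)) (𝓝[>] 0) (𝓝 x0) :=
        (hΦd.continuousAt.tendsto).comp hcont
      exact h1.tendsto.comp h2
    have hsum : Tendsto (fun u : ℝ => (1 / 2) * ∑ i, ∑ j, (g (Φ (z' + u • w)) i j + g x0 i j) *
        ((Φ (z' + u • w) i - x0 i) / u) * ((Φ (z' + u • w) j - x0 j) / u)) (𝓝[>] 0)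
        (𝓝 ((1 / 2) * ∑ i, ∑ j, (g x0 i j + g x0 i j) *
          (y0 * col Φ z' 0 i + y1 * col Φ z' 1 i) * (y0 * col Φ z' 0 j + y1 * col Φ z' 1 j))) := by
      refine tendsto_const_nhds.mul (tendsto_finsetSum _ fun i _ => tendsto_finsetSum _
        fun j _ => ?_)
      exact (((hgi i j).add tendsto_const_nhds).mul (hsi i)).mul (hsi j)
    have hval : (1 / 2) * ∑ i, ∑ j, (g x0 i j + g x0 i j) *
          (y0 * col Φ z' 0 i + y1 * col Φ z' 1 i) * (y0 * col Φ z' 0 j + y1 * col Φ z' 1 j) =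
        A * y0 ^ 2 + 2 * B * y0 * y1 + D * y1 ^ 2 := by
      rw [hA, hB, hD, ← ev_comb hsym]
      unfold ev
      simp only [Fin.sum_univ_three]
      ring
    rw [hval] at hsum
    refine hsum.congr' ?_
    filter_upwards [hev, self_mem_nhdsWithin] with u hu hu0
    have hu0' : u ≠ 0 := (Set.mem_Ioi.mp hu0).ne'
    have hWu : W (Φ (z' + u • w)) = s := by
      rw [hWΦ _ hu, ← htha u]
      rfl
    rw [htha u]
    unfold rp qf
    rw [hWu, ← hz', ← hx0]
    simp only [Fin.sum_univ_three]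
    field_simp

end Pool.Agent.PFlow.GB.Scal

namespace Pool.Agent.PFlow.GB

open Pool.Agent.PenroseSph Pool.Agent.PFlow Scal

/-- (SCAL) Scaling limit at a pole. -/
theorem SCAL (hALG : Stmt_ALG) (hSMO : Stmt_SMO) (hDET : Stmt_DET) (hCHX : Stmt_CHX)
    (hFUB : Stmt_FUB) (hPOLE : Stmt_POLE) (hQ : Stmt_Q) : Stmt_SCAL := by
  intro V a b g W hF Φ z0 r e hC τ hτ
  obtain ⟨hrps, c1, C1, hc1, hC1, hbd, -⟩ := hPOLE V a b g W hF Φ z0 r e hC τ hτ
  obtain ⟨-, -, -, -, -, hint, -, hjc, c2, C2, hc2, hC2, hj, -⟩ := hCHX V a b g W hF Φ z0 r e hC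
  obtain ⟨N, hNo, hbN, hΦs, -, hNV, -, hWΦ⟩ := hC.nbhd
  have hob : obox z0 r e ⊆ box z0 r e := fun z hz => ⟨hz.1.le, hz.2.1.le, hz.2.2.le⟩
  have hO := isOpen_obox z0 r e
  have hrpc : ContinuousOn (fun z => rp g W Φ z0 τ (Φ z)) (obox z0 r e) :=
    hrps.continuousOn.comp (hΦs.continuousOn.mono (hob.trans hbN))
      (fun z hz => Set.mem_image_of_mem Φ hz)
  have hjo : ContinuousOn (jac g W Φ) (obox z0 r e) := hjc.mono hob
  constructor
  · -- the pole curve is a null set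
    have hsub : {x | x ∈ Φ '' obox z0 r e ∧ rp g W Φ z0 τ x = 0} ⊆
        Φ '' {z | z ∈ obox z0 r e ∧ z 1 = z0 1} := by
      rintro x ⟨⟨z, hz, rfl⟩, hx⟩
      refine ⟨z, ⟨hz, ?_⟩, rfl⟩
      have h1 := (hbd z (hob hz)).1
      rw [hx] at h1
      have h2 : 0 ≤ (z 0 - (z0 0 + τ)) ^ 2 := sq_nonneg _
      have h3 : 0 ≤ (z 1 - z0 1) ^ 2 := sq_nonneg _
      have h4 : (z 1 - z0 1) ^ 2 = 0 := by nlinarith
      have h5 := pow_eq_zero_iff (two_ne_zero) |>.mp h4
      linarith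
    refine measure_mono_null hsub ?_
    refine addHaar_image_eq_zero_of_differentiableOn_of_addHaar_eq_zero volume
      ((hΦs.mono ((fun z hz => hbN (hob hz.1)) :
        {z | z ∈ obox z0 r e ∧ z 1 = z0 1} ⊆ N)).differentiableOn (by simp)) ?_
    refine measure_mono_null (fun z hz => hz.2) (?_ : volume {z : E3 | z 1 = z0 1} = 0)
    set P : Submodule ℝ E3 := (EuclideanSpace.proj (𝕜 := ℝ) (1 : Fin 3)).ker with hP
    have hPt : P ≠ ⊤ := by
      intro h
      have : (EuclideanSpace.single 1 (1 : ℝ) : E3) ∈ P := by rw [h]; trivial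
      rw [hP, LinearMap.mem_ker] at this
      simp at this
    have e1 : {z : E3 | z 1 = z0 1} = (fun z => z + -z0) ⁻¹' (P : Set E3) := by
      ext z
      rw [Set.mem_preimage, SetLike.mem_coe, hP, LinearMap.mem_ker]
      change z 1 = z0 1 ↔ z 1 + -(z0 1) = 0
      constructor
      · intro h; rw [h]; ring
      · intro h; linarith
    rw [e1, measure_preimage_add_right]
    exact Measure.addHaar_submodule volume P hPt
  · intro h ψ S hh hS hψ hsupp
    have habs := absScal hFUB z0 r e τ hτ (fun z => rp g W Φ z0 τ (Φ z)) (jac g W Φ) c1 C2 hc1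
      hC2.le hrpc hjo (fun z hz => (hbd z (hob hz)).1)
      (fun z hz => by
        have h1 := (hj z (hob hz)).1
        rw [abs_of_nonneg (hc2.le.trans h1)]
        exact (hj z (hob hz)).2.1)
      (geom hDET hF hC hτ (fun z hz => hc2.trans_le (hj z hz).1)) h ψ S hh hS hψ hsupp
    have hsq : Tendsto (fun t : ℝ => Real.sqrt t) (𝓝[>] 0) (𝓝[>] 0) := by
      refine tendsto_nhdsWithin_iff.mpr ⟨?_, ?_⟩
      · have := Real.continuous_sqrt.tendsto 0
        rw [Real.sqrt_zero] at this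
        exact this.mono_left nhdsWithin_le_nhds
      · filter_upwards [self_mem_nhdsWithin] with t ht
        exact Real.sqrt_pos.mpr ht
    refine (habs.comp hsq).congr' ?_
    filter_upwards [self_mem_nhdsWithin] with t ht
    have ht2 : Real.sqrt t ^ 2 = t := Real.sq_sqrt (le_of_lt ht)
    have h1 := hint (obox z0 r e) (fun x => ψ (W x) * h (rp g W Φ z0 τ x / t))
      hO.measurableSet hob
    rw [h1]
    change (Real.sqrt t ^ 2)⁻¹ * _ = _
    rw [ht2]
    congr 1
    refine setIntegral_congr_fun hO.measurableSet fun z hz => ?_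
    rw [hWΦ z (hbN (hob hz))]

end Pool.Agent.PFlow.GB
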