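import Pool.Agent.PFlow.StmtsG

/-!
# Module SCHUR: the Schur test
-/

open MeasureTheory Filter Topology
open scoped ContDiff

namespace Pool.Agent.PFlow.GB

open Pool.Agent.PenroseSph

namespace Schur

/-- Cauchy-Schwarz for one row of the kernel. -/
theorem row {μ : Measure E3} [IsFiniteMeasure μ] {κ v : E3 → ℝ} {B : ℝ} (hκ : Measurable κ)
    (hB : ∀ y, |κ y| ≤ B) (hv : MemLp v 2 μ) :
    (∫ y, κ y * v y ∂μ) ^ 2 ≤ (∫ y, |κ y| ∂μ) * ∫ y, |κ y| * v y ^ 2 ∂μ := by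
  have hκa : AEStronglyMeasurable (fun y => |κ y|) μ := hκ.abs.aestronglyMeasurable
  have hbd : ∀ᵐ y ∂μ, ‖|κ y|‖ ≤ B := Eventually.of_forall fun y => by
    rw [Real.norm_eq_abs, abs_abs]; exact hB y
  have hv1 : Integrable v μ := hv.integrable one_le_two
  have hv2 : Integrable (fun y => v y ^ 2) μ := hv.integrable_sq
  have i0 : Integrable (fun y => |κ y|) μ := by
    have := (integrable_const (1 : ℝ) (μ := μ)).bdd_mul hκa hbd
    simpa using this
  have i1 : Integrable (fun y => |κ y| * |v y|) μ := hv1.abs.bdd_mul hκa hbd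
  have i2 : Integrable (fun y => |κ y| * v y ^ 2) μ := hv2.bdd_mul hκa hbd
  have h1 : |∫ y, κ y * v y ∂μ| ≤ ∫ y, |κ y| * |v y| ∂μ := by
    refine (abs_integral_le_integral_abs).trans (le_of_eq ?_)
    refine integral_congr_ae (Eventually.of_forall fun y => ?_)
    exact abs_mul _ _
  have h2 : ∀ x : ℝ, 0 ≤ (∫ y, |κ y| ∂μ) * (x * x) + (-2 * ∫ y, |κ y| * |v y| ∂μ) * x +
      ∫ y, |κ y| * v y ^ 2 ∂μ := by
    intro x
    have h3 : 0 ≤ ∫ y, |κ y| * (x - |v y|) ^ 2 ∂μ :=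
      integral_nonneg fun y => mul_nonneg (abs_nonneg _) (sq_nonneg _)
    have h4 : ∫ y, |κ y| * (x - |v y|) ^ 2 ∂μ = ∫ y, ((x * x) * |κ y| +
        (-2 * x) * (|κ y| * |v y|) + |κ y| * v y ^ 2) ∂μ := by
      refine integral_congr_ae (Eventually.of_forall fun y => ?_)
      have : |v y| ^ 2 = v y ^ 2 := sq_abs _
      change |κ y| * (x - |v y|) ^ 2 = (x * x) * |κ y| +
        (-2 * x) * (|κ y| * |v y|) + |κ y| * v y ^ 2
      rw [← this]
      ring
    have j0 : Integrable (fun y => (x * x) * |κ y|) μ := i0.const_mul (x * x)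
    have j1 : Integrable (fun y => (-2 * x) * (|κ y| * |v y|)) μ := i1.const_mul (-2 * x)
    have j01 : Integrable (fun y => (x * x) * |κ y| + (-2 * x) * (|κ y| * |v y|)) μ := j0.add j1
    have e1 : ∫ y, ((x * x) * |κ y| + (-2 * x) * (|κ y| * |v y|) + |κ y| * v y ^ 2) ∂μ =
        (∫ y, ((x * x) * |κ y| + (-2 * x) * (|κ y| * |v y|)) ∂μ) +
          ∫ y, |κ y| * v y ^ 2 ∂μ := integral_add j01 i2
    have e2 : ∫ y, ((x * x) * |κ y| + (-2 * x) * (|κ y| * |v y|)) ∂μ =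
        (∫ y, (x * x) * |κ y| ∂μ) + ∫ y, (-2 * x) * (|κ y| * |v y|) ∂μ :=
      integral_add j0 j1
    have e3 : ∫ y, (x * x) * |κ y| ∂μ = (x * x) * ∫ y, |κ y| ∂μ := integral_const_mul _ _
    have e4 : ∫ y, (-2 * x) * (|κ y| * |v y|) ∂μ = (-2 * x) * ∫ y, |κ y| * |v y| ∂μ :=
      integral_const_mul _ _
    rw [h4, e1, e2, e3, e4] at h3
    linarith
  have h5 := discrim_le_zero h2
  unfold discrim at h5
  have h6 : (∫ y, κ y * v y ∂μ) ^ 2 ≤ (∫ y, |κ y| * |v y| ∂μ) ^ 2 := by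
    rw [← sq_abs]
    exact pow_le_pow_left₀ (abs_nonneg _) h1 2
  nlinarith

end Schur

open Schur in
theorem SCHUR : Stmt_SCHUR := by
  intro μ _ k B C hC hk hB hsymm hrow v hv
  have hv1 : Integrable v μ := hv.integrable one_le_two
  have hv2 : Integrable (fun y => v y ^ 2) μ := hv.integrable_sq
  have hkabs : AEStronglyMeasurable (fun z : E3 × E3 => |k z.1 z.2|) (μ.prod μ) :=
    (hk.abs).aestronglyMeasurable
  have hbd : ∀ᵐ z ∂(μ.prod μ), ‖|k z.1 z.2|‖ ≤ B := Eventually.of_forall fun z => by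
    rw [Real.norm_eq_abs, abs_abs]; exact hB _ _
  -- integrability on the product
  have hprod : Integrable (fun z : E3 × E3 => |k z.1 z.2| * v z.2 ^ 2) (μ.prod μ) :=
    (hv2.comp_snd μ).bdd_mul hkabs hbd
  set Φ : E3 → ℝ := fun x => ∫ y, |k x y| * v y ^ 2 ∂μ with hΦ
  have hΦi : Integrable Φ μ := hprod.integral_prod_left
  have hΦ0 : ∀ x, 0 ≤ Φ x := fun x =>
    integral_nonneg fun y => mul_nonneg (abs_nonneg _) (sq_nonneg _)
  -- measurability
  have hmeas : AEStronglyMeasurable (fun x => ∫ y, k x y * v y ∂μ) μ := by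
    have h1 : AEStronglyMeasurable (fun z : E3 × E3 => k z.1 z.2 * v z.2) (μ.prod μ) :=
      (hk.aestronglyMeasurable).mul (hv.aestronglyMeasurable.comp_snd)
    exact h1.integral_prod_right'
  -- pointwise bound
  have hpt : ∀ᵐ x ∂μ, (∫ y, k x y * v y ∂μ) ^ 2 ≤ C * Φ x := by
    filter_upwards [hrow] with x hx
    have h1 := row (μ := μ) (κ := k x) (v := v) (B := B) (hk.of_uncurry_left) (hB x) hv
    exact h1.trans (mul_le_mul_of_nonneg_right hx (hΦ0 x))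
  have hsq : Integrable (fun x => (∫ y, k x y * v y ∂μ) ^ 2) μ := by
    refine Integrable.mono' (hΦi.const_mul C) (hmeas.pow 2) ?_
    filter_upwards [hpt] with x hx
    rw [Real.norm_eq_abs, abs_of_nonneg (sq_nonneg _)]
    exact hx
  refine ⟨(memLp_two_iff_integrable_sq hmeas).2 hsq, ?_⟩
  have h1 : ∫ x, (∫ y, k x y * v y ∂μ) ^ 2 ∂μ ≤ ∫ x, C * Φ x ∂μ :=
    integral_mono_ae hsq (hΦi.const_mul C) hpt
  have h2 : ∫ x, Φ x ∂μ = ∫ y, (∫ x, |k x y| * v y ^ 2 ∂μ) ∂μ := by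
    exact integral_integral_swap hprod
  have h3 : ∫ y, (∫ x, |k x y| * v y ^ 2 ∂μ) ∂μ ≤ ∫ y, C * v y ^ 2 ∂μ := by
    refine integral_mono_ae hprod.integral_prod_right (hv2.const_mul C) ?_
    filter_upwards [hrow] with y hy
    have h4 : ∫ x, |k x y| * v y ^ 2 ∂μ = (∫ x, |k y x| ∂μ) * v y ^ 2 := by
      rw [← integral_mul_const]
      refine integral_congr_ae (Eventually.of_forall fun x => ?_)
      change |k x y| * v y ^ 2 = |k y x| * v y ^ 2
      rw [hsymm x y]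
    change ∫ x, |k x y| * v y ^ 2 ∂μ ≤ C * v y ^ 2
    rw [h4]
    exact mul_le_mul_of_nonneg_right hy (sq_nonneg _)
  rw [integral_const_mul] at h1 h3
  calc ∫ x, (∫ y, k x y * v y ∂μ) ^ 2 ∂μ ≤ C * ∫ x, Φ x ∂μ := h1
    _ ≤ C * (C * ∫ y, v y ^ 2 ∂μ) := by
        rw [h2]
        exact mul_le_mul_of_nonneg_left h3 hC
    _ = C ^ 2 * ∫ x, v x ^ 2 ∂μ := by ring

end Pool.Agent.PFlow.GB
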