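import Pool.Agent.PFlow.StmtsG

/-!
# Module SEP: the two poles are separated at small levels
-/

set_option autoImplicit false

open MeasureTheory Filter Topology
open scoped ContDiff

namespace Pool.Agent.PFlow.GB

open Pool.Agent.PenroseSph Pool.Agent.PFlow

namespace SEPaux

lemma step {c r t1 A x y : ℝ} (hc : 0 < c) (hr : 0 < r) (h1 : c * (x ^ 2 + y ^ 2) ≤ A)
    (h2 : A ≤ t1) (h3 : t1 ≤ c * (r / 4) ^ 2) : |x| ≤ r / 4 ∧ |y| ≤ r / 4 := by
  have h4 : x ^ 2 + y ^ 2 ≤ (r / 4) ^ 2 :=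
    le_of_mul_le_mul_left (h1.trans (h2.trans h3)) hc
  have h5 : 0 ≤ r / 4 := by positivity
  constructor
  · apply abs_le_of_sq_le_sq _ h5
    nlinarith [sq_nonneg y]
  · apply abs_le_of_sq_le_sq _ h5
    nlinarith [sq_nonneg x]

end SEPaux

/-- The two poles are separated at small levels. -/
theorem SEP (hPOLE : Stmt_POLE) : Stmt_SEP := by
  intro V a b g W hF Φ z0 r e hC
  have hr := hC.r_pos
  obtain ⟨-, c, C, hc, -, hb, -⟩ := hPOLE V a b g W hF Φ z0 r e hC (r / 2)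
    (by rw [abs_of_pos (by positivity)]; linarith)
  obtain ⟨-, c', C', hc', -, hb', -⟩ := hPOLE V a b g W hF Φ z0 r e hC (-(r / 2))
    (by rw [abs_neg, abs_of_pos (by positivity)]; linarith)
  refine ⟨min (c * (r / 4) ^ 2) (c' * (r / 4) ^ 2), by positivity, fun t1 ht0 ht1 => ⟨ht0, ?_⟩⟩
  intro z hz τ hτ hle
  rcases hτ with rfl | rfl
  · exact SEPaux.step hc hr (hb z hz).1 hle (ht1.trans (min_le_left _ _))
  · exact SEPaux.step hc' hr (hb' z hz).1 hle (ht1.trans (min_le_right _ _))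

end Pool.Agent.PFlow.GB
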