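import Pool.Agent.PFlow.G.Base

/-!
# Block GB: smoothness of the leafwise objects (SMO)
-/

open MeasureTheory Filter Topology
open scoped ContDiff

namespace Pool.Agent.PFlow.GB

open Pool.Agent.PenroseSph Pool.Agent.PFlow

namespace MSMO

variable {g : TensorField} {W : E3 → ℝ} {x : E3} {n m : WithTop ℕ∞}

theorem c_pd {f : E3 → ℝ} (hf : ContDiffAt ℝ m f x) (h : n + 1 ≤ m) (i : Fin 3) :
    ContDiffAt ℝ n (pd i f) x := by
  have h1 : ContDiffAt ℝ n (fderiv ℝ f) x := hf.fderiv_right h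
  exact h1.clm_apply contDiffAt_const

theorem c_det {T : TensorField} (hg : ∀ i j, ContDiffAt ℝ n (fun y => T y i j) x) :
    ContDiffAt ℝ n (fun y => (T y).det) x := by
  have : (fun y => (T y).det) = fun y => T y 0 0 * T y 1 1 * T y 2 2 -
      T y 0 0 * T y 1 2 * T y 2 1 - T y 0 1 * T y 1 0 * T y 2 2 + T y 0 1 * T y 1 2 * T y 2 0 +
      T y 0 2 * T y 1 0 * T y 2 1 - T y 0 2 * T y 1 1 * T y 2 0 := by
    funext y
    exact Matrix.det_fin_three (T y)
  rw [this]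
  exact (((((((hg 0 0).mul (hg 1 1)).mul (hg 2 2)).sub (((hg 0 0).mul (hg 1 2)).mul (hg 2 1))).sub
    (((hg 0 1).mul (hg 1 0)).mul (hg 2 2))).add (((hg 0 1).mul (hg 1 2)).mul (hg 2 0))).add
    (((hg 0 2).mul (hg 1 0)).mul (hg 2 1))).sub (((hg 0 2).mul (hg 1 1)).mul (hg 2 0))

theorem c_inv {T : TensorField} (hg : ∀ i j, ContDiffAt ℝ n (fun y => T y i j) x)
    (hx : (T x).det ≠ 0) (i j : Fin 3) : ContDiffAt ℝ n (fun y => (T y)⁻¹ i j) x := by
  have h1 : (fun y => (T y)⁻¹ i j) = fun y => ((T y).det)⁻¹ * (T y).adjugate i j := by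
    funext y
    rw [Matrix.inv_def, Matrix.smul_apply, smul_eq_mul, Ring.inverse_eq_inv']
  rw [h1]
  refine ((c_det hg).inv hx).mul ?_
  have h2 : (fun y => (T y).adjugate i j) = fun y => ((T y).updateRow j (Pi.single i 1)).det := by
    funext y
    rw [Matrix.adjugate_apply]
  rw [h2]
  refine c_det fun k l => ?_
  by_cases hk : k = j
  · subst hk
    simp only [Matrix.updateRow_self]
    exact contDiffAt_const
  · have : (fun y => ((T y).updateRow j (Pi.single i 1)) k l) = fun y => T y k l := by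
      funext y
      rw [Matrix.updateRow_ne hk]
    rw [this]
    exact hg k l

/-- The data at the point. -/
structure Dat (g : TensorField) (W : E3 → ℝ) (x : E3) : Prop where
  hg : ∀ i j, ContDiffAt ℝ ∞ (fun y => g y i j) x
  w : ContDiffAt ℝ ∞ W x
  det : 0 < (g x).det
  len : 0 < Pool.Agent.PFlow.len g x (grad W x)

theorem inf_le : (∞ : WithTop ℕ∞) + 1 ≤ ∞ := by simp

theorem Dat.inv (h : Dat g W x) (i j : Fin 3) : ContDiffAt ℝ ∞ (fun y => (g y)⁻¹ i j) x :=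
  c_inv h.hg h.det.ne' i j

theorem Dat.gw (h : Dat g W x) (i : Fin 3) : ContDiffAt ℝ ∞ (fun y => grad W y i) x :=
  c_pd h.w inf_le i

theorem c_sum {ι : Type} [Fintype ι] {F : ι → E3 → ℝ} (h : ∀ i, ContDiffAt ℝ n (F i) x) :
    ContDiffAt ℝ n (fun y => ∑ i, F i y) x :=
  ContDiffAt.sum fun i _ => h i

/-- `ev` of smooth data -/
theorem c_ev {B : E3 → Bil} {v w : E3 → Cov} (hB : ∀ i j, ContDiffAt ℝ n (fun y => B y i j) x)
    (hv : ∀ i, ContDiffAt ℝ n (fun y => v y i) x) (hw : ∀ i, ContDiffAt ℝ n (fun y => w y i) x) :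
    ContDiffAt ℝ n (fun y => ev (B y) (v y) (w y)) x := by
  unfold ev
  exact c_sum fun i => c_sum fun j => ((hB i j).mul (hv i)).mul (hw j)

theorem Dat.le (h : Dat g W x) : ContDiffAt ℝ ∞ (fun y => Pool.Agent.PFlow.len g y (grad W y)) x := by
  have h0 := h.len
  unfold Pool.Agent.PFlow.len at h0 ⊢
  exact (c_ev h.inv h.gw h.gw).sqrt (Real.sqrt_pos.mp h0).ne'

theorem Dat.raise (h : Dat g W x) (i : Fin 3) :
    ContDiffAt ℝ ∞ (fun y => raise g y (grad W y) i) x := by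
  unfold Pool.Agent.PFlow.raise
  exact c_sum fun j => (h.inv i j).mul (h.gw j)

theorem Dat.nrm (h : Dat g W x) (i : Fin 3) :
    ContDiffAt ℝ ∞ (fun y => nrm g y (grad W y) i) x := by
  unfold Pool.Agent.PFlow.nrm
  exact (h.raise i).div h.le h.len.ne'

theorem Dat.prj (h : Dat g W x) (i j : Fin 3) :
    ContDiffAt ℝ ∞ (fun y => prj g y (grad W y) i j) x := by
  unfold Pool.Agent.PFlow.GB.prj
  exact (h.inv i j).sub ((h.nrm i).mul (h.nrm j))

theorem Dat.vol (h : Dat g W x) : ContDiffAt ℝ ∞ (volDen g) x := by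
  unfold volDen
  exact (c_det h.hg).sqrt h.det.ne'

theorem Dat.dens (h : Dat g W x) : ContDiffAt ℝ ∞ (dens g W) x := by
  unfold Pool.Agent.PFlow.dens
  exact h.le.mul h.vol

theorem Dat.vpos (h : Dat g W x) : 0 < volDen g x := Real.sqrt_pos.mpr h.det

theorem Dat.dpos (h : Dat g W x) : 0 < Pool.Agent.PFlow.dens g W x := mul_pos h.len h.vpos

theorem Dat.chr (h : Dat g W x) (k i j : Fin 3) : ContDiffAt ℝ ∞ (christoffel g k i j) x := by
  unfold christoffel
  refine contDiffAt_const.mul (c_sum fun l => (h.inv k l).mul ?_)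
  exact ((c_pd (h.hg j l) inf_le i).add (c_pd (h.hg i l) inf_le j)).sub (c_pd (h.hg i j) inf_le l)

theorem Dat.ricci (h : Dat g W x) (i j : Fin 3) : ContDiffAt ℝ ∞ (ricci g i j) x := by
  unfold Pool.Agent.PenroseSph.ricci
  refine c_sum fun k => ?_
  refine ((c_pd (h.chr k i j) inf_le k).sub (c_pd (h.chr k i k) inf_le j)).add
    (c_sum fun l => ?_)
  exact ((h.chr k k l).mul (h.chr l i j)).sub ((h.chr k j l).mul (h.chr l i k))

theorem Dat.scal (h : Dat g W x) : ContDiffAt ℝ ∞ (scalarCurvature g) x := by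
  unfold scalarCurvature
  exact c_sum fun i => c_sum fun j => (h.inv i j).mul (h.ricci i j)

theorem Dat.chess (h : Dat g W x) (i j : Fin 3) :
    ContDiffAt ℝ ∞ (fun y => cHess g y (grad W y) (hess2 W y) i j) x := by
  unfold cHess hess2
  simp only [Matrix.of_apply]
  exact (c_pd (c_pd h.w inf_le j) inf_le i).sub (c_sum fun k => (h.chr k i j).mul (h.gw k))

theorem Dat.curv (h : Dat g W x) : ContDiffAt ℝ ∞ (curv g W) x := by
  unfold Pool.Agent.PFlow.curv gaussK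
  have hr : ∀ i j, ContDiffAt ℝ ∞ (fun y => ric g y i j) x := fun i j => h.ricci i j
  have hb1 : ContDiffAt ℝ ∞ (fun y => bnn g y (grad W y) (ric g y)) x := by
    unfold bnn
    exact c_ev hr h.nrm h.nrm
  have hb2 : ContDiffAt ℝ ∞ (fun y => bnn g y (grad W y) (cHess g y (grad W y) (hess2 W y))) x := by
    unfold bnn
    exact c_ev h.chess h.nrm h.nrm
  have ht : ContDiffAt ℝ ∞ (fun y => trg g y (cHess g y (grad W y) (hess2 W y))) x := by
    unfold trg
    exact c_sum fun i => c_sum fun j => (h.inv i j).mul (h.chess i j)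
  have hn : ContDiffAt ℝ ∞ (fun y => nsq g y (cHess g y (grad W y) (hess2 W y))) x := by
    unfold nsq
    exact c_sum fun i => c_sum fun j => c_sum fun k => c_sum fun l =>
      (((h.inv i k).mul (h.inv j l)).mul (h.chess i j)).mul (h.chess k l)
  have hc : ∀ i, ContDiffAt ℝ ∞
      (fun y => contr (cHess g y (grad W y) (hess2 W y)) (Pool.Agent.PFlow.nrm g y (grad W y)) i)
      x := by
    intro i
    unfold contr
    exact c_sum fun j => (h.chess i j).mul (h.nrm j)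
  have hl2 : ContDiffAt ℝ ∞ (fun y => 2 * Pool.Agent.PFlow.len g y (grad W y) ^ 2) x :=
    contDiffAt_const.mul (h.le.pow 2)
  have hl3 : 2 * Pool.Agent.PFlow.len g x (grad W x) ^ 2 ≠ 0 := by
    have := h.len
    exact (by positivity : (0 : ℝ) < 2 * Pool.Agent.PFlow.len g x (grad W x) ^ 2).ne'
  refine ((h.scal.div_const 2).sub hb1).add (ContDiffAt.div ?_ hl2 hl3)
  exact (((ht.pow 2).sub hn).sub ((contDiffAt_const.mul hb2).mul ht)).add
    (contDiffAt_const.mul (c_ev h.inv hc hc))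

theorem Dat.lin (h : Dat g W x) (hn : n ≤ ∞) (hm : n + 1 ≤ m) {f k : E3 → ℝ}
    (hf : ContDiffAt ℝ m f x) (hk : ContDiffAt ℝ m k x) :
    ContDiffAt ℝ n (lin g W f k) x := by
  unfold Pool.Agent.PFlow.lin lip
  have h1 : ∀ i, ContDiffAt ℝ n (fun y => grad f y i) x := fun i => c_pd hf hm i
  have h2 : ∀ i, ContDiffAt ℝ n (fun y => grad k y i) x := fun i => c_pd hk hm i
  have h3 : ∀ i, ContDiffAt ℝ n (fun y => Pool.Agent.PFlow.nrm g y (grad W y) i) x :=
    fun i => (h.nrm i).of_le hn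
  exact (c_ev (fun i j => (h.inv i j).of_le hn) h1 h2).sub
    ((c_sum fun i => (h1 i).mul (h3 i)).mul (c_sum fun i => (h2 i).mul (h3 i)))

theorem Dat.lgrad (h : Dat g W x) (hn : n ≤ ∞) (hm : n + 1 ≤ m) {f : E3 → ℝ}
    (hf : ContDiffAt ℝ m f x) (i : Fin 3) :
    ContDiffAt ℝ n (fun y => lgrad g W f y i) x := by
  unfold Pool.Agent.PFlow.lgrad Pool.Agent.PFlow.raise
  have h1 : ∀ i, ContDiffAt ℝ n (fun y => grad f y i) x := fun i => c_pd hf hm i
  have h3 : ∀ i, ContDiffAt ℝ n (fun y => Pool.Agent.PFlow.nrm g y (grad W y) i) x :=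
    fun i => (h.nrm i).of_le hn
  exact (c_sum fun j => ((h.inv i j).of_le hn).mul (h1 j)).sub
    ((h3 i).mul (c_sum fun j => (h1 j).mul (h3 j)))

theorem Dat.lap (h : Dat g W x) {k : WithTop ℕ∞} (hk : k ≤ ∞) (hn : n + 1 ≤ k) (hm : k + 1 ≤ m)
    {f : E3 → ℝ} (hf : ContDiffAt ℝ m f x) : ContDiffAt ℝ n (lap g W f) x := by
  unfold Pool.Agent.PFlow.lap ldiv
  have hnk : n ≤ k := le_self_add.trans hn
  refine ContDiffAt.div ?_ (h.dens.of_le (hnk.trans hk)) h.dpos.ne'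
  refine c_sum fun i => c_pd (m := k) ?_ hn i
  exact (h.dens.of_le hk).mul (h.lgrad hk hm hf i)

end MSMO

/-- (SMO) Smoothness of the leafwise objects. -/
theorem SMO (hALG : Stmt_ALG) : Stmt_SMO := by
  refine ⟨fun V a b g W hF x hx => hF.reg hx, ?_⟩
  intro g W x hR
  obtain ⟨O, hO, hx, hM, hW, hg⟩ := hR
  have hpd := hM.posDef x hx
  have hd : MSMO.Dat g W x :=
    { hg := fun i j => (hM.smooth i j x hx).contDiffAt (hO.mem_nhds hx)
      w := (hW x hx).contDiffAt (hO.mem_nhds hx)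
      det := hpd.det_pos
      len := (hALG g x (grad W x) hpd (hg x hx)).1 }
  refine ⟨?_, hd.len, hd.vpos, hd.dpos, hd.hg, hd.inv, hd.le, hd.vol, hd.dens, hd.nrm, hd.prj,
    hd.curv, ?_, ?_, ?_⟩
  · filter_upwards [hO.mem_nhds hx] with y hy
    exact ⟨O, hO, hy, hM, hW, hg⟩
  · intro f h hf hh
    exact ⟨hd.lin le_rfl MSMO.inf_le hf hh, hd.lap le_rfl MSMO.inf_le MSMO.inf_le hf,
      fun i => hd.lgrad le_rfl MSMO.inf_le hf i⟩
  · intro n f h hf hh
    have h1 : ((n : ℕ) : WithTop ℕ∞) ≤ ∞ := by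
      exact_mod_cast le_top
    have h2 : ((n : ℕ) : WithTop ℕ∞) + 1 ≤ ((n + 1 : ℕ) : WithTop ℕ∞) := by
      push_cast
      exact le_rfl
    exact ⟨hd.lin h1 h2 hf hh, fun i => hd.lgrad h1 h2 hf i⟩
  · intro n f hf
    have h1 : ((n + 1 : ℕ) : WithTop ℕ∞) ≤ ∞ := by
      exact_mod_cast le_top
    have h2 : ((n : ℕ) : WithTop ℕ∞) + 1 ≤ ((n + 1 : ℕ) : WithTop ℕ∞) := by
      push_cast
      exact le_rfl
    have h3 : ((n + 1 : ℕ) : WithTop ℕ∞) + 1 ≤ ((n + 2 : ℕ) : WithTop ℕ∞) := by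
      push_cast
      rw [add_assoc]
      norm_num
    exact hd.lap h1 h2 h3 hf

end Pool.Agent.PFlow.GB
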