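import Pool.Agent.PFlow.G.Base

/-!
# SOLVE: the approximate solver of the leafwise Poisson equation
-/

open MeasureTheory Filter Topology
open scoped ContDiff

namespace Pool.Agent.PFlow.GB

open Pool.Agent.PenroseSph Pool.Agent.PFlow

namespace SOLVE

variable {V : Set E3} {a b : ℝ} {g : TensorField} {W : E3 → ℝ}

lemma grad_zero {u : E3 → ℝ} {x : E3} (hx : u =ᶠ[𝓝 x] fun _ => 0) : grad u x = 0 := by
  funext i
  simp only [grad, pd]
  rw [hx.fderiv_eq]
  simp

lemma lin_zero {u : E3 → ℝ} {x : E3} (hx : x ∉ tsupport u) (g : TensorField) (W : E3 → ℝ) :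
    lin g W u u x = 0 := by
  unfold lin lip ev
  rw [grad_zero (notMem_tsupport_iff_eventuallyEq.1 hx)]
  simp

lemma lap_zero {u : E3 → ℝ} {x : E3} (hx : x ∉ tsupport u) (g : TensorField) (W : E3 → ℝ) :
    lap g W u x = 0 := by
  have h1 : ∀ᶠ y in 𝓝 x, y ∉ tsupport u := (isClosed_tsupport u).isOpen_compl.mem_nhds hx
  have h2 : ∀ i, (fun y => dens g W y * lgrad g W u y i) =ᶠ[𝓝 x] fun _ => 0 := by
    intro i
    filter_upwards [h1] with y hy
    have h3 : grad u y = 0 := grad_zero (notMem_tsupport_iff_eventuallyEq.1 hy)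
    simp [lgrad, raise, h3]
  unfold lap ldiv
  have h4 : ∀ i, pd i (fun y => dens g W y * lgrad g W u y i) x = 0 := by
    intro i
    simp only [pd]
    rw [(h2 i).fderiv_eq]
    simp
  simp [h4]

lemma finMeas (h : Fol V a b g W) {c d : ℝ} (hc : a < c) (hd : d < b) :
    IsFiniteMeasure (volume.restrict (slab V W c d)) :=
  ⟨by simpa using volume_slab_lt_top h hc hd⟩

lemma memLp_of (h : Fol V a b g W) {c d : ℝ} (hc : a < c) (hd : d < b) {K : Set E3}
    (hK : IsCompact K) (hKU : K ⊆ slab V W c d) {F : E3 → ℝ}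
    (hF : ContinuousOn F (slab V W c d)) (h0 : ∀ x, x ∉ K → F x = 0) :
    MemLp F 2 (volume.restrict (slab V W c d)) := by
  obtain ⟨B, hB⟩ := hK.exists_bound_of_continuousOn (hF.mono hKU)
  have := finMeas h hc hd
  refine MemLp.of_bound (hF.aestronglyMeasurable (measurableSet_slab h c d)) (max B 0)
    (ae_of_all _ fun x => ?_)
  by_cases hx : x ∈ K
  · exact (hB x hx).trans (le_max_left _ _)
  · rw [h0 x hx]
    simp

lemma dens_continuousOn (hSMO : Stmt_SMO) (h : Fol V a b g W) : ContinuousOn (dens g W) V :=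
  fun x hx => ((hSMO.2 g W x (h.reg hx)).2.2.2.2.2.2.2.2.1).continuousAt.continuousWithinAt

lemma dens_pos (hSMO : Stmt_SMO) (h : Fol V a b g W) {x : E3} (hx : x ∈ V) : 0 < dens g W x :=
  (hSMO.2 g W x (h.reg hx)).2.2.2.1

lemma integrable_dens (hSMO : Stmt_SMO) (h : Fol V a b g W) {c d : ℝ} (hc : a < c) (hd : d < b)
    {F G : E3 → ℝ} (hF : MemLp F 2 (volume.restrict (slab V W c d)))
    (hG : MemLp G 2 (volume.restrict (slab V W c d))) :
    Integrable (fun x => F x * G x * dens g W x) (volume.restrict (slab V W c d)) := by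
  obtain ⟨M, hM⟩ := (h.proper c d hc hd).exists_bound_of_continuousOn
    ((dens_continuousOn hSMO h).mono (cslab_subset c d))
  have h1 : Integrable (fun x => F x * G x) (volume.restrict (slab V W c d)) :=
    hF.integrable_mul hG
  refine h1.mul_bdd (c := M) ?_ ?_
  · exact ((dens_continuousOn hSMO h).mono (slab_subset c d)).aestronglyMeasurable
      (measurableSet_slab h c d)
  · filter_upwards [ae_restrict_mem (measurableSet_slab h c d)] with x hx
    exact hM x (slab_subset_cslab c d hx)

/-- the scalar part of the argument -/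
lemma scalar {κ A2 D2 C0 S : ℝ} (hκ : 0 < κ) (hκ1 : κ ≤ 1) (hD : 0 ≤ D2) (hC : 0 ≤ C0)
    (h : κ * A2 / 2 + D2 ≤ κ / 2 + C0 * Real.sqrt D2) (hA : 0 ≤ A2)
    (hS : S ≤ 2 * κ ^ 2 * A2 + 2 * κ ^ 2) :
    D2 ≤ (C0 + 1) ^ 2 ∧ S ≤ κ * (4 + C0 ^ 2) := by
  have h1 : Real.sqrt D2 ^ 2 = D2 := Real.sq_sqrt hD
  have h0 : 0 ≤ Real.sqrt D2 := Real.sqrt_nonneg _
  set D := Real.sqrt D2 with hDd
  rw [← h1] at h
  have h2 : D ≤ C0 + 1 := by
    by_contra hcon
    push Not at hcon
    have h3 : 0 ≤ κ * A2 / 2 := by positivity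
    nlinarith
  constructor
  · rw [← h1]
    exact pow_le_pow_left₀ h0 h2 2
  · have h4 : κ * A2 ≤ κ + C0 ^ 2 / 2 := by nlinarith [sq_nonneg (D - C0 / 2)]
    have h5 : κ * (κ * A2) ≤ κ * (κ + C0 ^ 2 / 2) := mul_le_mul_of_nonneg_left h4 hκ.le
    nlinarith [mul_nonneg hκ.le (sub_nonneg.2 hκ1)]

end SOLVE

open SOLVE in
/-- SOLVE: the approximate solver. -/
theorem SOLVE (hSMO : Stmt_SMO) (hRUL : Stmt_RUL) (hIBP : Stmt_IBP) (hDENS : Stmt_DENS) :
    Stmt_SOLVE := by
  intro V a b g W hf c d hac hcd hdb ρ C0 hρ hC0 hweak ε hε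
  set U : Set E3 := slab V W c d with hU
  have hUf : Fol U c d g W := hf.sub hac.le hdb.le
  have hUm : MeasurableSet U := measurableSet_slab hf c d
  -- the parameter
  set κ : ℝ := min 1 (ε / (4 + C0 ^ 2)) with hκd
  have hκ : 0 < κ := lt_min one_pos (by positivity)
  have hκ1 : κ ≤ 1 := min_le_left _ _
  have hκε : κ * (4 + C0 ^ 2) ≤ ε := by
    have h1 : κ ≤ ε / (4 + C0 ^ 2) := min_le_right _ _
    rwa [le_div_iff₀ (by positivity)] at h1
  obtain ⟨u, hu, hur⟩ := hDENS V a b g W hf c d hac hcd hdb κ hκ (fun x => -ρ x) hρ.neg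
    (κ ^ 2) (by positivity)
  -- regularity
  have hcu : ContinuousOn u U := hu.smooth.continuous.continuousOn
  have hcl : ContinuousOn (lap g W u) U := fun x hx =>
    (((hSMO.2 g W x (hf.reg hx.1)).2.2.2.2.2.2.2.2.2.2.2.2.1 u u hu.smooth.contDiffAt
      hu.smooth.contDiffAt).2.1).continuousAt.continuousWithinAt
  have hcg : ContinuousOn (lin g W u u) U := fun x hx =>
    (((hSMO.2 g W x (hf.reg hx.1)).2.2.2.2.2.2.2.2.2.2.2.2.1 u u hu.smooth.contDiffAt
      hu.smooth.contDiffAt).1).continuousAt.continuousWithinAt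
  have hK : IsCompact (tsupport u) := hu.compact
  have mu : MemLp u 2 (volume.restrict U) := memLp_of hf hac hdb hK hu.supp hcu
    (fun x hx => image_eq_zero_of_notMem_tsupport hx)
  have ml : MemLp (lap g W u) 2 (volume.restrict U) := memLp_of hf hac hdb hK hu.supp hcl
    (fun x hx => lap_zero hx g W)
  have mg : MemLp (lin g W u u) 2 (volume.restrict U) := memLp_of hf hac hdb hK hu.supp hcg
    (fun x hx => lin_zero hx g W)
  have := finMeas hf hac hdb
  have m1 : MemLp (fun _ : E3 => (1 : ℝ)) 2 (volume.restrict U) := memLp_const 1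
  set r : E3 → ℝ := fun x => κ * u x - lap g W u x + ρ x with hr
  have mr : MemLp r 2 (volume.restrict U) := ((mu.const_mul κ).sub ml).add hρ
  -- integrals
  set A2 : ℝ := ∫ x in U, u x * u x * dens g W x with hA2
  set D2 : ℝ := ∫ x in U, lin g W u u x * dens g W x with hD2
  have iuu := integrable_dens hSMO hf hac hdb mu mu
  have iul := integrable_dens hSMO hf hac hdb mu ml
  have iur := integrable_dens hSMO hf hac hdb mu mr
  have irr := integrable_dens hSMO hf hac hdb mr mr
  have iρu := integrable_dens hSMO hf hac hdb hρ mu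
  have ig : Integrable (fun x => lin g W u u x * dens g W x) (volume.restrict U) := by
    have h1 := integrable_dens hSMO hf hac hdb mg m1
    simpa using h1
  have hrr : ∫ x in U, r x * r x * dens g W x ≤ κ ^ 2 := by
    refine le_trans (le_of_eq ?_) hur.le
    refine integral_congr_ae (ae_of_all _ fun x => ?_)
    simp only [hr]
    ring
  have hA0 : 0 ≤ A2 := by
    refine integral_nonneg_of_ae ?_
    filter_upwards [ae_restrict_mem hUm] with x hx
    have := dens_pos hSMO hf hx.1
    have h2 : 0 ≤ u x * u x := mul_self_nonneg _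
    exact mul_nonneg h2 this.le
  have hlin0 : ∀ x ∈ U, 0 ≤ lin g W u u x := fun x hx =>
    ((hRUL g W x (hf.reg hx.1)).2.2.1 u u).2.1
  have hD0 : 0 ≤ D2 := by
    refine integral_nonneg_of_ae ?_
    filter_upwards [ae_restrict_mem hUm] with x hx
    exact mul_nonneg (hlin0 x hx) (dens_pos hSMO hf hx.1).le
  -- integration by parts
  have hibp : ∫ x in U, u x * lap g W u x * dens g W x = -D2 :=
    ((hIBP U c d g W hUf).2.2 u u hu (hu.smooth.contDiffOn.of_le ENat.LEInfty.out)).1
  have hw := hweak u hu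
  have hid : ∫ x in U, u x * r x * dens g W x =
      κ * A2 + D2 + ∫ x in U, ρ x * u x * dens g W x := by
    have e1 : ∀ x, u x * r x * dens g W x =
        κ * (u x * u x * dens g W x) - u x * lap g W u x * dens g W x +
          ρ x * u x * dens g W x := by
      intro x
      simp only [hr]
      ring
    have i1 : Integrable (fun x => κ * (u x * u x * dens g W x) -
        u x * lap g W u x * dens g W x) (volume.restrict U) := (iuu.const_mul κ).sub iul
    simp_rw [e1]
    rw [integral_add i1 iρu, integral_sub (iuu.const_mul κ) iul,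
      integral_const_mul, hibp]
    ring
  have hyoung : ∫ x in U, u x * r x * dens g W x ≤ κ / 2 * A2 + κ / 2 := by
    have e1 : ∫ x in U, u x * r x * dens g W x ≤
        ∫ x in U, (κ / 2 * (u x * u x * dens g W x) + 1 / (2 * κ) *
          (r x * r x * dens g W x)) := by
      refine integral_mono_ae iur ((iuu.const_mul _).add (irr.const_mul _)) ?_
      filter_upwards [ae_restrict_mem hUm] with x hx
      have hm := dens_pos hSMO hf hx.1
      have e2 : u x * r x ≤ κ / 2 * (u x * u x) + 1 / (2 * κ) * (r x * r x) := by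
        have e3 : κ / 2 * (u x * u x) + 1 / (2 * κ) * (r x * r x) - u x * r x =
            (κ * u x - r x) ^ 2 / (2 * κ) := by
          field_simp
          ring
        have e4 : 0 ≤ (κ * u x - r x) ^ 2 / (2 * κ) := by positivity
        linarith
      have e5 := mul_le_mul_of_nonneg_right e2 hm.le
      calc u x * r x * dens g W x ≤ (κ / 2 * (u x * u x) + 1 / (2 * κ) * (r x * r x)) *
            dens g W x := e5
        _ = _ := by ring
    rw [integral_add (iuu.const_mul _) (irr.const_mul _), integral_const_mul,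
      integral_const_mul] at e1
    have e6 : 1 / (2 * κ) * ∫ x in U, r x * r x * dens g W x ≤ κ / 2 := by
      calc 1 / (2 * κ) * ∫ x in U, r x * r x * dens g W x ≤ 1 / (2 * κ) * κ ^ 2 :=
            mul_le_mul_of_nonneg_left hrr (by positivity)
        _ = κ / 2 := by field_simp
    linarith
  have hmain : κ * A2 / 2 + D2 ≤ κ / 2 + C0 * Real.sqrt D2 := by
    have e1 := (abs_le.1 hw).1
    linarith
  -- the equation
  have hS : ∫ x in U, (lap g W u x - ρ x) ^ 2 * dens g W x ≤
      2 * κ ^ 2 * A2 + 2 * κ ^ 2 := by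
    have e0 : ∫ x in U, (lap g W u x - ρ x) ^ 2 * dens g W x =
        ∫ x in U, (lap g W u x - ρ x) * (lap g W u x - ρ x) * dens g W x := by
      refine integral_congr_ae (ae_of_all _ fun x => ?_)
      ring
    have e1 : ∫ x in U, (lap g W u x - ρ x) * (lap g W u x - ρ x) * dens g W x ≤
        ∫ x in U, (2 * κ ^ 2 * (u x * u x * dens g W x) + 2 * (r x * r x * dens g W x)) := by
      refine integral_mono_ae (integrable_dens hSMO hf hac hdb (ml.sub hρ) (ml.sub hρ))
        ((iuu.const_mul _).add (irr.const_mul _)) ?_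
      filter_upwards [ae_restrict_mem hUm] with x hx
      have hm := dens_pos hSMO hf hx.1
      have e2 : (lap g W u x - ρ x) * (lap g W u x - ρ x) ≤
          2 * κ ^ 2 * (u x * u x) + 2 * (r x * r x) := by
        simp only [hr]
        nlinarith [sq_nonneg (κ * u x + (κ * u x - lap g W u x + ρ x))]
      have e5 := mul_le_mul_of_nonneg_right e2 hm.le
      calc (lap g W u x - ρ x) * (lap g W u x - ρ x) * dens g W x ≤
          (2 * κ ^ 2 * (u x * u x) + 2 * (r x * r x)) * dens g W x := e5
        _ = _ := by ring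
    rw [integral_add (iuu.const_mul _) (irr.const_mul _), integral_const_mul,
      integral_const_mul] at e1
    rw [e0]
    linarith
  obtain ⟨h1, h2⟩ := scalar hκ hκ1 hD0 hC0 hmain hA0 hS
  exact ⟨u, hu, h2.trans hκε, h1⟩

end Pool.Agent.PFlow.GB
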