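import Pool.Agent.PFlow.DefsG

/-!
# Unicoherence: a regular level set separating two connected sets is connected

The proof lifts a continuous map from `E3` to the circle to the real line.
-/

open MeasureTheory Filter Topology
open scoped ContDiff

namespace Pool.Agent.PFlow.GB

open Pool.Agent.PenroseSph Pool.Agent.PFlow

namespace UNIC

/-- A continuous integer valued function on a preconnected set is constant. -/
theorem const_of_int {S : Set E3} (hS : IsPreconnected S) {G : E3 → ℝ} (hG : ContinuousOn G S)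
    (hi : ∀ x ∈ S, ∃ n : ℤ, G x = n) {x y : E3} (hx : x ∈ S) (hy : y ∈ S) : G x = G y := by
  have key : ∀ x ∈ S, ∀ y ∈ S, ¬ G x < G y := by
    intro x hx y hy hlt
    obtain ⟨n, hn⟩ := hi x hx
    obtain ⟨m, hm⟩ := hi y hy
    have h1 : n < m := by
      rw [hn, hm] at hlt
      exact_mod_cast hlt
    have h2 : (n : ℝ) + 1 ≤ m := by exact_mod_cast h1
    have h3 : G x + 1 / 2 ∈ Set.Icc (G x) (G y) := by
      rw [hn, hm]
      constructor <;> linarith
    obtain ⟨z, hz, hz'⟩ := hS.intermediate_value hx hy hG h3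
    obtain ⟨k, hk⟩ := hi z hz
    rw [hk, hn] at hz'
    have h4 : (2 * k : ℝ) = 2 * n + 1 := by linarith
    have h5 : 2 * k = 2 * n + 1 := by exact_mod_cast h4
    omega
  rcases lt_trichotomy (G x) (G y) with h | h | h
  · exact absurd h (key x hx y hy)
  · exact h
  · exact absurd h (key y hy x hx)

/-- The ramp. -/
noncomputable def ramp (c d t : ℝ) : ℝ := max 0 (min 1 ((t - c + d) / (2 * d)))

theorem continuous_ramp (c d : ℝ) : Continuous (ramp c d) := by
  unfold ramp
  fun_prop

theorem ramp_low {c d t : ℝ} (hd : 0 < d) (h : t ≤ c - d) : ramp c d t = 0 := by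
  unfold ramp
  apply max_eq_left
  apply (min_le_right _ _).trans
  apply div_nonpos_of_nonpos_of_nonneg <;> linarith

theorem ramp_high {c d t : ℝ} (hd : 0 < d) (h : c + d ≤ t) : ramp c d t = 1 := by
  unfold ramp
  rw [min_eq_left, max_eq_right zero_le_one]
  rw [le_div_iff₀ (by linarith)]
  linarith

theorem ramp_mid {c d : ℝ} (hd : 0 < d) : ramp c d c = 1 / 2 := by
  unfold ramp
  have h1 : (c - c + d) / (2 * d) = 1 / 2 := by
    rw [sub_self, zero_add]
    field_simp
  rw [h1, min_eq_right (by norm_num), max_eq_right (by norm_num)]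

theorem coe_int (n : ℤ) : ((n : ℝ) : AddCircle (1 : ℝ)) = 0 := by
  rw [AddCircle.coe_eq_zero_iff]
  exact ⟨n, by simp⟩

theorem int_of_coe {t : ℝ} (h : (t : AddCircle (1 : ℝ)) = 0) : ∃ n : ℤ, t = n := by
  rw [AddCircle.coe_eq_zero_iff] at h
  obtain ⟨n, hn⟩ := h
  exact ⟨n, by simpa using hn.symm⟩

/-- Points of a regular level are limits of points with smaller values. -/
theorem mem_closure_lt {f : E3 → ℝ} {a : E3} (h : fderiv ℝ f a ≠ 0) :
    a ∈ closure {x | f x < f a} := by
  by_contra hn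
  apply h
  apply IsLocalMin.fderiv_eq_zero
  have h1 : (closure {x | f x < f a})ᶜ ∈ 𝓝 a := isClosed_closure.isOpen_compl.mem_nhds hn
  filter_upwards [h1] with x hx
  by_contra hlt
  exact hx (subset_closure (not_le.mp hlt))

theorem mem_closure_gt {f : E3 → ℝ} {a : E3} (h : fderiv ℝ f a ≠ 0) :
    a ∈ closure {x | f a < f x} := by
  by_contra hn
  apply h
  apply IsLocalMax.fderiv_eq_zero
  have h1 : (closure {x | f a < f x})ᶜ ∈ 𝓝 a := isClosed_closure.isOpen_compl.mem_nhds hn
  filter_upwards [h1] with x hx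
  by_contra hlt
  exact hx (subset_closure (not_le.mp hlt))

/-- The topological core. -/
theorem core {f : E3 → ℝ} {c d : ℝ} (hf : Continuous f) (hd : 0 < d)
    (h1 : IsPreconnected {x | f x < c}) (h2 : IsPreconnected {x | c < f x})
    {N₁ N₂ : Set E3} (hN₁ : IsOpen N₁) (hN₂ : IsOpen N₂) (hN : Disjoint N₁ N₂)
    (hcov : ∀ x, |f x - c| ≤ d → x ∈ N₁ ∪ N₂) {a₁ a₂ : E3} (ha₁ : a₁ ∈ N₁) (ha₂ : a₂ ∈ N₂)
    (hc₁ : f a₁ = c)
    (l₁ : a₁ ∈ closure {x | f x < c}) (u₁ : a₁ ∈ closure {x | c < f x})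
    (l₂ : a₂ ∈ closure {x | f x < c}) (u₂ : a₂ ∈ closure {x | c < f x}) : False := by
  classical
  set h : ℝ → ℝ := ramp c d with hh
  have hhc : Continuous h := continuous_ramp c d
  have hdis : ∀ x ∈ N₂, x ∉ N₁ := fun x hx hx' => Set.disjoint_left.mp hN hx' hx
  -- values away from the band
  have hoff : ∀ x, x ∉ N₁ → x ∉ N₂ → f x < c - d ∨ c + d < f x := by
    intro x hx hx'
    by_contra hn
    push Not at hn
    have : x ∈ N₁ ∪ N₂ := hcov x (abs_le.mpr ⟨by linarith [hn.1], by linarith [hn.2]⟩)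
    rcases this with h3 | h3
    · exact hx h3
    · exact hx' h3
  set φ : E3 → AddCircle (1 : ℝ) := fun x => if x ∈ N₁ then ((h (f x) : ℝ) : AddCircle (1 : ℝ))
    else 0 with hφ
  have hcoe : Continuous ((↑) : ℝ → AddCircle (1 : ℝ)) := AddCircle.continuous_mk' 1
  have hφc : Continuous φ := by
    rw [continuous_iff_continuousAt]
    intro x
    by_cases hx : x ∈ N₁
    · have e1 : φ =ᶠ[𝓝 x] fun y => ((h (f y) : ℝ) : AddCircle (1 : ℝ)) := by
        filter_upwards [hN₁.mem_nhds hx] with y hy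
        simp only [hφ, if_pos hy]
      exact (hcoe.comp (hhc.comp hf)).continuousAt.congr e1.symm
    · by_cases hx' : x ∈ N₂
      · have e1 : φ =ᶠ[𝓝 x] fun _ => 0 := by
          filter_upwards [hN₂.mem_nhds hx'] with y hy
          simp only [hφ, if_neg (hdis y hy)]
        exact continuousAt_const.congr e1.symm
      · have e1 : φ =ᶠ[𝓝 x] fun _ => 0 := by
          rcases hoff x hx hx' with h3 | h3
          · filter_upwards [(isOpen_lt hf continuous_const).mem_nhds h3] with y hy
            simp only [hφ]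
            split_ifs
            · rw [hh, ramp_low hd (le_of_lt hy)]
              rfl
            · rfl
          · filter_upwards [(isOpen_lt continuous_const hf).mem_nhds h3] with y hy
            simp only [hφ]
            split_ifs
            · rw [hh, ramp_high hd (le_of_lt hy)]
              exact (congrArg ((↑) : ℝ → AddCircle (1 : ℝ)) (Int.cast_one).symm).trans (coe_int 1)
            · rfl
        exact continuousAt_const.congr e1.symm
  -- the lift
  obtain ⟨F, ⟨_, hF⟩, _⟩ := (AddCircle.isCoveringMap_coe (1 : ℝ)).existsUnique_continuousMap_lifts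
    (⟨φ, hφc⟩ : C(E3, AddCircle (1 : ℝ))) a₂ 0 (by
      show ((0 : ℝ) : AddCircle (1 : ℝ)) = φ a₂
      simp only [hφ, if_neg (hdis a₂ ha₂)]
      rfl)
  have hF' : ∀ x, ((F x : ℝ) : AddCircle (1 : ℝ)) = φ x := fun x => congrFun hF x
  have hFc : Continuous F := F.continuous
  -- below
  set G : E3 → ℝ := fun x => F x - if x ∈ N₁ then h (f x) else 0 with hG
  set H : E3 → ℝ := fun x => F x - if x ∈ N₁ then h (f x) - 1 else 0 with hH
  have hGi : ∀ x, ∃ n : ℤ, G x = n := by
    intro x
    apply int_of_coe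
    rw [hG, AddCircle.coe_sub, hF']
    simp only [hφ]
    split_ifs
    · exact sub_self _
    · exact sub_self _
  have hHi : ∀ x, ∃ n : ℤ, H x = n := by
    intro x
    obtain ⟨n, hn⟩ := hGi x
    by_cases hx : x ∈ N₁
    · refine ⟨n + 1, ?_⟩
      simp only [hG, if_pos hx] at hn
      simp only [hH, if_pos hx]
      push_cast
      linarith
    · refine ⟨n, ?_⟩
      simp only [hG, if_neg hx] at hn
      simp only [hH, if_neg hx]
      exact hn
  have hGc : ContinuousOn G {x | f x < c} := by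
    intro x hx
    apply ContinuousAt.continuousWithinAt
    apply hFc.continuousAt.sub
    by_cases hx1 : x ∈ N₁
    · have e1 : (fun y => if y ∈ N₁ then h (f y) else 0) =ᶠ[𝓝 x] fun y => h (f y) := by
        filter_upwards [hN₁.mem_nhds hx1] with y hy
        rw [if_pos hy]
      exact (hhc.comp hf).continuousAt.congr e1.symm
    · have e1 : (fun y => if y ∈ N₁ then h (f y) else 0) =ᶠ[𝓝 x] fun _ => (0 : ℝ) := by
        by_cases hx2 : x ∈ N₂
        · filter_upwards [hN₂.mem_nhds hx2] with y hy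
          rw [if_neg (hdis y hy)]
        · rcases hoff x hx1 hx2 with h3 | h3
          · filter_upwards [(isOpen_lt hf continuous_const).mem_nhds h3] with y hy
            rw [hh, ramp_low hd (le_of_lt hy)]
            split_ifs <;> rfl
          · have hx' : f x < c := hx
            linarith
      exact continuousAt_const.congr e1.symm
  have hHc : ContinuousOn H {x | c < f x} := by
    intro x hx
    apply ContinuousAt.continuousWithinAt
    apply hFc.continuousAt.sub
    by_cases hx1 : x ∈ N₁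
    · have e1 : (fun y => if y ∈ N₁ then h (f y) - 1 else 0) =ᶠ[𝓝 x] fun y => h (f y) - 1 := by
        filter_upwards [hN₁.mem_nhds hx1] with y hy
        rw [if_pos hy]
      exact ((hhc.comp hf).sub continuous_const).continuousAt.congr e1.symm
    · have e1 : (fun y => if y ∈ N₁ then h (f y) - 1 else 0) =ᶠ[𝓝 x] fun _ => (0 : ℝ) := by
        by_cases hx2 : x ∈ N₂
        · filter_upwards [hN₂.mem_nhds hx2] with y hy
          rw [if_neg (hdis y hy)]
        · rcases hoff x hx1 hx2 with h3 | h3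
          · have hx' : c < f x := hx
            linarith
          · filter_upwards [(isOpen_lt continuous_const hf).mem_nhds h3] with y hy
            rw [hh, ramp_high hd (le_of_lt hy)]
            simp
      exact continuousAt_const.congr e1.symm
  obtain ⟨x₀, hx₀⟩ : {x | f x < c}.Nonempty := by
    by_contra hn
    rw [Set.not_nonempty_iff_eq_empty.mp hn, closure_empty] at l₁
    exact l₁
  obtain ⟨y₀, hy₀⟩ : {x | c < f x}.Nonempty := by
    by_contra hn
    rw [Set.not_nonempty_iff_eq_empty.mp hn, closure_empty] at u₁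
    exact u₁
  have hG0 : ∀ x, f x < c → G x = G x₀ := fun x hx =>
    const_of_int h1 hGc (fun z _ => hGi z) hx hx₀
  have hH0 : ∀ x, c < f x → H x = H y₀ := fun x hx =>
    const_of_int h2 hHc (fun z _ => hHi z) hx hy₀
  -- limits
  have hlim : ∀ (A N : Set E3) (P : E3 → ℝ) (k : ℝ) (a : E3), IsOpen N → a ∈ N →
      a ∈ closure A → ContinuousAt P a → (∀ x ∈ A, x ∈ N → P x = k) → P a = k := by
    intro A N P k a hNo haN hcl hP hk
    have h3 : a ∈ closure (A ∩ N) := by
      rw [mem_closure_iff_nhds] at hcl ⊢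
      intro t ht
      obtain ⟨z, hz1, hz2⟩ := hcl (t ∩ N) (inter_mem ht (hNo.mem_nhds haN))
      exact ⟨z, hz1.1, hz2, hz1.2⟩
    have h4 : (𝓝[A ∩ N] a).NeBot := mem_closure_iff_nhdsWithin_neBot.mp h3
    have h5 : Tendsto P (𝓝[A ∩ N] a) (𝓝 (P a)) := hP.tendsto.mono_left nhdsWithin_le_nhds
    have h6 : Tendsto P (𝓝[A ∩ N] a) (𝓝 k) := by
      refine tendsto_const_nhds.congr' ?_
      filter_upwards [self_mem_nhdsWithin] with z hz
      exact (hk z hz.1 hz.2).symm
    exact tendsto_nhds_unique h5 h6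
  have b1 := hlim {x | f x < c} N₁ (fun x => F x - h (f x)) (G x₀) a₁ hN₁ ha₁ l₁
    (hFc.sub (hhc.comp hf)).continuousAt (fun x hx hx' => by
      rw [← hG0 x hx]
      simp only [hG, if_pos hx'])
  have b2 := hlim {x | c < f x} N₁ (fun x => F x - (h (f x) - 1)) (H y₀) a₁ hN₁ ha₁ u₁
    (hFc.sub ((hhc.comp hf).sub continuous_const)).continuousAt (fun x hx hx' => by
      rw [← hH0 x hx]
      simp only [hH, if_pos hx'])
  have b3 := hlim {x | f x < c} N₂ (fun x => F x) (G x₀) a₂ hN₂ ha₂ l₂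
    hFc.continuousAt (fun x hx hx' => by
      rw [← hG0 x hx]
      simp only [hG, if_neg (hdis x hx'), sub_zero])
  have b4 := hlim {x | c < f x} N₂ (fun x => F x) (H y₀) a₂ hN₂ ha₂ u₂
    hFc.continuousAt (fun x hx hx' => by
      rw [← hH0 x hx]
      simp only [hH, if_neg (hdis x hx'), sub_zero])
  have b5 : h c = 1 / 2 := ramp_mid hd
  rw [hc₁, b5] at b1 b2
  linarith

end UNIC

theorem UNIC : Pool.Agent.PFlow.Stmt_UNIC := by
  intro f c e hf he hK h1 h2 hreg
  rw [IsPreconnected]
  intro u v hu hv hcov hsu hsv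
  by_contra hn
  rw [Set.not_nonempty_iff_eq_empty] at hn
  set s : Set E3 := {x | f x = c} with hs
  have hsc : IsCompact s := by
    apply hK.of_isClosed_subset (isClosed_eq hf continuous_const)
    intro x hx
    have hx' : f x = c := hx
    show |f x - c| ≤ e
    rw [hx', sub_self, abs_zero]
    exact he.le
  have hA1 : s ∩ u = s \ v := by
    ext x
    constructor
    · rintro ⟨hx, hxu⟩
      refine ⟨hx, fun hxv => ?_⟩
      have : x ∈ s ∩ (u ∩ v) := ⟨hx, hxu, hxv⟩
      rw [hn] at this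
      exact this
    · rintro ⟨hx, hxv⟩
      exact ⟨hx, (hcov hx).resolve_right hxv⟩
  have hA2 : s ∩ v = s \ u := by
    ext x
    constructor
    · rintro ⟨hx, hxv⟩
      refine ⟨hx, fun hxu => ?_⟩
      have : x ∈ s ∩ (u ∩ v) := ⟨hx, hxu, hxv⟩
      rw [hn] at this
      exact this
    · rintro ⟨hx, hxu⟩
      exact ⟨hx, (hcov hx).resolve_left hxu⟩
  have hc1 : IsCompact (s ∩ u) := by
    rw [hA1]
    exact hsc.diff hv
  have hc2 : IsCompact (s ∩ v) := by
    rw [hA2]
    exact hsc.diff hu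
  have hdj : Disjoint (s ∩ u) (s ∩ v) := by
    rw [Set.disjoint_left]
    rintro x ⟨hx, hxu⟩ ⟨_, hxv⟩
    have : x ∈ s ∩ (u ∩ v) := ⟨hx, hxu, hxv⟩
    rw [hn] at this
    exact this
  obtain ⟨N₁, N₂, hN₁, hN₂, hs1, hs2, hN⟩ := SeparatedNhds.of_isCompact_isCompact hc1 hc2 hdj
  -- the width of the band
  obtain ⟨d, hd, hband⟩ : ∃ d : ℝ, 0 < d ∧ ∀ x, |f x - c| ≤ d → x ∈ N₁ ∪ N₂ := by
    set T : Set E3 := {x | |f x - c| ≤ e} \ (N₁ ∪ N₂) with hT
    have hTc : IsCompact T := hK.diff (hN₁.union hN₂)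
    rcases T.eq_empty_or_nonempty with hTe | hTn
    · refine ⟨e, he, fun x hx => ?_⟩
      by_contra hx'
      have : x ∈ T := ⟨hx, hx'⟩
      rw [hTe] at this
      exact this
    · obtain ⟨x₀, hx₀, hmin⟩ := hTc.exists_isMinOn hTn
        (f := fun x => |f x - c|) ((hf.sub continuous_const).abs.continuousOn)
      have hpos : 0 < |f x₀ - c| := by
        rw [abs_pos, sub_ne_zero]
        intro h3
        have h4 : x₀ ∈ s := h3
        rcases hcov h4 with h5 | h5
        · exact hx₀.2 (Or.inl (hs1 ⟨h4, h5⟩))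
        · exact hx₀.2 (Or.inr (hs2 ⟨h4, h5⟩))
      refine ⟨min e (|f x₀ - c| / 2), lt_min he (by linarith), fun x hx => ?_⟩
      by_contra hx'
      have h3 : x ∈ T := ⟨hx.trans (min_le_left _ _), hx'⟩
      have h4 : |f x₀ - c| ≤ |f x - c| := hmin h3
      have h5 : |f x - c| ≤ |f x₀ - c| / 2 := hx.trans (min_le_right _ _)
      linarith
  obtain ⟨a₁, ha₁⟩ := hsu
  obtain ⟨a₂, ha₂⟩ := hsv
  have e1 : f a₁ = c := ha₁.1
  have e2 : f a₂ = c := ha₂.1
  have l1 := UNIC.mem_closure_lt (hreg a₁ e1).2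
  have u1 := UNIC.mem_closure_gt (hreg a₁ e1).2
  have l2 := UNIC.mem_closure_lt (hreg a₂ e2).2
  have u2 := UNIC.mem_closure_gt (hreg a₂ e2).2
  rw [e1] at l1 u1
  rw [e2] at l2 u2
  exact UNIC.core hf hd h1 h2 hN₁ hN₂ hN hband (hs1 ha₁) (hs2 ha₂) e1 l1 u1 l2 u2

end Pool.Agent.PFlow.GB
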