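import Pool.Agent.PFlow.StmtsG
import Pool.Agent.PFlow.G.Base

/-!
# Block GB: (VOL) the volume of a thin piece of a shell
-/

open MeasureTheory Filter Topology
open scoped ContDiff

namespace Pool.Agent.PFlow.GB

open Pool.Agent.PenroseSph Pool.Agent.PFlow

namespace VOLaux

theorem vol_fin (A : Set (Fin 3 → ℝ)) (hA : MeasurableSet A) (k : Fin 3) (x : Fin 3 → ℝ)
    (r D : ℝ) (hr : 0 ≤ r) (_hD : 0 ≤ D) (h1 : ∀ y ∈ A, ∀ j, |y j - x j| ≤ r)
    (h2 : ∀ y ∈ A, ∀ y' ∈ A, (∀ j, j ≠ k → y j = y' j) → |y k - y' k| ≤ D) :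
    volume A ≤ ENNReal.ofReal ((2 * r) ^ 2 * D) := by
  have hmp := (volume_preserving_piFinSuccAbove (fun _ : Fin 3 => ℝ) k).symm
  rw [← hmp.measure_preimage hA.nullMeasurableSet]
  have hm : MeasurableSet ((MeasurableEquiv.piFinSuccAbove (fun _ : Fin 3 => ℝ) k).symm ⁻¹' A) :=
    (MeasurableEquiv.piFinSuccAbove (fun _ : Fin 3 => ℝ) k).symm.measurable hA
  rw [Measure.volume_eq_prod, Measure.prod_apply_symm hm]
  let Bx : Set (Fin 2 → ℝ) :=
    Set.Icc (fun j => x (k.succAbove j) - r) (fun j => x (k.succAbove j) + r)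
  have hpt : ∀ z : Fin 2 → ℝ, volume ((fun a : ℝ => (a, z)) ⁻¹'
      ((MeasurableEquiv.piFinSuccAbove (fun _ : Fin 3 => ℝ) k).symm ⁻¹' A)) ≤
      Bx.indicator (fun _ => ENNReal.ofReal D) z := by
    intro z
    have hmem : ∀ a : ℝ, a ∈ ((fun a : ℝ => (a, z)) ⁻¹'
        ((MeasurableEquiv.piFinSuccAbove (fun _ : Fin 3 => ℝ) k).symm ⁻¹' A)) ↔
        (Fin.insertNth k a z : Fin 3 → ℝ) ∈ A := fun a => Iff.rfl
    by_cases hz : z ∈ Bx
    · rw [Set.indicator_of_mem hz]
      refine (Real.volume_le_diam _).trans (Metric.ediam_le fun a ha a' ha' => ?_)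
      rw [hmem] at ha ha'
      have h3 := h2 _ ha _ ha' (fun j hj => by
        obtain ⟨i, rfl⟩ := Fin.exists_succAbove_eq hj
        rw [Fin.insertNth_apply_succAbove, Fin.insertNth_apply_succAbove])
      rw [Fin.insertNth_apply_same, Fin.insertNth_apply_same] at h3
      rw [edist_dist, Real.dist_eq]
      exact ENNReal.ofReal_le_ofReal h3
    · rw [Set.indicator_of_notMem hz]
      have he : ((fun a : ℝ => (a, z)) ⁻¹'
          ((MeasurableEquiv.piFinSuccAbove (fun _ : Fin 3 => ℝ) k).symm ⁻¹' A)) = ∅ := by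
        rw [Set.eq_empty_iff_forall_notMem]
        intro a ha
        rw [hmem] at ha
        apply hz
        constructor
        · intro i
          have := h1 _ ha (k.succAbove i)
          rw [Fin.insertNth_apply_succAbove, abs_le] at this
          linarith [this.1]
        · intro i
          have := h1 _ ha (k.succAbove i)
          rw [Fin.insertNth_apply_succAbove, abs_le] at this
          linarith [this.2]
      rw [he, measure_empty]
  calc ∫⁻ z, volume ((fun a : ℝ => (a, z)) ⁻¹'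
      ((MeasurableEquiv.piFinSuccAbove (fun _ : Fin 3 => ℝ) k).symm ⁻¹' A))
      ≤ ∫⁻ z, Bx.indicator (fun _ => ENNReal.ofReal D) z := lintegral_mono hpt
    _ = ENNReal.ofReal D * volume Bx := lintegral_indicator_const measurableSet_Icc _
    _ = ENNReal.ofReal ((2 * r) ^ 2 * D) := by
        rw [Real.volume_Icc_pi, Fin.prod_univ_two, mul_comm, ENNReal.ofReal_mul (by positivity)]
        congr 1
        rw [← ENNReal.ofReal_mul (by linarith)]
        congr 1
        ring

theorem vol_E3 (A : Set E3) (hA : MeasurableSet A) (k : Fin 3) (x : E3)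
    (r D : ℝ) (hr : 0 ≤ r) (hD : 0 ≤ D) (h1 : ∀ y ∈ A, ∀ j, |y j - x j| ≤ r)
    (h2 : ∀ y ∈ A, ∀ y' ∈ A, (∀ j, j ≠ k → y j = y' j) → |y k - y' k| ≤ D) :
    volume A ≤ ENNReal.ofReal ((2 * r) ^ 2 * D) := by
  rw [← (PiLp.volume_preserving_toLp (Fin 3)).measure_preimage hA.nullMeasurableSet]
  refine vol_fin _ ((PiLp.volume_preserving_toLp (Fin 3)).measurable hA) k (fun j => x j) r D hr hD
    (fun y hy j => h1 _ hy j) (fun y hy y' hy' h => h2 _ hy _ hy' h)

/-- The local statement. -/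
theorem local_vol {V : Set E3} {a b : ℝ} {g : TensorField} {W : E3 → ℝ} (hF : Fol V a b g W)
    {R : ℝ} (hR : 0 < R) {x0 : E3} (hx0 : x0 ∈ V) : ∃ C t0 δ : ℝ, 0 < C ∧ 0 < t0 ∧ 0 < δ ∧
      ∀ x ∈ Metric.ball x0 δ, ∀ t : ℝ, 0 < t → t < t0 →
        volume {y | dist x y ≤ R * Real.sqrt t ∧ |W x - W y| ≤ t} ≤
          ENNReal.ofReal (C * t ^ 2) := by
  obtain ⟨k, hk⟩ : ∃ k, pd k W x0 ≠ 0 := by
    by_contra hcon
    push Not at hcon
    exact hF.regular x0 hx0 (funext hcon)
  have hp : 0 < |pd k W x0| := abs_pos.mpr hk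
  have hcont : ContinuousAt (fun y => pd k W y) x0 := by
    have h1 : ContinuousAt (fderiv ℝ W) x0 :=
      ((hF.contDiffAt hx0).fderiv_right (m := 0) (by norm_num)).continuousAt
    exact h1.clm_apply continuousAt_const
  have hev : ∀ᶠ y in 𝓝 x0, y ∈ V ∧ |pd k W y - pd k W x0| < |pd k W x0| / 2 := by
    have h1 : ∀ᶠ y in 𝓝 x0, y ∈ V := hF.isOpen.mem_nhds hx0
    have h2 := Metric.tendsto_nhds.mp hcont (|pd k W x0| / 2) (by positivity)
    exact h1.and h2
  obtain ⟨ε, hε, hball⟩ := Metric.eventually_nhds_iff_ball.mp hev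
  refine ⟨16 * R ^ 2 / |pd k W x0|, (ε / 2 / R) ^ 2, ε / 2, by positivity, by positivity,
    by positivity, ?_⟩
  intro x hx t ht ht0
  have hst : R * Real.sqrt t < ε / 2 := by
    have : Real.sqrt t < ε / 2 / R := (Real.sqrt_lt' (by positivity)).mpr ht0
    rw [lt_div_iff₀ hR] at this
    linarith
  have hsub : ∀ y, dist x y ≤ R * Real.sqrt t → y ∈ Metric.ball x0 ε := by
    intro y hy
    rw [Metric.mem_ball] at hx ⊢
    have := dist_triangle y x x0
    rw [dist_comm x y] at hy
    linarith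
  have hWc : ContinuousOn W (Metric.closedBall x (R * Real.sqrt t)) := by
    refine hF.continuousOn.mono fun y hy => ?_
    rw [Metric.mem_closedBall, dist_comm] at hy
    exact (hball y (hsub y hy)).1
  have hclosed : IsClosed {y | dist x y ≤ R * Real.sqrt t ∧ |W x - W y| ≤ t} := by
    have h1 := (ContinuousOn.preimage_isClosed_of_isClosed (f := fun y => |W x - W y|)
      (continuousOn_const.sub hWc).abs Metric.isClosed_closedBall (isClosed_Iic (a := t)))
    convert h1 using 1
    ext y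
    change (dist x y ≤ R * Real.sqrt t ∧ |W x - W y| ≤ t) ↔ _
    simp only [Set.mem_inter_iff, Metric.mem_closedBall, Set.mem_preimage,
      Set.mem_Iic, dist_comm x y]
  have hD : ∀ y ∈ {y | dist x y ≤ R * Real.sqrt t ∧ |W x - W y| ≤ t},
      ∀ y' ∈ {y | dist x y ≤ R * Real.sqrt t ∧ |W x - W y| ≤ t},
      (∀ j, j ≠ k → y j = y' j) → |y k - y' k| ≤ 4 * t / |pd k W x0| := by
    intro y hy y' hy' hj
    set s : ℝ := y' k - y k with hs
    set ek : E3 := EuclideanSpace.single k (1 : ℝ) with hek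
    have hyy : y' = y + s • ek := by
      ext j
      by_cases hjk : j = k
      · rw [hjk]
        simp [hek, hs]
      · rw [← hj j hjk]
        simp [hek, hjk]
    have hmem : ∀ τ ∈ Set.uIcc (0 : ℝ) s, y + τ • ek ∈ Metric.ball x0 ε := by
      intro τ hτ
      have h1 : Convex ℝ ((fun τ : ℝ => y + τ • ek) ⁻¹' Metric.ball x0 ε) := by
        intro τ1 h1 τ2 h2 p q hp0 hq0 hpq
        have e1 : y + (p • τ1 + q • τ2) • ek = p • (y + τ1 • ek) + q • (y + τ2 • ek) := by
          have e2 : y = (p + q) • y := by rw [hpq, one_smul]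
          conv_lhs => rw [e2]
          simp only [smul_eq_mul]
          module
        change y + (p • τ1 + q • τ2) • ek ∈ Metric.ball x0 ε
        rw [e1]
        exact convex_ball x0 ε h1 h2 hp0 hq0 hpq
      refine (h1.segment_subset ?_ ?_) (by rw [segment_eq_uIcc]; exact hτ)
      · change y + (0 : ℝ) • ek ∈ Metric.ball x0 ε
        rw [zero_smul, add_zero]
        exact hsub y hy.1
      · change y + s • ek ∈ Metric.ball x0 ε
        rw [← hyy]
        exact hsub y' hy'.1
    have hder : ∀ τ ∈ Set.uIcc (0 : ℝ) s, HasDerivWithinAt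
        (fun τ : ℝ => W (y + τ • ek) - pd k W x0 * τ)
        (pd k W (y + τ • ek) - pd k W x0) (Set.uIcc (0 : ℝ) s) τ := by
      intro τ hτ
      have hd : DifferentiableAt ℝ W (y + τ • ek) :=
        (hF.contDiffAt (hball _ (hmem τ hτ)).1).differentiableAt (by norm_num)
      have h1 : HasDerivAt (fun τ : ℝ => y + τ • ek) ek τ := by
        have := ((hasDerivAt_id τ).smul_const ek).const_add y
        simpa using this
      have h2 : HasDerivAt (fun τ : ℝ => W (y + τ • ek)) (pd k W (y + τ • ek)) τ :=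
        hd.hasFDerivAt.comp_hasDerivAt τ h1
      have h3 : HasDerivAt (fun τ : ℝ => pd k W x0 * τ) (pd k W x0) τ := by
        simpa using (hasDerivAt_id τ).const_mul (pd k W x0)
      exact (h2.sub h3).hasDerivWithinAt
    have hmv := (convex_uIcc (0 : ℝ) s).norm_image_sub_le_of_norm_hasDerivWithin_le hder
      (C := |pd k W x0| / 2) (fun τ hτ => (hball _ (hmem τ hτ)).2.le)
      Set.left_mem_uIcc Set.right_mem_uIcc
    rw [← hyy] at hmv
    simp only [zero_smul, add_zero, mul_zero, sub_zero, Real.norm_eq_abs] at hmv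
    have h4 : |W y' - W y| ≤ 2 * t := by
      have e1 : W y' - W y = (W x - W y) - (W x - W y') := by ring
      rw [e1]
      have := abs_sub (W x - W y) (W x - W y')
      linarith [hy.2, hy'.2]
    have h5 : |pd k W x0| * |s| ≤ 4 * t := by
      have e2 : pd k W x0 * s = (W y' - W y) - (W y' - pd k W x0 * s - W y) := by ring
      have h6 : |pd k W x0 * s| ≤ |W y' - W y| + |W y' - pd k W x0 * s - W y| := by
        conv_lhs => rw [e2]
        exact abs_sub _ _
      rw [abs_mul] at h6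
      linarith
    rw [abs_sub_comm, le_div_iff₀ hp]
    linarith
  refine (vol_E3 _ hclosed.measurableSet k x (R * Real.sqrt t) (4 * t / |pd k W x0|)
    (by positivity) (by positivity) (fun y hy j => ?_) hD).trans (le_of_eq ?_)
  · have h1 : |y j - x j| ≤ ‖y - x‖ := by
      have := PiLp.norm_apply_le (y - x) j
      rwa [Real.norm_eq_abs, PiLp.sub_apply] at this
    rw [← dist_eq_norm, dist_comm] at h1
    exact h1.trans hy.1
  · congr 1
    have h7 : (2 * (R * Real.sqrt t)) ^ 2 = 4 * R ^ 2 * t := by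
      rw [mul_pow, mul_pow, Real.sq_sqrt ht.le]
      ring
    rw [h7]
    ring

end VOLaux

open VOLaux in
theorem VOL (_hSMO : Stmt_SMO) : Stmt_VOL := by
  intro V a b g W hF K R hK hKV hR
  refine hK.induction_on (p := fun S => ∃ C t0 : ℝ, 0 < C ∧ 0 < t0 ∧
      ∀ x ∈ S, ∀ t : ℝ, 0 < t → t < t0 →
        volume {y | dist x y ≤ R * Real.sqrt t ∧ |W x - W y| ≤ t} ≤ ENNReal.ofReal (C * t ^ 2))
    ⟨1, 1, one_pos, one_pos, fun x hx => absurd hx (Set.notMem_empty x)⟩ ?_ ?_ ?_
  · rintro S T hST ⟨C, t0, hC, ht0, h⟩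
    exact ⟨C, t0, hC, ht0, fun x hx => h x (hST hx)⟩
  · rintro S T ⟨C, t0, hC, ht0, h⟩ ⟨C', t0', hC', ht0', h'⟩
    refine ⟨max C C', min t0 t0', lt_max_of_lt_left hC, lt_min ht0 ht0', ?_⟩
    rintro x (hx | hx) t ht htt
    · refine (h x hx t ht (htt.trans_le (min_le_left _ _))).trans (ENNReal.ofReal_le_ofReal ?_)
      exact mul_le_mul_of_nonneg_right (le_max_left _ _) (by positivity)
    · refine (h' x hx t ht (htt.trans_le (min_le_right _ _))).trans (ENNReal.ofReal_le_ofReal ?_)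
      exact mul_le_mul_of_nonneg_right (le_max_right _ _) (by positivity)
  · intro x0 hx0
    obtain ⟨C, t0, δ, hC, ht0, hδ, h⟩ := local_vol hF hR (hKV hx0)
    exact ⟨Metric.ball x0 δ, mem_nhdsWithin_of_mem_nhds (Metric.ball_mem_nhds x0 hδ), C, t0, hC,
      ht0, h⟩

end Pool.Agent.PFlow.GB
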