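import Pool.Agent.PFlow.StmtsG
import Pool.Agent.PFlow.G.Base

/-!
# Block GB, module WU: very weak solutions vanish
-/

open MeasureTheory Filter Topology
open scoped ContDiff

namespace Pool.Agent.PFlow.GB

open Pool.Agent.PenroseSph Pool.Agent.PFlow

namespace WUL

/-! ## Facts on square integrable functions -/

section L2

variable {α : Type*} [MeasurableSpace α] {μ : Measure α}

/-- Cauchy-Schwarz. -/
lemma cs {f g : α → ℝ} (hf : MemLp f 2 μ) (hg : MemLp g 2 μ) :
    (∫ x, f x * g x ∂μ) ^ 2 ≤ (∫ x, f x ^ 2 ∂μ) * ∫ x, g x ^ 2 ∂μ := by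
  have h1 : Integrable (fun x => f x ^ 2) μ := hf.integrable_sq
  have h2 : Integrable (fun x => g x ^ 2) μ := hg.integrable_sq
  have h3 : Integrable (fun x => f x * g x) μ := hf.integrable_mul hg
  have h4 : ∀ s : ℝ, 0 ≤ (∫ x, g x ^ 2 ∂μ) * (s * s) + (2 * ∫ x, f x * g x ∂μ) * s
      + ∫ x, f x ^ 2 ∂μ := by
    intro s
    have h5 : 0 ≤ ∫ x, (f x + s * g x) ^ 2 ∂μ := integral_nonneg fun x => sq_nonneg _
    have h6 : ∫ x, (f x + s * g x) ^ 2 ∂μ = (∫ x, g x ^ 2 ∂μ) * (s * s)
        + (2 * ∫ x, f x * g x ∂μ) * s + ∫ x, f x ^ 2 ∂μ := by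
      have e : (fun x => (f x + s * g x) ^ 2)
          = fun x => (f x ^ 2 + (2 * s) * (f x * g x)) + s ^ 2 * g x ^ 2 := by
        ext x; ring
      have i1 : Integrable (fun x => (2 * s) * (f x * g x)) μ := h3.const_mul _
      have i2 : Integrable (fun x => s ^ 2 * g x ^ 2) μ := h2.const_mul _
      have i3 : Integrable (fun x => f x ^ 2 + (2 * s) * (f x * g x)) μ := h1.add i1
      rw [e, integral_add i3 i2, integral_add h1 i1, integral_const_mul, integral_const_mul]
      ring
    linarith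
  have h7 := discrim_le_zero h4
  unfold discrim at h7
  nlinarith

/-- The product of a sequence tending to zero and of a bounded sequence tends to zero. -/
lemma tend_mul {u G : ℝ → α → ℝ} {B : ℝ} {l : Filter ℝ}
    (hu : ∀ᶠ t in l, MemLp (u t) 2 μ) (hG : ∀ᶠ t in l, MemLp (G t) 2 μ)
    (hB : ∀ᶠ t in l, ∫ x, G t x ^ 2 ∂μ ≤ B)
    (h0 : Tendsto (fun t => ∫ x, u t x ^ 2 ∂μ) l (𝓝 0)) :
    Tendsto (fun t => ∫ x, u t x * G t x ∂μ) l (𝓝 0) := by
  have h1 : Tendsto (fun t => Real.sqrt ((∫ x, u t x ^ 2 ∂μ) * B)) l (𝓝 0) := by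
    have h2 := (h0.mul_const B).sqrt
    simpa using h2
  refine squeeze_zero_norm' ?_ h1
  filter_upwards [hu, hG, hB] with t a b e
  rw [Real.norm_eq_abs]
  apply Real.le_sqrt_of_sq_le
  rw [sq_abs]
  exact (cs a b).trans (mul_le_mul_of_nonneg_left e (integral_nonneg fun x => sq_nonneg _))

/-- Bounded multipliers. -/
lemma bdd_mul {A f : α → ℝ} {B : ℝ} (hA : AEStronglyMeasurable A μ) (hB : ∀ᵐ x ∂μ, |A x| ≤ B)
    (hf : MemLp f 2 μ) :
    MemLp (fun x => A x * f x) 2 μ ∧ ∫ x, (A x * f x) ^ 2 ∂μ ≤ B ^ 2 * ∫ x, f x ^ 2 ∂μ := by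
  have h1 : MemLp (fun x => A x * f x) 2 μ := by
    refine MemLp.of_le_mul hf (hA.mul hf.1) (c := B) ?_
    filter_upwards [hB] with x hx
    rw [norm_mul, Real.norm_eq_abs, Real.norm_eq_abs]
    exact mul_le_mul_of_nonneg_right hx (abs_nonneg _)
  refine ⟨h1, ?_⟩
  rw [← integral_const_mul]
  refine integral_mono_ae h1.integrable_sq (hf.integrable_sq.const_mul _) ?_
  filter_upwards [hB] with x hx
  have h2 : A x ^ 2 ≤ B ^ 2 := by
    rw [← sq_abs (A x)]
    exact pow_le_pow_left₀ (abs_nonneg _) hx 2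
  calc (A x * f x) ^ 2 = A x ^ 2 * f x ^ 2 := by ring
    _ ≤ B ^ 2 * f x ^ 2 := mul_le_mul_of_nonneg_right h2 (sq_nonneg _)

end L2

/-- Square integrable functions are approximated by smooth functions. -/
lemma approx {U : Set E3} {f : E3 → ℝ} (hf : MemLp f 2 (volume.restrict U)) {ε : ℝ} (hε : 0 < ε) :
    ∃ w : E3 → ℝ, ContDiff ℝ ∞ w ∧ MemLp w 2 (volume.restrict U) ∧
      ∫ x in U, (f x - w x) ^ 2 ≤ ε := by
  obtain ⟨w, hw1, hw2, hw3⟩ := hf.exist_eLpNorm_sub_le (by norm_num) (by norm_num)
    (Real.sqrt_pos.2 hε)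
  have hw4 : MemLp w 2 (volume.restrict U) := by
    have := (hw2.continuous.memLp_of_hasCompactSupport (μ := (volume : Measure E3)) (p := 2) hw1)
    exact this.restrict U
  refine ⟨w, hw2, hw4, ?_⟩
  have h1 : MemLp (f - w) 2 (volume.restrict U) := hf.sub hw4
  have h2 := h1.eLpNorm_eq_integral_rpow_norm (by norm_num) (by norm_num)
  rw [h2] at hw3
  have h3 := (ENNReal.ofReal_le_ofReal_iff (Real.sqrt_nonneg _)).1 hw3
  simp only [ENNReal.toReal_ofNat, Pi.sub_apply, Real.rpow_two, Real.norm_eq_abs, sq_abs] at h3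
  have h4 : 0 ≤ ∫ x in U, (f x - w x) ^ 2 := integral_nonneg fun x => sq_nonneg _
  have h5 : (∫ x in U, (f x - w x) ^ 2) ^ ((2 : ℝ)⁻¹) = Real.sqrt (∫ x in U, (f x - w x) ^ 2) := by
    rw [Real.sqrt_eq_rpow, one_div]
  rw [h5] at h3
  exact (Real.sqrt_le_sqrt_iff hε.le).1 h3

/-! ## The kernel -/

/-- Partial derivatives in the first variable. -/
lemma pd_fst {F : E3 × E3 → ℝ} {N : Set E3} (hN : IsOpen N)
    (hF : ContDiffOn ℝ ∞ F (N ×ˢ Set.univ)) {x : E3} (hx : x ∈ N) (y : E3) (j : Fin 3) :
    pd j (fun z => F (z, y)) x = fderiv ℝ F (x, y) (EuclideanSpace.single j 1, 0) := by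
  have h1 : ContDiffAt ℝ ∞ F (x, y) :=
    (hF (x, y) ⟨hx, trivial⟩).contDiffAt ((hN.prod isOpen_univ).mem_nhds ⟨hx, trivial⟩)
  have h2 : HasFDerivAt F (fderiv ℝ F (x, y)) (x, y) :=
    (h1.differentiableAt (by simp)).hasFDerivAt
  have h3 : HasFDerivAt (fun z : E3 => (z, y)) (ContinuousLinearMap.inl ℝ E3 E3) x :=
    hasFDerivAt_prodMk_left x y
  have h4 := h2.comp x h3
  unfold pd
  have h5 : (fun z => F (z, y)) = F ∘ fun z : E3 => (z, y) := rfl
  rw [h5, h4.fderiv]
  simp

lemma fd_smooth {F : E3 × E3 → ℝ} {N : Set E3} (hN : IsOpen N)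
    (hF : ContDiffOn ℝ ∞ F (N ×ˢ Set.univ)) (e : E3 × E3) :
    ContDiffOn ℝ ∞ (fun q => fderiv ℝ F q e) (N ×ˢ Set.univ) := by
  have h1 := hF.fderiv_of_isOpen (hN.prod isOpen_univ) (m := ∞) (by simp)
  exact h1.clm_apply contDiffOn_const

lemma cont_snd {F : E3 × E3 → ℝ} {N : Set E3} (hF : ContDiffOn ℝ ∞ F (N ×ˢ Set.univ))
    {x : E3} (hx : x ∈ N) : Continuous fun y => F (x, y) :=
  hF.continuousOn.comp_continuous (by fun_prop) (fun y => ⟨hx, trivial⟩)

section

variable {V : Set E3} {a b : ℝ} {g : TensorField} {W : E3 → ℝ}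

/-- `y ↦ L_x F (x, y)` is continuous. -/
lemma cont_lap (hSMO : Stmt_SMO) (hRUL : Stmt_RUL) (h : Fol V a b g W) {F : E3 × E3 → ℝ}
    {N : Set E3} (hN : IsOpen N) (hNV : N ⊆ V) (hF : ContDiffOn ℝ ∞ F (N ×ˢ Set.univ)) {x : E3}
    (hx : x ∈ N) : Continuous fun y => lap g W (fun z => F (z, y)) x := by
  set H : Fin 3 → E3 × E3 → ℝ := fun i q => dens g W q.1 *
    ∑ j, prj g q.1 (grad W q.1) i j * fderiv ℝ F q (EuclideanSpace.single j 1, 0) with hH
  have h1 : ∀ i, ContDiffOn ℝ ∞ (H i) (N ×ˢ Set.univ) := by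
    intro i q hq
    have hr := hSMO.2 g W q.1 (h.reg (hNV hq.1))
    have hd : ContDiffAt ℝ ∞ (dens g W) q.1 := hr.2.2.2.2.2.2.2.2.1
    have hp : ∀ j, ContDiffAt ℝ ∞ (fun y => prj g y (grad W y) i j) q.1 :=
      fun j => hr.2.2.2.2.2.2.2.2.2.2.1 i j
    have hq' : N ×ˢ (Set.univ : Set E3) ∈ 𝓝 q := (hN.prod isOpen_univ).mem_nhds hq
    apply ContDiffAt.contDiffWithinAt
    refine ContDiffAt.mul (hd.comp q contDiffAt_fst) (ContDiffAt.sum fun j _ => ?_)
    exact ContDiffAt.mul ((hp j).comp q contDiffAt_fst) ((fd_smooth hN hF _ q hq).contDiffAt hq')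
  have h2 : ∀ i y, pd i (fun z => dens g W z * lgrad g W (fun z => F (z, y)) z i) x
      = fderiv ℝ (H i) (x, y) (EuclideanSpace.single i 1, 0) := by
    intro i y
    rw [← pd_fst hN (h1 i) hx y i]
    unfold pd
    congr 1
    apply Filter.EventuallyEq.fderiv_eq
    filter_upwards [hN.mem_nhds hx] with z hz
    simp only [hH]
    rw [(hRUL g W z (h.reg (hNV hz))).2.2.2.2.1 (fun z => F (z, y)) i]
    congr 1
    refine Finset.sum_congr rfl fun j _ => ?_
    rw [pd_fst hN hF hz y j]
  have h3 : (fun y => lap g W (fun z => F (z, y)) x) = fun y =>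
      (∑ i, fderiv ℝ (H i) (x, y) (EuclideanSpace.single i 1, 0)) / dens g W x := by
    ext y
    unfold lap ldiv
    congr 1
    exact Finset.sum_congr rfl fun i _ => h2 i y
  rw [h3]
  refine Continuous.div_const (continuous_finsetSum _ fun i _ => ?_) _
  exact cont_snd (fd_smooth hN (h1 i) _) hx

/-- `k_t(x, ·)` is a test function. -/
lemma testK {c d : ℝ} {k : ℝ → E3 → E3 → ℝ} {t0 R C m0 : ℝ} (h : Fol V a b g W)
    (hac : a < c) (hdb : d < b) (hM : Moll V g W c d k t0 R C m0) {t c' d' : ℝ} (ht : 0 < t)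
    (ht0 : t < t0) (hc : t < c' - c) (hd : t < d - d') {x : E3} (hx : x ∈ cslab V W c' d') :
    TestOn (slab V W c d) (fun y => k t x y) := by
  obtain ⟨N, hN, hKN, hNV, hk⟩ := hM.smooth t ht ht0
  have hxK : x ∈ cslab V W c d := ⟨hx.1, by linarith [hx.2.1], by linarith [hx.2.2]⟩
  have hK : IsCompact (cslab V W (c' - t) (d' + t)) :=
    h.proper _ _ (by linarith) (by linarith)
  have hs : ∀ y, k t x y ≠ 0 → y ∈ cslab V W (c' - t) (d' + t) := by
    intro y hy
    obtain ⟨h1, h2, h3⟩ := hM.supp t ht ht0 x hxK y hy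
    rw [abs_lt] at h3
    exact ⟨h1, by linarith [hx.2.1, h3.2], by linarith [hx.2.2, h3.1]⟩
  have hts : tsupport (fun y => k t x y) ⊆ cslab V W (c' - t) (d' + t) :=
    closure_minimal (fun y hy => hs y hy) hK.isClosed
  refine ⟨?_, HasCompactSupport.of_support_subset_isCompact hK fun y hy => hs y hy,
    hts.trans (cslab_subset_slab (by linarith) (by linarith))⟩
  rw [contDiff_iff_contDiffAt]
  intro y
  have h1 : ContDiffAt ℝ ∞ (fun q : E3 × E3 => k t q.1 q.2) (x, y) :=
    (hk (x, y) ⟨hKN hxK, trivial⟩).contDiffAt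
      ((hN.prod isOpen_univ).mem_nhds ⟨hKN hxK, trivial⟩)
  exact h1.comp y (contDiffAt_const.prodMk contDiffAt_id)

/-- Functions continuous on `V` are bounded on the slab. -/
lemma bdd {c d : ℝ} (h : Fol V a b g W) (hac : a < c) (hdb : d < b) {f : E3 → ℝ}
    (hf : ContinuousOn f V) :
    AEStronglyMeasurable f (volume.restrict (slab V W c d)) ∧ ∃ B : ℝ,
      ∀ᵐ x ∂(volume.restrict (slab V W c d)), |f x| ≤ B := by
  refine ⟨(hf.mono (slab_subset c d)).aestronglyMeasurable (measurableSet_slab h c d), ?_⟩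
  obtain ⟨B, hB⟩ := (h.proper c d hac hdb).exists_bound_of_continuousOn (hf.mono (cslab_subset c d))
  refine ⟨B, ?_⟩
  filter_upwards [ae_restrict_mem (measurableSet_slab h c d)] with x hx
  exact hB x (slab_subset_cslab c d hx)

lemma mem_mul {c d : ℝ} (h : Fol V a b g W) (hac : a < c) (hdb : d < b) {f u : E3 → ℝ}
    (hf : ContinuousOn f V) (hu : MemLp u 2 (volume.restrict (slab V W c d))) :
    MemLp (fun x => f x * u x) 2 (volume.restrict (slab V W c d)) := by
  obtain ⟨h1, B, h2⟩ := bdd h hac hdb hf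
  exact (bdd_mul h1 h2 hu).1

lemma integ {c d : ℝ} (h : Fol V a b g W) (hac : a < c) (hdb : d < b) {u : E3 → ℝ}
    (hu : MemLp u 2 (volume.restrict (slab V W c d))) :
    Integrable u (volume.restrict (slab V W c d)) := by
  have : IsFiniteMeasure (volume.restrict (slab V W c d)) :=
    ⟨by rw [Measure.restrict_apply_univ]; exact volume_slab_lt_top h hac hdb⟩
  exact hu.integrable (by norm_num)

lemma cont_dens (hSMO : Stmt_SMO) (h : Fol V a b g W) : ContinuousOn (dens g W) V := fun x hx =>
  ((hSMO.2 g W x (h.reg hx)).2.2.2.2.2.2.2.2.1).continuousAt.continuousWithinAt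

lemma dens_pos (hSMO : Stmt_SMO) (h : Fol V a b g W) {x : E3} (hx : x ∈ V) : 0 < dens g W x :=
  (hSMO.2 g W x (h.reg hx)).2.2.2.1

lemma cont_lap_test (hSMO : Stmt_SMO) (h : Fol V a b g W) {f : E3 → ℝ} (hf : ContDiff ℝ ∞ f) :
    ContinuousOn (lap g W f) V := fun x hx =>
  (((hSMO.2 g W x (h.reg hx)).2.2.2.2.2.2.2.2.2.2.2.2.1 f f hf.contDiffAt
    hf.contDiffAt).2.1).continuousAt.continuousWithinAt

/-- The equation of the smoothed function. -/
lemma eqn (hSMO : Stmt_SMO) (hRUL : Stmt_RUL) (hDU : Stmt_DU) {c d : ℝ} {k : ℝ → E3 → E3 → ℝ}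
    {t0 R C m0 : ℝ} (h : Fol V a b g W) (hac : a < c) (hcd : c < d) (hdb : d < b)
    (hM : Moll V g W c d k t0 R C m0) {κ : ℝ} {v : E3 → ℝ}
    (hv : MemLp v 2 (volume.restrict (slab V W c d)))
    (hw : ∀ h : E3 → ℝ, TestOn (slab V W c d) h →
        ∫ x in slab V W c d, v x * (κ * h x - lap g W h x) * dens g W x = 0)
    {t c' d' : ℝ} (ht : 0 < t)
    (ht0 : t < t0) (hc : t < c' - c) (hd : t < d - d') {x : E3} (hx : x ∈ cslab V W c' d') :
    lap g W (moll V g W c d k t v) x
      = κ * moll V g W c d k t v x + cmt V g W c d k t v x := by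
  have hT := testK h hac hdb hM ht ht0 hc hd hx
  have hxK : x ∈ cslab V W c d := ⟨hx.1, by linarith [hx.2.1], by linarith [hx.2.2]⟩
  have hxS : x ∈ slab V W c d := ⟨hx.1, by linarith [hx.2.1], by linarith [hx.2.2]⟩
  obtain ⟨N, hN, hKN, hNV, hk⟩ := hM.smooth t ht ht0
  have hm := cont_dens hSMO h
  have c1 : ContinuousOn (fun y => lap g W (fun z => k t z y) x) V :=
    (cont_lap hSMO hRUL h hN hNV hk (hKN hxK)).continuousOn
  have c2 : ContinuousOn (lap g W (fun z => k t x z)) V := cont_lap_test hSMO h hT.smooth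
  have c3 : ContinuousOn (fun y => k t x y) V := hT.smooth.continuous.continuousOn
  have i1 : Integrable (fun y => lap g W (fun z => k t z y) x * v y * dens g W y)
      (volume.restrict (slab V W c d)) := by
    have := integ h hac hdb (mem_mul h hac hdb (c1.mul hm) hv)
    refine this.congr (Eventually.of_forall fun y => ?_)
    simp only [Pi.mul_apply]; ring
  have i2 : Integrable (fun y => lap g W (fun z => k t x z) y * v y * dens g W y)
      (volume.restrict (slab V W c d)) := by
    have := integ h hac hdb (mem_mul h hac hdb (c2.mul hm) hv)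
    refine this.congr (Eventually.of_forall fun y => ?_)
    simp only [Pi.mul_apply]; ring
  have i3 : Integrable (fun y => k t x y * v y * dens g W y)
      (volume.restrict (slab V W c d)) := by
    have := integ h hac hdb (mem_mul h hac hdb (c3.mul hm) hv)
    refine this.congr (Eventually.of_forall fun y => ?_)
    simp only [Pi.mul_apply]; ring
  have e1 := (hDU V a b g W h c d hac hcd hdb k t0 R C m0 hM v hv t ht ht0).2 x hxS
  have e2 := hw _ hT
  have e3 : ∫ y in slab V W c d, v y * (κ * k t x y - lap g W (fun y => k t x y) y) * dens g W y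
      = κ * moll V g W c d k t v x
        - ∫ y in slab V W c d, lap g W (fun z => k t x z) y * v y * dens g W y := by
    unfold moll
    rw [← integral_const_mul, ← integral_sub (i3.const_mul κ) i2]
    congr 1
    ext y
    ring
  have e4 : cmt V g W c d k t v x
      = (∫ y in slab V W c d, lap g W (fun z => k t z y) x * v y * dens g W y)
        - ∫ y in slab V W c d, lap g W (fun z => k t x z) y * v y * dens g W y := by
    unfold cmt
    rw [← integral_sub i1 i2]
    congr 1
    ext y
    ring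
  rw [e1, e4]
  linarith

/-- The cut-off of a smooth function is a test function. -/
lemma cutT {c d : ℝ} (h : Fol V a b g W) (hac : a < c) (hcd : c < d) (hdb : d < b) {ψ : ℝ → ℝ}
    (hψ : ContDiff ℝ ∞ ψ) (hψs : tsupport ψ ⊆ Set.Ioo c d) {w : E3 → ℝ} (hw : ContDiff ℝ ∞ w) :
    TestOn (slab V W c d) (Set.indicator (slab V W c d) (fun x => ψ (W x) * w x)) := by
  obtain ⟨c', d', hc', hcd', hd', hs⟩ := exists_Icc_of_tsupport hcd hψs
  have hK : IsCompact (cslab V W c' d') := h.proper _ _ (by linarith) (by linarith)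
  have hKU : cslab V W c' d' ⊆ slab V W c d := cslab_subset_slab hc' hd'
  have hsupp : ∀ x, Set.indicator (slab V W c d) (fun x => ψ (W x) * w x) x ≠ 0 →
      x ∈ cslab V W c' d' := by
    intro x hx
    by_cases hxU : x ∈ slab V W c d
    · rw [Set.indicator_of_mem hxU] at hx
      have := hs (W x) (left_ne_zero_of_mul hx)
      exact ⟨hxU.1, this.1, this.2⟩
    · exact absurd (Set.indicator_of_notMem hxU _) hx
  refine ⟨?_, HasCompactSupport.of_support_subset_isCompact hK fun y hy => hsupp y hy,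
    (closure_minimal (fun y hy => hsupp y hy) hK.isClosed).trans hKU⟩
  rw [contDiff_iff_contDiffAt]
  intro x
  by_cases hxU : x ∈ slab V W c d
  · have h1 : ContDiffAt ℝ ∞ (fun x => ψ (W x) * w x) x :=
      (hψ.contDiffAt.comp x (h.contDiffAt hxU.1)).mul hw.contDiffAt
    refine h1.congr_of_eventuallyEq ?_
    filter_upwards [(isOpen_slab h c d).mem_nhds hxU] with z hz
    exact Set.indicator_of_mem hz _
  · have h1 : ContDiffAt ℝ ∞ (fun _ : E3 => (0 : ℝ)) x := contDiffAt_const
    refine h1.congr_of_eventuallyEq ?_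
    filter_upwards [hK.isClosed.isOpen_compl.mem_nhds fun hx => hxU (hKU hx)] with z hz
    by_contra h2
    exact hz (hsupp z h2)

/-- The energy estimate. -/
lemma energy (hSMO : Stmt_SMO) (hRUL : Stmt_RUL) (hIBP : Stmt_IBP) (hDU : Stmt_DU)
    (hCONV : Stmt_CONV) {c d : ℝ} {k : ℝ → E3 → E3 → ℝ}
    {t0 R C m0 : ℝ} (h : Fol V a b g W) (hac : a < c) (hcd : c < d) (hdb : d < b)
    (hM : Moll V g W c d k t0 R C m0) {κ : ℝ} (hκ : 0 < κ) {v : E3 → ℝ}
    (hv : MemLp v 2 (volume.restrict (slab V W c d)))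
    (hw : ∀ h : E3 → ℝ, TestOn (slab V W c d) h →
        ∫ x in slab V W c d, v x * (κ * h x - lap g W h x) * dens g W x = 0)
    {ψ : ℝ → ℝ} (hψ : ContDiff ℝ ∞ ψ) (hψ0 : ∀ s, 0 ≤ ψ s) (hψs : tsupport ψ ⊆ Set.Ioo c d) :
    ∫ x in slab V W c d, (ψ (W x) * dens g W x) * v x ^ 2 ≤ 0 := by
  have hU := measurableSet_slab h c d
  have hm := cont_dens hSMO h
  set A : E3 → ℝ := fun x => ψ (W x) * dens g W x with hAdef
  have hA : ContinuousOn A V := (hψ.continuous.comp_continuousOn h.continuousOn).mul hm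
  obtain ⟨hA1, A0, hA2⟩ := bdd h hac hdb hA
  obtain ⟨c', d', hc', hcd', hd', hs⟩ := exists_Icc_of_tsupport hcd hψs
  obtain ⟨C1, hC1, hconv⟩ := hCONV V a b g W h c d hac hcd hdb k t0 R C m0 hM
  obtain ⟨hb, hl⟩ := hconv v hv
  set S : ℝ := ∫ x in slab V W c d, v x ^ 2 with hS
  have hS0 : 0 ≤ S := integral_nonneg fun x => sq_nonneg _
  have hev : ∀ᶠ t in 𝓝[>] (0 : ℝ), 0 < t ∧ t < t0 ∧ t < c' - c ∧ t < d - d' := by
    have : 0 < min t0 (min (c' - c) (d - d')) :=
      lt_min hM.t0_pos (lt_min (by linarith) (by linarith))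
    filter_upwards [Ioo_mem_nhdsGT this] with t ht
    have h1 := lt_min_iff.1 ht.2
    have h2 := lt_min_iff.1 h1.2
    exact ⟨ht.1, h1.1, h2.1, h2.2⟩
  have heq : ∀ t, (0 < t ∧ t < t0 ∧ t < c' - c ∧ t < d - d') → ∀ x ∈ slab V W c d,
      ψ (W x) ≠ 0 → lap g W (moll V g W c d k t v) x
      = κ * moll V g W c d k t v x + cmt V g W c d k t v x := by
    intro t ht x hx hne
    have := hs (W x) hne
    exact eqn hSMO hRUL hDU h hac hcd hdb hM hv hw ht.1 ht.2.1 ht.2.2.1 ht.2.2.2
      ⟨hx.1, this.1, this.2⟩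
  -- bounds
  have hvt : ∀ t, (0 < t ∧ t < t0 ∧ t < c' - c ∧ t < d - d') →
      MemLp (moll V g W c d k t v) 2 (volume.restrict (slab V W c d)) :=
    fun t ht => (hb t ht.1 ht.2.1).1
  have het : ∀ t, (0 < t ∧ t < t0 ∧ t < c' - c ∧ t < d - d') →
      MemLp (cmt V g W c d k t v) 2 (volume.restrict (slab V W c d)) :=
    fun t ht => (hb t ht.1 ht.2.1).2.1
  have hut : ∀ t, (0 < t ∧ t < t0 ∧ t < c' - c ∧ t < d - d') →
      MemLp (fun x => moll V g W c d k t v x - m0 * v x) 2 (volume.restrict (slab V W c d)) :=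
    fun t ht => (hvt t ht).sub (hv.const_mul m0)
  have hAe : ∀ t, (0 < t ∧ t < t0 ∧ t < c' - c ∧ t < d - d') →
      MemLp (fun x => A x * cmt V g W c d k t v x) 2 (volume.restrict (slab V W c d)) ∧
      ∫ x in slab V W c d, (A x * cmt V g W c d k t v x) ^ 2 ≤ A0 ^ 2 * (C1 * S) := by
    intro t ht
    obtain ⟨h1, h2⟩ := bdd_mul hA1 hA2 (het t ht)
    exact ⟨h1, h2.trans (mul_le_mul_of_nonneg_left (hb t ht.1 ht.2.1).2.2.2 (sq_nonneg _))⟩
  have hAv : ∀ t, (0 < t ∧ t < t0 ∧ t < c' - c ∧ t < d - d') →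
      MemLp (fun x => A x * (moll V g W c d k t v x + m0 * v x)) 2
        (volume.restrict (slab V W c d)) ∧
      ∫ x in slab V W c d, (A x * (moll V g W c d k t v x + m0 * v x)) ^ 2
        ≤ A0 ^ 2 * (2 * (C1 * S) + 2 * (m0 ^ 2 * S)) := by
    intro t ht
    obtain ⟨h1, h2⟩ := bdd_mul hA1 hA2 ((hvt t ht).add (hv.const_mul m0))
    refine ⟨h1, h2.trans (mul_le_mul_of_nonneg_left ?_ (sq_nonneg _))⟩
    have i1 : Integrable (fun x => 2 * moll V g W c d k t v x ^ 2)
      (volume.restrict (slab V W c d)) := (hvt t ht).integrable_sq.const_mul 2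
    have i2 : Integrable (fun x => (2 * m0 ^ 2) * v x ^ 2)
      (volume.restrict (slab V W c d)) := hv.integrable_sq.const_mul _
    have i3 : Integrable (fun x => (moll V g W c d k t v x + m0 * v x) ^ 2)
      (volume.restrict (slab V W c d)) := ((hvt t ht).add (hv.const_mul m0)).integrable_sq
    have h3 : ∫ x in slab V W c d, (moll V g W c d k t v x + m0 * v x) ^ 2
        ≤ ∫ x in slab V W c d, (2 * moll V g W c d k t v x ^ 2 + (2 * m0 ^ 2) * v x ^ 2) := by
      refine integral_mono i3 (i1.add i2) fun x => ?_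
      have := sq_nonneg (moll V g W c d k t v x - m0 * v x)
      simp only
      nlinarith
    rw [integral_add i1 i2, integral_const_mul, integral_const_mul] at h3
    have h4 := (hb t ht.1 ht.2.1).2.2.1
    simp only [Pi.add_apply]
    nlinarith
  -- the limit of the quadratic term
  have hJ : Tendsto (fun t => ∫ x in slab V W c d, A x * moll V g W c d k t v x ^ 2) (𝓝[>] 0)
      (𝓝 (m0 ^ 2 * ∫ x in slab V W c d, A x * v x ^ 2)) := by
    have h1 := tend_mul (μ := volume.restrict (slab V W c d)) (l := 𝓝[>] (0 : ℝ))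
      (hev.mono hut) (hev.mono fun t ht => (hAv t ht).1) (hev.mono fun t ht => (hAv t ht).2) hl
    have h2 : Tendsto (fun t => (∫ x in slab V W c d, (moll V g W c d k t v x - m0 * v x)
        * (A x * (moll V g W c d k t v x + m0 * v x)))
        + m0 ^ 2 * ∫ x in slab V W c d, A x * v x ^ 2) (𝓝[>] 0)
        (𝓝 (0 + m0 ^ 2 * ∫ x in slab V W c d, A x * v x ^ 2)) := h1.add_const _
    rw [zero_add] at h2
    refine h2.congr' ?_
    filter_upwards [hev] with t ht
    have i1 : Integrable (fun x => (moll V g W c d k t v x - m0 * v x)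
        * (A x * (moll V g W c d k t v x + m0 * v x))) (volume.restrict (slab V W c d)) :=
      (hut t ht).integrable_mul (hAv t ht).1
    have i2 : Integrable (fun x => A x * v x ^ 2) (volume.restrict (slab V W c d)) := by
      have := (bdd_mul hA1 hA2 hv).1.integrable_mul hv
      refine this.congr (Eventually.of_forall fun x => ?_)
      simp only [Pi.mul_apply]; ring
    rw [← integral_const_mul, ← integral_add i1 (i2.const_mul _)]
    congr 1
    ext x
    ring
  -- the energy inequality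
  have hE : ∀ t, (0 < t ∧ t < t0 ∧ t < c' - c ∧ t < d - d') →
      κ * (∫ x in slab V W c d, A x * moll V g W c d k t v x ^ 2)
        + ∫ x in slab V W c d, moll V g W c d k t v x * (A x * cmt V g W c d k t v x) ≤ 0 := by
    intro t ht
    obtain ⟨hC2, -⟩ := hDU V a b g W h c d hac hcd hdb k t0 R C m0 hM v hv t ht.1 ht.2.1
    have h1 := (hIBP _ c d g W (h.sub hac.le hdb.le)).2.1 (moll V g W c d k t v)
      (moll V g W c d k t v) ψ (hC2.of_le (by norm_num)) hC2 (hψ.of_le (by simp)) hψs
    have h2 : 0 ≤ ∫ x in slab V W c d, ψ (W x)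
        * lin g W (moll V g W c d k t v) (moll V g W c d k t v) x * dens g W x := by
      refine setIntegral_nonneg hU fun x hx => ?_
      exact mul_nonneg (mul_nonneg (hψ0 _) ((hRUL g W x (h.reg hx.1)).2.2.1 _
        (moll V g W c d k t v)).2.1) (dens_pos hSMO h hx.1).le
    have h3 : ∫ x in slab V W c d, ψ (W x) * (moll V g W c d k t v x
          * lap g W (moll V g W c d k t v) x) * dens g W x
        = ∫ x in slab V W c d, (κ * (A x * moll V g W c d k t v x ^ 2)
          + moll V g W c d k t v x * (A x * cmt V g W c d k t v x)) := by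
      refine setIntegral_congr_fun hU fun x hx => ?_
      by_cases h4 : ψ (W x) = 0
      · simp [hAdef, h4]
      · simp only [hAdef]
        rw [heq t ht x hx h4]
        ring
    have i1 : Integrable (fun x => A x * moll V g W c d k t v x ^ 2)
        (volume.restrict (slab V W c d)) := by
      have := (bdd_mul hA1 hA2 (hvt t ht)).1.integrable_mul (hvt t ht)
      refine this.congr (Eventually.of_forall fun x => ?_)
      simp only [Pi.mul_apply]; ring
    have i2 : Integrable (fun x => moll V g W c d k t v x * (A x * cmt V g W c d k t v x))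
        (volume.restrict (slab V W c d)) := (hvt t ht).integrable_mul (hAe t ht).1
    rw [h3, integral_add (i1.const_mul κ) i2, integral_const_mul] at h1
    linarith
  -- the test function identity
  have hT : ∀ w : E3 → ℝ, ContDiff ℝ ∞ w → MemLp w 2 (volume.restrict (slab V W c d)) →
      Tendsto (fun t => ∫ x in slab V W c d, w x * (A x * cmt V g W c d k t v x)) (𝓝[>] 0)
        (𝓝 0) := by
    intro w hws hw2
    have hf := cutT h hac hcd hdb hψ hψs hws
    set f0 : E3 → ℝ := Set.indicator (slab V W c d) (fun x => ψ (W x) * w x) with hf0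
    have hφc : ContinuousOn (fun x => (lap g W f0 x - κ * f0 x) * dens g W x) V :=
      ((cont_lap_test hSMO h hf.smooth).sub
        (hf.smooth.continuous.continuousOn.const_mul κ)).mul hm
    have hone : MemLp (fun _ : E3 => (1 : ℝ)) 2 (volume.restrict (slab V W c d)) := by
      have : IsFiniteMeasure (volume.restrict (slab V W c d)) :=
        ⟨by rw [Measure.restrict_apply_univ]; exact volume_slab_lt_top h hac hdb⟩
      exact memLp_const 1
    have hφ : MemLp (fun x => (lap g W f0 x - κ * f0 x) * dens g W x) 2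
        (volume.restrict (slab V W c d)) := by
      simpa using mem_mul h hac hdb hφc hone
    have h1 := tend_mul (μ := volume.restrict (slab V W c d)) (l := 𝓝[>] (0 : ℝ))
      (G := fun _ x => (lap g W f0 x - κ * f0 x) * dens g W x)
      (hev.mono hut) (Eventually.of_forall fun _ => hφ) (Eventually.of_forall fun _ => le_rfl) hl
    refine h1.congr' ?_
    filter_upwards [hev] with t ht
    obtain ⟨hC2, -⟩ := hDU V a b g W h c d hac hcd hdb k t0 R C m0 hM v hv t ht.1 ht.2.1
    have h2 := ((hIBP _ c d g W (h.sub hac.le hdb.le)).2.2 f0 (moll V g W c d k t v) hf hC2).2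
    have h3 : ∫ x in slab V W c d, f0 x * lap g W (moll V g W c d k t v) x * dens g W x
        = ∫ x in slab V W c d, (κ * (moll V g W c d k t v x * (f0 x * dens g W x))
          + w x * (A x * cmt V g W c d k t v x)) := by
      refine setIntegral_congr_fun hU fun x hx => ?_
      have h5 : f0 x = ψ (W x) * w x := Set.indicator_of_mem hx _
      simp only [h5]
      by_cases h4 : ψ (W x) = 0
      · simp [hAdef, h4]
      · simp only [hAdef]
        rw [heq t ht x hx h4]
        ring
    have hfm : MemLp (fun x => f0 x * dens g W x) 2 (volume.restrict (slab V W c d)) := by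
      simpa using mem_mul h hac hdb (hf.smooth.continuous.continuousOn.mul hm) hone
    have hlm : MemLp (fun x => lap g W f0 x * dens g W x) 2 (volume.restrict (slab V W c d)) := by
      simpa using mem_mul h hac hdb ((cont_lap_test hSMO h hf.smooth).mul hm) hone
    have i1 : Integrable (fun x => moll V g W c d k t v x * (f0 x * dens g W x))
        (volume.restrict (slab V W c d)) := (hvt t ht).integrable_mul hfm
    have i2 : Integrable (fun x => w x * (A x * cmt V g W c d k t v x))
        (volume.restrict (slab V W c d)) := hw2.integrable_mul (hAe t ht).1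
    have i3 : Integrable (fun x => moll V g W c d k t v x * (lap g W f0 x * dens g W x))
        (volume.restrict (slab V W c d)) := (hvt t ht).integrable_mul hlm
    have i4 : Integrable (fun x => v x * (f0 x * dens g W x))
        (volume.restrict (slab V W c d)) := hv.integrable_mul hfm
    have i5 : Integrable (fun x => v x * (lap g W f0 x * dens g W x))
        (volume.restrict (slab V W c d)) := hv.integrable_mul hlm
    rw [h3, integral_add (i1.const_mul κ) i2, integral_const_mul] at h2
    have h6 := hw f0 hf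
    have h7 : ∫ x in slab V W c d, v x * (κ * f0 x - lap g W f0 x) * dens g W x
        = κ * (∫ x in slab V W c d, v x * (f0 x * dens g W x))
          - ∫ x in slab V W c d, v x * (lap g W f0 x * dens g W x) := by
      rw [← integral_const_mul, ← integral_sub (i4.const_mul κ) i5]
      congr 1
      ext x
      ring
    have h8 : ∫ x in slab V W c d, (moll V g W c d k t v x - m0 * v x)
          * ((lap g W f0 x - κ * f0 x) * dens g W x)
        = ((∫ x in slab V W c d, moll V g W c d k t v x * (lap g W f0 x * dens g W x))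
          - κ * ∫ x in slab V W c d, moll V g W c d k t v x * (f0 x * dens g W x))
          + m0 * (κ * (∫ x in slab V W c d, v x * (f0 x * dens g W x))
          - ∫ x in slab V W c d, v x * (lap g W f0 x * dens g W x)) := by
      have i6 : Integrable (fun x => moll V g W c d k t v x * (lap g W f0 x * dens g W x)
          - κ * (moll V g W c d k t v x * (f0 x * dens g W x)))
          (volume.restrict (slab V W c d)) := i3.sub (i1.const_mul κ)
      have i7 : Integrable (fun x => m0 * (κ * (v x * (f0 x * dens g W x))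
          - v x * (lap g W f0 x * dens g W x))) (volume.restrict (slab V W c d)) :=
        ((i4.const_mul κ).sub i5).const_mul m0
      rw [← integral_const_mul, ← integral_const_mul, ← integral_sub i3 (i1.const_mul κ),
        ← integral_sub (i4.const_mul κ) i5, ← integral_const_mul,
        ← integral_add i6 i7]
      congr 1
      ext x
      ring
    have h9 : ∫ x in slab V W c d, moll V g W c d k t v x * lap g W f0 x * dens g W x
        = ∫ x in slab V W c d, moll V g W c d k t v x * (lap g W f0 x * dens g W x) := by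
      congr 1
      ext x
      ring
    rw [h8, ← h7, h6]
    linarith
  -- conclusion
  set B : ℝ := A0 ^ 2 * (C1 * S) with hB
  have hX : ∀ ε : ℝ, 0 < ε →
      κ * (m0 ^ 2 * ∫ x in slab V W c d, A x * v x ^ 2) ≤ Real.sqrt (ε * B) := by
    intro ε hε
    obtain ⟨w, hw1, hw2, hw3⟩ := approx (hv.const_mul m0) hε
    have hT1 := tend_mul (μ := volume.restrict (slab V W c d)) (l := 𝓝[>] (0 : ℝ))
      (hev.mono hut) (hev.mono fun t ht => (hAe t ht).1) (hev.mono fun t ht => (hAe t ht).2) hl
    have hT3 := hT w hw1 hw2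
    have hL := hJ.const_mul κ
    have hR : Tendsto (fun t => Real.sqrt (ε * B)
        - (∫ x in slab V W c d, (moll V g W c d k t v x - m0 * v x)
          * (A x * cmt V g W c d k t v x))
        - ∫ x in slab V W c d, w x * (A x * cmt V g W c d k t v x)) (𝓝[>] 0)
        (𝓝 (Real.sqrt (ε * B) - 0 - 0)) := (tendsto_const_nhds.sub hT1).sub hT3
    rw [sub_zero, sub_zero] at hR
    refine le_of_tendsto_of_tendsto hL hR ?_
    filter_upwards [hev] with t ht
    have h1 := hE t ht
    have i1 : Integrable (fun x => (moll V g W c d k t v x - m0 * v x)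
        * (A x * cmt V g W c d k t v x)) (volume.restrict (slab V W c d)) :=
      (hut t ht).integrable_mul (hAe t ht).1
    have i2 : Integrable (fun x => w x * (A x * cmt V g W c d k t v x))
        (volume.restrict (slab V W c d)) := hw2.integrable_mul (hAe t ht).1
    have hd2 : MemLp (fun x => m0 * v x - w x) 2 (volume.restrict (slab V W c d)) :=
      (hv.const_mul m0).sub hw2
    have i3 : Integrable (fun x => (m0 * v x - w x) * (A x * cmt V g W c d k t v x))
        (volume.restrict (slab V W c d)) := hd2.integrable_mul (hAe t ht).1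
    have h2 : ∫ x in slab V W c d, moll V g W c d k t v x * (A x * cmt V g W c d k t v x)
        = (∫ x in slab V W c d, (moll V g W c d k t v x - m0 * v x)
            * (A x * cmt V g W c d k t v x))
          + (∫ x in slab V W c d, (m0 * v x - w x) * (A x * cmt V g W c d k t v x))
          + ∫ x in slab V W c d, w x * (A x * cmt V g W c d k t v x) := by
      have i4 : Integrable (fun x => (moll V g W c d k t v x - m0 * v x)
          * (A x * cmt V g W c d k t v x) + (m0 * v x - w x) * (A x * cmt V g W c d k t v x))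
          (volume.restrict (slab V W c d)) := i1.add i3
      rw [← integral_add i1 i3, ← integral_add i4 i2]
      congr 1
      ext x
      ring
    have h3 := cs hd2 (hAe t ht).1
    have h4 : (∫ x in slab V W c d, (m0 * v x - w x) ^ 2)
        * (∫ x in slab V W c d, (A x * cmt V g W c d k t v x) ^ 2) ≤ ε * B :=
      mul_le_mul hw3 (hAe t ht).2 (integral_nonneg fun x => sq_nonneg _) hε.le
    have h5 : |∫ x in slab V W c d, (m0 * v x - w x) * (A x * cmt V g W c d k t v x)|
        ≤ Real.sqrt (ε * B) := Real.abs_le_sqrt (h3.trans h4)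
    have h6 := (abs_le.1 h5).1
    linarith
  have hlim : Tendsto (fun ε : ℝ => Real.sqrt (ε * B)) (𝓝[>] 0) (𝓝 0) := by
    have h1 : Tendsto (fun ε : ℝ => Real.sqrt (ε * B)) (𝓝 0) (𝓝 (Real.sqrt (0 * B))) :=
      ((continuous_id.mul continuous_const).sqrt).tendsto 0
    rw [zero_mul, Real.sqrt_zero] at h1
    exact h1.mono_left nhdsWithin_le_nhds
  have hfin : κ * (m0 ^ 2 * ∫ x in slab V W c d, A x * v x ^ 2) ≤ 0 := by
    refine ge_of_tendsto hlim ?_
    filter_upwards [self_mem_nhdsWithin] with ε hε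
    exact hX ε hε
  have hpos : 0 < κ * m0 ^ 2 := mul_pos hκ (pow_pos hM.m0_pos 2)
  by_contra hcon
  push Not at hcon
  have := mul_pos hpos hcon
  linarith [mul_assoc κ (m0 ^ 2) (∫ x in slab V W c d, A x * v x ^ 2)]

end

end WUL

/-- (WU) Uniqueness of very weak solutions. -/
theorem WU (hSMO : Stmt_SMO) (hRUL : Stmt_RUL) (hIBP : Stmt_IBP) (hDU : Stmt_DU)
    (hCONV : Stmt_CONV) (hKER : Stmt_KER) : Stmt_WU := by
  intro V a b g W h c d hac hcd hdb κ hκ v hv hw
  obtain ⟨k, t0, R, C, m0, hM⟩ := hKER V a b g W h c d hac hcd hdb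
  set r : ℝ := (d - c) / 2 with hr
  have hr0 : 0 < r := by rw [hr]; linarith
  have hU := measurableSet_slab h c d
  -- the cut-off functions
  have key : ∀ n : ℕ, ∀ᵐ x ∂(volume.restrict (slab V W c d)),
      |W x - (c + d) / 2| ≤ r * (1 - 1 / ((n : ℝ) + 2)) → v x = 0 := by
    intro n
    have hn : 0 < (n : ℝ) + 2 := by positivity
    have hn1 : 1 / ((n : ℝ) + 2) < 1 := by
      rw [div_lt_one hn]
      have : (0 : ℝ) ≤ n := Nat.cast_nonneg n
      linarith
    have hn0 : 0 < 1 / ((n : ℝ) + 2) := by positivity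
    let f : ContDiffBump ((c + d) / 2 : ℝ) :=
      ⟨r * (1 - 1 / ((n : ℝ) + 2)), r * (1 - 1 / ((n : ℝ) + 2) / 2),
        mul_pos hr0 (by linarith), mul_lt_mul_of_pos_left (by linarith) hr0⟩
    have h1 : tsupport f ⊆ Set.Ioo c d := by
      rw [f.tsupport_eq]
      intro s hs
      rw [Metric.mem_closedBall, Real.dist_eq] at hs
      have h2 : |s - (c + d) / 2| < r :=
        lt_of_le_of_lt hs (by
          have : r * (1 - 1 / ((n : ℝ) + 2) / 2) < r * 1 :=
            mul_lt_mul_of_pos_left (by linarith) hr0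
          change r * (1 - 1 / ((n : ℝ) + 2) / 2) < r
          linarith)
      rw [abs_lt] at h2
      exact ⟨by linarith [h2.1], by linarith [h2.2]⟩
    have h2 := WUL.energy hSMO hRUL hIBP hDU hCONV h hac hcd hdb hM hκ hv hw f.contDiff
      (fun s => f.nonneg) h1
    have hA : ContinuousOn (fun x => f (W x) * dens g W x) V :=
      (f.continuous.comp_continuousOn h.continuousOn).mul (WUL.cont_dens hSMO h)
    obtain ⟨hA1, A0, hA2⟩ := WUL.bdd h hac hdb hA
    have hint : Integrable (fun x => (f (W x) * dens g W x) * v x ^ 2)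
        (volume.restrict (slab V W c d)) := by
      have := (WUL.bdd_mul hA1 hA2 hv).1.integrable_mul hv
      refine this.congr (Eventually.of_forall fun x => ?_)
      simp only [Pi.mul_apply]; ring
    have hnn : 0 ≤ᵐ[volume.restrict (slab V W c d)]
        fun x => (f (W x) * dens g W x) * v x ^ 2 := by
      filter_upwards [ae_restrict_mem hU] with x hx
      exact mul_nonneg (mul_nonneg f.nonneg (WUL.dens_pos hSMO h hx.1).le) (sq_nonneg _)
    have h3 : ∫ x in slab V W c d, (f (W x) * dens g W x) * v x ^ 2 = 0 :=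
      le_antisymm h2 (integral_nonneg_of_ae hnn)
    have h4 := (integral_eq_zero_iff_of_nonneg_ae hnn hint).1 h3
    filter_upwards [h4, ae_restrict_mem hU] with x hx hxU hWx
    have h5 : f (W x) = 1 := f.one_of_mem_closedBall (by
      rw [Metric.mem_closedBall, Real.dist_eq]; exact hWx)
    simp only [h5, one_mul, Pi.zero_apply] at hx
    rcases mul_eq_zero.1 hx with h6 | h6
    · exact absurd h6 (WUL.dens_pos hSMO h hxU.1).ne'
    · exact pow_eq_zero_iff (by norm_num) |>.1 h6
  filter_upwards [ae_all_iff.2 key, ae_restrict_mem hU] with x hx hxU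
  have h1 : |W x - (c + d) / 2| < r := by
    rw [abs_lt]
    constructor
    · have := hxU.2.1
      rw [hr]; linarith
    · have := hxU.2.2
      rw [hr]; linarith
  have h2 : 0 < 1 - |W x - (c + d) / 2| / r := by
    rw [sub_pos, div_lt_one hr0]; exact h1
  obtain ⟨n, hn⟩ := exists_nat_gt (1 / (1 - |W x - (c + d) / 2| / r))
  apply hx n
  have hn2 : 0 < (n : ℝ) + 2 := by positivity
  have h3 : 1 / ((n : ℝ) + 2) ≤ 1 - |W x - (c + d) / 2| / r := by
    rw [div_le_iff₀ hn2]
    rw [div_lt_iff₀ h2] at hn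
    nlinarith
  have h4 : |W x - (c + d) / 2| / r ≤ 1 - 1 / ((n : ℝ) + 2) := by linarith
  rw [div_le_iff₀ hr0] at h4
  linarith

end Pool.Agent.PFlow.GB
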