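import Pool.Agent.PFlow.G.Base

/-!
# XIN: the divergence inequality
-/

open MeasureTheory Filter Topology
open scoped ContDiff

namespace Pool.Agent.PFlow.GB

open Pool.Agent.PenroseSph Pool.Agent.PFlow

namespace Xin

/-! ### Real algebra -/

lemma alg {K f w l Lf Lu s A B C E D : ℝ} (hf : 0 < f) (hw : 0 < w)
    (hB : K * f ^ 2 = f * Lf / 2 - f * s - f * l ^ 2 - A / 2 + l * B)
    (hpos : 0 ≤ A - 4 * f * C - 2 * l * B + 4 * f ^ 2 * D + 4 * f * l * E + l ^ 2 * f) :
    (K - Lu) * (f / (f + w)) - w * l ^ 2 / (2 * (f + w) ^ 2) ≤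
      (f + w)⁻¹ * (Lf / 2 - (l * l + s) - (f * Lu + C)) +
        -(1 / (f + w) ^ 2) * (A / 2 - l * B - f * C + 2 * w * (C / 2 - l * E - f * D)) := by
  have hfw : 0 < f + w := by positivity
  have hK : K = (f * Lf / 2 - f * s - f * l ^ 2 - A / 2 + l * B) / f ^ 2 := by
    rw [eq_div_iff (by positivity), hB]
  have key : (f + w)⁻¹ * (Lf / 2 - (l * l + s) - (f * Lu + C)) +
        -(1 / (f + w) ^ 2) * (A / 2 - l * B - f * C + 2 * w * (C / 2 - l * E - f * D))
      - ((K - Lu) * (f / (f + w)) - w * l ^ 2 / (2 * (f + w) ^ 2)) =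
      w / (2 * f * (f + w) ^ 2) *
        (A - 4 * f * C - 2 * l * B + 4 * f ^ 2 * D + 4 * f * l * E + l ^ 2 * f) := by
    rw [hK]
    field_simp
    ring
  have h1 : 0 ≤ w / (2 * f * (f + w) ^ 2) := by positivity
  have h2 := mul_nonneg h1 hpos
  linarith

/-! ### Linear algebra -/

lemma lip_comb (g : TensorField) (x : E3) (p P Q R : Cov) (a b : ℝ)
    (hs : ∀ A B : Cov, lip g x p A B = lip g x p B A) :
    lip g x p (fun i => P i - a * Q i - b * R i) (fun i => P i - a * Q i - b * R i) =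
      lip g x p P P - 2 * a * lip g x p P Q - 2 * b * lip g x p P R + a ^ 2 * lip g x p Q Q
        + 2 * a * b * lip g x p Q R + b ^ 2 * lip g x p R R := by
  have h1 : lip g x p (fun i => P i - a * Q i - b * R i) (fun i => P i - a * Q i - b * R i) =
      lip g x p P P - a * lip g x p P Q - b * lip g x p P R - a * lip g x p Q P
        + a ^ 2 * lip g x p Q Q + a * b * lip g x p Q R - b * lip g x p R P
        + a * b * lip g x p R Q + b ^ 2 * lip g x p R R := by
    unfold lip ev
    simp only [Fin.sum_univ_three]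
    ring
  rw [h1, hs Q P, hs R P, hs R Q]
  ring

/-! ### Calculus -/

lemma cat_sum {ι : Type} {s : Finset ι} {f : ι → E3 → ℝ} {x : E3}
    (h : ∀ i ∈ s, ContinuousAt (f i) x) : ContinuousAt (fun y => ∑ i ∈ s, f i y) x :=
  tendsto_finsetSum _ h

lemma cat_pd {f : E3 → ℝ} {x : E3} (hf : ContDiffAt ℝ 1 f x) (i : Fin 3) :
    ContinuousAt (fun y => pd i f y) x := by
  have h1 : ContDiffAt ℝ 0 (fderiv ℝ f) x := hf.fderiv_right (by norm_num)
  exact h1.continuousAt.clm_apply continuousAt_const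

lemma pd_sub {f h : E3 → ℝ} {x : E3} (hf : DifferentiableAt ℝ f x) (hh : DifferentiableAt ℝ h x)
    (i : Fin 3) : pd i (fun y => f y - h y) x = pd i f x - pd i h x := by
  unfold pd
  rw [fderiv_fun_sub hf hh]
  rfl

lemma pd_congr {f h : E3 → ℝ} {x : E3} (hf : f =ᶠ[𝓝 x] h) (i : Fin 3) : pd i f x = pd i h x := by
  unfold pd
  rw [hf.fderiv_eq]

lemma pd_const (c : ℝ) (x : E3) (i : Fin 3) : pd i (fun _ => c) x = 0 := by
  unfold pd
  rw [fderiv_fun_const]
  rfl

lemma ldiv_sub {g : TensorField} {W : E3 → ℝ} {Y Z : E3 → Cov} {x : E3}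
    (hd : DifferentiableAt ℝ (dens g W) x) (hY : ∀ i, DifferentiableAt ℝ (fun y => Y y i) x)
    (hZ : ∀ i, DifferentiableAt ℝ (fun y => Z y i) x) :
    ldiv g W (fun y i => Y y i - Z y i) x = ldiv g W Y x - ldiv g W Z x := by
  unfold ldiv
  rw [← sub_div, ← Finset.sum_sub_distrib]
  congr 1
  refine Finset.sum_congr rfl fun i _ => ?_
  have h1 : pd i (fun y => dens g W y * Y y i - dens g W y * Z y i) x =
      pd i (fun y => dens g W y * Y y i) x - pd i (fun y => dens g W y * Z y i) x :=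
    pd_sub (f := fun y => dens g W y * Y y i) (h := fun y => dens g W y * Z y i)
      (hd.mul (hY i)) (hd.mul (hZ i)) i
  rw [← h1]
  congr 1
  funext y
  exact mul_sub _ _ _

lemma ldiv_zero {g : TensorField} {W : E3 → ℝ} {Y : E3 → Cov} {x : E3}
    (h : ∀ᶠ y in 𝓝 x, ∀ i, Y y i = 0) : ldiv g W Y x = 0 := by
  unfold ldiv
  rw [Finset.sum_eq_zero, zero_div]
  intro i _
  rw [pd_congr (h := fun _ => (0 : ℝ)) ?_ i, pd_const]
  filter_upwards [h] with y hy
  rw [hy i, mul_zero]

lemma cat_ldiv {g : TensorField} {W : E3 → ℝ} {Y : E3 → Cov} {x : E3}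
    (hd : ContDiffAt ℝ ∞ (dens g W) x) (hd0 : 0 < dens g W x)
    (hY : ∀ i, ContDiffAt ℝ ∞ (fun y => Y y i) x) : ContinuousAt (ldiv g W Y) x := by
  unfold ldiv
  refine (cat_sum fun i _ => cat_pd ?_ i).div hd.continuousAt hd0.ne'
  exact (hd.mul (hY i)).of_le (by exact_mod_cast le_top)

section Fields

variable {g : TensorField} {W : E3 → ℝ} {φ u : E3 → ℝ} {δ : ℝ} {x : E3}

/-- The numerator of the field. -/
noncomputable def num (g : TensorField) (W φ u : E3 → ℝ) (y : E3) : Cov := fun i =>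
  (1 / 2 * lgrad g W (lin g W φ φ) y i - lap g W φ y * lgrad g W φ y i)
    - lin g W φ φ y * lgrad g W u y i

/-- The denominator of the field. -/
noncomputable def den (g : TensorField) (W φ u : E3 → ℝ) (δ : ℝ) (y : E3) : ℝ :=
  lin g W φ φ y + δ * Real.exp (2 * u y)

lemma Xf_eq : Xf g W φ u δ = fun y i => (den g W φ u δ y)⁻¹ * num g W φ u y i := by
  funext y i
  unfold Xf num den
  rw [div_eq_mul_inv, mul_comm]
  congr 1
  ring

/-- The derivative of the reciprocal of the denominator. -/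
lemma pd_den (hf : DifferentiableAt ℝ (lin g W φ φ) x) (hu : DifferentiableAt ℝ u x)
    (h0 : den g W φ u δ x ≠ 0) (i : Fin 3) :
    DifferentiableAt ℝ (fun y => (den g W φ u δ y)⁻¹) x ∧
    pd i (fun y => (den g W φ u δ y)⁻¹) x =
      -(1 / (den g W φ u δ x) ^ 2) * (pd i (lin g W φ φ) x
        + 2 * (δ * Real.exp (2 * u x)) * pd i u x) := by
  have h1 : HasFDerivAt (fun y => δ * Real.exp (2 * u y))
      (δ • (Real.exp (2 * u x) • ((2 : ℝ) • fderiv ℝ u x))) x :=
    ((hu.hasFDerivAt.const_mul 2).exp).const_mul δ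
  have h2 : HasFDerivAt (den g W φ u δ)
      (fderiv ℝ (lin g W φ φ) x + δ • (Real.exp (2 * u x) • ((2 : ℝ) • fderiv ℝ u x))) x :=
    hf.hasFDerivAt.add h1
  have h3 := (hasDerivAt_inv h0).comp_hasFDerivAt x h2
  refine ⟨h3.differentiableAt, ?_⟩
  have h4 : pd i (fun y => (den g W φ u δ y)⁻¹) x =
      ((-(den g W φ u δ x ^ 2)⁻¹) • (fderiv ℝ (lin g W φ φ) x
        + δ • (Real.exp (2 * u x) • ((2 : ℝ) • fderiv ℝ u x)))) (EuclideanSpace.single i 1) :=
    congrArg (fun L : E3 →L[ℝ] ℝ => L (EuclideanSpace.single i 1)) h3.fderiv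
  rw [h4]
  simp only [smul_apply, add_apply, smul_eq_mul, pd,
    one_div]
  ring

end Fields

end Xin

open Xin in
/-- The divergence inequality. -/
theorem XIN (hALG : Stmt_ALG) (hSMO : Stmt_SMO) (hRUL : Stmt_RUL) (hBOCH : Stmt_BOCH) :
    Stmt_XIN := by
  intro V a b g W hF O φ u δ hO hOV hφ hu hδ
  have hreg : ∀ x ∈ O, Reg g W x := fun x hx => hF.reg (hOV hx)
  have cφ : ∀ x ∈ O, ContDiffAt ℝ ∞ φ x := fun x hx => (hφ x hx).contDiffAt (hO.mem_nhds hx)
  have cu : ∀ x ∈ O, ContDiffAt ℝ ∞ u x := fun x hx => (hu x hx).contDiffAt (hO.mem_nhds hx)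
  have hSM := hSMO.2
  have dif : ∀ {f : E3 → ℝ} {x : E3}, ContDiffAt ℝ ∞ f x → DifferentiableAt ℝ f x :=
    fun h => h.differentiableAt (by simp)
  -- smoothness
  have cden : ∀ x ∈ O, ContDiffAt ℝ ∞ (dens g W) x ∧ 0 < dens g W x := fun x hx => by
    obtain ⟨-, -, -, h1, -, -, -, -, h2, -⟩ := hSM g W x (hreg x hx)
    exact ⟨h2, h1⟩
  have ccurv : ∀ x ∈ O, ContDiffAt ℝ ∞ (curv g W) x := fun x hx => by
    obtain ⟨-, -, -, -, -, -, -, -, -, -, -, h, -⟩ := hSM g W x (hreg x hx)
    exact h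
  have clin : ∀ x ∈ O, ∀ f h : E3 → ℝ, ContDiffAt ℝ ∞ f x → ContDiffAt ℝ ∞ h x →
      ContDiffAt ℝ ∞ (lin g W f h) x ∧ ContDiffAt ℝ ∞ (lap g W f) x ∧
      ∀ i, ContDiffAt ℝ ∞ (fun y => lgrad g W f y i) x := fun x hx => by
    obtain ⟨-, -, -, -, -, -, -, -, -, -, -, -, h, -⟩ := hSM g W x (hreg x hx)
    exact h
  have cf : ∀ x ∈ O, ContDiffAt ℝ ∞ (lin g W φ φ) x := fun x hx =>
    (clin x hx φ φ (cφ x hx) (cφ x hx)).1
  have cl : ∀ x ∈ O, ContDiffAt ℝ ∞ (lap g W φ) x := fun x hx =>
    (clin x hx φ φ (cφ x hx) (cφ x hx)).2.1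
  have cgf : ∀ x ∈ O, ∀ i, ContDiffAt ℝ ∞ (fun y => lgrad g W (lin g W φ φ) y i) x :=
    fun x hx => (clin x hx _ φ (cf x hx) (cφ x hx)).2.2
  have cgφ : ∀ x ∈ O, ∀ i, ContDiffAt ℝ ∞ (fun y => lgrad g W φ y i) x :=
    fun x hx => (clin x hx _ φ (cφ x hx) (cφ x hx)).2.2
  have cgu : ∀ x ∈ O, ∀ i, ContDiffAt ℝ ∞ (fun y => lgrad g W u y i) x :=
    fun x hx => (clin x hx _ φ (cu x hx) (cφ x hx)).2.2
  have clu : ∀ x ∈ O, ContDiffAt ℝ ∞ (lap g W u) x := fun x hx =>
    (clin x hx u u (cu x hx) (cu x hx)).2.1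
  have cw : ∀ x ∈ O, ContDiffAt ℝ ∞ (fun y => δ * Real.exp (2 * u y)) x := fun x hx =>
    contDiffAt_const.mul ((contDiffAt_const.mul (cu x hx)).exp)
  have cD : ∀ x ∈ O, ContDiffAt ℝ ∞ (den g W φ u δ) x := fun x hx => (cf x hx).add (cw x hx)
  have hfn : ∀ x ∈ O, 0 ≤ lin g W φ φ x := fun x hx =>
    ((hRUL g W x (hreg x hx)).2.2.1 φ φ).2.1
  have hwp : ∀ x, 0 < δ * Real.exp (2 * u x) := fun x => mul_pos hδ (Real.exp_pos _)
  have hDp : ∀ x ∈ O, 0 < den g W φ u δ x := fun x hx => add_pos_of_nonneg_of_pos (hfn x hx) (hwp x)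
  have cN : ∀ x ∈ O, ∀ i, ContDiffAt ℝ ∞ (fun y => num g W φ u y i) x := fun x hx i =>
    ((contDiffAt_const.mul (cgf x hx i)).sub ((cl x hx).mul (cgφ x hx i))).sub
      ((cf x hx).mul (cgu x hx i))
  have cX : ∀ x ∈ O, ∀ i, ContDiffAt ℝ ∞ (fun y => Xf g W φ u δ y i) x := fun x hx i => by
    rw [Xf_eq]
    exact ((cD x hx).inv (hDp x hx).ne').mul (cN x hx i)
  refine ⟨fun i x hx => (cX x hx i).contDiffWithinAt, fun x hx => ?_, ?_⟩
  · -- tangent
    obtain ⟨h1, -⟩ := hRUL g W x (hreg x hx)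
    have e1 := h1 (lin g W φ φ)
    have e2 := h1 φ
    have e3 := h1 u
    rw [Xf_eq]
    have : ∑ i, (den g W φ u δ x)⁻¹ * num g W φ u x i * grad W x i =
        (den g W φ u δ x)⁻¹ * (1 / 2 * (∑ i, lgrad g W (lin g W φ φ) x i * grad W x i)
          - lap g W φ x * (∑ i, lgrad g W φ x i * grad W x i)
          - lin g W φ φ x * (∑ i, lgrad g W u x i * grad W x i)) := by
      simp only [Fin.sum_univ_three, num]
      ring
    rw [this, e1, e2, e3]
    ring
  · -- the inequality, first where `f > 0`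
    have hmain : ∀ x ∈ O, 0 < lin g W φ φ x →
        (curv g W x - lap g W u x)
            * (lin g W φ φ x / (lin g W φ φ x + δ * Real.exp (2 * u x)))
          - δ * Real.exp (2 * u x) * lap g W φ x ^ 2
            / (2 * (lin g W φ φ x + δ * Real.exp (2 * u x)) ^ 2)
        ≤ ldiv g W (Xf g W φ u δ) x := by
      intro x hx hpos
      obtain ⟨-, r2, r3, -, -, -, -, -, -, -, -, r12⟩ := hRUL g W x (hreg x hx)
      obtain ⟨hd1, hd2⟩ := pd_den (δ := δ) (dif (cf x hx)) (dif (cu x hx)) (hDp x hx).ne' 0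
      have hpd : ∀ i, grad (fun y => (den g W φ u δ y)⁻¹) x i =
          -(1 / (den g W φ u δ x) ^ 2) * (grad (lin g W φ φ) x i
            + 2 * (δ * Real.exp (2 * u x)) * grad u x i) := fun i =>
        (pd_den (δ := δ) (dif (cf x hx)) (dif (cu x hx)) (hDp x hx).ne' i).2
      have hprod : ∀ (c h : E3 → ℝ), DifferentiableAt ℝ c x →
          (∀ i, DifferentiableAt ℝ (fun y => lgrad g W h y i) x) →
          ldiv g W (fun y i => c y * lgrad g W h y i) x = c x * lap g W h x + lin g W h c x := by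
        intro c h hc hh
        rw [r12 c (lgrad g W h) hc hh, r2 h c]
        rfl
      have hdiv : ldiv g W (num g W φ u) x =
          (1 / 2 * lap g W (lin g W φ φ) x - (lap g W φ x * lap g W φ x
            + lin g W φ (lap g W φ) x)) - (lin g W φ φ x * lap g W u x
            + lin g W u (lin g W φ φ) x) := by
        have hdd := dif (cden x hx).1
        have d1 : ∀ i, DifferentiableAt ℝ
            (fun y => 1 / 2 * lgrad g W (lin g W φ φ) y i) x := fun i =>
          (dif (cgf x hx i)).const_mul _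
        have d2 : ∀ i, DifferentiableAt ℝ (fun y => lap g W φ y * lgrad g W φ y i) x := fun i =>
          (dif (cl x hx)).mul (dif (cgφ x hx i))
        have d3 : ∀ i, DifferentiableAt ℝ (fun y => lin g W φ φ y * lgrad g W u y i) x :=
          fun i => (dif (cf x hx)).mul (dif (cgu x hx i))
        have s1 : ldiv g W (num g W φ u) x =
            ldiv g W (fun y i => 1 / 2 * lgrad g W (lin g W φ φ) y i
              - lap g W φ y * lgrad g W φ y i) x
            - ldiv g W (fun y i => lin g W φ φ y * lgrad g W u y i) x :=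
          ldiv_sub (Y := fun y i => 1 / 2 * lgrad g W (lin g W φ φ) y i
              - lap g W φ y * lgrad g W φ y i)
            (Z := fun y i => lin g W φ φ y * lgrad g W u y i) hdd
            (fun i => (d1 i).sub (d2 i)) d3
        have s2 : ldiv g W (fun y i => 1 / 2 * lgrad g W (lin g W φ φ) y i
              - lap g W φ y * lgrad g W φ y i) x =
            ldiv g W (fun y i => 1 / 2 * lgrad g W (lin g W φ φ) y i) x
            - ldiv g W (fun y i => lap g W φ y * lgrad g W φ y i) x :=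
          ldiv_sub (Y := fun y i => 1 / 2 * lgrad g W (lin g W φ φ) y i)
            (Z := fun y i => lap g W φ y * lgrad g W φ y i) hdd d1 d2
        have s3 : ldiv g W (fun y i => 1 / 2 * lgrad g W (lin g W φ φ) y i) x =
            1 / 2 * lap g W (lin g W φ φ) x := by
          rw [r12 (fun _ => (1 / 2 : ℝ)) (lgrad g W (lin g W φ φ))
            (differentiableAt_const _) (fun i => dif (cgf x hx i))]
          have : ∑ i, lgrad g W (lin g W φ φ) x i * grad (fun _ => (1 / 2 : ℝ)) x i = 0 := by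
            refine Finset.sum_eq_zero fun i _ => ?_
            rw [show grad (fun _ => (1 / 2 : ℝ)) x i = 0 from pd_const _ x i, mul_zero]
          rw [this, add_zero]
          rfl
        rw [s1, s2, s3, hprod (lap g W φ) φ (dif (cl x hx)) (fun i => dif (cgφ x hx i)),
          hprod (lin g W φ φ) u (dif (cf x hx)) (fun i => dif (cgu x hx i))]
      have hX : ldiv g W (Xf g W φ u δ) x = (den g W φ u δ x)⁻¹ * ldiv g W (num g W φ u) x
          + ∑ i, num g W φ u x i * grad (fun y => (den g W φ u δ y)⁻¹) x i := by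
        rw [Xf_eq]
        exact r12 _ _ hd1 fun i => dif (cN x hx i)
      have hsum : ∑ i, num g W φ u x i * grad (fun y => (den g W φ u δ y)⁻¹) x i =
          -(1 / (den g W φ u δ x) ^ 2) * (lin g W (lin g W φ φ) (lin g W φ φ) x / 2
            - lap g W φ x * lin g W (lin g W φ φ) φ x
            - lin g W φ φ x * lin g W u (lin g W φ φ) x
            + 2 * (δ * Real.exp (2 * u x)) * (lin g W u (lin g W φ φ) x / 2
              - lap g W φ x * lin g W φ u x - lin g W φ φ x * lin g W u u x)) := by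
        have e1 := r2 (lin g W φ φ) (lin g W φ φ)
        have e2 := r2 φ (lin g W φ φ)
        have e3 := r2 u (lin g W φ φ)
        have e4 := r2 (lin g W φ φ) u
        have e5 := r2 φ u
        have e6 := r2 u u
        rw [(r3 (lin g W φ φ) φ).1, ← e1, ← e2, ← e3, ← e5, ← e6]
        have e7 : ∑ i, lgrad g W u x i * grad (lin g W φ φ) x i =
            ∑ i, lgrad g W (lin g W φ φ) x i * grad u x i := by
          rw [e3, e4, (r3 (lin g W φ φ) u).1]
        have e8 : ∑ i, num g W φ u x i * grad (fun y => (den g W φ u δ y)⁻¹) x i =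
          -(1 / (den g W φ u δ x) ^ 2) *
            ((∑ i, lgrad g W (lin g W φ φ) x i * grad (lin g W φ φ) x i) / 2
            - lap g W φ x * (∑ i, lgrad g W φ x i * grad (lin g W φ φ) x i)
            - lin g W φ φ x * (∑ i, lgrad g W u x i * grad (lin g W φ φ) x i)
            + 2 * (δ * Real.exp (2 * u x)) *
              ((∑ i, lgrad g W (lin g W φ φ) x i * grad u x i) / 2
              - lap g W φ x * (∑ i, lgrad g W φ x i * grad u x i)
              - lin g W φ φ x * (∑ i, lgrad g W u x i * grad u x i))) := by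
          simp only [hpd]
          simp only [Fin.sum_univ_three, num]
          ring
        rw [e8, ← e7]
      have hB := hBOCH g W x (hreg x hx) φ (cφ x hx)
      obtain ⟨O', hO', hxO', hmet, -, hgr⟩ := hreg x hx
      obtain ⟨-, -, -, -, -, -, -, -, -, hsym, -, hnn, -⟩ :=
        hALG g x (grad W x) (hmet.posDef x hxO') (hgr x hxO')
      have hq := hnn (fun i => grad (lin g W φ φ) x i - 2 * lin g W φ φ x * grad u x i
        - lap g W φ x * grad φ x i)
      rw [lip_comb g x (grad W x) (grad (lin g W φ φ) x) (grad u x) (grad φ x)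
        (2 * lin g W φ φ x) (lap g W φ x) hsym] at hq
      have hfin := alg (K := curv g W x) (Lf := lap g W (lin g W φ φ) x)
        (Lu := lap g W u x) (s := lin g W φ (lap g W φ) x)
        (A := lin g W (lin g W φ φ) (lin g W φ φ) x)
        (B := lin g W (lin g W φ φ) φ x) (C := lin g W u (lin g W φ φ) x)
        (E := lin g W φ u x) (D := lin g W u u x) (l := lap g W φ x) hpos (hwp x)
        (by rw [hB]) ?_
      · rw [hX, hdiv, hsum]
        refine hfin.trans (le_of_eq ?_)
        unfold den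
        ring
      · have h1 : lip g x (grad W x) (grad (lin g W φ φ) x) (grad u x)
            = lin g W u (lin g W φ φ) x := hsym _ _
        have h2 : lip g x (grad W x) (grad u x) (grad φ x) = lin g W φ u x := hsym _ _
        rw [h1, h2] at hq
        refine hq.trans (le_of_eq ?_)
        show lin g W (lin g W φ φ) (lin g W φ φ) x
          - 2 * (2 * lin g W φ φ x) * lin g W u (lin g W φ φ) x
          - 2 * lap g W φ x * lin g W (lin g W φ φ) φ x
          + (2 * lin g W φ φ x) ^ 2 * lin g W u u x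
          + 2 * (2 * lin g W φ φ x) * lap g W φ x * lin g W φ u x
          + lap g W φ x ^ 2 * lin g W φ φ x = _
        ring
    intro x hx
    by_cases hcl : x ∈ closure {y | y ∈ O ∧ 0 < lin g W φ φ y}
    · -- by continuity
      refine ContinuousWithinAt.closure_le hcl ?_ ?_ fun y hy => hmain y hy.1 hy.2
      · refine ContinuousAt.continuousWithinAt ?_
        have hne : lin g W φ φ x + δ * Real.exp (2 * u x) ≠ 0 := (hDp x hx).ne'
        have hc1 := (cf x hx).continuousAt
        have hc2 := (cw x hx).continuousAt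
        refine (((ccurv x hx).continuousAt.sub (clu x hx).continuousAt).mul
          (hc1.div (hc1.add hc2) hne)).sub ?_
        refine (hc2.mul ((cl x hx).continuousAt.pow 2)).div
          (continuousAt_const.mul ((hc1.add hc2).pow 2)) ?_
        have := pow_ne_zero 2 hne
        simpa using this
      · exact (cat_ldiv (cden x hx).1 (cden x hx).2 (cX x hx)).continuousWithinAt
    · -- `f = 0` near `x`
      have hz : ∀ᶠ y in 𝓝 x, y ∈ O ∧ lin g W φ φ y = 0 := by
        have h1 : ∀ᶠ y in 𝓝 x, y ∉ closure {y | y ∈ O ∧ 0 < lin g W φ φ y} :=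
          isClosed_closure.isOpen_compl.mem_nhds hcl
        filter_upwards [h1, hO.mem_nhds hx] with y hy hyO
        refine ⟨hyO, le_antisymm ?_ (hfn y hyO)⟩
        by_contra hc
        exact hy (subset_closure ⟨hyO, not_le.1 hc⟩)
      have hgφ : ∀ᶠ y in 𝓝 x, ∀ i, lgrad g W φ y i = 0 := by
        filter_upwards [hz] with y hy i
        obtain ⟨-, -, -, -, r5, -⟩ := hRUL g W y (hreg y hy.1)
        obtain ⟨O', hO', hxO', hmet, -, hgr⟩ := hreg y hy.1
        obtain ⟨-, -, -, -, -, -, -, -, hform, hsym, -, -, hcs, -⟩ :=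
          hALG g y (grad W y) (hmet.posDef y hxO') (hgr y hxO')
        have h1 := hcs (grad φ y) (Pi.single i 1)
        have h2 : lip g y (grad W y) (grad φ y) (grad φ y) = 0 := hy.2
        rw [h2, zero_mul] at h1
        have h3 : lip g y (grad W y) (grad φ y) (Pi.single i 1) = 0 := by
          have := le_antisymm h1 (sq_nonneg _)
          exact pow_eq_zero_iff (two_ne_zero) |>.1 this
        rw [hsym, hform] at h3
        have h4 : ∑ k, ∑ j, prj g y (grad W y) k j * (Pi.single i 1 : Cov) k * grad φ y j =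
            ∑ j, prj g y (grad W y) i j * pd j φ y := by
          rw [Finset.sum_eq_single i]
          · refine Finset.sum_congr rfl fun j _ => ?_
            rw [Pi.single_eq_same, mul_one]
            rfl
          · intro k _ hk
            refine Finset.sum_eq_zero fun j _ => ?_
            rw [Pi.single_eq_of_ne hk, mul_zero, zero_mul]
          · intro h
            exact absurd (Finset.mem_univ i) h
        rw [r5 φ i, ← h4, h3]
      have hl : ∀ᶠ y in 𝓝 x, lap g W φ y = 0 := by
        filter_upwards [hgφ.eventually_nhds] with y hy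
        exact ldiv_zero hy
      have hgf : ∀ᶠ y in 𝓝 x, ∀ i, lgrad g W (lin g W φ φ) y i = 0 := by
        filter_upwards [hz.eventually_nhds, hz] with y hy hy' i
        obtain ⟨-, -, -, -, r5, -⟩ := hRUL g W y (hreg y hy'.1)
        rw [r5]
        refine Finset.sum_eq_zero fun j _ => ?_
        rw [pd_congr (h := fun _ => (0 : ℝ)) ?_ j, pd_const, mul_zero]
        filter_upwards [hy] with z hz'
        exact hz'.2
      have hX : ldiv g W (Xf g W φ u δ) x = 0 := by
        refine ldiv_zero ?_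
        filter_upwards [hz, hgφ, hl, hgf] with y h1 h2 h3 h4 i
        unfold Xf
        rw [h4 i, h3, h1.2]
        simp
      rw [hX, hz.self_of_nhds.2, hl.self_of_nhds]
      simp

end Pool.Agent.PFlow.GB
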