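import Pool.Agent.PFlow.G.ALG
import Pool.Agent.PFlow.G.DET
import Pool.Agent.PFlow.G.SMO
import Pool.Agent.PFlow.G.RUL
import Pool.Agent.PFlow.G.IBP
import Pool.Agent.PFlow.G.LB
import Pool.Agent.PFlow.G.COVG
import Pool.Agent.PFlow.G.ADAP
import Pool.Agent.PFlow.G.BO2
import Pool.Agent.PFlow.G.CHL
import Pool.Agent.PFlow.G.BOCH
import Pool.Agent.PFlow.G.XIN
import Pool.Agent.PFlow.G.Q
import Pool.Agent.PFlow.G.VOL
import Pool.Agent.PFlow.G.MASS
import Pool.Agent.PFlow.G.KER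
import Pool.Agent.PFlow.G.SCHUR
import Pool.Agent.PFlow.G.DU
import Pool.Agent.PFlow.G.CONV
import Pool.Agent.PFlow.G.WU
import Pool.Agent.PFlow.G.DENS
import Pool.Agent.PFlow.G.SOLVE
import Pool.Agent.PFlow.G.CHART
import Pool.Agent.PFlow.G.CHX
import Pool.Agent.PFlow.G.FUB
import Pool.Agent.PFlow.G.POIN
import Pool.Agent.PFlow.G.NULL
import Pool.Agent.PFlow.G.CL
import Pool.Agent.PFlow.G.CONN
import Pool.Agent.PFlow.G.POLE
import Pool.Agent.PFlow.G.SCAL
import Pool.Agent.PFlow.G.LOW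
import Pool.Agent.PFlow.G.SEP
import Pool.Agent.PFlow.G.PHI0
import Pool.Agent.PFlow.G.CUT
import Pool.Agent.PFlow.G.MEAN
import Pool.Agent.PFlow.G.FLUX
import Pool.Agent.PFlow.G.PUNCT
import Pool.Agent.PFlow.G.RHO
import Pool.Agent.PFlow.G.CONC
import Pool.Agent.PFlow.G.LOC
import Pool.Agent.PFlow.G.GB
import Pool.Agent.PFlow.G.GBC
import Pool.Agent.PFlow.G.UNIC
import Pool.Agent.PFlow.G.GBX

/-!
# Assembly of the block GB

The Gauss-Bonnet inequality for connected leaves, the connectedness of separating regular level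
sets, and the form used in the block MI.
-/

namespace Pool.Agent.PFlow.GB

theorem all_SMO : Stmt_SMO := SMO ALG
theorem all_RUL : Stmt_RUL := RUL ALG all_SMO
theorem all_IBP : Stmt_IBP := IBP ALG all_SMO all_RUL
theorem all_LB : Stmt_LB := LB ALG all_SMO
theorem all_COVG : Stmt_COVG := COVG ALG all_SMO all_LB
theorem all_ADAP : Stmt_ADAP := ADAP all_SMO
theorem all_BOCH : Stmt_BOCH := BOCH all_SMO all_COVG all_ADAP BO2 CHL
theorem all_XIN : Stmt_XIN := XIN ALG all_SMO all_RUL all_BOCH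
theorem all_Q : Stmt_Q := Q ALG all_SMO all_LB
theorem all_VOL : Stmt_VOL := VOL all_SMO
theorem all_MASS : Stmt_MASS := MASS all_SMO FUB
theorem all_KER : Stmt_KER := KER all_RUL all_Q all_VOL all_MASS
theorem all_DU : Stmt_DU := DU all_SMO
theorem all_CONV : Stmt_CONV := CONV all_SMO SCHUR
theorem all_WU : Stmt_WU := WU all_SMO all_RUL all_IBP all_DU all_CONV all_KER
theorem all_DENS : Stmt_DENS := DENS all_SMO all_WU
theorem all_SOLVE : Stmt_SOLVE := SOLVE all_SMO all_RUL all_IBP all_DENS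
theorem all_CHART : Stmt_CHART := CHART CHL
theorem all_CHX : Stmt_CHX := CHX ALG all_SMO
theorem all_NULL : Stmt_NULL := NULL all_SMO all_RUL
theorem all_CL : Stmt_CL := CL all_SMO all_CHX FUB POIN
theorem all_CONN : Stmt_CONN := CONN all_CHART all_CHX all_CL all_NULL
theorem all_POLE : Stmt_POLE := POLE ALG all_SMO all_RUL all_CHX all_Q
theorem all_SCAL : Stmt_SCAL := SCAL ALG all_SMO DET all_CHX FUB all_POLE all_Q
theorem all_LOW : Stmt_LOW := LOW all_CHX FUB all_POLE
theorem all_SEP : Stmt_SEP := SEP all_POLE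
theorem all_PHI0 : Stmt_PHI0 := PHI0 all_SMO all_RUL all_CHX all_POLE all_SCAL
theorem all_CUT : Stmt_CUT := CUT all_SMO all_CHX all_POLE all_SCAL
theorem all_MEAN : Stmt_MEAN := MEAN all_SMO all_RUL all_IBP all_CHX all_POLE all_PHI0 all_CUT
theorem all_FLUX : Stmt_FLUX := FLUX ALG all_SMO all_RUL all_CHX all_POLE
theorem all_PUNCT : Stmt_PUNCT :=
  PUNCT all_SMO all_RUL all_IBP all_XIN all_CHX all_PHI0 all_CUT all_FLUX
theorem all_RHO : Stmt_RHO := RHO all_SMO all_CHX all_CONN all_NULL all_PHI0 all_MEAN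
theorem all_CONC : Stmt_CONC :=
  CONC all_SMO all_CHX all_POLE all_LOW all_CL all_CONN all_NULL
theorem all_LOC : Stmt_LOC :=
  LOC ALG all_SMO all_RUL all_IBP all_NULL all_SOLVE all_CHART all_CHX all_POLE all_SEP all_PHI0
    all_PUNCT all_RHO all_CONC

/-- **(GB)** The Gauss-Bonnet inequality for connected leaves. -/
theorem all_GB : Pool.Agent.PFlow.Stmt_GB := GB all_SMO all_LOC

/-- (GB) for continuous functions of the level. -/
theorem all_GBC : Stmt_GBC := GBC all_SMO all_GB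

/-- **(UNIC)** -/
theorem all_UNIC : Pool.Agent.PFlow.Stmt_UNIC := UNIC

/-- **(GBX)** -/
theorem all_GBX : Stmt_GBX := GBX all_GBC UNIC

end Pool.Agent.PFlow.GB
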