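import Pool.Agent.PFlow.G.Base
import Pool.Agent.PenroseSph.Calc

/-!
# Block GB: existence of the family of kernels
-/

open MeasureTheory Filter Topology
open scoped ContDiff

namespace Pool.Agent.PFlow.GB

open Pool.Agent.PenroseSph Pool.Agent.PFlow

namespace KERm

/-! ### The profiles -/

theorem contDiff_eta : ContDiff ℝ ∞ eta := by
  unfold eta
  exact Real.smoothTransition.contDiff.comp (contDiff_const.sub contDiff_id)

theorem eta_nonneg (s : ℝ) : 0 ≤ eta s := Real.smoothTransition.nonneg _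

theorem eta_le_one (s : ℝ) : eta s ≤ 1 := Real.smoothTransition.le_one _

theorem eta_zero {s : ℝ} (h : 1 ≤ s) : eta s = 0 :=
  Real.smoothTransition.zero_of_nonpos (by linarith)

theorem eta_one {s : ℝ} (h : s ≤ 0) : eta s = 1 :=
  Real.smoothTransition.one_of_one_le (by linarith)

theorem contDiff_tht : ContDiff ℝ ∞ tht := by
  unfold tht
  exact Real.smoothTransition.contDiff.comp (contDiff_const.sub (contDiff_id.pow 2))

theorem tht_nonneg (s : ℝ) : 0 ≤ tht s := Real.smoothTransition.nonneg _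

theorem tht_le_one (s : ℝ) : tht s ≤ 1 := Real.smoothTransition.le_one _

theorem tht_even (s : ℝ) : tht (-s) = tht s := by
  unfold tht
  rw [neg_sq]

theorem tht_zero {s : ℝ} (h : 1 ≤ |s|) : tht s = 0 := by
  refine Real.smoothTransition.zero_of_nonpos ?_
  have : 1 ≤ |s| ^ 2 := by nlinarith
  rw [sq_abs] at this
  linarith

theorem contDiff_deriv_eta : ContDiff ℝ ∞ (deriv eta) :=
  ((contDiff_infty_iff_deriv).1 contDiff_eta).2

theorem deriv_eta_compact : HasCompactSupport (deriv eta) := by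
  refine HasCompactSupport.intro (isCompact_Icc (a := (0 : ℝ)) (b := 1)) fun s hs => ?_
  rcases lt_or_ge s 0 with h | h
  · have : eta =ᶠ[𝓝 s] fun _ => 1 := by
      filter_upwards [Iio_mem_nhds h] with u hu
      exact eta_one (le_of_lt hu)
    rw [this.deriv_eq, deriv_const]
  · have h1 : 1 < s := by
      by_contra hc
      exact hs ⟨h, not_lt.1 hc⟩
    have : eta =ᶠ[𝓝 s] fun _ => 0 := by
      filter_upwards [Ioi_mem_nhds h1] with u hu
      exact eta_zero (le_of_lt hu)
    rw [this.deriv_eq, deriv_const]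

theorem exists_bound : ∃ A : ℝ, 0 < A ∧ ∀ s, |deriv eta s| ≤ A ∧ |deriv (deriv eta) s| ≤ A := by
  obtain ⟨A, hA⟩ := contDiff_deriv_eta.continuous.bounded_above_of_compact_support
    deriv_eta_compact
  have h2 : ContDiff ℝ ∞ (deriv (deriv eta)) := ((contDiff_infty_iff_deriv).1 contDiff_deriv_eta).2
  obtain ⟨B, hB⟩ := h2.continuous.bounded_above_of_compact_support deriv_eta_compact.deriv
  refine ⟨max A B + 1, ?_, fun s => ⟨?_, ?_⟩⟩
  · have := (norm_nonneg _).trans (hA 0)
    have := le_max_left A B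
    linarith
  · have h := hA s
    rw [Real.norm_eq_abs] at h
    have := le_max_left A B
    linarith
  · have h := hB s
    rw [Real.norm_eq_abs] at h
    have := le_max_right A B
    linarith

/-! ### Congruence -/

variable {V : Set E3} {g : TensorField} {W : E3 → ℝ} {x y : E3}

theorem lap_congr {f f' : E3 → ℝ} (h : f =ᶠ[𝓝 x] f') : lap g W f x = lap g W f' x := by
  unfold lap ldiv
  congr 1
  refine Finset.sum_congr rfl fun i _ => ?_
  refine pd_congr ?_
  filter_upwards [h.eventually_nhds] with z hz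
  have e : grad f z = grad f' z := by
    funext j
    exact pd_congr hz
  unfold lgrad
  rw [e]

theorem lap_zero : lap g W (fun _ => (0 : ℝ)) x = 0 := by
  have e : ∀ z, grad (fun _ : E3 => (0 : ℝ)) z = 0 := by
    intro z
    funext j
    exact pd_const 0
  have e2 : ∀ z i, lgrad g W (fun _ : E3 => (0 : ℝ)) z i = 0 := by
    intro z i
    unfold lgrad raise
    rw [e]
    simp
  unfold lap ldiv
  simp only [e2, mul_zero, pd_const, Finset.sum_const_zero, zero_div]

theorem lap_eq_zero {f : E3 → ℝ} (h : f =ᶠ[𝓝 x] fun _ => 0) : lap g W f x = 0 := by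
  rw [lap_congr h, lap_zero]

/-! ### The function `q` -/

theorem qf_symm (x y : E3) : qf g x y = qf g y x := by
  unfold qf
  congr 1
  refine Finset.sum_congr rfl fun i _ => Finset.sum_congr rfl fun j _ => ?_
  ring

theorem contDiffAt_coord (i : Fin 3) (z : E3) : ContDiffAt ℝ ∞ (fun y : E3 => y i) z :=
  ((EuclideanSpace.proj i : E3 →L[ℝ] ℝ).contDiff).contDiffAt

theorem contDiffAt_qf (hV : IsOpen V) (hg : MetricOn V g) (hx : x ∈ V) (hy : y ∈ V) :
    ContDiffAt ℝ ∞ (fun p : E3 × E3 => qf g p.1 p.2) (x, y) := by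
  have hg1 : ∀ i j, ContDiffAt ℝ ∞ (fun p : E3 × E3 => g p.1 i j) (x, y) := fun i j =>
    ((hg.smooth i j).contDiffAt (hV.mem_nhds hx)).comp (x, y) contDiffAt_fst
  have hg2 : ∀ i j, ContDiffAt ℝ ∞ (fun p : E3 × E3 => g p.2 i j) (x, y) := fun i j =>
    ((hg.smooth i j).contDiffAt (hV.mem_nhds hy)).comp (x, y) contDiffAt_snd
  have hc1 : ∀ i, ContDiffAt ℝ ∞ (fun p : E3 × E3 => p.1 i) (x, y) := fun i =>
    (contDiffAt_coord i x).comp (x, y) contDiffAt_fst
  have hc2 : ∀ i, ContDiffAt ℝ ∞ (fun p : E3 × E3 => p.2 i) (x, y) := fun i =>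
    (contDiffAt_coord i y).comp (x, y) contDiffAt_snd
  unfold qf
  refine contDiffAt_const.mul (ContDiffAt.sum fun i _ => ContDiffAt.sum fun j _ => ?_)
  exact (((hg1 i j).add (hg2 i j)).mul ((hc1 i).sub (hc2 i))).mul ((hc1 j).sub (hc2 j))

theorem contDiffAt_qf_left (hV : IsOpen V) (hg : MetricOn V g) (hx : x ∈ V) (hy : y ∈ V) :
    ContDiffAt ℝ ∞ (fun z => qf g z y) x :=
  ContDiffAt.comp (g := fun p : E3 × E3 => qf g p.1 p.2) (f := fun z : E3 => (z, y)) x
    (contDiffAt_qf hV hg hx hy) (contDiffAt_id.prodMk contDiffAt_const)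

theorem two_le : (2 : WithTop ℕ∞) ≤ ∞ := WithTop.coe_le_coe.2 le_top

/-! ### The kernel -/

theorem ker_symm (r0 t : ℝ) (x y : E3) : ker g W r0 t x y = ker g W r0 t y x := by
  unfold ker
  rw [dist_comm x y, qf_symm x y]
  have e : tht ((W x - W y) / t) = tht ((W y - W x) / t) := by
    rw [← tht_even]
    congr 1
    ring
  rw [e]

theorem ker_nonneg {r0 t : ℝ} (x y : E3) : 0 ≤ ker g W r0 t x y := by
  unfold ker
  split_ifs
  · exact div_nonneg (mul_nonneg (eta_nonneg _) (tht_nonneg _)) (sq_nonneg t)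
  · exact le_rfl

theorem ker_le {r0 t : ℝ} (x y : E3) : ker g W r0 t x y ≤ 1 / t ^ 2 := by
  unfold ker
  split_ifs
  · refine div_le_div_of_nonneg_right ?_ (sq_nonneg t)
    exact mul_le_one₀ (eta_le_one _) (tht_nonneg _) (tht_le_one _)
  · positivity

theorem ker_zero_W {r0 t : ℝ} (ht : 0 < t) (h : t ≤ |W x - W y|) : ker g W r0 t x y = 0 := by
  unfold ker
  have e : tht ((W x - W y) / t) = 0 := by
    refine tht_zero ?_
    rw [abs_div, abs_of_pos ht, le_div_iff₀ ht, one_mul]
    exact h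
  rw [e]
  split_ifs <;> simp

theorem ker_zero_q {r0 t : ℝ} (ht : 0 < t) (h : dist x y < r0 → t ≤ qf g x y) :
    ker g W r0 t x y = 0 := by
  unfold ker
  split_ifs with h1
  · rw [eta_zero, zero_mul, zero_div]
    rw [le_div_iff₀ ht, one_mul]
    exact h h1
  · rfl

theorem ker_eq {r0 t : ℝ} (h : dist x y < r0) :
    ker g W r0 t x y = tht ((W x - W y) / t) / t ^ 2 * eta (qf g x y / t) := by
  unfold ker
  rw [if_pos h]
  ring

/-- Everything about the constants. -/
structure Dat (V : Set E3) (a b : ℝ) (g : TensorField) (W : E3 → ℝ) (K K' : Set E3)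
    (r0 cq Cq : ℝ) : Prop where
  fol : Fol V a b g W
  sub : K' ⊆ V
  r0_pos : 0 < r0
  cq_pos : 0 < cq
  Cq_pos : 0 < Cq
  near : ∀ x ∈ Metric.thickening r0 K, ∀ y, dist x y < r0 → x ∈ K' ∧ y ∈ K'
  q : ∀ x ∈ K', ∀ y ∈ K', cq * dist x y ^ 2 ≤ qf g x y ∧
      |lin g W (fun z => qf g z y) (fun z => qf g z y) x - 4 * qf g x y|
        ≤ Cq * (dist x y ^ 4 + (W x - W y) ^ 2) ∧
      |lap g W (fun z => qf g z y) x - 4| ≤ Cq * (dist x y ^ 2 + |W x - W y|)

variable {K K' : Set E3} {a b r0 cq Cq t : ℝ}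

theorem R_sq (hc : 0 < cq) (ht : 0 < t) : ((Real.sqrt cq)⁻¹ * Real.sqrt t) ^ 2 = t / cq := by
  rw [mul_pow, inv_pow, Real.sq_sqrt hc.le, Real.sq_sqrt ht.le]
  field_simp

theorem R_lt (hc : 0 < cq) (hr : 0 < r0) (ht : 0 < t) (ht0 : t < cq * (r0 / 2) ^ 2) :
    (Real.sqrt cq)⁻¹ * Real.sqrt t < r0 / 2 := by
  have h1 := R_sq hc ht
  have h2 : t / cq < (r0 / 2) ^ 2 := by
    rw [div_lt_iff₀ hc, mul_comm]
    exact ht0
  rw [← h1] at h2
  exact lt_of_pow_lt_pow_left₀ 2 (by positivity) h2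

theorem lt_of_R_lt (hc : 0 < cq) (ht : 0 < t) {s : ℝ}
    (h : (Real.sqrt cq)⁻¹ * Real.sqrt t < s) : t < cq * s ^ 2 := by
  have h1 := R_sq hc ht
  have h0 : 0 ≤ (Real.sqrt cq)⁻¹ * Real.sqrt t := by positivity
  have h2 : ((Real.sqrt cq)⁻¹ * Real.sqrt t) ^ 2 < s ^ 2 := pow_lt_pow_left₀ h h0 two_ne_zero
  rw [h1, div_lt_iff₀ hc, mul_comm] at h2
  exact h2

/-- The kernel vanishes for `R √t < |x - y|`. -/
theorem ker_far (D : Dat V a b g W K K' r0 cq Cq) (ht : 0 < t)
    (hx : x ∈ Metric.thickening r0 K) (h : (Real.sqrt cq)⁻¹ * Real.sqrt t < dist x y) :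
    ker g W r0 t x y = 0 := by
  refine ker_zero_q ht fun h1 => ?_
  obtain ⟨h2, h3⟩ := D.near x hx y h1
  exact (lt_of_R_lt D.cq_pos ht h).le.trans (D.q x h2 y h3).1

theorem sub_thick (D : Dat V a b g W K K' r0 cq Cq) : Metric.thickening r0 K ⊆ V := fun x hx =>
  D.sub (D.near x hx x (by rw [dist_self]; exact D.r0_pos)).1

theorem smooth_ker (D : Dat V a b g W K K' r0 cq Cq) (ht : 0 < t)
    (ht0 : t < cq * (r0 / 2) ^ 2) :
    ContDiffOn ℝ ∞ (fun p : E3 × E3 => ker g W r0 t p.1 p.2)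
      (Metric.thickening r0 K ×ˢ Set.univ) := by
  rintro ⟨x, y⟩ ⟨hx, -⟩
  simp only at hx
  refine ContDiffAt.contDiffWithinAt ?_
  have hcd : Continuous fun p : E3 × E3 => dist p.1 p.2 := continuous_fst.dist continuous_snd
  rcases lt_or_ge (dist x y) r0 with h | h
  · obtain ⟨h2, h3⟩ := D.near x hx y h
    have hev : (fun p : E3 × E3 => ker g W r0 t p.1 p.2) =ᶠ[𝓝 (x, y)]
        fun p => tht ((W p.1 - W p.2) / t) / t ^ 2 * eta (qf g p.1 p.2 / t) := by
      have : ∀ᶠ p : E3 × E3 in 𝓝 (x, y), dist p.1 p.2 < r0 :=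
        hcd.continuousAt.eventually_lt continuousAt_const h
      filter_upwards [this] with p hp
      exact ker_eq hp
    refine ContDiffAt.congr_of_eventuallyEq ?_ hev
    have hW1 : ContDiffAt ℝ ∞ (fun p : E3 × E3 => W p.1) (x, y) :=
      (D.fol.contDiffAt (D.sub h2)).comp (x, y) contDiffAt_fst
    have hW2 : ContDiffAt ℝ ∞ (fun p : E3 × E3 => W p.2) (x, y) :=
      (D.fol.contDiffAt (D.sub h3)).comp (x, y) contDiffAt_snd
    have hq := contDiffAt_qf D.fol.isOpen D.fol.metric (D.sub h2) (D.sub h3)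
    refine ContDiffAt.mul (ContDiffAt.div_const ?_ _) ?_
    · exact contDiff_tht.contDiffAt.comp (x, y) ((hW1.sub hW2).div_const t)
    · exact contDiff_eta.contDiffAt.comp (x, y) (hq.div_const t)
  · have hev : (fun p : E3 × E3 => ker g W r0 t p.1 p.2) =ᶠ[𝓝 (x, y)] fun _ => 0 := by
      have h1 : ∀ᶠ p : E3 × E3 in 𝓝 (x, y), (Real.sqrt cq)⁻¹ * Real.sqrt t < dist p.1 p.2 := by
        refine continuousAt_const.eventually_lt hcd.continuousAt ?_
        have := R_lt D.cq_pos D.r0_pos ht ht0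
        have := D.r0_pos
        simp only
        linarith
      have h2 : ∀ᶠ p : E3 × E3 in 𝓝 (x, y), p.1 ∈ Metric.thickening r0 K :=
        continuousAt_fst.eventually (Metric.isOpen_thickening.mem_nhds hx)
      filter_upwards [h1, h2] with p hp1 hp2
      exact ker_far D ht hp2 hp1
    exact contDiffAt_const.congr_of_eventuallyEq hev

theorem loc_ker (D : Dat V a b g W K K' r0 cq Cq) (ht : 0 < t) (hx : x ∈ K)
    (h : ¬ (dist x y ≤ (Real.sqrt cq)⁻¹ * Real.sqrt t ∧ |W x - W y| ≤ t)) :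
    lap g W (fun z => ker g W r0 t z y) x = 0 := by
  refine lap_eq_zero ?_
  have hxt : x ∈ Metric.thickening r0 K := Metric.self_subset_thickening D.r0_pos K hx
  rw [not_and_or, not_le, not_le] at h
  rcases h with h | h
  · have h1 : ∀ᶠ z in 𝓝 x, (Real.sqrt cq)⁻¹ * Real.sqrt t < dist z y :=
      continuousAt_const.eventually_lt (continuous_id.dist continuous_const).continuousAt h
    filter_upwards [h1, Metric.isOpen_thickening.mem_nhds hxt] with z hz1 hz2
    exact ker_far D ht hz2 hz1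
  · have hW : ContinuousAt W x := (D.fol.contDiffAt (sub_thick D hxt)).continuousAt
    have h1 : ∀ᶠ z in 𝓝 x, t < |W z - W y| :=
      continuousAt_const.eventually_lt ((hW.sub continuousAt_const).abs) h
    filter_upwards [h1] with z hz
    exact ker_zero_W ht hz.le

theorem lap_ker (hRUL : Stmt_RUL) (D : Dat V a b g W K K' r0 cq Cq) (ht : 0 < t) (hx : x ∈ K)
    (h : dist x y < r0) :
    lap g W (fun z => ker g W r0 t z y) x = tht ((W x - W y) / t) / t ^ 2 *
      (deriv eta (qf g x y / t) / t * lap g W (fun z => qf g z y) x +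
        deriv (deriv eta) (qf g x y / t) / t ^ 2 *
          lin g W (fun z => qf g z y) (fun z => qf g z y) x) := by
  have hxt : x ∈ Metric.thickening r0 K := Metric.self_subset_thickening D.r0_pos K hx
  obtain ⟨h2, h3⟩ := D.near x hxt y h
  have hreg : Reg g W x := D.fol.reg (D.sub h2)
  obtain ⟨-, -, -, -, -, -, -, -, hchain, -, hmulW, -⟩ := hRUL g W x hreg
  have hq : ContDiffAt ℝ 2 (fun z => qf g z y) x :=
    (contDiffAt_qf_left D.fol.isOpen D.fol.metric (D.sub h2) (D.sub h3)).of_le two_le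
  have hev : (fun z => ker g W r0 t z y) =ᶠ[𝓝 x] fun z =>
      (fun s => tht ((s - W y) / t) / t ^ 2) (W z) * (fun z => (fun s => eta (s / t)) (qf g z y)) z := by
    have h1 : ∀ᶠ z in 𝓝 x, dist z y < r0 :=
      (continuous_id.dist continuous_const).continuousAt.eventually_lt continuousAt_const h
    filter_upwards [h1] with z hz
    exact ker_eq hz
  have hF1 : ContDiff ℝ ∞ (fun s : ℝ => eta (s / t)) := contDiff_eta.comp (contDiff_id.div_const t)
  have hF2 : ContDiff ℝ ∞ (fun s : ℝ => tht ((s - W y) / t) / t ^ 2) :=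
    (contDiff_tht.comp ((contDiff_id.sub contDiff_const).div_const t)).div_const _
  have hd1 : deriv (fun s : ℝ => eta (s / t)) = fun s => deriv eta (s / t) / t := by
    funext s
    have h1 : HasDerivAt (fun s : ℝ => s / t) (1 / t) s := (hasDerivAt_id s).div_const t
    have h2 : HasDerivAt eta (deriv eta (s / t)) (s / t) :=
      ((contDiff_eta.differentiable (by simp)) (s / t)).hasDerivAt
    have h3 := (h2.comp s h1).deriv
    rw [show (fun s : ℝ => eta (s / t)) = eta ∘ fun s => s / t from rfl, h3]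
    ring
  have hd2 : deriv (deriv (fun s : ℝ => eta (s / t))) =
      fun s => deriv (deriv eta) (s / t) / t ^ 2 := by
    rw [hd1]
    funext s
    have h1 : HasDerivAt (fun s : ℝ => s / t) (1 / t) s := (hasDerivAt_id s).div_const t
    have h2 : HasDerivAt (deriv eta) (deriv (deriv eta) (s / t)) (s / t) :=
      ((contDiff_deriv_eta.differentiable (by simp)) (s / t)).hasDerivAt
    have h3 := ((h2.comp s h1).div_const t).deriv
    rw [show (fun s : ℝ => deriv eta (s / t) / t) = fun s => (deriv eta ∘ fun s => s / t) s / t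
      from rfl, h3]
    ring
  rw [lap_congr hev, hmulW (fun z => (fun s => eta (s / t)) (qf g z y))
    (fun s => tht ((s - W y) / t) / t ^ 2)
    ((hF1.contDiffAt.of_le two_le).comp x hq) (hF2.contDiffAt.of_le two_le),
    hchain (fun z => qf g z y) (fun s => eta (s / t)) hq (hF1.contDiffAt.of_le two_le), hd2, hd1]

theorem comm_ker (hRUL : Stmt_RUL) (D : Dat V a b g W K K' r0 cq Cq) {A : ℝ} (hA : 0 < A)
    (hb : ∀ s, |deriv eta s| ≤ A ∧ |deriv (deriv eta) s| ≤ A) (ht : 0 < t)
    (ht0 : t < cq * (r0 / 2) ^ 2) (hx : x ∈ K) (hy : y ∈ K) :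
    |lap g W (fun z => ker g W r0 t z y) x - lap g W (fun z => ker g W r0 t z x) y| ≤
      (A * (2 * Cq * (1 / cq + 1)) + A * (2 * Cq * (1 / cq ^ 2 + 1))) / t ^ 2 := by
  have hcq := D.cq_pos
  have hCq := D.Cq_pos
  have hr0 := D.r0_pos
  by_cases h : dist x y ≤ (Real.sqrt cq)⁻¹ * Real.sqrt t ∧ |W x - W y| ≤ t
  · have hR := R_lt D.cq_pos D.r0_pos ht ht0
    have hd : dist x y < r0 := by linarith [h.1]
    have hd' : dist y x < r0 := by rw [dist_comm]; exact hd
    have hxt : x ∈ Metric.thickening r0 K := Metric.self_subset_thickening D.r0_pos K hx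
    obtain ⟨h2, h3⟩ := D.near x hxt y hd
    rw [lap_ker hRUL D ht hx hd, lap_ker hRUL D ht hy hd']
    obtain ⟨-, hq1, hq2⟩ := D.q x h2 y h3
    obtain ⟨-, hq1', hq2'⟩ := D.q y h3 x h2
    rw [qf_symm y x] at hq1' ⊢
    rw [dist_comm y x, abs_sub_comm (W y) (W x)] at hq2'
    rw [dist_comm y x, show (W y - W x) ^ 2 = (W x - W y) ^ 2 by ring] at hq1'
    have e : tht ((W y - W x) / t) = tht ((W x - W y) / t) := by
      rw [← tht_even]
      congr 1
      ring
    rw [e]
    set Lx := lap g W (fun z => qf g z y) x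
    set Ly := lap g W (fun z => qf g z x) y
    set lx := lin g W (fun z => qf g z y) (fun z => qf g z y) x
    set ly := lin g W (fun z => qf g z x) (fun z => qf g z x) y
    set e1 := deriv eta (qf g x y / t)
    set e2 := deriv (deriv eta) (qf g x y / t)
    set th := tht ((W x - W y) / t)
    have hdist2 : dist x y ^ 2 ≤ t / cq := by
      rw [← R_sq hcq ht]
      exact pow_le_pow_left₀ dist_nonneg h.1 2
    have hdist4 : dist x y ^ 4 ≤ t ^ 2 / cq ^ 2 := by
      have := pow_le_pow_left₀ (sq_nonneg (dist x y)) hdist2 2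
      rw [← pow_mul, div_pow] at this
      exact this
    have hW2 : (W x - W y) ^ 2 ≤ t ^ 2 := by
      rw [← sq_abs]
      exact pow_le_pow_left₀ (abs_nonneg _) h.2 2
    have hL : |Lx - Ly| ≤ 2 * Cq * (1 / cq + 1) * t := by
      have e3 : Lx - Ly = (Lx - 4) - (Ly - 4) := by ring
      rw [e3]
      refine (abs_sub _ _).trans ?_
      have e4 : dist x y ^ 2 + |W x - W y| ≤ (1 / cq + 1) * t := by
        have : (1 / cq + 1) * t = t / cq + t := by ring
        rw [this]
        exact add_le_add hdist2 h.2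
      have e5 := mul_le_mul_of_nonneg_left e4 hCq.le
      linarith
    have hl : |lx - ly| ≤ 2 * Cq * (1 / cq ^ 2 + 1) * t ^ 2 := by
      have e3 : lx - ly = (lx - 4 * qf g x y) - (ly - 4 * qf g x y) := by ring
      rw [e3]
      refine (abs_sub _ _).trans ?_
      have e4 : dist x y ^ 4 + (W x - W y) ^ 2 ≤ (1 / cq ^ 2 + 1) * t ^ 2 := by
        have : (1 / cq ^ 2 + 1) * t ^ 2 = t ^ 2 / cq ^ 2 + t ^ 2 := by ring
        rw [this]
        exact add_le_add hdist4 hW2
      have e5 := mul_le_mul_of_nonneg_left e4 hCq.le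
      linarith
    have e6 : th / t ^ 2 * (e1 / t * Lx + e2 / t ^ 2 * lx) -
        th / t ^ 2 * (e1 / t * Ly + e2 / t ^ 2 * ly) =
        th * (e1 * ((Lx - Ly) / t) + e2 * ((lx - ly) / t ^ 2)) / t ^ 2 := by
      field_simp
      ring
    rw [e6, abs_div, abs_of_pos (pow_pos ht 2)]
    refine div_le_div_of_nonneg_right ?_ (sq_nonneg t)
    rw [abs_mul]
    have hth : |th| ≤ 1 := by
      rw [abs_of_nonneg (tht_nonneg _)]
      exact tht_le_one _
    have h7 : |e1 * ((Lx - Ly) / t) + e2 * ((lx - ly) / t ^ 2)| ≤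
        A * (2 * Cq * (1 / cq + 1)) + A * (2 * Cq * (1 / cq ^ 2 + 1)) := by
      refine (abs_add_le _ _).trans (add_le_add ?_ ?_)
      · rw [abs_mul, abs_div, abs_of_pos ht]
        refine mul_le_mul (hb _).1 ?_ (by positivity) hA.le
        rw [div_le_iff₀ ht]
        exact hL
      · rw [abs_mul, abs_div, abs_of_pos (pow_pos ht 2)]
        refine mul_le_mul (hb _).2 ?_ (by positivity) hA.le
        rw [div_le_iff₀ (pow_pos ht 2)]
        exact hl
    calc |th| * |e1 * ((Lx - Ly) / t) + e2 * ((lx - ly) / t ^ 2)|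
        ≤ 1 * |e1 * ((Lx - Ly) / t) + e2 * ((lx - ly) / t ^ 2)| := by gcongr
      _ ≤ _ := by rw [one_mul]; exact h7
  · have h' : ¬ (dist y x ≤ (Real.sqrt cq)⁻¹ * Real.sqrt t ∧ |W y - W x| ≤ t) := by
      rw [dist_comm, abs_sub_comm]
      exact h
    rw [loc_ker D ht hx h, loc_ker D ht hy h', sub_zero, abs_zero]
    positivity

end KERm

open KERm in
theorem KER (hRUL : Stmt_RUL) (hQ : Stmt_Q) (hVOL : Stmt_VOL) (hMASS : Stmt_MASS) : Stmt_KER := by
  intro V a b g W hF c d hac hcd hdb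
  obtain ⟨m0, hm0, hM⟩ := hMASS
  obtain ⟨r1, hr1, hM1⟩ := hM V a b g W hF c d hac hcd hdb
  set K : Set E3 := cslab V W c d with hK
  have hKc : IsCompact K := hF.proper c d hac hdb
  obtain ⟨δ, hδ, hδV⟩ := hKc.exists_cthickening_subset_open hF.isOpen (cslab_subset c d)
  have hK'c : IsCompact (Metric.cthickening δ K) := hKc.cthickening
  obtain ⟨cq, Cq, hcq, hCq, hq⟩ := hQ V a b g W hF _ hK'c hδV
  set r0 : ℝ := min (δ / 2) (r1 / 2) with hr0def
  have hr0 : 0 < r0 := lt_min (by positivity) (by positivity)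
  have hr0δ : r0 ≤ δ / 2 := min_le_left _ _
  have hr0r : r0 < r1 := (min_le_right _ _).trans_lt (by linarith)
  have D : Dat V a b g W K (Metric.cthickening δ K) r0 cq Cq := by
    refine ⟨hF, hδV, hr0, hcq, hCq, ?_, ?_⟩
    · intro x hx y hxy
      obtain ⟨z, hz, hxz⟩ := Metric.mem_thickening_iff.1 hx
      refine ⟨Metric.thickening_subset_cthickening δ K
        (Metric.mem_thickening_iff.2 ⟨z, hz, by linarith⟩),
        Metric.thickening_subset_cthickening δ K (Metric.mem_thickening_iff.2 ⟨z, hz, ?_⟩)⟩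
      have := dist_triangle y x z
      rw [dist_comm y x] at this
      linarith
    · intro x hx y hy
      obtain ⟨h1, -, h3, h4, -, -⟩ := hq x hx y hy
      exact ⟨h1, h3, h4⟩
  obtain ⟨A, hA, hAb⟩ := exists_bound
  set R : ℝ := (Real.sqrt cq)⁻¹ with hR
  have hRpos : 0 < R := by positivity
  obtain ⟨Cv, tv, hCv, htv, hvol⟩ := hVOL V a b g W hF K R hKc (cslab_subset c d) hRpos
  set C0 : ℝ := A * (2 * Cq * (1 / cq + 1)) + A * (2 * Cq * (1 / cq ^ 2 + 1)) with hC0
  have hC0pos : 0 < C0 := by positivity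
  refine ⟨ker g W r0, min (cq * (r0 / 2) ^ 2) tv, R, 1 + C0 + Cv, m0, ?_⟩
  refine ⟨lt_min (by positivity) htv, hRpos, by positivity, hm0, fun t x y => ker_symm r0 t x y,
    fun t x y _ => ker_nonneg x y, ?_, ?_, ?_, ?_, ?_, ?_, ?_, ?_⟩
  · intro t x y ht
    refine (ker_le x y).trans (div_le_div_of_nonneg_right ?_ (sq_nonneg t))
    linarith
  · intro t ht htt
    exact ⟨Metric.thickening r0 K, Metric.isOpen_thickening, Metric.self_subset_thickening hr0 K,
      sub_thick D, smooth_ker D ht (lt_of_lt_of_le htt (min_le_left _ _))⟩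
  · intro t ht htt x hx y hk
    have hxt : x ∈ Metric.thickening r0 K := Metric.self_subset_thickening hr0 K hx
    have h1 : dist x y ≤ R * Real.sqrt t := by
      by_contra h
      exact hk (ker_far D ht hxt (not_le.1 h))
    have h2 : |W x - W y| < t := by
      by_contra h
      exact hk (ker_zero_W ht (not_lt.1 h))
    have h3 := R_lt hcq hr0 ht (lt_of_lt_of_le htt (min_le_left _ _))
    have h4 : dist x y < r0 := lt_of_le_of_lt h1 (by linarith)
    exact ⟨hδV (D.near x hxt y h4).2, h1, h2⟩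
  · intro t ht htt x hx y h1
    have hxt : x ∈ Metric.thickening r0 K := Metric.self_subset_thickening hr0 K hx
    have h3 := R_lt hcq hr0 ht (lt_of_lt_of_le htt (min_le_left _ _))
    have h4 : dist x y < r0 := lt_of_le_of_lt h1 (by linarith)
    exact hδV (D.near x hxt y h4).2
  · intro t ht htt x hx y hy
    have e : (fun z => ker g W r0 t x z) = fun z => ker g W r0 t z x := by
      funext z
      exact ker_symm r0 t x z
    rw [e]
    refine (comm_ker hRUL D hA hAb ht (lt_of_lt_of_le htt (min_le_left _ _)) hx hy).trans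
      (div_le_div_of_nonneg_right ?_ (sq_nonneg t))
    linarith
  · intro t ht htt x hx y hy h
    have e : (fun z => ker g W r0 t x z) = fun z => ker g W r0 t z x := by
      funext z
      exact ker_symm r0 t x z
    rw [e]
    refine ⟨loc_ker D ht hx h, loc_ker D ht hy ?_⟩
    rw [dist_comm, abs_sub_comm]
    exact h
  · intro t ht htt x hx
    refine (hvol x hx t ht (lt_of_lt_of_le htt (min_le_right _ _))).trans ?_
    refine ENNReal.ofReal_le_ofReal ?_
    gcongr
    linarith
  · intro x hx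
    exact hM1 r0 hr0 hr0r x hx

end Pool.Agent.PFlow.GB
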