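import Pool.Agent.PFlow.G.Base

/-!
# Block GB: lower bound of leaf integrals of decreasing functions of the pole function (module LOW)
-/

open MeasureTheory Filter Topology
open scoped ContDiff

namespace Pool.Agent.PFlow.GB

open Pool.Agent.PenroseSph Pool.Agent.PFlow

namespace MLOW

theorem pt0 (a b s : ℝ) : pt a b s 0 = a := by simp [pt]
theorem pt1 (a b s : ℝ) : pt a b s 1 = b := by simp [pt]
theorem pt2 (a b s : ℝ) : pt a b s 2 = s := by simp [pt]

theorem continuous_pt (s : ℝ) : Continuous (fun q : ℝ × ℝ => pt q.1 q.2 s) := by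
  unfold pt
  apply (PiLp.continuous_toLp 2 (fun _ : Fin 3 => ℝ)).comp
  apply continuous_pi
  intro i
  fin_cases i
  · exact continuous_fst
  · exact continuous_snd
  · exact continuous_const

/-- the substitution -/
theorem subst {h : ℝ → ℝ} (hh : Continuous h) {C δ : ℝ} (hC : 0 < C) (hδ : 0 < δ)
    (hvan : ∀ s, C * δ ^ 2 ≤ s → h s = 0) :
    ∫ u in (0 : ℝ)..δ, u * h (C * u ^ 2) = (1 / (2 * C)) * ∫ t in Set.Ioi (0 : ℝ), h t := by
  have h1 : ∫ u in (0 : ℝ)..δ, (h ∘ fun u => C * u ^ 2) u * (2 * C * u) =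
      ∫ t in (C * 0 ^ 2)..(C * δ ^ 2), h t := by
    apply intervalIntegral.integral_comp_mul_deriv
    · intro x _
      have h2 := (hasDerivAt_pow 2 x).const_mul C
      simp only [Nat.add_one_sub_one, pow_one, Nat.cast_ofNat] at h2
      have h3 : 2 * C * x = C * (2 * x) := by ring
      rw [h3]
      exact h2
    · fun_prop
    · exact hh
  have h2 : ∫ t in (C * 0 ^ 2)..(C * δ ^ 2), h t = ∫ t in Set.Ioi (0 : ℝ), h t := by
    have h3 : C * 0 ^ 2 = 0 := by ring
    have h4 : (0 : ℝ) ≤ C * δ ^ 2 := by positivity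
    rw [h3, intervalIntegral.integral_of_le h4]
    symm
    apply setIntegral_eq_of_subset_of_forall_sdiff_eq_zero measurableSet_Ioi
    · exact Set.Ioc_subset_Ioi_self
    · rintro t ⟨ht1, ht2⟩
      apply hvan
      by_contra hlt
      exact ht2 ⟨ht1, (not_le.mp hlt).le⟩
  rw [← h2, ← h1, ← intervalIntegral.integral_const_mul]
  apply intervalIntegral.integral_congr
  intro u _
  simp only [Function.comp]
  field_simp

end MLOW

open MLOW in
theorem LOW (hCHX : Stmt_CHX) (_hFUB : Stmt_FUB) (hPOLE : Stmt_POLE) : Stmt_LOW := by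
  intro V a b g W hF Φ z0 r e hC τ hτ
  obtain ⟨-, -, -, -, -, -, -, hjc, c0, C0, hc0, hC0, hj, -⟩ := hCHX V a b g W hF Φ z0 r e hC
  obtain ⟨hrs, c1, C1, hc1, hC1, hr, -⟩ := hPOLE V a b g W hF Φ z0 r e hC τ hτ
  obtain ⟨N, -, hbN, hΦ, -⟩ := hC.nbhd
  have hr0 := hC.r_pos
  have hob : obox z0 r e ⊆ box z0 r e := fun z hz => ⟨hz.1.le, hz.2.1.le, hz.2.2.le⟩
  have hδ0 : 0 < r - |τ| := by linarith
  set δ := r - |τ| with hδ
  have hτ1 := neg_abs_le τ
  have hτ2 := le_abs_self τ
  refine ⟨c0 / (4 * C1), 2 * C1 * δ ^ 2, by positivity, by positivity, ?_⟩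
  intro h hh h0 hanti hvan s hs
  -- the integrand
  set K : ℝ × ℝ → ℝ := fun q =>
    h (rp g W Φ z0 τ (Φ (pt q.1 q.2 s))) * jac g W Φ (pt q.1 q.2 s) with hK
  set I : Set ℝ := Set.Ioo (z0 0 - r) (z0 0 + r) with hI
  set J : Set ℝ := Set.Ioo (z0 1 - r) (z0 1 + r) with hJ
  have hmem : ∀ q ∈ I ×ˢ J, pt q.1 q.2 s ∈ obox z0 r e := by
    rintro ⟨x, y⟩ ⟨hx, hy⟩
    refine ⟨?_, ?_, ?_⟩
    · rw [pt0, abs_lt]
      exact ⟨by linarith [hx.1], by linarith [hx.2]⟩
    · rw [pt1, abs_lt]
      exact ⟨by linarith [hy.1], by linarith [hy.2]⟩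
    · rw [pt2, abs_lt]
      exact ⟨by linarith [hs.1], by linarith [hs.2]⟩
  have hKc : ContinuousOn K (I ×ˢ J) := by
    apply ContinuousOn.mul
    · apply hh.comp_continuousOn
      apply hrs.continuousOn.comp (t := Φ '' obox z0 r e)
      · apply hΦ.continuousOn.comp (continuous_pt s).continuousOn
        intro q hq
        exact hbN (hob (hmem q hq))
      · intro q hq
        exact ⟨_, hmem q hq, rfl⟩
    · apply hjc.comp (continuous_pt s).continuousOn
      intro q hq
      exact hob (hmem q hq)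
  have hrp : ∀ q ∈ I ×ˢ J, 0 ≤ rp g W Φ z0 τ (Φ (pt q.1 q.2 s)) ∧
      rp g W Φ z0 τ (Φ (pt q.1 q.2 s)) ≤
        C1 * ((q.1 - (z0 0 + τ)) ^ 2 + (q.2 - z0 1) ^ 2) := by
    intro q hq
    have h1 := hr _ (hob (hmem q hq))
    rw [pt0, pt1] at h1
    exact ⟨le_trans (by positivity) h1.1, h1.2⟩
  have hK0 : ∀ q ∈ I ×ˢ J, 0 ≤ K q := by
    intro q hq
    exact mul_nonneg (h0 _) (hc0.le.trans (hj _ (hob (hmem q hq))).1)
  have hKb : ∀ q ∈ I ×ˢ J, K q ≤ h 0 * C0 := by
    intro q hq
    have h1 := hj _ (hob (hmem q hq))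
    have h2 : h (rp g W Φ z0 τ (Φ (pt q.1 q.2 s))) ≤ h 0 :=
      hanti (Set.mem_Ici.mpr le_rfl) (hrp q hq).1 (hrp q hq).1
    exact mul_le_mul h2 h1.2.1 (hc0.le.trans h1.1) (h0 _)
  have hKn : ∀ q ∈ I ×ˢ J, ‖K q‖ ≤ h 0 * C0 := by
    intro q hq
    rw [Real.norm_eq_abs, abs_of_nonneg (hK0 q hq)]
    exact hKb q hq
  have hIJm : MeasurableSet (I ×ˢ J) := measurableSet_Ioo.prod measurableSet_Ioo
  have hKi : Integrable K ((volume.restrict I).prod (volume.restrict J)) := by
    refine Integrable.of_bound ?_ (h 0 * C0) ?_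
    · rw [Measure.prod_restrict]
      exact hKc.aestronglyMeasurable hIJm
    · rw [Measure.prod_restrict, ae_restrict_iff' hIJm]
      exact Filter.Eventually.of_forall hKn
  have hFi : IntegrableOn (fun x => ∫ y in J, K (x, y)) I := hKi.integral_prod_left
  have hKy : ∀ x ∈ I, IntegrableOn (fun y => K (x, y)) J := by
    intro x hx
    refine Integrable.of_bound ?_ (h 0 * C0) ?_
    · apply ContinuousOn.aestronglyMeasurable _ measurableSet_Ioo
      apply hKc.comp (by fun_prop)
      intro y hy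
      exact ⟨hx, hy⟩
    · rw [ae_restrict_iff' measurableSet_Ioo]
      exact Filter.Eventually.of_forall fun y hy => hKn (x, y) ⟨hx, hy⟩
  -- the comparison function
  set A : ℝ := z0 0 + τ with hA
  have hAI : Set.Ioo A (A + δ) ⊆ I := by
    intro x hx
    constructor
    · have := hx.1
      rw [hA] at this
      linarith
    · have := hx.2
      rw [hA, hδ] at this
      linarith
  set G : ℝ → ℝ := fun x => (x - A) * (c0 * h (2 * C1 * (x - A) ^ 2)) with hG
  have hlow : ∀ x ∈ Set.Ioo A (A + δ), G x ≤ ∫ y in J, K (x, y) := by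
    intro x hx
    have hxI := hAI hx
    have hx0 : 0 < x - A := by linarith [hx.1]
    have hxr : x - A ≤ r := by
      have h1 := hx.2
      have h2 := abs_nonneg τ
      rw [hδ] at h1
      linarith
    have hsub : Set.Ioo (z0 1) (z0 1 + (x - A)) ⊆ J := by
      intro y hy
      exact ⟨by linarith [hy.1], by linarith [hy.2]⟩
    have h1 : ∫ y in Set.Ioo (z0 1) (z0 1 + (x - A)), K (x, y) ≤ ∫ y in J, K (x, y) := by
      apply setIntegral_mono_set (hKy x hxI)
      · rw [Filter.EventuallyLE, ae_restrict_iff' measurableSet_Ioo]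
        exact Filter.Eventually.of_forall fun y hy => hK0 (x, y) ⟨hxI, hy⟩
      · exact LE.le.eventuallyLE hsub
    have h2 : G x = ∫ _ in Set.Ioo (z0 1) (z0 1 + (x - A)), c0 * h (2 * C1 * (x - A) ^ 2) := by
      rw [setIntegral_const, Measure.real, Real.volume_Ioo, ENNReal.toReal_ofReal (by linarith),
        smul_eq_mul, hG]
      ring
    refine le_trans ?_ h1
    rw [h2]
    apply setIntegral_mono_on
    · exact integrableOn_const (by rw [Real.volume_Ioo]; exact ENNReal.ofReal_ne_top)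
    · exact (hKy x hxI).mono_set hsub
    · exact measurableSet_Ioo
    · intro y hy
      have hq : (x, y) ∈ I ×ˢ J := ⟨hxI, hsub hy⟩
      have h3 := hrp (x, y) hq
      have h4 := hj _ (hob (hmem (x, y) hq))
      have h5 : rp g W Φ z0 τ (Φ (pt x y s)) ≤ 2 * C1 * (x - A) ^ 2 := by
        refine h3.2.trans ?_
        simp only
        have h6 : (y - z0 1) ^ 2 ≤ (x - A) ^ 2 := by
          apply pow_le_pow_left₀
          · linarith [hy.1]
          · linarith [hy.2]
        have h7 := mul_le_mul_of_nonneg_left h6 hC1.le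
        linarith
      have h6 : h (2 * C1 * (x - A) ^ 2) ≤ h (rp g W Φ z0 τ (Φ (pt x y s))) :=
        hanti h3.1 (h3.1.trans h5) h5
      change c0 * h (2 * C1 * (x - A) ^ 2) ≤
        h (rp g W Φ z0 τ (Φ (pt x y s))) * jac g W Φ (pt x y s)
      rw [mul_comm]
      exact mul_le_mul h6 h4.1 hc0.le (h0 _)
  have hGc : Continuous G := by
    rw [hG]
    fun_prop
  have hmain : ∫ x in Set.Ioo A (A + δ), G x ≤ ∫ x in I, ∫ y in J, K (x, y) := by
    have h1 : ∫ x in Set.Ioo A (A + δ), (∫ y in J, K (x, y)) ≤ ∫ x in I, ∫ y in J, K (x, y) := by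
      apply setIntegral_mono_set hFi
      · rw [Filter.EventuallyLE, ae_restrict_iff' measurableSet_Ioo]
        refine Filter.Eventually.of_forall fun x hx => ?_
        apply setIntegral_nonneg measurableSet_Ioo
        intro y hy
        exact hK0 (x, y) ⟨hx, hy⟩
      · exact LE.le.eventuallyLE hAI
    refine le_trans ?_ h1
    apply setIntegral_mono_on
    · exact (hGc.integrableOn_Icc (a := A) (b := A + δ)).mono_set Set.Ioo_subset_Icc_self
    · exact hFi.mono_set hAI
    · exact measurableSet_Ioo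
    · exact hlow
  have hcalc : ∫ x in Set.Ioo A (A + δ), G x = c0 / (4 * C1) * ∫ t in Set.Ioi (0 : ℝ), h t := by
    have h1 : ∫ x in Set.Ioo A (A + δ), G x = ∫ x in A..(A + δ), G x := by
      rw [intervalIntegral.integral_of_le (by linarith), integral_Ioc_eq_integral_Ioo]
    have h2 : ∫ x in A..(A + δ), G x = ∫ u in (0 : ℝ)..δ, u * (c0 * h (2 * C1 * u ^ 2)) := by
      have h3 := intervalIntegral.integral_comp_sub_right
        (fun u : ℝ => u * (c0 * h (2 * C1 * u ^ 2))) (a := A) (b := A + δ) A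
      rw [sub_self, add_sub_cancel_left] at h3
      exact h3
    have h4 : ∫ u in (0 : ℝ)..δ, u * (c0 * h (2 * C1 * u ^ 2)) =
        c0 * ∫ u in (0 : ℝ)..δ, u * h (2 * C1 * u ^ 2) := by
      rw [← intervalIntegral.integral_const_mul]
      apply intervalIntegral.integral_congr
      intro u _
      simp only
      ring
    rw [h1, h2, h4, subst hh (by positivity) hδ0 hvan]
    field_simp
    ring
  rw [← hcalc]
  exact hmain

end Pool.Agent.PFlow.GB
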