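import Pool.Agent.PFlow.G.QPd

/-!
# Block GB: estimates of the function `q` (module Q), part 3: identities
-/

open MeasureTheory Filter Topology
open scoped ContDiff

namespace Pool.Agent.PFlow.GB

open Pool.Agent.PenroseSph Pool.Agent.PFlow

namespace QQ

/-- the second order part of the first derivatives of `q` -/
noncomputable def er (g : TensorField) (k : Fin 3) (x y : E3) : ℝ :=
  (1 / 2) * ∑ i, ∑ j, pd k (fun z => g z i j) x * (x i - y i) * (x j - y j) +
    ∑ j, (g y k j - g x k j) * (x j - y j)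

/-- the remainder of the Taylor expansion of `g` -/
noncomputable def rem (g : TensorField) (i j : Fin 3) (x y : E3) : ℝ :=
  g y i j - g x i j + ∑ p, pd p (fun z => g z i j) x * (x p - y p)

lemma pd_qf_eq {g : TensorField} {x y : E3} (hg : ∀ i j, DifferentiableAt ℝ (fun z => g z i j) x)
    (hx : ∀ i j, g x i j = g x j i) (hy : ∀ i j, g y i j = g y j i) (k : Fin 3) :
    pd k (fun z => qf g z y) x = 2 * ∑ j, g x k j * (x j - y j) + er g k x y := by
  rw [pd_qf hg y k]
  unfold er dl
  have h1 := hx 1 0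
  have h2 := hx 2 0
  have h3 := hx 2 1
  have h4 := hy 1 0
  have h5 := hy 2 0
  have h6 := hy 2 1
  simp only [Fin.sum_univ_three]
  fin_cases k <;> simp [h1, h2, h3, h4, h5, h6] <;> ring

lemma ev_add_left (B : Bil) (u v w : Cov) : ev B (fun i => u i + v i) w = ev B u w + ev B v w := by
  unfold ev
  simp only [Fin.sum_univ_three]
  ring

/-- `g⁻¹` in the direction `2 g v + e` -/
lemma ev_inv {G : Bil} (hG : ∀ i j, G i j = G j i) (hdet : IsUnit G.det) (v e : Cov) :
    ev G⁻¹ (fun k => 2 * ∑ j, G k j * v j + e k) (fun k => 2 * ∑ j, G k j * v j + e k) =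
      4 * ∑ i, ∑ j, G i j * v i * v j + 4 * ∑ i, v i * e i + ev G⁻¹ e e := by
  have hs : G.transpose = G := by
    ext i j
    exact hG j i
  have hs' : (G⁻¹).transpose = G⁻¹ := by
    rw [Matrix.transpose_nonsing_inv, hs]
  have h1 : ∀ a c, ∑ b, (G⁻¹) a b * G b c = if a = c then 1 else 0 := by
    intro a c
    have := congrFun (congrFun (Matrix.nonsing_inv_mul G hdet) a) c
    rw [Matrix.mul_apply, Matrix.one_apply] at this
    exact this
  have hsym : ∀ a b, (G⁻¹) a b = (G⁻¹) b a := fun a b => by
    have := congrFun (congrFun hs' b) a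
    exact this
  have key : ∀ a, ∑ b, (G⁻¹) a b * (2 * ∑ j, G b j * v j) = 2 * v a := by
    intro a
    have h2 : ∑ b, (G⁻¹) a b * (2 * ∑ j, G b j * v j) =
        2 * ∑ j, (∑ b, (G⁻¹) a b * G b j) * v j := by
      simp only [Fin.sum_univ_three]
      ring
    rw [h2]
    simp only [h1]
    fin_cases a <;> simp
  have k0 := key 0
  have k1 := key 1
  have k2 := key 2
  have e1 : ev G⁻¹ (fun k => 2 * ∑ j, G k j * v j + e k) (fun k => 2 * ∑ j, G k j * v j + e k) =
      ∑ a, (2 * ∑ j, G a j * v j + e a) * ∑ b, (G⁻¹) a b * (2 * ∑ j, G b j * v j) +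
      ∑ a, e a * ∑ b, (G⁻¹) a b * (2 * ∑ j, G b j * v j) + ev G⁻¹ e e := by
    unfold ev
    simp only [Fin.sum_univ_three]
    rw [hsym 1 0, hsym 2 0, hsym 2 1]
    ring
  rw [e1]
  simp only [key]
  simp only [Fin.sum_univ_three]
  ring

/-- the first identity -/
lemma ev_qf {g : TensorField} {x y : E3} (hg : ∀ i j, DifferentiableAt ℝ (fun z => g z i j) x)
    (hx : ∀ i j, g x i j = g x j i) (hy : ∀ i j, g y i j = g y j i)
    (hdet : IsUnit (g x).det) :
    ev (g x)⁻¹ (grad (fun z => qf g z y) x) (grad (fun z => qf g z y) x) - 4 * qf g x y =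
      2 * ∑ i, ∑ j, rem g i j x y * (x i - y i) * (x j - y j) +
        ev (g x)⁻¹ (fun k => er g k x y) (fun k => er g k x y) := by
  have h1 : grad (fun z => qf g z y) x =
      fun k => 2 * ∑ j, g x k j * (x j - y j) + er g k x y := by
    funext k
    exact pd_qf_eq hg hx hy k
  rw [h1, ev_inv hx hdet (fun j => x j - y j) (fun k => er g k x y)]
  generalize ev (g x)⁻¹ (fun k => er g k x y) (fun k => er g k x y) = Z
  unfold er rem qf
  simp only [Fin.sum_univ_three]
  ring

lemma christoffel_lower {g : TensorField} {x : E3} (hx : ∀ i j, g x i j = g x j i)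
    (hdet : IsUnit (g x).det) (k l j : Fin 3) :
    ∑ m, christoffel g m k l x * g x m j =
      (1 / 2) * (pd k (fun z => g z l j) x + pd l (fun z => g z k j) x
        - pd j (fun z => g z k l) x) := by
  have h1 : ∀ a c, ∑ b, g x a b * (g x)⁻¹ b c = if a = c then 1 else 0 := by
    intro a c
    have := congrFun (congrFun (Matrix.mul_nonsing_inv (g x) hdet) a) c
    rw [Matrix.mul_apply, Matrix.one_apply] at this
    exact this
  have h2 : ∑ m, christoffel g m k l x * g x m j =
      (1 / 2) * ∑ a, (∑ m, g x j m * (g x)⁻¹ m a) *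
        (pd k (fun z => g z l a) x + pd l (fun z => g z k a) x - pd a (fun z => g z k l) x) := by
    unfold christoffel
    simp only [Fin.sum_univ_three, hx j 0, hx j 1, hx j 2]
    ring
  rw [h2]
  simp only [h1]
  fin_cases j <;> simp

/-- the second identity -/
lemma hess_qf {g : TensorField} {V : Set E3} (hV : IsOpen V)
    (hg : ∀ i j, ContDiffOn ℝ ∞ (fun z => g z i j) V) (hs : ∀ z ∈ V, ∀ i j, g z i j = g z j i)
    {x y : E3} (hxV : x ∈ V) (hyV : y ∈ V) (hdet : IsUnit (g x).det) (k l : Fin 3) :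
    pd k (pd l (fun z => qf g z y)) x
        - ∑ m, christoffel g m k l x * pd m (fun z => qf g z y) x - 2 * g x k l =
      (1 / 2) * ∑ i, ∑ j, pd k (pd l (fun z => g z i j)) x * (x i - y i) * (x j - y j) +
        rem g k l x y - ∑ m, christoffel g m k l x * er g m x y := by
  have hd : ∀ i j, DifferentiableAt ℝ (fun z => g z i j) x := fun i j =>
    (contDiffAt_of hV (hg i j) hxV).differentiableAt (by simp)
  have hsd : ∀ a i j, pd a (fun z => g z i j) x = pd a (fun z => g z j i) x := by
    intro a i j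
    apply pd_congr
    filter_upwards [hV.mem_nhds hxV] with z hz
    exact hs z hz i j
  have hsum : ∑ m, christoffel g m k l x * pd m (fun z => qf g z y) x =
      2 * ∑ j, (∑ m, christoffel g m k l x * g x m j) * (x j - y j) +
        ∑ m, christoffel g m k l x * er g m x y := by
    simp only [pd_qf_eq hd (hs x hxV) (hs y hyV)]
    simp only [Fin.sum_univ_three]
    ring
  rw [hsum]
  simp only [christoffel_lower (hs x hxV) hdet]
  rw [pd2_qf hV hg hxV]
  have hx := hs x hxV
  have hy := hs y hyV
  have h1 := hx 1 0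
  have h2 := hx 2 0
  have h3 := hx 2 1
  have h4 := hy 1 0
  have h5 := hy 2 0
  have h6 := hy 2 1
  have s1 := fun a => hsd a 1 0
  have s2 := fun a => hsd a 2 0
  have s3 := fun a => hsd a 2 1
  generalize ∑ m, christoffel g m k l x * er g m x y = Z
  unfold rem dl
  simp only [Fin.sum_univ_three]
  fin_cases k <;> fin_cases l <;> simp [h1, h2, h3, h4, h5, h6, s1, s2, s3] <;> ring

end QQ

end Pool.Agent.PFlow.GB
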