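import Pool.Agent.PFlow.G.Base
import Pool.Agent.PenroseSph.Calc

/-!
# Block GB: estimates of the function `q` (module Q), part 1: error terms and Taylor's formula
-/

open MeasureTheory Filter Topology
open scoped ContDiff

namespace Pool.Agent.PFlow.GB

open Pool.Agent.PenroseSph Pool.Agent.PFlow

namespace QQ

/-- `E(x, y) = O(|x - y| ^ n)` on `K`. -/
def Od (K : Set E3) (n : ℕ) (E : E3 → E3 → ℝ) : Prop :=
  ∃ C : ℝ, 0 ≤ C ∧ ∀ x ∈ K, ∀ y ∈ K, |E x y| ≤ C * dist x y ^ n

variable {K : Set E3} {n m : ℕ} {E F : E3 → E3 → ℝ}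

lemma Od.congr (h : Od K n E) (hEF : ∀ x ∈ K, ∀ y ∈ K, F x y = E x y) : Od K n F := by
  obtain ⟨C, hC, h⟩ := h
  exact ⟨C, hC, fun x hx y hy => by rw [hEF x hx y hy]; exact h x hx y hy⟩

lemma Od.add (hE : Od K n E) (hF : Od K n F) : Od K n (fun x y => E x y + F x y) := by
  obtain ⟨C, hC, h⟩ := hE
  obtain ⟨D, hD, h'⟩ := hF
  refine ⟨C + D, by positivity, fun x hx y hy => ?_⟩
  calc |E x y + F x y| ≤ |E x y| + |F x y| := abs_add_le _ _
    _ ≤ C * dist x y ^ n + D * dist x y ^ n := add_le_add (h x hx y hy) (h' x hx y hy)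
    _ = (C + D) * dist x y ^ n := by ring

lemma Od.neg (hE : Od K n E) : Od K n (fun x y => - E x y) := by
  obtain ⟨C, hC, h⟩ := hE
  exact ⟨C, hC, fun x hx y hy => by rw [abs_neg]; exact h x hx y hy⟩

lemma Od.sub (hE : Od K n E) (hF : Od K n F) : Od K n (fun x y => E x y - F x y) := by
  refine (hE.add hF.neg).congr fun x _ y _ => ?_
  ring

lemma Od.mul (hE : Od K n E) (hF : Od K m F) : Od K (n + m) (fun x y => E x y * F x y) := by
  obtain ⟨C, hC, h⟩ := hE
  obtain ⟨D, hD, h'⟩ := hF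
  refine ⟨C * D, by positivity, fun x hx y hy => ?_⟩
  rw [abs_mul]
  calc |E x y| * |F x y| ≤ (C * dist x y ^ n) * (D * dist x y ^ m) :=
        mul_le_mul (h x hx y hy) (h' x hx y hy) (abs_nonneg _) (by positivity)
    _ = C * D * dist x y ^ (n + m) := by ring

lemma Od.zero : Od K n (fun _ _ => 0) :=
  ⟨0, le_refl _, fun x _ y _ => by simp⟩

lemma Od.sum {ι : Type*} (s : Finset ι) {E : ι → E3 → E3 → ℝ} (h : ∀ i ∈ s, Od K n (E i)) :
    Od K n (fun x y => ∑ i ∈ s, E i x y) := by
  classical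
  induction s using Finset.induction_on with
  | empty => simpa using Od.zero
  | insert a s ha ih =>
    have h1 := (h a (Finset.mem_insert_self a s)).add
      (ih fun i hi => h i (Finset.mem_insert_of_mem hi))
    refine h1.congr fun x _ y _ => ?_
    rw [Finset.sum_insert ha]

lemma Od.cmul (hE : Od K n E) (c : ℝ) : Od K n (fun x y => c * E x y) := by
  obtain ⟨C, hC, h⟩ := hE
  refine ⟨|c| * C, by positivity, fun x hx y hy => ?_⟩
  rw [abs_mul, mul_assoc]
  exact mul_le_mul_of_nonneg_left (h x hx y hy) (abs_nonneg c)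

lemma Od.mono (hK : IsCompact K) (hE : Od K n E) (hmn : m ≤ n) : Od K m E := by
  obtain ⟨C, hC, h⟩ := hE
  obtain ⟨R, hR⟩ := hK.isBounded.exists_norm_le
  refine ⟨C * (2 * |R|) ^ (n - m), by positivity, fun x hx y hy => (h x hx y hy).trans ?_⟩
  have h1 : dist x y ≤ 2 * |R| := by
    rw [dist_eq_norm]
    have := norm_sub_le x y
    have h2 := hR x hx
    have h3 := hR y hy
    have h4 := le_abs_self R
    linarith
  have h2 : dist x y ^ n = dist x y ^ (n - m) * dist x y ^ m := by
    rw [← pow_add, Nat.sub_add_cancel hmn]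
  rw [h2, mul_assoc]
  refine mul_le_mul_of_nonneg_left ?_ hC
  exact mul_le_mul_of_nonneg_right (pow_le_pow_left₀ dist_nonneg h1 _) (by positivity)

lemma Od.of_cont (hK : IsCompact K) {f : E3 → ℝ} (hf : ContinuousOn f K) :
    Od K 0 (fun x _ => f x) := by
  obtain ⟨C, hC⟩ := hK.exists_bound_of_continuousOn hf
  refine ⟨|C|, abs_nonneg _, fun x hx y _ => ?_⟩
  rw [pow_zero, mul_one]
  have := hC x hx
  rw [Real.norm_eq_abs] at this
  exact this.trans (le_abs_self C)

lemma Od.of_cont' (hK : IsCompact K) {f : E3 → ℝ} (hf : ContinuousOn f K) :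
    Od K 0 (fun _ y => f y) := by
  obtain ⟨C, hC, h⟩ := Od.of_cont hK hf
  exact ⟨C, hC, fun x hx y hy => by simpa using h y hy x hx⟩

lemma Od.coord (i : Fin 3) : Od K 1 (fun x y => x i - y i) := by
  refine ⟨1, zero_le_one, fun x _ y _ => ?_⟩
  rw [one_mul, pow_one, dist_eq_norm]
  have := PiLp.norm_apply_le (x - y) i
  simpa using this

lemma fderiv_sum (f : E3 → ℝ) (x w : E3) : fderiv ℝ f x w = ∑ p, pd p f x * w p := by
  have h : w = ∑ p, w p • (EuclideanSpace.single p (1 : ℝ) : E3) := by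
    ext i
    simp only [WithLp.ofLp_sum, WithLp.ofLp_smul, Finset.sum_apply, Pi.smul_apply, smul_eq_mul,
      PiLp.ofLp_single, Pi.single_apply]
    simp
  conv_lhs => rw [h]
  rw [map_sum]
  refine Finset.sum_congr rfl fun p _ => ?_
  rw [map_smul, smul_eq_mul, mul_comm]
  rfl

lemma exists_fderiv_bound {F : Type*} [NormedAddCommGroup F] [NormedSpace ℝ F] {h : E3 → F}
    {S : Set E3} (hS : IsCompact S) (hh : ∀ z ∈ S, ContDiffAt ℝ ∞ h z) :
    ∃ M : ℝ, ∀ z ∈ S, ‖fderiv ℝ h z‖ ≤ M := by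
  have hd1 : ∀ z ∈ S, ContDiffAt ℝ ∞ (fderiv ℝ h) z := fun z hz =>
    (hh z hz).fderiv_right (m := ∞) (by simp)
  exact hS.exists_bound_of_continuousOn
    (fun z hz => (hd1 z hz).continuousAt.continuousWithinAt)

section Taylor

variable {V : Set E3} {f : E3 → ℝ}

lemma contDiffAt_of (hV : IsOpen V) (hf : ContDiffOn ℝ ∞ f V) {x : E3} (hx : x ∈ V) :
    ContDiffAt ℝ ∞ f x := (hf x hx).contDiffAt (hV.mem_nhds hx)

lemma contDiffAt_pd {x : E3} (hf : ContDiffAt ℝ ∞ f x) (i : Fin 3) :
    ContDiffAt ℝ ∞ (pd i f) x := by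
  unfold pd
  have h : ContDiffAt ℝ ∞ (fderiv ℝ f) x := hf.fderiv_right (m := ∞) (by simp)
  exact h.clm_apply contDiffAt_const

lemma contDiffOn_pd (hV : IsOpen V) (hf : ContDiffOn ℝ ∞ f V) (i : Fin 3) :
    ContDiffOn ℝ ∞ (pd i f) V := fun _ hx =>
  (contDiffAt_pd (contDiffAt_of hV hf hx) i).contDiffWithinAt

lemma taylor (hV : IsOpen V) (hf : ContDiffOn ℝ ∞ f V) (hK : IsCompact K) (hKV : K ⊆ V) :
    Od K 1 (fun x y => f y - f x) ∧
      Od K 2 (fun x y => f y - f x + ∑ p, pd p f x * (x p - y p)) := by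
  obtain ⟨δ, hδ, hsub⟩ := hK.exists_cthickening_subset_open hV hKV
  have hK' : IsCompact (Metric.cthickening δ K) := hK.cthickening
  have hKK : K ⊆ Metric.cthickening δ K := Metric.self_subset_cthickening K
  have hd : ∀ z ∈ Metric.cthickening δ K, ContDiffAt ℝ ∞ f z := fun z hz =>
    contDiffAt_of hV hf (hsub hz)
  have hd1 : ∀ z ∈ Metric.cthickening δ K, ContDiffAt ℝ ∞ (fderiv ℝ f) z := fun z hz =>
    (hd z hz).fderiv_right (m := ∞) (by simp)
  obtain ⟨M0, h0⟩ := hK'.exists_bound_of_continuousOn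
    (fun z hz => (hd z hz).continuousAt.continuousWithinAt)
  obtain ⟨M1, h1⟩ := hK'.exists_bound_of_continuousOn
    (fun z hz => (hd1 z hz).continuousAt.continuousWithinAt)
  obtain ⟨M2, h2⟩ := exists_fderiv_bound hK' hd1
  have hball : ∀ x ∈ K, ∀ y, dist x y ≤ δ →
      Metric.closedBall x (dist x y) ⊆ Metric.cthickening δ K := by
    intro x hx y hxy z hz
    exact Metric.mem_cthickening_of_dist_le z x δ K hx ((Metric.mem_closedBall.mp hz).trans hxy)
  have hsum : ∀ x y : E3, ∑ p, pd p f x * (x p - y p) = - fderiv ℝ f x (y - x) := by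
    intro x y
    rw [fderiv_sum, ← Finset.sum_neg_distrib]
    refine Finset.sum_congr rfl fun p _ => ?_
    simp only [WithLp.ofLp_sub, Pi.sub_apply]
    ring
  have hlin : ∀ x ∈ K, ∀ y : E3, |∑ p, pd p f x * (x p - y p)| ≤ |M1| * dist x y := by
    intro x hx y
    rw [hsum, abs_neg, dist_comm, dist_eq_norm]
    have h3 := (fderiv ℝ f x).le_opNorm (y - x)
    rw [Real.norm_eq_abs] at h3
    refine h3.trans (mul_le_mul_of_nonneg_right ?_ (norm_nonneg _))
    exact (h1 x (hKK hx)).trans (le_abs_self M1)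
  have habs : ∀ x ∈ K, |f x| ≤ |M0| := fun x hx => by
    have := h0 x (hKK hx)
    rw [Real.norm_eq_abs] at this
    exact this.trans (le_abs_self M0)
  have hfar : ∀ x ∈ K, ∀ y ∈ K, |f y - f x| ≤ 2 * |M0| := by
    intro x hx y hy
    have h3 := abs_sub (f y) (f x)
    have h4 := habs x hx
    have h5 := habs y hy
    linarith
  constructor
  · refine ⟨|M1| + 2 * |M0| / δ, by positivity, fun x hx y hy => ?_⟩
    rw [pow_one]
    rcases le_or_gt (dist x y) δ with hxy | hxy
    · have h3 := (convex_closedBall x (dist x y)).norm_image_sub_le_of_norm_fderiv_le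
        (fun z hz => (hd z (hball x hx y hxy hz)).differentiableAt (by simp))
        (fun z hz => (h1 z (hball x hx y hxy hz)).trans (le_abs_self M1))
        (Metric.mem_closedBall_self dist_nonneg) (by rw [Metric.mem_closedBall, dist_comm])
      rw [Real.norm_eq_abs, ← dist_eq_norm, dist_comm y x] at h3
      refine h3.trans (mul_le_mul_of_nonneg_right ?_ dist_nonneg)
      have : 0 ≤ 2 * |M0| / δ := by positivity
      linarith
    · refine (hfar x hx y hy).trans ?_
      have h4 : 2 * |M0| = 2 * |M0| / δ * δ := by field_simp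
      have h5 : 2 * |M0| / δ * δ ≤ 2 * |M0| / δ * dist x y :=
        mul_le_mul_of_nonneg_left hxy.le (by positivity)
      have h6 : 0 ≤ |M1| * dist x y := by positivity
      rw [add_mul]
      linarith
  · refine ⟨|M2| + (2 * |M0| / δ ^ 2 + |M1| / δ), by positivity, fun x hx y hy => ?_⟩
    rcases le_or_gt (dist x y) δ with hxy | hxy
    · have h3 : ∀ z ∈ Metric.closedBall x (dist x y),
          ‖fderiv ℝ f z - fderiv ℝ f x‖ ≤ |M2| * dist x y := by
        intro z hz
        have h4 := (convex_closedBall x (dist x y)).norm_image_sub_le_of_norm_fderiv_le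
          (fun z hz => (hd1 z (hball x hx y hxy hz)).differentiableAt (by simp))
          (fun z hz => (h2 z (hball x hx y hxy hz)).trans (le_abs_self M2))
          (Metric.mem_closedBall_self dist_nonneg) hz
        refine h4.trans (mul_le_mul_of_nonneg_left ?_ (abs_nonneg _))
        rw [← dist_eq_norm]
        exact Metric.mem_closedBall.mp hz
      have h5 := (convex_closedBall x (dist x y)).norm_image_sub_le_of_norm_fderiv_le'
        (fun z hz => (hd z (hball x hx y hxy hz)).differentiableAt (by simp)) h3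
        (Metric.mem_closedBall_self dist_nonneg)
        (by rw [Metric.mem_closedBall, dist_comm] : y ∈ Metric.closedBall x (dist x y))
      rw [Real.norm_eq_abs, ← dist_eq_norm, dist_comm y x] at h5
      change |f y - f x + ∑ p, pd p f x * (x p - y p)| ≤ _
      rw [hsum, ← sub_eq_add_neg]
      refine h5.trans ?_
      have h6 : |M2| * dist x y * dist x y = |M2| * dist x y ^ 2 := by ring
      rw [h6]
      refine mul_le_mul_of_nonneg_right ?_ (by positivity)
      have : 0 ≤ 2 * |M0| / δ ^ 2 + |M1| / δ := by positivity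
      linarith
    · change |f y - f x + ∑ p, pd p f x * (x p - y p)| ≤ _
      have h3 := abs_add_le (f y - f x) (∑ p, pd p f x * (x p - y p))
      have h4 := hfar x hx y hy
      have h5 := hlin x hx y
      have e1 : 2 * |M0| ≤ 2 * |M0| / δ ^ 2 * dist x y ^ 2 := by
        have : 2 * |M0| = 2 * |M0| / δ ^ 2 * δ ^ 2 := by field_simp
        calc 2 * |M0| = 2 * |M0| / δ ^ 2 * δ ^ 2 := this
          _ ≤ 2 * |M0| / δ ^ 2 * dist x y ^ 2 :=
            mul_le_mul_of_nonneg_left (pow_le_pow_left₀ hδ.le hxy.le 2) (by positivity)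
      have e2 : |M1| * dist x y ≤ |M1| / δ * dist x y ^ 2 := by
        have : |M1| * dist x y = |M1| / δ * (δ * dist x y) := by field_simp
        rw [this, pow_two]
        exact mul_le_mul_of_nonneg_left (mul_le_mul_of_nonneg_right hxy.le dist_nonneg)
          (by positivity)
      have e3 : 0 ≤ |M2| * dist x y ^ 2 := by positivity
      rw [add_mul, add_mul]
      linarith

end Taylor

end QQ

end Pool.Agent.PFlow.GB
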