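import Pool.Agent.PFlow.G.QOd

/-!
# Block GB: estimates of the function `q` (module Q), part 2: the derivatives of `q`
-/

open MeasureTheory Filter Topology
open scoped ContDiff

namespace Pool.Agent.PFlow.GB

open Pool.Agent.PenroseSph Pool.Agent.PFlow

namespace QQ

/-- Kronecker symbol -/
def dl (i j : Fin 3) : ℝ := if i = j then 1 else 0

lemma pd_coord_sub (k i : Fin 3) (y x : E3) : pd k (fun z => z i - y i) x = dl k i := by
  rw [pd_sub (differentiableAt_coord i) (differentiableAt_const _), pd_coord, pd_const, sub_zero]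
  rfl

lemma diff_coord_sub (i : Fin 3) (y x : E3) : DifferentiableAt ℝ (fun z : E3 => z i - y i) x :=
  (differentiableAt_coord i).sub (differentiableAt_const _)

lemma pd_term (A : E3 → ℝ) (c : ℝ) (y x : E3) (i j k : Fin 3) (hA : DifferentiableAt ℝ A x) :
    pd k (fun z => (A z + c) * (z i - y i) * (z j - y j)) x =
      pd k A x * (x i - y i) * (x j - y j) +
        (A x + c) * (dl k i * (x j - y j) + (x i - y i) * dl k j) := by
  have h1 : DifferentiableAt ℝ (fun z => A z + c) x := hA.add (differentiableAt_const c)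
  have h2 := diff_coord_sub i y x
  have h3 := diff_coord_sub j y x
  rw [pd_mul (h1.fun_mul h2) h3, pd_mul h1 h2, pd_add hA (differentiableAt_const c), pd_const,
    pd_coord_sub, pd_coord_sub]
  ring

lemma diff_term (A : E3 → ℝ) (c : ℝ) (y x : E3) (i j : Fin 3) (hA : DifferentiableAt ℝ A x) :
    DifferentiableAt ℝ (fun z => (A z + c) * (z i - y i) * (z j - y j)) x :=
  ((hA.add (differentiableAt_const c)).mul (diff_coord_sub i y x)).mul (diff_coord_sub j y x)

lemma pd_term2 (A : E3 → ℝ) (c a b : ℝ) (y x : E3) (i j k : Fin 3)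
    (hA : DifferentiableAt ℝ A x) :
    pd k (fun z => (A z + c) * (a * (z j - y j) + (z i - y i) * b)) x =
      pd k A x * (a * (x j - y j) + (x i - y i) * b) +
        (A x + c) * (a * dl k j + dl k i * b) := by
  have h1 : DifferentiableAt ℝ (fun z => A z + c) x := hA.add (differentiableAt_const c)
  have h2 := diff_coord_sub i y x
  have h3 := diff_coord_sub j y x
  have h4 : DifferentiableAt ℝ (fun z => a * (z j - y j) + (z i - y i) * b) x :=
    (h3.const_mul a).add (h2.mul_const b)
  rw [pd_mul h1 h4, pd_add hA (differentiableAt_const c), pd_const,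
    pd_add (h3.const_mul a) (h2.mul_const b), pd_const_mul a h3, pd_mul_const b h2,
    pd_coord_sub, pd_coord_sub]
  ring

lemma diff_term2 (A : E3 → ℝ) (c a b : ℝ) (y x : E3) (i j : Fin 3)
    (hA : DifferentiableAt ℝ A x) :
    DifferentiableAt ℝ (fun z => (A z + c) * (a * (z j - y j) + (z i - y i) * b)) x :=
  (hA.add (differentiableAt_const c)).mul
    (((diff_coord_sub j y x).const_mul a).add ((diff_coord_sub i y x).mul_const b))

/-- the first derivatives of `q` -/
lemma pd_qf {g : TensorField} {x : E3} (hg : ∀ i j, DifferentiableAt ℝ (fun z => g z i j) x)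
    (y : E3) (k : Fin 3) :
    pd k (fun z => qf g z y) x = (1 / 2) * ∑ i, ∑ j,
      (pd k (fun z => g z i j) x * (x i - y i) * (x j - y j) +
        (g x i j + g y i j) * (dl k i * (x j - y j) + (x i - y i) * dl k j)) := by
  unfold qf
  have h : ∀ i j, DifferentiableAt ℝ
      (fun z => (g z i j + g y i j) * (z i - y i) * (z j - y j)) x := fun i j =>
    diff_term _ _ y x i j (hg i j)
  have h2 : ∀ i, DifferentiableAt ℝ
      (fun z => ∑ j, (g z i j + g y i j) * (z i - y i) * (z j - y j)) x := fun i =>
    DifferentiableAt.fun_sum fun j _ => h i j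
  rw [pd_const_mul _ (DifferentiableAt.fun_sum fun i _ => h2 i), pd_sum _ _ fun i _ => h2 i]
  congr 1
  refine Finset.sum_congr rfl fun i _ => ?_
  rw [pd_sum _ _ fun j _ => h i j]
  refine Finset.sum_congr rfl fun j _ => ?_
  exact pd_term _ _ y x i j k (hg i j)

/-- the second derivatives of `q` -/
lemma pd2_qf {g : TensorField} {V : Set E3} (hV : IsOpen V)
    (hg : ∀ i j, ContDiffOn ℝ ∞ (fun z => g z i j) V) {x : E3} (hx : x ∈ V)
    (y : E3) (k l : Fin 3) :
    pd k (pd l (fun z => qf g z y)) x = (1 / 2) * ∑ i, ∑ j,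
      (pd k (pd l (fun z => g z i j)) x * (x i - y i) * (x j - y j) +
        pd l (fun z => g z i j) x * (dl k i * (x j - y j) + (x i - y i) * dl k j) +
        pd k (fun z => g z i j) x * (dl l i * (x j - y j) + (x i - y i) * dl l j) +
        (g x i j + g y i j) * (dl l i * dl k j + dl k i * dl l j)) := by
  have hd : ∀ z ∈ V, ∀ i j, DifferentiableAt ℝ (fun z => g z i j) z := fun z hz i j =>
    (contDiffAt_of hV (hg i j) hz).differentiableAt (by simp)
  have hd1 : ∀ i j, DifferentiableAt ℝ (pd l (fun z => g z i j)) x := fun i j =>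
    (contDiffAt_pd (contDiffAt_of hV (hg i j) hx) l).differentiableAt (by simp)
  have hev : pd l (fun z => qf g z y) =ᶠ[𝓝 x] fun x => (1 / 2) * ∑ i, ∑ j,
      ((pd l (fun z => g z i j) x + 0) * (x i - y i) * (x j - y j) +
        (g x i j + g y i j) * (dl l i * (x j - y j) + (x i - y i) * dl l j)) := by
    filter_upwards [hV.mem_nhds hx] with z hz
    rw [pd_qf (hd z hz) y l]
    simp only [add_zero]
  rw [pd_congr hev]
  have h : ∀ i j, DifferentiableAt ℝ
      (fun x => (pd l (fun z => g z i j) x + 0) * (x i - y i) * (x j - y j) +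
        (g x i j + g y i j) * (dl l i * (x j - y j) + (x i - y i) * dl l j)) x := fun i j =>
    (diff_term _ 0 y x i j (hd1 i j)).add (diff_term2 _ _ _ _ y x i j (hd x hx i j))
  have h2 : ∀ i, DifferentiableAt ℝ
      (fun x => ∑ j, ((pd l (fun z => g z i j) x + 0) * (x i - y i) * (x j - y j) +
        (g x i j + g y i j) * (dl l i * (x j - y j) + (x i - y i) * dl l j))) x := fun i =>
    DifferentiableAt.fun_sum fun j _ => h i j
  rw [pd_const_mul _ (DifferentiableAt.fun_sum fun i _ => h2 i), pd_sum _ _ fun i _ => h2 i]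
  congr 1
  refine Finset.sum_congr rfl fun i _ => ?_
  rw [pd_sum _ _ fun j _ => h i j]
  refine Finset.sum_congr rfl fun j _ => ?_
  rw [pd_add (diff_term _ 0 y x i j (hd1 i j)) (diff_term2 _ _ _ _ y x i j (hd x hx i j)),
    pd_term _ 0 y x i j k (hd1 i j), pd_term2 _ _ _ _ y x i j k (hd x hx i j)]
  ring

end QQ

end Pool.Agent.PFlow.GB
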